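import Pool.Agent.IND2I.IDefs

/-!
# IND2I, module Arc: the arcs of `{b ≤ 0}`, integer order `p ≥ 1` (trigonometry)

`bb p θ = (-1)^p cos (pθ)`, `aa p θ = (-1)^p cos ((p+1)θ)`, `LE p l`: `l ∈ [0,π]`, `cos (p l) = 0`, `(-1)^p sin (p l) > 0`; `RE p r`: `< 0`.
If `cos (pθ) = 0` then `aa = -(-1)^p sin (pθ) sin θ`, `sin (pθ) = ±1`, and `θ ≠ 0, π` (`cos 0`, `cos (pπ)` are `±1`), so `sin θ > 0`:
`LE_facts`, `RE_facts`, `bb_zero`.  `bb_pi`: `(-1)^p cos (pπ) = 1`.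
`finite_zeros`: `θ = (2i+1)π/(2p)`, `0 ≤ i < p` (or: zeros of an analytic nonzero function in a compact set).
`exists_RE`: `r = π - π/(2p)`: `p r = pπ - π/2`, `cos = 0`, `(-1)^p sin (pπ - π/2) = -1`.
`arc_sup` (`bb x < 0`, `aa x > 0`).  Let `u = p x`, and let `m` be the integer with `|u - mπ| < π/2` (it exists because `cos u ≠ 0`), `m ≥ 0`;
`cos u` has the sign `(-1)^m`, so `p + m` is odd.  Put `r = (m + 1/2)π/p`: `r ≤ π` because `m ≤ p - 1` (`m ≤ p` and `p + m` odd),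
`cos (pr) = 0`, `(-1)^p sin (pr) = (-1)^{p+m} = -1`: `RE`.  On `(l, r)`, `l = (m - 1/2)π/p`, `bb < 0`.  If `m ≥ 1`: `l ≥ 0`, `(-1)^p sin (pl) = (-1)^{p+m-1} = 1`,
so `aa l < 0`; `x ≠ l`; by continuity `aa < 0` on some `(l, l + η)`: take `s ∈ (l, min x (l + η))`, `p (r - s) < p (r - l) = π`.
If `m = 0`: `p` is odd, `s = 0`: `aa 0 = -1`, `bb 0 = -1`, `p (r - 0) = π/2`, `x > 0` because `aa 0 < 0`.
`arc_RE` is the same construction for a given `r` (`r = (m + 1/2)π/p` with `p + m` odd because `(-1)^p sin (pr) < 0`).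
-/

set_option autoImplicit false

namespace Pool.Agent.IND2I

open MeasureTheory Set Helper25.Ind

theorem bb_eq (p : ℕ) (θ : ℝ) : bb p θ = (-1) ^ p * Real.cos ((p : ℝ) * θ) := by
  unfold bb
  rw [Nat.floor_natCast]

theorem aa_eq (p : ℕ) (θ : ℝ) : aa p θ = (-1) ^ p * Real.cos (((p : ℝ) + 1) * θ) := by
  unfold aa
  rw [Nat.floor_natCast]

theorem LE_iff (p : ℕ) (l : ℝ) : LE p l ↔ 0 ≤ l ∧ l ≤ Real.pi ∧ Real.cos ((p : ℝ) * l) = 0 ∧
    0 < (-1) ^ p * Real.sin ((p : ℝ) * l) := by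
  unfold Helper25.Ind.LE
  rw [Nat.floor_natCast]

theorem RE_iff (p : ℕ) (r : ℝ) : RE p r ↔ 0 ≤ r ∧ r ≤ Real.pi ∧ Real.cos ((p : ℝ) * r) = 0 ∧
    (-1) ^ p * Real.sin ((p : ℝ) * r) < 0 := by
  unfold RE
  rw [Nat.floor_natCast]

theorem neg_one_sq (p : ℕ) : ((-1 : ℝ) ^ p) * (-1) ^ p = 1 := by
  rw [← mul_pow]
  norm_num

theorem bb_pi {p : ℕ} : bb p Real.pi = 1 := by
  rw [bb_eq, Real.cos_nat_mul_pi, neg_one_sq]

theorem zero_facts {p : ℕ} {θ : ℝ} (h0 : 0 ≤ θ) (h1 : θ ≤ Real.pi)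
    (hc : Real.cos ((p : ℝ) * θ) = 0) : 0 < θ ∧ θ < Real.pi ∧ bb p θ = 0 ∧
      aa p θ = -((-1) ^ p * Real.sin ((p : ℝ) * θ)) * Real.sin θ ∧ 0 < Real.sin θ := by
  have h2 : 0 < θ := by
    rcases h0.eq_or_lt with h | h
    · rw [← h, mul_zero, Real.cos_zero] at hc
      norm_num at hc
    · exact h
  have h3 : θ < Real.pi := by
    rcases h1.eq_or_lt with h | h
    · rw [h, Real.cos_nat_mul_pi] at hc
      have h4 := neg_one_sq p
      rw [hc] at h4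
      norm_num at h4
    · exact h
  refine ⟨h2, h3, ?_, ?_, Real.sin_pos_of_pos_of_lt_pi h2 h3⟩
  · rw [bb_eq, hc, mul_zero]
  · rw [aa_eq, add_mul, one_mul, Real.cos_add, hc]
    ring

theorem LE_facts {p : ℕ} (hp : 1 ≤ p) {l : ℝ} (hl : LE p l) :
    0 < l ∧ l < Real.pi ∧ bb p l = 0 ∧ aa p l < 0 := by
  obtain ⟨h0, h1, hc, hs⟩ := (LE_iff p l).1 hl
  obtain ⟨a, b, c, d, e⟩ := zero_facts h0 h1 hc
  refine ⟨a, b, c, ?_⟩
  rw [d]
  nlinarith [mul_pos hs e]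

theorem RE_facts {p : ℕ} (hp : 1 ≤ p) {r : ℝ} (hr : RE p r) :
    0 < r ∧ r < Real.pi ∧ bb p r = 0 ∧ 0 < aa p r := by
  obtain ⟨h0, h1, hc, hs⟩ := (RE_iff p r).1 hr
  obtain ⟨a, b, c, d, e⟩ := zero_facts h0 h1 hc
  refine ⟨a, b, c, ?_⟩
  rw [d]
  exact mul_pos (by linarith) e

theorem cos_zero_of_bb {p : ℕ} {θ : ℝ} (hb : bb p θ = 0) : Real.cos ((p : ℝ) * θ) = 0 := by
  rw [bb_eq] at hb
  have h1 := neg_one_sq p
  rcases mul_eq_zero.1 hb with h | h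
  · rw [h] at h1
    norm_num at h1
  · exact h

theorem bb_zero {p : ℕ} (hp : 1 ≤ p) {θ : ℝ} (h : θ ∈ Icc (0 : ℝ) Real.pi) (hb : bb p θ = 0) :
    LE p θ ∨ RE p θ := by
  have hc := cos_zero_of_bb hb
  have h1 := neg_one_sq p
  have h2 : (-1) ^ p * Real.sin ((p : ℝ) * θ) ≠ 0 := by
    intro h3
    have h4 := Real.sin_sq_add_cos_sq ((p : ℝ) * θ)
    rcases mul_eq_zero.1 h3 with h5 | h5
    · rw [h5] at h1
      norm_num at h1
    · rw [h5, hc] at h4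
      norm_num at h4
  rcases lt_or_gt_of_ne h2 with h3 | h3
  · exact Or.inr ((RE_iff p θ).2 ⟨h.1, h.2, hc, h3⟩)
  · exact Or.inl ((LE_iff p θ).2 ⟨h.1, h.2, hc, h3⟩)

theorem finite_zeros {p : ℕ} (hp : 1 ≤ p) : {θ : ℝ | θ ∈ Icc (0 : ℝ) Real.pi ∧ bb p θ = 0}.Finite := by
  have hp0 : (0 : ℝ) < p := by exact_mod_cast hp
  refine ((Set.finite_Icc (-1 : ℤ) p).image
    (fun k : ℤ => (2 * (k : ℝ) + 1) * Real.pi / 2 / p)).subset ?_
  rintro θ ⟨⟨h0, h1⟩, hb⟩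
  obtain ⟨k, hk⟩ := Real.cos_eq_zero_iff.1 (cos_zero_of_bb hb)
  have hpi := Real.pi_pos
  refine ⟨k, ⟨?_, ?_⟩, ?_⟩
  · by_contra h
    have h2 : (k : ℝ) + 1 ≤ -1 := by
      have : k + 1 ≤ -1 := by omega
      exact_mod_cast this
    have h3 : 0 ≤ (p : ℝ) * θ := mul_nonneg hp0.le h0
    rw [hk] at h3
    nlinarith
  · by_contra h
    have h2 : (p : ℝ) + 1 ≤ k := by
      have : (p : ℤ) + 1 ≤ k := by omega
      exact_mod_cast this
    have h3 : (p : ℝ) * θ ≤ p * Real.pi := mul_le_mul_of_nonneg_left h1 hp0.le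
    rw [hk] at h3
    nlinarith
  · show (2 * (k : ℝ) + 1) * Real.pi / 2 / p = θ
    rw [← hk]
    field_simp

theorem exists_RE {p : ℕ} (hp : 1 ≤ p) : ∃ r, RE p r := by
  have hp1 : (1 : ℝ) ≤ p := by exact_mod_cast hp
  have hp0 : (0 : ℝ) < p := by linarith
  have hpi := Real.pi_pos
  have h1 : (p : ℝ) * (Real.pi - Real.pi / 2 / p) = p * Real.pi - Real.pi / 2 := by
    field_simp
  have h2 : Real.pi / 2 / p ≤ Real.pi := by
    rw [div_le_iff₀ hp0]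
    nlinarith
  refine ⟨Real.pi - Real.pi / 2 / p, (RE_iff p _).2 ⟨by linarith, ?_, ?_, ?_⟩⟩
  · have : 0 ≤ Real.pi / 2 / p := by positivity
    linarith
  · rw [h1, Real.cos_sub_pi_div_two, Real.sin_nat_mul_pi]
  · rw [h1, Real.sin_sub_pi_div_two, Real.cos_nat_mul_pi]
    have := neg_one_sq p
    linarith

/-- `bb < 0` on the arc number `m` -/
theorem bb_arc {p m : ℕ} (hodd : Odd (p + m)) {y : ℝ} (h1 : ((m : ℝ) - 1 / 2) * Real.pi < p * y)
    (h2 : (p : ℝ) * y < ((m : ℝ) + 1 / 2) * Real.pi) : bb p y < 0 := by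
  have h3 : Real.cos ((p : ℝ) * y) = (-1) ^ m * Real.cos ((p : ℝ) * y - m * Real.pi) := by
    have h4 := Real.cos_add ((p : ℝ) * y - m * Real.pi) (m * Real.pi)
    rw [sub_add_cancel, Real.sin_nat_mul_pi, Real.cos_nat_mul_pi, mul_zero, sub_zero] at h4
    rw [h4, mul_comm]
  have h4 : 0 < Real.cos ((p : ℝ) * y - m * Real.pi) :=
    Real.cos_pos_of_mem_Ioo ⟨by linarith, by linarith⟩
  rw [bb_eq, h3, ← mul_assoc, ← pow_add, hodd.neg_one_pow]
  linarith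

theorem RE_arc {p m : ℕ} (hodd : Odd (p + m)) (hmp : m < p) :
    RE p (((m : ℝ) + 1 / 2) * Real.pi / p) := by
  have hp0 : (0 : ℝ) < p := by exact_mod_cast (Nat.zero_le m).trans_lt hmp
  have hpi := Real.pi_pos
  have hm : (m : ℝ) + 1 ≤ p := by exact_mod_cast hmp
  have h1 : (p : ℝ) * (((m : ℝ) + 1 / 2) * Real.pi / p) = m * Real.pi + Real.pi / 2 := by
    field_simp
  refine (RE_iff p _).2 ⟨by positivity, ?_, ?_, ?_⟩
  · rw [div_le_iff₀ hp0]
    nlinarith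
  · rw [h1, Real.cos_add_pi_div_two, Real.sin_nat_mul_pi, neg_zero]
  · rw [h1, Real.sin_add_pi_div_two, Real.cos_nat_mul_pi, ← pow_add, hodd.neg_one_pow]
    norm_num

theorem arc_core {p m : ℕ} (hp : 1 ≤ p) (hodd : Odd (p + m)) (hmp : m < p) {x : ℝ} (hx0 : 0 < x)
    (hxl : ((m : ℝ) - 1 / 2) * Real.pi < p * x) :
    ∃ s : ℝ, 0 ≤ s ∧ s < x ∧ ((m : ℝ) - 1 / 2) * Real.pi < p * s ∧ aa p s ≤ 0 := by
  have hp0 : (0 : ℝ) < p := by exact_mod_cast hp
  have hpi := Real.pi_pos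
  rcases Nat.eq_zero_or_pos m with rfl | hm
  · refine ⟨0, le_rfl, hx0, ?_, ?_⟩
    · push_cast
      nlinarith
    · rw [aa_eq, mul_zero, Real.cos_zero, mul_one]
      rw [add_zero] at hodd
      rw [hodd.neg_one_pow]
      norm_num
  · have hm1 : (1 : ℝ) ≤ m := by exact_mod_cast hm
    have hm2 : (m : ℝ) + 1 ≤ p := by exact_mod_cast hmp
    obtain ⟨l, hl⟩ : ∃ l : ℝ, l = ((m : ℝ) - 1 / 2) * Real.pi / p := ⟨_, rfl⟩
    have h1 : (p : ℝ) * l = m * Real.pi - Real.pi / 2 := by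
      rw [hl]
      field_simp
    have hl0 : 0 ≤ l := by
      rw [hl]
      exact div_nonneg (mul_nonneg (by linarith) hpi.le) hp0.le
    have hLE : LE p l := by
      refine (LE_iff p l).2 ⟨hl0, ?_, ?_, ?_⟩
      · rw [hl, div_le_iff₀ hp0]
        nlinarith
      · rw [h1, Real.cos_sub_pi_div_two, Real.sin_nat_mul_pi]
      · rw [h1, Real.sin_sub_pi_div_two, Real.cos_nat_mul_pi, mul_neg, ← pow_add,
          hodd.neg_one_pow]
        norm_num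
    have hlx : l < x := by
      by_contra h
      push Not at h
      have := mul_le_mul_of_nonneg_left h hp0.le
      nlinarith
    have hcont : Continuous (fun θ : ℝ => aa p θ) := by
      have : (fun θ : ℝ => aa p θ) = fun θ => (-1) ^ p * Real.cos (((p : ℝ) + 1) * θ) := by
        funext θ
        exact aa_eq p θ
      rw [this]
      fun_prop
    have h2 : ∀ᶠ y in nhds l, aa p y < 0 :=
      (hcont.tendsto l).eventually_lt_const (LE_facts hp hLE).2.2.2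
    have h3 : ∀ᶠ y in nhdsWithin l (Ioi l), aa p y < 0 := h2.filter_mono nhdsWithin_le_nhds
    have h4 : ∀ᶠ y in nhdsWithin l (Ioi l), y ∈ Ioo l x := Ioo_mem_nhdsGT hlx
    obtain ⟨s, hs1, hs2, hs3⟩ := (h3.and h4).exists
    refine ⟨s, by linarith, hs3, ?_, hs1.le⟩
    have := mul_lt_mul_of_pos_left hs2 hp0
    nlinarith

theorem arc_sup {p : ℕ} (hp : 1 ≤ p) {x : ℝ} (hx : x ∈ Icc (0 : ℝ) Real.pi) (hb : bb p x < 0)
    (ha : 0 < aa p x) : ∃ s r : ℝ, 0 ≤ s ∧ s < x ∧ x < r ∧ RE p r ∧ (p : ℝ) * (r - s) < Real.pi ∧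
      bb p s < 0 ∧ aa p s ≤ 0 ∧ ∀ y, s ≤ y → y < r → bb p y < 0 := by
  have hp0 : (0 : ℝ) < p := by exact_mod_cast hp
  have hpi := Real.pi_pos
  obtain ⟨h0, h1⟩ := hx
  obtain ⟨k, hk⟩ : ∃ k : ℤ, k = ⌊(p : ℝ) * x / Real.pi + 1 / 2⌋ := ⟨_, rfl⟩
  have hk1 : (k : ℝ) ≤ (p : ℝ) * x / Real.pi + 1 / 2 := by
    rw [hk]
    exact Int.floor_le _
  have hk2 : (p : ℝ) * x / Real.pi + 1 / 2 < (k : ℝ) + 1 := by
    rw [hk]
    exact Int.lt_floor_add_one _
  have hu : (p : ℝ) * x / Real.pi * Real.pi = p * x := by field_simp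
  have hk3 : ((k : ℝ) - 1 / 2) * Real.pi ≤ p * x := by
    rw [← hu]
    exact mul_le_mul_of_nonneg_right (by linarith) hpi.le
  have hk4 : (p : ℝ) * x < ((k : ℝ) + 1 / 2) * Real.pi := by
    rw [← hu]
    exact mul_lt_mul_of_pos_right (by linarith) hpi
  have hpx : 0 ≤ (p : ℝ) * x := mul_nonneg hp0.le h0
  have hpx1 : (p : ℝ) * x ≤ p * Real.pi := mul_le_mul_of_nonneg_left h1 hp0.le
  have hk0 : 0 ≤ k := by
    by_contra h
    have h2 : (k : ℝ) ≤ -1 := by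
      have : k ≤ -1 := by omega
      exact_mod_cast this
    nlinarith
  obtain ⟨m, rfl⟩ := Int.eq_ofNat_of_zero_le hk0
  have hkm : (((m : ℤ) : ℤ) : ℝ) = (m : ℝ) := by norm_cast
  simp only [Int.ofNat_eq_natCast, hkm] at hk3 hk4
  have hmp : m ≤ p := by
    by_contra h
    have h2 : (p : ℝ) + 1 ≤ m := by
      have : p + 1 ≤ m := by omega
      exact_mod_cast this
    nlinarith
  have h3 : Real.cos ((p : ℝ) * x) = (-1) ^ m * Real.cos ((p : ℝ) * x - m * Real.pi) := by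
    have h4 := Real.cos_add ((p : ℝ) * x - m * Real.pi) (m * Real.pi)
    rw [sub_add_cancel, Real.sin_nat_mul_pi, Real.cos_nat_mul_pi, mul_zero, sub_zero] at h4
    rw [h4, mul_comm]
  have h4 : 0 ≤ Real.cos ((p : ℝ) * x - m * Real.pi) :=
    Real.cos_nonneg_of_mem_Icc ⟨by linarith, by linarith⟩
  have hodd : Odd (p + m) := by
    rw [← Nat.not_even_iff_odd]
    intro he
    rw [bb_eq, h3, ← mul_assoc, ← pow_add, he.neg_one_pow] at hb
    linarith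
  have hmp' : m < p := by
    rcases hmp.eq_or_lt with h | h
    · rw [h] at hodd
      exact absurd hodd (by simp)
    · exact h
  have hxl : ((m : ℝ) - 1 / 2) * Real.pi < p * x := by
    rcases hk3.eq_or_lt with h | h
    · exfalso
      have h5 : Real.cos ((p : ℝ) * x - m * Real.pi) = 0 := by
        rw [← h, show ((m : ℝ) - 1 / 2) * Real.pi - m * Real.pi = -(Real.pi / 2) by ring,
          Real.cos_neg, Real.cos_pi_div_two]
      rw [bb_eq, h3, h5, mul_zero, mul_zero] at hb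
      exact lt_irrefl _ hb
    · exact h
  have hx0 : 0 < x := by
    rcases h0.eq_or_lt with h | h
    · exfalso
      rw [← h, mul_zero] at hxl
      have hm0 : m = 0 := by
        by_contra h5
        have h6 : (1 : ℝ) ≤ m := by exact_mod_cast Nat.one_le_iff_ne_zero.2 h5
        nlinarith
      rw [← h, aa_eq, mul_zero, Real.cos_zero, mul_one] at ha
      rw [hm0, add_zero] at hodd
      rw [hodd.neg_one_pow] at ha
      norm_num at ha
    · exact h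
  obtain ⟨s, hs0, hsx, hsl, hsa⟩ := arc_core hp hodd hmp' hx0 hxl
  have hr : (p : ℝ) * (((m : ℝ) + 1 / 2) * Real.pi / p) = ((m : ℝ) + 1 / 2) * Real.pi := by
    field_simp
  have hall : ∀ y, s ≤ y → y < ((m : ℝ) + 1 / 2) * Real.pi / p → bb p y < 0 := by
    intro y hy1 hy2
    refine bb_arc hodd (hsl.trans_le (mul_le_mul_of_nonneg_left hy1 hp0.le)) ?_
    rw [← hr]
    exact mul_lt_mul_of_pos_left hy2 hp0
  have hxr : x < ((m : ℝ) + 1 / 2) * Real.pi / p := by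
    rw [lt_div_iff₀ hp0]
    linarith
  refine ⟨s, ((m : ℝ) + 1 / 2) * Real.pi / p, hs0, hsx, hxr, RE_arc hodd hmp', ?_,
    hall s le_rfl (hsx.trans hxr), hsa, hall⟩
  rw [mul_sub, hr]
  linarith

theorem arc_RE {p : ℕ} (hp : 1 ≤ p) {r : ℝ} (hr : RE p r) : ∃ s : ℝ, 0 ≤ s ∧ s < r ∧
    (p : ℝ) * (r - s) < Real.pi ∧ bb p s < 0 ∧ aa p s ≤ 0 ∧ ∀ y, s ≤ y → y < r → bb p y < 0 := by
  have hp0 : (0 : ℝ) < p := by exact_mod_cast hp
  have hpi := Real.pi_pos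
  obtain ⟨h0, h1, hc, hs⟩ := (RE_iff p r).1 hr
  have hr0 := (RE_facts hp hr).1
  have hr1 := (RE_facts hp hr).2.1
  obtain ⟨k, hk⟩ := Real.cos_eq_zero_iff.1 hc
  have hpr : 0 < (p : ℝ) * r := mul_pos hp0 hr0
  have hpr1 : (p : ℝ) * r < p * Real.pi := mul_lt_mul_of_pos_left hr1 hp0
  have hk0 : 0 ≤ k := by
    by_contra h
    have h2 : (k : ℝ) ≤ -1 := by
      have : k ≤ -1 := by omega
      exact_mod_cast this
    nlinarith
  obtain ⟨m, rfl⟩ := Int.eq_ofNat_of_zero_le hk0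
  have hkm : (((m : ℤ) : ℤ) : ℝ) = (m : ℝ) := by norm_cast
  simp only [Int.ofNat_eq_natCast, hkm] at hk
  have hmr : (p : ℝ) * r = m * Real.pi + Real.pi / 2 := by
    rw [hk]
    ring
  have hmp : m < p := by
    by_contra h
    have h2 : (p : ℝ) ≤ m := by
      have : p ≤ m := by omega
      exact_mod_cast this
    nlinarith
  have hodd : Odd (p + m) := by
    rw [← Nat.not_even_iff_odd]
    intro he
    rw [hmr, Real.sin_add_pi_div_two, Real.cos_nat_mul_pi, ← pow_add, he.neg_one_pow] at hs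
    norm_num at hs
  obtain ⟨s, hs0, hsx, hsl, hsa⟩ := arc_core hp hodd hmp hr0 (by rw [hmr]; nlinarith)
  have hall : ∀ y, s ≤ y → y < r → bb p y < 0 := by
    intro y hy1 hy2
    refine bb_arc hodd (hsl.trans_le (mul_le_mul_of_nonneg_left hy1 hp0.le)) ?_
    have h5 := mul_lt_mul_of_pos_left hy2 hp0
    rw [hmr] at h5
    linarith
  refine ⟨s, hs0, hsx, ?_, hall s le_rfl hsx, hsa, hall⟩
  rw [mul_sub, hmr]
  linarith

end Pool.Agent.IND2I
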