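import Mathlib

/-!
# IND2I, module Rel: the relation between a left and a right end point

PROOF.  `kl`, `kr` are integrable (`cmp` with `s = 0`: `|k (±u)| ≤ C e^{-γ u} kr 0`).  Let `I = ∫ |kl|`, `J = ∫ kr > 0`, `δ' > 0` small,
`q = (I/J)(1 + δ')` (if `I = 0` take `q = δ'`; in fact `I > 0`; or use `q = I/J + δ'` throughout: the computation below only needs
`q J ≥ I + δ' J`).  For `s` large, `T ≥ 1` large: `nl = (1/2T) 1_{[-T,T]} dx`, `nr = (q/2T) 1_{[-T-s, T+s]} dx`; `nr(ℝ) = q (1 + s/T)`.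
Claim `E(y) := q ∫_{[-T-s,T+s]} kr (x - y) dx - ∫_{[-T,T]} |kl (x - y)| dx ≥ 0`.
`|y| ≤ T + s/2`: `[y - s/2, y + s/2] ⊆ [-T-s, T+s]`, so the first integral is `≥ J - 2 C kr(0) e^{-γ s/2}/γ` and the second `≤ I`: fine if
`q (J - 2 C kr 0 e^{-γ s/2}/γ) ≥ I`.
`y > T + s/2`: put `s₁ = T + s/2 - y < 0`.  For `x ≤ T`, `x = T - u`: `x - y = s₁ - (u + s/2)`, `|kl (x - y)| ≤ C e^{-γ (u + s/2)} kr s₁`, second
integral `≤ (C/γ) e^{-γ s/2} kr s₁`.  First integral `≥ ∫_{u' ∈ [0,1]} kr (s₁ + u') du'` (`s ≥ 2`), and `kr s₁ ≤ C' kr (s₁ + u')`: if `s₁ + u' ≤ 0` this is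
`cmp` for `kr` (`s₁ = (s₁ + u') - u'`), otherwise both arguments are in `[-1, 1]`, where `kr` is bounded above and below (continuous,
positive).  So `E ≥ (q/C' - (C/γ) e^{-γ s/2}) kr s₁ ≥ 0` for `s` large.  `y < -T - s/2` symmetric.
First fix `δ' = δ/2`, then `s`, then `T` with `q s/T ≤ δ/2`.
-/

set_option autoImplicit false

namespace Pool.Agent.IND2I

open MeasureTheory Set

/-- integrability from exponential decay -/
private theorem rel_int {f : ℝ → ℝ} {γ B : ℝ} (hγ0 : 0 < γ) (hf : Continuous f)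
    (h1 : ∀ u, 0 ≤ u → |f u| ≤ B * Real.exp (-(γ * u)))
    (h2 : ∀ u, 0 ≤ u → |f (-u)| ≤ B * Real.exp (-(γ * u))) : Integrable f := by
  rw [← integrableOn_univ, ← Iic_union_Ioi (a := (0 : ℝ))]
  refine IntegrableOn.union ?_ ?_
  · refine Integrable.mono' ((integrableOn_exp_mul_Iic hγ0 0).const_mul B)
      hf.aestronglyMeasurable ?_
    filter_upwards [ae_restrict_mem measurableSet_Iic] with u hu
    have := h2 (-u) (by simpa using hu)
    rw [neg_neg] at this
    rw [Real.norm_eq_abs]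
    refine this.trans (le_of_eq ?_)
    congr 2
    ring
  · refine Integrable.mono' ((integrableOn_exp_mul_Ioi (a := -γ) (by linarith) 0).const_mul B)
      hf.aestronglyMeasurable ?_
    filter_upwards [ae_restrict_mem measurableSet_Ioi] with u hu
    have := h1 u (le_of_lt hu)
    rw [Real.norm_eq_abs]
    refine this.trans (le_of_eq ?_)
    congr 2
    ring

/-- the estimate far away, on the right -/
private theorem rel_far {a k : ℝ → ℝ} {γ C C' q s T y : ℝ} (hγ0 : 0 < γ) (hC' : 0 < C')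
    (ha : Continuous a) (hk : Continuous k) (hpos : ∀ s, 0 < k s)
    (hcl : ∀ s u, s ≤ 0 → 0 ≤ u → a (s - u) ≤ C * Real.exp (-(γ * u)) * k s)
    (hck : ∀ s u, s ≤ 0 → 0 ≤ u → u ≤ 1 → k s ≤ C' * k (s + u)) (hq : 0 ≤ q) (hs : 2 ≤ s)
    (hT : 0 ≤ T) (hC : 0 ≤ C) (hqs : C / γ * Real.exp (-(γ * (s / 2))) ≤ q / C')
    (hy : T + s / 2 < y) :
    ∫ z in (-T - y)..(T - y), a z ≤ q * ∫ z in (-T - s - y)..(T + s - y), k z := by
  obtain ⟨s1, hs1⟩ : ∃ s1, s1 = T + s / 2 - y := ⟨_, rfl⟩
  have hs10 : s1 < 0 := by rw [hs1]; linarith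
  have hk1 := hpos s1
  -- the first integral
  have e1 : ∫ z in (-T - y)..(T - y), a z ≤ C / γ * Real.exp (-(γ * (s / 2))) * k s1 := by
    have h1 : ∫ z in (-T - y)..(T - y), a z ≤
        ∫ z in (-T - y)..(T - y), C * k s1 * Real.exp (γ * (z - s1)) := by
      refine intervalIntegral.integral_mono_on (by linarith) (ha.intervalIntegrable _ _)
        (Continuous.intervalIntegrable (by fun_prop) _ _) (fun z hz => ?_)
      have h2 := hcl s1 (s1 - z) hs10.le (by rw [hs1]; linarith [hz.2])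
      rw [sub_sub_cancel] at h2
      refine h2.trans (le_of_eq ?_)
      have h3 : -(γ * (s1 - z)) = γ * (z - s1) := by ring
      rw [h3]
      ring
    refine h1.trans ?_
    have h4 : ∀ z : ℝ, HasDerivAt (fun z => C * k s1 * (Real.exp (γ * (z - s1)) / γ))
        (C * k s1 * Real.exp (γ * (z - s1))) z := by
      intro z
      have h5 : HasDerivAt (fun z : ℝ => γ * (z - s1)) (γ * 1) z :=
        ((hasDerivAt_id z).sub_const s1).const_mul γ
      have h6 := ((h5.exp).div_const γ).const_mul (C * k s1)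
      refine h6.congr_deriv ?_
      field_simp
    rw [intervalIntegral.integral_eq_sub_of_hasDerivAt (fun z _ => h4 z)
      (Continuous.intervalIntegrable (by fun_prop) _ _)]
    have h7 : γ * (T - y - s1) = -(γ * (s / 2)) := by rw [hs1]; ring
    rw [h7]
    have h8 : 0 ≤ C * k s1 * (Real.exp (γ * (-T - y - s1)) / γ) := by positivity
    have h9 : C * k s1 * (Real.exp (-(γ * (s / 2))) / γ) =
        C / γ * Real.exp (-(γ * (s / 2))) * k s1 := by ring
    linarith
  -- the second integral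
  have e2 : k s1 / C' ≤ ∫ z in (-T - s - y)..(T + s - y), k z := by
    have h1 : ∫ z in s1..(s1 + 1), k z ≤ ∫ z in (-T - s - y)..(T + s - y), k z := by
      refine intervalIntegral.integral_mono_interval (by rw [hs1]; linarith) (by linarith)
        (by rw [hs1]; linarith) ?_ (hk.intervalIntegrable _ _)
      exact Filter.Eventually.of_forall fun z => (hpos z).le
    refine le_trans ?_ h1
    have h2 : ∫ _ in s1..(s1 + 1), k s1 / C' ≤ ∫ z in s1..(s1 + 1), k z := by
      refine intervalIntegral.integral_mono_on (by linarith)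
        (Continuous.intervalIntegrable continuous_const _ _) (hk.intervalIntegrable _ _)
        (fun z hz => ?_)
      have h3 := hck s1 (z - s1) hs10.le (by linarith [hz.1]) (by linarith [hz.2])
      rw [add_sub_cancel] at h3
      rw [div_le_iff₀ hC']
      linarith
    rw [intervalIntegral.integral_const] at h2
    simpa using h2
  refine e1.trans ?_
  calc C / γ * Real.exp (-(γ * (s / 2))) * k s1 ≤ q / C' * k s1 :=
        mul_le_mul_of_nonneg_right hqs hk1.le
    _ = q * (k s1 / C') := by ring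
    _ ≤ _ := mul_le_mul_of_nonneg_left e2 hq

/-- a weight of the form constant times Lebesgue measure on an interval -/
private theorem rel_mes {f : ℝ → ℝ} (c L : ℝ) (hc : 0 ≤ c) (hL : 0 ≤ L) (y : ℝ) :
    ∫ x, f (x - y) ∂((ENNReal.ofReal c) • (volume.restrict (Icc (-L) L))) =
      c * ∫ z in (-L - y)..(L - y), f z := by
  rw [integral_smul_measure, ENNReal.toReal_ofReal hc, integral_Icc_eq_integral_Ioc,
    ← intervalIntegral.integral_of_le (by linarith), intervalIntegral.integral_comp_sub_right,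
    smul_eq_mul]

private theorem rel_mass (c L : ℝ) (hc : 0 ≤ c) (hL : 0 ≤ L) :
    ((ENNReal.ofReal c) • (volume.restrict (Icc (-L) L)) : Measure ℝ).real univ =
      c * (2 * L) := by
  rw [Measure.real, Measure.smul_apply, Measure.restrict_apply_univ, Real.volume_Icc,
    smul_eq_mul, ENNReal.toReal_mul, ENNReal.toReal_ofReal hc, ENNReal.toReal_ofReal (by linarith)]
  ring

private theorem rel_supp (c L L' : ℝ) (h : L ≤ L') :
    ((ENNReal.ofReal c) • (volume.restrict (Icc (-L) L)) : Measure ℝ) (Icc (-L') L')ᶜ = 0 := by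
  rw [Measure.smul_apply, Measure.restrict_apply measurableSet_Icc.compl]
  have : (Icc (-L') L')ᶜ ∩ Icc (-L) L = ∅ := by
    ext z
    simp only [mem_inter_iff, mem_compl_iff, mem_Icc, mem_empty_iff_false, iff_false, not_and]
    intro h1 h2 h3
    exact h1 (by linarith) (by linarith)
  rw [this, measure_empty, smul_zero]

theorem rel_lr {kl kr : ℝ → ℝ} {γ C : ℝ} (hγ0 : 0 < γ) (hC : 1 ≤ C) (hl : Continuous kl)
    (hr : Continuous kr) (hneg : ∀ s, kl s < 0) (hpos : ∀ s, 0 < kr s)
    (hcl : (∀ s u, 0 ≤ s → 0 ≤ u → |kl (s + u)| ≤ C * Real.exp (-(γ * u)) * kr s) ∧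
      (∀ s u, s ≤ 0 → 0 ≤ u → |kl (s - u)| ≤ C * Real.exp (-(γ * u)) * kr s))
    (hcr : (∀ s u, 0 ≤ s → 0 ≤ u → |kr (s + u)| ≤ C * Real.exp (-(γ * u)) * kr s) ∧
      (∀ s u, s ≤ 0 → 0 ≤ u → |kr (s - u)| ≤ C * Real.exp (-(γ * u)) * kr s)) {δ : ℝ} (hδ : 0 < δ) :
    ∃ (nl nr : Measure ℝ) (T : ℝ), IsFiniteMeasure nl ∧ IsFiniteMeasure nr ∧
      nl (Icc (-T) T)ᶜ = 0 ∧ nr (Icc (-T) T)ᶜ = 0 ∧ nl.real univ = 1 ∧
      nr.real univ ≤ (∫ s, |kl s|) / (∫ s, kr s) + δ ∧
      ∀ y, 0 ≤ (∫ x, kl (x - y) ∂nl) + ∫ x, kr (x - y) ∂nr := by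
  have hCp : 0 < C := by linarith
  have ha : Continuous (fun s => |kl s|) := hl.abs
  have ilk : Integrable (fun s => |kl s|) := by
    refine rel_int (B := C * kr 0) hγ0 ha (fun u hu => ?_) (fun u hu => ?_)
    · rw [abs_abs]
      have := hcl.1 0 u le_rfl hu
      rw [zero_add] at this
      linarith
    · rw [abs_abs]
      have := hcl.2 0 u le_rfl hu
      rw [zero_sub] at this
      linarith
  have irk : Integrable kr := by
    refine rel_int (B := C * kr 0) hγ0 hr (fun u hu => ?_) (fun u hu => ?_)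
    · have := hcr.1 0 u le_rfl hu
      rw [zero_add] at this
      linarith
    · have := hcr.2 0 u le_rfl hu
      rw [zero_sub] at this
      linarith
  obtain ⟨I, hI⟩ : ∃ I, I = ∫ s, |kl s| := ⟨_, rfl⟩
  obtain ⟨J, hJ⟩ : ∃ J, J = ∫ s, kr s := ⟨_, rfl⟩
  have hI0 : 0 ≤ I := by rw [hI]; exact integral_nonneg fun s => abs_nonneg _
  have hJ0 : 0 < J := by
    rw [hJ]
    exact integral_pos_of_integrable_nonneg_nonzero hr irk (fun s => (hpos s).le)
      (x := 0) (hpos 0).ne'
  obtain ⟨q, hq⟩ : ∃ q, q = I / J + δ / 2 := ⟨_, rfl⟩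
  have hq0 : 0 < q := by rw [hq]; positivity
  have hqJ : I < q * J := by
    have h1 : q * J = I + δ / 2 * J := by rw [hq, add_mul, div_mul_cancel₀ _ hJ0.ne']
    have h2 : 0 < δ / 2 * J := by positivity
    linarith
  -- the constant `C'`
  obtain ⟨Mx, hMx⟩ := (isCompact_Icc (a := (-1 : ℝ)) (b := 1)).exists_isMaxOn
    ⟨0, by norm_num, by norm_num⟩ hr.continuousOn
  obtain ⟨mn, hmn⟩ := (isCompact_Icc (a := (-1 : ℝ)) (b := 1)).exists_isMinOn
    ⟨0, by norm_num, by norm_num⟩ hr.continuousOn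
  have hMx' : ∀ z ∈ Icc (-1 : ℝ) 1, kr z ≤ kr Mx := fun z hz => hMx.2 hz
  have hmn' : ∀ z ∈ Icc (-1 : ℝ) 1, kr mn ≤ kr z := fun z hz => hmn.2 hz
  obtain ⟨C', hC'⟩ : ∃ C', C' = C + kr Mx / kr mn := ⟨_, rfl⟩
  have hr1 : 0 < kr Mx / kr mn := div_pos (hpos _) (hpos _)
  have hC'0 : 0 < C' := by rw [hC']; positivity
  have near : ∀ z w : ℝ, z ∈ Icc (-1 : ℝ) 1 → w ∈ Icc (-1 : ℝ) 1 → kr z ≤ C' * kr w := by
    intro z w hz hw
    have h1 := hMx' z hz
    have h2 := hmn' w hw
    have h3 : kr Mx = kr Mx / kr mn * kr mn := by rw [div_mul_cancel₀ _ (hpos mn).ne']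
    have h4 : kr Mx / kr mn * kr mn ≤ kr Mx / kr mn * kr w :=
      mul_le_mul_of_nonneg_left h2 hr1.le
    have h5 : 0 ≤ C * kr w := mul_nonneg hCp.le (hpos w).le
    rw [hC', add_mul]
    linarith
  have hexp1 : ∀ u : ℝ, 0 ≤ u → Real.exp (-(γ * u)) ≤ 1 := fun u hu =>
    Real.exp_le_one_iff.2 (by have := mul_nonneg hγ0.le hu; linarith)
  have hckL : ∀ s u, s ≤ 0 → 0 ≤ u → u ≤ 1 → kr s ≤ C' * kr (s + u) := by
    intro s u hs hu hu1
    rcases le_or_gt (s + u) 0 with h | h
    · have h1 := hcr.2 (s + u) u h hu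
      rw [add_sub_cancel_right] at h1
      have h2 := (le_abs_self _).trans h1
      have h3 : C * Real.exp (-(γ * u)) * kr (s + u) ≤ C * 1 * kr (s + u) :=
        mul_le_mul_of_nonneg_right (mul_le_mul_of_nonneg_left (hexp1 u hu) hCp.le) (hpos _).le
      have h4 : 0 ≤ kr Mx / kr mn * kr (s + u) := mul_nonneg hr1.le (hpos _).le
      rw [hC', add_mul]
      linarith
    · exact near s (s + u) ⟨by linarith, by linarith⟩ ⟨by linarith, by linarith⟩
  have hckR : ∀ s u, s ≤ 0 → 0 ≤ u → u ≤ 1 → kr (-s) ≤ C' * kr (-(s + u)) := by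
    intro s u hs hu hu1
    rcases le_or_gt (s + u) 0 with h | h
    · have h1 := hcr.1 (-(s + u)) u (by linarith) hu
      have e : -(s + u) + u = -s := by ring
      rw [e] at h1
      have h2 := (le_abs_self _).trans h1
      have h3 : C * Real.exp (-(γ * u)) * kr (-(s + u)) ≤ C * 1 * kr (-(s + u)) :=
        mul_le_mul_of_nonneg_right (mul_le_mul_of_nonneg_left (hexp1 u hu) hCp.le) (hpos _).le
      have h4 : 0 ≤ kr Mx / kr mn * kr (-(s + u)) := mul_nonneg hr1.le (hpos _).le
      rw [hC', add_mul]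
      linarith
    · exact near (-s) (-(s + u)) ⟨by linarith, by linarith⟩ ⟨by linarith, by linarith⟩
  -- choice of `s`
  have t1 : Filter.Tendsto (fun s : ℝ => q * ∫ z in (-(s / 2))..(s / 2), kr z) Filter.atTop
      (nhds (q * J)) := by
    rw [hJ]
    refine Filter.Tendsto.const_mul q ?_
    have h2 : Filter.Tendsto (fun s : ℝ => s / 2) Filter.atTop Filter.atTop :=
      Filter.tendsto_id.atTop_div_const (by norm_num)
    exact intervalIntegral_tendsto_integral irk (Filter.tendsto_neg_atTop_atBot.comp h2) h2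
  have t2 : Filter.Tendsto (fun s : ℝ => C / γ * Real.exp (-(γ * (s / 2)))) Filter.atTop
      (nhds (C / γ * 0)) := by
    refine Filter.Tendsto.const_mul _ ?_
    refine Real.tendsto_exp_neg_atTop_nhds_zero.comp ?_
    exact (Filter.tendsto_id.atTop_div_const (by norm_num : (0 : ℝ) < 2)).const_mul_atTop hγ0
  rw [mul_zero] at t2
  obtain ⟨s, ⟨hs1, hs2⟩, hs3⟩ := ((t1.eventually (lt_mem_nhds hqJ)).and
    (t2.eventually (gt_mem_nhds (div_pos hq0 hC'0)))).and
    (Filter.eventually_ge_atTop (2 : ℝ)) |>.exists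
  -- choice of `T`
  obtain ⟨T, hT⟩ : ∃ T, T = 1 + 2 * q * s / δ := ⟨_, rfl⟩
  have hT1 : 1 ≤ T := by
    have : 0 ≤ 2 * q * s / δ := by positivity
    rw [hT]; linarith
  have hT0 : 0 < T := by linarith
  have hTq : q * s / T ≤ δ / 2 := by
    rw [div_le_iff₀ hT0, hT]
    have : δ / 2 * (1 + 2 * q * s / δ) = δ / 2 + q * s := by field_simp
    rw [this]
    linarith
  have c1 : 0 ≤ 1 / (2 * T) := by positivity
  have c2 : 0 ≤ q / (2 * T) := by positivity
  refine ⟨(ENNReal.ofReal (1 / (2 * T))) • (volume.restrict (Icc (-T) T)),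
    (ENNReal.ofReal (q / (2 * T))) • (volume.restrict (Icc (-(T + s)) (T + s))), T + s,
    ?_, ?_, ?_, ?_, ?_, ?_, ?_⟩
  · exact Measure.smul_finite _ ENNReal.ofReal_ne_top
  · exact Measure.smul_finite _ ENNReal.ofReal_ne_top
  · exact rel_supp _ _ _ (by linarith)
  · exact rel_supp _ _ _ le_rfl
  · rw [rel_mass _ _ c1 hT0.le]
    field_simp
  · rw [rel_mass _ _ c2 (by linarith), ← hI, ← hJ]
    have : q / (2 * T) * (2 * (T + s)) = q + q * s / T := by field_simp
    rw [this, hq] at *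
    linarith
  · intro y
    rw [rel_mes _ _ c1 hT0.le, rel_mes _ _ c2 (by linarith)]
    have e1 : ∫ z in (-T - y)..(T - y), kl z = -∫ z in (-T - y)..(T - y), |kl z| := by
      rw [← intervalIntegral.integral_neg]
      congr 1
      funext z
      rw [abs_of_neg (hneg z), neg_neg]
    rw [e1]
    have key : ∫ z in (-T - y)..(T - y), |kl z| ≤
        q * ∫ z in (-T - s - y)..(T + s - y), kr z := by
      rcases lt_or_ge (T + s / 2) y with hy | hy
      · exact rel_far hγ0 hC'0 ha hr hpos (fun s u h1 h2 => hcl.2 s u h1 h2) hckL hq0.le hs3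
          hT0.le hCp.le hs2.le hy
      · rcases lt_or_ge y (-(T + s / 2)) with hy2 | hy2
        · have h := rel_far (a := fun z => |kl (-z)|) (k := fun z => kr (-z)) (y := -y) hγ0 hC'0
            (by fun_prop) (by fun_prop) (fun s => hpos _)
            (fun s u h1 h2 => by
              have := hcl.1 (-s) u (by linarith) h2
              have e : -(s - u) = -s + u := by ring
              simp only [e]
              exact this) (fun s u h1 h2 h3 => by
              exact hckR s u h1 h2 h3) hq0.le hs3 hT0.le hCp.le hs2.le (by linarith)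
          rw [intervalIntegral.integral_comp_neg (fun z => |kl z|),
            intervalIntegral.integral_comp_neg kr] at h
          have a1 : -(T - -y) = -T - y := by ring
          have a2 : -(-T - -y) = T - y := by ring
          have a3 : -(T + s - -y) = -T - s - y := by ring
          have a4 : -(-T - s - -y) = T + s - y := by ring
          rw [a1, a2, a3, a4] at h
          exact h
        · have h1 : ∫ z in (-T - y)..(T - y), |kl z| ≤ I := by
            rw [hI, intervalIntegral.integral_of_le (by linarith)]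
            exact setIntegral_le_integral ilk (Filter.Eventually.of_forall fun z => abs_nonneg _)
          have h2 : ∫ z in (-(s / 2))..(s / 2), kr z ≤
              ∫ z in (-T - s - y)..(T + s - y), kr z := by
            refine intervalIntegral.integral_mono_interval (by linarith) (by linarith)
              (by linarith) ?_ (hr.intervalIntegrable _ _)
            exact Filter.Eventually.of_forall fun z => (hpos z).le
          have h3 := mul_le_mul_of_nonneg_left h2 hq0.le
          linarith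
    have e2 : -(T + s) - y = -T - s - y := by ring
    rw [e2]
    have e3 : q / (2 * T) * ∫ z in (-T - s - y)..(T + s - y), kr z =
        1 / (2 * T) * (q * ∫ z in (-T - s - y)..(T + s - y), kr z) := by ring
    rw [e3, mul_neg]
    have := mul_le_mul_of_nonneg_left key c1
    linarith

end Pool.Agent.IND2I
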