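import Pool.Agent.IND2I.KZ
import Pool.Agent.IND2I.Arc
import Pool.Agent.IND2I.Rel

/-!
# IND2I, module Cons: consequences of the majorisation inequalities

PROOF.  `cons_sub`: `n = 0`, `kk p τ s ≤ 0` (`pattern_neg`), `bb p τ < 0 = ∑ ∅`: `MajExp` gives `h τ = ⊥`.  `cons_l`: `n = 0` gives `h l ≤ 0`
(`pattern_neg`, `aa < 0`, `bb = 0`).  `cons_ll`: `kz_le`, `n = 1`, `μ = c • dirac 0`, `h l' ≤ 0 < ⊤`.  `cons_rr`: `kz_le_r`.
`cons_lr`: for `δ > 0` `rel_lr` (hypotheses from `kz_cmp` with `Z = {l, r}`) gives `nl, nr` with `0 ≤ ∫ kk l (x - y) dnl + ∫ kk r (x - y) dnr`.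
`MajExp` with `τ = r`, `n = 3`, `φ = (l, r, r)`, `μ = (nl, nr, dirac 0)` (compact support: all exponential moments; put `s = -y`):
`h r ≤ h l + nr(ℝ) h r + h r`.  As `h r` is real (`0 ≤ h r < ⊤`), `h l ≠ ⊥`, `h l ≤ 0`, and `0 ≤ h l + nr(ℝ) h r ≤ h l + (I/J + δ) h r`; `δ → 0`.
(`I = ∫ |kk l|`, `J = ∫ kk r > 0`.)
-/

set_option autoImplicit false

namespace Pool.Agent.IND2I

open MeasureTheory Set Helper25.Ind

variable {p : ℕ} {h : ℝ → EReal}

private lemma cons_int {μ : Measure ℝ} [IsFiniteMeasure μ] {T : ℝ} (hT : μ (Icc (-T) T)ᶜ = 0)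
    {f : ℝ → ℝ} (hf : Continuous f) : Integrable f μ := by
  obtain ⟨C, hC⟩ := (isCompact_Icc (a := -T) (b := T)).exists_bound_of_continuousOn hf.continuousOn
  refine Integrable.of_bound hf.aestronglyMeasurable C ?_
  have : ∀ᵐ x ∂μ, x ∈ Icc (-T) T := by
    rw [ae_iff]
    exact hT
  filter_upwards [this] with x hx using hC x hx

private lemma cons_dirac : (Measure.dirac (0 : ℝ)) (Icc (-1) 1)ᶜ = 0 := by
  rw [Measure.dirac_apply' _ measurableSet_Icc.compl]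
  have : (0 : ℝ) ∉ (Icc (-1) 1 : Set ℝ)ᶜ := by
    rw [mem_compl_iff, not_not]
    constructor <;> norm_num
  rw [indicator_of_notMem this]

theorem cons_sub (hp : 1 ≤ p) (H : IntCond p h) {θ : ℝ} (hθ : θ ∈ Icc (0 : ℝ) Real.pi)
    (hb : bb p θ < 0) (ha : aa p θ ≤ 0) : h θ = ⊥ := by
  refine (H.maj 0 Fin.elim0 Fin.elim0 θ (fun j => j.elim0) ⟨1, one_pos, fun j => j.elim0⟩
    (fun j => j.elim0) hθ (fun j => j.elim0) ?_).2 ?_
  · intro s
    simpa using (pattern_neg (p : ℝ) hθ ha hb.le s).le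
  · simpa using hb

theorem cons_l (hp : 1 ≤ p) (H : IntCond p h) {l : ℝ} (hl : LE p l) : h l ≤ 0 := by
  obtain ⟨h0, h1, hb, ha⟩ := LE_facts hp hl
  have hθ : l ∈ Icc (0 : ℝ) Real.pi := ⟨h0.le, h1.le⟩
  have := (H.maj 0 Fin.elim0 Fin.elim0 l (fun j => j.elim0) ⟨1, one_pos, fun j => j.elim0⟩
    (fun j => j.elim0) hθ (fun j => j.elim0) (by
      intro s
      simpa using (pattern_neg (p : ℝ) hθ ha.le hb.le s).le)).1
  simpa using this

private lemma cons_one (H : IntCond p h) {θ θ' c : ℝ} (hc : 0 < c) (h1 : θ ∈ Icc (0 : ℝ) Real.pi)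
    (h2 : θ' ∈ Icc (0 : ℝ) Real.pi) (h3 : h θ' ≠ ⊤) (hk : ∀ s, kk p θ s ≤ c * kk p θ' s) :
    h θ ≤ (c : EReal) * h θ' := by
  have hμ : IsFiniteMeasure ((ENNReal.ofReal c) • (Measure.dirac (0 : ℝ))) :=
    Measure.smul_finite _ ENNReal.ofReal_ne_top
  have hs : ((ENNReal.ofReal c) • (Measure.dirac (0 : ℝ)) : Measure ℝ) (Icc (-1) 1)ᶜ = 0 := by
    rw [Measure.smul_apply, cons_dirac, smul_zero]
  have h4 := (H.maj 1 (fun _ => θ') (fun _ => (ENNReal.ofReal c) • (Measure.dirac (0 : ℝ))) θ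
    (fun _ => hμ) ⟨1, one_pos, fun _ => cons_int hs (by fun_prop)⟩ (fun _ => h2) h1 (fun _ => h3)
    (by
      intro s
      rw [Fin.sum_univ_one, integral_smul_measure, integral_dirac, add_zero,
        ENNReal.toReal_ofReal hc.le, smul_eq_mul]
      exact hk s)).1
  rw [Fin.sum_univ_one, Measure.smul_apply, measure_univ, smul_eq_mul, mul_one,
    ENNReal.toReal_ofReal hc.le] at h4
  exact h4

theorem cons_ll (hp : 1 ≤ p) (H : IntCond p h) {l l' : ℝ} (hl : LE p l) (hl' : LE p l') :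
    ∃ c : ℝ, 0 < c ∧ h l ≤ (c : EReal) * h l' := by
  obtain ⟨h0, h1, hb, ha⟩ := LE_facts hp hl
  obtain ⟨h0', h1', hb', ha'⟩ := LE_facts hp hl'
  obtain ⟨c, hc, hk⟩ := kz_le hp h0.le h1 hb ha h0'.le h1' hb' ha'
  refine ⟨c, hc, cons_one H hc ⟨h0.le, h1.le⟩ ⟨h0'.le, h1'.le⟩ ?_ hk⟩
  intro h
  have := cons_l hp H hl'
  rw [h] at this
  exact absurd this (by simp)

theorem cons_rr (hp : 1 ≤ p) (H : IntCond p h) {r r' : ℝ} (hr : RE p r) (hr' : RE p r')
    (hfin : h r' ≠ ⊤) : h r ≠ ⊤ := by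
  obtain ⟨h0, h1, hb, ha⟩ := RE_facts hp hr
  obtain ⟨h0', h1', hb', ha'⟩ := RE_facts hp hr'
  obtain ⟨c, hc, hk⟩ := kz_le_r hp h0.le h1 hb ha h0'.le h1' hb' ha'
  have h2 := cons_one H hc ⟨h0.le, h1.le⟩ ⟨h0'.le, h1'.le⟩ hfin hk
  have h3 := H.right r' hr'
  obtain ⟨x, hx⟩ : ∃ x : ℝ, h r' = x := by
    lift h r' to ℝ using ⟨hfin, fun hbot => by rw [hbot] at h3; simp at h3⟩ with x
    exact ⟨x, rfl⟩
  rw [hx, ← EReal.coe_mul] at h2
  intro htop
  rw [htop] at h2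
  exact EReal.coe_ne_top _ (top_le_iff.1 h2)

theorem cons_lr (hp : 1 ≤ p) (H : IntCond p h) {l r : ℝ} (hl : LE p l) (hr : RE p r)
    (hfin : h r ≠ ⊤) : ∃ hl' hr' : ℝ, h l = hl' ∧ h r = hr' ∧ hl' ≤ 0 ∧ 0 ≤ hr' ∧
      0 ≤ hl' * (∫ s, kk p r s) + hr' * ∫ s, |kk p l s| := by
  obtain ⟨h0, h1, hb, ha⟩ := LE_facts hp hl
  obtain ⟨h0', h1', hb', ha'⟩ := RE_facts hp hr
  have hlI : l ∈ Icc (0 : ℝ) Real.pi := ⟨h0.le, h1.le⟩
  have hrI : r ∈ Icc (0 : ℝ) Real.pi := ⟨h0'.le, h1'.le⟩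
  have hl0 := cons_l hp H hl
  have hr0 := H.right r hr
  obtain ⟨x, hx⟩ : ∃ x : ℝ, h r = x := by
    lift h r to ℝ using ⟨hfin, fun hbot => by rw [hbot] at hr0; simp at hr0⟩ with x
    exact ⟨x, rfl⟩
  have hx0 : 0 ≤ x := by
    rw [hx] at hr0
    exact_mod_cast hr0
  have hltop : h l ≠ ⊤ := by
    intro htop
    rw [htop] at hl0
    exact absurd hl0 (by simp)
  obtain ⟨C, hC, hcmp⟩ := kz_cmp hp {l, r} (by
    intro θ hθ
    rw [Finset.mem_insert, Finset.mem_singleton] at hθ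
    rcases hθ with rfl | rfl
    · exact ⟨h0.le, h1, hb⟩
    · exact ⟨h0'.le, h1', hb'⟩) h0'.le h1' hb' ha'
  -- the main inequality
  have key : ∀ δ : ℝ, 0 < δ → ∃ m : ℝ, 0 ≤ m ∧ m ≤ (∫ s, |kk p l s|) / (∫ s, kk p r s) + δ ∧
      h r ≤ h l + (m : EReal) * h r + h r := by
    intro δ hδ
    obtain ⟨nl, nr, T, fl, fr, sl, sr, ml, mr, hpos⟩ := rel_lr (γ := 1 / 2) (by norm_num) hC
      (continuous_kk (p : ℝ) h0.le h1) (continuous_kk (p : ℝ) h0'.le h1')
      (pattern_neg (p : ℝ) hlI ha.le hb.le) (pattern_pos (p : ℝ) hrI ha'.le hb'.ge)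
      (hcmp l (by simp)) (hcmp r (by simp)) hδ
    refine ⟨nr.real univ, measureReal_nonneg, mr, ?_⟩
    have h5 := (H.maj 3 ![l, r, r] ![nl, nr, Measure.dirac 0] r (by
        intro j
        fin_cases j
        · exact fl
        · exact fr
        · exact (inferInstance : IsFiniteMeasure (Measure.dirac (0 : ℝ))))
      ⟨1, one_pos, by
        intro j
        fin_cases j
        · exact cons_int sl (by fun_prop)
        · exact cons_int sr (by fun_prop)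
        · exact cons_int cons_dirac (by fun_prop)⟩ (by
        intro j
        fin_cases j
        · exact hlI
        · exact hrI
        · exact hrI) hrI (by
        intro j
        fin_cases j
        · exact hltop
        · exact hfin
        · exact hfin) (by
        intro s
        rw [Fin.sum_univ_three]
        change kk p r s ≤ ∫ x, kk p l (s + x) ∂nl + ∫ x, kk p r (s + x) ∂nr +
          ∫ x, kk p r (s + x) ∂(Measure.dirac 0)
        rw [integral_dirac, add_zero]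
        have h6 := hpos (-s)
        simp only [sub_neg_eq_add, add_comm _ s] at h6
        linarith)).1
    rw [Fin.sum_univ_three] at h5
    change h r ≤ (((nl univ).toReal : ℝ) : EReal) * h l + (((nr univ).toReal : ℝ) : EReal) * h r +
      (((Measure.dirac (0 : ℝ) univ).toReal : ℝ) : EReal) * h r at h5
    have h7 : (nl univ).toReal = 1 := ml
    have h8 : ((Measure.dirac (0 : ℝ)) univ).toReal = 1 := by simp
    rw [h7, h8, EReal.coe_one, one_mul, one_mul] at h5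
    exact h5
  obtain ⟨y, hy⟩ : ∃ y : ℝ, h l = y := by
    lift h l to ℝ using ⟨hltop, fun hbot => by
      obtain ⟨m, _, _, hm⟩ := key 1 one_pos
      rw [hbot, EReal.bot_add, EReal.bot_add, hx] at hm
      exact absurd hm (by simp)⟩ with y
    exact ⟨y, rfl⟩
  have hy0 : y ≤ 0 := by
    rw [hy] at hl0
    exact_mod_cast hl0
  refine ⟨y, x, hy, hx, hy0, hx0, ?_⟩
  have hJ : 0 ≤ ∫ s, kk p r s :=
    integral_nonneg fun s => (pattern_pos (p : ℝ) hrI ha'.le hb'.ge s).le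
  have hI : 0 ≤ ∫ s, |kk p l s| := integral_nonneg fun s => abs_nonneg _
  rcases hJ.eq_or_lt with hJ0 | hJ0
  · rw [← hJ0, mul_zero, zero_add]
    exact mul_nonneg hx0 hI
  · have h8 : ∀ δ : ℝ, 0 < δ → 0 ≤ y + ((∫ s, |kk p l s|) / (∫ s, kk p r s) + δ) * x := by
      intro δ hδ
      obtain ⟨m, hm0, hm1, hm⟩ := key δ hδ
      rw [hx, hy, ← EReal.coe_mul, ← EReal.coe_add, ← EReal.coe_add, EReal.coe_le_coe_iff] at hm
      nlinarith
    have h9 : 0 ≤ y + (∫ s, |kk p l s|) / (∫ s, kk p r s) * x := by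
      by_contra hcon
      push Not at hcon
      set q := (∫ s, |kk p l s|) / (∫ s, kk p r s) with hq
      have h10 := h8 (-(y + q * x) / (2 * (x + 1))) (div_pos (by linarith) (by linarith))
      have h11 : -(y + q * x) / (2 * (x + 1)) * x ≤ -(y + q * x) / 2 := by
        rw [div_mul_eq_mul_div, div_le_div_iff₀ (by linarith) (by norm_num)]
        nlinarith
      nlinarith
    have h12 : 0 ≤ (y + (∫ s, |kk p l s|) / (∫ s, kk p r s) * x) * ∫ s, kk p r s :=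
      mul_nonneg h9 hJ
    have h13 : (y + (∫ s, |kk p l s|) / (∫ s, kk p r s) * x) * ∫ s, kk p r s =
        y * (∫ s, kk p r s) + x * ∫ s, |kk p l s| := by
      field_simp
    rwa [h13] at h12

end Pool.Agent.IND2I
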