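import Mathlib

/-!
# IND2I, module Ctb: countable sets which are dense from one side

PROOF of `ctb_right`.  Let `D₁ ⊆ A` be countable and dense in the subspace `A` (`TopologicalSpace.exists_countable_dense` for the subtype, or
`IsSeparable`), and `D₂` the set of the points `x ∈ A` which are isolated from the right in `A` (`∃ η > 0, A ∩ (x, x + η) = ∅`); `D₂` is
countable (`Set.countable_setOf_isolated_right_within`, or: the intervals `(x, x + η_x)`, `x ∈ D₂`, are pairwise disjoint open sets, each contains a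
rational).  `D = D₁ ∪ D₂`: if `x ∈ A \ D` then `A ∩ (x, x + η)` is nonempty and open in `A`, so it contains a point of `D₁`.
`ctb_left`: reflect.
-/

set_option autoImplicit false

namespace Pool.Agent.IND2I

open Set

theorem ctb_iso (A : Set ℝ) :
    {x | x ∈ A ∧ ∃ η > 0, ∀ y ∈ A, ¬ (x < y ∧ y < x + η)}.Countable := by
  have h1 : ∀ x : {x | x ∈ A ∧ ∃ η > 0, ∀ y ∈ A, ¬ (x < y ∧ y < x + η)},
      ∃ q : ℚ, (x : ℝ) < q ∧ ∀ y ∈ A, ¬ ((x : ℝ) < y ∧ y ≤ q) := by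
    rintro ⟨x, hx, η, hη, h⟩
    obtain ⟨q, hq1, hq2⟩ := exists_rat_btwn (show x < x + η by linarith)
    exact ⟨q, hq1, fun y hy hy' => h y hy ⟨hy'.1, lt_of_le_of_lt hy'.2 hq2⟩⟩
  choose q hq1 hq2 using h1
  have hinj : Function.Injective q := by
    intro x y hxy
    apply Subtype.ext
    rcases lt_trichotomy (x : ℝ) y with h | h | h
    · exact absurd ⟨h, by rw [hxy]; exact (hq1 y).le⟩ (hq2 x y y.2.1)
    · exact h
    · exact absurd ⟨h, by rw [← hxy]; exact (hq1 x).le⟩ (hq2 y x x.2.1)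
  exact hinj.countable

theorem ctb_right (A : Set ℝ) : ∃ D ⊆ A, D.Countable ∧
    (∀ x ∈ A, (∃ η > 0, ∀ y ∈ A, ¬ (x < y ∧ y < x + η)) → x ∈ D) ∧
    ∀ x ∈ A, x ∉ D → ∀ η > 0, ∃ d ∈ D, x < d ∧ d < x + η := by
  obtain ⟨s, hs, hd⟩ := TopologicalSpace.exists_countable_dense ↥A
  refine ⟨(Subtype.val '' s) ∪ {x | x ∈ A ∧ ∃ η > 0, ∀ y ∈ A, ¬ (x < y ∧ y < x + η)}, ?_,
    (hs.image _).union (ctb_iso A), fun x hx h => Or.inr ⟨hx, h⟩, ?_⟩
  · rintro x (⟨a, -, rfl⟩ | hx)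
    · exact a.2
    · exact hx.1
  · intro x hx hxD η hη
    have h1 : ∃ y ∈ A, x < y ∧ y < x + η := by
      by_contra hcon
      exact hxD (Or.inr ⟨hx, η, hη, fun y hy hy' => hcon ⟨y, hy, hy'⟩⟩)
    obtain ⟨y, hy, hy'⟩ := h1
    have hopen : IsOpen {a : ↥A | x < (a : ℝ) ∧ (a : ℝ) < x + η} := by
      have : {a : ↥A | x < (a : ℝ) ∧ (a : ℝ) < x + η} = Subtype.val ⁻¹' (Ioo x (x + η)) := rfl
      rw [this]
      exact isOpen_Ioo.preimage continuous_subtype_val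
    obtain ⟨a, ha1, ha2⟩ := hd.inter_open_nonempty _ hopen ⟨⟨y, hy⟩, hy'⟩
    exact ⟨a, Or.inl ⟨a, ha2, rfl⟩, ha1⟩

theorem ctb_left (A : Set ℝ) : ∃ D ⊆ A, D.Countable ∧
    ∀ x ∈ A, x ∉ D → ∀ η > 0, ∃ d ∈ D, x - η < d ∧ d < x := by
  obtain ⟨D, hD, hc, -, h⟩ := ctb_right ((fun x => -x) ⁻¹' A)
  refine ⟨(fun x => -x) '' D, ?_, hc.image _, ?_⟩
  · rintro _ ⟨d, hd, rfl⟩
    exact hD hd
  · intro x hx hxD η hη
    have hx' : -x ∈ (fun x => -x) ⁻¹' A := by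
      show - -x ∈ A
      rwa [neg_neg]
    obtain ⟨d, hd, h1, h2⟩ := h (-x) hx' (fun hm => hxD ⟨-x, hm, neg_neg x⟩) η hη
    exact ⟨-d, ⟨d, hd, rfl⟩, by linarith, by linarith⟩

end Pool.Agent.IND2I
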