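import Mathlib

/-!
# IND2, integer `ρ`: the linear programme on a half line, abstract kernels (definitions)

Project IND2 (MP_2b5fe2_an), integer case, notes /team-store/ind2_int_h86.md.  Everything is in the
logarithmic scale; a mass at `y` acts at `x` by the kernel `k (x - y)`.
-/

set_option autoImplicit false

namespace Pool.Agent.IND2I

open MeasureTheory Set

/-- Kernel of a supercritical ray: tends to `-β < 0` at `+∞` (mass to the left), decays like `e^s`
at `-∞` (mass to the right) and is positive there. -/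
structure KSup (γ C c L β : ℝ) (k : ℝ → ℝ) : Prop where
  cont : Continuous k
  right : ∀ s, 0 ≤ s → |k s + β| ≤ C * Real.exp (-(γ * s))
  left : ∀ s, s ≤ 0 → |k s| ≤ C * Real.exp s
  low : ∀ s, s ≤ -L → c * Real.exp s ≤ k s
  sign : ∃ s₀, (∀ s, s ≤ s₀ → 0 ≤ k s) ∧ ∀ s, s₀ ≤ s → k s ≤ 0

/-- Kernel of a left end point: negative, decaying on both sides. -/
structure KLef (γ C c : ℝ) (k : ℝ → ℝ) : Prop where
  cont : Continuous k
  neg : ∀ s, k s < 0
  right : ∀ s, 0 ≤ s → |k s| ≤ C * Real.exp (-(γ * s))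
  left : ∀ s, s ≤ 0 → |k s| ≤ C * Real.exp s
  mid : ∀ s, |s| ≤ 1 → k s ≤ -c

/-- Kernel of the target. -/
structure KTar (γ C β : ℝ) (k : ℝ → ℝ) : Prop where
  cont : Continuous k
  right : ∀ s, 0 ≤ s → |k s + β| ≤ C * Real.exp (-(γ * s))
  left : ∀ s, s ≤ 0 → |k s| ≤ C * Real.exp s

/-- The data of the linear programme: supercritical rays `ι`, left end points `lam`, a target,
bounds `cb`, `cl` and the value `v` which has to be reached at the target. -/
structure Sys (ι lam : Type) [Fintype ι] [Fintype lam] where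
  γ : ℝ
  C : ℝ
  c : ℝ
  L : ℝ
  β : ι → ℝ
  β₀ : ℝ
  kb : ι → ℝ → ℝ
  kl : lam → ℝ → ℝ
  k₀ : ℝ → ℝ
  cb : ι → ℝ
  cl : lam → ℝ
  v : ℝ
  hγ0 : 0 < γ
  hγ1 : γ < 1
  hC : 1 ≤ C
  hc : 0 < c
  hL : 1 ≤ L
  hβ : ∀ i, 0 < β i
  hβ₀ : 0 < β₀
  hkb : ∀ i, KSup γ C c L (β i) (kb i)
  hkl : ∀ j, KLef γ C c (kl j)
  hk₀ : KTar γ C β₀ k₀

namespace Sys

variable {ι lam : Type} [Fintype ι] [Fintype lam] (S : Sys ι lam)

/-- the function of a (candidate for a) certificate -/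
noncomputable def g (n : ι → Measure ℝ) (l : lam → Measure ℝ) (y : ℝ) : ℝ :=
  ∑ i, ∫ x, S.kb i (x - y) ∂(n i) + ∑ j, ∫ x, S.kl j (x - y) ∂(l j) - S.k₀ (-y)

/-- Certificates on the whole line, with exponential moments. -/
structure Cert (n : ι → Measure ℝ) (l : lam → Measure ℝ) : Prop where
  finn : ∀ i, IsFiniteMeasure (n i)
  finl : ∀ j, IsFiniteMeasure (l j)
  mom : ∃ δ > 0, (∀ i, Integrable (fun x => Real.exp (δ * |x|)) (n i)) ∧
    ∀ j, Integrable (fun x => Real.exp (δ * |x|)) (l j)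
  pos : ∀ y, 0 ≤ S.g n l y

/-- Hypothesis (M): every certificate has cost more than `v`. -/
def HypM : Prop := ∀ n l, S.Cert n l →
  S.v < ∑ i, S.cb i * (n i).real univ + ∑ j, S.cl j * (l j).real univ

/-- Hypothesis (C2): certificates have no surplus at `-∞`. -/
def HypV : Prop := ∀ n l, S.Cert n l → S.β₀ ≤ ∑ i, S.β i * (n i).real univ

/-- The action at `x` of the past: total mass `Λ` to the left of `-M`, with constant density `a`
near `-M` (idealised: density `a` on the whole half line, renormalised). -/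
noncomputable def pb (a Λ M : ℝ) (i : ι) (x : ℝ) : ℝ :=
  -(S.β i * Λ) + a * ∫ s in Ioi (x + M), (S.kb i s + S.β i)

noncomputable def pl (a M : ℝ) (j : lam) (x : ℝ) : ℝ := a * ∫ s in Ioi (x + M), S.kl j s

noncomputable def p0 (a Λ M x : ℝ) : ℝ :=
  -(S.β₀ * Λ) + a * ∫ s in Ioi (x + M), (S.k₀ s + S.β₀)

/-- `ν` (a density on `[-M, ∞)`) satisfies all constraints at the points `x ≥ -M - L₁` and reaches
the value `v` at the target `0`. -/
structure Feas (a Λ M L₁ : ℝ) (ν : ℝ → ℝ) : Prop where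
  nonneg : ∀ y, -M ≤ y → 0 ≤ ν y
  cb : ∀ i x, -M - L₁ ≤ x →
    S.pb a Λ M i x + ∫ y in Ioi (-M), S.kb i (x - y) * ν y ≤ S.cb i
  cl : ∀ j x, -M - L₁ ≤ x →
    S.pl a M j x + ∫ y in Ioi (-M), S.kl j (x - y) * ν y ≤ S.cl j
  target : S.v ≤ S.p0 a Λ M 0 + ∫ y in Ioi (-M), S.k₀ (0 - y) * ν y

/-- the value of a half line certificate -/
noncomputable def V (a Λ M : ℝ) (n : ι → Measure ℝ) (l : lam → Measure ℝ) : ℝ :=
  ∑ i, S.cb i * (n i).real univ + ∑ j, S.cl j * (l j).real univ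
    - ∑ i, ∫ x, S.pb a Λ M i x ∂(n i) - ∑ j, ∫ x, S.pl a M j x ∂(l j) + S.p0 a Λ M 0

/-- Half line certificates of value at most `v`, with an exponential moment bounded by `K`. -/
structure Half (a κ K Λ M L₁ : ℝ) (n : ι → Measure ℝ) (l : lam → Measure ℝ) : Prop where
  finn : ∀ i, IsFiniteMeasure (n i)
  finl : ∀ j, IsFiniteMeasure (l j)
  supn : ∀ i, n i (Iio (-M - L₁)) = 0
  supl : ∀ j, l j (Iio (-M - L₁)) = 0
  intn : ∀ i, Integrable (fun x => Real.exp (κ * x)) (n i)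
  intl : ∀ j, Integrable (fun x => Real.exp (κ * x)) (l j)
  mom : ∑ i, ∫ x, Real.exp (κ * x) ∂(n i) + ∑ j, ∫ x, Real.exp (κ * x) ∂(l j) ≤ K
  pos : ∀ y, -M ≤ y → 0 ≤ S.g n l y
  val : S.V a Λ M n l ≤ S.v

/-- total surplus of the supercritical masses -/
noncomputable def Dtot (n : ι → Measure ℝ) : ℝ := S.β₀ - ∑ i, S.β i * (n i).real univ

/-- surplus of the masses at the points `x ≥ y` -/
noncomputable def D (n : ι → Measure ℝ) (y : ℝ) : ℝ := S.β₀ - ∑ i, S.β i * (n i).real (Ici y)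

/-- local supercritical mass near `y` -/
noncomputable def B (n : ι → Measure ℝ) (y : ℝ) : ℝ :=
  ∑ i, ∫ x, Real.exp (-(S.γ / 2 * |x - y|)) ∂(n i)

end Sys

end Pool.Agent.IND2I
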