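import Pool.Agent.Helper25.Ind2.Defs

/-!
# IND2, integer order `p ≥ 1`: the conditions (definitions)
-/

set_option autoImplicit false

namespace Pool.Agent.IND2I

open MeasureTheory Set Helper25.Ind

/-- The majorisation inequalities for finite measures with an exponential moment on finitely many rays, and the
vanishing condition. -/
def MajExp (p : ℕ) (h : ℝ → EReal) : Prop :=
  ∀ (n : ℕ) (φ : Fin n → ℝ) (μ : Fin n → Measure ℝ) (τ : ℝ), (∀ j, IsFiniteMeasure (μ j)) →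
    (∃ δ : ℝ, 0 < δ ∧ ∀ j, Integrable (fun x => Real.exp (δ * |x|)) (μ j)) →
    (∀ j, φ j ∈ Icc (0 : ℝ) Real.pi) → τ ∈ Icc (0 : ℝ) Real.pi → (∀ j, h (φ j) ≠ ⊤) →
    (∀ s : ℝ, kk p τ s ≤ ∑ j, ∫ x, kk p (φ j) (s + x) ∂(μ j)) →
    h τ ≤ ∑ j, (((μ j univ).toReal : ℝ) : EReal) * h (φ j) ∧
    (bb p τ < ∑ j, (μ j univ).toReal * bb p (φ j) → h τ = ⊥)

/-- The infinite-type conditions for the integer order `p`, after subtraction of a multiple of `sin (p θ)`. -/
structure IntCond (p : ℕ) (h : ℝ → EReal) : Prop where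
  per : ∀ θ, h (θ + 2 * Real.pi) = h θ
  even : ∀ θ, h (-θ) = h θ
  off : ∀ θ ∈ Icc (0 : ℝ) Real.pi, 0 < bb p θ → h θ = ⊤
  right : ∀ r, RE p r → 0 ≤ h r
  maj : MajExp p h
  trig : TrigConv p h

/-- `β_θ`, the limit of `-k_θ` at `+∞` -/
noncomputable def bt (p : ℕ) (θ : ℝ) : ℝ := -(bb p θ) / p

/-- comparison function for the kernels with `b = 0` -/
noncomputable def psi (p : ℕ) (s : ℝ) : ℝ :=
  if s ≤ 0 then Real.exp s else if p = 1 then (1 + s) * Real.exp (-s) else Real.exp (-s)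

end Pool.Agent.IND2I
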