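import Pool.Agent.Helper25.Ind2.KDer
import Pool.Agent.IND2I.IDefs
import Pool.Agent.IND2I.Defs

/-!
# IND2I, module KI: the kernels of integer order `p ≥ 1`

`⌊(p : ℝ)⌋₊ = p` (`Nat.floor_natCast`), `kp p = 1`, `km p = 0`.  `kk p θ s = e^{-ps} ker p w 1`, `w = e^s e^{iθ}`.
PROOF of `kk_right`.  `ker p w 1 = log ‖1 + w‖ + Re ∑_{j<p} (-w)^{j+1}/(j+1)` (`had_ker_eq` in `Helper25.Ind.Had`, or unfold; `1 + w ≠ 0`
as `θ < π`).  The term `j + 1 = p` is `(-1)^p cos (pθ) e^{ps}/p = bb e^{ps}/p`; the other terms are `≤ e^{(p-1)s}` each (`s ≥ 0`), and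
`log (c (1 + e^s)) ≤ log ‖1 + w‖ ≤ log (1 + e^s)` with `c = sin ((π-θ)/2)` (`norm_one_add_ge` in `KerA`; `arg w = θ`).  So for `s ≥ 0`
`|kk + bt| ≤ e^{-ps} (p e^{(p-1)s} + C + s) ≤ C' (1 + s) e^{-s} ≤ C'' e^{-s/2}`.
PROOF of `kk_left`.  `|ker p w 1| ≤ Phi p ‖w‖/sin(..)` (`abs_ker_le` in `KerA`), `Phi p X ≤ X^{p+1}/(p+1)`-type bound (`Phi_le_rpow` with `κ = 1`), so
`|kk| ≤ C e^{-ps} e^{(p+1)s}`.
`ktar_kk`: these two and `continuous_kk`.  `ksup_kk`: `low` from `kk_left_asymp`: `kk ≥ aa/(p+1) e^s - C e^{2s} ≥ aa/(2(p+1)) e^s` for `s ≤ -L`; `sign` from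
`pattern_pn`.  `klef_kk`: `pattern_neg`; `mid`: continuous and negative on the compact `[-1,1]`; `right` with `bt = 0`.
`unif`: take the maximum/minimum of the constants over the finite set (the structures are monotone in `C, c, L`;
for `KSup.low` with larger `L` and smaller `c`).
-/

set_option autoImplicit false

namespace Pool.Agent.IND2I

open MeasureTheory Set Helper25.Ind

private lemma ki_kp (p : ℕ) : kp (p : ℝ) = 1 := by
  unfold kp
  rw [Nat.floor_natCast]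
  ring

private lemma ki_w (θ s : ℝ) : ‖(Real.exp s : ℂ) * Complex.exp (θ * Complex.I)‖ = Real.exp s := by
  rw [norm_mul, Complex.norm_exp_ofReal_mul_I, mul_one, Complex.norm_real,
    Real.norm_of_nonneg (Real.exp_pos s).le]

private lemma ki_arg {θ : ℝ} (h0 : 0 ≤ θ) (h1 : θ < Real.pi) (s : ℝ) :
    ((Real.exp s : ℂ) * Complex.exp (θ * Complex.I)).arg = θ := by
  rw [Complex.arg_real_mul _ (Real.exp_pos s), Complex.arg_exp_mul_I]
  rw [toIocMod_eq_self]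
  constructor <;> linarith [Real.pi_pos]

private lemma ki_log {θ : ℝ} (h0 : 0 ≤ θ) (h1 : θ < Real.pi) : ∃ c : ℝ, 0 < c ∧ c ≤ 1 ∧ ∀ s,
    (1 + Real.exp s) * c ≤ ‖1 + (Real.exp s : ℂ) * Complex.exp (θ * Complex.I)‖ := by
  refine ⟨Real.sin ((Real.pi - θ) / 2),
    Real.sin_pos_of_pos_of_lt_pi (by linarith) (by linarith [Real.pi_pos]), Real.sin_le_one _,
    fun s => ?_⟩
  have h := norm_one_add_ge (z := (Real.exp s : ℂ) * Complex.exp (θ * Complex.I))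
    (δ := Real.pi - θ) (by linarith) (by linarith) (by
      rw [ki_arg h0 h1, abs_of_nonneg h0]
      linarith)
  rwa [ki_w] at h

private lemma ki_pow (p : ℕ) (θ s : ℝ) :
    ((-((Real.exp s : ℂ) * Complex.exp (θ * Complex.I))) ^ p).re =
      (-1) ^ p * Real.cos (p * θ) * Real.exp (p * s) := by
  have h1 : (-((Real.exp s : ℂ) * Complex.exp (θ * Complex.I))) ^ p =
      (((-1) ^ p * Real.exp (p * s) : ℝ) : ℂ) * Complex.exp (((p * θ : ℝ) : ℂ) * Complex.I) := by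
    rw [neg_pow, mul_pow, ← Complex.exp_nat_mul, Real.exp_nat_mul]
    push_cast
    have h : (p : ℂ) * θ * Complex.I = p * (θ * Complex.I) := by ring
    rw [h]
    ring
  rw [h1, Complex.re_ofReal_mul, Complex.exp_ofReal_mul_I_re]
  ring

private lemma ki_aux (s : ℝ) : (1 + s) * Real.exp (-s) ≤ 2 * Real.exp (-(1 / 2 * s)) := by
  have h1 : 1 + s ≤ 2 * Real.exp (1 / 2 * s) := by
    have := Real.add_one_le_exp (1 / 2 * s)
    linarith
  have h2 := mul_le_mul_of_nonneg_right h1 (Real.exp_pos (-s)).le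
  refine h2.trans (le_of_eq ?_)
  rw [mul_assoc, ← Real.exp_add]
  congr 2
  ring

theorem kk_right {p : ℕ} (hp : 1 ≤ p) {θ : ℝ} (h0 : 0 ≤ θ) (h1 : θ < Real.pi) :
    ∃ C : ℝ, 1 ≤ C ∧ ∀ s, 0 ≤ s → |kk p θ s + bt p θ| ≤ C * Real.exp (-(1 / 2 * s)) := by
  obtain ⟨c, hc, hc1, hl⟩ := ki_log h0 h1
  obtain ⟨q, rfl⟩ : ∃ q, p = q + 1 := ⟨p - 1, by omega⟩
  refine ⟨2 + |Real.log c| + q, by
    have := abs_nonneg (Real.log c)
    have : (0 : ℝ) ≤ q := Nat.cast_nonneg q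
    linarith, fun s hs => ?_⟩
  obtain ⟨w, hw⟩ : ∃ w : ℂ, w = (Real.exp s : ℂ) * Complex.exp (θ * Complex.I) := ⟨_, rfl⟩
  have hn : ‖w‖ = Real.exp s := by
    rw [hw, ki_w]
  have hes : 1 ≤ Real.exp s := Real.one_le_exp hs
  have hlow : (1 + Real.exp s) * c ≤ ‖1 + w‖ := by
    rw [hw]
    exact hl s
  have hpos : 0 < ‖1 + w‖ := lt_of_lt_of_le (by positivity) hlow
  have hker : kk ((q + 1 : ℕ) : ℝ) θ s + bt (q + 1) θ =
      Real.exp (-(((q + 1 : ℕ) : ℝ) * s)) * (Real.log ‖1 + w‖ +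
        (∑ j ∈ Finset.range q, (-w) ^ (j + 1) / ((j : ℂ) + 1)).re) := by
    unfold kk bt bb
    rw [Nat.floor_natCast, ← hw]
    have hk : ker (q + 1) w 1 = Real.log ‖1 + w‖ +
        (∑ j ∈ Finset.range (q + 1), (-w) ^ (j + 1) / ((j : ℂ) + 1)).re := by
      unfold ker primary
      rw [Complex.ofReal_one, div_one, sub_neg_eq_add, norm_mul, Complex.norm_exp,
        Real.log_mul hpos.ne' (Real.exp_pos _).ne', Real.log_exp]
    rw [hk, Finset.sum_range_succ, Complex.add_re]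
    have h2 : ((-w) ^ (q + 1) / ((q : ℂ) + 1)).re =
        (-1) ^ (q + 1) * Real.cos (((q + 1 : ℕ) : ℝ) * θ) * Real.exp (((q + 1 : ℕ) : ℝ) * s) /
          ((q + 1 : ℕ) : ℝ) := by
      have h3 : ((q : ℂ) + 1) = ((((q + 1 : ℕ) : ℝ)) : ℂ) := by
        push_cast
        ring
      rw [h3, Complex.div_ofReal_re, hw, ki_pow]
    rw [h2]
    have h4 : Real.exp (-(((q + 1 : ℕ) : ℝ) * s)) * Real.exp (((q + 1 : ℕ) : ℝ) * s) = 1 := by
      rw [← Real.exp_add, neg_add_cancel, Real.exp_zero]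
    have h5 : Real.exp (-(((q + 1 : ℕ) : ℝ) * s)) * ((-1) ^ (q + 1) *
        Real.cos (((q + 1 : ℕ) : ℝ) * θ) * Real.exp (((q + 1 : ℕ) : ℝ) * s) /
          ((q + 1 : ℕ) : ℝ)) = (-1) ^ (q + 1) * Real.cos (((q + 1 : ℕ) : ℝ) * θ) /
          ((q + 1 : ℕ) : ℝ) := by
      calc _ = (Real.exp (-(((q + 1 : ℕ) : ℝ) * s)) * Real.exp (((q + 1 : ℕ) : ℝ) * s)) *
          ((-1) ^ (q + 1) * Real.cos (((q + 1 : ℕ) : ℝ) * θ) / ((q + 1 : ℕ) : ℝ)) := by ring
        _ = _ := by rw [h4, one_mul]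
    rw [mul_add, mul_add, h5]
    ring
  rw [hker, abs_mul, abs_of_pos (Real.exp_pos _)]
  have hup : ‖1 + w‖ ≤ 2 * Real.exp s := by
    have := norm_add_le 1 w
    rw [norm_one, hn] at this
    linarith
  have hlogu : Real.log ‖1 + w‖ ≤ 1 + s := by
    have h2 := Real.log_le_log hpos hup
    rw [Real.log_mul (by norm_num) (Real.exp_pos s).ne', Real.log_exp] at h2
    have h3 : Real.log 2 ≤ 1 := by
      have := Real.log_two_lt_d9
      linarith
    linarith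
  have hlogl : Real.log c ≤ Real.log ‖1 + w‖ := by
    refine Real.log_le_log hc (le_trans ?_ hlow)
    nlinarith
  have hlog : |Real.log ‖1 + w‖| ≤ 1 + s + |Real.log c| := by
    rw [abs_le]
    constructor
    · have := neg_abs_le (Real.log c)
      linarith
    · have := abs_nonneg (Real.log c)
      linarith
  have hsum : |(∑ j ∈ Finset.range q, (-w) ^ (j + 1) / ((j : ℂ) + 1)).re| ≤
      q * Real.exp (q * s) := by
    refine (Complex.abs_re_le_norm _).trans ((norm_sum_le _ _).trans ?_)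
    have h2 : ∀ j ∈ Finset.range q, ‖(-w) ^ (j + 1) / ((j : ℂ) + 1)‖ ≤ Real.exp (q * s) := by
      intro j hj
      rw [norm_div, norm_pow, norm_neg, hn]
      have h3 : ‖((j : ℂ) + 1)‖ = (j : ℝ) + 1 := by
        have h4 : ((j : ℂ) + 1) = (((j : ℝ) + 1 : ℝ) : ℂ) := by
          push_cast
          ring
        rw [h4, Complex.norm_real, Real.norm_of_nonneg (by positivity)]
      rw [h3]
      have h5 : Real.exp s ^ (j + 1) ≤ Real.exp (q * s) := by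
        rw [← Real.exp_nat_mul]
        refine Real.exp_le_exp.2 (mul_le_mul_of_nonneg_right ?_ hs)
        exact_mod_cast Finset.mem_range.1 hj
      refine (div_le_self (by positivity) ?_).trans h5
      have : (0 : ℝ) ≤ j := Nat.cast_nonneg j
      linarith
    refine (Finset.sum_le_sum h2).trans (le_of_eq ?_)
    rw [Finset.sum_const, Finset.card_range, nsmul_eq_mul]
  have hq0 : (0 : ℝ) ≤ q := Nat.cast_nonneg q
  have htot := (abs_add_le (Real.log ‖1 + w‖)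
    (∑ j ∈ Finset.range q, (-w) ^ (j + 1) / ((j : ℂ) + 1)).re).trans (add_le_add hlog hsum)
  have h6 : Real.exp (-(((q + 1 : ℕ) : ℝ) * s)) = Real.exp (-s) * Real.exp (-(q * s)) := by
    rw [← Real.exp_add]
    congr 1
    push_cast
    ring
  have h7 : Real.exp (-(q * s)) ≤ 1 := by
    rw [Real.exp_le_one_iff]
    have := mul_nonneg hq0 hs
    linarith
  have h8 : Real.exp (-(q * s)) * Real.exp (q * s) = 1 := by
    rw [← Real.exp_add, neg_add_cancel, Real.exp_zero]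
  have h9 : Real.exp (-s) ≤ Real.exp (-(1 / 2 * s)) := Real.exp_le_exp.2 (by linarith)
  have hlc := abs_nonneg (Real.log c)
  calc Real.exp (-(((q + 1 : ℕ) : ℝ) * s)) * |Real.log ‖1 + w‖ +
        (∑ j ∈ Finset.range q, (-w) ^ (j + 1) / ((j : ℂ) + 1)).re|
      ≤ Real.exp (-(((q + 1 : ℕ) : ℝ) * s)) * (1 + s + |Real.log c| + q * Real.exp (q * s)) :=
        mul_le_mul_of_nonneg_left htot (Real.exp_pos _).le
    _ = Real.exp (-s) * (Real.exp (-(q * s)) * (1 + s + |Real.log c|) +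
          q * (Real.exp (-(q * s)) * Real.exp (q * s))) := by
        rw [h6]
        ring
    _ ≤ Real.exp (-s) * (1 * (1 + s + |Real.log c|) + q) := by
        rw [h8, mul_one]
        refine mul_le_mul_of_nonneg_left ?_ (Real.exp_pos _).le
        have := mul_le_mul_of_nonneg_right h7 (show 0 ≤ 1 + s + |Real.log c| by linarith)
        linarith
    _ = (1 + s) * Real.exp (-s) + (|Real.log c| + q) * Real.exp (-s) := by ring
    _ ≤ 2 * Real.exp (-(1 / 2 * s)) + (|Real.log c| + q) * Real.exp (-(1 / 2 * s)) :=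
        add_le_add (ki_aux s) (mul_le_mul_of_nonneg_left h9 (by linarith))
    _ = (2 + |Real.log c| + q) * Real.exp (-(1 / 2 * s)) := by ring

theorem kk_left {p : ℕ} (hp : 1 ≤ p) {θ : ℝ} (h0 : 0 ≤ θ) (h1 : θ < Real.pi) :
    ∃ C : ℝ, 1 ≤ C ∧ ∀ s, s ≤ 0 → |kk p θ s| ≤ C * Real.exp s := by
  obtain ⟨C, hC, h⟩ := abs_kk_le_lt (p : ℝ) h1
  refine ⟨max C 1, le_max_right _ _, fun s _ => ?_⟩
  have h2 := ph_le_exp (p : ℝ) s
  rw [ki_kp, one_mul, Nat.floor_natCast] at h2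
  have hp0 : (0 : ℝ) ≤ p := Nat.cast_nonneg p
  have h3 : Real.exp s / ((p : ℝ) + 1) ≤ Real.exp s :=
    div_le_self (Real.exp_pos s).le (by linarith)
  calc |kk p θ s| ≤ C * ph p s := h θ ⟨h0, le_rfl⟩ s
    _ ≤ C * Real.exp s := mul_le_mul_of_nonneg_left (h2.trans h3) hC.le
    _ ≤ max C 1 * Real.exp s :=
        mul_le_mul_of_nonneg_right (le_max_left _ _) (Real.exp_pos s).le

private lemma ki_tar_mono {C C' β : ℝ} {k : ℝ → ℝ} (h : KTar (1 / 2) C β k) (hC : C ≤ C') :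
    KTar (1 / 2) C' β k :=
  ⟨h.cont, fun s hs => (h.right s hs).trans (mul_le_mul_of_nonneg_right hC (Real.exp_pos _).le),
    fun s hs => (h.left s hs).trans (mul_le_mul_of_nonneg_right hC (Real.exp_pos _).le)⟩

private lemma ki_sup_mono {C C' c c' L L' β : ℝ} {k : ℝ → ℝ} (h : KSup (1 / 2) C c L β k)
    (hC : C ≤ C') (hc : c' ≤ c) (hL : L ≤ L') : KSup (1 / 2) C' c' L' β k :=
  ⟨h.cont, fun s hs => (h.right s hs).trans (mul_le_mul_of_nonneg_right hC (Real.exp_pos _).le),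
    fun s hs => (h.left s hs).trans (mul_le_mul_of_nonneg_right hC (Real.exp_pos _).le),
    fun s hs => (mul_le_mul_of_nonneg_right hc (Real.exp_pos _).le).trans
      (h.low s (by linarith)), h.sign⟩

private lemma ki_lef_mono {C C' c c' : ℝ} {k : ℝ → ℝ} (h : KLef (1 / 2) C c k)
    (hC : C ≤ C') (hc : c' ≤ c) : KLef (1 / 2) C' c' k :=
  ⟨h.cont, h.neg, fun s hs => (h.right s hs).trans
      (mul_le_mul_of_nonneg_right hC (Real.exp_pos _).le),
    fun s hs => (h.left s hs).trans (mul_le_mul_of_nonneg_right hC (Real.exp_pos _).le),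
    fun s hs => (h.mid s hs).trans (by linarith)⟩

theorem ktar_kk {p : ℕ} (hp : 1 ≤ p) {θ : ℝ} (h0 : 0 ≤ θ) (h1 : θ < Real.pi) :
    ∃ C : ℝ, 1 ≤ C ∧ KTar (1 / 2) C (bt p θ) (kk p θ) := by
  obtain ⟨C, hC, hr⟩ := kk_right hp h0 h1
  obtain ⟨D, hD, hl⟩ := kk_left hp h0 h1
  refine ⟨max C D, hC.trans (le_max_left _ _), continuous_kk p h0 h1, fun s hs => ?_,
    fun s hs => ?_⟩
  · exact (hr s hs).trans (mul_le_mul_of_nonneg_right (le_max_left _ _) (Real.exp_pos _).le)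
  · exact (hl s hs).trans (mul_le_mul_of_nonneg_right (le_max_right _ _) (Real.exp_pos _).le)

theorem ksup_kk {p : ℕ} (hp : 1 ≤ p) {θ : ℝ} (h0 : 0 ≤ θ) (h1 : θ < Real.pi) (hb : 0 < bt p θ)
    (ha : 0 < aa p θ) : ∃ C c L : ℝ, 1 ≤ C ∧ 0 < c ∧ 1 ≤ L ∧
      KSup (1 / 2) C c L (bt p θ) (kk p θ) := by
  obtain ⟨C, hC, ht⟩ := ktar_kk hp h0 h1
  have hp0 : (0 : ℝ) < p := by exact_mod_cast hp
  have hbb : bb p θ < 0 := by
    unfold bt at hb
    rw [lt_div_iff₀ hp0] at hb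
    linarith
  obtain ⟨s₀, hs1, hs2, -⟩ := pattern_pn (p : ℝ) ⟨h0, h1.le⟩ ha hbb
  obtain ⟨D, hD, hl⟩ := kk_left_asymp (p : ℝ)
  have hε : 0 < aa p θ / (2 * ((p : ℝ) + 1) * D) := by positivity
  refine ⟨C, aa p θ / (2 * ((p : ℝ) + 1)),
    max 1 (-Real.log (aa p θ / (2 * ((p : ℝ) + 1) * D))), hC, by positivity, le_max_left _ _,
    ht.cont, ht.right, ht.left, fun s hs => ?_, s₀, hs1, hs2⟩
  have hs3 : s ≤ -1 := hs.trans (neg_le_neg (le_max_left _ _))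
  have hs4 : s ≤ Real.log (aa p θ / (2 * ((p : ℝ) + 1) * D)) := by
    have := hs.trans (neg_le_neg (le_max_right _ _))
    linarith
  have h5 : Real.exp s ≤ aa p θ / (2 * ((p : ℝ) + 1) * D) := by
    rw [← Real.exp_log hε]
    exact Real.exp_le_exp.2 hs4
  have h6 := hl θ ⟨h0, h1.le⟩ s hs3
  rw [ki_kp, one_mul, Nat.floor_natCast] at h6
  have h7 := (abs_le.1 h6).1
  have h8 : D * Real.exp ((1 + 1) * s) ≤ aa p θ / (2 * ((p : ℝ) + 1)) * Real.exp s := by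
    have h9 : D * Real.exp ((1 + 1) * s) = (D * Real.exp s) * Real.exp s := by
      rw [mul_assoc, ← Real.exp_add]
      congr 2
      ring
    rw [h9]
    refine mul_le_mul_of_nonneg_right ?_ (Real.exp_pos s).le
    have h10 := mul_le_mul_of_nonneg_left h5 hD.le
    refine h10.trans (le_of_eq ?_)
    field_simp
  have h11 : aa p θ / ((p : ℝ) + 1) * Real.exp s =
      2 * (aa p θ / (2 * ((p : ℝ) + 1)) * Real.exp s) := by
    field_simp
  linarith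

theorem klef_kk {p : ℕ} (hp : 1 ≤ p) {θ : ℝ} (h0 : 0 ≤ θ) (h1 : θ < Real.pi) (hb : bt p θ = 0)
    (ha : aa p θ < 0) : ∃ C c : ℝ, 1 ≤ C ∧ 0 < c ∧ KLef (1 / 2) C c (kk p θ) := by
  obtain ⟨C, hC, ht⟩ := ktar_kk hp h0 h1
  have hp0 : (0 : ℝ) < p := by exact_mod_cast hp
  have hbb : bb p θ = 0 := by
    unfold bt at hb
    have := (div_eq_zero_iff.1 hb).resolve_right hp0.ne'
    linarith
  have hneg := pattern_neg (p : ℝ) ⟨h0, h1.le⟩ ha.le hbb.le
  obtain ⟨x, hx, hmax⟩ := isCompact_Icc.exists_isMaxOn (s := Icc (-1 : ℝ) 1)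
    ⟨0, by norm_num⟩ ht.cont.continuousOn
  refine ⟨C, -kk p θ x, hC, by linarith [hneg x], ht.cont, hneg, fun s hs => ?_, ht.left,
    fun s hs => ?_⟩
  · have := ht.right s hs
    rwa [hb, add_zero] at this
  · rw [neg_neg]
    exact hmax (abs_le.1 hs)

private def KiUn (p : ℕ) (θ C c L : ℝ) : Prop :=
  KTar (1 / 2) C (bt p θ) (kk p θ) ∧
    (0 < bt p θ → 0 < aa p θ → KSup (1 / 2) C c L (bt p θ) (kk p θ)) ∧
    (bt p θ = 0 → aa p θ < 0 → KLef (1 / 2) C c (kk p θ))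

private lemma ki_un_mono {p : ℕ} {θ C C' c c' L L' : ℝ} (h : KiUn p θ C c L) (hC : C ≤ C')
    (hc : c' ≤ c) (hL : L ≤ L') : KiUn p θ C' c' L' :=
  ⟨ki_tar_mono h.1 hC, fun h1 h2 => ki_sup_mono (h.2.1 h1 h2) hC hc hL,
    fun h1 h2 => ki_lef_mono (h.2.2 h1 h2) hC hc⟩

private lemma ki_one {p : ℕ} (hp : 1 ≤ p) {θ : ℝ} (h0 : 0 ≤ θ) (h1 : θ < Real.pi) :
    ∃ C c L : ℝ, 1 ≤ C ∧ 0 < c ∧ 1 ≤ L ∧ KiUn p θ C c L := by
  obtain ⟨C, hC, ht⟩ := ktar_kk hp h0 h1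
  by_cases hs : 0 < bt p θ ∧ 0 < aa p θ
  · obtain ⟨D, c, L, hD, hc, hL, h⟩ := ksup_kk hp h0 h1 hs.1 hs.2
    refine ⟨max C D, c, L, hC.trans (le_max_left _ _), hc, hL,
      ki_tar_mono ht (le_max_left _ _), fun _ _ => ki_sup_mono h (le_max_right _ _) le_rfl le_rfl,
      fun h2 _ => ?_⟩
    exact absurd h2 hs.1.ne'
  · by_cases hl : bt p θ = 0 ∧ aa p θ < 0
    · obtain ⟨D, c, hD, hc, h⟩ := klef_kk hp h0 h1 hl.1 hl.2
      refine ⟨max C D, c, 1, hC.trans (le_max_left _ _), hc, le_rfl,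
        ki_tar_mono ht (le_max_left _ _), fun h2 _ => ?_,
        fun _ _ => ki_lef_mono h (le_max_right _ _) le_rfl⟩
      exact absurd hl.1 h2.ne'
    · exact ⟨C, 1, 1, hC, one_pos, le_rfl, ht, fun h2 h3 => absurd ⟨h2, h3⟩ hs,
        fun h2 h3 => absurd ⟨h2, h3⟩ hl⟩

theorem unif {p : ℕ} (hp : 1 ≤ p) (F : Finset ℝ) (hF : ∀ θ ∈ F, 0 ≤ θ ∧ θ < Real.pi) :
    ∃ C c L : ℝ, 1 ≤ C ∧ 0 < c ∧ 1 ≤ L ∧ (∀ θ ∈ F, KTar (1 / 2) C (bt p θ) (kk p θ)) ∧
      (∀ θ ∈ F, 0 < bt p θ → 0 < aa p θ → KSup (1 / 2) C c L (bt p θ) (kk p θ)) ∧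
      ∀ θ ∈ F, bt p θ = 0 → aa p θ < 0 → KLef (1 / 2) C c (kk p θ) := by
  suffices key : ∃ C c L : ℝ, 1 ≤ C ∧ 0 < c ∧ 1 ≤ L ∧ ∀ θ ∈ F, KiUn p θ C c L by
    obtain ⟨C, c, L, h1, h2, h3, h⟩ := key
    exact ⟨C, c, L, h1, h2, h3, fun θ hθ => (h θ hθ).1, fun θ hθ => (h θ hθ).2.1,
      fun θ hθ => (h θ hθ).2.2⟩
  induction F using Finset.induction_on with
  | empty => exact ⟨1, 1, 1, le_rfl, one_pos, le_rfl, by simp⟩
  | insert a F haF ih =>
    obtain ⟨C, c, L, h1, h2, h3, h⟩ := ih fun θ hθ => hF θ (Finset.mem_insert_of_mem hθ)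
    have ha := hF a (Finset.mem_insert_self _ _)
    obtain ⟨C', c', L', h1', h2', h3', h'⟩ := ki_one hp ha.1 ha.2
    refine ⟨max C C', min c c', max L L', h1.trans (le_max_left _ _), lt_min h2 h2',
      h3.trans (le_max_left _ _), fun θ hθ => ?_⟩
    rcases Finset.mem_insert.1 hθ with rfl | hθ'
    · exact ki_un_mono h' (le_max_right _ _) (min_le_right _ _) (le_max_right _ _)
    · exact ki_un_mono (h θ hθ') (le_max_left _ _) (min_le_left _ _) (le_max_left _ _)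

end Pool.Agent.IND2I
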