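import Pool.Agent.IND2I.Defs

/-!
# IND2I, module MomL: certificates on left end points have exponential moments

PROOF.  `∑ ∫ |k θ (x - y)| dn θ ≤ -k₀ (-y) ≤ C e^{-γ |y|}`, and `|k θ s| ≥ c` for `|s| ≤ 1` (`mid`), so
`c (n θ)[y - 1, y + 1] ≤ C e^{-γ |y|}` for every `y`.  Cover `ℝ` by `[2j - 1, 2j + 1]`, `j ∈ ℤ`: on it `e^{γ/2 |x|} ≤ e^{γ/2} e^{γ |j|}`, the mass is
`≤ (C/c) e^{-2 γ |j|}`; the sum over `j` converges (lintegral over a countable cover).
-/

set_option autoImplicit false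

namespace Pool.Agent.IND2I

open MeasureTheory Set

lemma momL_kbd {γ C c : ℝ} {k : ℝ → ℝ} (hγ : 0 < γ) (hC : 1 ≤ C) (h : KLef γ C c k) (s : ℝ) :
    |k s| ≤ C := by
  rcases le_total 0 s with hs | hs
  · refine (h.right s hs).trans ?_
    have : Real.exp (-(γ * s)) ≤ 1 := Real.exp_le_one_iff.2 (by nlinarith)
    nlinarith
  · refine (h.left s hs).trans ?_
    have : Real.exp s ≤ 1 := Real.exp_le_one_iff.2 hs
    nlinarith

lemma momL_int {γ C c : ℝ} {k : ℝ → ℝ} (hγ : 0 < γ) (hC : 1 ≤ C) (h : KLef γ C c k)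
    (μ : Measure ℝ) [IsFiniteMeasure μ] (y : ℝ) : Integrable (fun x => k (x - y)) μ := by
  refine Integrable.of_bound ?_ C (Filter.Eventually.of_forall fun x => ?_)
  · have := h.cont
    exact (by fun_prop : Continuous fun x => k (x - y)).aestronglyMeasurable
  · rw [Real.norm_eq_abs]
    exact momL_kbd hγ hC h _

lemma momL_summable {γ : ℝ} (hγ : 0 < γ) (A : ℝ) :
    Summable fun j : ℤ => A * Real.exp (-(γ * |(j : ℝ)|)) := by
  have h1 : Summable fun n : ℕ => Real.exp (-γ) ^ n :=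
    summable_geometric_of_lt_one (Real.exp_pos _).le (Real.exp_lt_one_iff.2 (by linarith))
  have h2 : ∀ n : ℕ, Real.exp (-γ) ^ n = Real.exp (-(γ * (n : ℝ))) := by
    intro n
    rw [← Real.exp_nat_mul]
    congr 1
    ring
  simp only [h2] at h1
  refine Summable.mul_left A ?_
  refine Summable.of_nat_of_neg ?_ ?_
  · refine h1.congr fun n => ?_
    rw [Int.cast_natCast, abs_of_nonneg (Nat.cast_nonneg n)]
  · refine h1.congr fun n => ?_
    rw [Int.cast_neg, Int.cast_natCast, abs_neg, abs_of_nonneg (Nat.cast_nonneg n)]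

theorem mom_l {Θ : Type} {k : Θ → ℝ → ℝ} {γ C c₀ : ℝ} (hγ0 : 0 < γ) (hC : 1 ≤ C) (hc₀ : 0 < c₀)
    {F : Finset Θ} (hF : ∀ θ ∈ F, KLef γ C c₀ (k θ)) {k₀ : ℝ → ℝ}
    (hk₀ : ∀ s, |k₀ s| ≤ C * Real.exp (-(γ * |s|))) {n : Θ → Measure ℝ}
    (hn : ∀ θ ∈ F, IsFiniteMeasure (n θ))
    (hpos : ∀ y, k₀ (-y) ≤ ∑ θ ∈ F, ∫ x, k θ (x - y) ∂(n θ)) :
    ∀ θ ∈ F, Integrable (fun x => Real.exp (γ / 2 * |x|)) (n θ) := by
  classical
  intro θ hθ
  have hfin := hn θ hθ
  have hC0 : 0 < C := by linarith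
  -- mass of an interval
  have hmass : ∀ y : ℝ, (n θ).real (Icc (y - 1) (y + 1)) ≤ C / c₀ * Real.exp (-(γ * |y|)) := by
    intro y
    have h1 : ∫ x, k θ (x - y) ∂(n θ) ≥ k₀ (-y) := by
      have h2 : ∑ θ' ∈ F, ∫ x, k θ' (x - y) ∂(n θ') ≤ ∫ x, k θ (x - y) ∂(n θ) := by
        rw [← Finset.sum_erase_add _ _ hθ]
        have : ∑ θ' ∈ F.erase θ, ∫ x, k θ' (x - y) ∂(n θ') ≤ 0 :=
          Finset.sum_nonpos fun θ' hθ' => integral_nonpos fun x =>
            ((hF θ' (Finset.mem_of_mem_erase hθ')).neg _).le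
        linarith
      exact (hpos y).trans h2
    have h3 : ∫ x, k θ (x - y) ∂(n θ) ≤ ∫ x, indicator (Icc (y - 1) (y + 1)) (fun _ => -c₀) x ∂(n θ) := by
      refine integral_mono (momL_int hγ0 hC (hF θ hθ) (n θ) y)
        ((integrable_const (-c₀)).indicator measurableSet_Icc) fun x => ?_
      by_cases hx : x ∈ Icc (y - 1) (y + 1)
      · rw [indicator_of_mem hx]
        refine (hF θ hθ).mid _ ?_
        rw [abs_le]
        constructor
        · linarith [hx.1]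
        · linarith [hx.2]
      · rw [indicator_of_notMem hx]
        exact ((hF θ hθ).neg _).le
    rw [integral_indicator measurableSet_Icc, setIntegral_const, smul_eq_mul] at h3
    have h4 := (abs_le.1 (hk₀ (-y))).1
    rw [abs_neg] at h4
    rw [div_mul_eq_mul_div, le_div_iff₀ hc₀]
    linarith
  -- covering
  have hcover : (⋃ j : ℤ, Icc (2 * (j : ℝ) - 1) (2 * (j : ℝ) + 1)) = univ := by
    rw [eq_univ_iff_forall]
    intro x
    rw [mem_iUnion]
    refine ⟨⌊(x + 1) / 2⌋, ?_, ?_⟩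
    · have := Int.floor_le ((x + 1) / 2)
      linarith
    · have := Int.lt_floor_add_one ((x + 1) / 2)
      linarith
  set A : ℝ := Real.exp (γ / 2) * (C / c₀) with hA
  have hA0 : 0 ≤ A := by positivity
  refine ⟨(by fun_prop : Continuous fun x : ℝ => Real.exp (γ / 2 * |x|)).aestronglyMeasurable, ?_⟩
  rw [hasFiniteIntegral_iff_ofReal (Filter.Eventually.of_forall fun x => (Real.exp_pos _).le)]
  have h1 : ∫⁻ x, ENNReal.ofReal (Real.exp (γ / 2 * |x|)) ∂(n θ) ≤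
      ∑' j : ℤ, ∫⁻ x in Icc (2 * (j : ℝ) - 1) (2 * (j : ℝ) + 1),
        ENNReal.ofReal (Real.exp (γ / 2 * |x|)) ∂(n θ) := by
    rw [← setLIntegral_univ, ← hcover]
    exact lintegral_iUnion_le _ _
  have h2 : ∀ j : ℤ, ∫⁻ x in Icc (2 * (j : ℝ) - 1) (2 * (j : ℝ) + 1),
      ENNReal.ofReal (Real.exp (γ / 2 * |x|)) ∂(n θ) ≤
      ENNReal.ofReal (A * Real.exp (-(γ * |(j : ℝ)|))) := by
    intro j
    have h3 : ∫⁻ x in Icc (2 * (j : ℝ) - 1) (2 * (j : ℝ) + 1),
        ENNReal.ofReal (Real.exp (γ / 2 * |x|)) ∂(n θ) ≤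
        ∫⁻ x in Icc (2 * (j : ℝ) - 1) (2 * (j : ℝ) + 1),
        ENNReal.ofReal (Real.exp (γ / 2) * Real.exp (γ * |(j : ℝ)|)) ∂(n θ) := by
      refine setLIntegral_mono (by fun_prop) fun x hx => ?_
      refine ENNReal.ofReal_le_ofReal ?_
      rw [← Real.exp_add]
      refine Real.exp_le_exp.2 ?_
      have h4 : |x| ≤ 2 * |(j : ℝ)| + 1 := by
        have h5 : |x - 2 * j| ≤ 1 := by
          rw [abs_le]
          constructor
          · linarith [hx.1]
          · linarith [hx.2]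
        have h6 : |x| ≤ |x - 2 * j| + |2 * (j : ℝ)| := by
          have := abs_add_le (x - 2 * j) (2 * (j : ℝ))
          rwa [sub_add_cancel] at this
        rw [abs_mul, abs_two] at h6
        linarith
      nlinarith
    refine h3.trans ?_
    rw [setLIntegral_const]
    have h7 : (n θ) (Icc (2 * (j : ℝ) - 1) (2 * (j : ℝ) + 1)) ≤
        ENNReal.ofReal (C / c₀ * Real.exp (-(γ * |2 * (j : ℝ)|))) := by
      rw [← ofReal_measureReal (measure_ne_top _ _)]
      exact ENNReal.ofReal_le_ofReal (hmass _)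
    refine (mul_le_mul_right h7 _).trans ?_
    rw [← ENNReal.ofReal_mul (by positivity)]
    refine ENNReal.ofReal_le_ofReal (le_of_eq ?_)
    rw [hA, abs_mul, abs_two]
    have h8 : Real.exp (γ * |(j : ℝ)|) * Real.exp (-(γ * (2 * |(j : ℝ)|))) =
        Real.exp (-(γ * |(j : ℝ)|)) := by
      rw [← Real.exp_add]
      congr 1
      ring
    rw [← h8]
    ring
  refine (h1.trans (ENNReal.tsum_le_tsum h2)).trans_lt ?_
  rw [← ENNReal.ofReal_tsum_of_nonneg (fun j => by positivity) (momL_summable hγ0 A)]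
  exact ENNReal.ofReal_lt_top

end Pool.Agent.IND2I
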