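import Pool.Agent.IND2I.PDefs

/-!
# IND2I: certificates on a finite set of rays (definition)
-/

set_option autoImplicit false

namespace Pool.Agent.IND2I

open MeasureTheory Set

/-- `(n θ)`, `θ ∈ F`, is a certificate for the target `t` (finite measures with an exponential moment). -/
structure FCert {Θ : Type} (k : Θ → ℝ → ℝ) (F : Finset Θ) (t : Θ) (n : Θ → Measure ℝ) : Prop where
  fin : ∀ θ ∈ F, IsFiniteMeasure (n θ)
  mom : ∃ δ : ℝ, 0 < δ ∧ ∀ θ ∈ F, Integrable (fun x => Real.exp (δ * |x|)) (n θ)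
  pos : ∀ y, k t (-y) ≤ ∑ θ ∈ F, ∫ x, k θ (x - y) ∂(n θ)

end Pool.Agent.IND2I
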