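import Pool.Agent.IND2I.Exit
import Pool.Agent.IND2I.FCert

/-!
# IND2I, module PatchB: patches for supercritical targets

PROOF.  Build `S : Sys ι lam` with `ι = {θ // θ ∈ F ∧ 0 < β θ}`, `lam = {θ // θ ∈ F ∧ β θ = 0}` (finite types), `kb i = k i`,
`kl j = k j`, `k₀ = k t`, `β₀ = β t`, `cb = c`, `cl = c`, `c = c₀`.  From `hF` every `θ ∈ F` with `0 < β θ` has `KSup` and every `θ ∈ F`
with `β θ = 0` has `KLef`.  `S.HypM`: for a certificate `(n, l)` of `S` let `n' θ = n ⟨θ, _⟩` if `θ ∈ F ∧ 0 < β θ`, `l ⟨θ, _⟩` if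
`θ ∈ F ∧ β θ = 0`, `0` otherwise; then `∑_{θ ∈ F} f θ (n' θ) = ∑_{i} f i (n i) + ∑_j f j (l j)` (every `θ ∈ F` is in exactly one class), so
`n'` is an `FCert` and `hM` applies; `S.HypV` the same (`β θ = 0` on the second class).  `S.exit` gives everything:
`env (k i) (β i) .. = S.pb .. + ∫ .. + a' * ∫ ..` by definition, `env (k j) 0 .. = S.pl ..`, `env (k t) (β t) .. 0 = S.p0 .. 0 + ..`
(`-(0 * Λ) = 0`, `s + 0 = s`).
-/

set_option autoImplicit false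

namespace Pool.Agent.IND2I

open MeasureTheory Set

open Classical in
/-- the family of measures on `Θ` -/
private noncomputable def pbm {Θ : Type} {β : Θ → ℝ} {F : Finset Θ}
    (n : {θ : Θ // θ ∈ F ∧ 0 < β θ} → Measure ℝ) (l : {θ : Θ // θ ∈ F ∧ β θ = 0} → Measure ℝ)
    (θ : Θ) : Measure ℝ :=
  if h : θ ∈ F ∧ 0 < β θ then n ⟨θ, h⟩ else if h : θ ∈ F ∧ β θ = 0 then l ⟨θ, h⟩ else 0

private lemma pbm_pos {Θ : Type} {β : Θ → ℝ} {F : Finset Θ}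
    (n : {θ : Θ // θ ∈ F ∧ 0 < β θ} → Measure ℝ) (l : {θ : Θ // θ ∈ F ∧ β θ = 0} → Measure ℝ)
    (i : {θ : Θ // θ ∈ F ∧ 0 < β θ}) : pbm n l i = n i := by
  unfold pbm
  rw [dif_pos i.2]

private lemma pbm_zero {Θ : Type} {β : Θ → ℝ} {F : Finset Θ}
    (n : {θ : Θ // θ ∈ F ∧ 0 < β θ} → Measure ℝ) (l : {θ : Θ // θ ∈ F ∧ β θ = 0} → Measure ℝ)
    (j : {θ : Θ // θ ∈ F ∧ β θ = 0}) : pbm n l j = l j := by
  unfold pbm
  rw [dif_neg (fun h => h.2.ne' j.2.2), dif_pos j.2]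

private lemma pbm_sum {Θ : Type} {β : Θ → ℝ} {F : Finset Θ}
    [Fintype {θ : Θ // θ ∈ F ∧ 0 < β θ}] [Fintype {θ : Θ // θ ∈ F ∧ β θ = 0}]
    (hF : ∀ θ ∈ F, 0 < β θ ∨ β θ = 0)
    (n : {θ : Θ // θ ∈ F ∧ 0 < β θ} → Measure ℝ) (l : {θ : Θ // θ ∈ F ∧ β θ = 0} → Measure ℝ)
    (f : Θ → Measure ℝ → ℝ) :
    ∑ θ ∈ F, f θ (pbm n l θ) = (∑ i, f i.1 (n i)) + ∑ j, f j.1 (l j) := by
  classical
  rw [← Finset.sum_filter_add_sum_filter_not F (fun θ => 0 < β θ)]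
  congr 1
  · rw [Finset.sum_subtype (F.filter fun θ => 0 < β θ) (p := fun θ => θ ∈ F ∧ 0 < β θ)
      (fun θ => by simp)]
    exact Finset.sum_congr rfl fun i _ => by rw [pbm_pos]
  · rw [Finset.sum_subtype (F.filter fun θ => ¬ 0 < β θ) (p := fun θ => θ ∈ F ∧ β θ = 0)
      (fun θ => by
        simp only [Finset.mem_filter]
        constructor
        · rintro ⟨h1, h2⟩
          exact ⟨h1, (hF θ h1).resolve_left h2⟩
        · rintro ⟨h1, h2⟩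
          exact ⟨h1, fun h => h.ne' h2⟩)]
    exact Finset.sum_congr rfl fun i _ => by rw [pbm_zero]

theorem patchB {Θ : Type} {k : Θ → ℝ → ℝ} {β : Θ → ℝ} {γ C c₀ L : ℝ} (hγ0 : 0 < γ) (hγ1 : γ < 1)
    (hC : 1 ≤ C) (hc₀ : 0 < c₀) (hL : 1 ≤ L) {F : Finset Θ}
    (hF : ∀ θ ∈ F, (0 < β θ ∧ KSup γ C c₀ L (β θ) (k θ)) ∨ (β θ = 0 ∧ KLef γ C c₀ (k θ)))
    (hne : ∃ θ ∈ F, 0 < β θ) {t : Θ} (ht : 0 < β t) (hkt : KTar γ C (β t) (k t))
    {c : Θ → ℝ} {v ε a a' : ℝ} (hε : 0 < ε) (ha : 0 ≤ a) (ha' : 0 ≤ a')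
    (hal : ∀ θ ∈ F, β θ = 0 → a * ∫ s in Ioi (0 : ℝ), k θ s < c θ)
    (hal' : ∀ θ ∈ F, β θ = 0 → a' * ∫ s in Iio (0 : ℝ), k θ s < c θ)
    (hM : ∀ n, FCert k F t n → v < ∑ θ ∈ F, c θ * (n θ).real univ)
    (hV : ∀ n, FCert k F t n → β t ≤ ∑ θ ∈ F, β θ * (n θ).real univ) :
    PatchEx k β F c t v ε a a' := by
  classical
  have hfi : Finite {θ : Θ // θ ∈ F ∧ 0 < β θ} :=
    Finite.of_injective (fun i => (⟨i.1, i.2.1⟩ : {θ // θ ∈ F})) fun i j h => by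
      have := congrArg Subtype.val h
      exact Subtype.ext this
  have hfl : Finite {θ : Θ // θ ∈ F ∧ β θ = 0} :=
    Finite.of_injective (fun i => (⟨i.1, i.2.1⟩ : {θ // θ ∈ F})) fun i j h => by
      have := congrArg Subtype.val h
      exact Subtype.ext this
  let _ : Fintype {θ : Θ // θ ∈ F ∧ 0 < β θ} := Fintype.ofFinite _
  let _ : Fintype {θ : Θ // θ ∈ F ∧ β θ = 0} := Fintype.ofFinite _
  have hcls : ∀ θ ∈ F, 0 < β θ ∨ β θ = 0 := fun θ hθ =>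
    (hF θ hθ).imp (fun h => h.1) (fun h => h.1)
  let S : Sys {θ : Θ // θ ∈ F ∧ 0 < β θ} {θ : Θ // θ ∈ F ∧ β θ = 0} :=
    { γ := γ, C := C, c := c₀, L := L, β := fun i => β i, β₀ := β t, kb := fun i => k i,
      kl := fun j => k j, k₀ := k t, cb := fun i => c i, cl := fun j => c j, v := v,
      hγ0 := hγ0, hγ1 := hγ1, hC := hC, hc := hc₀, hL := hL, hβ := fun i => i.2.2, hβ₀ := ht,
      hkb := fun i => by
        rcases hF i.1 i.2.1 with h | h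
        · exact h.2
        · exact absurd h.1 i.2.2.ne'
      hkl := fun j => by
        rcases hF j.1 j.2.1 with h | h
        · exact absurd j.2.2 h.1.ne'
        · exact h.2
      hk₀ := hkt }
  have hcert : ∀ n l, S.Cert n l → FCert k F t (pbm n l) := by
    intro n l h
    have hcase : ∀ (P : Θ → Measure ℝ → Prop), (∀ i, P i.1 (n i)) → (∀ j, P j.1 (l j)) →
        ∀ θ ∈ F, P θ (pbm n l θ) := by
      intro P h1 h2 θ hθ
      rcases hcls θ hθ with h3 | h3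
      · have e := pbm_pos n l ⟨θ, hθ, h3⟩
        rw [show pbm n l θ = n ⟨θ, hθ, h3⟩ from e]
        exact h1 ⟨θ, hθ, h3⟩
      · have e := pbm_zero n l ⟨θ, hθ, h3⟩
        rw [show pbm n l θ = l ⟨θ, hθ, h3⟩ from e]
        exact h2 ⟨θ, hθ, h3⟩
    refine ⟨hcase (fun _ μ => IsFiniteMeasure μ) h.finn h.finl, ?_, ?_⟩
    · obtain ⟨δ, hδ, h1, h2⟩ := h.mom
      exact ⟨δ, hδ, hcase (fun _ μ => Integrable (fun x => Real.exp (δ * |x|)) μ) h1 h2⟩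
    · intro y
      have h1 := h.pos y
      rw [pbm_sum hcls n l (fun θ μ => ∫ x, k θ (x - y) ∂μ)]
      have h2 : S.g n l y = (∑ i, ∫ x, k i.1 (x - y) ∂(n i)) + (∑ j, ∫ x, k j.1 (x - y) ∂(l j)) -
        k t (-y) := rfl
      rw [h2] at h1
      linarith
  have hHM : S.HypM := by
    intro n l h
    have h1 := hM _ (hcert n l h)
    rwa [pbm_sum hcls n l (fun θ μ => c θ * μ.real univ)] at h1
  have hHV : S.HypV := by
    intro n l h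
    have h1 := hV _ (hcert n l h)
    rw [pbm_sum hcls n l (fun θ μ => β θ * μ.real univ)] at h1
    have h2 : (∑ j : {θ : Θ // θ ∈ F ∧ β θ = 0}, β j.1 * (l j).real univ) = 0 :=
      Finset.sum_eq_zero fun j _ => by rw [j.2.2, zero_mul]
    rw [h2, add_zero] at h1
    exact h1
  obtain ⟨θ₀, hθ₀, hβ₀⟩ := hne
  have : Nonempty {θ : Θ // θ ∈ F ∧ 0 < β θ} := ⟨⟨θ₀, hθ₀, hβ₀⟩⟩
  obtain ⟨L₁, A, Λ₀, hL₁, hA, hΛ₀, hex⟩ := S.exit hHM hHV ha ha'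
    (fun j => hal j.1 j.2.1 j.2.2) (fun j => hal' j.1 j.2.1 j.2.2) hε
  refine ⟨L₁, A, Λ₀, hL₁, hA, hΛ₀, fun Λ hΛ => ?_⟩
  obtain ⟨M, B₀, B, ρ, p1, p2, p3, p4, p5, p6, p7, p8, p9, p10, p11, p12, p13, p14⟩ := hex Λ hΛ
  refine ⟨M, B₀, B, ρ, p2, p5, p10, p6, p7, p8, p9, p1, by linarith, p4, by linarith, ?_, ?_, ?_,
    ?_⟩
  · intro θ hθ hβ x
    have h1 := p13 ⟨θ, hθ, hβ⟩ x
    rw [hβ]
    unfold env
    have h2 : S.pl a M ⟨θ, hθ, hβ⟩ x = a * ∫ s in Ioi (x + M), k θ s := rfl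
    rw [h2] at h1
    simp only [zero_mul, neg_zero, zero_add, add_zero]
    exact h1
  · intro θ hθ hβ x hx
    exact p11 ⟨θ, hθ, hβ⟩ x hx
  · intro θ hθ hβ x hx
    exact p12 ⟨θ, hθ, hβ⟩ x hx
  · exact p14

end Pool.Agent.IND2I
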