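import Pool.Agent.IND2I.Defs

/-!
# IND2I: patches, plans and sequences of stages (definitions)

`k : Θ → ℝ → ℝ` is the family of all kernels (`Θ` = set of rays), `β θ ≥ 0` the limit of `-k θ` at `+∞`.
Rays with `β θ = 0` are called `z`-rays (zeros of `b`), rays with `β θ > 0` are called `b`-rays.
-/

set_option autoImplicit false

namespace Pool.Agent.IND2I

open MeasureTheory Set

/-- The potential in the idealised environment: total mass `Λ` far to the left with density `a` on `(-∞, -M)`, the density `ρ`,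
and the density `a'` on `(B₀, ∞)`. -/
noncomputable def env (k : ℝ → ℝ) (β a a' Λ M B₀ : ℝ) (ρ : ℝ → ℝ) (x : ℝ) : ℝ :=
  -(β * Λ) + a * (∫ s in Ioi (x + M), (k s + β)) + (∫ y, k (x - y) * ρ y)
    + a' * ∫ y in Ioi B₀, k (x - y)

/-- A patch: `ρ` lives on the window `[-M, B]`; constraints for the rays in `F`, target `t` at `0`. -/
structure Patch {Θ : Type} (k : Θ → ℝ → ℝ) (β : Θ → ℝ) (F : Finset Θ) (c : Θ → ℝ) (t : Θ)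
    (v ε a a' Λ M B₀ B L₁ : ℝ) (ρ : ℝ → ℝ) : Prop where
  meas : Measurable ρ
  nonneg : ∀ y, 0 ≤ ρ y
  supp : ∀ y, y ∉ Icc (-M) B → ρ y = 0
  int : Integrable ρ
  hM : 0 ≤ M
  hB₀ : -M ≤ B₀
  hB : B₀ ≤ B
  hB0 : 0 ≤ B
  z : ∀ θ ∈ F, β θ = 0 → ∀ x, env (k θ) (β θ) a a' Λ M B₀ ρ x ≤ c θ + ε
  b : ∀ θ ∈ F, 0 < β θ → ∀ x, -M - L₁ ≤ x → env (k θ) (β θ) a a' Λ M B₀ ρ x ≤ c θ + ε
  bl : ∀ θ ∈ F, 0 < β θ → ∀ x, x ≤ -M - L₁ → ∫ y, k θ (x - y) * ρ y ≤ β θ * Λ / 4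
  t : v - ε ≤ env (k t) (β t) a a' Λ M B₀ ρ 0

/-- Patches exist for all large `Λ`, with windows of logarithmic length and polynomial mass. -/
def PatchEx {Θ : Type} (k : Θ → ℝ → ℝ) (β : Θ → ℝ) (F : Finset Θ) (c : Θ → ℝ) (t : Θ)
    (v ε a a' : ℝ) : Prop :=
  ∃ L₁ A Λ₀ : ℝ, 0 ≤ L₁ ∧ 1 ≤ A ∧ 1 ≤ Λ₀ ∧ ∀ Λ, Λ₀ ≤ Λ → ∃ (M B₀ B : ℝ) (ρ : ℝ → ℝ),
    M ≤ A * Real.log Λ ∧ B ≤ A * Real.log Λ ∧ ∫ y, ρ y ≤ Real.exp (A * Real.log Λ) ∧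
    Patch k β F c t v ε a a' Λ M B₀ B L₁ ρ

/-- The plan of the construction: at stage `j` the rays in `F j` have to obey the bounds `c j`, the target `t j` has to reach
`v j`; `a j` is the density before patch `j` (and `a (j+1)` the density after it), `f j` an additional filler density. -/
structure Plan (Θ : Type) where
  k : Θ → ℝ → ℝ
  β : Θ → ℝ
  F : ℕ → Finset Θ
  c : ℕ → Θ → ℝ
  t : ℕ → Θ
  v : ℕ → ℝ
  ε : ℕ → ℝ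
  a : ℕ → ℝ
  f : ℕ → ℝ
  γ : ℕ → ℝ
  C : ℕ → ℝ
  hε : ∀ j, 0 < ε j
  hε1 : ∀ j, ε j ≤ 1
  ha : ∀ j, 0 ≤ a j
  hf : ∀ j, 0 ≤ f j
  haf : ∀ j, 0 < a j + f j
  hγ : ∀ j, 0 < γ j
  hγ1 : ∀ j, γ j < 1
  hC : ∀ j, 1 ≤ C j
  hβ : ∀ j, ∀ θ ∈ F j, 0 ≤ β θ
  hβt : ∀ j, 0 ≤ β (t j)
  hk : ∀ j, ∀ θ ∈ F j, KTar (γ j) (C j) (β θ) (k θ)
  hkt : ∀ j, KTar (γ j) (C j) (β (t j)) (k (t j))
  hneg : (∀ j, f j = 0) ∨ ∀ j, ∀ θ ∈ F j, β θ = 0 → ∀ s, k θ s ≤ 0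
  hP : ∀ j, PatchEx k β (F j) (c j) (t j) (v j) (ε j) (a j) (a (j + 1))

/-- The stages.  Stage `j` begins at `z j` with mass `m j` to the left of `z j`: density `a j` on `[z j, w j)`, `w j = z j + 3 G j`,
filler density `f j` on `[z j + G j, z j + 2 G j)`, patch `π j` centred at `x j = w j + M j` (window `[w j, z (j+1)]`), density `a (j+1)`
on `(x j + B₀ j, z (j+1))`. -/
structure Stages {Θ : Type} (P : Plan Θ) where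
  z : ℕ → ℝ
  m : ℕ → ℝ
  G : ℕ → ℝ
  M : ℕ → ℝ
  B₀ : ℕ → ℝ
  B : ℕ → ℝ
  L : ℕ → ℝ
  pi : ℕ → ℝ → ℝ
  z0 : z 0 = 0
  m0 : m 0 = 0
  zs : ∀ j, z (j + 1) = z j + 3 * G j + M j + B j
  ms : ∀ j, m (j + 1) = m j + (3 * P.a j + P.f j) * G j + (∫ y, pi j y) +
    P.a (j + 1) * (B j - B₀ j)
  G1 : ∀ j, 1 ≤ G j
  L0 : ∀ j, 0 ≤ L j
  LG : ∀ j, L j ≤ G j / 2
  patch : ∀ j, Patch P.k P.β (P.F j) (P.c j) (P.t j) (P.v j) (P.ε j) (P.a j) (P.a (j + 1))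
    (m j + (3 * P.a j + P.f j) * G j) (M j) (B₀ j) (B j) (L j) (pi j)
  s3 : ∀ i j, i ≤ j → P.C i * Real.exp (-(G j / 2)) *
    ((∫ y, pi j y) + P.a j + P.f j + 2 * P.a (j + 1) + P.f (j + 1) + 1) ≤ (1 / 2) ^ j * P.ε i / 16
  s4 : ∀ i j, i ≤ j → P.C i / P.γ i * Real.exp (-(P.γ i * (G j / 2))) *
    (m j + P.a j + P.f j + 1) ≤ P.ε i / 16
  s5 : ∀ j, ∀ θ ∈ P.F j, 0 < P.β θ → |P.c j θ| +
    4 * P.C j / P.γ j * (P.a j + P.f j + P.a (j + 1) + P.f (j + 1) + 1) ≤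
      P.β θ * (m j + (3 * P.a j + P.f j) * G j) / 4
  s6 : ∀ j, m (j + 1) ≤ Real.exp (G j / (j + 1)) ∧
    ((j : ℝ) + 1) * (P.a (j + 1) + P.f (j + 1)) ≤ Real.exp (G j / (j + 1))
  s7 : ∀ j : ℕ, (j : ℝ) ≤ m j + (3 * P.a j + P.f j) * G j

namespace Stages

variable {Θ : Type} {P : Plan Θ} (Q : Stages P)

/-- total mass before patch `j` -/
noncomputable def Lam (j : ℕ) : ℝ := Q.m j + (3 * P.a j + P.f j) * Q.G j

/-- beginning of the window of patch `j` -/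
noncomputable def w (j : ℕ) : ℝ := Q.z j + 3 * Q.G j

/-- centre of patch `j` -/
noncomputable def x (j : ℕ) : ℝ := Q.z j + 3 * Q.G j + Q.M j

/-- beginning of block `j` -/
noncomputable def X (j : ℕ) : ℝ := Q.z j + 5 / 2 * Q.G j

/-- the density of stage `j` -/
noncomputable def piece (j : ℕ) (y : ℝ) : ℝ :=
  (Ico (Q.z j) (Q.w j)).indicator (fun _ => P.a j) y +
  (Ico (Q.z j + Q.G j) (Q.z j + 2 * Q.G j)).indicator (fun _ => P.f j) y +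
  Q.pi j (y - Q.x j) +
  (Ioo (Q.x j + Q.B₀ j) (Q.z (j + 1))).indicator (fun _ => P.a (j + 1)) y

/-- the density constructed -/
noncomputable def rho (y : ℝ) : ℝ := ∑' j, Q.piece j y

end Stages

end Pool.Agent.IND2I
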