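import Pool.Agent.IND2I.KT
import Pool.Agent.IND2I.PDefs

/-!
# IND2I, module PatchS: simple patches

PROOF of `patchQ`.  `L₁ = 0`, `M = B₀ = 0`, `B = L + 2`, `ρ = q 1_{Icc (L+1) (L+2)}` with
`q = (β t Λ + |v| + a C/γ + a' C) e^{L+2}/c₀`; `∫ ρ = q ≤ e^{A log Λ} = Λ^A` for `A` (say `A ≥ 2`) and `Λ₀` large.
`env (k t) (β t) .. 0 = -β t Λ + a ∫_{Ioi 0} (k t + β t) + ∫ k t (0 - y) ρ + a' ∫_{Ioi 0} k t (0 - y) ≥ -β t Λ - a C/γ + q c₀ e^{-(L+2)} - a' C ≥ v`.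
`θ ∈ F`: `k θ ≤ 0`, so `env ≤ a ∫_{Ioi x} k θ + a' ∫_{Ioi 0} k θ (x - y) dy = a ∫_{Ioi x} k θ + a' ∫_{Iio x} k θ ≤ c θ`.
PROOF of `patchR`.  `L₁ = 0`, `M = B₀ = 0`, `B = 1`, `ρ = η Λ 1_{Icc 0 1}` with `η > 0`, `C η ≤ β θ/4` for all `θ ∈ F` with `β θ > 0`, `η ≤ 1`.
Target: `env (k t) 0 .. 0 ≥ η Λ ∫_{Icc 0 1} k t (-y) dy ≥ v` for large `Λ` (all terms `≥ 0`, `k t > 0`).
`b`-rays: `x ≥ 0`: `env ≤ -β Λ + a C/γ + C η Λ + a' 2C/γ ≤ c θ` for large `Λ`; `∫ k θ (x - y) ρ ≤ C η Λ ≤ β Λ/4`.  `z`-rays: `k θ ≤ 0` and `htr`.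
PROOF of `patchG`.  `ρ = 0`, everything `0`: `env (k t) 0 .. 0 = 0 ≥ v - ε`, `b`-rays: `env = -β Λ ≤ c θ` for large `Λ`.
-/

set_option autoImplicit false

namespace Pool.Agent.IND2I

open MeasureTheory Set

private lemma ps_refl (k : ℝ → ℝ) (x : ℝ) :
    ∫ y in Ioi (0 : ℝ), k (x - y) = ∫ s in Iio x, k s := by
  rw [← integral_indicator measurableSet_Ioi, ← integral_indicator measurableSet_Iio,
    ← integral_sub_left_eq_self ((Iio x).indicator k) volume x]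
  refine integral_congr_ae (Filter.Eventually.of_forall fun y => ?_)
  by_cases hy : 0 < y
  · simp only [indicator, mem_Ioi, mem_Iio]
    rw [if_pos hy, if_pos (by linarith)]
  · simp only [indicator, mem_Ioi, mem_Iio]
    rw [if_neg hy, if_neg (by linarith)]

private lemma ps_z {k : ℝ → ℝ} {a a' Λ c : ℝ} {ρ : ℝ → ℝ} (hk : ∀ s, k s ≤ 0)
    (hρ : ∀ y, 0 ≤ ρ y) (htr : ∀ u : ℝ, a * (∫ s in Ioi u, k s) + a' * (∫ s in Iio u, k s) ≤ c)
    (x : ℝ) : env k 0 a a' Λ 0 0 ρ x ≤ c := by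
  unfold env
  rw [ps_refl]
  have h1 : ∫ y, k (x - y) * ρ y ≤ 0 :=
    integral_nonpos fun y => mul_nonpos_of_nonpos_of_nonneg (hk _) (hρ y)
  have h2 := htr x
  simp only [zero_mul, neg_zero, zero_add, add_zero]
  linarith

/-- the density of a box -/
private lemma ps_box {q u w : ℝ} (h : u ≤ w) :
    Measurable ((Icc u w).indicator fun _ : ℝ => q) ∧
      Integrable ((Icc u w).indicator fun _ : ℝ => q) ∧
      ∫ y, (Icc u w).indicator (fun _ : ℝ => q) y = (w - u) * q := by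
  refine ⟨measurable_const.indicator measurableSet_Icc, ?_, ?_⟩
  · rw [integrable_indicator_iff measurableSet_Icc]
    exact integrableOn_const (by simp)
  · rw [integral_indicator measurableSet_Icc, setIntegral_const]
    simp [h]

private lemma ps_lower {k : ℝ → ℝ} (hk : Continuous k) {q u w m : ℝ} (hq : 0 ≤ q) (h : u ≤ w)
    (hm : ∀ y ∈ Icc u w, m ≤ k (0 - y)) :
    (w - u) * (q * m) ≤ ∫ y, k (0 - y) * (Icc u w).indicator (fun _ : ℝ => q) y := by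
  have e1 : ∀ y, k (0 - y) * (Icc u w).indicator (fun _ : ℝ => q) y =
      (Icc u w).indicator (fun y => k (0 - y) * q) y := by
    intro y
    by_cases hy : y ∈ Icc u w
    · rw [indicator_of_mem hy, indicator_of_mem hy]
    · rw [indicator_of_notMem hy, indicator_of_notMem hy, mul_zero]
  simp_rw [e1]
  rw [integral_indicator measurableSet_Icc]
  have e2 : (w - u) * (q * m) = ∫ _ in Icc u w, q * m := by
    rw [setIntegral_const]
    simp [h]
  rw [e2]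
  refine setIntegral_mono_on (integrableOn_const (by simp)) ?_ measurableSet_Icc fun y hy => ?_
  · exact (by fun_prop : Continuous fun y => k (0 - y) * q).integrableOn_Icc
  · rw [mul_comm]
    exact mul_le_mul_of_nonneg_right (hm y hy) hq

theorem patchQ {Θ : Type} {k : Θ → ℝ → ℝ} {β : Θ → ℝ} {γ C c₀ L : ℝ} (hγ0 : 0 < γ) (hγ1 : γ < 1)
    (hC : 1 ≤ C) (hc₀ : 0 < c₀) (hL : 0 ≤ L) {F : Finset Θ}
    (hF : ∀ θ ∈ F, β θ = 0 ∧ KTar γ C 0 (k θ) ∧ ∀ s, k θ s ≤ 0) {t : Θ} (ht : 0 < β t)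
    (hkt : KTar γ C (β t) (k t)) (hpos : ∀ s, s ≤ -L → c₀ * Real.exp s ≤ k t s)
    {c : Θ → ℝ} {v ε a a' : ℝ} (hε : 0 < ε) (ha : 0 ≤ a) (ha' : 0 ≤ a')
    (htr : ∀ θ ∈ F, ∀ u : ℝ, a * (∫ s in Ioi u, k θ s) + a' * (∫ s in Iio u, k θ s) ≤ c θ) :
    PatchEx k β F c t v ε a a' := by
  obtain ⟨W, hW⟩ : ∃ W, W = |v| + a * (C / γ) + a' * C := ⟨_, rfl⟩
  have hW0 : 0 ≤ W := by rw [hW]; positivity
  obtain ⟨E, hE⟩ : ∃ E, E = Real.exp (L + 2) / c₀ := ⟨_, rfl⟩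
  have hE0 : 0 < E := by rw [hE]; positivity
  refine ⟨0, 2, Real.exp (L + 2) + (β t + W) * E, le_rfl, by norm_num, ?_, fun Λ hΛ => ?_⟩
  · have h1 : 1 ≤ Real.exp (L + 2) := Real.one_le_exp (by linarith)
    have h2 : 0 ≤ (β t + W) * E := by positivity
    linarith
  have hexp : 0 < Real.exp (L + 2) := Real.exp_pos _
  have h2 : 0 ≤ (β t + W) * E := by positivity
  have hexp1 : 1 ≤ Real.exp (L + 2) := Real.one_le_exp (by linarith)
  have hΛ1 : 1 ≤ Λ := by linarith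
  have hΛ0 : 0 < Λ := by linarith
  have hlog : L + 2 ≤ Real.log Λ := by
    rw [Real.le_log_iff_exp_le hΛ0]
    linarith
  obtain ⟨q, hq⟩ : ∃ q, q = (β t * Λ + W) * E := ⟨_, rfl⟩
  have hq0 : 0 ≤ q := by rw [hq]; positivity
  obtain ⟨b1, b2, b3⟩ := ps_box (q := q) (u := L + 1) (w := L + 2) (by linarith)
  have hnn : ∀ y, 0 ≤ (Icc (L + 1) (L + 2)).indicator (fun _ : ℝ => q) y :=
    fun y => indicator_nonneg (fun _ _ => hq0) y
  refine ⟨0, 0, L + 2, (Icc (L + 1) (L + 2)).indicator fun _ => q, by linarith, by linarith, ?_,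
    b1, hnn, ?_, b2, le_rfl, by simp, by linarith, by linarith, ?_, ?_, ?_, ?_⟩
  · rw [b3]
    have h3 : q ≤ (β t + W) * E * Λ := by
      rw [hq]
      have : W ≤ W * Λ := le_mul_of_one_le_right hW0 hΛ1
      nlinarith
    have h4 : (β t + W) * E * Λ ≤ Λ * Λ := mul_le_mul_of_nonneg_right (by linarith) hΛ0.le
    have h5 : Real.exp (2 * Real.log Λ) = Λ * Λ := by
      rw [two_mul, Real.exp_add, Real.exp_log hΛ0]
    rw [h5]
    linarith
  · intro y hy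
    refine indicator_of_notMem (fun h => hy ?_) _
    exact ⟨by linarith [h.1], h.2⟩
  · intro θ hθ _ x
    obtain ⟨f1, f2, f3⟩ := hF θ hθ
    rw [f1]
    have := ps_z (Λ := Λ) f3 hnn (htr θ hθ) x
    linarith
  · intro θ hθ hβ
    exact absurd (hF θ hθ).1 hβ.ne'
  · intro θ hθ hβ
    exact absurd (hF θ hθ).1 hβ.ne'
  · unfold env
    have e1 := (abs_le.1 (ktar_tail_le hγ0 hkt (t := 0 + 0) (by norm_num))).1
    have e2 : Real.exp (-(γ * (0 + 0))) = 1 := by simp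
    rw [e2, mul_one] at e1
    have e3 := mul_le_mul_of_nonneg_left e1 ha
    have e4 := (abs_le.1 (ktar_right_abs hkt (u := 0) (x := 0) le_rfl measurableSet_Ioi
      (A := Ioi 0) Ioi_subset_Ici_self)).1
    rw [sub_self, Real.exp_zero, mul_one] at e4
    have e5 := mul_le_mul_of_nonneg_left e4 ha'
    have e6 := ps_lower hkt.cont (q := q) (u := L + 1) (w := L + 2)
      (m := c₀ * Real.exp (-(L + 2))) hq0 (by linarith) (by
        intro y hy
        refine le_trans ?_ (hpos (0 - y) (by linarith [hy.1]))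
        exact mul_le_mul_of_nonneg_left (Real.exp_le_exp.2 (by linarith [hy.2])) hc₀.le)
    have e7 : (L + 2 - (L + 1)) * (q * (c₀ * Real.exp (-(L + 2)))) = β t * Λ + W := by
      rw [hq, hE, Real.exp_neg]
      field_simp
      ring
    rw [e7] at e6
    have e8 := le_abs_self v
    have e9 : a * -(C / γ) = -(a * (C / γ)) := by ring
    have e10 : a' * -C = -(a' * C) := by ring
    rw [e9] at e3
    rw [e10] at e5
    rw [hW] at e6
    generalize (∫ y : ℝ, k t (0 - y) * (Icc (L + 1) (L + 2)).indicator (fun _ : ℝ => q) y) = I3 at *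
    generalize (a' * ∫ y in Ioi (0 : ℝ), k t (0 - y)) = I2 at *
    generalize (a * ∫ s in Ioi ((0 : ℝ) + 0), (k t s + β t)) = I1 at *
    linarith

theorem patchR {Θ : Type} {k : Θ → ℝ → ℝ} {β : Θ → ℝ} {γ C : ℝ} (hγ0 : 0 < γ) (hγ1 : γ < 1)
    (hC : 1 ≤ C) {F : Finset Θ}
    (hF : ∀ θ ∈ F, 0 ≤ β θ ∧ KTar γ C (β θ) (k θ) ∧ (β θ = 0 → ∀ s, k θ s ≤ 0)) {t : Θ}
    (ht : β t = 0) (hkt : KTar γ C 0 (k t)) (hpos : ∀ s, 0 < k t s)
    {c : Θ → ℝ} {v ε a a' : ℝ} (hε : 0 < ε) (ha : 0 ≤ a) (ha' : 0 ≤ a')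
    (htr : ∀ θ ∈ F, β θ = 0 → ∀ u : ℝ,
      a * (∫ s in Ioi u, k θ s) + a' * (∫ s in Iio u, k θ s) ≤ c θ) :
    PatchEx k β F c t v ε a a' := by
  obtain ⟨S, hS⟩ : ∃ S, S = ∑ θ ∈ F, 4 * C / |β θ| := ⟨_, rfl⟩
  have hS0 : 0 ≤ S := by rw [hS]; exact Finset.sum_nonneg fun θ _ => by positivity
  obtain ⟨η, hη⟩ : ∃ η, η = (1 + S)⁻¹ := ⟨_, rfl⟩
  have hη0 : 0 < η := by rw [hη]; positivity
  have hη1 : η ≤ 1 := by
    rw [hη]
    exact inv_le_one_of_one_le₀ (by linarith)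
  have hηβ : ∀ θ ∈ F, 0 < β θ → C * η ≤ β θ / 4 := by
    intro θ hθ hβ
    have h1 : 4 * C / β θ ≤ S := by
      have := Finset.single_le_sum (f := fun θ => 4 * C / |β θ|) (fun θ _ => by positivity) hθ
      rw [hS]
      simpa [abs_of_pos hβ] using this
    rw [div_le_iff₀ hβ] at h1
    have h2 : η * (1 + S) = 1 := by rw [hη]; field_simp
    have h3 : η * S ≤ 1 := by nlinarith
    have h4 : 4 * (C * η) ≤ β θ := by
      calc 4 * (C * η) = 4 * C * η := by ring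
        _ ≤ S * β θ * η := mul_le_mul_of_nonneg_right h1 hη0.le
        _ = η * S * β θ := by ring
        _ ≤ 1 * β θ := mul_le_mul_of_nonneg_right h3 hβ.le
        _ = β θ := one_mul _
    linarith
  -- the minimum of the target kernel
  obtain ⟨y₀, hy₀, hmin⟩ := (isCompact_Icc (a := (0 : ℝ)) (b := 1)).exists_isMinOn
    (nonempty_Icc.2 zero_le_one)
    (hkt.cont.comp (continuous_const.sub continuous_id) : Continuous fun y => k t (0 - y)).continuousOn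
  obtain ⟨m₀, hm₀⟩ : ∃ m₀, m₀ = k t (0 - y₀) := ⟨_, rfl⟩
  have hm0 : 0 < m₀ := by rw [hm₀]; exact hpos _
  obtain ⟨D, hD⟩ : ∃ D, D = ∑ θ ∈ F, (|c θ| + a * (C / γ) + a' * (2 * C / γ)) / |β θ| := ⟨_, rfl⟩
  have hterm : ∀ θ, 0 ≤ (|c θ| + a * (C / γ) + a' * (2 * C / γ)) / |β θ| := fun θ => by
    positivity
  have hD0 : 0 ≤ D := by rw [hD]; exact Finset.sum_nonneg fun θ _ => hterm θ
  have hv0 : 0 ≤ |v| / (η * m₀) := by positivity
  refine ⟨0, 1, Real.exp 1 + 2 * D + |v| / (η * m₀), le_rfl, le_rfl, ?_, fun Λ hΛ => ?_⟩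
  · have := Real.add_one_le_exp (1 : ℝ)
    linarith
  have hexp1 := Real.add_one_le_exp (1 : ℝ)
  have hΛ1 : 1 ≤ Λ := by linarith
  have hΛ0 : 0 < Λ := by linarith
  have hlog : 1 ≤ Real.log Λ := by
    rw [Real.le_log_iff_exp_le hΛ0]
    linarith
  have hq0 : 0 ≤ η * Λ := by positivity
  obtain ⟨b1, b2, b3⟩ := ps_box (q := η * Λ) (u := 0) (w := 1) zero_le_one
  rw [sub_zero, one_mul] at b3
  have hnn : ∀ y, 0 ≤ (Icc (0 : ℝ) 1).indicator (fun _ : ℝ => η * Λ) y :=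
    fun y => indicator_nonneg (fun _ _ => hq0) y
  have hconv : ∀ θ ∈ F, 0 < β θ → ∀ x,
      ∫ y, k θ (x - y) * (Icc (0 : ℝ) 1).indicator (fun _ : ℝ => η * Λ) y ≤ β θ * Λ / 4 := by
    intro θ hθ hβ x
    have h1 := ktar_conv_le hγ0 hγ1 hC (hF θ hθ).1 (hF θ hθ).2.1 b2 hnn x
    rw [b3] at h1
    have h2 := mul_le_mul_of_nonneg_right (hηβ θ hθ hβ) hΛ0.le
    linarith
  refine ⟨0, 0, 1, (Icc (0 : ℝ) 1).indicator fun _ => η * Λ, by linarith, by linarith, ?_,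
    b1, hnn, ?_, b2, le_rfl, by simp, zero_le_one, zero_le_one, ?_, ?_, ?_, ?_⟩
  · rw [b3, one_mul, Real.exp_log hΛ0]
    exact mul_le_of_le_one_left hΛ0.le hη1
  · intro y hy
    refine indicator_of_notMem (fun h => hy ?_) _
    exact ⟨by linarith [h.1], h.2⟩
  · intro θ hθ hβ x
    obtain ⟨f1, f2, f3⟩ := hF θ hθ
    rw [hβ]
    have := ps_z (Λ := Λ) (f3 hβ) hnn (htr θ hθ hβ) x
    linarith
  · intro θ hθ hβ x hx
    have hx0 : 0 ≤ x := by linarith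
    obtain ⟨f1, f2, f3⟩ := hF θ hθ
    unfold env
    have e1 := (abs_le.1 (ktar_tail_le hγ0 f2 (t := x + 0) (by linarith))).2
    have e2 : C / γ * Real.exp (-(γ * (x + 0))) ≤ C / γ := by
      refine mul_le_of_le_one_right (by positivity) (Real.exp_le_one_iff.2 ?_)
      have : 0 ≤ γ * (x + 0) := by positivity
      linarith
    have e3 := mul_le_mul_of_nonneg_left (e1.trans e2) ha
    have e4 := mul_le_mul_of_nonneg_left (ktar_Ioi_le hγ0 hγ1 hC f1 f2 0 x) ha'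
    have e5 := hconv θ hθ hβ x
    have e6 : (|c θ| + a * (C / γ) + a' * (2 * C / γ)) / β θ ≤ D := by
      have := Finset.single_le_sum
        (f := fun θ => (|c θ| + a * (C / γ) + a' * (2 * C / γ)) / |β θ|) (fun θ _ => hterm θ) hθ
      rw [hD]
      simpa only [abs_of_pos hβ] using this
    rw [div_le_iff₀ hβ] at e6
    have e7 : D * β θ ≤ Λ / 2 * β θ := mul_le_mul_of_nonneg_right (by
      have := Real.exp_pos 1
      linarith) hβ.le
    have e8 := neg_abs_le (c θ)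
    have e9 : 0 ≤ β θ * Λ := by positivity
    linarith
  · intro θ hθ hβ x _
    exact hconv θ hθ hβ x
  · rw [ht]
    unfold env
    have e1 : 0 ≤ ∫ s in Ioi ((0 : ℝ) + 0), (k t s + 0) :=
      setIntegral_nonneg measurableSet_Ioi fun s _ => by
        rw [add_zero]
        exact (hpos s).le
    have e2 : 0 ≤ ∫ y in Ioi (0 : ℝ), k t (0 - y) :=
      setIntegral_nonneg measurableSet_Ioi fun s _ => (hpos _).le
    have e3 := mul_nonneg ha e1
    have e4 := mul_nonneg ha' e2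
    have e5 := ps_lower hkt.cont (q := η * Λ) (u := 0) (w := 1) (m := m₀) hq0 zero_le_one
      (fun y hy => by rw [hm₀]; exact hmin hy)
    rw [sub_zero, one_mul] at e5
    have e6 : |v| ≤ η * Λ * m₀ := by
      have h1 : |v| / (η * m₀) ≤ Λ := by
        have := Real.exp_pos 1
        linarith
      rw [div_le_iff₀ (by positivity)] at h1
      linarith
    have e7 := le_abs_self v
    simp only [zero_mul, neg_zero, zero_add]
    simp only [zero_add] at e3 e4 e5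
    linarith

theorem patchG {Θ : Type} {k : Θ → ℝ → ℝ} {β : Θ → ℝ} {F : Finset Θ} (hF : ∀ θ ∈ F, 0 < β θ)
    {t : Θ} (ht : β t = 0) {c : Θ → ℝ} {v ε : ℝ} (hv : v ≤ 0) (hε : 0 < ε) :
    PatchEx k β F c t v ε 0 0 := by
  have hterm : ∀ θ, 0 ≤ |c θ| / |β θ| := fun θ => by positivity
  obtain ⟨D, hD⟩ : ∃ D, D = ∑ θ ∈ F, |c θ| / |β θ| := ⟨_, rfl⟩
  have hD0 : 0 ≤ D := by rw [hD]; exact Finset.sum_nonneg fun θ _ => hterm θ
  refine ⟨0, 1, 1 + D, le_rfl, le_rfl, by linarith, fun Λ hΛ => ?_⟩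
  have hΛ1 : 1 ≤ Λ := by linarith
  have hlog : 0 ≤ Real.log Λ := Real.log_nonneg hΛ1
  have henv : ∀ (k' : ℝ → ℝ) (b x : ℝ), env k' b 0 0 Λ 0 0 (fun _ => 0) x = -(b * Λ) := by
    intro k' b x
    unfold env
    simp
  refine ⟨0, 0, 0, fun _ => 0, by simpa using hlog, by simpa using hlog, ?_, measurable_const,
    fun _ => le_rfl, fun _ _ => rfl, by simp, le_rfl, by simp, le_rfl, le_rfl, ?_, ?_, ?_, ?_⟩
  · simp only [integral_zero]
    exact (Real.exp_pos _).le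
  · intro θ hθ hβ
    exact absurd hβ (hF θ hθ).ne'
  · intro θ hθ hβ x _
    rw [henv]
    have e6 : |c θ| / β θ ≤ D := by
      have := Finset.single_le_sum (f := fun θ => |c θ| / |β θ|) (fun θ _ => hterm θ) hθ
      rw [hD]
      simpa only [abs_of_pos hβ] using this
    rw [div_le_iff₀ hβ] at e6
    have e7 : D * β θ ≤ Λ * β θ := mul_le_mul_of_nonneg_right (by linarith) hβ.le
    have e8 := neg_abs_le (c θ)
    linarith
  · intro θ hθ hβ x _
    simp only [mul_zero, integral_zero]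
    positivity
  · rw [henv, ht]
    simp only [zero_mul, neg_zero]
    linarith

end Pool.Agent.IND2I
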