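import Pool.Agent.IND2I.Defs

/-!
# IND2I, module KT: estimates for the kernels of `KTar`

`0 < γ < 1 ≤ C`, `0 ≤ β`.  All elementary: for `s ≥ 0` `|k s + β| ≤ C e^{-γ s}`, for `s ≤ 0` `|k s| ≤ C e^s ≤ C e^{γ s}`.
`ktar_Ico_eq`: substitution `s = x - y` and additivity of `∫_{Ioi t} (k + β)` (both tails converge).
-/

set_option autoImplicit false

namespace Pool.Agent.IND2I

open MeasureTheory Set

variable {γ C β : ℝ} {k : ℝ → ℝ}

private theorem kt_C0 (hk : KTar γ C β k) : 0 ≤ C := by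
  have h := hk.left 0 le_rfl
  rw [Real.exp_zero, mul_one] at h
  exact (abs_nonneg _).trans h

theorem ktar_le (hγ0 : 0 < γ) (hγ1 : γ < 1) (hC : 1 ≤ C) (hβ : 0 ≤ β) (hk : KTar γ C β k) (s : ℝ) :
    k s ≤ C * Real.exp (-(γ * |s|)) := by
  rcases le_total 0 s with h | h
  · have h1 := (abs_le.1 (hk.right s h)).2
    rw [abs_of_nonneg h]
    linarith
  · have h1 := (abs_le.1 (hk.left s h)).2
    have h2 : Real.exp s ≤ Real.exp (-(γ * |s|)) := by
      rw [abs_of_nonpos h]
      apply Real.exp_le_exp.2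
      nlinarith
    have h3 := mul_le_mul_of_nonneg_left h2 (by linarith : (0 : ℝ) ≤ C)
    linarith

theorem ktar_abs (hγ0 : 0 < γ) (hγ1 : γ < 1) (hC : 1 ≤ C) (hβ : 0 ≤ β) (hk : KTar γ C β k) (s : ℝ) :
    |k s| ≤ β + C := by
  rcases le_total 0 s with h | h
  · have h1 := abs_le.1 (hk.right s h)
    have h2 : Real.exp (-(γ * s)) ≤ 1 := Real.exp_le_one_iff.2 (by nlinarith)
    have h3 := mul_le_mul_of_nonneg_left h2 (by linarith : (0 : ℝ) ≤ C)
    rw [abs_le]
    constructor <;> linarith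
  · have h1 := hk.left s h
    have h2 : Real.exp s ≤ 1 := Real.exp_le_one_iff.2 h
    have h3 := mul_le_mul_of_nonneg_left h2 (by linarith : (0 : ℝ) ≤ C)
    linarith

theorem ktar_beta (hγ0 : 0 < γ) (hC : 1 ≤ C) (hk : KTar γ C β k) : |β| ≤ 2 * C := by
  have h1 := abs_le.1 (hk.right 0 le_rfl)
  have h2 := abs_le.1 (hk.left 0 le_rfl)
  rw [mul_zero, neg_zero, Real.exp_zero, mul_one] at h1
  rw [Real.exp_zero, mul_one] at h2
  rw [abs_le]
  constructor <;> linarith

private theorem kt_int_right (hγ0 : 0 < γ) (hk : KTar γ C β k) {t : ℝ} (ht : 0 ≤ t) :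
    IntegrableOn (fun s => k s + β) (Ioi t) := by
  refine Integrable.mono' ((integrableOn_exp_mul_Ioi (neg_lt_zero.2 hγ0) t).const_mul C)
    (hk.cont.add continuous_const).aestronglyMeasurable ?_
  refine (ae_restrict_iff' measurableSet_Ioi).2 (Filter.Eventually.of_forall fun s hs => ?_)
  rw [Real.norm_eq_abs, neg_mul]
  exact hk.right s (ht.trans (le_of_lt hs))

theorem ktar_tail_int (hγ0 : 0 < γ) (hk : KTar γ C β k) (t : ℝ) :
    IntegrableOn (fun s => k s + β) (Ioi t) := by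
  rcases le_total 0 t with h | h
  · exact kt_int_right hγ0 hk h
  · rw [← Ioc_union_Ioi_eq_Ioi h]
    refine IntegrableOn.union ?_ (kt_int_right hγ0 hk le_rfl)
    exact ((hk.cont.add continuous_const).integrableOn_Icc).mono_set Ioc_subset_Icc_self

theorem ktar_tail_le (hγ0 : 0 < γ) (hk : KTar γ C β k) {t : ℝ} (ht : 0 ≤ t) :
    |∫ s in Ioi t, (k s + β)| ≤ C / γ * Real.exp (-(γ * t)) := by
  have h1 : |∫ s in Ioi t, (k s + β)| ≤ ∫ s in Ioi t, C * Real.exp (-γ * s) := by
    rw [← Real.norm_eq_abs]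
    refine norm_integral_le_of_norm_le
      ((integrableOn_exp_mul_Ioi (neg_lt_zero.2 hγ0) t).const_mul C) ?_
    refine (ae_restrict_iff' measurableSet_Ioi).2 (Filter.Eventually.of_forall fun s hs => ?_)
    rw [Real.norm_eq_abs, neg_mul]
    exact hk.right s (ht.trans (le_of_lt hs))
  refine h1.trans (le_of_eq ?_)
  rw [integral_const_mul, integral_exp_mul_Ioi (neg_lt_zero.2 hγ0), neg_mul]
  field_simp

theorem ktar_tail_bdd (hγ0 : 0 < γ) (hγ1 : γ < 1) (hC : 1 ≤ C) (hβ : 0 ≤ β) (hk : KTar γ C β k)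
    {R t : ℝ} (hR : 0 ≤ R) (ht : -R ≤ t) :
    |∫ s in Ioi t, (k s + β)| ≤ C / γ + (2 * β + C) * R := by
  have hpos : 0 ≤ (2 * β + C) * R := mul_nonneg (by linarith) hR
  rcases le_total 0 t with h | h
  · have h1 := ktar_tail_le hγ0 hk h
    have h2 : C / γ * Real.exp (-(γ * t)) ≤ C / γ * 1 := by
      apply mul_le_mul_of_nonneg_left _ (by positivity)
      exact Real.exp_le_one_iff.2 (by nlinarith)
    linarith
  · have h1 := ktar_tail_le hγ0 hk le_rfl
    rw [mul_zero, neg_zero, Real.exp_zero, mul_one] at h1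
    have h2 : ∫ s in Ioi t, (k s + β) = (∫ s in Ioc t 0, (k s + β)) + ∫ s in Ioi 0, (k s + β) := by
      rw [← setIntegral_union (Ioc_disjoint_Ioi le_rfl) measurableSet_Ioi
        ((ktar_tail_int hγ0 hk t).mono_set Ioc_subset_Ioi_self) (ktar_tail_int hγ0 hk 0),
        Ioc_union_Ioi_eq_Ioi h]
    have h3 : |∫ s in Ioc t 0, (k s + β)| ≤ (2 * β + C) * (0 - t) := by
      rw [← intervalIntegral.integral_of_le h]
      have h4 := intervalIntegral.norm_integral_le_of_norm_le_const (a := t) (b := 0)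
        (f := fun s => k s + β) (C := 2 * β + C) (fun s _ => by
          rw [Real.norm_eq_abs]
          have h5 := abs_add_le (k s) β
          have h6 := ktar_abs hγ0 hγ1 hC hβ hk s
          rw [abs_of_nonneg hβ] at h5
          linarith)
      rw [Real.norm_eq_abs, abs_of_nonneg (by linarith : (0 : ℝ) ≤ 0 - t)] at h4
      exact h4
    rw [h2]
    have h5 := abs_add_le (∫ s in Ioc t 0, (k s + β)) (∫ s in Ioi 0, (k s + β))
    have h6 : (2 * β + C) * (0 - t) ≤ (2 * β + C) * R :=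
      mul_le_mul_of_nonneg_left (by linarith) (by linarith)
    linarith

theorem ktar_Ico_eq (hγ0 : 0 < γ) (hk : KTar γ C β k) {u w : ℝ} (h : u ≤ w) (x : ℝ) :
    ∫ y in Ico u w, k (x - y) =
      -(β * (w - u)) + (∫ s in Ioi (x - w), (k s + β)) - ∫ s in Ioi (x - u), (k s + β) := by
  have h1 : ∫ y in Ico u w, k (x - y) = ∫ s in (x - w)..(x - u), k s := by
    rw [integral_Ico_eq_integral_Ioc, ← intervalIntegral.integral_of_le h,
      intervalIntegral.integral_comp_sub_left]
  have h2 := intervalIntegral.integral_Ioi_sub_Ioi (ktar_tail_int hγ0 hk (x - w))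
    (by linarith : x - w ≤ x - u)
  have h3 : ∫ s in (x - w)..(x - u), (k s + β) =
      (∫ s in (x - w)..(x - u), k s) + β * (w - u) := by
    rw [intervalIntegral.integral_add (hk.cont.intervalIntegrable _ _)
      (continuous_const.intervalIntegrable _ _), intervalIntegral.integral_const, smul_eq_mul]
    ring
  rw [h1]
  linarith

private theorem kt_abs_int (hγ0 : 0 < γ) : Integrable (fun s : ℝ => C * Real.exp (-(γ * |s|))) := by
  refine Integrable.const_mul ?_ C
  rw [← integrableOn_univ, ← Iic_union_Ioi (a := (0 : ℝ))]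
  refine IntegrableOn.union ?_ ?_
  · refine (integrableOn_exp_mul_Iic hγ0 0).congr_fun (fun s hs => ?_) measurableSet_Iic
    beta_reduce
    rw [abs_of_nonpos hs]
    congr 1
    ring
  · refine (integrableOn_exp_mul_Ioi (neg_lt_zero.2 hγ0) 0).congr_fun (fun s hs => ?_)
      measurableSet_Ioi
    beta_reduce
    rw [abs_of_pos hs]
    congr 1
    ring

private theorem kt_abs_val (hγ0 : 0 < γ) : ∫ s : ℝ, C * Real.exp (-(γ * |s|)) = 2 * C / γ := by
  have h0 := kt_abs_int (C := C) hγ0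
  rw [← integral_add_compl (s := Iic (0 : ℝ)) measurableSet_Iic h0, compl_Iic]
  have h1 : ∫ s in Iic (0 : ℝ), C * Real.exp (-(γ * |s|)) = C / γ := by
    have h2 : ∫ s in Iic (0 : ℝ), C * Real.exp (-(γ * |s|)) =
        ∫ s in Iic (0 : ℝ), C * Real.exp (γ * s) := by
      refine setIntegral_congr_fun measurableSet_Iic fun s hs => ?_
      beta_reduce
      rw [abs_of_nonpos hs]
      congr 2
      ring
    rw [h2, integral_const_mul, integral_exp_mul_Iic hγ0, mul_zero, Real.exp_zero]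
    ring
  have h3 : ∫ s in Ioi (0 : ℝ), C * Real.exp (-(γ * |s|)) = C / γ := by
    have h2 : ∫ s in Ioi (0 : ℝ), C * Real.exp (-(γ * |s|)) =
        ∫ s in Ioi (0 : ℝ), C * Real.exp (-γ * s) := by
      refine setIntegral_congr_fun measurableSet_Ioi fun s hs => ?_
      beta_reduce
      rw [abs_of_pos hs]
      congr 2
      ring
    rw [h2, integral_const_mul, integral_exp_mul_Ioi (neg_lt_zero.2 hγ0), mul_zero, Real.exp_zero]
    field_simp
  rw [h1, h3]
  ring

private theorem kt_set_le (hγ0 : 0 < γ) (hγ1 : γ < 1) (hC : 1 ≤ C) (hβ : 0 ≤ β)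
    (hk : KTar γ C β k) (x : ℝ) {A : Set ℝ} (hA : IntegrableOn (fun y => k (x - y)) A) :
    ∫ y in A, k (x - y) ≤ 2 * C / γ := by
  have h1 : Integrable (fun y : ℝ => C * Real.exp (-(γ * |x - y|))) :=
    (kt_abs_int (C := C) hγ0).comp_sub_left x
  have h2 : ∫ y : ℝ, C * Real.exp (-(γ * |x - y|)) = 2 * C / γ := by
    rw [integral_sub_left_eq_self (fun s => C * Real.exp (-(γ * |s|))) volume x]
    exact kt_abs_val hγ0
  rw [← h2]
  calc ∫ y in A, k (x - y) ≤ ∫ y in A, C * Real.exp (-(γ * |x - y|)) :=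
        integral_mono hA h1.integrableOn fun y => ktar_le hγ0 hγ1 hC hβ hk _
    _ ≤ ∫ y, C * Real.exp (-(γ * |x - y|)) :=
        setIntegral_le_integral h1 (Filter.Eventually.of_forall fun y =>
          mul_nonneg (by linarith) (Real.exp_pos _).le)

theorem ktar_Ico_le (hγ0 : 0 < γ) (hγ1 : γ < 1) (hC : 1 ≤ C) (hβ : 0 ≤ β) (hk : KTar γ C β k)
    (u w x : ℝ) : ∫ y in Ico u w, k (x - y) ≤ 2 * C / γ := by
  refine kt_set_le hγ0 hγ1 hC hβ hk x ?_
  have hc : Continuous (fun y => k (x - y)) := hk.cont.comp (continuous_const.sub continuous_id)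
  exact (hc.integrableOn_Icc).mono_set Ico_subset_Icc_self

/-- densities to the right of `x` -/
theorem ktar_right_int (hk : KTar γ C β k) {u x : ℝ} :
    IntegrableOn (fun y => k (x - y)) (Ici u) := by
  have hc : Continuous (fun y => k (x - y)) := hk.cont.comp (continuous_const.sub continuous_id)
  have h1 : IntegrableOn (fun y => k (x - y)) (Ioi (max u x)) := by
    refine Integrable.mono' ((integrableOn_exp_mul_Ioi (neg_lt_zero.2 one_pos)
      (max u x)).const_mul (C * Real.exp x)) hc.aestronglyMeasurable ?_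
    refine (ae_restrict_iff' measurableSet_Ioi).2 (Filter.Eventually.of_forall fun y hy => ?_)
    have hy' : x < y := lt_of_le_of_lt (le_max_right u x) hy
    have h2 := hk.left (x - y) (by linarith)
    rw [Real.norm_eq_abs, mul_assoc, ← Real.exp_add]
    have e : x + -1 * y = x - y := by ring
    rw [e]
    exact h2
  have e : Ici u = Icc u (max u x) ∪ Ioi (max u x) := (Icc_union_Ioi_eq_Ici (le_max_left u x)).symm
  rw [e]
  exact IntegrableOn.union hc.integrableOn_Icc h1

theorem ktar_right_abs (hk : KTar γ C β k) {u x : ℝ} (hx : x ≤ u) {A : Set ℝ}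
    (hA : MeasurableSet A) (hAu : A ⊆ Ici u) :
    |∫ y in A, k (x - y)| ≤ C * Real.exp (x - u) := by
  have hC := kt_C0 hk
  have hint : IntegrableOn (fun y => C * Real.exp x * Real.exp (-1 * y)) (Ici u) := by
    rw [integrableOn_Ici_iff_integrableOn_Ioi]
    exact (integrableOn_exp_mul_Ioi (neg_lt_zero.2 one_pos) u).const_mul (C * Real.exp x)
  have h1 : |∫ y in A, k (x - y)| ≤ ∫ y in A, C * Real.exp x * Real.exp (-1 * y) := by
    rw [← Real.norm_eq_abs]
    refine norm_integral_le_of_norm_le (hint.mono_set hAu) ?_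
    refine (ae_restrict_iff' hA).2 (Filter.Eventually.of_forall fun y hy => ?_)
    have hy' : u ≤ y := hAu hy
    have h2 := hk.left (x - y) (by linarith)
    rw [Real.norm_eq_abs, mul_assoc, ← Real.exp_add]
    have e : x + -1 * y = x - y := by ring
    rw [e]
    exact h2
  refine h1.trans ?_
  have h2 : ∫ y in A, C * Real.exp x * Real.exp (-1 * y) ≤
      ∫ y in Ici u, C * Real.exp x * Real.exp (-1 * y) := by
    refine setIntegral_mono_set hint ?_ (HasSubset.Subset.eventuallyLE hAu)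
    exact Filter.Eventually.of_forall fun y => by positivity
  refine h2.trans (le_of_eq ?_)
  rw [integral_Ici_eq_integral_Ioi, integral_const_mul,
    integral_exp_mul_Ioi (neg_lt_zero.2 one_pos), sub_eq_add_neg x u, Real.exp_add]
  ring_nf

/-- `∫_{Ioi b} k (x - y) dy` is bounded above. -/
theorem ktar_Ioi_le (hγ0 : 0 < γ) (hγ1 : γ < 1) (hC : 1 ≤ C) (hβ : 0 ≤ β) (hk : KTar γ C β k)
    (b x : ℝ) : ∫ y in Ioi b, k (x - y) ≤ 2 * C / γ :=
  kt_set_le hγ0 hγ1 hC hβ hk x ((ktar_right_int hk (u := b)).mono_set Ioi_subset_Ici_self)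

theorem ktar_Ioo_split (hk : KTar γ C β k) {b w : ℝ} (h : b < w) (x : ℝ) :
    ∫ y in Ioo b w, k (x - y) = (∫ y in Ioi b, k (x - y)) - ∫ y in Ici w, k (x - y) := by
  have h1 : Ioi b = Ioo b w ∪ Ici w := (Ioo_union_Ici_eq_Ioi h).symm
  have h2 : IntegrableOn (fun y => k (x - y)) (Ioi b) :=
    (ktar_right_int hk (u := b)).mono_set Ioi_subset_Ici_self
  have h3 : ∫ y in Ioi b, k (x - y) = (∫ y in Ioo b w, k (x - y)) + ∫ y in Ici w, k (x - y) := by
    rw [h1] at h2 ⊢
    refine setIntegral_union ?_ measurableSet_Ici (h2.mono_set subset_union_left)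
      (h2.mono_set subset_union_right)
    rw [Set.disjoint_left]
    intro y hy hy'
    exact absurd hy.2 (not_lt.2 hy')
  linarith

theorem ktar_conv_int (hγ0 : 0 < γ) (hγ1 : γ < 1) (hC : 1 ≤ C) (hβ : 0 ≤ β) (hk : KTar γ C β k)
    {ρ : ℝ → ℝ} (hρ : Integrable ρ) (x : ℝ) : Integrable (fun y => k (x - y) * ρ y) := by
  have hc : Continuous (fun y => k (x - y)) := hk.cont.comp (continuous_const.sub continuous_id)
  exact hρ.bdd_mul hc.aestronglyMeasurable (Filter.Eventually.of_forall fun y => by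
    rw [Real.norm_eq_abs]
    exact ktar_abs hγ0 hγ1 hC hβ hk _)

theorem ktar_conv_le (hγ0 : 0 < γ) (hγ1 : γ < 1) (hC : 1 ≤ C) (hβ : 0 ≤ β) (hk : KTar γ C β k)
    {ρ : ℝ → ℝ} (hρ : Integrable ρ) (hρ0 : ∀ y, 0 ≤ ρ y) (x : ℝ) :
    ∫ y, k (x - y) * ρ y ≤ C * ∫ y, ρ y := by
  rw [← integral_const_mul]
  refine integral_mono (ktar_conv_int hγ0 hγ1 hC hβ hk hρ x) (hρ.const_mul C) fun y => ?_
  refine mul_le_mul_of_nonneg_right ?_ (hρ0 y)
  have h1 := ktar_le hγ0 hγ1 hC hβ hk (x - y)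
  have h2 : Real.exp (-(γ * |x - y|)) ≤ 1 := Real.exp_le_one_iff.2 (by
    have := mul_nonneg hγ0.le (abs_nonneg (x - y))
    linarith)
  have h3 := mul_le_mul_of_nonneg_left h2 (by linarith : (0 : ℝ) ≤ C)
  linarith

end Pool.Agent.IND2I
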