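import Pool.Agent.IND2I.Dual
import Pool.Agent.IND2I.KT
import Pool.Agent.IND2I.PDefs

/-!
# IND2I, module PatchZ: patches for targets with integrable kernels, constant background

PROOF.  STEP 1.  There are `m : ℝ → ℝ` continuous with compact support, `-a ≤ m`, with `a ∫ k θ + ∫ k θ (x - y) m y dy < c θ` for all `θ ∈ Z`
and all `x`, and `v < a ∫ k t + ∫ k t (0 - y) m y dy`.  Otherwise `dual_line` (index type `{θ // θ ∈ Z}`, `φ θ = c θ - a ∫ k θ > 0` by `hfe`,
`w = v - a ∫ k t`; `k θ → 0` at infinity by `KTar` with `β = 0`) gives finite `n θ` with `g = ∑ ∫ k θ (x - y) dn θ - k t (-y) ≥ 0` and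
`∑ φ θ n θ(ℝ) + ∫ a g ≤ w`.  By Fubini (`k θ` integrable, `n θ` finite) `∫ g = ∑ (∫ k θ) n θ(ℝ) - ∫ k t`, so `∑ c θ n θ(ℝ) ≤ v`,
which contradicts `hM` (extend `n` by `0`).
STEP 2.  Let `supp m ⊆ [-T, T]`, `T ≥ 1`, and let `R ≥ 2T` be large: `|a' - a| C e^{-R/2} ≤ ε`, `C e^{-γ (R/2 - T)} ∫|m| ≤ ε`.  Take `M = B₀ = B = R`,
`ρ = (a + m) 1_{(-R, R)} ≥ 0`, `L₁ = 0`, and `A, Λ₀` large (`R ≤ A log Λ`, `∫ ρ ≤ e^{A log Λ}` for `Λ ≥ Λ₀ ≥ e`).
`z`-rays: `a ∫_{Ioi (x + R)} k = a ∫_{y < -R} k (x - y) dy`, so `env = a ∫_{y < R} k (x - y) dy + ∫ k (x - y) m + a' ∫_{y > R} k (x - y) dy`.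
`x ≤ R/2`: this is `a ∫ k + ∫ k (x - y) m + (a' - a) ∫_{y > R} k (x - y) dy ≤ c θ + |a' - a| C e^{-R/2} ≤ c θ + ε`.
`x ≥ R/2`: `|∫ k (x - y) m| ≤ C e^{-γ (x - T)} ∫|m| ≤ ε` and the rest is `a ∫_{Ioi (x - R)} k + a' ∫_{Iio (x - R)} k ≤ c θ` (`htr`).
`b`-rays: for `x ≥ -R`, `env ≤ -β Λ + a C/γ + C ∫ ρ + a' 2C/γ ≤ c θ` for large `Λ`; `∫ k (x - y) ρ ≤ C ∫ ρ ≤ β Λ/4` for large `Λ`.
Target: `env (k t) 0 .. 0 = a ∫ k t + ∫ k t (0 - y) m + (a' - a) ∫_{y > R} k t (0 - y) ≥ v - ε`.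
-/

set_option autoImplicit false

namespace Pool.Agent.IND2I

open MeasureTheory Set

private lemma pz_abs {k : ℝ → ℝ} {γ C : ℝ} (hγ1 : γ < 1) (hC : 1 ≤ C) (hk : KTar γ C 0 k)
    (s : ℝ) : |k s| ≤ C * Real.exp (-(γ * |s|)) := by
  rcases le_total 0 s with h | h
  · have := hk.right s h
    rw [add_zero] at this
    rwa [abs_of_nonneg h]
  · refine (hk.left s h).trans ?_
    rw [abs_of_nonpos h]
    refine mul_le_mul_of_nonneg_left (Real.exp_le_exp.2 ?_) (by linarith)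
    nlinarith

private lemma pz_int {k : ℝ → ℝ} {γ C : ℝ} (hγ0 : 0 < γ) (hk : KTar γ C 0 k) :
    Integrable k := by
  have h1 : IntegrableOn k (Ioi 0) := by
    have := ktar_tail_int hγ0 hk 0
    simpa using this
  have h2 : IntegrableOn k (Iic 0) := by
    have h3 : IntegrableOn (fun s : ℝ => Real.exp s) (Iic 0) := integrableOn_exp_Iic 0
    refine Integrable.mono' (h3.const_mul C) hk.cont.aestronglyMeasurable ?_
    refine (ae_restrict_iff' measurableSet_Iic).2 (Filter.Eventually.of_forall fun s hs => ?_)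
    rw [Real.norm_eq_abs]
    exact hk.left s hs
  rw [← integrableOn_univ, ← Iic_union_Ioi (a := (0 : ℝ))]
  exact h2.union h1

private lemma pz_sub {k : ℝ → ℝ} (hk : Integrable k) (x : ℝ) :
    Integrable fun y => k (x - y) := hk.comp_sub_left x

private lemma pz_Ioi (k : ℝ → ℝ) (x R : ℝ) :
    ∫ y in Ioi R, k (x - y) = ∫ s in Iio (x - R), k s := by
  rw [← integral_indicator measurableSet_Ioi, ← integral_indicator measurableSet_Iio,
    ← integral_sub_left_eq_self ((Iio (x - R)).indicator k) volume x]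
  refine integral_congr_ae (Filter.Eventually.of_forall fun y => ?_)
  by_cases hy : R < y
  · simp only [indicator, mem_Ioi, mem_Iio]
    rw [if_pos hy, if_pos (by linarith)]
  · simp only [indicator, mem_Ioi, mem_Iio]
    rw [if_neg hy, if_neg (by linarith)]

private lemma pz_Iio (k : ℝ → ℝ) (x R : ℝ) :
    ∫ y in Iio R, k (x - y) = ∫ s in Ioi (x - R), k s := by
  rw [← integral_indicator measurableSet_Ioi, ← integral_indicator measurableSet_Iio,
    ← integral_sub_left_eq_self ((Ioi (x - R)).indicator k) volume x]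
  refine integral_congr_ae (Filter.Eventually.of_forall fun y => ?_)
  by_cases hy : y < R
  · simp only [indicator, mem_Ioi, mem_Iio]
    rw [if_pos hy, if_pos (by linarith)]
  · simp only [indicator, mem_Ioi, mem_Iio]
    rw [if_neg hy, if_neg (by linarith)]

private lemma pz_tail {k : ℝ → ℝ} {γ C : ℝ} (hk : KTar γ C 0 k) {u : ℝ} (hu : u ≤ 0) :
    |∫ s in Iio u, k s| ≤ C * Real.exp u := by
  have h := ktar_right_abs hk (u := -u) (x := 0) (by linarith) measurableSet_Ioi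
    (A := Ioi (-u)) Ioi_subset_Ici_self
  rw [pz_Ioi] at h
  simpa using h

/-- Fubini -/
private lemma pz_fub {k : ℝ → ℝ} (hkc : Continuous k) (hk : Integrable k) (n : Measure ℝ)
    [IsFiniteMeasure n] :
    Integrable (fun y => ∫ x, k (x - y) ∂n) ∧
      ∫ y, ∫ x, k (x - y) ∂n = (∫ s, k s) * n.real univ := by
  have hI : Integrable (Function.uncurry fun y x => k (x - y)) (volume.prod n) := by
    rw [integrable_prod_iff' (by
      refine Continuous.aestronglyMeasurable ?_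
      exact hkc.comp (continuous_snd.sub continuous_fst))]
    refine ⟨Filter.Eventually.of_forall fun x => pz_sub hk x, ?_⟩
    have : (fun x : ℝ => ∫ y, ‖Function.uncurry (fun y x => k (x - y)) (y, x)‖) =
        fun _ => ∫ s, ‖k s‖ := by
      funext x
      exact integral_sub_left_eq_self (fun s => ‖k s‖) volume x
    rw [this]
    exact integrable_const _
  refine ⟨hI.integral_prod_left, ?_⟩
  rw [integral_integral_swap hI]
  have : (fun x : ℝ => ∫ y, k (x - y)) = fun _ => ∫ s, k s := by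
    funext x
    exact integral_sub_left_eq_self k volume x
  rw [this, integral_const, smul_eq_mul, mul_comm]

/-- the potential of a constant background with a compactly supported modification -/
private lemma pz_env {k m : ℝ → ℝ} {a a' Λ R T x : ℝ} (hkc : Continuous k)
    (hk : Integrable k) (hm : Continuous m) (hT : ∀ y, T < |y| → m y = 0) (hTR : T < R)
    (hR : 0 ≤ R) :
    env k 0 a a' Λ R R ((Ico (-R) R).indicator fun y => a + m y) x =
      a * (∫ s in Ioi (x - R), k s) + a' * (∫ s in Iio (x - R), k s) +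
        ∫ y, k (x - y) * m y := by
  unfold env
  rw [pz_Ioi]
  simp only [zero_mul, neg_zero, zero_add, add_zero]
  have hk' := pz_sub hk x
  have hcs : HasCompactSupport m := by
    refine HasCompactSupport.intro (isCompact_Icc (a := -T) (b := T)) fun y hy => hT y ?_
    rw [lt_abs]
    by_contra h
    push Not at h
    exact hy ⟨by linarith [h.2], h.1⟩
  have hkm : Integrable fun y => k (x - y) * m y :=
    Continuous.integrable_of_hasCompactSupport (by fun_prop) hcs.mul_left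
  have e1 : (fun y => k (x - y) * (Ico (-R) R).indicator (fun y => a + m y) y) =
      fun y => (Ico (-R) R).indicator (fun y => a * k (x - y)) y + k (x - y) * m y := by
    funext y
    by_cases hy : y ∈ Ico (-R) R
    · rw [indicator_of_mem hy, indicator_of_mem hy]
      ring
    · have : m y = 0 := by
        refine hT y ?_
        rw [lt_abs]
        by_contra h
        push Not at h
        exact hy ⟨by linarith [h.2], by linarith [h.1]⟩
      rw [indicator_of_notMem hy, indicator_of_notMem hy, this]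
      ring
  rw [e1, integral_add ((hk'.const_mul a).indicator measurableSet_Ico) hkm,
    integral_indicator measurableSet_Ico, integral_const_mul]
  have e2 : (∫ y in Iio R, k (x - y)) = (∫ y in Iio (-R), k (x - y)) +
      ∫ y in Ico (-R) R, k (x - y) := by
    rw [← Iio_union_Ico_eq_Iio (show -R ≤ R by linarith)]
    exact setIntegral_union (by
      rw [Set.disjoint_left]
      intro y hy hy2
      exact absurd hy2.1 (not_le.2 hy)) measurableSet_Ico hk'.integrableOn hk'.integrableOn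
  have e3 : (∫ s in Ioi (x + R), k s) = ∫ y in Iio (-R), k (x - y) := by
    rw [pz_Iio, sub_neg_eq_add]
  rw [e3]
  rw [pz_Iio] at e2
  rw [e2]
  ring

private lemma pz_tend {k : ℝ → ℝ} {γ C : ℝ} (hγ0 : 0 < γ) (hγ1 : γ < 1) (hC : 1 ≤ C)
    (hk : KTar γ C 0 k) : Filter.Tendsto k (Filter.cocompact ℝ) (nhds 0) := by
  have h1 : Filter.Tendsto (fun s : ℝ => C * Real.exp (-(γ * |s|))) (Filter.cocompact ℝ)
      (nhds (C * 0)) := by
    refine Filter.Tendsto.const_mul C (Real.tendsto_exp_atBot.comp ?_)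
    refine Filter.tendsto_neg_atTop_atBot.comp ?_
    refine Filter.Tendsto.const_mul_atTop hγ0 ?_
    exact tendsto_norm_cocompact_atTop (E := ℝ)
  rw [mul_zero] at h1
  exact squeeze_zero_norm (fun s => by rw [Real.norm_eq_abs]; exact pz_abs hγ1 hC hk s) h1

/-- Step 1: the optimal modification -/
private lemma pz_step1 {Θ : Type} {k : Θ → ℝ → ℝ} {γ C : ℝ} (hγ0 : 0 < γ) (hγ1 : γ < 1)
    (hC : 1 ≤ C) {Z : Finset Θ} (hF : ∀ θ ∈ Z, KTar γ C 0 (k θ)) {t : Θ}
    (hkt : KTar γ C 0 (k t)) {c : Θ → ℝ} {v a : ℝ} (ha : 0 ≤ a)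
    (hfe : ∀ θ ∈ Z, a * ∫ s, k θ s < c θ)
    (hM : ∀ n : Θ → Measure ℝ, (∀ θ ∈ Z, IsFiniteMeasure (n θ)) →
      (∀ y, k t (-y) ≤ ∑ θ ∈ Z, ∫ x, k θ (x - y) ∂(n θ)) →
      v < ∑ θ ∈ Z, c θ * (n θ).real univ) :
    ∃ m : ℝ → ℝ, Continuous m ∧ HasCompactSupport m ∧ (∀ y, -a ≤ m y) ∧
      (∀ θ ∈ Z, ∀ x, ∫ y, k θ (x - y) * m y < c θ - a * ∫ s, k θ s) ∧
      v - a * (∫ s, k t s) < ∫ y, k t (0 - y) * m y := by
  classical
  by_contra hcon
  push Not at hcon
  obtain ⟨n, hn1, hn2, hn3, hn4⟩ := dual_line (F := {θ // θ ∈ Z}) (fun θ => k θ.1)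
    (fun θ => (hF θ.1 θ.2).cont) (fun θ => pz_tend hγ0 hγ1 hC (hF θ.1 θ.2)) (k t) hkt.cont
    ⟨C, fun s => (pz_abs hγ1 hC hkt s).trans (by
      refine mul_le_of_le_one_right (by linarith) (Real.exp_le_one_iff.2 ?_)
      have := abs_nonneg s
      nlinarith)⟩ ha (fun θ => c θ.1 - a * ∫ s, k θ.1 s)
    (fun θ => by linarith [hfe θ.1 θ.2]) (v - a * ∫ s, k t s)
    (fun m h1 h2 h3 h4 => hcon m h1 h2 h3 fun θ hθ x => h4 ⟨θ, hθ⟩ x)
  -- the family on `Θ`
  obtain ⟨N, hN⟩ : ∃ N : Θ → Measure ℝ, N = fun θ => if h : θ ∈ Z then n ⟨θ, h⟩ else 0 :=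
    ⟨_, rfl⟩
  have hNn : ∀ θ : {θ // θ ∈ Z}, N θ.1 = n θ := by
    intro θ
    rw [hN]
    simp
  have hsum : ∀ f : Θ → Measure ℝ → ℝ, ∑ θ ∈ Z, f θ (N θ) = ∑ θ : {θ // θ ∈ Z}, f θ.1 (n θ) := by
    intro f
    rw [← Finset.sum_coe_sort Z]
    exact Finset.sum_congr rfl fun θ _ => by rw [hNn]
  have h1 := hM N (fun θ hθ => by
    rw [hNn ⟨θ, hθ⟩]
    exact hn1 _) (fun y => by
    rw [hsum (fun θ μ => ∫ x, k θ (x - y) ∂μ)]
    exact hn2 y)
  rw [hsum (fun θ μ => c θ * μ.real univ)] at h1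
  -- Fubini
  have hkt' : Integrable fun y => k t (-y) := by
    have := pz_sub (pz_int hγ0 hkt) 0
    simpa using this
  have hf : ∀ θ : {θ // θ ∈ Z}, Integrable (fun y => ∫ x, k θ.1 (x - y) ∂(n θ)) ∧
      ∫ y, ∫ x, k θ.1 (x - y) ∂(n θ) = (∫ s, k θ.1 s) * (n θ).real univ := by
    intro θ
    have := hn1 θ
    exact pz_fub (hF θ.1 θ.2).cont (pz_int hγ0 (hF θ.1 θ.2)) (n θ)
  have h2 : ∫ y, a * (∑ θ : {θ // θ ∈ Z}, ∫ x, k θ.1 (x - y) ∂(n θ) - k t (-y)) =
      a * (∑ θ : {θ // θ ∈ Z}, (∫ s, k θ.1 s) * (n θ).real univ - ∫ s, k t s) := by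
    rw [integral_const_mul, integral_sub (integrable_finsetSum _ fun θ _ => (hf θ).1) hkt',
      integral_finsetSum _ fun θ _ => (hf θ).1]
    congr 2
    · exact Finset.sum_congr rfl fun θ _ => (hf θ).2
    · exact integral_neg_eq_self (k t) volume
  rw [h2] at hn4
  have h3 : ∑ θ : {θ // θ ∈ Z}, (c θ.1 - a * ∫ s, k θ.1 s) * (n θ).real univ =
      (∑ θ : {θ // θ ∈ Z}, c θ.1 * (n θ).real univ) -
        a * ∑ θ : {θ // θ ∈ Z}, (∫ s, k θ.1 s) * (n θ).real univ := by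
    rw [Finset.mul_sum, ← Finset.sum_sub_distrib]
    exact Finset.sum_congr rfl fun θ _ => by ring
  rw [h3] at hn4
  linarith

theorem patchZ {Θ : Type} {k : Θ → ℝ → ℝ} {β : Θ → ℝ} {γ C : ℝ} (hγ0 : 0 < γ) (hγ1 : γ < 1)
    (hC : 1 ≤ C) {F Z : Finset Θ} (hF : ∀ θ ∈ F, 0 ≤ β θ ∧ KTar γ C (β θ) (k θ))
    (hZ : ∀ θ, θ ∈ Z ↔ θ ∈ F ∧ β θ = 0) {t : Θ} (ht : β t = 0) (hkt : KTar γ C 0 (k t))
    {c : Θ → ℝ} {v ε a a' : ℝ} (hε : 0 < ε) (ha : 0 ≤ a) (ha' : 0 ≤ a')
    (hfe : ∀ θ ∈ Z, a * ∫ s, k θ s < c θ)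
    (htr : ∀ θ ∈ Z, ∀ u : ℝ, a * (∫ s in Ioi u, k θ s) + a' * (∫ s in Iio u, k θ s) ≤ c θ)
    (hM : ∀ n : Θ → Measure ℝ, (∀ θ ∈ Z, IsFiniteMeasure (n θ)) →
      (∀ y, k t (-y) ≤ ∑ θ ∈ Z, ∫ x, k θ (x - y) ∂(n θ)) →
      v < ∑ θ ∈ Z, c θ * (n θ).real univ) :
    PatchEx k β F c t v ε a a' := by
  have hKZ : ∀ θ ∈ Z, KTar γ C 0 (k θ) := by
    intro θ hθ
    obtain ⟨h1, h2⟩ := (hZ θ).1 hθ
    have := (hF θ h1).2
    rwa [h2] at this
  obtain ⟨m, hmc, hms, hma, hmZ, hmt⟩ := pz_step1 hγ0 hγ1 hC hKZ hkt ha hfe hM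
  -- the support
  obtain ⟨T, hT1, hT⟩ : ∃ T : ℝ, 1 ≤ T ∧ ∀ y, T < |y| → m y = 0 := by
    obtain ⟨r, hr⟩ := hms.isCompact.isBounded.subset_closedBall (0 : ℝ)
    refine ⟨max 1 r, le_max_left _ _, fun y hy => ?_⟩
    by_contra h
    have h1 : y ∈ tsupport m := subset_tsupport m h
    have h2 := hr h1
    rw [Metric.mem_closedBall, dist_zero_right, Real.norm_eq_abs] at h2
    have := (le_max_right 1 r).trans_lt hy
    linarith
  have hmi : Integrable m := hmc.integrable_of_hasCompactSupport hms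
  obtain ⟨N, hN⟩ : ∃ N, N = ∫ y, |m y| := ⟨_, rfl⟩
  have hN0 : 0 ≤ N := by rw [hN]; exact integral_nonneg fun y => abs_nonneg _
  have hkm : ∀ (k' : ℝ → ℝ), Continuous k' → ∀ x, Integrable fun y => k' (x - y) * m y :=
    fun k' hk' x => Continuous.integrable_of_hasCompactSupport (by fun_prop) hms.mul_left
  -- the choice of `R`
  obtain ⟨R, hR2T, hR1, hR2⟩ : ∃ R : ℝ, 2 * T ≤ R ∧ |a' - a| * C * Real.exp (-(R / 2)) ≤ ε ∧
      C * Real.exp (-(γ * (R / 2 - T))) * N ≤ ε := by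
    have h1 : Filter.Tendsto (fun R : ℝ => |a' - a| * C * Real.exp (-(R / 2))) Filter.atTop
        (nhds (|a' - a| * C * 0)) := by
      refine Filter.Tendsto.const_mul _ (Real.tendsto_exp_atBot.comp ?_)
      refine Filter.tendsto_neg_atTop_atBot.comp ?_
      exact Filter.tendsto_id.atTop_div_const (by norm_num)
    have h2 : Filter.Tendsto (fun R : ℝ => C * Real.exp (-(γ * (R / 2 - T))) * N) Filter.atTop
        (nhds (C * 0 * N)) := by
      refine Filter.Tendsto.mul_const _ (Filter.Tendsto.const_mul _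
        (Real.tendsto_exp_atBot.comp ?_))
      refine Filter.tendsto_neg_atTop_atBot.comp ?_
      refine Filter.Tendsto.const_mul_atTop hγ0 ?_
      exact Filter.tendsto_atTop_add_const_right _ _
        (Filter.tendsto_id.atTop_div_const (by norm_num))
    rw [mul_zero] at h1
    rw [mul_zero, zero_mul] at h2
    have h3 := (h1.eventually (gt_mem_nhds hε)).and ((h2.eventually (gt_mem_nhds hε)).and
      (Filter.eventually_ge_atTop (2 * T)))
    obtain ⟨R, hR⟩ := h3.exists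
    exact ⟨R, hR.2.2, hR.1.le, hR.2.1.le⟩
  have hTR : T < R := by linarith
  have hR0 : 0 ≤ R := by linarith
  obtain ⟨ρ, hρ⟩ : ∃ ρ : ℝ → ℝ, ρ = (Ico (-R) R).indicator fun y => a + m y := ⟨_, rfl⟩
  have hρ0 : ∀ y, 0 ≤ ρ y := by
    intro y
    rw [hρ]
    exact indicator_nonneg (fun z _ => by linarith [hma z]) y
  have hρm : Measurable ρ := by
    rw [hρ]
    exact (measurable_const.add hmc.measurable).indicator measurableSet_Ico
  have hρi : Integrable ρ := by
    rw [hρ, integrable_indicator_iff measurableSet_Ico]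
    exact (by fun_prop : Continuous fun y => a + m y).integrableOn_Icc.mono_set Ico_subset_Icc_self
  obtain ⟨Nρ, hNρ⟩ : ∃ Nρ, Nρ = ∫ y, ρ y := ⟨_, rfl⟩
  have hNρ0 : 0 ≤ Nρ := by rw [hNρ]; exact integral_nonneg hρ0
  have hC0 : 0 < C := by linarith
  -- the main estimate for kernels with `β = 0`
  have hmain : ∀ k' : ℝ → ℝ, KTar γ C 0 k' → ∀ Λ x, x ≤ R / 2 →
      |env k' 0 a a' Λ R R ρ x - (a * (∫ s, k' s) + ∫ y, k' (x - y) * m y)| ≤ ε := by
    intro k' hk' Λ x hx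
    rw [hρ, pz_env hk'.cont (pz_int hγ0 hk') hmc hT hTR hR0]
    have e1 : (∫ s, k' s) = (∫ s in Ioi (x - R), k' s) + ∫ s in Iio (x - R), k' s := by
      have e2 := integral_add_compl (measurableSet_Ioi (a := x - R)) (pz_int hγ0 hk')
      rw [compl_Ioi, integral_Iic_eq_integral_Iio] at e2
      exact e2.symm
    rw [e1]
    have e3 := pz_tail hk' (u := x - R) (by linarith)
    have e4 : Real.exp (x - R) ≤ Real.exp (-(R / 2)) := Real.exp_le_exp.2 (by linarith)
    have e5 : a * (∫ s in Ioi (x - R), k' s) + a' * (∫ s in Iio (x - R), k' s) +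
        (∫ y, k' (x - y) * m y) -
        (a * ((∫ s in Ioi (x - R), k' s) + ∫ s in Iio (x - R), k' s) +
          ∫ y, k' (x - y) * m y) = (a' - a) * ∫ s in Iio (x - R), k' s := by ring
    rw [e5, abs_mul]
    calc |a' - a| * |∫ s in Iio (x - R), k' s| ≤ |a' - a| * (C * Real.exp (-(R / 2))) := by
          refine mul_le_mul_of_nonneg_left ?_ (abs_nonneg _)
          exact e3.trans (mul_le_mul_of_nonneg_left e4 hC0.le)
      _ = |a' - a| * C * Real.exp (-(R / 2)) := by ring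
      _ ≤ ε := hR1
  obtain ⟨D, hD⟩ : ∃ D, D = ∑ θ ∈ F,
    (|c θ| + a * (C / γ) + C * Nρ + a' * (2 * C / γ) + 4 * (C * Nρ)) / |β θ| := ⟨_, rfl⟩
  have hterm : ∀ θ, 0 ≤ (|c θ| + a * (C / γ) + C * Nρ + a' * (2 * C / γ) + 4 * (C * Nρ)) /
      |β θ| := fun θ => by positivity
  have hD0 : 0 ≤ D := by rw [hD]; exact Finset.sum_nonneg fun θ _ => hterm θ
  have hDle : ∀ θ ∈ F, 0 < β θ →
      |c θ| + a * (C / γ) + C * Nρ + a' * (2 * C / γ) + 4 * (C * Nρ) ≤ D * β θ := by
    intro θ hθ hβ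
    have := Finset.single_le_sum (f := fun θ =>
      (|c θ| + a * (C / γ) + C * Nρ + a' * (2 * C / γ) + 4 * (C * Nρ)) / |β θ|)
      (fun θ _ => hterm θ) hθ
    rw [← hD] at this
    simp only [abs_of_pos hβ] at this
    rwa [div_le_iff₀ hβ] at this
  refine ⟨0, 1, Real.exp R + D + Nρ, le_rfl, le_rfl, ?_, fun Λ hΛ => ?_⟩
  · have := Real.one_le_exp hR0
    linarith
  have hexp : 1 ≤ Real.exp R := Real.one_le_exp hR0
  have hΛ1 : 1 ≤ Λ := by linarith
  have hΛ0 : 0 < Λ := by linarith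
  have hlog : R ≤ Real.log Λ := by
    rw [Real.le_log_iff_exp_le hΛ0]
    linarith
  refine ⟨R, R, R, ρ, by linarith, by linarith, ?_, hρm, hρ0, ?_, hρi, hR0, by linarith,
    le_rfl, hR0, ?_, ?_, ?_, ?_⟩
  · rw [one_mul, Real.exp_log hΛ0, ← hNρ]
    linarith
  · intro y hy
    rw [hρ]
    exact indicator_of_notMem (fun h => hy ⟨h.1, h.2.le⟩) _
  · intro θ hθ hβ x
    have hθZ : θ ∈ Z := (hZ θ).2 ⟨hθ, hβ⟩
    have hk' := hKZ θ hθZ
    rw [hβ]
    rcases le_total x (R / 2) with h | h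
    · have h1 := (abs_le.1 (hmain (k θ) hk' Λ x h)).2
      have h2 := hmZ θ hθZ x
      linarith
    · rw [hρ, pz_env hk'.cont (pz_int hγ0 hk') hmc hT hTR hR0]
      have h1 := htr θ hθZ (x - R)
      have h2 : ∫ y, k θ (x - y) * m y ≤ ε := by
        refine le_trans ?_ hR2
        rw [hN, ← integral_const_mul]
        refine integral_mono (hkm _ hk'.cont x) (hmi.abs.const_mul _) fun y => ?_
        rcases le_or_gt |y| T with hy | hy
        · have h3 := pz_abs hγ1 hC hk' (x - y)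
          have h4 := (abs_le.1 hy).2
          have h5 : 0 ≤ x - y := by linarith
          rw [abs_of_nonneg h5] at h3
          have h6 : Real.exp (-(γ * (x - y))) ≤ Real.exp (-(γ * (R / 2 - T))) := by
            refine Real.exp_le_exp.2 ?_
            have : γ * (R / 2 - T) ≤ γ * (x - y) :=
              mul_le_mul_of_nonneg_left (by linarith) hγ0.le
            linarith
          calc k θ (x - y) * m y ≤ |k θ (x - y)| * |m y| := by
                rw [← abs_mul]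
                exact le_abs_self _
            _ ≤ C * Real.exp (-(γ * (R / 2 - T))) * |m y| := by
                refine mul_le_mul_of_nonneg_right ?_ (abs_nonneg _)
                exact h3.trans (mul_le_mul_of_nonneg_left h6 hC0.le)
        · rw [hT y hy]
          simp
      linarith
  · intro θ hθ hβ x hx
    obtain ⟨f1, f2⟩ := hF θ hθ
    have hx0 : 0 ≤ x + R := by linarith
    unfold env
    have e1 := (abs_le.1 (ktar_tail_le hγ0 f2 hx0)).2
    have e2 : C / γ * Real.exp (-(γ * (x + R))) ≤ C / γ := by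
      refine mul_le_of_le_one_right (by positivity) (Real.exp_le_one_iff.2 ?_)
      have : 0 ≤ γ * (x + R) := by positivity
      linarith
    have e3 := mul_le_mul_of_nonneg_left (e1.trans e2) ha
    have e4 := mul_le_mul_of_nonneg_left (ktar_Ioi_le hγ0 hγ1 hC f1 f2 R x) ha'
    have e5 := ktar_conv_le hγ0 hγ1 hC f1 f2 hρi hρ0 x
    rw [← hNρ] at e5
    have e6 := hDle θ hθ hβ
    have e7 : D * β θ ≤ Λ * β θ := mul_le_mul_of_nonneg_right (by linarith) hβ.le
    have e8 := neg_abs_le (c θ)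
    have e9 : 0 ≤ C * Nρ := by positivity
    linarith
  · intro θ hθ hβ x _
    obtain ⟨f1, f2⟩ := hF θ hθ
    have e5 := ktar_conv_le hγ0 hγ1 hC f1 f2 hρi hρ0 x
    rw [← hNρ] at e5
    have e6 := hDle θ hθ hβ
    have e7 : D * β θ ≤ Λ * β θ := mul_le_mul_of_nonneg_right (by linarith) hβ.le
    have e8 := abs_nonneg (c θ)
    have e9 : 0 ≤ a * (C / γ) := by positivity
    have e10 : 0 ≤ a' * (2 * C / γ) := by positivity
    have e11 : 0 ≤ C * Nρ := by positivity
    linarith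
  · rw [ht]
    have h1 := (abs_le.1 (hmain (k t) hkt Λ 0 (by linarith))).1
    linarith

end Pool.Agent.IND2I
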