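import Pool.Agent.IND2I.CertMV
import Pool.Agent.IND2I.PatchB
import Pool.Agent.IND2I.PatchZ
import Pool.Agent.IND2I.PatchS
import Pool.Agent.IND2I.MomL
import Pool.Agent.IND2I.KI
import Pool.Agent.IND2I.Arc

/-!
# IND2I, module PatchN: the patches needed when no right end point is in `S`

`unif` applied to `insert t F` gives uniform constants `C, c₀, L` (all angles are `< π` because `bb π = 1 > 0`).  `bt θ = -bb θ/p`, so `0 < bt`
iff `bb < 0`, `bt = 0` iff `bb = 0`; `LE_facts`, `RE_facts`, `bb_zero`.  For `θ ∈ F`: either `bb < 0 < aa` (`KSup`, `KTar`) or `LE` (`KLef`, `KTar`, `bt = 0`,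
`kk < 0`).
PROOF of `patch_N`.  Case `bb t < 0` (so `0 < bt t`).  If some `θ ∈ F` has `bb θ < 0`: `patchB`; `hal` from `hal`, `hal'`: `a' ∫_{Iio 0} kk ≤ a ∫_{Iio 0} kk < c`
(`kk ≤ 0`, `a ≤ a'`); `hM`, `hV` from `cert_MV`.  Otherwise all `θ ∈ F` are `LE`: `patchQ`, `hpos` from `KSup.low` for `t`; `htr`: the left side is
`≤ a ∫ kk ≤ a ∫_{Ioi 0} kk < c` (`kk ≤ 0`, `a ≤ a'`; the integrals of the nonpositive integrable function).
Case `bb t = 0`, `aa t > 0`: `patchR` (`pattern_pos` gives `hpos`), `htr` as before.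
PROOF of `patch_L`.  `patchZ` with `Z = F.filter (bt θ = 0)` (classical), `a = a'`, `hfe` given, `htr`: `a (∫_{Ioi u} + ∫_{Iio u}) = a ∫ kk < c`.
`hM`: a certificate on `Z` has exponential moments by `mom_l` (`KLef`; `|kk t s| ≤ C e^{-|s|/2}` from `KTar` with `β = 0`), so it is an `FCert` on `Z`;
`cert_MV` for `Z`.
-/

set_option autoImplicit false

namespace Pool.Agent.IND2I

open MeasureTheory Set Helper25.Ind

private lemma pn_lt {p : ℕ} {θ : ℝ} (hθ : θ ∈ Icc (0 : ℝ) Real.pi) (h : bb p θ ≤ 0) :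
    0 ≤ θ ∧ θ < Real.pi := by
  refine ⟨hθ.1, lt_of_le_of_ne hθ.2 fun h1 => ?_⟩
  have h2 : bb p Real.pi = 1 := bb_pi
  rw [h1, h2] at h
  linarith

private lemma pn_pos {p : ℕ} (hp : 1 ≤ p) {θ : ℝ} (h : bb p θ < 0) : 0 < bt p θ := by
  have h1 : (0 : ℝ) < p := by exact_mod_cast hp
  unfold bt
  exact div_pos (by linarith) h1

private lemma pn_zero {p : ℕ} {θ : ℝ} (h : bb p θ = 0) : bt p θ = 0 := by
  unfold bt
  rw [h]
  simp

private lemma pn_int {γ C : ℝ} {k : ℝ → ℝ} (hγ0 : 0 < γ) (hk : KTar γ C 0 k) : Integrable k := by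
  rw [← integrableOn_univ, ← Iic_union_Ioi (a := (0 : ℝ))]
  refine IntegrableOn.union ?_ ?_
  · refine Integrable.mono' ((integrableOn_exp_Iic 0).const_mul C) hk.cont.aestronglyMeasurable ?_
    refine (ae_restrict_iff' measurableSet_Iic).2 (Filter.Eventually.of_forall fun s hs => ?_)
    rw [Real.norm_eq_abs]
    exact hk.left s hs
  · refine (ktar_tail_int hγ0 hk 0).congr_fun (fun s _ => ?_) measurableSet_Ioi
    simp

private lemma pn_mono {k : ℝ → ℝ} (hk : Integrable k) (hn : ∀ s, k s ≤ 0) {s t : Set ℝ}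
    (ht : MeasurableSet t) (h : s ⊆ t) : ∫ x in t, k x ≤ ∫ x in s, k x := by
  have h1 : ∫ x in s, -k x ≤ ∫ x in t, -k x :=
    setIntegral_mono_set hk.neg.integrableOn
      (Filter.Eventually.of_forall fun x => by
        show (0 : ℝ) ≤ -k x
        linarith [hn x]) h.eventuallyLE
  rw [integral_neg, integral_neg] at h1
  linarith

private lemma pn_nonpos {k : ℝ → ℝ} (hn : ∀ s, k s ≤ 0) (s : Set ℝ) : ∫ x in s, k x ≤ 0 :=
  integral_nonpos fun x => hn x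

private lemma pn_tr {k : ℝ → ℝ} (hk : Integrable k) (hn : ∀ s, k s ≤ 0) {a a' c : ℝ} (ha : 0 ≤ a)
    (haa : a ≤ a') (h1 : a * (∫ s in Ioi (0 : ℝ), k s) < c)
    (h2 : a * (∫ s in Iio (0 : ℝ), k s) < c) (u : ℝ) :
    a * (∫ s in Ioi u, k s) + a' * (∫ s in Iio u, k s) ≤ c := by
  rcases le_total u 0 with hu | hu
  · have h3 := pn_mono hk hn measurableSet_Ioi (Ioi_subset_Ioi hu)
    have h4 := pn_nonpos hn (Iio u)
    have h5 := mul_le_mul_of_nonneg_left h3 ha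
    have h6 : a' * (∫ s in Iio u, k s) ≤ 0 := mul_nonpos_of_nonneg_of_nonpos (ha.trans haa) h4
    linarith
  · have h3 := pn_mono hk hn measurableSet_Iio (Iio_subset_Iio hu)
    have h4 := pn_nonpos hn (Ioi u)
    have h5 := mul_le_mul_of_nonneg_left h3 (ha.trans haa)
    have h6 : a * (∫ s in Ioi u, k s) ≤ 0 := mul_nonpos_of_nonneg_of_nonpos ha h4
    have h7 := pn_nonpos hn (Iio 0)
    have h8 : a' * (∫ s in Iio (0 : ℝ), k s) ≤ a * (∫ s in Iio (0 : ℝ), k s) :=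
      mul_le_mul_of_nonpos_right haa h7
    linarith

private lemma pn_facts {p : ℕ} (hp : 1 ≤ p) {h : ℝ → EReal} {F : Finset ℝ}
    (hF : ∀ θ ∈ F, θ ∈ Icc (0 : ℝ) Real.pi ∧ h θ ≠ ⊤ ∧ ((bb p θ < 0 ∧ 0 < aa p θ) ∨ LE p θ)) :
    (∀ θ ∈ F, bb p θ ≤ 0) ∧ (∀ θ ∈ F, 0 < bt p θ → bb p θ < 0 ∧ 0 < aa p θ) ∧
      (∀ θ ∈ F, bt p θ = 0 → LE p θ ∧ bb p θ = 0 ∧ aa p θ < 0 ∧ ∀ s, kk p θ s < 0) ∧
      ∀ θ ∈ F, 0 ≤ bt p θ := by
  refine ⟨fun θ hθ => ?_, fun θ hθ hb => ?_, fun θ hθ hb => ?_, fun θ hθ => ?_⟩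
  · rcases (hF θ hθ).2.2 with h1 | h1
    · exact h1.1.le
    · exact (LE_facts hp h1).2.2.1.le
  · rcases (hF θ hθ).2.2 with h1 | h1
    · exact h1
    · rw [pn_zero (LE_facts hp h1).2.2.1] at hb
      exact absurd hb (lt_irrefl _)
  · rcases (hF θ hθ).2.2 with h1 | h1
    · have := pn_pos hp h1.1
      rw [hb] at this
      exact absurd this (lt_irrefl _)
    · obtain ⟨_, _, h4, h5⟩ := LE_facts hp h1
      exact ⟨h1, h4, h5, pattern_neg p (hF θ hθ).1 h5.le h4.le⟩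
  · rcases (hF θ hθ).2.2 with h1 | h1
    · exact (pn_pos hp h1.1).le
    · rw [pn_zero (LE_facts hp h1).2.2.1]

theorem patch_N {p : ℕ} (hp : 1 ≤ p) {h : ℝ → EReal} (H : IntCond p h) {F : Finset ℝ}
    (hF : ∀ θ ∈ F, θ ∈ Icc (0 : ℝ) Real.pi ∧ h θ ≠ ⊤ ∧ ((bb p θ < 0 ∧ 0 < aa p θ) ∨ LE p θ))
    {c : ℝ → ℝ} (hc : ∀ θ ∈ F, h θ ≤ (c θ : EReal)) {t : ℝ} (ht : t ∈ Icc (0 : ℝ) Real.pi)
    (htb : bb p t ≤ 0) (hta : 0 < aa p t) (hbot : h t ≠ ⊥) {v : ℝ} (hv : (v : EReal) < h t)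
    {ε a a' : ℝ} (hε : 0 < ε) (ha : 0 ≤ a) (haa : a ≤ a')
    (hal : ∀ θ ∈ F, LE p θ → a * (∫ s in Ioi (0 : ℝ), kk p θ s) < c θ ∧
      a * (∫ s in Iio (0 : ℝ), kk p θ s) < c θ) :
    PatchEx (fun θ => kk p θ) (bt p) F c t v ε a a' := by
  classical
  obtain ⟨f1, f2, f3, f4⟩ := pn_facts hp hF
  have ha' : 0 ≤ a' := ha.trans haa
  obtain ⟨C, c₀, L, hC, hc₀, hL, u1, u2, u3⟩ := unif hp (insert t F) (by
    intro θ hθ
    rcases Finset.mem_insert.1 hθ with rfl | hθ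
    · exact pn_lt ht htb
    · exact pn_lt (hF θ hθ).1 (f1 θ hθ))
  have hins : ∀ θ ∈ F, θ ∈ insert t F := fun θ hθ => Finset.mem_insert_of_mem hθ
  have hti : t ∈ insert t F := Finset.mem_insert_self t F
  have hkz : ∀ θ ∈ F, bt p θ = 0 → KTar (1 / 2) C 0 (kk p θ) := by
    intro θ hθ hb
    have := u1 θ (hins θ hθ)
    rw [hb] at this
    exact this
  have htr : ∀ θ ∈ F, bt p θ = 0 → ∀ u : ℝ,
      a * (∫ s in Ioi u, kk p θ s) + a' * (∫ s in Iio u, kk p θ s) ≤ c θ := by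
    intro θ hθ hb u
    obtain ⟨h1, _, _, h4⟩ := f3 θ hθ hb
    exact pn_tr (pn_int (by norm_num) (hkz θ hθ hb)) (fun s => (h4 s).le) ha haa
      (hal θ hθ h1).1 (hal θ hθ h1).2 u
  have hcert : ∀ n, FCert (fun θ => kk p θ) F t n →
      v < ∑ θ ∈ F, c θ * (n θ).real univ ∧ bt p t ≤ ∑ θ ∈ F, bt p θ * (n θ).real univ :=
    fun n hn => cert_MV hp H (fun θ hθ => ⟨(hF θ hθ).1, (hF θ hθ).2.1⟩) ht hbot hc hv hn
  rcases lt_or_eq_of_le htb with htb' | htb'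
  · have hbt := pn_pos hp htb'
    by_cases hne : ∃ θ ∈ F, 0 < bt p θ
    · refine patchB (γ := 1 / 2) (C := C) (c₀ := c₀) (L := L) (by norm_num) (by norm_num) hC hc₀ hL
        ?_ hne hbt (u1 t hti) hε ha ha' ?_ ?_ (fun n hn => (hcert n hn).1)
        (fun n hn => (hcert n hn).2)
      · intro θ hθ
        rcases lt_or_eq_of_le (f4 θ hθ) with h1 | h1
        · exact Or.inl ⟨h1, u2 θ (hins θ hθ) h1 (f2 θ hθ h1).2⟩
        · exact Or.inr ⟨h1.symm, u3 θ (hins θ hθ) h1.symm (f3 θ hθ h1.symm).2.2.1⟩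
      · intro θ hθ hb
        exact (hal θ hθ (f3 θ hθ hb).1).1
      · intro θ hθ hb
        obtain ⟨h1, _, _, h4⟩ := f3 θ hθ hb
        refine lt_of_le_of_lt ?_ (hal θ hθ h1).2
        exact mul_le_mul_of_nonpos_right haa (pn_nonpos (fun s => (h4 s).le) _)
    · have hz : ∀ θ ∈ F, bt p θ = 0 := by
        intro θ hθ
        by_contra h1
        exact hne ⟨θ, hθ, lt_of_le_of_ne (f4 θ hθ) (Ne.symm h1)⟩
      refine patchQ (γ := 1 / 2) (C := C) (c₀ := c₀) (L := L) (by norm_num) (by norm_num) hC hc₀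
        (by linarith) ?_ hbt (u1 t hti) ?_ hε ha ha' ?_
      · intro θ hθ
        exact ⟨hz θ hθ, hkz θ hθ (hz θ hθ), fun s => ((f3 θ hθ (hz θ hθ)).2.2.2 s).le⟩
      · exact (u2 t hti hbt hta).low
      · intro θ hθ u
        exact htr θ hθ (hz θ hθ) u
  · have hbt := pn_zero htb'
    have hkt := u1 t hti
    rw [hbt] at hkt
    refine patchR (γ := 1 / 2) (C := C) (by norm_num) (by norm_num) hC ?_ hbt hkt
      (pattern_pos p ht hta.le htb'.ge) hε ha ha' htr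
    intro θ hθ
    exact ⟨f4 θ hθ, u1 θ (hins θ hθ), fun hb s => ((f3 θ hθ hb).2.2.2 s).le⟩

theorem patch_L {p : ℕ} (hp : 1 ≤ p) {h : ℝ → EReal} (H : IntCond p h) {F : Finset ℝ}
    (hF : ∀ θ ∈ F, θ ∈ Icc (0 : ℝ) Real.pi ∧ h θ ≠ ⊤ ∧ ((bb p θ < 0 ∧ 0 < aa p θ) ∨ LE p θ))
    {c : ℝ → ℝ} (hc : ∀ θ ∈ F, h θ ≤ (c θ : EReal)) {t : ℝ} (ht : LE p t) {v : ℝ}
    (hv : (v : EReal) < h t) {ε a : ℝ} (hε : 0 < ε) (ha : 0 ≤ a)
    (hfe : ∀ θ ∈ F, LE p θ → a * (∫ s, kk p θ s) < c θ) :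
    PatchEx (fun θ => kk p θ) (bt p) F c t v ε a a := by
  classical
  obtain ⟨f1, f2, f3, f4⟩ := pn_facts hp hF
  obtain ⟨t1, t2, t3, t4⟩ := LE_facts hp ht
  have hbt := pn_zero t3
  obtain ⟨C, c₀, L, hC, hc₀, hL, u1, u2, u3⟩ := unif hp (insert t F) (by
    intro θ hθ
    rcases Finset.mem_insert.1 hθ with rfl | hθ
    · exact ⟨t1.le, t2⟩
    · exact pn_lt (hF θ hθ).1 (f1 θ hθ))
  have hins : ∀ θ ∈ F, θ ∈ insert t F := fun θ hθ => Finset.mem_insert_of_mem hθ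
  have hti : t ∈ insert t F := Finset.mem_insert_self t F
  have hkt := u1 t hti
  rw [hbt] at hkt
  have hZ : ∀ θ, θ ∈ F.filter (fun θ => bt p θ = 0) ↔ θ ∈ F ∧ bt p θ = 0 :=
    fun θ => Finset.mem_filter
  refine patchZ (γ := 1 / 2) (C := C) (by norm_num) (by norm_num) hC
    (fun θ hθ => ⟨f4 θ hθ, u1 θ (hins θ hθ)⟩) hZ hbt hkt hε ha ha ?_ ?_ ?_
  · intro θ hθ
    obtain ⟨h1, h2⟩ := (hZ θ).1 hθ
    exact hfe θ h1 (f3 θ h1 h2).1
  · intro θ hθ u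
    obtain ⟨h1, h2⟩ := (hZ θ).1 hθ
    have hk := u1 θ (hins θ h1)
    rw [h2] at hk
    have hint := pn_int (by norm_num) hk
    have h3 : (∫ s in Ioi u, kk p θ s) + (∫ s in Iio u, kk p θ s) = ∫ s, kk p θ s := by
      have h4 := integral_add_compl (measurableSet_Ioi (a := u)) hint
      rw [compl_Ioi, integral_Iic_eq_integral_Iio] at h4
      exact h4
    rw [← mul_add, h3]
    exact (hfe θ h1 (f3 θ h1 h2).1).le
  · intro n hn hpos
    have hlef : ∀ θ ∈ F.filter (fun θ => bt p θ = 0), KLef (1 / 2) C c₀ (kk p θ) := by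
      intro θ hθ
      obtain ⟨h1, h2⟩ := (hZ θ).1 hθ
      exact u3 θ (hins θ h1) h2 (f3 θ h1 h2).2.2.1
    have hk₀ : ∀ s, |kk p t s| ≤ C * Real.exp (-(1 / 2 * |s|)) := by
      intro s
      rcases le_total 0 s with hs | hs
      · have h5 := hkt.right s hs
        rw [add_zero] at h5
        rw [abs_of_nonneg hs]
        exact h5
      · refine (hkt.left s hs).trans ?_
        rw [abs_of_nonpos hs]
        refine mul_le_mul_of_nonneg_left (Real.exp_le_exp.2 ?_) (by linarith)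
        linarith
    have hmom := mom_l (k := fun θ => kk p θ) (γ := 1 / 2) (by norm_num) hC hc₀ hlef hk₀ hn hpos
    have hcert : FCert (fun θ => kk p θ) (F.filter (fun θ => bt p θ = 0)) t n :=
      ⟨hn, ⟨1 / 2 / 2, by norm_num, hmom⟩, hpos⟩
    refine (cert_MV hp H (fun θ hθ => ?_) ⟨t1.le, t2.le⟩ (ne_bot_of_gt hv) (fun θ hθ => ?_) hv
      hcert).1
    · obtain ⟨h1, h2⟩ := (hZ θ).1 hθ
      exact ⟨(hF θ h1).1, (hF θ h1).2.1⟩
    · exact hc θ ((hZ θ).1 hθ).1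

end Pool.Agent.IND2I
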