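import Pool.Agent.IND2I.PlanL
import Pool.Agent.IND2I.PatchN
import Pool.Agent.IND2I.Cons
import Pool.Agent.IND2I.Ctb

/-!
# IND2I, module ClN: the construction when no right end point is in `S`

Notation: `A₁ = {θ ∈ [0,π] | bb θ < 0, 0 < aa θ, h θ ≠ ⊤}`, `A₂ = {θ ∈ [0,π] | bb θ ≤ 0, 0 < aa θ, h θ = ⊤}` (contains all right ends, `exists_RE`).
`D ⊆ A₁` from `ctb_right`, `T₂ ⊆ A₂` from `ctb_left` (nonempty: `A₂` is nonempty; if `x ∈ A₂ \ T₂` then `T₂` has a point).  `T₁ = {θ ∈ A₁ | h θ ≠ ⊥}`.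
(a) `T₁ ⊆ D`: let `θ ∈ T₁`; by `arc_sup` there are `s < θ < r` with `h s = ⊥` (`cons_sub`), `p (r - s) < π`; if `d ∈ A₁`, `θ < d < r`, then
trigonometric convexity (`H.trig`, `h s = ⊥`, `h d ≠ ⊤`) gives `h θ = ⊥`, a contradiction: `θ` is isolated from the right in `A₁`
(`η = r - θ`), so `θ ∈ D`.
(b) By `cons_l`, `cons_ll` one of: (0) `h l = 0` for all `LE l`; (1) `h l` real and `< 0` for all `LE l`, and there is one; (2) `h l = ⊥` for all `LE l`,
and there is one.  (`cons_ll`: `h l ≤ c h l'`, so `h l' < 0 → h l < 0` and `h l' = ⊥ → h l = ⊥`.)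
The set `E` of all `LE l` is finite (`finite_zeros`, `LE_facts`).
PLAN.  `ε j = 1/(j+1)`.  `F j = F₀ j ∪ E'` (`F₀` from `enum_fin D`), `E' = ∅` in case (0), `E' = E` in cases (1), (2).
`c j θ = -j` if `h θ = ⊥`, `(h θ).toReal + ε j` otherwise; so `h θ ≤ c j θ`.
Targets: `T = D₁ ∪ T₂ ∪ E''`, `D₁ = T₁`, `E'' = E` in cases (0), (1), `∅` in case (2); `t` from `enum_inf T`; `v j = j` if `h (t j) = ⊤`, `(h (t j)).toReal - ε j`
otherwise.  So `v j < h (t j)`.  For `LE l` let `q l = min (∫_{Ioi 0} |kk l|) (∫_{Iio 0} |kk l|) > 0` (`kk l < 0` continuous).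
(0): `a j = 0`, `f j = 1`.  (1): `a j = a ≥ 1` with `a q l > -h l` for all `l ∈ E`, `f = 0`.  (2): `a j = (j + 1) Q`, `Q ≥ 1`, `Q q l ≥ 1` for all `l`, `f = 0`.
`γ = 1/2`, `C j` from `unif` for `insert (t j) (F j)`.  `hneg`: in case (0) `F j` has no `z`-ray (`bt θ = 0` only for zeros of `bb`), so the second
alternative holds vacuously; in the other cases `f = 0`.
`hP`: `t j ∈ T₁ ∪ T₂`: `patch_N` (`hal`: case (1): `-a q l < h l ≤ c`, case (2): `-(j+1) Q q l ≤ -(j+1) < -j`).  `t j ∈ E''`: case (1): `patch_L`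
(`hfe`: `a ∫ kk l ≤ -a q l < c`); case (0): `patchG` (`F j ⊆ D`, `v j = -ε j ≤ 0`, `a j = a (j+1) = 0`).
CONCLUSIONS from `plan_lim`.  `θ ∈ D` (or `θ ∈ E'`): eventually in `F j`, `c j θ + 2 ε j → h θ`: `UL θ ≤ h θ`.  Targets: `h t ≤ UL t`.  In case (0) `UL l ≤ 0 = h l` by
`ul_nonpos`; in case (2) `h l = ⊥ ≤ UL l` trivially.  This gives all claims: the first for `θ ∈ D` by `UL θ ≤ h θ`, for `θ ∈ A₁ \ D` by the density
of `D` from the right (`d ∈ D`: `UL d ≤ h d < ⊤`); the second: `h θ = ⊥` is trivial, otherwise `θ ∈ T₁`; the third from `T₂`.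
-/

set_option autoImplicit false

namespace Pool.Agent.IND2I

open MeasureTheory Set Filter Helper25.Ind

namespace CN

theorem kint {γ C : ℝ} {k : ℝ → ℝ} (hγ0 : 0 < γ) (hk : KTar γ C 0 k) : Integrable k := by
  rw [← integrableOn_univ, ← Iic_union_Ioi (a := (0 : ℝ))]
  refine IntegrableOn.union ?_ ?_
  · refine Integrable.mono' ((integrableOn_exp_Iic 0).const_mul C) hk.cont.aestronglyMeasurable ?_
    refine (ae_restrict_iff' measurableSet_Iic).2 (Filter.Eventually.of_forall fun s hs => ?_)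
    rw [Real.norm_eq_abs]
    exact hk.left s hs
  · simpa using ktar_tail_int hγ0 hk 0

theorem split {k : ℝ → ℝ} (hk : Integrable k) (u : ℝ) :
    (∫ s in Ioi u, k s) + (∫ s in Iio u, k s) = ∫ s, k s := by
  rw [add_comm, ← integral_Iic_eq_integral_Iio,
    intervalIntegral.integral_Iic_add_Ioi hk.integrableOn hk.integrableOn]

theorem negint {f : ℝ → ℝ} (hf : ∀ s, f s < 0) (hi : Integrable f) {A : Set ℝ}
    (hA : 0 < volume A) : ∫ s in A, f s < 0 := by
  have h0 : 0 < ∫ s in A, (fun s => -f s) s := by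
    rw [integral_pos_iff_support_of_nonneg (fun s => (neg_pos.2 (hf s)).le)
      hi.neg.integrableOn]
    have h1 : Function.support (fun s => -f s) = univ := by
      ext s
      simp only [Function.mem_support, mem_univ, iff_true]
      exact (neg_pos.2 (hf s)).ne'
    rw [h1, Measure.restrict_apply_univ]
    exact hA
  simp only [integral_neg] at h0
  linarith

theorem eps_ev {δ : ℝ} (hδ : 0 < δ) : ∀ᶠ j : ℕ in atTop, 1 / ((j : ℝ) + 1) ≤ δ :=
  (tendsto_one_div_add_atTop_nhds_zero_nat (𝕜 := ℝ)).eventually_le_const hδ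

/-- upper bounds -/
noncomputable def cf (h : ℝ → EReal) (j : ℕ) (θ : ℝ) : ℝ :=
  open Classical in if h θ = ⊥ then -(j : ℝ) else (h θ).toReal + 1 / ((j : ℝ) + 1)

/-- lower bounds -/
noncomputable def vf (h : ℝ → EReal) (j : ℕ) (t : ℝ) : ℝ :=
  open Classical in if h t = ⊤ then (j : ℝ) else (h t).toReal - 1 / ((j : ℝ) + 1)

theorem le_cf {h : ℝ → EReal} (j : ℕ) {θ : ℝ} (hθ : h θ ≠ ⊤) : h θ ≤ (cf h j θ : EReal) := by
  unfold cf
  split_ifs with hb
  · rw [hb]; exact bot_le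
  · rw [← EReal.coe_toReal hθ hb, EReal.coe_le_coe_iff, EReal.toReal_coe]
    have : 0 < 1 / ((j : ℝ) + 1) := Nat.one_div_pos_of_nat
    linarith

theorem vf_lt {h : ℝ → EReal} (j : ℕ) {t : ℝ} (ht : h t ≠ ⊥) : (vf h j t : EReal) < h t := by
  unfold vf
  split_ifs with hb
  · rw [hb]; exact EReal.coe_lt_top _
  · rw [← EReal.coe_toReal hb ht, EReal.coe_lt_coe_iff, EReal.toReal_coe]
    have : 0 < 1 / ((j : ℝ) + 1) := Nat.one_div_pos_of_nat
    linarith

theorem lt_pi {p : ℕ} {θ : ℝ} (hθ : θ ∈ Icc (0 : ℝ) Real.pi) (hb : bb p θ ≤ 0) :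
    θ < Real.pi := by
  refine lt_of_le_of_ne hθ.2 fun h => ?_
  rw [h, bb_pi] at hb
  linarith

theorem bt_nonneg {p : ℕ} {θ : ℝ} (hb : bb p θ ≤ 0) : 0 ≤ bt p θ := by
  unfold bt
  exact div_nonneg (neg_nonneg.2 hb) (Nat.cast_nonneg p)

theorem bt_pos {p : ℕ} (hp : 1 ≤ p) {θ : ℝ} (hb : bb p θ < 0) : 0 < bt p θ := by
  unfold bt
  have : (0 : ℝ) < p := by exact_mod_cast hp
  exact div_pos (neg_pos.2 hb) this

theorem core {p : ℕ} (hp : 1 ≤ p) {h : ℝ → EReal} {D T : Set ℝ} (hDc : D.Countable)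
    (hD : ∀ θ ∈ D, θ ∈ Icc (0 : ℝ) Real.pi ∧ bb p θ < 0 ∧ h θ ≠ ⊤) (hTc : T.Countable)
    (hTn : T.Nonempty) (hT : ∀ t ∈ T, t ∈ Icc (0 : ℝ) Real.pi ∧ bb p t ≤ 0 ∧ h t ≠ ⊥)
    (E' : Finset ℝ) (hE' : ∀ l ∈ E', LE p l) (hE't : ∀ l ∈ E', h l ≠ ⊤) (a f : ℕ → ℝ)
    (ha : ∀ j, 0 ≤ a j) (hf : ∀ j, 0 ≤ f j) (haf : ∀ j, 0 < a j + f j)
    (hneg : (∀ j, f j = 0) ∨ E' = ∅)
    (hP : ∀ (j : ℕ) (F : Finset ℝ), (∀ θ ∈ F, θ ∈ D ∨ θ ∈ E') → ∀ t ∈ T,
      PatchEx (fun θ => kk p θ) (bt p) F (cf h j) t (vf h j t) (1 / ((j : ℝ) + 1)) (a j)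
        (a (j + 1))) :
    ∃ ρ : ℝ → ℝ, Dens ρ ∧ (∀ θ, (θ ∈ D ∨ θ ∈ E') → UL p ρ θ ≤ h θ) ∧
      ∀ t ∈ T, h t ≤ UL p ρ t := by
  classical
  obtain ⟨t, ht, htinf⟩ := enum_inf hTc hTn
  obtain ⟨F₀, hF₀, hF₀e⟩ := enum_fin hDc
  set F : ℕ → Finset ℝ := fun j => F₀ j ∪ E' with hF
  have hFm : ∀ j, ∀ θ ∈ F j, θ ∈ D ∨ θ ∈ E' := by
    intro j θ hθ
    rcases Finset.mem_union.1 hθ with h1 | h1
    · exact Or.inl (hF₀ j θ h1)
    · exact Or.inr h1
  have hFb : ∀ j, ∀ θ ∈ F j, θ ∈ Icc (0 : ℝ) Real.pi ∧ bb p θ ≤ 0 := by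
    intro j θ hθ
    rcases hFm j θ hθ with h1 | h1
    · exact ⟨(hD θ h1).1, (hD θ h1).2.1.le⟩
    · have h2 := LE_facts hp (hE' θ h1)
      exact ⟨⟨h2.1.le, h2.2.1.le⟩, h2.2.2.1.le⟩
  have hunif : ∀ j, ∃ C : ℝ, 1 ≤ C ∧ ∀ θ ∈ insert (t j) (F j), KTar (1 / 2) C (bt p θ)
      (kk p θ) := by
    intro j
    obtain ⟨C, c, L, hC, -, -, h1, -, -⟩ := unif hp (insert (t j) (F j)) (by
      intro θ hθ
      rcases Finset.mem_insert.1 hθ with h1 | h1
      · rw [h1]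
        have h2 := hT (t j) (ht j)
        exact ⟨h2.1.1, lt_pi h2.1 h2.2.1⟩
      · have h2 := hFb j θ h1
        exact ⟨h2.1.1, lt_pi h2.1 h2.2⟩)
    exact ⟨C, hC, h1⟩
  choose C hC hCk using hunif
  let P : Plan ℝ :=
    { k := fun θ => kk p θ
      β := bt p
      F := F
      c := cf h
      t := t
      v := fun j => vf h j (t j)
      ε := fun j => 1 / ((j : ℝ) + 1)
      a := a
      f := f
      γ := fun _ => 1 / 2
      C := C
      hε := fun j => Nat.one_div_pos_of_nat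
      hε1 := fun j => by
        rw [div_le_one (by positivity)]
        have : (0 : ℝ) ≤ j := Nat.cast_nonneg j
        linarith
      ha := ha
      hf := hf
      haf := haf
      hγ := fun _ => by norm_num
      hγ1 := fun _ => by norm_num
      hC := hC
      hβ := fun j θ hθ => bt_nonneg (hFb j θ hθ).2
      hβt := fun j => bt_nonneg (hT _ (ht j)).2.1
      hk := fun j θ hθ => hCk j θ (Finset.mem_insert_of_mem hθ)
      hkt := fun j => hCk j _ (Finset.mem_insert_self _ _)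
      hneg := by
        rcases hneg with h1 | h1
        · exact Or.inl h1
        · right
          intro j θ hθ hb
          exfalso
          rcases hFm j θ hθ with h2 | h2
          · exact (bt_pos hp (hD θ h2).2.1).ne' hb
          · rw [h1] at h2
            exact absurd h2 (Finset.notMem_empty θ)
      hP := fun j => hP j (F j) (hFm j) (t j) (ht j) }
  obtain ⟨ρ, hρ, hup, hlow⟩ := plan_lim p P (fun _ => rfl)
  refine ⟨ρ, hρ, ?_, ?_⟩
  · intro θ hθ
    have hθt : h θ ≠ ⊤ := by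
      rcases hθ with h1 | h1
      · exact (hD θ h1).2.2
      · exact hE't θ h1
    apply hup θ (h θ)
    · rcases hθ with h1 | h1
      · filter_upwards [hF₀e θ h1] with j hj
        exact Finset.mem_union_left _ hj
      · exact Eventually.of_forall fun j => Finset.mem_union_right _ h1
    · intro A hA
      by_cases hb : h θ = ⊥
      · filter_upwards [eps_ev (δ := 1) one_pos,
          tendsto_natCast_atTop_atTop.eventually_ge_atTop (2 - A)] with j hj1 hj2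
        change cf h j θ + 2 * (1 / ((j : ℝ) + 1)) ≤ A
        unfold cf
        rw [if_pos hb]
        linarith
      · have hA' : (h θ).toReal < A := by
          rw [← EReal.coe_toReal hθt hb] at hA
          exact_mod_cast hA
        filter_upwards [eps_ev (δ := (A - (h θ).toReal) / 3) (by linarith)] with j hj
        change cf h j θ + 2 * (1 / ((j : ℝ) + 1)) ≤ A
        unfold cf
        rw [if_neg hb]
        linarith
  · intro x hx
    have hxb := (hT x hx).2.2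
    apply hlow x (h x)
    intro B hB
    have hev : ∀ᶠ j : ℕ in atTop, B ≤ vf h j x - 2 * (1 / ((j : ℝ) + 1)) := by
      by_cases hb : h x = ⊤
      · filter_upwards [eps_ev (δ := 1) one_pos,
          tendsto_natCast_atTop_atTop.eventually_ge_atTop (B + 2)] with j hj1 hj2
        unfold vf
        rw [if_pos hb]
        linarith
      · have hB' : B < (h x).toReal := by
          rw [← EReal.coe_toReal hb hxb] at hB
          exact_mod_cast hB
        filter_upwards [eps_ev (δ := ((h x).toReal - B) / 3) (by linarith)] with j hj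
        unfold vf
        rw [if_neg hb]
        linarith
    refine ((htinf x hx).and_eventually hev).mono ?_
    rintro j ⟨hj1, hj2⟩
    refine ⟨hj1, ?_⟩
    change B ≤ vf h j (t j) - 2 * (1 / ((j : ℝ) + 1))
    rw [hj1]
    exact hj2

/-- rays with a value above `⊥` are isolated from the right -/
theorem isolated {p : ℕ} (hp : 1 ≤ p) {h : ℝ → EReal} (H : IntCond p h) {θ : ℝ}
    (hθ : θ ∈ Icc (0 : ℝ) Real.pi) (hb : bb p θ < 0) (ha : 0 < aa p θ) (hbot : h θ ≠ ⊥) :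
    ∃ η > 0, ∀ d, h d ≠ ⊤ → ¬ (θ < d ∧ d < θ + η) := by
  obtain ⟨s, r, hs0, hsθ, hθr, hr, hsr, hbs, has, -⟩ := arc_sup hp hθ hb ha
  refine ⟨r - θ, by linarith, ?_⟩
  rintro d hdt ⟨hd1, hd2⟩
  have hdr : d < r := by linarith
  apply hbot
  have hs : h s = ⊥ := cons_sub hp H ⟨hs0, (hsθ.le.trans hθ.2)⟩ hbs has
  have hp0 : (0 : ℝ) < p := by exact_mod_cast hp
  have hsd : (p : ℝ) * (d - s) < Real.pi := by nlinarith
  obtain ⟨A₂, hA₂⟩ : ∃ A₂ : ℝ, h d ≤ (A₂ : EReal) := by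
    by_cases h1 : h d = ⊥
    · exact ⟨0, by rw [h1]; exact bot_le⟩
    · exact ⟨(h d).toReal, (EReal.coe_toReal hdt h1).ge⟩
  have hS : 0 < Real.sin (p * (d - s)) :=
    Real.sin_pos_of_pos_of_lt_pi (mul_pos hp0 (by linarith)) hsd
  have hS1 : 0 < Real.sin (p * (d - θ)) :=
    Real.sin_pos_of_pos_of_lt_pi (mul_pos hp0 (by linarith)) (by nlinarith)
  rw [EReal.eq_bot_iff_forall_lt]
  intro y
  set S := Real.sin (p * (d - s)) with hSdef
  set S1 := Real.sin (p * (d - θ)) with hS1def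
  set S2 := Real.sin (p * (θ - s)) with hS2def
  have h1 := H.trig s θ d (((y - 1) * S - A₂ * S2) / S1) A₂ hsθ hd1 hsd
    (by rw [hs]; exact bot_le) hA₂
  refine lt_of_le_of_lt h1 ?_
  rw [EReal.coe_lt_coe_iff]
  have h2 : ((y - 1) * S - A₂ * S2) / S1 * S1 = (y - 1) * S - A₂ * S2 :=
    div_mul_cancel₀ _ hS1.ne'
  rw [h2]
  have h3 : ((y - 1) * S - A₂ * S2 + A₂ * S2) / S = y - 1 := by
    field_simp
    ring
  rw [h3]
  linarith

end CN

open CN in
theorem constr_N {p : ℕ} (hp : 1 ≤ p) {h : ℝ → EReal} (H : IntCond p h)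
    (hN : ∀ r, RE p r → h r = ⊤) : ∃ ρ : ℝ → ℝ, Dens ρ ∧
      (∀ l, LE p l → UL p ρ l = h l) ∧
      (∀ θ ∈ Icc (0 : ℝ) Real.pi, bb p θ < 0 → 0 < aa p θ → h θ ≠ ⊤ → UL p ρ θ ≤ h θ ∨
        ∀ η > 0, ∃ d, θ < d ∧ d < θ + η ∧ d ∈ Icc (0 : ℝ) Real.pi ∧ h d ≠ ⊤ ∧ UL p ρ d ≠ ⊤) ∧
      (∀ θ ∈ Icc (0 : ℝ) Real.pi, bb p θ < 0 → 0 < aa p θ → h θ ≠ ⊤ → h θ ≤ UL p ρ θ) ∧
      ∀ θ ∈ Icc (0 : ℝ) Real.pi, bb p θ ≤ 0 → 0 < aa p θ → h θ = ⊤ → UL p ρ θ = ⊤ ∨
        ∀ η > 0, ∃ d, θ - η < d ∧ d < θ ∧ d ∈ Icc (0 : ℝ) Real.pi ∧ h d = ⊤ ∧ UL p ρ d = ⊤ := by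
  classical
  set A₁ : Set ℝ := {θ | θ ∈ Icc (0 : ℝ) Real.pi ∧ bb p θ < 0 ∧ 0 < aa p θ ∧ h θ ≠ ⊤} with hA₁
  set A₂ : Set ℝ := {θ | θ ∈ Icc (0 : ℝ) Real.pi ∧ bb p θ ≤ 0 ∧ 0 < aa p θ ∧ h θ = ⊤} with hA₂
  obtain ⟨D, hDA, hDc, hDiso, hDd⟩ := ctb_right A₁
  obtain ⟨T₂, hTA, hT₂c, hT₂d⟩ := ctb_left A₂
  have hA₂n : A₂.Nonempty := by
    obtain ⟨r, hr⟩ := exists_RE hp
    have hf := RE_facts hp hr
    exact ⟨r, ⟨hf.1.le, hf.2.1.le⟩, hf.2.2.1.le, hf.2.2.2, hN r hr⟩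
  have hT₂n : T₂.Nonempty := by
    obtain ⟨x, hx⟩ := hA₂n
    by_cases h1 : x ∈ T₂
    · exact ⟨x, h1⟩
    · obtain ⟨d, hd, -, -⟩ := hT₂d x hx h1 1 one_pos
      exact ⟨d, hd⟩
  set T₁ : Set ℝ := {θ | θ ∈ A₁ ∧ h θ ≠ ⊥} with hT₁
  have hT₁D : T₁ ⊆ D := by
    rintro θ ⟨⟨h1, h2, h3, h4⟩, h5⟩
    apply hDiso θ ⟨h1, h2, h3, h4⟩
    obtain ⟨η, hη, h6⟩ := isolated hp H h1 h2 h3 h5
    exact ⟨η, hη, fun y hy => h6 y hy.2.2.2⟩
  have hT₁c : T₁.Countable := hDc.mono hT₁D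
  have hD : ∀ θ ∈ D, θ ∈ Icc (0 : ℝ) Real.pi ∧ bb p θ < 0 ∧ h θ ≠ ⊤ := fun θ hθ =>
    ⟨(hDA hθ).1, (hDA hθ).2.1, (hDA hθ).2.2.2⟩
  have hnotLE : ∀ θ ∈ D, ¬ LE p θ := by
    intro θ hθ h1
    have h2 := (LE_facts hp h1).2.2.1
    have h3 := (hD θ hθ).2.1
    linarith
  have hT₁₂ : ∀ t ∈ T₁ ∪ T₂, t ∈ Icc (0 : ℝ) Real.pi ∧ bb p t ≤ 0 ∧ 0 < aa p t ∧ h t ≠ ⊥ := by
    rintro t (ht | ht)
    · exact ⟨ht.1.1, ht.1.2.1.le, ht.1.2.2.1, ht.2⟩
    · have h1 := hTA ht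
      refine ⟨h1.1, h1.2.1, h1.2.2.1, ?_⟩
      rw [h1.2.2.2]
      exact top_ne_bot
  -- the left end points
  set E : Finset ℝ := (finite_zeros hp).toFinset.filter (fun l => LE p l) with hE
  have hEm : ∀ l, l ∈ E ↔ LE p l := by
    intro l
    rw [hE, Finset.mem_filter, Set.Finite.mem_toFinset]
    constructor
    · exact fun h1 => h1.2
    · intro h1
      have hf := LE_facts hp h1
      exact ⟨⟨⟨hf.1.le, hf.2.1.le⟩, hf.2.2.1⟩, h1⟩
  have hl0 : ∀ l, LE p l → h l ≤ 0 := fun l hl => cons_l hp H hl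
  have hlt : ∀ l, LE p l → h l ≠ ⊤ := by
    intro l hl h1
    have h2 := hl0 l hl
    rw [h1] at h2
    exact absurd h2 (by simp)
  have hneg : ∀ l, LE p l → ∀ s, kk p l s < 0 := by
    intro l hl
    have hf := LE_facts hp hl
    exact pattern_neg p ⟨hf.1.le, hf.2.1.le⟩ hf.2.2.2.le hf.2.2.1.le
  have hki : ∀ l, LE p l → Integrable (kk p l) := by
    intro l hl
    have hf := LE_facts hp hl
    obtain ⟨C, -, hk⟩ := ktar_kk hp hf.1.le hf.2.1
    have hb : bt p l = 0 := by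
      unfold bt
      rw [hf.2.2.1, neg_zero, zero_div]
    rw [hb] at hk
    exact kint (by norm_num) hk
  set q : ℝ → ℝ := fun l => min (-(∫ s in Ioi (0 : ℝ), kk p l s)) (-(∫ s in Iio (0 : ℝ), kk p l s))
    with hq
  have hq0 : ∀ l, LE p l → 0 < q l := by
    intro l hl
    apply lt_min
    · have := negint (hneg l hl) (hki l hl) (A := Ioi (0 : ℝ)) (by simp)
      linarith
    · have := negint (hneg l hl) (hki l hl) (A := Iio (0 : ℝ)) (by simp)
      linarith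
  have hq1 : ∀ l, ∫ s in Ioi (0 : ℝ), kk p l s ≤ -q l := fun l => by
    have := min_le_left (-(∫ s in Ioi (0 : ℝ), kk p l s)) (-(∫ s in Iio (0 : ℝ), kk p l s))
    have h2 : q l ≤ -(∫ s in Ioi (0 : ℝ), kk p l s) := this
    linarith
  have hq2 : ∀ l, ∫ s in Iio (0 : ℝ), kk p l s ≤ -q l := fun l => by
    have := min_le_right (-(∫ s in Ioi (0 : ℝ), kk p l s)) (-(∫ s in Iio (0 : ℝ), kk p l s))
    have h2 : q l ≤ -(∫ s in Iio (0 : ℝ), kk p l s) := this
    linarith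
  -- from a solution of the core problem to the conclusions
  have fin : ∀ (T : Set ℝ) (ρ : ℝ → ℝ), T₁ ∪ T₂ ⊆ T → Dens ρ → (∀ θ ∈ D, UL p ρ θ ≤ h θ) →
      (∀ t ∈ T, h t ≤ UL p ρ t) → (∀ l, LE p l → UL p ρ l = h l) →
      ∃ ρ : ℝ → ℝ, Dens ρ ∧
      (∀ l, LE p l → UL p ρ l = h l) ∧
      (∀ θ ∈ Icc (0 : ℝ) Real.pi, bb p θ < 0 → 0 < aa p θ → h θ ≠ ⊤ → UL p ρ θ ≤ h θ ∨
        ∀ η > 0, ∃ d, θ < d ∧ d < θ + η ∧ d ∈ Icc (0 : ℝ) Real.pi ∧ h d ≠ ⊤ ∧ UL p ρ d ≠ ⊤) ∧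
      (∀ θ ∈ Icc (0 : ℝ) Real.pi, bb p θ < 0 → 0 < aa p θ → h θ ≠ ⊤ → h θ ≤ UL p ρ θ) ∧
      ∀ θ ∈ Icc (0 : ℝ) Real.pi, bb p θ ≤ 0 → 0 < aa p θ → h θ = ⊤ → UL p ρ θ = ⊤ ∨
        ∀ η > 0, ∃ d, θ - η < d ∧ d < θ ∧ d ∈ Icc (0 : ℝ) Real.pi ∧ h d = ⊤ ∧
          UL p ρ d = ⊤ := by
    intro T ρ hTT hρ hup hlow hLE
    refine ⟨ρ, hρ, hLE, ?_, ?_, ?_⟩
    · intro θ h1 h2 h3 h4
      by_cases h5 : θ ∈ D
      · exact Or.inl (hup θ h5)
      · right
        intro η hη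
        obtain ⟨d, hd, hd1, hd2⟩ := hDd θ ⟨h1, h2, h3, h4⟩ h5 η hη
        refine ⟨d, hd1, hd2, (hD d hd).1, (hD d hd).2.2, ?_⟩
        intro h6
        have h7 := hup d hd
        rw [h6, top_le_iff] at h7
        exact (hD d hd).2.2 h7
    · intro θ h1 h2 h3 h4
      by_cases h5 : h θ = ⊥
      · rw [h5]; exact bot_le
      · exact hlow θ (hTT (Or.inl ⟨⟨h1, h2, h3, h4⟩, h5⟩))
    · intro θ h1 h2 h3 h4
      have h6 : ∀ d ∈ T₂, UL p ρ d = ⊤ := by
        intro d hd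
        have h7 := hlow d (hTT (Or.inr hd))
        rw [(hTA hd).2.2.2, top_le_iff] at h7
        exact h7
      by_cases h5 : θ ∈ T₂
      · exact Or.inl (h6 θ h5)
      · right
        intro η hη
        obtain ⟨d, hd, hd1, hd2⟩ := hT₂d θ ⟨h1, h2, h3, h4⟩ h5 η hη
        exact ⟨d, hd1, hd2, (hTA hd).1, (hTA hd).2.2.2, h6 d hd⟩
  have heps : ∀ j : ℕ, 0 < 1 / ((j : ℝ) + 1) := fun j => Nat.one_div_pos_of_nat
  by_cases hc2 : ∃ l, LE p l ∧ h l = ⊥
  · -- case (2)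
    obtain ⟨l', hl', hl'b⟩ := hc2
    have hall : ∀ l, LE p l → h l = ⊥ := by
      intro l hl
      obtain ⟨c, hc, h1⟩ := cons_ll hp H hl hl'
      rw [hl'b, EReal.coe_mul_bot_of_pos hc] at h1
      exact le_bot_iff.1 h1
    set Q : ℝ := 1 + ∑ l ∈ E, 1 / q l with hQ
    have hQq : ∀ l, LE p l → 1 ≤ Q * q l := by
      intro l hl
      have h1 : 1 / q l ≤ ∑ l ∈ E, 1 / q l :=
        Finset.single_le_sum (f := fun l => 1 / q l)
          (fun x hx => (one_div_pos.2 (hq0 x ((hEm x).1 hx))).le) ((hEm l).2 hl)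
      have h2 := hq0 l hl
      have h3 : 1 / q l ≤ Q := by rw [hQ]; linarith
      have h4 := mul_le_mul_of_nonneg_right h3 h2.le
      rwa [one_div_mul_cancel h2.ne'] at h4
    have hQ1 : 1 ≤ Q := by
      have : 0 ≤ ∑ l ∈ E, 1 / q l := Finset.sum_nonneg fun x hx =>
        (one_div_pos.2 (hq0 x ((hEm x).1 hx))).le
      rw [hQ]; linarith
    have hj0 : ∀ j : ℕ, (0 : ℝ) ≤ j := fun j => Nat.cast_nonneg j
    obtain ⟨ρ, hρ, hup, hlow⟩ := core hp (h := h) (D := D) (T := T₁ ∪ T₂) hDc hD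
      (hT₁c.union hT₂c) (hT₂n.mono subset_union_right)
      (fun t ht => ⟨(hT₁₂ t ht).1, (hT₁₂ t ht).2.1, (hT₁₂ t ht).2.2.2⟩) E
      (fun l hl => (hEm l).1 hl) (fun l hl => hlt l ((hEm l).1 hl))
      (fun j => ((j : ℝ) + 1) * Q) (fun _ => 0)
      (fun j => by have := hj0 j; positivity) (fun _ => le_rfl)
      (fun j => by have := hj0 j; positivity) (Or.inl fun _ => rfl) (by
        intro j F hF t ht
        have h1 := hT₁₂ t ht
        have := hj0 j
        refine patch_N hp H (F := F) ?_ ?_ h1.1 h1.2.1 h1.2.2.1 h1.2.2.2 (vf_lt j h1.2.2.2)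
          (heps j) (by positivity) (by push_cast; nlinarith) ?_
        · intro θ hθ
          rcases hF θ hθ with h2 | h2
          · exact ⟨(hD θ h2).1, (hD θ h2).2.2, Or.inl ⟨(hD θ h2).2.1, (hDA h2).2.2.1⟩⟩
          · have h3 := (hEm θ).1 h2
            have h4 := LE_facts hp h3
            exact ⟨⟨h4.1.le, h4.2.1.le⟩, hlt θ h3, Or.inr h3⟩
        · intro θ hθ
          apply le_cf
          rcases hF θ hθ with h2 | h2
          · exact (hD θ h2).2.2
          · exact hlt θ ((hEm θ).1 h2)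
        · intro θ hθ hLE
          have h2 := hQq θ hLE
          have h3 := hq1 θ
          have h4 := hq2 θ
          have h5 : cf h j θ = -(j : ℝ) := by
            unfold cf
            rw [if_pos (hall θ hLE)]
          rw [h5]
          have h6 : 0 ≤ ((j : ℝ) + 1) * Q := by positivity
          have h7 : ((j : ℝ) + 1) * Q * (-q θ) < -(j : ℝ) := by
            have : ((j : ℝ) + 1) * 1 ≤ ((j : ℝ) + 1) * (Q * q θ) :=
              mul_le_mul_of_nonneg_left h2 (by positivity)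
            linarith
          exact ⟨lt_of_le_of_lt (mul_le_mul_of_nonneg_left h3 h6) h7,
            lt_of_le_of_lt (mul_le_mul_of_nonneg_left h4 h6) h7⟩)
    refine fin (T₁ ∪ T₂) ρ subset_rfl hρ (fun θ hθ => hup θ (Or.inl hθ)) hlow ?_
    intro l hl
    apply le_antisymm (hup l (Or.inr ((hEm l).2 hl)))
    rw [hall l hl]
    exact bot_le
  · push Not at hc2
    have hlv : ∀ l, LE p l → h l = (((h l).toReal : ℝ) : EReal) := fun l hl =>
      (EReal.coe_toReal (hlt l hl) (hc2 l hl)).symm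
    have hlv0 : ∀ l, LE p l → (h l).toReal ≤ 0 := by
      intro l hl
      have h1 := hl0 l hl
      rw [hlv l hl] at h1
      exact_mod_cast h1
    have hTE : ∀ t ∈ T₁ ∪ T₂ ∪ (E : Set ℝ), t ∈ Icc (0 : ℝ) Real.pi ∧ bb p t ≤ 0 ∧ h t ≠ ⊥ := by
      rintro t (ht | ht)
      · exact ⟨(hT₁₂ t ht).1, (hT₁₂ t ht).2.1, (hT₁₂ t ht).2.2.2⟩
      · have h1 := (hEm t).1 ht
        have h2 := LE_facts hp h1
        exact ⟨⟨h2.1.le, h2.2.1.le⟩, h2.2.2.1.le, hc2 t h1⟩
    by_cases hc1 : ∃ l, LE p l ∧ h l < 0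
    · -- case (1)
      set a : ℝ := 1 + ∑ l ∈ E, -(h l).toReal / q l with ha
      have haq : ∀ l, LE p l → -(h l).toReal < a * q l := by
        intro l hl
        have h1 : -(h l).toReal / q l ≤ ∑ l ∈ E, -(h l).toReal / q l :=
          Finset.single_le_sum (f := fun l => -(h l).toReal / q l)
            (fun x hx => div_nonneg (by linarith [hlv0 x ((hEm x).1 hx)])
              (hq0 x ((hEm x).1 hx)).le) ((hEm l).2 hl)
        have h2 := hq0 l hl
        have h3 : -(h l).toReal / q l + 1 ≤ a := by rw [ha]; linarith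
        have h4 := mul_le_mul_of_nonneg_right h3 h2.le
        rw [add_mul, div_mul_cancel₀ _ h2.ne', one_mul] at h4
        linarith
      have ha1 : 1 ≤ a := by
        have : 0 ≤ ∑ l ∈ E, -(h l).toReal / q l := Finset.sum_nonneg fun x hx =>
          div_nonneg (by linarith [hlv0 x ((hEm x).1 hx)]) (hq0 x ((hEm x).1 hx)).le
        rw [ha]; linarith
      have ha0 : 0 ≤ a := by linarith
      obtain ⟨ρ, hρ, hup, hlow⟩ := core hp (h := h) (D := D) (T := T₁ ∪ T₂ ∪ (E : Set ℝ)) hDc hD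
        ((hT₁c.union hT₂c).union E.countable_toSet)
        ((hT₂n.mono subset_union_right).mono subset_union_left) hTE E
        (fun l hl => (hEm l).1 hl) (fun l hl => hlt l ((hEm l).1 hl))
        (fun _ => a) (fun _ => 0) (fun _ => ha0) (fun _ => le_rfl)
        (fun _ => by linarith) (Or.inl fun _ => rfl) (by
          intro j F hF t ht
          have hFF : ∀ θ ∈ F, θ ∈ Icc (0 : ℝ) Real.pi ∧ h θ ≠ ⊤ ∧
              ((bb p θ < 0 ∧ 0 < aa p θ) ∨ LE p θ) := by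
            intro θ hθ
            rcases hF θ hθ with h2 | h2
            · exact ⟨(hD θ h2).1, (hD θ h2).2.2, Or.inl ⟨(hD θ h2).2.1, (hDA h2).2.2.1⟩⟩
            · have h3 := (hEm θ).1 h2
              have h4 := LE_facts hp h3
              exact ⟨⟨h4.1.le, h4.2.1.le⟩, hlt θ h3, Or.inr h3⟩
          have hcc : ∀ θ ∈ F, h θ ≤ (cf h j θ : EReal) := fun θ hθ => le_cf j (hFF θ hθ).2.1
          have hcl : ∀ θ, LE p θ → a * (-q θ) < cf h j θ := by
            intro θ hLE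
            have h2 := haq θ hLE
            unfold cf
            rw [if_neg (hc2 θ hLE)]
            have := heps j
            linarith
          rcases ht with ht | ht
          · have h1 := hT₁₂ t ht
            refine patch_N hp H (F := F) hFF hcc h1.1 h1.2.1 h1.2.2.1 h1.2.2.2
              (vf_lt j h1.2.2.2) (heps j) ha0 le_rfl ?_
            intro θ hθ hLE
            exact ⟨lt_of_le_of_lt (mul_le_mul_of_nonneg_left (hq1 θ) ha0) (hcl θ hLE),
              lt_of_le_of_lt (mul_le_mul_of_nonneg_left (hq2 θ) ha0) (hcl θ hLE)⟩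
          · have h1 := (hEm t).1 ht
            refine patch_L hp H (F := F) hFF hcc h1 (vf_lt j (hc2 t h1)) (heps j) ha0 ?_
            intro θ hθ hLE
            refine lt_of_le_of_lt (mul_le_mul_of_nonneg_left ?_ ha0) (hcl θ hLE)
            rw [← split (hki θ hLE) 0]
            have h3 := hq1 θ
            have h4 := hq2 θ
            have h5 := hq0 θ hLE
            linarith)
      refine fin _ ρ subset_union_left hρ (fun θ hθ => hup θ (Or.inl hθ)) hlow ?_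
      intro l hl
      exact le_antisymm (hup l (Or.inr ((hEm l).2 hl))) (hlow l (Or.inr ((hEm l).2 hl)))
    · -- case (0)
      push Not at hc1
      have hl00 : ∀ l, LE p l → h l = 0 := fun l hl => le_antisymm (hl0 l hl) (hc1 l hl)
      obtain ⟨ρ, hρ, hup, hlow⟩ := core hp (h := h) (D := D) (T := T₁ ∪ T₂ ∪ (E : Set ℝ)) hDc hD
        ((hT₁c.union hT₂c).union E.countable_toSet)
        ((hT₂n.mono subset_union_right).mono subset_union_left) hTE ∅
        (fun l hl => absurd hl (Finset.notMem_empty l))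
        (fun l hl => absurd hl (Finset.notMem_empty l))
        (fun _ => 0) (fun _ => 1) (fun _ => le_rfl) (fun _ => zero_le_one)
        (fun _ => by norm_num) (Or.inr rfl) (by
          intro j F hF t ht
          have hFD : ∀ θ ∈ F, θ ∈ D := by
            intro θ hθ
            rcases hF θ hθ with h2 | h2
            · exact h2
            · exact absurd h2 (Finset.notMem_empty θ)
          rcases ht with ht | ht
          · have h1 := hT₁₂ t ht
            refine patch_N hp H (F := F) ?_ ?_ h1.1 h1.2.1 h1.2.2.1 h1.2.2.2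
              (vf_lt j h1.2.2.2) (heps j) le_rfl le_rfl ?_
            · intro θ hθ
              have h2 := hFD θ hθ
              exact ⟨(hD θ h2).1, (hD θ h2).2.2, Or.inl ⟨(hD θ h2).2.1, (hDA h2).2.2.1⟩⟩
            · intro θ hθ
              exact le_cf j (hD θ (hFD θ hθ)).2.2
            · intro θ hθ hLE
              exact absurd hLE (hnotLE θ (hFD θ hθ))
          · have h1 := (hEm t).1 ht
            apply patchG
            · intro θ hθ
              exact bt_pos hp (hD θ (hFD θ hθ)).2.1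
            · unfold bt
              rw [(LE_facts hp h1).2.2.1, neg_zero, zero_div]
            · unfold vf
              rw [if_neg (hlt t h1), hl00 t h1, EReal.toReal_zero]
              have := heps j
              linarith
            · exact heps j)
      refine fin _ ρ subset_union_left hρ (fun θ hθ => hup θ (Or.inl hθ)) hlow ?_
      intro l hl
      apply le_antisymm
      · rw [hl00 l hl]
        exact ul_nonpos p hρ fun s => (hneg l hl s).le
      · exact hlow l (Or.inr ((hEm l).2 hl))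

end Pool.Agent.IND2I
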