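import Pool.Agent.IND2I.IDefs
import Pool.Agent.IND2I.FCert

/-!
# IND2I, module CertMV: from `MajExp` to the hypotheses of the patches

PROOF.  Enumerate `F` by `Fin F.card` (`F.equivFin`), `φ i`, `μ i = n (φ i)`; `MajExp` with `τ = t` and `s = -y` gives
`h t ≤ ∑_{θ ∈ F} n θ(ℝ) h θ` and (`bb t < ∑ n θ(ℝ) bb θ → h t = ⊥`).  First claim: `h t ≤ ∑ n θ(ℝ) h θ ≤ ∑ n θ(ℝ) c θ` in `EReal` (the
coefficients are nonnegative reals), `v < h t`.  Second claim: otherwise `∑ bt θ n θ(ℝ) < bt t`, multiply by `-p`: `bb t < ∑ bb θ n θ(ℝ)`, so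
`h t = ⊥`, contradiction.
-/

set_option autoImplicit false

namespace Pool.Agent.IND2I

open MeasureTheory Set Helper25.Ind

theorem cert_MV {p : ℕ} (hp : 1 ≤ p) {h : ℝ → EReal} (H : IntCond p h) {F : Finset ℝ}
    (hF : ∀ θ ∈ F, θ ∈ Icc (0 : ℝ) Real.pi ∧ h θ ≠ ⊤) {t : ℝ} (ht : t ∈ Icc (0 : ℝ) Real.pi)
    (hbot : h t ≠ ⊥) {c : ℝ → ℝ} (hc : ∀ θ ∈ F, h θ ≤ (c θ : EReal)) {v : ℝ}
    (hv : (v : EReal) < h t) {n : ℝ → Measure ℝ} (hn : FCert (fun θ => kk p θ) F t n) :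
    v < ∑ θ ∈ F, c θ * (n θ).real univ ∧ bt p t ≤ ∑ θ ∈ F, bt p θ * (n θ).real univ := by
  obtain ⟨δ, hδ, hmom⟩ := hn.mom
  have hp0 : (0 : ℝ) < p := by exact_mod_cast hp
  have hsum : ∀ {M : Type} [AddCommMonoid M] (g : ℝ → M),
      ∑ j : Fin F.card, g (F.equivFin.symm j : ℝ) = ∑ θ ∈ F, g θ := by
    intro M _ g
    exact (Equiv.sum_comp F.equivFin.symm (fun x : F => g x)).trans (Finset.sum_coe_sort F g)
  obtain ⟨k1, k2⟩ := H.maj F.card (fun i => (F.equivFin.symm i : ℝ))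
    (fun i => n (F.equivFin.symm i : ℝ)) t (fun i => hn.fin _ (F.equivFin.symm i).2)
    ⟨δ, hδ, fun i => hmom _ (F.equivFin.symm i).2⟩ (fun i => (hF _ (F.equivFin.symm i).2).1) ht
    (fun i => (hF _ (F.equivFin.symm i).2).2) (fun s => by
      have h1 := hn.pos (-s)
      rw [neg_neg] at h1
      rw [hsum (fun θ => ∫ x, kk p θ (s + x) ∂(n θ))]
      refine h1.trans (le_of_eq ?_)
      refine Finset.sum_congr rfl fun θ _ => ?_
      congr 1
      ext x
      congr 1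
      ring)
  have hcoe : ∀ (g : ℝ → ℝ) (S : Finset ℝ), ((∑ θ ∈ S, g θ : ℝ) : EReal) =
      ∑ θ ∈ S, (g θ : EReal) := by
    classical
    intro g S
    induction S using Finset.induction_on with
    | empty => simp
    | insert a S ha ih => rw [Finset.sum_insert ha, Finset.sum_insert ha, EReal.coe_add, ih]
  rw [hsum (fun θ => (((n θ univ).toReal : ℝ) : EReal) * h θ)] at k1
  rw [hsum (fun θ => (n θ univ).toReal * bb p θ)] at k2
  constructor
  · have h1 : h t ≤ ((∑ θ ∈ F, c θ * (n θ).real univ : ℝ) : EReal) := by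
      refine k1.trans ?_
      rw [hcoe]
      refine Finset.sum_le_sum fun θ hθ => ?_
      have h2 : (((n θ univ).toReal : ℝ) : EReal) * h θ ≤
          (((n θ univ).toReal : ℝ) : EReal) * (c θ : EReal) :=
        mul_le_mul_of_nonneg_left (hc θ hθ) (EReal.coe_nonneg.2 ENNReal.toReal_nonneg)
      refine h2.trans (le_of_eq ?_)
      rw [← EReal.coe_mul, mul_comm]
      rfl
    exact EReal.coe_lt_coe_iff.1 (hv.trans_le h1)
  · by_contra hcon
    rw [not_le] at hcon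
    apply hbot
    apply k2
    have h1 : ∑ θ ∈ F, bt p θ * (n θ).real univ =
        -(∑ θ ∈ F, (n θ univ).toReal * bb p θ) / p := by
      rw [← Finset.sum_neg_distrib, Finset.sum_div]
      refine Finset.sum_congr rfl fun θ _ => ?_
      change -(bb p θ) / p * (n θ univ).toReal = _
      ring
    rw [h1] at hcon
    have h2 : bt p t = -(bb p t) / p := rfl
    rw [h2, div_lt_div_iff_of_pos_right hp0] at hcon
    linarith

end Pool.Agent.IND2I
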