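import Mathlib

/-!
# IND2I, module MomR: truncation of certificates with the help of a right end point

`cmp` says that all kernels are dominated by the positive kernel `kr = k r₀` with a gain `e^{-γ u}`.
PROOF.  For `T ≥ 1` let `N = ∑_{θ ∈ Z} n θ(ℝ)`, `η = C (∑_{θ∈Z} n θ {|x| > T/2} + e^{-γ T/2} (N + 1))`, `n' θ = (n θ).restrict [-T, T]`, plus
`η (δ_T + δ_{-T})` for `θ = r₀`.  `η → 0` and `n θ {|x| > T} → 0` as `T → ∞`, which gives the last claim for `T` large.  Certificate:
`|y| ≤ T`: new sum `= old sum - ∑ ∫_{|x|>T} k θ (x - y) dn θ + η (kr (T - y) + kr (-T - y))`; for `x > T`: `x - y = (T - y) + (x - T)`,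
`|k θ (x - y)| ≤ C kr (T - y)`; for `x < -T`: `x - y = (-T - y) - (-T - x)`, `|k θ (x - y)| ≤ C kr (-T - y)`; `η ≥ C ∑ n θ {|x| > T}`.
`y > T`: `|x| ≤ T`: `x - y = (T - y) - (T - x)`, `|k θ (x - y)| ≤ C e^{-γ (T - x)} kr (T - y)`, and `∫_{|x| ≤ T} e^{-γ (T - x)} dn θ ≤ n θ {|x| > T/2}
+ e^{-γ T/2} n θ(ℝ)`; `-y = (T - y) - T`: `|k t (-y)| ≤ C e^{-γ T} kr (T - y)`.  So the new sum minus `k t (-y)` is
`≥ kr (T - y) (η - C ∑ (n θ {|x| > T/2} + e^{-γ T/2} n θ(ℝ)) - C e^{-γ T}) ≥ 0`.  `y < -T`: symmetric (`x - y = (-T - y) + (x + T)`).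
-/

set_option autoImplicit false

namespace Pool.Agent.IND2I

open MeasureTheory Set

namespace MR

theorem tail_tendsto (ν : Measure ℝ) [IsFiniteMeasure ν] :
    Filter.Tendsto (fun T : ℝ => ν.real {x | T / 2 < |x|}) Filter.atTop (nhds 0) := by
  have h1 : IsTightMeasureSet ({ν} : Set (Measure ℝ)) := isTightMeasureSet_singleton
  have h2 := tendsto_measure_norm_gt_of_isTightMeasureSet h1
  simp only [mem_singleton_iff, iSup_iSup_eq_left] at h2
  have h3 : Filter.Tendsto (fun T : ℝ => T / 2) Filter.atTop Filter.atTop :=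
    Filter.tendsto_id.atTop_div_const (by norm_num)
  have h4 := (ENNReal.tendsto_toReal ENNReal.zero_ne_top).comp (h2.comp h3)
  rw [ENNReal.toReal_zero] at h4
  exact h4

theorem int_bound {ν : Measure ℝ} [IsFiniteMeasure ν] {g : ℝ → ℝ} {A e T : ℝ} (hA : 0 ≤ A)
    (he : 0 ≤ e) (I : Set ℝ) (hI : MeasurableSet I)
    (hg : ∀ x ∈ I, |g x| ≤ A * ({x : ℝ | T / 2 < |x|}.indicator (fun _ => 1) x + e)) :
    |∫ x in I, g x ∂ν| ≤ A * (ν.real {x : ℝ | T / 2 < |x|} + e * ν.real univ) := by
  have hm : MeasurableSet {x : ℝ | T / 2 < |x|} := measurableSet_lt measurable_const (by fun_prop)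
  have hind : ∀ x : ℝ, 0 ≤ {x : ℝ | T / 2 < |x|}.indicator (fun _ => (1 : ℝ)) x := by
    intro x
    exact Set.indicator_nonneg (fun _ _ => zero_le_one) x
  have hint : Integrable (fun x =>
      A * ({x : ℝ | T / 2 < |x|}.indicator (fun _ => (1 : ℝ)) x + e)) ν :=
    (((integrable_const _).indicator hm).add (integrable_const _)).const_mul _
  have h1 : |∫ x in I, g x ∂ν| ≤
      ∫ x in I, A * ({x : ℝ | T / 2 < |x|}.indicator (fun _ => (1 : ℝ)) x + e) ∂ν := by
    rw [← Real.norm_eq_abs]
    apply norm_integral_le_of_norm_le hint.integrableOn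
    filter_upwards [ae_restrict_mem hI] with x hx
    rw [Real.norm_eq_abs]
    exact hg x hx
  refine h1.trans ?_
  have h2 : ∫ x in I, A * ({x : ℝ | T / 2 < |x|}.indicator (fun _ => (1 : ℝ)) x + e) ∂ν ≤
      ∫ x, A * ({x : ℝ | T / 2 < |x|}.indicator (fun _ => (1 : ℝ)) x + e) ∂ν := by
    apply setIntegral_le_integral hint
    exact Filter.Eventually.of_forall fun x => mul_nonneg hA (add_nonneg (hind x) he)
  refine h2.trans (le_of_eq ?_)
  rw [integral_const_mul, integral_add ((integrable_const _).indicator hm) (integrable_const _),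
    integral_indicator_const _ hm, integral_const, smul_eq_mul, smul_eq_mul, mul_one,
    mul_comm (ν.real univ)]

end MR

open MR in
theorem mom_r {Θ : Type} {k : Θ → ℝ → ℝ} {γ C : ℝ} (hγ0 : 0 < γ) (hC : 1 ≤ C) {Z : Finset Θ}
    {t r₀ : Θ} (hr₀ : r₀ ∈ Z) (hcont : ∀ θ ∈ Z, Continuous (k θ)) (hpos : ∀ s, 0 < k r₀ s)
    (hcmp : ∀ θ, (θ ∈ Z ∨ θ = t) → (∀ s u, 0 ≤ s → 0 ≤ u →
      |k θ (s + u)| ≤ C * Real.exp (-(γ * u)) * k r₀ s) ∧ (∀ s u, s ≤ 0 → 0 ≤ u →
      |k θ (s - u)| ≤ C * Real.exp (-(γ * u)) * k r₀ s)) {n : Θ → Measure ℝ}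
    (hn : ∀ θ ∈ Z, IsFiniteMeasure (n θ))
    (hcert : ∀ y, k t (-y) ≤ ∑ θ ∈ Z, ∫ x, k θ (x - y) ∂(n θ)) {δ : ℝ} (hδ : 0 < δ) :
    ∃ (n' : Θ → Measure ℝ) (T : ℝ), (∀ θ ∈ Z, IsFiniteMeasure (n' θ)) ∧
      (∀ θ ∈ Z, n' θ (Icc (-T) T)ᶜ = 0) ∧
      (∀ y, k t (-y) ≤ ∑ θ ∈ Z, ∫ x, k θ (x - y) ∂(n' θ)) ∧
      ∀ θ ∈ Z, |(n' θ).real univ - (n θ).real univ| ≤ δ := by
  classical
  have hkr0 : ∀ s, 0 ≤ k r₀ s := fun s => (hpos s).le
  have hC0 : 0 ≤ C := by linarith
  have hbd : ∀ θ ∈ Z, ∀ s, |k θ s| ≤ C * k r₀ 0 := by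
    intro θ hθ s
    rcases le_total 0 s with hs | hs
    · have h1 := (hcmp θ (Or.inl hθ)).1 0 s le_rfl hs
      rw [zero_add] at h1
      refine h1.trans ?_
      have h2 : Real.exp (-(γ * s)) ≤ 1 := by
        rw [Real.exp_le_one_iff]
        have := mul_nonneg hγ0.le hs
        linarith
      calc C * Real.exp (-(γ * s)) * k r₀ 0 ≤ C * 1 * k r₀ 0 :=
            mul_le_mul_of_nonneg_right (mul_le_mul_of_nonneg_left h2 hC0) (hkr0 0)
        _ = C * k r₀ 0 := by ring
    · have h1 := (hcmp θ (Or.inl hθ)).2 0 (-s) le_rfl (by linarith)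
      rw [zero_sub, neg_neg] at h1
      refine h1.trans ?_
      have h2 : Real.exp (-(γ * -s)) ≤ 1 := by
        rw [Real.exp_le_one_iff]
        have := mul_nonneg hγ0.le (neg_nonneg.2 hs)
        linarith
      calc C * Real.exp (-(γ * -s)) * k r₀ 0 ≤ C * 1 * k r₀ 0 :=
            mul_le_mul_of_nonneg_right (mul_le_mul_of_nonneg_left h2 hC0) (hkr0 0)
        _ = C * k r₀ 0 := by ring
  have hint : ∀ θ ∈ Z, ∀ (y : ℝ) (ρ : Measure ℝ), IsFiniteMeasure ρ →
      Integrable (fun x => k θ (x - y)) ρ := by
    intro θ hθ y ρ hρ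
    refine Integrable.of_bound ?_ (C * k r₀ 0) (Filter.Eventually.of_forall fun x => ?_)
    · exact ((hcont θ hθ).comp (by fun_prop)).aestronglyMeasurable
    · rw [Real.norm_eq_abs]; exact hbd θ hθ _
  set Nn : ℝ := ∑ θ ∈ Z, (n θ).real univ with hNn
  have hNn0 : 0 ≤ Nn := Finset.sum_nonneg fun _ _ => measureReal_nonneg
  let η : ℝ → ℝ := fun T => C * (∑ θ ∈ Z, (n θ).real {x | T / 2 < |x|} +
    Real.exp (-(γ * (T / 2))) * (Nn + 1))
  have hη0 : ∀ T, 0 ≤ η T := by
    intro T
    apply mul_nonneg hC0
    apply add_nonneg (Finset.sum_nonneg fun _ _ => measureReal_nonneg)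
    positivity
  have hηlim : Filter.Tendsto η Filter.atTop (nhds 0) := by
    have h1 : Filter.Tendsto (fun T : ℝ => ∑ θ ∈ Z, (n θ).real {x | T / 2 < |x|}) Filter.atTop
        (nhds (∑ θ ∈ Z, 0)) := by
      apply tendsto_finsetSum
      intro θ hθ
      have := hn θ hθ
      exact tail_tendsto (n θ)
    have h2 : Filter.Tendsto (fun T : ℝ => Real.exp (-(γ * (T / 2))) * (Nn + 1)) Filter.atTop
        (nhds (0 * (Nn + 1))) := by
      apply Filter.Tendsto.mul_const
      apply Real.tendsto_exp_neg_atTop_nhds_zero.comp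
      apply Filter.Tendsto.const_mul_atTop hγ0
      exact Filter.tendsto_id.atTop_div_const (by norm_num)
    have h3 := (h1.add h2).const_mul C
    rw [Finset.sum_const_zero, zero_mul, add_zero, mul_zero] at h3
    exact h3
  have hev : ∀ᶠ T in Filter.atTop, 0 < T ∧ η T ≤ δ / 4 ∧
      ∀ θ ∈ Z, (n θ).real {x | T / 2 < |x|} ≤ δ / 2 := by
    refine (Filter.eventually_gt_atTop 0).and ((hηlim.eventually_le_const (by linarith)).and ?_)
    rw [Filter.eventually_all_finset]
    intro θ hθ
    have := hn θ hθ
    exact (tail_tendsto (n θ)).eventually_le_const (by linarith)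
  obtain ⟨T, hT, hηT, hτT⟩ := hev.exists
  set e : ℝ := η T with he
  have he0 : 0 ≤ e := hη0 T
  have hexp0 : 0 ≤ Real.exp (-(γ * (T / 2))) := (Real.exp_pos _).le
  have hTI : T ∈ Icc (-T) T := ⟨by linarith, le_rfl⟩
  have hTI' : -T ∈ Icc (-T) T := ⟨le_rfl, by linarith⟩
  have hcompl : (Icc (-T) T)ᶜ ⊆ {x : ℝ | T / 2 < |x|} := by
    intro x hx
    have h1 : ¬ |x| ≤ T := fun h => hx (abs_le.1 h)
    push Not at h1
    change T / 2 < |x|
    linarith
  let cf : Θ → ℝ := fun θ => if θ = r₀ then e else 0
  have hcf0 : ∀ θ, 0 ≤ cf θ := by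
    intro θ
    simp only [cf]
    split_ifs
    · exact he0
    · exact le_rfl
  have hcfe : ∀ θ, cf θ ≤ e := by
    intro θ
    simp only [cf]
    split_ifs
    · exact le_rfl
    · exact he0
  let n' : Θ → Measure ℝ := fun θ => (n θ).restrict (Icc (-T) T) +
    ENNReal.ofReal (cf θ) • (Measure.dirac T + Measure.dirac (-T))
  have hfin2 : ∀ θ, IsFiniteMeasure (ENNReal.ofReal (cf θ) •
      (Measure.dirac T + Measure.dirac (-T) : Measure ℝ)) := fun θ =>
    Measure.smul_finite _ ENNReal.ofReal_ne_top
  have hfin' : ∀ θ ∈ Z, IsFiniteMeasure (n' θ) := by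
    intro θ hθ
    have := hn θ hθ
    have := hfin2 θ
    simp only [n']
    infer_instance
  have hI : ∀ θ ∈ Z, ∀ y, ∫ x, k θ (x - y) ∂(n' θ) =
      (∫ x in Icc (-T) T, k θ (x - y) ∂(n θ)) + cf θ * (k θ (T - y) + k θ (-T - y)) := by
    intro θ hθ y
    have := hn θ hθ
    have := hfin2 θ
    simp only [n']
    rw [integral_add_measure (hint θ hθ y _ inferInstance) (hint θ hθ y _ inferInstance),
      integral_smul_measure,
      integral_add_measure (hint θ hθ y _ inferInstance) (hint θ hθ y _ inferInstance),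
      integral_dirac, integral_dirac, ENNReal.toReal_ofReal (hcf0 θ), smul_eq_mul]
  have hsum : ∀ y, ∑ θ ∈ Z, ∫ x, k θ (x - y) ∂(n' θ) =
      ∑ θ ∈ Z, (∫ x in Icc (-T) T, k θ (x - y) ∂(n θ)) + e * (k r₀ (T - y) + k r₀ (-T - y)) := by
    intro y
    rw [Finset.sum_congr rfl fun θ hθ => hI θ hθ y, Finset.sum_add_distrib]
    congr 1
    rw [Finset.sum_eq_single r₀]
    · simp only [cf, if_true]
    · intro θ _ hne
      simp only [cf, if_neg hne, zero_mul]
    · intro h
      exact absurd hr₀ h
  refine ⟨n', T, hfin', ?_, ?_, ?_⟩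
  · intro θ hθ
    have h1 : (n θ).restrict (Icc (-T) T) (Icc (-T) T)ᶜ = 0 := by
      rw [Measure.restrict_apply measurableSet_Icc.compl, compl_inter_self, measure_empty]
    have h2 : (Measure.dirac T : Measure ℝ) (Icc (-T) T)ᶜ = 0 := by
      rw [Measure.dirac_apply' _ measurableSet_Icc.compl, Set.indicator_of_notMem]
      exact fun h => h hTI
    have h3 : (Measure.dirac (-T) : Measure ℝ) (Icc (-T) T)ᶜ = 0 := by
      rw [Measure.dirac_apply' _ measurableSet_Icc.compl, Set.indicator_of_notMem]
      exact fun h => h hTI'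
    simp only [n', Measure.add_apply, Measure.smul_apply, h1, h2, h3, add_zero, smul_zero]
  · intro y
    rw [hsum y]
    have ha0 := hkr0 (T - y)
    have hb0 := hkr0 (-T - y)
    rcases lt_or_ge T y with hy | hy
    · -- `y > T`
      have hb1 : ∀ θ ∈ Z, -(C * k r₀ (T - y) * ((n θ).real {x | T / 2 < |x|} +
          Real.exp (-(γ * (T / 2))) * (n θ).real univ)) ≤
          ∫ x in Icc (-T) T, k θ (x - y) ∂(n θ) := by
        intro θ hθ
        have := hn θ hθ
        have h1 := int_bound (ν := n θ) (g := fun x => k θ (x - y)) (A := C * k r₀ (T - y))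
          (e := Real.exp (-(γ * (T / 2)))) (T := T) (by positivity) hexp0 (Icc (-T) T)
          measurableSet_Icc (by
            intro x hx
            have h2 := (hcmp θ (Or.inl hθ)).2 (T - y) (T - x) (by linarith) (by linarith [hx.2])
            have h3 : T - y - (T - x) = x - y := by ring
            rw [h3] at h2
            refine h2.trans ?_
            have h4 : Real.exp (-(γ * (T - x))) ≤
                {x : ℝ | T / 2 < |x|}.indicator (fun _ => 1) x + Real.exp (-(γ * (T / 2))) := by
              by_cases hx2 : T / 2 < |x|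
              · rw [Set.indicator_of_mem (by exact hx2)]
                have h5 : Real.exp (-(γ * (T - x))) ≤ 1 := by
                  rw [Real.exp_le_one_iff]
                  have := mul_nonneg hγ0.le (sub_nonneg.2 hx.2)
                  linarith
                linarith
              · rw [Set.indicator_of_notMem (by exact hx2), zero_add]
                push Not at hx2
                apply Real.exp_le_exp.2
                have h5 : T / 2 ≤ T - x := by linarith [le_abs_self x]
                have := mul_le_mul_of_nonneg_left h5 hγ0.le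
                linarith
            calc C * Real.exp (-(γ * (T - x))) * k r₀ (T - y) =
                C * k r₀ (T - y) * Real.exp (-(γ * (T - x))) := by ring
              _ ≤ _ := mul_le_mul_of_nonneg_left h4 (by positivity))
        exact (abs_le.1 h1).1
      have hb2 := Finset.sum_le_sum hb1
      rw [Finset.sum_neg_distrib, ← Finset.mul_sum, Finset.sum_add_distrib, ← Finset.mul_sum,
        ← hNn] at hb2
      have ht1 := (hcmp t (Or.inr rfl)).2 (T - y) T (by linarith) hT.le
      have ht2 : T - y - T = -y := by ring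
      rw [ht2] at ht1
      have ht3 : k t (-y) ≤ C * Real.exp (-(γ * (T / 2))) * k r₀ (T - y) := by
        refine (le_abs_self _).trans (ht1.trans ?_)
        apply mul_le_mul_of_nonneg_right _ ha0
        apply mul_le_mul_of_nonneg_left _ hC0
        apply Real.exp_le_exp.2
        have := mul_pos hγ0 hT
        linarith
      have he1 : e * k r₀ (T - y) = C * k r₀ (T - y) * (∑ θ ∈ Z, (n θ).real {x | T / 2 < |x|} +
          Real.exp (-(γ * (T / 2))) * Nn) + C * Real.exp (-(γ * (T / 2))) * k r₀ (T - y) := by
        rw [he]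
        simp only [η]
        ring
      have he2 : 0 ≤ e * k r₀ (-T - y) := mul_nonneg he0 hb0
      rw [mul_add]
      linarith
    · rcases lt_or_ge y (-T) with hy' | hy'
      · -- `y < -T`
        have hb1 : ∀ θ ∈ Z, -(C * k r₀ (-T - y) * ((n θ).real {x | T / 2 < |x|} +
            Real.exp (-(γ * (T / 2))) * (n θ).real univ)) ≤
            ∫ x in Icc (-T) T, k θ (x - y) ∂(n θ) := by
          intro θ hθ
          have := hn θ hθ
          have h1 := int_bound (ν := n θ) (g := fun x => k θ (x - y)) (A := C * k r₀ (-T - y))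
            (e := Real.exp (-(γ * (T / 2)))) (T := T) (by positivity) hexp0 (Icc (-T) T)
            measurableSet_Icc (by
              intro x hx
              have h2 := (hcmp θ (Or.inl hθ)).1 (-T - y) (x + T) (by linarith)
                (by linarith [hx.1])
              have h3 : -T - y + (x + T) = x - y := by ring
              rw [h3] at h2
              refine h2.trans ?_
              have h4 : Real.exp (-(γ * (x + T))) ≤
                  {x : ℝ | T / 2 < |x|}.indicator (fun _ => 1) x + Real.exp (-(γ * (T / 2))) := by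
                by_cases hx2 : T / 2 < |x|
                · rw [Set.indicator_of_mem (by exact hx2)]
                  have h5 : Real.exp (-(γ * (x + T))) ≤ 1 := by
                    rw [Real.exp_le_one_iff]
                    have := mul_nonneg hγ0.le (by linarith [hx.1] : 0 ≤ x + T)
                    linarith
                  linarith
                · rw [Set.indicator_of_notMem (by exact hx2), zero_add]
                  push Not at hx2
                  apply Real.exp_le_exp.2
                  have h5 : T / 2 ≤ x + T := by linarith [neg_abs_le x]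
                  have := mul_le_mul_of_nonneg_left h5 hγ0.le
                  linarith
              calc C * Real.exp (-(γ * (x + T))) * k r₀ (-T - y) =
                  C * k r₀ (-T - y) * Real.exp (-(γ * (x + T))) := by ring
                _ ≤ _ := mul_le_mul_of_nonneg_left h4 (by positivity))
          exact (abs_le.1 h1).1
        have hb2 := Finset.sum_le_sum hb1
        rw [Finset.sum_neg_distrib, ← Finset.mul_sum, Finset.sum_add_distrib, ← Finset.mul_sum,
          ← hNn] at hb2
        have ht1 := (hcmp t (Or.inr rfl)).1 (-T - y) T (by linarith) hT.le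
        have ht2 : -T - y + T = -y := by ring
        rw [ht2] at ht1
        have ht3 : k t (-y) ≤ C * Real.exp (-(γ * (T / 2))) * k r₀ (-T - y) := by
          refine (le_abs_self _).trans (ht1.trans ?_)
          apply mul_le_mul_of_nonneg_right _ hb0
          apply mul_le_mul_of_nonneg_left _ hC0
          apply Real.exp_le_exp.2
          have := mul_pos hγ0 hT
          linarith
        have he1 : e * k r₀ (-T - y) = C * k r₀ (-T - y) *
            (∑ θ ∈ Z, (n θ).real {x | T / 2 < |x|} +
            Real.exp (-(γ * (T / 2))) * Nn) + C * Real.exp (-(γ * (T / 2))) * k r₀ (-T - y) := by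
          rw [he]
          simp only [η]
          ring
        have he2 : 0 ≤ e * k r₀ (T - y) := mul_nonneg he0 ha0
        rw [mul_add]
        linarith
      · -- `|y| ≤ T`
        have hb1 : ∀ θ ∈ Z, (∫ x, k θ (x - y) ∂(n θ)) -
            C * (k r₀ (T - y) + k r₀ (-T - y)) * (n θ).real {x | T / 2 < |x|} ≤
            ∫ x in Icc (-T) T, k θ (x - y) ∂(n θ) := by
          intro θ hθ
          have := hn θ hθ
          have h1 := integral_add_compl (μ := n θ) (s := Icc (-T) T) measurableSet_Icc
            (hint θ hθ y _ inferInstance)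
          have h2 : ‖∫ x in (Icc (-T) T)ᶜ, k θ (x - y) ∂(n θ)‖ ≤
              C * (k r₀ (T - y) + k r₀ (-T - y)) * (n θ).real (Icc (-T) T)ᶜ := by
            apply norm_setIntegral_le_of_norm_le_const (measure_lt_top _ _)
            intro x hx
            rw [Real.norm_eq_abs]
            have h3 : T < x ∨ x < -T := by
              by_contra hcon
              push Not at hcon
              exact hx ⟨hcon.2, hcon.1⟩
            rcases h3 with h3 | h3
            · have h4 := (hcmp θ (Or.inl hθ)).1 (T - y) (x - T) (by linarith) (by linarith)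
              have h5 : T - y + (x - T) = x - y := by ring
              rw [h5] at h4
              refine h4.trans ?_
              have h6 : Real.exp (-(γ * (x - T))) ≤ 1 := by
                rw [Real.exp_le_one_iff]
                have := mul_nonneg hγ0.le (by linarith : 0 ≤ x - T)
                linarith
              calc C * Real.exp (-(γ * (x - T))) * k r₀ (T - y) ≤ C * 1 * k r₀ (T - y) :=
                    mul_le_mul_of_nonneg_right (mul_le_mul_of_nonneg_left h6 hC0) ha0
                _ ≤ C * (k r₀ (T - y) + k r₀ (-T - y)) := by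
                    have := mul_nonneg hC0 hb0
                    linarith
            · have h4 := (hcmp θ (Or.inl hθ)).2 (-T - y) (-T - x) (by linarith) (by linarith)
              have h5 : -T - y - (-T - x) = x - y := by ring
              rw [h5] at h4
              refine h4.trans ?_
              have h6 : Real.exp (-(γ * (-T - x))) ≤ 1 := by
                rw [Real.exp_le_one_iff]
                have := mul_nonneg hγ0.le (by linarith : 0 ≤ -T - x)
                linarith
              calc C * Real.exp (-(γ * (-T - x))) * k r₀ (-T - y) ≤ C * 1 * k r₀ (-T - y) :=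
                    mul_le_mul_of_nonneg_right (mul_le_mul_of_nonneg_left h6 hC0) hb0
                _ ≤ C * (k r₀ (T - y) + k r₀ (-T - y)) := by
                    have := mul_nonneg hC0 ha0
                    linarith
          rw [Real.norm_eq_abs] at h2
          have h3 : (n θ).real (Icc (-T) T)ᶜ ≤ (n θ).real {x | T / 2 < |x|} :=
            measureReal_mono hcompl (measure_ne_top _ _)
          have h4 : C * (k r₀ (T - y) + k r₀ (-T - y)) * (n θ).real (Icc (-T) T)ᶜ ≤
              C * (k r₀ (T - y) + k r₀ (-T - y)) * (n θ).real {x | T / 2 < |x|} :=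
            mul_le_mul_of_nonneg_left h3 (by positivity)
          have h5 := (abs_le.1 h2).2
          linarith
        have hb2 := Finset.sum_le_sum hb1
        rw [Finset.sum_sub_distrib, ← Finset.mul_sum] at hb2
        have hc := hcert y
        have he1 : C * (k r₀ (T - y) + k r₀ (-T - y)) *
            (∑ θ ∈ Z, (n θ).real {x | T / 2 < |x|}) ≤ e * (k r₀ (T - y) + k r₀ (-T - y)) := by
          rw [he]
          simp only [η]
          have h1 : 0 ≤ C * (k r₀ (T - y) + k r₀ (-T - y)) *
              (Real.exp (-(γ * (T / 2))) * (Nn + 1)) := by positivity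
          linarith
        linarith
  · intro θ hθ
    have := hn θ hθ
    have h1 : (n' θ).real univ = (n θ).real (Icc (-T) T) + cf θ * 2 := by
      have h2 : (n' θ).real univ = ∫ _x, (1 : ℝ) ∂(n' θ) := by
        rw [integral_const, smul_eq_mul, mul_one]
      have := hfin2 θ
      rw [h2]
      simp only [n']
      rw [integral_add_measure (integrable_const _) (integrable_const _), integral_smul_measure,
        integral_add_measure (integrable_const _) (integrable_const _), integral_dirac,
        integral_dirac, ENNReal.toReal_ofReal (hcf0 θ), integral_const, smul_eq_mul, smul_eq_mul,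
        measureReal_restrict_apply_univ, mul_one]
      norm_num
    have h2 : (n θ).real (Icc (-T) T) + (n θ).real (Icc (-T) T)ᶜ = (n θ).real univ :=
      measureReal_add_measureReal_compl measurableSet_Icc
    have h3 : (n θ).real (Icc (-T) T)ᶜ ≤ (n θ).real {x | T / 2 < |x|} :=
      measureReal_mono hcompl (measure_ne_top _ _)
    have h4 := hτT θ hθ
    have h5 : 0 ≤ (n θ).real (Icc (-T) T)ᶜ := measureReal_nonneg
    have h6 := hcf0 θ
    have h7 := hcfe θ
    rw [h1, abs_le]
    constructor <;> linarith

end Pool.Agent.IND2I
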