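import Pool.Agent.IND2I.PlanL
import Pool.Agent.IND2I.CertMV
import Pool.Agent.IND2I.PatchZ
import Pool.Agent.IND2I.MomR
import Pool.Agent.IND2I.Cons

/-!
# IND2I, module ClR: the construction when some right end point is in `S`

PROOF.  `Z` = the finite set of zeros of `bb p` in `[0, π]` (`finite_zeros`, `bb_zero`: every element is `LE` or `RE`); it contains `r₀` with `h r₀ ≠ ⊤`.
By `cons_rr` all `h r ≠ ⊤`; by `cons_lr` all values on `Z` are real: `h θ = H θ`, `H l ≤ 0 ≤ H r`, and with `I l = ∫ |kk l| > 0`, `J r = ∫ kk r > 0`: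
`-H l/I l ≤ H r/J r` for all `l, r`.  (For `LE l`: `H l` real by `cons_lr` with `r₀`; for `RE r`: `0 ≤ h r < ⊤` by `H.right`.)
`a := max (0, max_l (-H l/I l))`, so `a J r ≤ H r` and `a I l ≥ -H l` for all `l, r`; if `a = 0` then `H l = 0` for all `l`.
`ε j = 1/(j+1)`; `a j = a` if `a > 0`, `a j = ε j/(2 J*)`, `J* = 1 + max_r J r` if `a = 0` (antitone, positive).
Plan: `k = kk p`, `β = bt p`, `F j = Z`, `c j θ = H θ + ε j`, `t` from `enum_inf` for `Z`, `v j = H (t j) - ε j`, `f = 0`, `γ = 1/2`, `C` from `unif` for `Z`.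
`hP`: `patchZ` with `F = Z`: `hfe`: `a j ∫ kk θ < H θ + ε j` (`l`: `-a j I l ≤ H l` if `a > 0`, `< 0 + ε` if `a = 0`; `r`: `a j J r ≤ H r` or `≤ ε j/2`);
`htr`: `a j ∫_{Ioi u} + a (j+1) ∫_{Iio u}`: if `a > 0` it is `a ∫ kk θ`; if `a = 0`: for `l` it is `≤ 0 ≤ c`, for `r` it is `≤ a j J r ≤ ε j ≤ c`.
`hM`: let `n` be a finite certificate on `Z` for `t = t j`.  `mom_r` (`kz_cmp` with `r₀`, `Z` and `t ∈ Z`) gives for every `δ > 0` a compactly supported
certificate `n'` with `|n' θ(ℝ) - n θ(ℝ)| ≤ δ`; it is an `FCert`; `cert_MV` with `c := H`, `v' < H t` gives `v' < ∑ H θ n' θ(ℝ) ≤ ∑ H θ n θ(ℝ) + δ ∑ |H θ|`,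
for all `v' < H t`, `δ > 0`: `H t ≤ ∑ H θ n θ(ℝ) ≤ ∑ c θ n θ(ℝ)`, and `v < H t`.
`plan_lim`: `UL ≤ h` on `Z` (`c j θ + 2 ε j = H θ + 3 ε j → H θ`) and `h ≤ UL` on `Z` (`v j - 2 ε j = H t - 3 ε j` infinitely often).
-/

set_option autoImplicit false

namespace Pool.Agent.IND2I

open MeasureTheory Set Filter Helper25.Ind

namespace CR

theorem kint {γ C : ℝ} {k : ℝ → ℝ} (hγ0 : 0 < γ) (hk : KTar γ C 0 k) : Integrable k := by
  rw [← integrableOn_univ, ← Iic_union_Ioi (a := (0 : ℝ))]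
  refine IntegrableOn.union ?_ ?_
  · refine Integrable.mono' ((integrableOn_exp_Iic 0).const_mul C) hk.cont.aestronglyMeasurable ?_
    refine (ae_restrict_iff' measurableSet_Iic).2 (Filter.Eventually.of_forall fun s hs => ?_)
    rw [Real.norm_eq_abs]
    exact hk.left s hs
  · simpa using ktar_tail_int hγ0 hk 0

theorem split {k : ℝ → ℝ} (hk : Integrable k) (u : ℝ) :
    (∫ s in Ioi u, k s) + (∫ s in Iio u, k s) = ∫ s, k s := by
  rw [add_comm, ← integral_Iic_eq_integral_Iio,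
    intervalIntegral.integral_Iic_add_Ioi hk.integrableOn hk.integrableOn]

theorem posint {f : ℝ → ℝ} (hf : ∀ s, 0 < f s) (hi : Integrable f) : 0 < ∫ s, f s := by
  rw [integral_pos_iff_support_of_nonneg (fun s => (hf s).le) hi]
  have h1 : Function.support f = univ := by
    ext s
    simp only [Function.mem_support, mem_univ, iff_true]
    exact (hf s).ne'
  rw [h1, Real.volume_univ]
  exact ENNReal.zero_lt_top

theorem eps_ev {δ : ℝ} (hδ : 0 < δ) : ∀ᶠ j : ℕ in atTop, 1 / ((j : ℝ) + 1) ≤ δ :=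
  (tendsto_one_div_add_atTop_nhds_zero_nat (𝕜 := ℝ)).eventually_le_const hδ

end CR

open CR in
theorem constr_R {p : ℕ} (hp : 1 ≤ p) {h : ℝ → EReal} (H : IntCond p h)
    (hR : ∃ r, RE p r ∧ h r ≠ ⊤) : ∃ ρ : ℝ → ℝ, Dens ρ ∧
      ∀ θ ∈ Icc (0 : ℝ) Real.pi, bb p θ = 0 → UL p ρ θ = h θ := by
  classical
  obtain ⟨r₀, hr₀, hr₀t⟩ := hR
  set Z : Finset ℝ := (finite_zeros hp).toFinset with hZdef
  have hZ : ∀ θ, θ ∈ Z ↔ θ ∈ Icc (0 : ℝ) Real.pi ∧ bb p θ = 0 := by
    intro θ
    rw [hZdef, Set.Finite.mem_toFinset]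
    rfl
  have hr₀f := RE_facts hp hr₀
  have hr₀Z : r₀ ∈ Z := (hZ r₀).2 ⟨⟨hr₀f.1.le, hr₀f.2.1.le⟩, hr₀f.2.2.1⟩
  have hcase : ∀ θ ∈ Z, LE p θ ∨ RE p θ := fun θ hθ =>
    bb_zero hp ((hZ θ).1 hθ).1 ((hZ θ).1 hθ).2
  have hnot : ∀ θ : ℝ, LE p θ → RE p θ → False := fun θ h1 h2 => by
    have := h1.2.2.2
    have := h2.2.2.2
    linarith
  have hlt : ∀ θ ∈ Z, 0 ≤ θ ∧ θ < Real.pi := by
    intro θ hθ
    rcases hcase θ hθ with h1 | h1
    · exact ⟨(LE_facts hp h1).1.le, (LE_facts hp h1).2.1⟩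
    · exact ⟨(RE_facts hp h1).1.le, (RE_facts hp h1).2.1⟩
  have hbt : ∀ θ ∈ Z, bt p θ = 0 := by
    intro θ hθ
    unfold bt
    rw [((hZ θ).1 hθ).2, neg_zero, zero_div]
  have hREt : ∀ r, RE p r → h r ≠ ⊤ := fun r hr => cons_rr hp H hr hr₀ hr₀t
  have hREv : ∀ r, RE p r → h r = (((h r).toReal : ℝ) : EReal) := by
    intro r hr
    refine (EReal.coe_toReal (hREt r hr) ?_).symm
    intro hb
    have := H.right r hr
    rw [hb] at this
    exact absurd this (by simp)
  have hRE0 : ∀ r, RE p r → 0 ≤ (h r).toReal := by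
    intro r hr
    have h1 := H.right r hr
    rw [hREv r hr] at h1
    exact_mod_cast h1
  have hLEv : ∀ l, LE p l → h l = (((h l).toReal : ℝ) : EReal) ∧ (h l).toReal ≤ 0 := by
    intro l hl
    obtain ⟨x, y, hx, -, hx0, -, -⟩ := cons_lr hp H hl hr₀ hr₀t
    rw [hx, EReal.toReal_coe]
    exact ⟨rfl, hx0⟩
  have hLR : ∀ l r, LE p l → RE p r →
      0 ≤ (h l).toReal * (∫ s, kk p r s) + (h r).toReal * ∫ s, |kk p l s| := by
    intro l r hl hr
    obtain ⟨x, y, hx, hy, -, -, hxy⟩ := cons_lr hp H hl hr (hREt r hr)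
    rw [hx, hy, EReal.toReal_coe, EReal.toReal_coe]
    exact hxy
  have hval : ∀ θ ∈ Z, h θ = (((h θ).toReal : ℝ) : EReal) := by
    intro θ hθ
    rcases hcase θ hθ with h1 | h1
    · exact (hLEv θ h1).1
    · exact hREv θ h1
  obtain ⟨C, c₀, L, hC, hc₀, hL, hKT, -, -⟩ := unif hp Z hlt
  have hkt0 : ∀ θ ∈ Z, KTar (1 / 2) C 0 (kk p θ) := by
    intro θ hθ
    have := hKT θ hθ
    rwa [hbt θ hθ] at this
  have hki : ∀ θ ∈ Z, Integrable (kk p θ) := fun θ hθ => kint (by norm_num) (hkt0 θ hθ)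
  have hneg : ∀ l, LE p l → ∀ s, kk p l s < 0 := by
    intro l hl
    have hf := LE_facts hp hl
    exact pattern_neg p ⟨hf.1.le, hf.2.1.le⟩ hf.2.2.2.le hf.2.2.1.le
  have hpos : ∀ r, RE p r → ∀ s, 0 < kk p r s := by
    intro r hr
    have hf := RE_facts hp hr
    exact pattern_pos p ⟨hf.1.le, hf.2.1.le⟩ hf.2.2.2.le hf.2.2.1.ge
  have hLEZ : ∀ l, LE p l → l ∈ Z := by
    intro l hl
    have hf := LE_facts hp hl
    exact (hZ l).2 ⟨⟨hf.1.le, hf.2.1.le⟩, hf.2.2.1⟩
  have hREZ : ∀ r, RE p r → r ∈ Z := by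
    intro r hr
    have hf := RE_facts hp hr
    exact (hZ r).2 ⟨⟨hf.1.le, hf.2.1.le⟩, hf.2.2.1⟩
  set J : ℝ → ℝ := fun θ => ∫ s, |kk p θ s| with hJ
  have hJ0 : ∀ θ, 0 ≤ J θ := fun θ => integral_nonneg fun s => abs_nonneg _
  have hJpos : ∀ θ ∈ Z, 0 < J θ := by
    intro θ hθ
    refine posint (fun s => ?_) (hki θ hθ).abs
    rcases hcase θ hθ with h1 | h1
    · exact abs_pos.2 (hneg θ h1 s).ne
    · exact abs_pos.2 (hpos θ h1 s).ne'
  have hJl : ∀ l, LE p l → ∫ s, kk p l s = -J l := by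
    intro l hl
    rw [hJ]
    simp only
    rw [← integral_neg]
    congr 1
    funext s
    rw [abs_of_neg (hneg l hl s), neg_neg]
  have hJr : ∀ r, RE p r → ∫ s, kk p r s = J r := by
    intro r hr
    rw [hJ]
    simp only
    congr 1
    funext s
    rw [abs_of_pos (hpos r hr s)]
  -- the density `a`
  obtain ⟨a, ha0, haL, haR⟩ : ∃ a : ℝ, 0 ≤ a ∧ (∀ l, LE p l → -(h l).toReal ≤ a * J l) ∧
      ∀ r, RE p r → a * J r ≤ (h r).toReal := by
    let q : ℝ → ℝ := fun θ => if LE p θ then -(h θ).toReal / J θ else 0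
    obtain ⟨θs, hθs, hmax⟩ := Finset.exists_max_image Z q ⟨r₀, hr₀Z⟩
    refine ⟨q θs, ?_, ?_, ?_⟩
    · by_cases h1 : LE p θs
      · simp only [q, if_pos h1]
        exact div_nonneg (by linarith [(hLEv θs h1).2]) (hJ0 _)
      · simp only [q, if_neg h1]
        exact le_rfl
    · intro l hl
      have h1 := hmax l (hLEZ l hl)
      simp only [q, if_pos hl] at h1
      rwa [div_le_iff₀ (hJpos l (hLEZ l hl))] at h1
    · intro r hr
      by_cases h1 : LE p θs
      · simp only [q, if_pos h1]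
        have h2 := hLR θs r h1 hr
        rw [hJr r hr] at h2
        have h3 := hJpos θs hθs
        rw [div_mul_eq_mul_div, div_le_iff₀ h3]
        have h4 : (h r).toReal * (∫ s, |kk p θs s|) = (h r).toReal * J θs := rfl
        linarith
      · simp only [q, if_neg h1, zero_mul]
        exact hRE0 r hr
  set ε : ℕ → ℝ := fun j => 1 / ((j : ℝ) + 1) with hε
  have hε0 : ∀ j, 0 < ε j := fun j => Nat.one_div_pos_of_nat
  have hε1 : ∀ j, ε j ≤ 1 := by
    intro j
    rw [hε]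
    simp only
    rw [div_le_one (by positivity)]
    have : (0 : ℝ) ≤ j := Nat.cast_nonneg j
    linarith
  have hεa : ∀ j, ε (j + 1) ≤ ε j := fun j => Nat.one_div_le_one_div (Nat.le_succ j)
  set Js : ℝ := 1 + ∑ θ ∈ Z, J θ with hJs
  have hJs1 : 1 ≤ Js := by
    have := Finset.sum_nonneg (s := Z) (f := J) fun θ _ => hJ0 θ
    linarith
  have hJle : ∀ θ ∈ Z, J θ ≤ Js := by
    intro θ hθ
    have := Finset.single_le_sum (f := J) (fun θ _ => hJ0 θ) hθ
    linarith
  let e : ℕ → ℝ := fun j => if a = 0 then ε j / (2 * Js) else 0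
  have he0 : ∀ j, 0 ≤ e j := by
    intro j
    simp only [e]
    split_ifs
    · have := hε0 j
      positivity
    · exact le_rfl
  have hea : ∀ j, e (j + 1) ≤ e j := by
    intro j
    simp only [e]
    split_ifs
    · exact div_le_div_of_nonneg_right (hεa j) (by positivity)
    · exact le_rfl
  have heJ : ∀ j, ∀ θ ∈ Z, e j * J θ ≤ ε j / 2 := by
    intro j θ hθ
    have h1 := hε0 j
    simp only [e]
    split_ifs
    · rw [div_mul_eq_mul_div, div_le_div_iff₀ (by positivity) (by norm_num)]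
      have := hJle θ hθ
      nlinarith
    · rw [zero_mul]; linarith
  have hae : ∀ j, 0 < a + e j := by
    intro j
    simp only [e]
    split_ifs with h1
    · have := hε0 j
      rw [h1]
      positivity
    · rw [add_zero]
      exact lt_of_le_of_ne ha0 (Ne.symm h1)
  obtain ⟨t, ht, htinf⟩ := enum_inf (T := (Z : Set ℝ)) Z.countable_toSet ⟨r₀, hr₀Z⟩
  -- certificates
  have hmaj : ∀ τ ∈ Z, ∀ n : ℝ → Measure ℝ, (∀ θ ∈ Z, IsFiniteMeasure (n θ)) →
      (∀ y, kk p τ (-y) ≤ ∑ θ ∈ Z, ∫ x, kk p θ (x - y) ∂(n θ)) →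
      (h τ).toReal ≤ ∑ θ ∈ Z, (h θ).toReal * (n θ).real univ := by
    intro τ hτ n hn hcert
    obtain ⟨C', hC', hcmp⟩ := kz_cmp hp Z (fun θ hθ => ⟨(hlt θ hθ).1, (hlt θ hθ).2,
      ((hZ θ).1 hθ).2⟩) hr₀f.1.le hr₀f.2.1 hr₀f.2.2.1 hr₀f.2.2.2
    have key : ∀ δ : ℝ, 0 < δ → (h τ).toReal ≤
        ∑ θ ∈ Z, (h θ).toReal * (n θ).real univ + δ * ∑ θ ∈ Z, |(h θ).toReal| := by
      intro δ hδ
      obtain ⟨n', T, hn', hsupp, hcert', hclose⟩ := mom_r (Θ := ℝ) (k := fun θ => kk p θ)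
        (γ := 1 / 2) (C := C') (by norm_num) hC' (Z := Z) (t := τ) (r₀ := r₀) hr₀Z
        (fun θ hθ => (hkt0 θ hθ).cont) (hpos r₀ hr₀) (by
          intro θ hθ
          have hθ' : θ ∈ Z := by
            rcases hθ with h1 | h1
            · exact h1
            · rw [h1]; exact hτ
          exact hcmp θ hθ') hn hcert hδ
      have hF : FCert (fun θ => kk p θ) Z τ n' := by
        refine ⟨hn', ⟨1, one_pos, fun θ hθ => ?_⟩, hcert'⟩
        have := hn' θ hθ
        refine Integrable.of_bound (by fun_prop) (Real.exp T) ?_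
        have h1 : ∀ᵐ x ∂(n' θ), x ∈ Icc (-T) T := by
          rw [ae_iff]
          exact hsupp θ hθ
        filter_upwards [h1] with x hx
        rw [Real.norm_eq_abs, abs_of_pos (Real.exp_pos _), one_mul]
        exact Real.exp_le_exp.2 (abs_le.2 hx)
      have h2 : ∀ v' : ℝ, v' < (h τ).toReal → v' < ∑ θ ∈ Z, (h θ).toReal * (n' θ).real univ := by
        intro v' hv'
        refine (cert_MV hp H (F := Z) (fun θ hθ => ⟨((hZ θ).1 hθ).1, ?_⟩) ((hZ τ).1 hτ).1 ?_
          (c := fun θ => (h θ).toReal) (fun θ hθ => (hval θ hθ).le) (v := v') ?_ hF).1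
        · rw [hval θ hθ]; exact EReal.coe_ne_top _
        · rw [hval τ hτ]; exact EReal.coe_ne_bot _
        · rw [hval τ hτ]; exact_mod_cast hv'
      have h3 : (h τ).toReal ≤ ∑ θ ∈ Z, (h θ).toReal * (n' θ).real univ :=
        le_of_forall_lt fun v' hv' => h2 v' hv'
      refine h3.trans ?_
      rw [Finset.mul_sum, ← Finset.sum_add_distrib]
      apply Finset.sum_le_sum
      intro θ hθ
      have h4 := hclose θ hθ
      have h5 : (h θ).toReal * ((n' θ).real univ - (n θ).real univ) ≤ |(h θ).toReal| * δ := by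
        refine (le_abs_self _).trans ?_
        rw [abs_mul]
        exact mul_le_mul_of_nonneg_left h4 (abs_nonneg _)
      linarith
    refine le_of_forall_pos_le_add fun η hη => ?_
    set Sg : ℝ := ∑ θ ∈ Z, |(h θ).toReal| with hSg
    have hSg0 : 0 ≤ Sg := Finset.sum_nonneg fun _ _ => abs_nonneg _
    have h1 := key (η / (1 + Sg)) (by positivity)
    have h2 : η / (1 + Sg) * Sg ≤ η := by
      rw [div_mul_eq_mul_div, div_le_iff₀ (by positivity)]
      nlinarith
    linarith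
  -- the plan
  have hPex : ∀ j : ℕ, PatchEx (fun θ => kk p θ) (bt p) Z (fun θ => (h θ).toReal + ε j) (t j)
      ((h (t j)).toReal - ε j) (ε j) (a + e j) (a + e (j + 1)) := by
    intro j
    have hεj := hε0 j
    have htj : t j ∈ Z := ht j
    refine patchZ (γ := 1 / 2) (C := C) (by norm_num) (by norm_num) hC (F := Z) (Z := Z)
      (fun θ hθ => ⟨(hbt θ hθ).ge, hKT θ hθ⟩) (fun θ => ⟨fun hθ => ⟨hθ, hbt θ hθ⟩, fun h1 => h1.1⟩)
      (hbt _ htj) (hkt0 _ htj) (hε0 j) (hae j).le (hae (j + 1)).le ?_ ?_ ?_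
    · intro θ hθ
      have h2 := heJ j θ hθ
      rcases hcase θ hθ with h1 | h1
      · rw [hJl θ h1]
        have h3 := haL θ h1
        have h4 := mul_nonneg (he0 j) (hJ0 θ)
        linarith
      · rw [hJr θ h1]
        have h3 := haR θ h1
        linarith
    · intro θ hθ u
      have h2 := heJ j θ hθ
      have h2' := he0 j
      have h2'' := he0 (j + 1)
      have h2a := hea j
      have h5 := split (hki θ hθ) u
      rcases hcase θ hθ with h1 | h1
      · rw [hJl θ h1] at h5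
        have h3 := haL θ h1
        have h6 : ∫ s in Ioi u, kk p θ s ≤ 0 :=
          setIntegral_nonpos measurableSet_Ioi fun s _ => (hneg θ h1 s).le
        have h7 : ∫ s in Iio u, kk p θ s ≤ 0 :=
          setIntegral_nonpos measurableSet_Iio fun s _ => (hneg θ h1 s).le
        have h8 : e j * (∫ s in Ioi u, kk p θ s) ≤ 0 := mul_nonpos_of_nonneg_of_nonpos h2' h6
        have h9 : e (j + 1) * (∫ s in Iio u, kk p θ s) ≤ 0 :=
          mul_nonpos_of_nonneg_of_nonpos h2'' h7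
        have h10 : a * (∫ s in Ioi u, kk p θ s) + a * (∫ s in Iio u, kk p θ s) = -(a * J θ) := by
          rw [← mul_add, h5]; ring
        linarith
      · rw [hJr θ h1] at h5
        have h3 := haR θ h1
        have h7 : 0 ≤ ∫ s in Iio u, kk p θ s :=
          setIntegral_nonneg measurableSet_Iio fun s _ => (hpos θ h1 s).le
        have h9 : e (j + 1) * (∫ s in Iio u, kk p θ s) ≤ e j * (∫ s in Iio u, kk p θ s) :=
          mul_le_mul_of_nonneg_right h2a h7
        have h10 : (a + e j) * (∫ s in Ioi u, kk p θ s) + (a + e j) * (∫ s in Iio u, kk p θ s) =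
            a * J θ + e j * J θ := by
          rw [← mul_add, h5]; ring
        linarith
    · intro n hn hcert
      have h1 := hmaj (t j) htj n hn hcert
      have h2 : ∑ θ ∈ Z, (h θ).toReal * (n θ).real univ ≤
          ∑ θ ∈ Z, ((h θ).toReal + ε j) * (n θ).real univ := by
        apply Finset.sum_le_sum
        intro θ _
        have h3 : 0 ≤ (n θ).real univ := measureReal_nonneg
        have h4 := mul_nonneg hεj.le h3
        rw [add_mul]
        linarith
      linarith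
  let P : Plan ℝ :=
    { k := fun θ => kk p θ
      β := bt p
      F := fun _ => Z
      c := fun j θ => (h θ).toReal + ε j
      t := t
      v := fun j => (h (t j)).toReal - ε j
      ε := ε
      a := fun j => a + e j
      f := fun _ => 0
      γ := fun _ => 1 / 2
      C := fun _ => C
      hε := hε0
      hε1 := hε1
      ha := fun j => (hae j).le
      hf := fun _ => le_rfl
      haf := fun j => by rw [add_zero]; exact hae j
      hγ := fun _ => by norm_num
      hγ1 := fun _ => by norm_num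
      hC := fun _ => hC
      hβ := fun _ θ hθ => (hbt θ hθ).ge
      hβt := fun j => (hbt _ (ht j)).ge
      hk := fun _ θ hθ => hKT θ hθ
      hkt := fun j => hKT _ (ht j)
      hneg := Or.inl fun _ => rfl
      hP := hPex }
  obtain ⟨ρ, hD, hup, hlow⟩ := plan_lim p P (fun _ => rfl)
  refine ⟨ρ, hD, fun θ hθ hb => ?_⟩
  have hθZ : θ ∈ Z := (hZ θ).2 ⟨hθ, hb⟩
  apply le_antisymm
  · apply hup θ (h θ)
    · exact Eventually.of_forall fun _ => hθZ
    · intro A hA
      rw [hval θ hθZ] at hA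
      have hA' : (h θ).toReal < A := by exact_mod_cast hA
      filter_upwards [eps_ev (δ := (A - (h θ).toReal) / 3) (by linarith)] with j hj
      change (h θ).toReal + ε j + 2 * ε j ≤ A
      have hj' : ε j ≤ (A - (h θ).toReal) / 3 := hj
      linarith
  · apply hlow θ (h θ)
    intro B hB
    rw [hval θ hθZ] at hB
    have hB' : B < (h θ).toReal := by exact_mod_cast hB
    refine ((htinf θ hθZ).and_eventually
      (eps_ev (δ := ((h θ).toReal - B) / 3) (by linarith))).mono ?_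
    rintro j ⟨hj1, hj2⟩
    refine ⟨hj1, ?_⟩
    change B ≤ (h (t j)).toReal - ε j - 2 * ε j
    rw [hj1]
    have hj' : ε j ≤ ((h θ).toReal - B) / 3 := hj2
    linarith

end Pool.Agent.IND2I
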