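import Pool.Agent.IND2I.PlanL
import Pool.Agent.IND2I.Cons

/-!
# IND2I, module Ident: identification

`trig_bot`: `TrigConv` with `A₁ → -∞` (`h s = ⊥ ≤ A₁` for every real `A₁`, coefficient `sin (p (d - x)) > 0`, `sin (p (d - s)) > 0`).
PROOF of `ident_R`.  On `[0, π]`: `bb θ > 0`: both `⊤`.  `bb θ = 0`: given.  `bb θ < 0`, `aa θ ≤ 0`: both `⊥` (`cons_sub`).  `bb θ < 0 < aa θ`: `arc_sup` gives
`s < θ < r`, `h s = g s = ⊥`, `h r, g r ≠ ⊤` (`cons_rr`; `bb r = 0`, so `g r = h r`), `trig_bot`: both `⊥`.  Then all `θ ∈ ℝ` by evenness and periodicity.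
PROOF of `ident_N`.  On `[0, π]`: `bb > 0`: both `⊤`; sub-rays: both `⊥`; `LE`: given; `bb θ ≤ 0 < aa θ` with `h θ = ⊤` (this includes the right
ends): by (iii) either `g θ = ⊤`, or, with `s` from `arc_sup`/`arc_RE`, there is `d ∈ (s, θ)`, `g d = ⊤`; if `g θ ≠ ⊤` then `trig_bot` (`g s = ⊥`) gives
`g d = ⊥`: contradiction.  `bb θ < 0 < aa θ`, `h θ ≠ ⊤`: `h θ ≤ g θ` by (ii); by (i) `g θ ≤ h θ`, or with `s, r` from `arc_sup` there is `d ∈ (θ, r)` with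
`g d ≠ ⊤`, and `trig_bot` gives `g θ = ⊥ ≤ h θ`.  (If `bb θ = 0`: `bb_zero`, `LE` or `RE`.)
-/

set_option autoImplicit false

namespace Pool.Agent.IND2I

open MeasureTheory Set Filter Helper25.Ind

theorem trig_bot {p : ℕ} (hp : 1 ≤ p) {h : ℝ → EReal} (H : TrigConv p h) {s x d : ℝ} (h1 : s < x)
    (h2 : x < d) (h3 : (p : ℝ) * (d - s) < Real.pi) (hs : h s = ⊥) (hd : h d ≠ ⊤) : h x = ⊥ := by
  have hp0 : (0 : ℝ) < p := by exact_mod_cast hp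
  obtain ⟨A₂, hA₂⟩ : ∃ A₂ : ℝ, h d ≤ (A₂ : EReal) := ⟨(h d).toReal, EReal.le_coe_toReal hd⟩
  have s1 : 0 < Real.sin (p * (d - x)) :=
    Real.sin_pos_of_pos_of_lt_pi (mul_pos hp0 (by linarith)) (by nlinarith)
  have s2 : 0 < Real.sin (p * (d - s)) :=
    Real.sin_pos_of_pos_of_lt_pi (mul_pos hp0 (by linarith)) h3
  rw [EReal.eq_bot_iff_forall_lt]
  intro B
  have key := H s x d (((B - 1) * Real.sin (p * (d - s)) - A₂ * Real.sin (p * (x - s))) /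
    Real.sin (p * (d - x))) A₂ h1 h2 h3 (by rw [hs]; exact bot_le) hA₂
  refine lt_of_le_of_lt key ?_
  rw [EReal.coe_lt_coe_iff, div_mul_cancel₀ _ s1.ne', sub_add_cancel, mul_div_cancel_right₀ _ s2.ne']
  linarith

/-- even and periodic functions which agree on `[0, π]` are equal -/
theorem ext_of_Icc {h g : ℝ → EReal} (hper : ∀ θ, h (θ + 2 * Real.pi) = h θ)
    (heven : ∀ θ, h (-θ) = h θ) (gper : ∀ θ, g (θ + 2 * Real.pi) = g θ)
    (geven : ∀ θ, g (-θ) = g θ) (E : ∀ θ ∈ Icc (0 : ℝ) Real.pi, g θ = h θ) : g = h := by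
  have E' : ∀ θ ∈ Icc (-Real.pi) Real.pi, g θ = h θ := by
    intro θ hθ
    rcases le_total 0 θ with h0 | h0
    · exact E θ ⟨h0, hθ.2⟩
    · rw [← geven θ, ← heven θ]
      exact E (-θ) ⟨by linarith, by linarith [hθ.1]⟩
  funext θ
  have hP : Function.Periodic h (2 * Real.pi) := hper
  have gP : Function.Periodic g (2 * Real.pi) := gper
  have e1 := hP.sub_zsmul_eq (x := θ) (round (θ / (2 * Real.pi)))
  have e2 := gP.sub_zsmul_eq (x := θ) (round (θ / (2 * Real.pi)))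
  rw [← e1, ← e2]
  have hpi := Real.pi_pos
  have hr := abs_le.1 (abs_sub_round (θ / (2 * Real.pi)))
  have hc : θ / (2 * Real.pi) * (2 * Real.pi) = θ := div_mul_cancel₀ _ (by positivity)
  apply E'
  rw [zsmul_eq_mul]
  constructor
  · nlinarith [hr.1]
  · nlinarith [hr.2]

theorem ident_R {p : ℕ} (hp : 1 ≤ p) {h g : ℝ → EReal} (H : IntCond p h) (G : IntCond p g)
    (hR : ∃ r, RE p r ∧ h r ≠ ⊤)
    (hz : ∀ θ ∈ Icc (0 : ℝ) Real.pi, bb p θ = 0 → g θ = h θ) : g = h := by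
  refine ext_of_Icc H.per H.even G.per G.even fun θ hθ => ?_
  rcases lt_trichotomy (bb p θ) 0 with hb | hb | hb
  · rcases le_or_gt (aa p θ) 0 with ha | ha
    · rw [cons_sub hp H hθ hb ha, cons_sub hp G hθ hb ha]
    · obtain ⟨s, r, hs0, hsx, hxr, hr, hpr, hbs, has, -⟩ := arc_sup hp hθ hb ha
      have hsI : s ∈ Icc (0 : ℝ) Real.pi := ⟨hs0, by linarith [hθ.2]⟩
      obtain ⟨r', hr', hfin⟩ := hR
      have F := RE_facts hp hr'
      have g' : g r' ≠ ⊤ := by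
        rw [hz r' ⟨F.1.le, F.2.1.le⟩ F.2.2.1]
        exact hfin
      rw [trig_bot hp H.trig hsx hxr hpr (cons_sub hp H hsI hbs has) (cons_rr hp H hr hr' hfin),
        trig_bot hp G.trig hsx hxr hpr (cons_sub hp G hsI hbs has) (cons_rr hp G hr hr' g')]
  · exact hz θ hθ hb
  · rw [H.off θ hθ hb, G.off θ hθ hb]

theorem ident_N {p : ℕ} (hp : 1 ≤ p) {h g : ℝ → EReal} (H : IntCond p h) (G : IntCond p g)
    (hN : ∀ r, RE p r → h r = ⊤) (hl : ∀ l, LE p l → g l = h l)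
    (h1 : ∀ θ ∈ Icc (0 : ℝ) Real.pi, bb p θ < 0 → 0 < aa p θ → h θ ≠ ⊤ → g θ ≤ h θ ∨
      ∀ η > 0, ∃ d, θ < d ∧ d < θ + η ∧ d ∈ Icc (0 : ℝ) Real.pi ∧ h d ≠ ⊤ ∧ g d ≠ ⊤)
    (h2 : ∀ θ ∈ Icc (0 : ℝ) Real.pi, bb p θ < 0 → 0 < aa p θ → h θ ≠ ⊤ → h θ ≤ g θ)
    (h3 : ∀ θ ∈ Icc (0 : ℝ) Real.pi, bb p θ ≤ 0 → 0 < aa p θ → h θ = ⊤ → g θ = ⊤ ∨
      ∀ η > 0, ∃ d, θ - η < d ∧ d < θ ∧ d ∈ Icc (0 : ℝ) Real.pi ∧ h d = ⊤ ∧ g d = ⊤) : g = h := by
  have top : ∀ θ ∈ Icc (0 : ℝ) Real.pi, bb p θ ≤ 0 → 0 < aa p θ → h θ = ⊤ → ∀ s : ℝ, 0 ≤ s →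
      s < θ → (p : ℝ) * (θ - s) < Real.pi → bb p s < 0 → aa p s ≤ 0 → g θ = ⊤ := by
    intro θ hθ hb ha ht s hs0 hsx hps hbs has
    rcases h3 θ hθ hb ha ht with h | h
    · exact h
    · by_contra hne
      obtain ⟨d, hd1, hd2, -, -, hgd⟩ := h (θ - s) (by linarith)
      have hsI : s ∈ Icc (0 : ℝ) Real.pi := ⟨hs0, by linarith [hθ.2]⟩
      have := trig_bot hp G.trig (s := s) (x := d) (d := θ) (by linarith) hd2 hps
        (cons_sub hp G hsI hbs has) hne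
      rw [hgd] at this
      exact absurd this (by simp)
  refine ext_of_Icc H.per H.even G.per G.even fun θ hθ => ?_
  rcases lt_trichotomy (bb p θ) 0 with hb | hb | hb
  · rcases le_or_gt (aa p θ) 0 with ha | ha
    · rw [cons_sub hp H hθ hb ha, cons_sub hp G hθ hb ha]
    · obtain ⟨s, r, hs0, hsx, hxr, hr, hpr, hbs, has, -⟩ := arc_sup hp hθ hb ha
      have hp0 : (0 : ℝ) < p := by exact_mod_cast hp
      have hsI : s ∈ Icc (0 : ℝ) Real.pi := ⟨hs0, by linarith [hθ.2]⟩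
      by_cases ht : h θ = ⊤
      · rw [ht]
        exact top θ hθ hb.le ha ht s hs0 hsx (by nlinarith) hbs has
      · refine le_antisymm ?_ (h2 θ hθ hb ha ht)
        rcases h1 θ hθ hb ha ht with h | h
        · exact h
        · obtain ⟨d, hd1, hd2, -, -, hgd⟩ := h (r - θ) (by linarith)
          rw [trig_bot hp G.trig hsx hd1 (by nlinarith) (cons_sub hp G hsI hbs has) hgd]
          exact bot_le
  · rcases bb_zero hp hθ hb with h | h
    · exact hl θ h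
    · obtain ⟨s, hs0, hsx, hps, hbs, has, -⟩ := arc_RE hp h
      rw [hN θ h]
      exact top θ hθ hb.le (RE_facts hp h).2.2.2 (hN θ h) s hs0 hsx hps hbs has
  · rw [H.off θ hθ hb, G.off θ hθ hb]

end Pool.Agent.IND2I
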