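import Pool.Agent.IND2I.NecD

/-!
# IND2I, module NecCore: necessity of the majorisation inequalities

PROOF.  `G y = ∑_j ∫ k_j (s - y) dν_j(s) - k₀ (-y) ≥ 0` (`hcert`), bounded, and `G y → D := β₀ - ∑ β_j ν_j(ℝ)` as `y → -∞` (dominated convergence,
`k_j (s - y) → -β_j`, `k₀ (-y) → -β₀`).  So `D ≥ 0`: (1).  With `U_j x = ∫ k_j (x - y) dμ`, `U₀`: for every `x`
`∫ G (y - x) dμ(y) = ∑_j ∫ U_j (x + s) dν_j(s) - U₀ x` by Fubini (`∫∫ |k_j (x + s - y)| dμ dν_j ≤ ∫ C' e^{δ |x + s|} dν_j < ∞`, `tame_abs` with the `δ` of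
`hmom`, `e^{δ|x+s|} ≤ e^{δ|x|} e^{δ|s|}`; `μ` is sigma-finite since all `μ (Iic x) < ∞`).
`E_j x := ∫ U_j (x + s) dν_j(s)`: `U_j` is bounded above on `ℝ` by some `B_j ≥ |H_j|` (`tame_cont`, `tame_bot`, `hH`), `U_j ≤ H_j` on `[X_j, ∞)`, so
`E_j x ≤ H_j ν_j(ℝ) + (B_j - H_j) ν_j {s < X_j - x}`, and the last mass tends to `0` as `x → ∞`.
(2): `G ≥ 0` gives `U₀ x ≤ ∑ E_j x`.  (3): if `D > 0` choose `Y` with `G y ≥ D/2` for `y ≤ -Y`: `U₀ x ≤ ∑ E_j x - (D/2) μ (Iic (x - Y))`, `tame_top`.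
-/

set_option autoImplicit false

namespace Pool.Agent.IND2I

open MeasureTheory Set Filter Topology

private theorem nc_lim {γ C β : ℝ} {k : ℝ → ℝ} (hγ0 : 0 < γ) (hk : KTar γ C β k) :
    Tendsto k atTop (𝓝 (-β)) := by
  have h1 : Tendsto (fun s : ℝ => C * Real.exp (-(γ * s))) atTop (𝓝 0) := by
    have h2 : Tendsto (fun s : ℝ => Real.exp (-(γ * s))) atTop (𝓝 0) :=
      Real.tendsto_exp_atBot.comp (tendsto_neg_atTop_atBot.comp (tendsto_id.const_mul_atTop hγ0))
    simpa using h2.const_mul C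
  have h3 : Tendsto (fun s => k s + β) atTop (𝓝 0) := by
    refine squeeze_zero_norm' ?_ h1
    filter_upwards [eventually_ge_atTop 0] with s hs
    rw [Real.norm_eq_abs]
    exact hk.right s hs
  have h4 := h3.sub_const β
  simpa using h4

private theorem nc_lf {μ : Measure ℝ} (hμ : Tame μ) : IsLocallyFiniteMeasure μ := by
  obtain ⟨C, -, h⟩ := hμ.grow 1 one_pos
  exact ⟨fun x => ⟨Iic (x + 1), Iic_mem_nhds (by linarith), (h _).trans_lt ENNReal.ofReal_lt_top⟩⟩

private theorem nc_prod {γ C β : ℝ} {k : ℝ → ℝ} {μ ν : Measure ℝ} (hγ0 : 0 < γ) (hγ1 : γ < 1)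
    (hC : 1 ≤ C) (hβ : 0 ≤ β) (hk : KTar γ C β k) [IsFiniteMeasure ν] [SFinite μ] (hμ : Tame μ)
    {δ : ℝ} (hδ : 0 < δ) (hmom : Integrable (fun x => Real.exp (δ * |x|)) ν) (x : ℝ) :
    Integrable (fun p : ℝ × ℝ => k (x + p.1 - p.2)) (ν.prod μ) := by
  have hc : Continuous (fun p : ℝ × ℝ => k (x + p.1 - p.2)) :=
    hk.cont.comp ((continuous_const.add continuous_fst).sub continuous_snd)
  obtain ⟨C', hC', h⟩ := tame_abs hγ0 hγ1 hC hβ hk hμ hδ
  rw [integrable_prod_iff hc.aestronglyMeasurable]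
  refine ⟨Eventually.of_forall fun s => tame_int hγ0 hγ1 hC hβ hk hμ (x + s), ?_⟩
  refine Integrable.mono' (g := fun s => C' * Real.exp (δ * |x|) * Real.exp (δ * |s|))
    (hmom.const_mul _) ?_ ?_
  · exact hc.aestronglyMeasurable.norm.integral_prod_right'
  · refine Eventually.of_forall fun s => ?_
    rw [Real.norm_of_nonneg (integral_nonneg fun y => norm_nonneg _)]
    have h1 := h (x + s)
    have h2 : Real.exp (δ * |x + s|) ≤ Real.exp (δ * |x|) * Real.exp (δ * |s|) := by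
      rw [← Real.exp_add, ← mul_add]
      exact Real.exp_le_exp.2 (mul_le_mul_of_nonneg_left (abs_add_le _ _) hδ.le)
    calc ∫ y, ‖k (x + s - y)‖ ∂μ = ∫ y, |k (x + s - y)| ∂μ := rfl
      _ ≤ C' * Real.exp (δ * |x + s|) := h1
      _ ≤ C' * (Real.exp (δ * |x|) * Real.exp (δ * |s|)) := mul_le_mul_of_nonneg_left h2 hC'
      _ = C' * Real.exp (δ * |x|) * Real.exp (δ * |s|) := by ring

/-- a continuous function with a limit at `-∞` which is eventually bounded above at `+∞` is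
bounded above -/
private theorem nc_bdd {U : ℝ → ℝ} (hc : Continuous U) {l H : ℝ} (hb : Tendsto U atBot (𝓝 l))
    (ht : ∀ᶠ x in atTop, U x ≤ H) : ∃ B, ∀ x, U x ≤ B := by
  obtain ⟨X, hX⟩ := eventually_atTop.1 ht
  obtain ⟨Y, hY⟩ := eventually_atBot.1 (hb.eventually (gt_mem_nhds (lt_add_one l)))
  obtain ⟨B, hB⟩ := (isCompact_Icc (a := Y) (b := X)).bddAbove_image hc.continuousOn
  refine ⟨max B (max H (l + 1)), fun x => ?_⟩
  rcases le_total x Y with h1 | h1
  · exact (hY x h1).le.trans ((le_max_right _ _).trans (le_max_right _ _))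
  · rcases le_total X x with h2 | h2
    · exact (hX x h2).trans ((le_max_left _ _).trans (le_max_right _ _))
    · exact (hB (mem_image_of_mem _ ⟨h1, h2⟩)).trans (le_max_left _ _)

/-- the tails: `∫ (max (U (x + s)) H - H) dν → 0` -/
private theorem nc_tail {U : ℝ → ℝ} (hc : Continuous U) {B H : ℝ} (hB : ∀ x, U x ≤ B)
    (ht : ∀ᶠ x in atTop, U x ≤ H) {ν : Measure ℝ} [IsFiniteMeasure ν] :
    Tendsto (fun x => ∫ s, (max (U (x + s)) H - H) ∂ν) atTop (𝓝 0) := by
  have h0 : (0 : ℝ) = ∫ _ : ℝ, (0 : ℝ) ∂ν := by simp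
  rw [h0]
  refine tendsto_integral_filter_of_dominated_convergence (fun _ => |B| + |H|) ?_ ?_
    (integrable_const _) ?_
  · refine Eventually.of_forall fun x => ?_
    have h1 : Continuous (fun s => max (U (x + s)) H - H) :=
      ((hc.comp (continuous_const.add continuous_id)).max continuous_const).sub continuous_const
    exact h1.aestronglyMeasurable
  · refine Eventually.of_forall fun x => Eventually.of_forall fun s => ?_
    have h1 : H ≤ max (U (x + s)) H := le_max_right _ _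
    rw [Real.norm_of_nonneg (by linarith)]
    rcases max_cases (U (x + s)) H with h2 | h2
    · have h3 := hB (x + s)
      have h4 := le_abs_self B
      have h5 := neg_abs_le H
      linarith [h2.1]
    · have h4 := abs_nonneg B
      have h5 := abs_nonneg H
      linarith [h2.1]
  · refine Eventually.of_forall fun s => ?_
    refine tendsto_const_nhds.congr' ?_
    have h1 : Tendsto (fun x : ℝ => x + s) atTop atTop := tendsto_atTop_add_const_right _ _ tendsto_id
    filter_upwards [h1.eventually ht] with x hx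
    rw [max_eq_right hx, sub_self]

theorem nec_core {n : ℕ} {γ C : ℝ} (hγ0 : 0 < γ) (hγ1 : γ < 1) (hC : 1 ≤ C) {k : Fin n → ℝ → ℝ}
    {β : Fin n → ℝ} {k₀ : ℝ → ℝ} {β₀ : ℝ} (hβ : ∀ j, 0 ≤ β j) (hβ₀ : 0 ≤ β₀)
    (hk : ∀ j, KTar γ C (β j) (k j)) (hk₀ : KTar γ C β₀ k₀) {ν : Fin n → Measure ℝ}
    (hν : ∀ j, IsFiniteMeasure (ν j)) {δ : ℝ} (hδ : 0 < δ)
    (hmom : ∀ j, Integrable (fun x => Real.exp (δ * |x|)) (ν j))
    (hcert : ∀ y, k₀ (-y) ≤ ∑ j, ∫ x, k j (x - y) ∂(ν j)) {μ : Measure ℝ} (hμ : Tame μ)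
    (hinf : μ univ = ⊤) {H : Fin n → ℝ} (hH : ∀ j, ∀ᶠ x in atTop, ∫ y, k j (x - y) ∂μ ≤ H j) :
    ∑ j, β j * (ν j).real univ ≤ β₀ ∧
    (∀ ε : ℝ, 0 < ε → ∀ᶠ x in atTop, ∫ y, k₀ (x - y) ∂μ ≤ ∑ j, H j * (ν j).real univ + ε) ∧
    (∑ j, β j * (ν j).real univ < β₀ → Tendsto (fun x => ∫ y, k₀ (x - y) ∂μ) atTop atBot) := by
  classical
  haveI := nc_lf hμ
  haveI : ∀ j, IsFiniteMeasure (ν j) := hν
  -- the function G
  obtain ⟨G, hG⟩ : ∃ G : ℝ → ℝ, G = fun y => ∑ j, ∫ x, k j (x - y) ∂(ν j) - k₀ (-y) := ⟨_, rfl⟩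
  have hG0 : ∀ y, 0 ≤ G y := fun y => by
    rw [hG]
    exact sub_nonneg.2 (hcert y)
  have hGlim : Tendsto G atBot (𝓝 (β₀ - ∑ j, β j * (ν j).real univ)) := by
    rw [hG]
    have h1 : ∀ j, Tendsto (fun y => ∫ x, k j (x - y) ∂(ν j)) atBot
        (𝓝 (-(β j * (ν j).real univ))) := by
      intro j
      have h2 : -(β j * (ν j).real univ) = ∫ _ : ℝ, -β j ∂(ν j) := by
        rw [integral_const, smul_eq_mul]
        ring
      rw [h2]
      refine tendsto_integral_filter_of_dominated_convergence (fun _ => β j + C) ?_ ?_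
        (integrable_const _) ?_
      · refine Eventually.of_forall fun y => ?_
        exact ((hk j).cont.comp (continuous_id.sub continuous_const)).aestronglyMeasurable
      · refine Eventually.of_forall fun y => Eventually.of_forall fun x => ?_
        rw [Real.norm_eq_abs]
        exact ktar_abs hγ0 hγ1 hC (hβ j) (hk j) _
      · refine Eventually.of_forall fun x => ?_
        refine (nc_lim hγ0 (hk j)).comp ?_
        exact tendsto_atTop_add_const_left _ _ tendsto_neg_atBot_atTop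
    have h3 : Tendsto (fun y => k₀ (-y)) atBot (𝓝 (-β₀)) :=
      (nc_lim hγ0 hk₀).comp tendsto_neg_atBot_atTop
    have h4 := (tendsto_finset_sum Finset.univ fun j _ => h1 j).sub h3
    have h5 : ∑ j, -(β j * (ν j).real univ) - -β₀ = β₀ - ∑ j, β j * (ν j).real univ := by
      rw [Finset.sum_neg_distrib]
      ring
    rw [h5] at h4
    exact h4
  have hD0 : 0 ≤ β₀ - ∑ j, β j * (ν j).real univ := ge_of_tendsto' hGlim hG0
  -- Fubini
  have hpr : ∀ j x, Integrable (fun p : ℝ × ℝ => k j (x + p.1 - p.2)) ((ν j).prod μ) := fun j x =>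
    nc_prod hγ0 hγ1 hC (hβ j) (hk j) hμ hδ (hmom j) x
  have hUc : ∀ j, Continuous fun x => ∫ y, k j (x - y) ∂μ := fun j =>
    tame_cont hγ0 hγ1 hC (hβ j) (hk j) hμ
  have hEint : ∀ j x, Integrable (fun s => ∫ y, k j (x + s - y) ∂μ) (ν j) := fun j x =>
    (hpr j x).integral_prod_left
  have hFint : ∀ j x, Integrable (fun y => ∫ s, k j (x + s - y) ∂(ν j)) μ := fun j x =>
    (hpr j x).integral_prod_right
  have hFub : ∀ j x, ∫ s, (∫ y, k j (x + s - y) ∂μ) ∂(ν j) =
      ∫ y, (∫ s, k j (x + s - y) ∂(ν j)) ∂μ := fun j x =>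
    integral_integral_swap (hpr j x)
  have hGx : ∀ x y, G (y - x) = ∑ j, ∫ s, k j (x + s - y) ∂(ν j) - k₀ (x - y) := by
    intro x y
    rw [hG]
    have h1 : ∀ j, ∫ s, k j (s - (y - x)) ∂(ν j) = ∫ s, k j (x + s - y) ∂(ν j) := by
      intro j
      congr 1
      funext s
      congr 1
      ring
    show ∑ j, ∫ s, k j (s - (y - x)) ∂(ν j) - k₀ (-(y - x)) = _
    simp only [h1]
    congr 2
    ring
  have hGint : ∀ x, Integrable (fun y => G (y - x)) μ := by
    intro x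
    have h1 : (fun y => G (y - x)) =
        fun y => ∑ j, ∫ s, k j (x + s - y) ∂(ν j) - k₀ (x - y) := funext (hGx x)
    rw [h1]
    exact (integrable_finset_sum _ fun j _ => hFint j x).sub
      (tame_int hγ0 hγ1 hC hβ₀ hk₀ hμ x)
  have hGeq : ∀ x, ∫ y, G (y - x) ∂μ =
      ∑ j, ∫ s, (∫ y, k j (x + s - y) ∂μ) ∂(ν j) - ∫ y, k₀ (x - y) ∂μ := by
    intro x
    simp only [hGx, hFub]
    rw [integral_sub (integrable_finset_sum _ fun j _ => hFint j x)
      (tame_int hγ0 hγ1 hC hβ₀ hk₀ hμ x), integral_finset_sum _ fun j _ => hFint j x]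
  -- upper bound of the E_j
  have hR : Tendsto (fun x => ∑ j, ∫ s, (max (∫ y, k j (x + s - y) ∂μ) (H j) - H j) ∂(ν j)) atTop
      (𝓝 0) := by
    have h1 : ∀ j, Tendsto (fun x => ∫ s, (max (∫ y, k j (x + s - y) ∂μ) (H j) - H j) ∂(ν j))
        atTop (𝓝 0) := by
      intro j
      obtain ⟨B, hB⟩ := nc_bdd (hUc j) (tame_bot hγ0 hγ1 hC (hβ j) (hk j) hμ) (hH j)
      exact nc_tail (hUc j) hB (hH j)
    have h2 := tendsto_finset_sum Finset.univ fun j _ => h1 j
    simpa using h2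
  have hmaxint : ∀ j x, Integrable (fun s => max (∫ y, k j (x + s - y) ∂μ) (H j) - H j) (ν j) :=
    fun j x => ((hEint j x).sup (integrable_const (H j))).sub (integrable_const (H j))
  have hE : ∀ x, ∑ j, ∫ s, (∫ y, k j (x + s - y) ∂μ) ∂(ν j) ≤ ∑ j, H j * (ν j).real univ +
      ∑ j, ∫ s, (max (∫ y, k j (x + s - y) ∂μ) (H j) - H j) ∂(ν j) := by
    intro x
    rw [← Finset.sum_add_distrib]
    refine Finset.sum_le_sum fun j _ => ?_
    have h1 : H j * (ν j).real univ = ∫ _ : ℝ, H j ∂(ν j) := by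
      rw [integral_const, smul_eq_mul, mul_comm]
    rw [h1, ← integral_add (integrable_const _) (hmaxint j x)]
    refine integral_mono (hEint j x) ((integrable_const _).add (hmaxint j x)) fun s => ?_
    have h2 := le_max_left (∫ y, k j (x + s - y) ∂μ) (H j)
    show ∫ y, k j (x + s - y) ∂μ ≤ H j + (max (∫ y, k j (x + s - y) ∂μ) (H j) - H j)
    linarith
  refine ⟨by linarith, ?_, ?_⟩
  · intro ε hε
    filter_upwards [hR.eventually (gt_mem_nhds hε)] with x hx
    have h1 := hGeq x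
    have h2 : 0 ≤ ∫ y, G (y - x) ∂μ := integral_nonneg fun y => hG0 _
    have h3 := hE x
    linarith
  · intro hlt
    obtain ⟨D, hD⟩ : ∃ D, D = β₀ - ∑ j, β j * (ν j).real univ := ⟨_, rfl⟩
    rw [← hD] at hGlim
    have hDpos : 0 < D := by
      rw [hD]
      linarith
    obtain ⟨Y, hY⟩ := eventually_atBot.1 (hGlim.eventually (lt_mem_nhds (half_lt_self hDpos)))
    have hlow : ∀ x, D / 2 * (μ (Iic (Y + x))).toReal ≤ ∫ y, G (y - x) ∂μ := by
      intro x
      have hfin : μ (Iic (Y + x)) < ⊤ := by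
        obtain ⟨C', -, h⟩ := hμ.grow 1 one_pos
        exact (h _).trans_lt ENNReal.ofReal_lt_top
      have h1 : ∫ y in Iic (Y + x), D / 2 ∂μ ≤ ∫ y in Iic (Y + x), G (y - x) ∂μ := by
        refine setIntegral_mono_on (integrableOn_const hfin.ne) (hGint x).integrableOn
          measurableSet_Iic fun y hy => ?_
        have hy' : y ≤ Y + x := hy
        exact (hY (y - x) (by linarith)).le
      have h2 : ∫ y in Iic (Y + x), G (y - x) ∂μ ≤ ∫ y, G (y - x) ∂μ :=
        setIntegral_le_integral (hGint x) (Eventually.of_forall fun y => hG0 _)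
      have h3 : ∫ y in Iic (Y + x), D / 2 ∂μ = D / 2 * (μ (Iic (Y + x))).toReal := by
        rw [setIntegral_const, smul_eq_mul, mul_comm]
        rfl
      linarith
    have hub : ∀ x, ∫ y, k₀ (x - y) ∂μ ≤ (∑ j, H j * (ν j).real univ +
        ∑ j, ∫ s, (max (∫ y, k j (x + s - y) ∂μ) (H j) - H j) ∂(ν j)) +
        -(D / 2 * (μ (Iic (Y + x))).toReal) := by
      intro x
      have h1 := hGeq x
      have h2 := hlow x
      have h3 := hE x
      linarith
    refine tendsto_atBot_mono hub ?_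
    have h1 : Tendsto (fun x : ℝ => Y + x) atTop atTop := tendsto_atTop_add_const_left _ _ tendsto_id
    have h2 : Tendsto (fun x => D / 2 * (μ (Iic (Y + x))).toReal) atTop atTop :=
      ((tame_top hμ hinf).comp h1).const_mul_atTop (half_pos hDpos)
    have h3 := tendsto_neg_atTop_atBot.comp h2
    exact (hR.const_add (∑ j, H j * (ν j).real univ)).add_atBot h3

end Pool.Agent.IND2I
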