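import Pool.Agent.IND2I.NecPi
import Pool.Agent.IND2I.NecCore
import Pool.Agent.IND2I.Arc

/-!
# IND2I, module NecInt: necessity of the conditions `IntCond`

PROOF.  `h = indicatorOf p f`, `c₁ = (Q.coeff p).re`, `U_θ x = ∫ kk p θ (x - y) dmuf`.  `per`: `indicatorOf_add_two_pi`.  `even`: `fdat_even`.  `off`: `top_lt`, `top_pi`.
`right`: `RE_facts`: `r < π`, `cos (p r) = 0`, `kk p r > 0` (`pattern_pos`), so `U_r > 0` and `fdat_ind` gives `0 ≤ h r`.  `trig`: `indicatorOf_le_trig` with `F.ord`.
`maj`: let `φ, μ, τ` be given.  `h (φ j) ≠ ⊤` gives `φ j < π` and `bb (φ j) ≤ 0` (`off`, `bb_pi`).  If `bb τ > 0`: let `s → ∞` in the hypothesis: `kk p τ s → bb τ/p > 0`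
(`kk_right` if `τ < π`; for `τ = π`: `kk p π s → 1/p`, e.g. `s ≥ 1`, `log |1 - e^s| ≥ s - 1`, or compare with the last lines of `top_pi`), and the right side tends to
`∑ μ_j(ℝ) bb (φ j)/p ≤ 0` (dominated convergence): contradiction.  So `bb τ ≤ 0`, `τ < π`, `bt ≥ 0` for all.  `unif` for the finite set of all angles
gives `KTar` with common constants; `hcert` with `s = -y`.  Let `A_j > h (φ j)` be real numbers; by `fdat_ind` eventually
`U_{φ j} x ≤ H_j := A_j - c₁ cos (p φ j)`.  `nec_core`: `D := bt τ - ∑ bt (φ j) μ_j(ℝ) ≥ 0`; `bb τ < ∑ μ_j(ℝ) bb (φ j)` iff `D > 0`.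
`D > 0`: `U_τ → -∞`, so `h τ = ⊥` (`fdat_ind`), both claims.  `D = 0`: then `cos (pτ) = ∑ μ_j(ℝ) cos (p φ j)` and eventually
`U_τ x + c₁ cos (pτ) ≤ ∑ H_j μ_j(ℝ) + c₁ cos (pτ) + ε = ∑ A_j μ_j(ℝ) + ε`: `h τ ≤ ∑ A_j μ_j(ℝ)` for all real `A_j > h (φ j)`, which gives
`h τ ≤ ∑ μ_j(ℝ) h (φ j)` in `EReal` (if `h (φ j) = ⊥` and `μ_j(ℝ) > 0` let `A_j → -∞`; otherwise `A_j ↓ h (φ j)`).
-/

set_option autoImplicit false

namespace Pool.Agent.IND2I

open MeasureTheory Set Filter Topology Helper25.Ind

variable {p : ℕ} {f : ℂ → ℂ} {I : Type} {a : I → ℝ} {Q : Polynomial ℂ}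

theorem ni_split {x s : EReal} (hx : x ≠ ⊤) (hs : s ≠ ⊤) {q : ℝ} (h : x + s < (q : EReal)) :
    ∃ a b : ℝ, x < (a : EReal) ∧ s < (b : EReal) ∧ a + b < q := by
  induction x using EReal.rec with
  | top => exact absurd rfl hx
  | bot =>
    obtain ⟨b, hb, -⟩ := EReal.lt_iff_exists_real_btwn.1 (lt_top_iff_ne_top.2 hs)
    exact ⟨q - b - 1, b, EReal.bot_lt_coe _, hb, by linarith⟩
  | coe x =>
    induction s using EReal.rec with
    | top => exact absurd rfl hs
    | bot => exact ⟨x + 1, q - x - 2, by exact_mod_cast (by linarith : x < x + 1),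
        EReal.bot_lt_coe _, by linarith⟩
    | coe s =>
      have h1 : x + s < q := by exact_mod_cast h
      refine ⟨x + (q - x - s) / 3, s + (q - x - s) / 3, ?_, ?_, by linarith⟩
      · exact_mod_cast (by linarith : x < x + (q - x - s) / 3)
      · exact_mod_cast (by linarith : s < s + (q - x - s) / 3)

theorem ni_mul_ne_top {m : ℝ} (hm : 0 ≤ m) {h : EReal} (hh : h ≠ ⊤) : (m : EReal) * h ≠ ⊤ := by
  induction h using EReal.rec with
  | top => exact absurd rfl hh
  | bot =>
    rcases hm.eq_or_lt with h0 | h0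
    · rw [← h0, EReal.coe_zero, zero_mul]
      exact EReal.zero_ne_top
    · rw [EReal.coe_mul_bot_of_pos h0]
      exact bot_ne_top
  | coe x =>
    rw [← EReal.coe_mul]
    exact EReal.coe_ne_top _

theorem ni_mul {m : ℝ} (hm : 0 ≤ m) {h : EReal} (hh : h ≠ ⊤) {a : ℝ}
    (ha : (m : EReal) * h < (a : EReal)) : ∃ A : ℝ, h < (A : EReal) ∧ m * A < a := by
  rcases hm.eq_or_lt with h0 | h0
  · obtain ⟨A, hA, -⟩ := EReal.lt_iff_exists_real_btwn.1 (lt_top_iff_ne_top.2 hh)
    refine ⟨A, hA, ?_⟩
    rw [← h0, EReal.coe_zero, zero_mul] at ha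
    rw [← h0, zero_mul]
    exact_mod_cast ha
  · induction h using EReal.rec with
    | top => exact absurd rfl hh
    | bot =>
      refine ⟨(a - 1) / m, EReal.bot_lt_coe _, ?_⟩
      rw [mul_div_cancel₀ _ h0.ne']
      linarith
    | coe x =>
      have h1 : m * x < a := by exact_mod_cast ha
      refine ⟨x + (a - m * x) / (2 * m), ?_, ?_⟩
      · have h2 : x < x + (a - m * x) / (2 * m) := by
          have : 0 < (a - m * x) / (2 * m) := div_pos (by linarith) (by linarith)
          linarith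
        exact_mod_cast h2
      · have h2 : m * (x + (a - m * x) / (2 * m)) = m * x + (a - m * x) / 2 := by
          field_simp
        rw [h2]
        linarith

theorem ni_sum {ι : Type} [DecidableEq ι] (m : ι → ℝ) (hm : ∀ j, 0 ≤ m j) (h : ι → EReal)
    (hh : ∀ j, h j ≠ ⊤) (S : Finset ι) : ∑ j ∈ S, (m j : EReal) * h j ≠ ⊤ ∧
      ∀ q : ℝ, ∑ j ∈ S, (m j : EReal) * h j < (q : EReal) →
        ∃ A : ι → ℝ, (∀ j ∈ S, h j < (A j : EReal)) ∧ ∑ j ∈ S, m j * A j < q := by
  induction S using Finset.induction_on with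
  | empty =>
    refine ⟨by simp, fun q hq => ⟨0, by simp, ?_⟩⟩
    rw [Finset.sum_empty] at hq ⊢
    exact_mod_cast hq
  | insert i S hi ih =>
    obtain ⟨h1, h2⟩ := ih
    have h3 := ni_mul_ne_top (hm i) (hh i)
    rw [Finset.sum_insert hi]
    refine ⟨EReal.add_ne_top h3 h1, fun q hq => ?_⟩
    obtain ⟨a, b, ha, hb, hab⟩ := ni_split h3 h1 hq
    obtain ⟨α, hα1, hα2⟩ := ni_mul (hm i) (hh i) ha
    obtain ⟨A, hA1, hA2⟩ := h2 b hb
    refine ⟨Function.update A i α, ?_, ?_⟩
    · intro j hj
      by_cases hji : j = i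
      · subst hji
        rw [Function.update_self]
        exact hα1
      · rw [Function.update_of_ne hji]
        exact hA1 j ((Finset.mem_insert.1 hj).resolve_left hji)
    · rw [Finset.sum_insert hi, Function.update_self]
      have h4 : ∑ j ∈ S, m j * Function.update A i α j = ∑ j ∈ S, m j * A j := by
        refine Finset.sum_congr rfl fun j hj => ?_
        rw [Function.update_of_ne (fun h : j = i => hi (h ▸ hj))]
      rw [h4]
      linarith

theorem ni_bdd {γ C β : ℝ} {k : ℝ → ℝ} (hγ : 0 < γ) (hC : 1 ≤ C) (hβ : 0 ≤ β)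
    (hk : KTar γ C β k) (s : ℝ) : |k s| ≤ β + C := by
  rcases le_total 0 s with hs | hs
  · have h1 := hk.right s hs
    have h2 : C * Real.exp (-(γ * s)) ≤ C := by
      have h3 : Real.exp (-(γ * s)) ≤ 1 := Real.exp_le_one_iff.2 (by
        have := mul_nonneg hγ.le hs
        linarith)
      nlinarith
    have h4 : |k s| ≤ |k s + β| + |β| := by
      have := abs_sub (k s + β) β
      rwa [add_sub_cancel_right] at this
    rw [abs_of_nonneg hβ] at h4
    linarith
  · have h1 := hk.left s hs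
    have h2 : C * Real.exp s ≤ C := by
      have h3 : Real.exp s ≤ 1 := Real.exp_le_one_iff.2 hs
      nlinarith
    linarith

theorem ni_lim {γ C β : ℝ} {k : ℝ → ℝ} (hγ : 0 < γ) (hk : KTar γ C β k) :
    Tendsto k atTop (𝓝 (-β)) := by
  have h1 : Tendsto (fun s : ℝ => C * Real.exp (-(γ * s))) atTop (𝓝 0) := by
    have h2 : Tendsto (fun s : ℝ => -(γ * s)) atTop atBot := by
      have h3 : Tendsto (fun s : ℝ => γ * s) atTop atTop := tendsto_id.const_mul_atTop hγ
      exact tendsto_neg_atTop_atBot.comp h3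
    have h4 := (Real.tendsto_exp_atBot.comp h2).const_mul C
    rw [mul_zero] at h4
    exact h4
  have h2 : Tendsto (fun s => k s + β) atTop (𝓝 0) := by
    refine squeeze_zero_norm' ?_ h1
    filter_upwards [eventually_ge_atTop (0 : ℝ)] with s hs
    rw [Real.norm_eq_abs]
    exact hk.right s hs
  have h3 := h2.sub_const β
  simp only [add_sub_cancel_right, zero_sub] at h3
  exact h3

theorem ni_pi {p : ℕ} (hp : 1 ≤ p) {s : ℝ} (hs : 1 ≤ s) : 1 / (p : ℝ) ≤ kk p Real.pi s := by
  have hu : 2 ≤ Real.exp s := by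
    have := Real.add_one_le_exp s
    linarith
  obtain ⟨u, hu'⟩ : ∃ u, u = Real.exp s := ⟨_, rfl⟩
  have hp0 : (0 : ℝ) < p := by exact_mod_cast hp
  have h1 : -((Real.exp s : ℂ) * Complex.exp (Real.pi * Complex.I)) = ((u : ℝ) : ℂ) := by
    rw [Complex.exp_pi_mul_I, hu']
    ring
  rw [kk_eq, h1, Nat.floor_natCast]
  have h2 : primary p (u : ℂ) = (((1 - u : ℝ)) : ℂ) *
      Complex.exp (((∑ j ∈ Finset.range p, u ^ (j + 1) / ((j : ℝ) + 1) : ℝ)) : ℂ) := by
    unfold primary
    push_cast
    rfl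
  have hu2 : 2 ≤ u := by rw [hu']; exact hu
  have h3 : Real.log ‖primary p (u : ℂ)‖ = Real.log |1 - u| +
      ∑ j ∈ Finset.range p, u ^ (j + 1) / ((j : ℝ) + 1) := by
    rw [h2, norm_mul, Complex.norm_exp, Complex.ofReal_re, Complex.norm_real, Real.norm_eq_abs,
      Real.log_mul (abs_pos.2 (by linarith)).ne' (Real.exp_pos _).ne', Real.log_exp]
  have h4 : 0 ≤ Real.log |1 - u| := by
    apply Real.log_nonneg
    rw [abs_of_nonpos (by linarith)]
    linarith
  have h5 : u ^ p / p ≤ ∑ j ∈ Finset.range p, u ^ (j + 1) / ((j : ℝ) + 1) := by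
    obtain ⟨q, rfl⟩ : ∃ q, p = q + 1 := ⟨p - 1, by omega⟩
    have h6 : u ^ (q + 1) / ((q + 1 : ℕ) : ℝ) = u ^ (q + 1) / ((q : ℝ) + 1) := by push_cast; rfl
    rw [h6]
    exact Finset.single_le_sum (f := fun j : ℕ => u ^ (j + 1) / ((j : ℝ) + 1))
      (fun j _ => by positivity) (Finset.mem_range.2 (Nat.lt_succ_self q))
  rw [h3]
  have h6 : Real.exp (-((p : ℝ) * s)) * (u ^ p / p) = 1 / p := by
    rw [hu', ← Real.exp_nat_mul, mul_div_assoc', ← Real.exp_add, neg_add_cancel, Real.exp_zero]
  rw [← h6]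
  exact mul_le_mul_of_nonneg_left (by linarith) (Real.exp_pos _).le

theorem nec_int (hp : 1 ≤ p) (F : FDat p f a Q) : IntCond p (indicatorOf p f) := by
  have hp0 : (0 : ℝ) < p := by exact_mod_cast hp
  have hoff : ∀ θ ∈ Icc (0 : ℝ) Real.pi, 0 < bb p θ → indicatorOf p f θ = ⊤ := by
    intro θ hθ hb
    rcases hθ.2.eq_or_lt with h | h
    · rw [h]
      exact top_pi hp F
    · exact top_lt hp F hθ.1 h hb
  refine ⟨fun θ => indicatorOf_add_two_pi p θ f, fdat_even hp F, hoff, ?_, ?_, ?_⟩
  · intro r hr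
    obtain ⟨h1, h2, h3, h4⟩ := RE_facts hp hr
    have hpos := pattern_pos (p : ℝ) (θ := r) ⟨h1.le, h2.le⟩ h4.le h3.ge
    rw [fdat_ind hp F h1.le h2, hr.2.2.1, mul_zero]
    refine le_limsup_of_frequently_le ?_
    refine Frequently.of_forall fun x => ?_
    rw [add_zero]
    have h5 : 0 ≤ ∫ y, kk p r (x - y) ∂(muf p a) := integral_nonneg fun y => (hpos _).le
    exact_mod_cast h5
  · intro n φ μ τ hfin hmom hφ hτ hne hle
    obtain ⟨δ, hδ, hmom⟩ := hmom
    -- the angles
    have hang : ∀ θ ∈ Icc (0 : ℝ) Real.pi, indicatorOf p f θ ≠ ⊤ → bb p θ ≤ 0 := by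
      intro θ hθ h
      by_contra hb
      exact h (hoff θ hθ (not_le.1 hb))
    have hlt : ∀ θ ∈ Icc (0 : ℝ) Real.pi, bb p θ ≤ 0 → θ < Real.pi := by
      intro θ hθ hb
      refine lt_of_le_of_ne hθ.2 fun h => ?_
      rw [h] at hb
      have : bb p Real.pi = 1 := Pool.Agent.IND2I.bb_pi
      linarith
    have hbφ : ∀ j, bb p (φ j) ≤ 0 := fun j => hang _ (hφ j) (hne j)
    have hφπ : ∀ j, φ j < Real.pi := fun j => hlt _ (hφ j) (hbφ j)
    have hbt : ∀ θ, bb p θ ≤ 0 → 0 ≤ bt p θ := fun θ h => by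
      unfold bt
      exact div_nonneg (by linarith) hp0.le
    obtain ⟨m, hm⟩ : ∃ m : Fin n → ℝ, ∀ j, m j = (μ j univ).toReal :=
      ⟨fun j => (μ j univ).toReal, fun j => rfl⟩
    have hm0 : ∀ j, 0 ≤ m j := fun j => by rw [hm]; exact ENNReal.toReal_nonneg
    -- `bb τ ≤ 0`
    have hbτ : bb p τ ≤ 0 := by
      by_contra hb
      rw [not_le] at hb
      have hl : ∃ c : ℝ, 0 < c ∧ ∀ᶠ s in atTop, c ≤ kk p τ s := by
        rcases hτ.2.eq_or_lt with h | h
        · refine ⟨1 / p, by positivity, ?_⟩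
          filter_upwards [eventually_ge_atTop (1 : ℝ)] with s hs
          rw [h]
          exact ni_pi hp hs
        · obtain ⟨C, hC, hk⟩ := ktar_kk hp hτ.1 h
          have h1 := ni_lim (by norm_num) hk
          have h2 : 0 < -bt p τ := by
            unfold bt
            rw [← neg_div, neg_neg]
            exact div_pos hb hp0
          refine ⟨-bt p τ / 2, by linarith, ?_⟩
          filter_upwards [h1.eventually_const_lt (show -bt p τ / 2 < -bt p τ by linarith)] with s hs
            using hs.le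
      obtain ⟨c, hc, hev⟩ := hl
      have hr : Tendsto (fun s => ∑ j, ∫ x, kk p (φ j) (s + x) ∂(μ j)) atTop
          (𝓝 (∑ j, m j * -bt p (φ j))) := by
        refine tendsto_finset_sum _ fun j _ => ?_
        have hfj := hfin j
        obtain ⟨C, hC, hk⟩ := ktar_kk hp (hφ j).1 (hφπ j)
        have h1 : Tendsto (fun s => ∫ x, kk p (φ j) (s + x) ∂(μ j)) atTop
            (𝓝 (∫ x, -bt p (φ j) ∂(μ j))) := by
          refine tendsto_integral_filter_of_dominated_convergence
            (fun _ => bt p (φ j) + C) ?_ ?_ (integrable_const _) ?_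
          · exact Eventually.of_forall fun s =>
              (hk.cont.comp (continuous_const.add continuous_id)).aestronglyMeasurable
          · refine Eventually.of_forall fun s => Eventually.of_forall fun x => ?_
            rw [Real.norm_eq_abs]
            exact ni_bdd (by norm_num) hC (hbt _ (hbφ j)) hk _
          · refine Eventually.of_forall fun x => ?_
            exact (ni_lim (by norm_num) hk).comp (tendsto_atTop_add_const_right _ _ tendsto_id)
        rw [integral_const, smul_eq_mul] at h1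
        have h2 : (μ j).real univ = m j := by rw [hm]; rfl
        rw [h2] at h1
        exact h1
      have h1 : c ≤ ∑ j, m j * -bt p (φ j) := by
        refine ge_of_tendsto hr ?_
        filter_upwards [hev] with s hs
        exact hs.trans (hle s)
      have h2 : ∑ j, m j * -bt p (φ j) ≤ 0 := by
        refine Finset.sum_nonpos fun j _ => ?_
        have := mul_nonneg (hm0 j) (hbt _ (hbφ j))
        linarith
      linarith
    have hτπ : τ < Real.pi := hlt τ hτ hbτ
    -- common constants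
    obtain ⟨C, c, L, hC, -, -, hK, -, -⟩ := unif hp (insert τ (Finset.univ.image φ)) (by
      intro θ hθ
      rcases Finset.mem_insert.1 hθ with h | h
      · rw [h]
        exact ⟨hτ.1, hτπ⟩
      · obtain ⟨j, -, rfl⟩ := Finset.mem_image.1 h
        exact ⟨(hφ j).1, hφπ j⟩)
    have hkφ : ∀ j, KTar (1 / 2) C (bt p (φ j)) (kk p (φ j)) := fun j =>
      hK _ (Finset.mem_insert_of_mem (Finset.mem_image_of_mem φ (Finset.mem_univ j)))
    have hkτ : KTar (1 / 2) C (bt p τ) (kk p τ) := hK _ (Finset.mem_insert_self _ _)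
    have hcert : ∀ y, kk p τ (-y) ≤ ∑ j, ∫ x, kk p (φ j) (x - y) ∂(μ j) := by
      intro y
      refine (hle (-y)).trans (le_of_eq (Finset.sum_congr rfl fun j _ => ?_))
      refine integral_congr_ae (Eventually.of_forall fun x => ?_)
      show kk p (φ j) (-y + x) = kk p (φ j) (x - y)
      rw [neg_add_eq_sub]
    -- bounds for the potentials
    have hbound : ∀ A : Fin n → ℝ, (∀ j, indicatorOf p f (φ j) < (A j : EReal)) →
        ∀ j, ∀ᶠ x in atTop, ∫ y, kk p (φ j) (x - y) ∂(muf p a) ≤
          A j - (Q.coeff p).re * Real.cos (p * φ j) := by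
      intro A hA j
      have h1 := hA j
      rw [fdat_ind hp F (hφ j).1 (hφπ j)] at h1
      filter_upwards [eventually_lt_of_limsup_lt h1] with x hx
      have h2 : (∫ y, kk p (φ j) (x - y) ∂(muf p a)) + (Q.coeff p).re * Real.cos (p * φ j) <
          A j := by exact_mod_cast hx
      linarith
    have hA0 : ∀ j, ∃ A : ℝ, indicatorOf p f (φ j) < (A : EReal) := fun j => by
      obtain ⟨A, hA, -⟩ := EReal.lt_iff_exists_real_btwn.1 (lt_top_iff_ne_top.2 (hne j))
      exact ⟨A, hA⟩
    choose A0 hA0 using hA0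
    have hcore := fun A hA => nec_core (by norm_num) (by norm_num) hC (fun j => hbt _ (hbφ j))
      (hbt _ hbτ) hkφ hkτ hfin hδ hmom hcert (muf_tame hp F) (muf_top F) (hbound A hA)
    have hmr : ∀ j, (μ j).real univ = m j := fun j => by rw [hm]; rfl
    have hmE : ∀ j, (((μ j univ).toReal : ℝ) : EReal) = (m j : EReal) := fun j => by rw [hm]
    -- `bt` and `bb`
    have hD : ∑ j, bt p (φ j) * (μ j).real univ = -(∑ j, m j * bb p (φ j)) / p := by
      rw [neg_div, Finset.sum_div, ← Finset.sum_neg_distrib]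
      refine Finset.sum_congr rfl fun j _ => ?_
      rw [hmr]
      unfold bt
      ring
    have hDτ : bt p τ = -(bb p τ) / p := rfl
    by_cases hlt' : ∑ j, bt p (φ j) * (μ j).real univ < bt p τ
    · have h1 := (hcore A0 hA0).2.2 hlt'
      have h2 : indicatorOf p f τ = ⊥ := by
        rw [fdat_ind hp F hτ.1 hτπ]
        rw [eq_bot_iff]
        refine le_of_forall_gt fun b hb => ?_
        obtain ⟨b', hb', hbb⟩ := EReal.lt_iff_exists_real_btwn.1 hb
        refine lt_of_le_of_lt ?_ hbb
        refine limsup_le_of_le (h := ?_)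
        filter_upwards [h1.eventually_le_atBot (b' - (Q.coeff p).re * Real.cos (p * τ))] with x hx
        have h3 : (∫ y, kk p τ (x - y) ∂(muf p a)) + (Q.coeff p).re * Real.cos (p * τ) ≤ b' := by
          linarith
        exact_mod_cast h3
      rw [h2]
      exact ⟨bot_le, fun _ => rfl⟩
    · have heq : ∑ j, bt p (φ j) * (μ j).real univ = bt p τ :=
        le_antisymm (hcore A0 hA0).1 (not_lt.1 hlt')
      have hbbeq : bb p τ = ∑ j, m j * bb p (φ j) := by
        rw [hD, hDτ, div_left_inj' hp0.ne'] at heq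
        linarith
      refine ⟨?_, fun h => ?_⟩
      · -- the inequality with real bounds
        have hreal : ∀ A : Fin n → ℝ, (∀ j, indicatorOf p f (φ j) < (A j : EReal)) →
            indicatorOf p f τ ≤ ((∑ j, m j * A j : ℝ) : EReal) := by
          intro A hA
          have h1 := (hcore A hA).2.1
          have hcos : Real.cos (p * τ) = ∑ j, m j * Real.cos (p * φ j) := by
            have h2 : ∀ θ, bb p θ = (-1) ^ p * Real.cos (p * θ) := fun θ => bb_eq p θ
            have h3 : (-1 : ℝ) ^ p * Real.cos (p * τ) =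
                (-1) ^ p * ∑ j, m j * Real.cos (p * φ j) := by
              rw [← h2, hbbeq, Finset.mul_sum]
              refine Finset.sum_congr rfl fun j _ => ?_
              rw [h2]
              ring
            have h4 := congrArg (fun z => (-1 : ℝ) ^ p * z) h3
            simp only [← mul_assoc, neg_one_sq, one_mul] at h4
            exact h4
          rw [fdat_ind hp F hτ.1 hτπ]
          refine EReal.le_of_forall_lt_iff_le.1 fun b hb => ?_
          have hb' : ∑ j, m j * A j < b := by exact_mod_cast hb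
          refine limsup_le_of_le (h := ?_)
          filter_upwards [h1 (b - ∑ j, m j * A j) (by linarith)] with x hx
          have h5 : ∑ j, (A j - (Q.coeff p).re * Real.cos (p * φ j)) * (μ j).real univ =
              ∑ j, m j * A j - (Q.coeff p).re * Real.cos (p * τ) := by
            rw [hcos, Finset.mul_sum, ← Finset.sum_sub_distrib]
            refine Finset.sum_congr rfl fun j _ => ?_
            rw [hmr]
            ring
          rw [h5] at hx
          have h6 : (∫ y, kk p τ (x - y) ∂(muf p a)) + (Q.coeff p).re * Real.cos (p * τ) ≤ b := by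
            linarith
          exact_mod_cast h6
        simp only [hmE]
        by_contra hcon
        rw [not_le] at hcon
        obtain ⟨q, hq1, hq2⟩ := EReal.lt_iff_exists_real_btwn.1 hcon
        obtain ⟨A, hA1, hA2⟩ := (ni_sum m hm0 (fun j => indicatorOf p f (φ j)) hne
          Finset.univ).2 q hq1
        have h1 := hreal A fun j => hA1 j (Finset.mem_univ j)
        have h2 : ((∑ j, m j * A j : ℝ) : EReal) < (q : EReal) := by exact_mod_cast hA2
        exact absurd (h1.trans_lt h2) (not_lt.2 hq2.le)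
      · exfalso
        simp only [← hm] at h
        linarith
  · intro θ₁ θ θ₂ A₁ A₂ h1 h2 h12 hA₁ hA₂
    exact indicatorOf_le_trig hp0 F.ord h1 h2 h12 hA₁ hA₂

end Pool.Agent.IND2I
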