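import Pool.Agent.IND2I.RealI
import Pool.Agent.IND2I.NecInt
import Pool.Agent.IND2I.ClR
import Pool.Agent.IND2I.ClN
import Pool.Agent.IND2I.Ident
import Pool.Agent.Helper25.Ind.IntS

/-!
# IND2I, module Main: all indicators of functions in `N_p`, `p ≥ 1` an integer

PROOF of `twist`.  `‖exp (c I z^p)‖ = exp (-(c) Im (z^p))`; put `f₁ z = f z * exp (-(B I) z^p)`, `‖f₁ z‖ = ‖f z‖ exp (B Im (z^p))`, `Im ((r e^{iθ})^p) = r^p sin (pθ)`: zeros
unchanged, `OrderLE` unchanged, `indicatorOf_eq_add` (`θ' = θ`, `β = B sin (pθ)`).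
PROOF of `int_suff`.  `constr_R` or `constr_N` (according to `∃ r, RE p r ∧ h r ≠ ⊤`) gives `ρ`, `realize` gives `f`, `nec_int` gives `IntCond p g` for
`g = indicatorOf p f`, and `g θ = UL p ρ θ` for `θ ∈ [0, π)`; `ident_R`/`ident_N` (all the angles in their hypotheses are `< π`: `bb θ ≤ 0` and `bb_pi`;
`LE_facts`) give `g = h`.
PROOF of `integer_order`.  (→) `hadamard` with `σ₀ = p`.  If `∑ a^{-p} < ∞`: `indicator_of_summable`.  Otherwise let `c = (Q.coeff p).im` and
`f₁ z = f z * exp (-(c I) z^p)`: `FDat p f₁ a (Q - C (c I) * X^p)`, so `IntCond p (indicatorOf p f₁)` by `nec_int`, and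
`indicatorOf p f₁ θ = indicatorOf p f θ + c sin (pθ)`: take `B = -c`.
(←) `exists_of_trig`; `int_suff` for `h - B sin` and `twist` (`(x - b) + b = x` in `EReal` for real `b`); `IsN.lower` of the twisted function: its
indicator at `π` is `h π = ⊤` (`off`, `bb_pi`, `sin (pπ) = 0`), so `log ‖f₁‖ ≥ r^p` for arbitrarily large `r`.
-/

set_option autoImplicit false

namespace Pool.Agent.IND2I

open MeasureTheory Set Filter Topology Helper25.Ind

theorem twist {p : ℕ} (hp : 1 ≤ p) {f : ℂ → ℂ} (hf : OrderLE p f) (B : ℝ) :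
    OrderLE p (fun z => f z * Complex.exp (-(B * Complex.I) * z ^ p)) ∧
    (∀ z, f z * Complex.exp (-(B * Complex.I) * z ^ p) = 0 ↔ f z = 0) ∧
    ∀ θ, indicatorOf p (fun z => f z * Complex.exp (-(B * Complex.I) * z ^ p)) θ =
      indicatorOf p f θ + ((B * Real.sin (p * θ) : ℝ) : EReal) := by
  have hp0 : (0 : ℝ) < p := by exact_mod_cast hp
  set f₁ : ℂ → ℂ := fun z => f z * Complex.exp (-(B * Complex.I) * z ^ p) with hf₁
  have hz : ∀ z, f₁ z = 0 ↔ f z = 0 := by
    intro z
    simp only [hf₁, mul_eq_zero, Complex.exp_ne_zero, or_false]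
  have hn : ∀ z, ‖f₁ z‖ = Real.exp ((-(B * Complex.I) * z ^ p).re) * ‖f z‖ := by
    intro z
    rw [hf₁, norm_mul, Complex.norm_exp, mul_comm]
  have hl : ∀ z, f z ≠ 0 → Real.log ‖f₁ z‖ = (-(B * Complex.I) * z ^ p).re + Real.log ‖f z‖ := by
    intro z hz
    rw [hn, Real.log_mul (Real.exp_pos _).ne' (norm_ne_zero_iff.mpr hz), Real.log_exp]
  have hc : ((-(B * Complex.I) : ℂ)) = ((0 : ℝ) : ℂ) - B * Complex.I := by simp
  refine ⟨⟨?_, ?_⟩, hz, ?_⟩
  · have h1 : Differentiable ℂ fun z : ℂ => Complex.exp (-(B * Complex.I) * z ^ p) := by fun_prop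
    exact hf.1.mul h1
  · intro σ hσ
    set σ' : ℝ := (p + σ) / 2 with hσ'
    have h1 : (p : ℝ) < σ' := by rw [hσ']; linarith
    have h2 : σ' < σ := by rw [hσ']; linarith
    obtain ⟨R, hR⟩ := hf.2 σ' h1
    have h3 : ∀ᶠ r : ℝ in atTop, (|0| + |B| + 1) ≤ r ^ (σ - σ') :=
      (tendsto_rpow_atTop (by linarith)).eventually_ge_atTop _
    obtain ⟨R', hR'⟩ := (h3.and (eventually_ge_atTop 1)).exists_forall_of_atTop
    refine ⟨max R R', fun z hz => ?_⟩
    obtain ⟨h4, h5⟩ := hR' ‖z‖ (le_trans (le_max_right _ _) hz)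
    have h6 := hR z (le_trans (le_max_left _ _) hz)
    have hz0 : 0 < ‖z‖ := by linarith
    rw [hn]
    calc Real.exp ((-(B * Complex.I) * z ^ p).re) * ‖f z‖
        ≤ Real.exp ((|0| + |B|) * ‖z‖ ^ p) * Real.exp (‖z‖ ^ σ') := by
          refine mul_le_mul (Real.exp_le_exp.mpr ?_) h6 (norm_nonneg _) (Real.exp_pos _).le
          rw [hc]
          exact ints_abs_re p 0 B z
      _ = Real.exp ((|0| + |B|) * ‖z‖ ^ p + ‖z‖ ^ σ') := by rw [Real.exp_add]
      _ ≤ Real.exp (‖z‖ ^ σ) := by
          apply Real.exp_le_exp.mpr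
          have h7 : ‖z‖ ^ p ≤ ‖z‖ ^ σ' := by
            rw [← Real.rpow_natCast]
            exact Real.rpow_le_rpow_of_exponent_le h5 h1.le
          have h8 : ‖z‖ ^ σ = ‖z‖ ^ (σ - σ') * ‖z‖ ^ σ' := by
            rw [← Real.rpow_add hz0]; congr 1; ring
          have h9 : 0 < ‖z‖ ^ σ' := Real.rpow_pos_of_pos hz0 _
          have h10 : 0 ≤ |(0 : ℝ)| + |B| := by positivity
          rw [h8]
          calc (|0| + |B|) * ‖z‖ ^ p + ‖z‖ ^ σ' ≤ (|0| + |B|) * ‖z‖ ^ σ' + ‖z‖ ^ σ' := by
                linarith [mul_le_mul_of_nonneg_left h7 h10]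
            _ = (|0| + |B| + 1) * ‖z‖ ^ σ' := by ring
            _ ≤ ‖z‖ ^ (σ - σ') * ‖z‖ ^ σ' := mul_le_mul_of_nonneg_right h4 h9.le
  · intro θ
    refine indicatorOf_eq_add (Eventually.of_forall fun r => hz _) fun ε hε => ?_
    filter_upwards [eventually_gt_atTop (0 : ℝ)] with r hr hne
    rw [hl _ hne, hc, ints_re p 0 B r θ, Real.rpow_natCast]
    have h1 : (0 * Real.cos (p * θ) + B * Real.sin (p * θ)) * r ^ p +
        Real.log ‖f (r * Complex.exp (θ * Complex.I))‖ -
        Real.log ‖f (r * Complex.exp (θ * Complex.I))‖ - B * Real.sin (p * θ) * r ^ p = 0 := by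
      ring
    rw [h1, abs_zero]
    positivity

theorem int_suff {p : ℕ} (hp : 1 ≤ p) {h : ℝ → EReal} (H : IntCond p h) :
    ∃ f, IsN p f ∧ ∀ θ, indicatorOf p f θ = h θ := by
  by_cases hR : ∃ r, RE p r ∧ h r ≠ ⊤
  · obtain ⟨ρ, hD, hz⟩ := constr_R hp H hR
    obtain ⟨f, a, Q, hN, F, hind⟩ := realize hp hD
    have h1 := ident_R hp H (nec_int hp F) hR fun θ hθ hb => by
      rw [hind θ hθ.1 (CN.lt_pi hθ hb.le), hz θ hθ hb]
    exact ⟨f, hN, fun θ => congrFun h1 θ⟩
  · have hN' : ∀ r, RE p r → h r = ⊤ := by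
      intro r hr
      by_contra hne
      exact hR ⟨r, hr, hne⟩
    obtain ⟨ρ, hD, c1, c2, c3, c4⟩ := constr_N hp H hN'
    obtain ⟨f, a, Q, hN, F, hind⟩ := realize hp hD
    have h1 := ident_N hp H (nec_int hp F) hN'
      (fun l hl => by
        have hf := LE_facts hp hl
        rw [hind l hf.1.le hf.2.1, c1 l hl])
      (fun θ hθ hb ha ht => by
        have hlt := CN.lt_pi hθ hb.le
        rcases c2 θ hθ hb ha ht with h2 | h2
        · left
          rw [hind θ hθ.1 hlt]
          exact h2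
        · right
          intro η hη
          obtain ⟨d, hd1, hd2, hd3, hd4, hd5⟩ := h2 (min η (Real.pi - θ))
            (lt_min hη (by linarith))
          have hd6 : d < Real.pi := by
            have := min_le_right η (Real.pi - θ)
            linarith
          have hd7 : d < θ + η := by
            have := min_le_left η (Real.pi - θ)
            linarith
          refine ⟨d, hd1, hd7, hd3, hd4, ?_⟩
          rw [hind d hd3.1 hd6]
          exact hd5)
      (fun θ hθ hb ha ht => by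
        rw [hind θ hθ.1 (CN.lt_pi hθ hb.le)]
        exact c3 θ hθ hb ha ht)
      (fun θ hθ hb ha ht => by
        have hlt := CN.lt_pi hθ hb
        rcases c4 θ hθ hb ha ht with h2 | h2
        · left
          rw [hind θ hθ.1 hlt]
          exact h2
        · right
          intro η hη
          obtain ⟨d, hd1, hd2, hd3, hd4, hd5⟩ := h2 η hη
          refine ⟨d, hd1, hd2, hd3, hd4, ?_⟩
          rw [hind d hd3.1 (by linarith)]
          exact hd5)
    exact ⟨f, hN, fun θ => congrFun h1 θ⟩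

/-- Description of all indicators of the entire functions of integer order `p` with only negative zeros. -/
theorem integer_order {p : ℕ} (hp : 1 ≤ p) (h : ℝ → EReal) :
    (∃ f, IsN p f ∧ ∀ θ, indicatorOf p f θ = h θ) ↔
      (∃ A B : ℝ, ∀ θ, h θ = ((A * Real.cos (p * θ) + B * Real.sin (p * θ) : ℝ) : EReal)) ∨
      ∃ B : ℝ, IntCond p (fun θ => h θ - ((B * Real.sin (p * θ) : ℝ) : EReal)) := by
  have hp0 : (0 : ℝ) < p := by exact_mod_cast hp
  constructor
  · rintro ⟨f, hN, hind⟩
    obtain ⟨ι, hcnt, a, Q, ha, hdeg, hsum, hzero, hlog⟩ :=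
      hadamard (p := p) hN.differentiable hN.zeros hN.upper hp0 (by linarith)
    have hord : OrderLE p f := ⟨hN.differentiable, hN.upper⟩
    by_cases hs : Summable fun i => a i ^ (-(p : ℝ))
    · left
      obtain ⟨A, B, hAB⟩ := indicator_of_summable hp hord ha hdeg hs hzero hlog
      exact ⟨A, B, fun θ => by rw [← hind θ, hAB θ]⟩
    · right
      obtain ⟨t1, t2, t3⟩ := twist hp hord (Q.coeff p).im
      refine ⟨-(Q.coeff p).im, ?_⟩
      have hF : FDat p (fun z => f z * Complex.exp (-((Q.coeff p).im * Complex.I) * z ^ p)) a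
          (Q - Polynomial.C (((Q.coeff p).im : ℂ) * Complex.I) * Polynomial.X ^ p) := by
        refine ⟨t1, hcnt, ha, ?_, ?_, hsum, hs, ?_, ?_⟩
        · refine (Polynomial.natDegree_sub_le _ _).trans (max_le hdeg ?_)
          exact Polynomial.natDegree_C_mul_X_pow_le _ _
        · rw [Polynomial.coeff_sub, Polynomial.coeff_C_mul, Polynomial.coeff_X_pow, if_pos rfl,
            mul_one, Complex.sub_im, Complex.im_ofReal_mul, Complex.I_im, mul_one, sub_self]
        · intro z
          rw [t2 z, hzero z]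
        · intro z hz
          have hz' : f z ≠ 0 := fun h => hz ((t2 z).2 h)
          obtain ⟨h1, h2⟩ := hlog z hz'
          refine ⟨h1, ?_⟩
          rw [norm_mul, Complex.norm_exp, Real.log_mul (norm_ne_zero_iff.2 hz')
            (Real.exp_pos _).ne', Real.log_exp, h2, Polynomial.eval_sub, Polynomial.eval_mul,
            Polynomial.eval_C, Polynomial.eval_pow, Polynomial.eval_X, Complex.sub_re, neg_mul,
            Complex.neg_re]
          ring
      have h1 := nec_int hp hF
      have h2 : (fun θ => h θ - ((-(Q.coeff p).im * Real.sin (p * θ) : ℝ) : EReal)) =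
          indicatorOf p (fun z => f z * Complex.exp (-((Q.coeff p).im * Complex.I) * z ^ p)) := by
        funext θ
        rw [t3 θ, hind θ, sub_eq_add_neg, ← EReal.coe_neg, neg_mul, neg_neg]
      rw [h2]
      exact h1
  · rintro (⟨A, B, hAB⟩ | ⟨B, H⟩)
    · obtain ⟨f, hN, hf⟩ := exists_of_trig hp A B
      exact ⟨f, hN, fun θ => by rw [hf θ, hAB θ]⟩
    · obtain ⟨f, hN, hf⟩ := int_suff hp H
      obtain ⟨t1, t2, t3⟩ := twist hp ⟨hN.differentiable, hN.upper⟩ B
      have hfin : ∀ θ, indicatorOf p (fun z => f z * Complex.exp (-(B * Complex.I) * z ^ p)) θ =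
          h θ := by
        intro θ
        rw [t3 θ, hf θ]
        exact EReal.sub_add_cancel
      refine ⟨_, ⟨t1.1, fun z hz => hN.zeros z ((t2 z).1 hz), t1.2, ?_⟩, hfin⟩
      intro σ hσ R
      have htop : indicatorOf p (fun z => f z * Complex.exp (-(B * Complex.I) * z ^ p)) Real.pi =
          ⊤ := by
        have h1 := H.off Real.pi ⟨Real.pi_pos.le, le_rfl⟩ (by rw [bb_pi]; exact one_pos)
        rw [t3, hf]
        rw [h1]
        exact EReal.top_add_coe _
      have h1 := frequently_le_of_lt_indicatorOf (ρ := p) (θ := Real.pi) (A := 1)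
        (by rw [htop]; exact EReal.coe_lt_top _)
      obtain ⟨r, hr, hr1⟩ := (h1.and_eventually (eventually_ge_atTop (max R 1))).exists
      have hr2 : 1 ≤ r := (le_max_right _ _).trans hr1
      refine ⟨r * Complex.exp (Real.pi * Complex.I), ?_, ?_⟩
      · rw [suff_norm (by linarith)]
        exact (le_max_left _ _).trans hr1
      · rw [suff_norm (by linarith)]
        refine le_trans (Real.exp_le_exp.2 ?_) hr
        rw [one_mul]
        exact Real.rpow_le_rpow_of_exponent_le hr2 hσ.le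

end Pool.Agent.IND2I
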