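import Pool.Agent.IND2I.Ker1

/-!
# IND2I, module Bg: the background `ω y = η Λ e^{κ (y + M)}` is strictly feasible

PROOF of `bg_ub`.  Let `t = x + M ≥ -L₁` and `J t = ∫_{y > -M} kb (x - y) ω y dy
= η Λ e^{κ t} ∫_{s < t} kb s e^{-κ s} ds` (substitution `s = x - y`).
`t ≥ 0`: `∫_{s<0} kb s e^{-κ s} ≤ C/(1-κ) ≤ 2C` (`κ ≤ 1/2`) and
`∫_0^t kb s e^{-κ s} ≤ ∫_0^t (-β + C e^{-γ s}) e^{-κ s} ≤ -β (1 - e^{-κ t})/κ + C/γ`, so with `C' = 2C + C/γ`
`J ≤ η Λ (C' e^{κ t} - β (e^{κ t} - 1)/κ)`.  Choose `κ` with `κ < γ/2`, `κ ≤ 1/2`, `C' ≤ β i/(2κ)` for all `i`, and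
`η = min 1 (κ/4) ∧ ..`: `J ≤ -η Λ β e^{κ t}/(2κ) + η Λ β/κ ≤ -(η β/(2κ)) Λ e^{κ t} + Λ β/4`.
`-L₁ ≤ t < 0`: `J ≤ η Λ e^{κ t} ∫_{s<0} |kb s| e^{-κ s} ≤ 2 C η Λ ≤ Λ β/4` if also `η ≤ β/(8C)`.
`pb ≤ -β Λ + a E` with `E` from `tail_kb_bdd`.  So `pb + J ≤ -β Λ/2 + a E - (η β/(2κ)) Λ e^{κ t}` for `t ≥ 0` and
`≤ -β Λ/2 + a E` for `t < 0` (there `e^{κ t} ≤ 1`), which is `≤ cb - c₁ Λ e^{κ t}` for `Λ ≥ Λ₁`.
`bg_ul`: `pl ≤ 0`, and `∫_{y>-M} kl (x - y) ω y dy ≤ -η Λ c₂ e^{κ t}`: for `t ≥ 0` use `y ∈ (x, x+1)`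
(`mid`), for `-L₁ ≤ t < 0` use `y ∈ (-M, -M+1)`, `x - y ∈ [-L₁-1, 0]`, where `-kl` has a positive minimum
(continuous and positive on a compact set).
`bg_u0`: `|p0| ≤ β₀ Λ + a C/γ`, `|∫ k₀ (0 - y) ω| ≤ (β₀ + C) ∫_{-M}^0 ω + ∫_{y>0} C e^{-y} ω ≤ C'' Λ e^{κ M}`.
-/

set_option autoImplicit false

namespace Pool.Agent.IND2I

open MeasureTheory Set

/-- the background density -/
noncomputable def om (κ η Λ M y : ℝ) : ℝ := η * Λ * Real.exp (κ * (y + M))

theorem cont_om (κ η Λ M : ℝ) : Continuous (om κ η Λ M) := by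
  unfold om; fun_prop

theorem om_abs (κ η Λ M y : ℝ) : |om κ η Λ M y| = |η * Λ| * Real.exp (κ * (y + M)) := by
  rw [om, abs_mul, abs_of_pos (Real.exp_pos _)]

theorem bgk_int {g : ℝ → ℝ} (hg : Continuous g) {D : ℝ} (hD : ∀ s, |g s| ≤ D * Real.exp s)
    {κ η Λ M : ℝ} (hκ1 : κ < 1) (x : ℝ) :
    IntegrableOn (fun y => g (x - y) * om κ η Λ M y) (Ioi (-M)) := by
  have h1 := (integrableOn_exp_mul_Ioi (a := -(1 - κ)) (by linarith) (-M)).const_mul
    (D * |η * Λ| * Real.exp (x + κ * M))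
  refine Integrable.mono' h1
    ((hg.comp (continuous_const.sub continuous_id)).mul (cont_om _ _ _ _)).aestronglyMeasurable
    (Filter.Eventually.of_forall fun y => ?_)
  rw [Real.norm_eq_abs, abs_mul, om_abs]
  have h2 := mul_le_mul_of_nonneg_right (hD (x - y))
    (mul_nonneg (abs_nonneg (η * Λ)) (Real.exp_pos (κ * (y + M))).le)
  refine h2.trans (le_of_eq ?_)
  have : Real.exp (x - y) * Real.exp (κ * (y + M)) = Real.exp (x + κ * M) * Real.exp (-(1 - κ) * y) := by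
    rw [← Real.exp_add, ← Real.exp_add]; congr 1; ring
  calc D * Real.exp (x - y) * (|η * Λ| * Real.exp (κ * (y + M)))
      = D * |η * Λ| * (Real.exp (x - y) * Real.exp (κ * (y + M))) := by ring
    _ = D * |η * Λ| * Real.exp (x + κ * M) * Real.exp (-(1 - κ) * y) := by rw [this]; ring

theorem bgk_cont {g : ℝ → ℝ} (hg : Continuous g) {D : ℝ} (hD : ∀ s, |g s| ≤ D * Real.exp s)
    {κ η Λ M : ℝ} (hκ1 : κ < 1) :
    Continuous fun x => ∫ y in Ioi (-M), g (x - y) * om κ η Λ M y := by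
  rw [continuous_iff_continuousAt]
  intro x₀
  have hD0 : 0 ≤ D := by
    have := (abs_nonneg _).trans (hD 0)
    simpa using this
  have h1 := (integrableOn_exp_mul_Ioi (a := -(1 - κ)) (by linarith) (-M)).const_mul
    (D * |η * Λ| * Real.exp (x₀ + 1 + κ * M))
  refine continuousAt_of_dominated (Filter.Eventually.of_forall fun x => ?_) ?_ h1
    (Filter.Eventually.of_forall fun y => ?_)
  · exact ((hg.comp (continuous_const.sub continuous_id)).mul (cont_om _ _ _ _)).aestronglyMeasurable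
  · filter_upwards [Iio_mem_nhds (show x₀ < x₀ + 1 by linarith)] with x hx
    refine Filter.Eventually.of_forall fun y => ?_
    rw [Real.norm_eq_abs, abs_mul, om_abs]
    have h2 := mul_le_mul_of_nonneg_right (hD (x - y))
      (mul_nonneg (abs_nonneg (η * Λ)) (Real.exp_pos (κ * (y + M))).le)
    refine h2.trans ?_
    have h3 : Real.exp (x - y) ≤ Real.exp (x₀ + 1 - y) := Real.exp_le_exp.2 (by
      have : x < x₀ + 1 := hx
      linarith)
    have : Real.exp (x₀ + 1 - y) * Real.exp (κ * (y + M)) = Real.exp (x₀ + 1 + κ * M) * Real.exp (-(1 - κ) * y) := by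
      rw [← Real.exp_add, ← Real.exp_add]; congr 1; ring
    calc D * Real.exp (x - y) * (|η * Λ| * Real.exp (κ * (y + M)))
        ≤ D * Real.exp (x₀ + 1 - y) * (|η * Λ| * Real.exp (κ * (y + M))) := by gcongr
      _ = D * |η * Λ| * (Real.exp (x₀ + 1 - y) * Real.exp (κ * (y + M))) := by ring
      _ = D * |η * Λ| * Real.exp (x₀ + 1 + κ * M) * Real.exp (-(1 - κ) * y) := by rw [this]; ring
  · exact ((hg.comp (continuous_id.sub continuous_const)).mul continuous_const).continuousAt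

theorem bgk_subst (g : ℝ → ℝ) (κ η Λ M x : ℝ) :
    ∫ y in Ioi (-M), g (x - y) * om κ η Λ M y
      = η * Λ * Real.exp (κ * (x + M)) * ∫ s in Iic (x + M), g s * Real.exp (-(κ * s)) := by
  rw [integral_Iic_eq_integral_Iio, ← integral_const_mul, ← integral_indicator measurableSet_Ioi,
    ← integral_indicator measurableSet_Iio]
  rw [← integral_sub_left_eq_self (fun s => (Iio (x + M)).indicator
    (fun s => η * Λ * Real.exp (κ * (x + M)) * (g s * Real.exp (-(κ * s)))) s) volume x]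
  refine integral_congr_ae (Filter.Eventually.of_forall fun y => ?_)
  simp only []
  by_cases hy : -M < y
  · rw [indicator_of_mem (show y ∈ Ioi (-M) from hy), indicator_of_mem (show x - y ∈ Iio (x + M) by
      rw [mem_Iio]; linarith)]
    rw [om]
    have : Real.exp (κ * (y + M)) = Real.exp (κ * (x + M)) * Real.exp (-(κ * (x - y))) := by
      rw [← Real.exp_add]; congr 1; ring
    rw [this]; ring
  · rw [indicator_of_notMem (show y ∉ Ioi (-M) from hy), indicator_of_notMem (show x - y ∉ Iio (x + M) by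
      rw [mem_Iio]; linarith)]

theorem bgk_intexp {g : ℝ → ℝ} (hg : Continuous g) {D : ℝ} (hD : ∀ s, |g s| ≤ D * Real.exp s)
    {κ : ℝ} (hκ1 : κ < 1) (t : ℝ) :
    IntegrableOn (fun s => g s * Real.exp (-(κ * s))) (Iic t) := by
  have h1 := (integrableOn_exp_mul_Iic (a := 1 - κ) (by linarith) t).const_mul D
  refine Integrable.mono' h1 (by fun_prop : Continuous fun s => g s * Real.exp (-(κ * s))).aestronglyMeasurable
    (Filter.Eventually.of_forall fun s => ?_)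
  rw [Real.norm_eq_abs, abs_mul, abs_of_pos (Real.exp_pos _)]
  refine (mul_le_mul_of_nonneg_right (hD s) (Real.exp_pos _).le).trans (le_of_eq ?_)
  rw [mul_assoc, ← Real.exp_add]; congr 2; ring


/-- the part on the left -/
theorem bgk_left {g : ℝ → ℝ} {C : ℝ} (hC : 0 ≤ C)
    (hD : ∀ s, s ≤ 0 → |g s| ≤ C * Real.exp s)
    {κ : ℝ} (hκ1 : κ ≤ 1 / 2) {t : ℝ} (ht : t ≤ 0) :
    |∫ s in Iic t, g s * Real.exp (-(κ * s))| ≤ 2 * C := by
  have h1 : ‖∫ s in Iic t, g s * Real.exp (-(κ * s))‖ ≤ ∫ s in Iic t, C * Real.exp ((1 - κ) * s) := by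
    refine norm_integral_le_of_norm_le
      ((integrableOn_exp_mul_Iic (a := 1 - κ) (by linarith) t).const_mul C) ?_
    refine (ae_restrict_iff' measurableSet_Iic).2 (Filter.Eventually.of_forall fun s hs => ?_)
    have hs0 : s ≤ 0 := le_trans hs ht
    rw [Real.norm_eq_abs, abs_mul, abs_of_pos (Real.exp_pos _)]
    refine (mul_le_mul_of_nonneg_right (hD s hs0) (Real.exp_pos _).le).trans (le_of_eq ?_)
    rw [mul_assoc, ← Real.exp_add]; congr 2; ring
  rw [integral_const_mul, integral_exp_mul_Iic (by linarith), Real.norm_eq_abs] at h1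
  refine h1.trans ?_
  have h2 : Real.exp ((1 - κ) * t) ≤ 1 := Real.exp_le_one_iff.2 (by nlinarith)
  have h3 : Real.exp ((1 - κ) * t) / (1 - κ) ≤ 2 := by
    rw [div_le_iff₀ (by linarith)]
    linarith
  nlinarith

theorem bgk_split {g : ℝ → ℝ} (hg : Continuous g) {D : ℝ} (hD : ∀ s, |g s| ≤ D * Real.exp s)
    {κ : ℝ} (hκ1 : κ < 1) (t : ℝ) :
    ∫ s in Iic t, g s * Real.exp (-(κ * s)) =
      (∫ s in Iic (0 : ℝ), g s * Real.exp (-(κ * s))) + ∫ s in (0 : ℝ)..t, g s * Real.exp (-(κ * s)) := by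
  rw [← intervalIntegral.integral_Iic_sub_Iic (bgk_intexp hg hD hκ1 0) (bgk_intexp hg hD hκ1 t)]
  ring

theorem bgk_exp0 {κ : ℝ} (hκ : κ ≠ 0) (t : ℝ) :
    ∫ s in (0 : ℝ)..t, Real.exp (-(κ * s)) = (1 - Real.exp (-(κ * t))) / κ := by
  have h1 := intervalIntegral.integral_comp_mul_left (a := 0) (b := t) (c := -κ)
    (fun x => Real.exp x) (neg_ne_zero.2 hκ)
  simp only [neg_mul, mul_zero] at h1
  rw [h1, integral_exp, Real.exp_zero, smul_eq_mul]
  field_simp
  ring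

/-- the kernel of a supercritical ray -/
theorem bgk_sup {g : ℝ → ℝ} (hg : Continuous g) {C β γ : ℝ} (hC : 0 ≤ C) (hγ : 0 < γ)
    (hD : ∀ s, s ≤ 0 → |g s| ≤ C * Real.exp s)
    (hR : ∀ s, 0 ≤ s → |g s + β| ≤ C * Real.exp (-(γ * s)))
    {D : ℝ} (hD' : ∀ s, |g s| ≤ D * Real.exp s)
    {κ : ℝ} (hκ : 0 < κ) (hκ1 : κ ≤ 1 / 2) {t : ℝ} (ht : 0 ≤ t) :
    ∫ s in Iic t, g s * Real.exp (-(κ * s)) ≤
      2 * C + C / γ - β * ((1 - Real.exp (-(κ * t))) / κ) := by
  rw [bgk_split hg hD' (by linarith) t]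
  have h1 := (abs_le.1 (bgk_left hC hD hκ1 (le_refl 0))).2
  have h2 : ∫ s in (0 : ℝ)..t, g s * Real.exp (-(κ * s)) ≤
      ∫ s in (0 : ℝ)..t, (C * Real.exp (-(γ * s)) - β * Real.exp (-(κ * s))) := by
    refine intervalIntegral.integral_mono_on ht ?_ ?_ fun s hs => ?_
    · exact (by fun_prop : Continuous fun s => g s * Real.exp (-(κ * s))).intervalIntegrable _ _
    · exact (by fun_prop : Continuous fun s =>
        (C * Real.exp (-(γ * s)) - β * Real.exp (-(κ * s)))).intervalIntegrable _ _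
    · have h3 := (abs_le.1 (hR s hs.1)).2
      have h4 : Real.exp (-(κ * s)) ≤ 1 := Real.exp_le_one_iff.2 (by
        have := hs.1
        nlinarith)
      have h5 := Real.exp_pos (-(κ * s))
      have h6 : (g s + β) * Real.exp (-(κ * s)) ≤ C * Real.exp (-(γ * s)) := by
        rcases le_total 0 (g s + β) with h | h
        · nlinarith
        · have := Real.exp_pos (-(γ * s))
          nlinarith [mul_nonneg hC this.le, mul_nonneg (neg_nonneg.2 h) h5.le]
      linarith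
  have h3 : ∫ s in (0 : ℝ)..t, (C * Real.exp (-(γ * s)) - β * Real.exp (-(κ * s))) =
      C * ((1 - Real.exp (-(γ * t))) / γ) - β * ((1 - Real.exp (-(κ * t))) / κ) := by
    rw [intervalIntegral.integral_sub, intervalIntegral.integral_const_mul,
      intervalIntegral.integral_const_mul, bgk_exp0 hγ.ne', bgk_exp0 hκ.ne']
    · exact (by fun_prop : Continuous fun s => C * Real.exp (-(γ * s))).intervalIntegrable _ _
    · exact (by fun_prop : Continuous fun s => β * Real.exp (-(κ * s))).intervalIntegrable _ _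
  have h4 : C * ((1 - Real.exp (-(γ * t))) / γ) ≤ C / γ := by
    rw [div_eq_mul_one_div C γ]
    refine mul_le_mul_of_nonneg_left ?_ hC
    have := Real.exp_pos (-(γ * t))
    gcongr
    linarith
  linarith

/-- absolute bound -/
theorem bgk_abs {g : ℝ → ℝ} (hg : Continuous g) {C B : ℝ} (hC : 0 ≤ C) (hB : ∀ s, |g s| ≤ B)
    (hD : ∀ s, s ≤ 0 → |g s| ≤ C * Real.exp s) {D : ℝ} (hD' : ∀ s, |g s| ≤ D * Real.exp s)
    {κ : ℝ} (hκ : 0 < κ) (hκ1 : κ ≤ 1 / 2) {t : ℝ} (ht : 0 ≤ t) :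
    |∫ s in Iic t, g s * Real.exp (-(κ * s))| ≤ 2 * C + B / κ := by
  have hB0 : 0 ≤ B := (abs_nonneg _).trans (hB 0)
  rw [bgk_split hg hD' (by linarith) t]
  refine (abs_add_le _ _).trans (add_le_add (bgk_left hC hD hκ1 (le_refl 0)) ?_)
  have h2 : ‖∫ s in (0 : ℝ)..t, g s * Real.exp (-(κ * s))‖ ≤
      ∫ s in (0 : ℝ)..t, B * Real.exp (-(κ * s)) := by
    refine intervalIntegral.norm_integral_le_of_norm_le ht
      (Filter.Eventually.of_forall fun s hs => ?_) ?_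
    · rw [Real.norm_eq_abs, abs_mul, abs_of_pos (Real.exp_pos _)]
      exact mul_le_mul_of_nonneg_right (hB s) (Real.exp_pos _).le
    · exact (by fun_prop : Continuous fun s => B * Real.exp (-(κ * s))).intervalIntegrable _ _
  rw [intervalIntegral.integral_const_mul, bgk_exp0 hκ.ne', Real.norm_eq_abs] at h2
  refine h2.trans ?_
  rw [div_eq_mul_one_div B κ]
  refine mul_le_mul_of_nonneg_left ?_ hB0
  have := Real.exp_pos (-(κ * t))
  gcongr
  linarith

/-- lower bound for a positive kernel -/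
theorem bgk_low {g : ℝ → ℝ} (hg : Continuous g) (hpos : ∀ s, 0 ≤ g s) {D : ℝ}
    (hD' : ∀ s, |g s| ≤ D * Real.exp s)
    {κ : ℝ} (hκ : 0 < κ) (hκ1 : κ < 1) {t L c : ℝ} (hL : 0 ≤ L) (ht : -L ≤ t)
    (hc : ∀ s ∈ Icc (-L - 1) 0, c ≤ g s) (hc0 : 0 ≤ c) :
    c ≤ ∫ s in Iic t, g s * Real.exp (-(κ * s)) := by
  have h0 := bgk_intexp hg hD' hκ1 t
  have h1 : ∫ s in Ioc (min t 0 - 1) (min t 0), g s * Real.exp (-(κ * s)) ≤
      ∫ s in Iic t, g s * Real.exp (-(κ * s)) := by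
    refine setIntegral_mono_set h0 (Filter.Eventually.of_forall fun s =>
      mul_nonneg (hpos s) (Real.exp_pos _).le) ?_
    have h5 : Ioc (min t 0 - 1) (min t 0) ⊆ Iic t := fun s hs => hs.2.trans (min_le_left _ _)
    exact h5.eventuallyLE
  refine le_trans ?_ h1
  rw [← intervalIntegral.integral_of_le (by linarith)]
  have h2 : ∫ s in (min t 0 - 1)..(min t 0), c ≤
      ∫ s in (min t 0 - 1)..(min t 0), g s * Real.exp (-(κ * s)) := by
    refine intervalIntegral.integral_mono_on (by linarith) ?_ ?_ fun s hs => ?_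
    · exact intervalIntegrable_const
    · exact (by fun_prop : Continuous fun s => g s * Real.exp (-(κ * s))).intervalIntegrable _ _
    · have hs0 : s ≤ 0 := hs.2.trans (min_le_right _ _)
      have hsL : -L - 1 ≤ s := by
        have h3 : -L ≤ min t 0 := le_min ht (by linarith)
        linarith [hs.1]
      have h3 : 1 ≤ Real.exp (-(κ * s)) := Real.one_le_exp (by nlinarith)
      have h4 := hc s ⟨hsL, hs0⟩
      nlinarith
  rw [intervalIntegral.integral_const] at h2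
  simpa using h2

theorem exp_bd {k : ℝ → ℝ} {A C : ℝ} (hA : 0 ≤ A) (hC : 0 ≤ C) (h1 : ∀ s, |k s| ≤ A + C)
    (h2 : ∀ s, s ≤ 0 → |k s| ≤ C * Real.exp s) (s : ℝ) : |k s| ≤ (A + C) * Real.exp s := by
  rcases le_total 0 s with h | h
  · have := Real.one_le_exp h
    have := h1 s
    nlinarith [mul_nonneg (add_nonneg hA hC) (sub_nonneg.2 (Real.one_le_exp h))]
  · have := h2 s h
    have := Real.exp_pos s
    nlinarith [mul_nonneg hA this.le]

namespace Sys

variable {ι lam : Type} [Fintype ι] [Fintype lam] (S : Sys ι lam)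

/-- the action of the background together with the past -/
noncomputable def ub (a κ η Λ M : ℝ) (i : ι) (x : ℝ) : ℝ :=
  S.pb a Λ M i x + ∫ y in Ioi (-M), S.kb i (x - y) * om κ η Λ M y

noncomputable def ul (a κ η Λ M : ℝ) (j : lam) (x : ℝ) : ℝ :=
  S.pl a M j x + ∫ y in Ioi (-M), S.kl j (x - y) * om κ η Λ M y

noncomputable def u0 (a κ η Λ M : ℝ) : ℝ :=
  S.p0 a Λ M 0 + ∫ y in Ioi (-M), S.k₀ (0 - y) * om κ η Λ M y

theorem kb_exp (i : ι) (s : ℝ) : |S.kb i s| ≤ (S.β i + S.C) * Real.exp s :=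
  exp_bd (S.hβ i).le (zero_le_one.trans S.hC) (S.kb_abs i) (S.hkb i).left s

theorem kl_exp (j : lam) (s : ℝ) : |S.kl j s| ≤ (0 + S.C) * Real.exp s :=
  exp_bd le_rfl (zero_le_one.trans S.hC) (fun s => by rw [zero_add]; exact S.kl_abs j s)
    (S.hkl j).left s

theorem k0_exp (s : ℝ) : |S.k₀ s| ≤ (S.β₀ + S.C) * Real.exp s :=
  exp_bd S.hβ₀.le (zero_le_one.trans S.hC) S.k0_abs S.hk₀.left s

theorem om_kb_int {κ η Λ M : ℝ} (hκ : 0 < κ) (hκ1 : κ < 1) (i : ι) (x : ℝ) :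
    IntegrableOn (fun y => S.kb i (x - y) * om κ η Λ M y) (Ioi (-M)) :=
  bgk_int (S.hkb i).cont (S.kb_exp i) hκ1 x

theorem om_kl_int {κ η Λ M : ℝ} (hκ : 0 < κ) (hκ1 : κ < 1) (j : lam) (x : ℝ) :
    IntegrableOn (fun y => S.kl j (x - y) * om κ η Λ M y) (Ioi (-M)) :=
  bgk_int (S.hkl j).cont (S.kl_exp j) hκ1 x

theorem om_k0_int {κ η Λ M : ℝ} (hκ : 0 < κ) (hκ1 : κ < 1) (x : ℝ) :
    IntegrableOn (fun y => S.k₀ (x - y) * om κ η Λ M y) (Ioi (-M)) :=
  bgk_int S.hk₀.cont S.k0_exp hκ1 x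

theorem cont_ub {a κ η Λ M : ℝ} (hκ : 0 < κ) (hκ1 : κ < 1) (i : ι) :
    Continuous (S.ub a κ η Λ M i) := by
  unfold ub pb
  exact (continuous_const.add (continuous_const.mul ((S.tail_kb_cont i).comp
    (continuous_id.add continuous_const)))).add (bgk_cont (S.hkb i).cont (S.kb_exp i) hκ1)

theorem cont_ul {a κ η Λ M : ℝ} (hκ : 0 < κ) (hκ1 : κ < 1) (j : lam) :
    Continuous (S.ul a κ η Λ M j) := by
  unfold ul pl
  exact (continuous_const.mul ((S.tail_kl_cont j).comp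
    (continuous_id.add continuous_const))).add (bgk_cont (S.hkl j).cont (S.kl_exp j) hκ1)

/-- a positive lower bound of finitely many positive numbers -/
theorem fin_low {α : Type} [Fintype α] (f : α → ℝ) (hf : ∀ a, 0 < f a) :
    ∃ b : ℝ, 0 < b ∧ ∀ a, b ≤ f a := by
  rcases isEmpty_or_nonempty α with h | h
  · exact ⟨1, one_pos, fun a => (h.false a).elim⟩
  · obtain ⟨a₀, ha₀⟩ := Finite.exists_min f
    exact ⟨f a₀, hf a₀, ha₀⟩

/-- an upper bound of finitely many numbers -/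
theorem fin_up {α : Type} [Fintype α] (f : α → ℝ) : ∃ b : ℝ, 1 ≤ b ∧ ∀ a, f a ≤ b := by
  rcases isEmpty_or_nonempty α with h | h
  · exact ⟨1, le_rfl, fun a => (h.false a).elim⟩
  · obtain ⟨a₀, ha₀⟩ := Finite.exists_max f
    exact ⟨max 1 (f a₀), le_max_left _ _, fun a => (ha₀ a).trans (le_max_right _ _)⟩

theorem kl_low (j : lam) {L₁ : ℝ} (hL₁ : 0 ≤ L₁) :
    ∃ c : ℝ, 0 < c ∧ ∀ s ∈ Icc (-L₁ - 1) 0, c ≤ -S.kl j s := by
  obtain ⟨s₀, _, hs₀⟩ := (isCompact_Icc (a := -L₁ - 1) (b := (0 : ℝ))).exists_isMinOn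
    ⟨0, by constructor <;> linarith⟩ (S.hkl j).cont.neg.continuousOn
  exact ⟨-S.kl j s₀, by linarith [(S.hkl j).neg s₀], fun s hs => hs₀ hs⟩

theorem bg {a : ℝ} (ha : 0 ≤ a) {L₁ : ℝ} (hL₁ : 0 ≤ L₁) :
    ∃ κ η c₁ C₁ Λ₁ : ℝ, 0 < κ ∧ κ < S.γ / 2 ∧ 0 < η ∧ 0 < c₁ ∧ 0 < C₁ ∧ 1 ≤ Λ₁ ∧
      ∀ Λ M : ℝ, Λ₁ ≤ Λ → 1 ≤ M →
        (∀ i x, -M - L₁ ≤ x →
          c₁ * Λ * Real.exp (κ * (x + M)) ≤ S.cb i - S.ub a κ η Λ M i x) ∧
        (∀ j x, -M - L₁ ≤ x →
          c₁ * Λ * Real.exp (κ * (x + M)) ≤ S.cl j - S.ul a κ η Λ M j x) ∧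
        |S.u0 a κ η Λ M| ≤ C₁ * Λ * Real.exp (κ * M) := by
  have hC := S.hC
  have hC0 : 0 < S.C := by linarith
  have hγ := S.hγ0
  have hγ1 := S.hγ1
  have hβ₀ := S.hβ₀
  obtain ⟨b, hb, hbβ⟩ := fin_low S.β S.hβ
  choose cl' hcl' hclow using fun j => S.kl_low j hL₁
  obtain ⟨c₂, hc₂, hc₂'⟩ := fin_low cl' hcl'
  obtain ⟨C', hC'⟩ : ∃ C' : ℝ, C' = 2 * S.C + S.C / S.γ := ⟨_, rfl⟩
  have hC'0 : 0 < C' := by rw [hC']; positivity
  obtain ⟨κ, hκ⟩ : ∃ κ : ℝ, κ = min (S.γ / 4) (b / (2 * C')) := ⟨_, rfl⟩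
  have hκ0 : 0 < κ := by rw [hκ]; exact lt_min (by positivity) (by positivity)
  have hκγ : κ ≤ S.γ / 4 := by rw [hκ]; exact min_le_left _ _
  have hκb : κ ≤ b / (2 * C') := by rw [hκ]; exact min_le_right _ _
  have hκ2 : κ ≤ 1 / 2 := by linarith
  obtain ⟨η, hη⟩ : ∃ η : ℝ, η = min (κ / 4) (b / (8 * S.C)) := ⟨_, rfl⟩
  have hη0 : 0 < η := by rw [hη]; exact lt_min (by positivity) (by positivity)
  have hηκ : η ≤ κ / 4 := by rw [hη]; exact min_le_left _ _
  have hηC : η ≤ b / (8 * S.C) := by rw [hη]; exact min_le_right _ _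
  obtain ⟨c₁, hc₁⟩ : ∃ c₁ : ℝ, c₁ = min (min (η * b / (2 * κ)) (b / 4)) (η * c₂ / 2) := ⟨_, rfl⟩
  have hc₁0 : 0 < c₁ := by
    rw [hc₁]; exact lt_min (lt_min (by positivity) (by positivity)) (by positivity)
  have hc₁1 : c₁ ≤ η * b / (2 * κ) := by
    rw [hc₁]; exact (min_le_left _ _).trans (min_le_left _ _)
  have hc₁2 : c₁ ≤ b / 4 := by rw [hc₁]; exact (min_le_left _ _).trans (min_le_right _ _)
  have hc₁3 : c₁ ≤ η * c₂ / 2 := by rw [hc₁]; exact min_le_right _ _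
  obtain ⟨Λb, hΛb1, hΛb⟩ := fin_up fun i =>
    2 * (a * (S.C / S.γ + (2 * S.β i + S.C) * L₁) + |S.cb i|) / b
  obtain ⟨Λl, hΛl1, hΛl⟩ := fin_up fun j => 2 * |S.cl j| * Real.exp (κ * L₁) / (η * c₂)
  refine ⟨κ, η, c₁, S.β₀ + a * (S.C / S.γ) + η * (2 * S.C + (S.β₀ + S.C) / κ), max Λb Λl, hκ0,
    by linarith, hη0, hc₁0, by positivity, hΛb1.trans (le_max_left _ _), fun Λ M hΛ hM => ?_⟩
  have hΛb' : Λb ≤ Λ := (le_max_left _ _).trans hΛ
  have hΛl' : Λl ≤ Λ := (le_max_right _ _).trans hΛ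
  have hΛ0 : 1 ≤ Λ := hΛb1.trans hΛb'
  have hΛ0' : 0 ≤ Λ := by linarith
  refine ⟨fun i x hx => ?_, fun j x hx => ?_, ?_⟩
  · have hβ := S.hβ i
    have hbi := hbβ i
    have e1 := bgk_subst (S.kb i) κ η Λ M x
    obtain ⟨t, ht⟩ : ∃ t, t = x + M := ⟨_, rfl⟩
    have htL : -L₁ ≤ t := by linarith
    have h1 := (abs_le.1 (S.tail_kb_bdd i hL₁ htL)).2
    have h2 := hΛb i
    have h3 : 2 * (a * (S.C / S.γ + (2 * S.β i + S.C) * L₁) + |S.cb i|) ≤ b * Λ := by
      rw [div_le_iff₀ hb] at h2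
      have := mul_le_mul_of_nonneg_right hΛb' hb.le
      linarith
    have h4 := neg_abs_le (S.cb i)
    have h5 : a * ∫ s in Ioi t, (S.kb i s + S.β i) ≤
        a * (S.C / S.γ + (2 * S.β i + S.C) * L₁) := mul_le_mul_of_nonneg_left h1 ha
    have h6 : b * Λ ≤ S.β i * Λ := mul_le_mul_of_nonneg_right hbi (by linarith)
    unfold ub pb
    rw [e1, ← ht]
    have hE := Real.exp_pos (κ * t)
    rcases le_total 0 t with h | h
    · have h7 := bgk_sup (S.hkb i).cont hC0.le (β := S.β i) hγ (S.hkb i).left (S.hkb i).right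
        (S.kb_exp i) hκ0 hκ2 h
      rw [← hC'] at h7
      have h8 : η * Λ * Real.exp (κ * t) * ∫ s in Iic t, S.kb i s * Real.exp (-(κ * s)) ≤
          η * Λ * Real.exp (κ * t) * (C' - S.β i * ((1 - Real.exp (-(κ * t))) / κ)) :=
        mul_le_mul_of_nonneg_left h7 (by positivity)
      have h9 : Real.exp (κ * t) * Real.exp (-(κ * t)) = 1 := by
        rw [← Real.exp_add, add_neg_cancel, Real.exp_zero]
      have h10 : η * Λ * Real.exp (κ * t) * (C' - S.β i * ((1 - Real.exp (-(κ * t))) / κ)) =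
          η * Λ * (C' * Real.exp (κ * t)) - η * Λ * (S.β i / κ) * (Real.exp (κ * t) -
            Real.exp (κ * t) * Real.exp (-(κ * t))) := by
        field_simp
      rw [h9] at h10
      -- C' ≤ β/(2κ)
      have h11 : C' ≤ S.β i / κ / 2 := by
        rw [le_div_iff₀ (by norm_num), le_div_iff₀ hκ0]
        rw [le_div_iff₀ (by positivity)] at hκb
        linarith
      have h12 : η * Λ * (S.β i / κ) ≤ S.β i * Λ / 4 := by
        have : η * (S.β i / κ) ≤ S.β i / 4 := by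
          rw [← mul_div_assoc, div_le_iff₀ hκ0]
          have := mul_le_mul_of_nonneg_right hηκ hβ.le
          linarith
        have := mul_le_mul_of_nonneg_right this hΛ0'
        linarith
      have h13 : c₁ * Λ * Real.exp (κ * t) ≤ η * Λ * (S.β i / κ / 2) * Real.exp (κ * t) := by
        have : c₁ ≤ η * (S.β i / κ / 2) := by
          refine hc₁1.trans ?_
          rw [div_le_iff₀ (by positivity)]
          have : η * (S.β i / κ / 2) * (2 * κ) = η * S.β i := by field_simp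
          rw [this]
          exact mul_le_mul_of_nonneg_left hbi hη0.le
        have : c₁ * Λ ≤ η * Λ * (S.β i / κ / 2) := by
          have := mul_le_mul_of_nonneg_right this hΛ0'
          linarith
        exact mul_le_mul_of_nonneg_right this hE.le
      have h14 : η * Λ * (C' * Real.exp (κ * t)) ≤
          η * Λ * (S.β i / κ / 2) * Real.exp (κ * t) := by
        have : C' * Real.exp (κ * t) ≤ S.β i / κ / 2 * Real.exp (κ * t) :=
          mul_le_mul_of_nonneg_right h11 hE.le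
        have := mul_le_mul_of_nonneg_left this (show 0 ≤ η * Λ by positivity)
        linarith
      have hp : 0 ≤ S.β i * Λ := mul_nonneg hβ.le hΛ0'
      linarith
    · have h7 := (abs_le.1 (bgk_left hC0.le (S.hkb i).left hκ2 h)).2
      have h8 : Real.exp (κ * t) ≤ 1 :=
        Real.exp_le_one_iff.2 (mul_nonpos_of_nonneg_of_nonpos hκ0.le h)
      have h9 : η * Λ * Real.exp (κ * t) * ∫ s in Iic t, S.kb i s * Real.exp (-(κ * s)) ≤
          η * Λ * Real.exp (κ * t) * (2 * S.C) := mul_le_mul_of_nonneg_left h7 (by positivity)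
      have h10 : η * Λ * Real.exp (κ * t) * (2 * S.C) ≤ η * Λ * 1 * (2 * S.C) := by gcongr
      have h11 : η * (2 * S.C) ≤ b / 4 := by
        rw [le_div_iff₀ (by positivity)] at hηC
        linarith
      have h12 : η * Λ * 1 * (2 * S.C) ≤ b * Λ / 4 := by
        have := mul_le_mul_of_nonneg_right h11 hΛ0'
        linarith
      have h13 : c₁ * Λ * Real.exp (κ * t) ≤ b * Λ / 4 := by
        have : c₁ * Λ ≤ b * Λ / 4 := by
          have := mul_le_mul_of_nonneg_right hc₁2 hΛ0'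
          linarith
        have h14 : c₁ * Λ * Real.exp (κ * t) ≤ c₁ * Λ * 1 := by gcongr
        linarith
      linarith
  · have e1 := bgk_subst (S.kl j) κ η Λ M x
    obtain ⟨t, ht⟩ : ∃ t, t = x + M := ⟨_, rfl⟩
    have htL : -L₁ ≤ t := by linarith
    have h1 := S.tail_kl_nonpos j t
    have h2 := hΛl j
    have hE := Real.exp_pos (κ * t)
    have h3 := bgk_low (g := fun s => -S.kl j s) (S.hkl j).cont.neg
      (fun s => by linarith [(S.hkl j).neg s]) (D := 0 + S.C)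
      (fun s => by rw [abs_neg]; exact S.kl_exp j s) hκ0 (by linarith) hL₁ htL
      (fun s hs => (hc₂' j).trans (hclow j s hs)) hc₂.le
    have h4 : ∫ s in Iic t, -S.kl j s * Real.exp (-(κ * s)) =
        -∫ s in Iic t, S.kl j s * Real.exp (-(κ * s)) := by
      rw [← integral_neg]
      exact integral_congr_ae (Filter.Eventually.of_forall fun s => by ring)
    rw [h4] at h3
    unfold ul pl
    rw [e1, ← ht]
    have h5 : a * ∫ s in Ioi t, S.kl j s ≤ 0 := mul_nonpos_of_nonneg_of_nonpos ha h1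
    have h6 : η * Λ * Real.exp (κ * t) * ∫ s in Iic t, S.kl j s * Real.exp (-(κ * s)) ≤
        -(η * Λ * Real.exp (κ * t) * c₂) := by
      have := mul_le_mul_of_nonneg_left h3 (show 0 ≤ η * Λ * Real.exp (κ * t) by positivity)
      linarith
    have h7 : |S.cl j| ≤ η * Λ * Real.exp (κ * t) * c₂ / 2 := by
      rw [div_le_iff₀ (by positivity)] at h2
      have h8 : Real.exp (κ * L₁) * Real.exp (κ * t) ≥ 1 := by
        rw [← Real.exp_add]
        have h12 := mul_nonneg hκ0.le (show 0 ≤ L₁ + t by linarith)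
        exact Real.one_le_exp (by linarith)
      have h9 : 2 * |S.cl j| * Real.exp (κ * L₁) ≤ Λ * (η * c₂) :=
        h2.trans (mul_le_mul_of_nonneg_right hΛl' (by positivity))
      have h10 := mul_le_mul_of_nonneg_right h9 hE.le
      have h11 : 2 * |S.cl j| * 1 ≤ 2 * |S.cl j| * (Real.exp (κ * L₁) * Real.exp (κ * t)) :=
        mul_le_mul_of_nonneg_left h8 (by positivity)
      linarith
    have h8 : c₁ * Λ * Real.exp (κ * t) ≤ η * Λ * Real.exp (κ * t) * c₂ / 2 := by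
      have h9 : c₁ * (Λ * Real.exp (κ * t)) ≤ η * c₂ / 2 * (Λ * Real.exp (κ * t)) :=
        mul_le_mul_of_nonneg_right hc₁3 (by positivity)
      linarith
    have h9 := neg_abs_le (S.cl j)
    linarith
  · have e1 := bgk_subst S.k₀ κ η Λ M 0
    unfold u0 p0
    rw [e1]
    simp only [zero_add]
    have h1 := S.tail_k0_le (show 0 ≤ M by linarith)
    have h2 := bgk_abs S.hk₀.cont hC0.le S.k0_abs S.hk₀.left S.k0_exp hκ0 hκ2
      (show 0 ≤ M by linarith)
    have hM0 : 0 ≤ M := by linarith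
    have hE : 1 ≤ Real.exp (κ * M) := Real.one_le_exp (mul_nonneg hκ0.le hM0)
    have hE2 : Real.exp (-(S.γ * M)) ≤ 1 :=
      Real.exp_le_one_iff.2 (neg_nonpos.2 (mul_nonneg hγ.le hM0))
    have hΛE : Λ ≤ Λ * Real.exp (κ * M) := le_mul_of_one_le_right hΛ0' hE
    have h3 : |(-(S.β₀ * Λ))| ≤ S.β₀ * (Λ * Real.exp (κ * M)) := by
      rw [abs_neg, abs_of_pos (by positivity)]
      exact mul_le_mul_of_nonneg_left hΛE hβ₀.le
    have h4 : |a * ∫ s in Ioi M, (S.k₀ s + S.β₀)| ≤ a * (S.C / S.γ) * (Λ * Real.exp (κ * M)) := by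
      rw [abs_mul, abs_of_nonneg ha]
      have h5 : |∫ s in Ioi M, (S.k₀ s + S.β₀)| ≤ S.C / S.γ * 1 :=
        h1.trans (mul_le_mul_of_nonneg_left hE2 (by positivity))
      have h6 : a * |∫ s in Ioi M, (S.k₀ s + S.β₀)| ≤ a * (S.C / S.γ) * 1 := by
        have := mul_le_mul_of_nonneg_left h5 ha
        linarith
      refine h6.trans (mul_le_mul_of_nonneg_left ?_ (by positivity))
      linarith
    have h5 : |η * Λ * Real.exp (κ * M) * ∫ s in Iic M, S.k₀ s * Real.exp (-(κ * s))| ≤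
        η * (2 * S.C + (S.β₀ + S.C) / κ) * (Λ * Real.exp (κ * M)) := by
      rw [abs_mul, abs_of_pos (show 0 < η * Λ * Real.exp (κ * M) by positivity)]
      have := mul_le_mul_of_nonneg_left h2 (show 0 ≤ η * Λ * Real.exp (κ * M) by positivity)
      linarith
    refine (abs_add_three _ _ _).trans ?_
    linarith

end Sys

end Pool.Agent.IND2I
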