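import Pool.Agent.IND2I.CatDec

/-!
# IND2I, module CatB: the bounds on the `b`-rays

Write `γ, C, ε, G, ..` for the data with index `j`, `x' = x - x j`, `' ` for index `j + 1`, `Λ = m + (3a + f) G`, `β = β θ > 0`.
Zone II (`w - L ≤ x ≤ z' + G'/2`, so `x' ≥ -M - L`).  `dec1`.  `I₀ ≤ -β m + ε/16` (`past`, `x - z ≥ 5/2 G`, `s4`; `L ≤ G/2`).
`a ∫_{Ico z w} = -3 β a G + a ∫_{Ioi (x' + M)} (k + β) - a ∫_{Ioi (x - z)} (k + β)`, the last term `≤ ε/16`.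
`f ∫_{Ico (z+G) (z+2G)} ≤ -β f G + f C/γ (e^{-γ (x - z - 2G)} + e^{-γ (x - z - G)}) ≤ -β f G + 2 ε/16` (`x - z - 2G ≥ G - L ≥ G/2`, `s4`).
Patch term exact; `a' ∫_{Ioo ..} ≤ a' ∫_{Ioi B₀} k (x' - y) + ε/16` (`s3` with `(j, j+1)`, `x ≤ w' - G'/2`);
`f' ∫_{Ico (z'+G') ..} ≤ f' C e^{x - z' - G'} ≤ f' C e^{-G'/2} ≤ ε/16`; `I₆ ≤ ε/16`.  Total `≤ env .. x' + 7 ε/16 ≤ c + 2 ε` by `Patch.b`.
Zone I (`X j ≤ x ≤ w - L`).  `dec1`.  `I₀ ≤ -β m + ε/16`.  `∫_{Ico z w} k (x - y) = ∫_{Ico z x} + ∫_{Ico x w}` where (`x - z ≥ 5/2 G`)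
`∫_{Ico z x} = -β (x - z) + ∫_{Ioi 0} (k + β) - ∫_{Ioi (x - z)} (k + β) ≤ -(5/2) β G + 2 C/γ` and `∫_{Ico x w} ≤ 2 C/γ` (if `x ≤ w`).
`∫_{Ico (z+G) (z+2G)} ≤ -β G + 2 C/γ` (`x ≥ z + 2G`).  Patch term `≤ β Λ/4` (`Patch.bl`, `x' ≤ -M - L`).
`a' ∫_{Ioo} ≤ a' 2C/γ`, `f' ∫ ≤ f' 2C/γ` (`ktar_Ico_le`, `ktar_right_abs`), `I₆ ≤ ε/16`.
Total `≤ -β (m + (5/2) a G + f G) + β Λ/4 + (4C/γ)(a + f + a' + f' + 1) ≤ -β Λ (5/6 - 1/4) + ..  ≤ -|c| ≤ c` by `s5`.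
Zone III (`z' + G'/2 ≤ x ≤ X (j+1)`).  `dec2`.  `past` at `z'`: `≤ -β m' + C e^{-γ G'/2} m' ≤ -β m' + ε/16` (`s4` with `(j, j+1)`),
`a' ∫_{Ico z' w'} ≤ a' 2 C/γ`, `f' ∫ ≤ f' 2 C/γ`, `I₆ ≤ ε/16`, `m' ≥ Λ` (`Lam_le`): `≤ c` by `s5`.
-/

set_option autoImplicit false

namespace Pool.Agent.IND2I

open MeasureTheory Set Filter

namespace Stages

variable {Θ : Type} {P : Plan Θ} (Q : Stages P)

private lemma e4 {i j : ℕ} (hij : i ≤ j) {t K : ℝ} (ht : Q.G j / 2 ≤ t) (hK0 : 0 ≤ K)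
    (hK : K ≤ Q.m j + P.a j + P.f j + 1) :
    P.C i / P.γ i * Real.exp (-(P.γ i * t)) * K ≤ P.ε i / 16 := by
  have hC := P.hC i
  have hγ := P.hγ i
  have h1 : Real.exp (-(P.γ i * t)) ≤ Real.exp (-(P.γ i * (Q.G j / 2))) := by
    rw [Real.exp_le_exp, neg_le_neg_iff]
    exact mul_le_mul_of_nonneg_left ht hγ.le
  refine le_trans ?_ (Q.s4 i j hij)
  refine mul_le_mul ?_ hK hK0 (by positivity)
  exact mul_le_mul_of_nonneg_left h1 (by positivity)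

private lemma e4' {i j : ℕ} (hij : i ≤ j) {t K : ℝ} (ht : Q.G j / 2 ≤ t) (hK0 : 0 ≤ K)
    (hK : K ≤ Q.m j + P.a j + P.f j + 1) :
    P.C i * Real.exp (-(P.γ i * t)) * K ≤ P.ε i / 16 := by
  refine le_trans ?_ (Q.e4 hij ht hK0 hK)
  have hC := P.hC i
  have hγ := P.hγ i
  refine mul_le_mul_of_nonneg_right ?_ hK0
  refine mul_le_mul_of_nonneg_right ?_ (Real.exp_pos _).le
  rw [le_div_iff₀ hγ]
  have := (P.hγ1 i).le
  calc P.C i * P.γ i ≤ P.C i * 1 := mul_le_mul_of_nonneg_left this (by linarith)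
    _ = P.C i := mul_one _

private lemma e3 (j : ℕ) {t K : ℝ} (ht : t ≤ -(Q.G (j + 1) / 2)) (hK0 : 0 ≤ K)
    (hK : K ≤ P.a (j + 1) + P.f (j + 1)) :
    P.C j * Real.exp t * K ≤ P.ε j / 16 := by
  have hC := P.hC j
  have hε := P.hε j
  have h1 : Real.exp t ≤ Real.exp (-(Q.G (j + 1) / 2)) := Real.exp_le_exp.2 ht
  have h2 : 0 ≤ ∫ y, Q.pi (j + 1) y := integral_nonneg (Q.patch (j + 1)).nonneg
  have h3 := P.ha (j + 1 + 1)
  have h4 := P.hf (j + 1 + 1)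
  refine le_trans ?_ ((Q.s3 j (j + 1) (by omega)).trans ?_)
  · refine mul_le_mul ?_ (by linarith) hK0 (by positivity)
    exact mul_le_mul_of_nonneg_left h1 (by linarith)
  · have h5 : ((1 : ℝ) / 2) ^ (j + 1) ≤ 1 := pow_le_one₀ (by norm_num) (by norm_num)
    have h6 : ((1 : ℝ) / 2) ^ (j + 1) * P.ε j ≤ 1 * P.ε j :=
      mul_le_mul_of_nonneg_right h5 hε.le
    linarith

/-- the past -/
private lemma a1 (j : ℕ) {β : ℝ} {k : ℝ → ℝ} (hβ : 0 ≤ β) (hk : KTar (P.γ j) (P.C j) β k) {x : ℝ}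
    (hx : Q.z j + Q.G j / 2 ≤ x) :
    |(∫ y in Iio (Q.z j), k (x - y) * Q.rho y) + β * Q.m j| ≤ P.ε j / 16 := by
  have hG := Q.G1 j
  have hm := Q.m_nonneg j
  have ha := P.ha j
  have hf := P.hf j
  refine (Q.past (P.hγ j) (P.hγ1 j) (P.hC j) hβ hk j (by linarith)).trans ?_
  exact Q.e4' le_rfl (by linarith) hm (by linarith)

private lemma a2 (j : ℕ) {β : ℝ} {k : ℝ → ℝ} (hk : KTar (P.γ j) (P.C j) β k) {x : ℝ}
    (hx : Q.z j + Q.G j / 2 ≤ x) :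
    |P.a j * (∫ y in Ico (Q.z j) (Q.w j), k (x - y)) -
      (-(β * (3 * P.a j * Q.G j)) + P.a j * ∫ s in Ioi (x - Q.x j + Q.M j), (k s + β))| ≤
      P.ε j / 16 := by
  have hG := Q.G1 j
  have hm := Q.m_nonneg j
  have ha := P.ha j
  have hf := P.hf j
  have h0 : x - Q.x j + Q.M j = x - Q.w j := by unfold Stages.x Stages.w; ring
  have h1 := ktar_Ico_eq (P.hγ j) hk (u := Q.z j) (w := Q.w j) (by unfold w; linarith) x
  have h2 := ktar_tail_le (P.hγ j) hk (t := x - Q.z j) (by linarith)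
  rw [h0, h1]
  have h3 : P.a j * (-(β * (Q.w j - Q.z j)) + (∫ s in Ioi (x - Q.w j), (k s + β)) -
      ∫ s in Ioi (x - Q.z j), (k s + β)) - (-(β * (3 * P.a j * Q.G j)) +
      P.a j * ∫ s in Ioi (x - Q.w j), (k s + β)) =
      -(P.a j * ∫ s in Ioi (x - Q.z j), (k s + β)) := by
    unfold w
    ring
  rw [h3, abs_neg, abs_mul, abs_of_nonneg ha]
  have h4 := Q.e4 (le_refl j) (t := x - Q.z j) (by linarith) ha (by linarith)
  calc P.a j * |∫ s in Ioi (x - Q.z j), (k s + β)| ≤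
      P.a j * (P.C j / P.γ j * Real.exp (-(P.γ j * (x - Q.z j)))) :=
        mul_le_mul_of_nonneg_left h2 ha
    _ = P.C j / P.γ j * Real.exp (-(P.γ j * (x - Q.z j))) * P.a j := by ring
    _ ≤ _ := h4

private lemma a3 (j : ℕ) {β : ℝ} {k : ℝ → ℝ} (hk : KTar (P.γ j) (P.C j) β k) {x : ℝ}
    (hx : Q.z j + 5 / 2 * Q.G j ≤ x) :
    |P.f j * (∫ y in Ico (Q.z j + Q.G j) (Q.z j + 2 * Q.G j), k (x - y)) +
      β * (P.f j * Q.G j)| ≤ 2 * (P.ε j / 16) := by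
  have hG := Q.G1 j
  have hm := Q.m_nonneg j
  have ha := P.ha j
  have hf := P.hf j
  have h1 := ktar_Ico_eq (P.hγ j) hk (u := Q.z j + Q.G j) (w := Q.z j + 2 * Q.G j)
    (by linarith) x
  have h2 := ktar_tail_le (P.hγ j) hk (t := x - (Q.z j + 2 * Q.G j)) (by linarith)
  have h2' := ktar_tail_le (P.hγ j) hk (t := x - (Q.z j + Q.G j)) (by linarith)
  have h4 := Q.e4 (le_refl j) (t := x - (Q.z j + 2 * Q.G j)) (by linarith) hf (by linarith)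
  have h4' := Q.e4 (le_refl j) (t := x - (Q.z j + Q.G j)) (by linarith) hf (by linarith)
  rw [h1]
  have h3 : P.f j * (-(β * (Q.z j + 2 * Q.G j - (Q.z j + Q.G j))) +
      (∫ s in Ioi (x - (Q.z j + 2 * Q.G j)), (k s + β)) -
      ∫ s in Ioi (x - (Q.z j + Q.G j)), (k s + β)) + β * (P.f j * Q.G j) =
      P.f j * (∫ s in Ioi (x - (Q.z j + 2 * Q.G j)), (k s + β)) -
      P.f j * ∫ s in Ioi (x - (Q.z j + Q.G j)), (k s + β) := by ring
  rw [h3]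
  refine (abs_sub _ _).trans ?_
  rw [abs_mul, abs_mul, abs_of_nonneg hf]
  have h5 : P.f j * |∫ s in Ioi (x - (Q.z j + 2 * Q.G j)), (k s + β)| ≤ P.ε j / 16 := by
    refine (mul_le_mul_of_nonneg_left h2 hf).trans ?_
    rw [mul_comm]
    exact h4
  have h6 : P.f j * |∫ s in Ioi (x - (Q.z j + Q.G j)), (k s + β)| ≤ P.ε j / 16 := by
    refine (mul_le_mul_of_nonneg_left h2' hf).trans ?_
    rw [mul_comm]
    exact h4'
  linarith

private lemma z_x (j : ℕ) : Q.z (j + 1) = Q.x j + Q.B j := by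
  rw [Q.zs j]
  rfl

private lemma a5 (j : ℕ) {β : ℝ} {k : ℝ → ℝ} (hk : KTar (P.γ j) (P.C j) β k) {x : ℝ}
    (hx : x ≤ Q.X (j + 1)) :
    |P.a (j + 1) * (∫ y in Ioo (Q.x j + Q.B₀ j) (Q.w (j + 1)), k (x - y)) -
      P.a (j + 1) * ∫ y in Ioi (Q.B₀ j), k (x - Q.x j - y)| ≤ P.ε j / 16 := by
  have hG := Q.G1 (j + 1)
  have ha := P.ha (j + 1)
  have hf := P.hf (j + 1)
  have hB := (Q.patch j).hB
  have hzx := Q.z_x j
  have hb : Q.x j + Q.B₀ j < Q.w (j + 1) := by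
    unfold w
    linarith
  have hX : Q.X (j + 1) = Q.w (j + 1) - Q.G (j + 1) / 2 := by
    unfold X w
    ring
  have h1 := ktar_Ioo_split hk hb x
  have h2 : ∫ y in Ioi (Q.x j + Q.B₀ j), k (x - y) = ∫ y in Ioi (Q.B₀ j), k (x - Q.x j - y) := by
    have h3 := (measurePreserving_add_right volume (Q.x j)).setIntegral_preimage_emb
      (measurableEmbedding_addRight (Q.x j)) (fun y => k (x - y)) (Ioi (Q.x j + Q.B₀ j))
    rw [preimage_add_const_Ioi, add_sub_cancel_left] at h3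
    rw [← h3]
    refine setIntegral_congr_fun measurableSet_Ioi fun y _ => ?_
    congr 1
    ring
  have h4 := ktar_right_abs hk (u := Q.w (j + 1)) (x := x) (by linarith) measurableSet_Ici
    (subset_refl (Ici (Q.w (j + 1))))
  rw [h1, h2, ← mul_sub, sub_sub_cancel_left, abs_mul, abs_of_nonneg ha, abs_neg]
  have h5 := Q.e3 j (t := x - Q.w (j + 1)) (by linarith) ha (by linarith)
  refine (mul_le_mul_of_nonneg_left h4 ha).trans ?_
  rw [mul_comm]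
  exact h5

private lemma a6 (j : ℕ) {β : ℝ} {k : ℝ → ℝ} (hk : KTar (P.γ j) (P.C j) β k) {x : ℝ}
    (hx : x ≤ Q.z (j + 1) + Q.G (j + 1) / 2) :
    |P.f (j + 1) * (∫ y in Ico (Q.z (j + 1) + Q.G (j + 1)) (Q.z (j + 1) + 2 * Q.G (j + 1)),
        k (x - y))| ≤ P.ε j / 16 := by
  have hG := Q.G1 (j + 1)
  have ha := P.ha (j + 1)
  have hf := P.hf (j + 1)
  have h4 := ktar_right_abs hk (u := Q.z (j + 1) + Q.G (j + 1)) (x := x) (by linarith)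
    (measurableSet_Ico (a := Q.z (j + 1) + Q.G (j + 1)) (b := Q.z (j + 1) + 2 * Q.G (j + 1)))
    (fun y hy => hy.1)
  rw [abs_mul, abs_of_nonneg hf]
  have h5 := Q.e3 j (t := x - (Q.z (j + 1) + Q.G (j + 1))) (by linarith) hf (by linarith)
  refine (mul_le_mul_of_nonneg_left h4 hf).trans ?_
  rw [mul_comm]
  exact h5

/-- zone II -/
private lemma zone2 (j : ℕ) {θ : Θ} (hθ : θ ∈ P.F j) (hβ : 0 < P.β θ) {x : ℝ}
    (h1 : Q.X j ≤ x) (h2 : x ≤ Q.X (j + 1)) (h3 : Q.w j - Q.L j ≤ x)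
    (h4 : x ≤ Q.z (j + 1) + Q.G (j + 1) / 2) :
    ∫ y, P.k θ (x - y) * Q.rho y ≤ P.c j θ + 2 * P.ε j := by
  have hG := Q.G1 j
  have hε := P.hε j
  have hk := P.hk j θ hθ
  have hxz : Q.z j + 5 / 2 * Q.G j ≤ x := h1
  obtain ⟨I₆, hI6, hI⟩ := Q.dec1 j hβ.le hk h2
  have b1 := Q.a1 j hβ.le hk (x := x) (by linarith)
  have b2 := Q.a2 j hk (x := x) (by linarith)
  have b3 := Q.a3 j hk hxz
  have b5 := Q.a5 j hk h2
  have b6 := Q.a6 j hk h4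
  have hw : Q.x j = Q.w j + Q.M j := rfl
  have hpb := (Q.patch j).b θ hθ hβ (x - Q.x j) (by linarith)
  unfold env at hpb
  have c1 := (abs_le.1 b1).2
  have c2 := (abs_le.1 b2).2
  have c3 := (abs_le.1 b3).2
  have c5 := (abs_le.1 b5).2
  have c6 := (abs_le.1 hI6).2
  have c7 := (abs_le.1 b6).2
  have hΛ : P.β θ * (Q.m j + (3 * P.a j + P.f j) * Q.G j) = P.β θ * Q.m j +
      P.β θ * (3 * P.a j * Q.G j) + P.β θ * (P.f j * Q.G j) := by ring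
  rw [hΛ] at hpb
  rw [hI]
  linarith

/-- zone I -/
private lemma zone1 (j : ℕ) {θ : Θ} (hθ : θ ∈ P.F j) (hβ : 0 < P.β θ) {x : ℝ}
    (h1 : Q.X j ≤ x) (h2 : x ≤ Q.X (j + 1)) (h3 : x ≤ Q.w j - Q.L j) :
    ∫ y, P.k θ (x - y) * Q.rho y ≤ P.c j θ + 2 * P.ε j := by
  have hG := Q.G1 j
  have hG' := Q.G1 (j + 1)
  have hε := P.hε j
  have hε1 := P.hε1 j
  have hk := P.hk j θ hθ
  have hγ := P.hγ j
  have hγ1 := P.hγ1 j
  have hC := P.hC j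
  have ha := P.ha j
  have hf := P.hf j
  have ha' := P.ha (j + 1)
  have hf' := P.hf (j + 1)
  have hm := Q.m_nonneg j
  have hL := Q.L0 j
  have hxz : Q.z j + 5 / 2 * Q.G j ≤ x := h1
  have hw : Q.x j = Q.w j + Q.M j := rfl
  have hww : Q.w j = Q.z j + 3 * Q.G j := rfl
  obtain ⟨D, hD⟩ : ∃ D, D = P.C j / P.γ j := ⟨_, rfl⟩
  have hD1 : 1 ≤ D := by
    rw [hD, le_div_iff₀ hγ]
    linarith
  have hD2 : 2 * P.C j / P.γ j = 2 * D := by rw [hD]; ring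
  have hD4 : 4 * P.C j / P.γ j = 4 * D := by rw [hD]; ring
  obtain ⟨I₆, hI6, hI⟩ := Q.dec1 j hβ.le hk h2
  have b1 := Q.a1 j hβ.le hk (x := x) (by linarith)
  have htail : ∀ t : ℝ, 0 ≤ t → |∫ s in Ioi t, (P.k θ s + P.β θ)| ≤ D := by
    intro t ht
    refine (ktar_tail_le hγ hk ht).trans ?_
    rw [← hD]
    have : Real.exp (-(P.γ j * t)) ≤ 1 := by
      rw [Real.exp_le_one_iff]
      have := mul_nonneg hγ.le ht
      linarith
    calc D * Real.exp (-(P.γ j * t)) ≤ D * 1 := mul_le_mul_of_nonneg_left this (by linarith)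
      _ = D := mul_one D
  -- the block before the patch
  have b2 : ∫ y in Ico (Q.z j) (Q.w j), P.k θ (x - y) ≤ -(5 / 2 * P.β θ * Q.G j) + 4 * D := by
    have hcont : Continuous fun y => P.k θ (x - y) := hk.cont.comp (by fun_prop)
    have hint : ∀ u v : ℝ, IntegrableOn (fun y => P.k θ (x - y)) (Ico u v) := fun u v =>
      (hcont.integrableOn_Icc (a := u) (b := v)).mono_set Ico_subset_Icc_self
    have e1 : Ico (Q.z j) (Q.w j) = Ico (Q.z j) x ∪ Ico x (Q.w j) :=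
      (Ico_union_Ico_eq_Ico (by linarith) (by linarith)).symm
    have e2 : Disjoint (Ico (Q.z j) x) (Ico x (Q.w j)) := by
      rw [Set.disjoint_left]
      intro y hy hy'
      exact absurd hy.2 (not_lt.2 hy'.1)
    rw [e1, setIntegral_union e2 measurableSet_Ico (hint _ _) (hint _ _)]
    have e3 := ktar_Ico_eq hγ hk (u := Q.z j) (w := x) (by linarith) x
    rw [sub_self] at e3
    have e4 := (abs_le.1 (htail 0 le_rfl)).2
    have e5 := (abs_le.1 (htail (x - Q.z j) (by linarith))).1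
    have e6 := ktar_Ico_le hγ hγ1 hC hβ.le hk x (Q.w j) x
    rw [hD2] at e6
    have e7 : P.β θ * (5 / 2 * Q.G j) ≤ P.β θ * (x - Q.z j) :=
      mul_le_mul_of_nonneg_left (by linarith) hβ.le
    rw [e3]
    linarith
  have b3 : ∫ y in Ico (Q.z j + Q.G j) (Q.z j + 2 * Q.G j), P.k θ (x - y) ≤
      -(P.β θ * Q.G j) + 2 * D := by
    have e3 := ktar_Ico_eq hγ hk (u := Q.z j + Q.G j) (w := Q.z j + 2 * Q.G j) (by linarith) x
    have e4 := (abs_le.1 (htail (x - (Q.z j + 2 * Q.G j)) (by linarith))).2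
    have e5 := (abs_le.1 (htail (x - (Q.z j + Q.G j)) (by linarith))).1
    rw [e3]
    have e6 : P.β θ * (Q.z j + 2 * Q.G j - (Q.z j + Q.G j)) = P.β θ * Q.G j := by ring
    linarith
  have b4 := (Q.patch j).bl θ hθ hβ (x - Q.x j) (by linarith)
  have b5 : ∫ y in Ioo (Q.x j + Q.B₀ j) (Q.w (j + 1)), P.k θ (x - y) ≤ 2 * D := by
    have e6 := ktar_Ico_le hγ hγ1 hC hβ.le hk (Q.x j + Q.B₀ j) (Q.w (j + 1)) x
    rw [hD2, integral_Ico_eq_integral_Ioo] at e6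
    exact e6
  have b6 : ∫ y in Ico (Q.z (j + 1) + Q.G (j + 1)) (Q.z (j + 1) + 2 * Q.G (j + 1)),
      P.k θ (x - y) ≤ 2 * D := by
    have e6 := ktar_Ico_le hγ hγ1 hC hβ.le hk (Q.z (j + 1) + Q.G (j + 1))
      (Q.z (j + 1) + 2 * Q.G (j + 1)) x
    rw [hD2] at e6
    exact e6
  have c1 := (abs_le.1 b1).2
  have c6 := (abs_le.1 hI6).2
  have c2 := mul_le_mul_of_nonneg_left b2 ha
  have c3 := mul_le_mul_of_nonneg_left b3 hf
  have c5 := mul_le_mul_of_nonneg_left b5 ha'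
  have c7 := mul_le_mul_of_nonneg_left b6 hf'
  have s5 := Q.s5 j θ hθ hβ
  rw [hD4] at s5
  have hc := neg_abs_le (P.c j θ)
  have d1 : P.a j * (-(5 / 2 * P.β θ * Q.G j) + 4 * D) =
      -(5 / 2 * (P.β θ * (P.a j * Q.G j))) + 4 * (P.a j * D) := by ring
  have d2 : P.f j * (-(P.β θ * Q.G j) + 2 * D) =
      -(P.β θ * (P.f j * Q.G j)) + 2 * (P.f j * D) := by ring
  have d3 : P.β θ * (Q.m j + (3 * P.a j + P.f j) * Q.G j) = P.β θ * Q.m j +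
      3 * (P.β θ * (P.a j * Q.G j)) + P.β θ * (P.f j * Q.G j) := by ring
  have d4 : 4 * D * (P.a j + P.f j + P.a (j + 1) + P.f (j + 1) + 1) = 4 * (P.a j * D) +
      4 * (P.f j * D) + 4 * (P.a (j + 1) * D) + 4 * (P.f (j + 1) * D) + 4 * D := by ring
  have p1 : 0 ≤ P.β θ * Q.m j := mul_nonneg hβ.le hm
  have p2 : 0 ≤ P.β θ * (P.a j * Q.G j) := mul_nonneg hβ.le (mul_nonneg ha (by linarith))
  have p3 : 0 ≤ P.β θ * (P.f j * Q.G j) := mul_nonneg hβ.le (mul_nonneg hf (by linarith))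
  have p4 : 0 ≤ P.f j * D := mul_nonneg hf (by linarith)
  have p5 : 0 ≤ P.a (j + 1) * D := mul_nonneg ha' (by linarith)
  have p6 : 0 ≤ P.f (j + 1) * D := mul_nonneg hf' (by linarith)
  rw [d1] at c2
  rw [d2] at c3
  rw [d3, d4] at s5
  rw [d3] at b4
  rw [hI]
  linarith

/-- zone III -/
private lemma zone3 (j : ℕ) {θ : Θ} (hθ : θ ∈ P.F j) (hβ : 0 < P.β θ) {x : ℝ}
    (h2 : x ≤ Q.X (j + 1)) (h3 : Q.z (j + 1) + Q.G (j + 1) / 2 ≤ x) :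
    ∫ y, P.k θ (x - y) * Q.rho y ≤ P.c j θ + 2 * P.ε j := by
  have hG := Q.G1 j
  have hG' := Q.G1 (j + 1)
  have hε := P.hε j
  have hε1 := P.hε1 j
  have hk := P.hk j θ hθ
  have hγ := P.hγ j
  have hγ1 := P.hγ1 j
  have hC := P.hC j
  have ha := P.ha j
  have hf := P.hf j
  have ha' := P.ha (j + 1)
  have hf' := P.hf (j + 1)
  have hm := Q.m_nonneg j
  have hm' := Q.m_nonneg (j + 1)
  obtain ⟨D, hD⟩ : ∃ D, D = P.C j / P.γ j := ⟨_, rfl⟩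
  have hD1 : 1 ≤ D := by
    rw [hD, le_div_iff₀ hγ]
    linarith
  have hD2 : 2 * P.C j / P.γ j = 2 * D := by rw [hD]; ring
  have hD4 : 4 * P.C j / P.γ j = 4 * D := by rw [hD]; ring
  obtain ⟨I₆, hI6, hI⟩ := Q.dec2 j hβ.le hk h2
  have b1 := (Q.past hγ hγ1 hC hβ.le hk (j + 1) (x := x) (by linarith)).trans
    (Q.e4' (Nat.le_succ j) (t := x - Q.z (j + 1)) (by linarith) hm' (by linarith))
  have b2 := ktar_Ico_le hγ hγ1 hC hβ.le hk (Q.z (j + 1)) (Q.w (j + 1)) x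
  have b6 := ktar_Ico_le hγ hγ1 hC hβ.le hk (Q.z (j + 1) + Q.G (j + 1))
      (Q.z (j + 1) + 2 * Q.G (j + 1)) x
  rw [hD2] at b2 b6
  have c1 := (abs_le.1 b1).2
  have c6 := (abs_le.1 hI6).2
  have c2 := mul_le_mul_of_nonneg_left b2 ha'
  have c7 := mul_le_mul_of_nonneg_left b6 hf'
  have s5 := Q.s5 j θ hθ hβ
  rw [hD4] at s5
  have hLam := mul_le_mul_of_nonneg_left (Q.Lam_le j) hβ.le
  unfold Lam at hLam
  have hc := neg_abs_le (P.c j θ)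
  have d4 : 4 * D * (P.a j + P.f j + P.a (j + 1) + P.f (j + 1) + 1) = 4 * (P.a j * D) +
      4 * (P.f j * D) + 4 * (P.a (j + 1) * D) + 4 * (P.f (j + 1) * D) + 4 * D := by ring
  have p3 : 0 ≤ P.a j * D := mul_nonneg ha (by linarith)
  have p4 : 0 ≤ P.f j * D := mul_nonneg hf (by linarith)
  have p5 : 0 ≤ P.a (j + 1) * D := mul_nonneg ha' (by linarith)
  have p6 : 0 ≤ P.f (j + 1) * D := mul_nonneg hf' (by linarith)
  have p7 : 0 ≤ P.β θ * (Q.m j + (3 * P.a j + P.f j) * Q.G j) :=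
    mul_nonneg hβ.le (add_nonneg hm (mul_nonneg (by linarith) (by linarith)))
  rw [d4] at s5
  rw [hI]
  linarith

theorem block_b (j : ℕ) {θ : Θ} (hθ : θ ∈ P.F j) (hβ : 0 < P.β θ) {x : ℝ}
    (h1 : Q.X j ≤ x) (h2 : x ≤ Q.X (j + 1)) :
    ∫ y, P.k θ (x - y) * Q.rho y ≤ P.c j θ + 2 * P.ε j := by
  by_cases h3 : x ≤ Q.w j - Q.L j
  · exact Q.zone1 j hθ hβ h1 h2 h3
  · by_cases h4 : x ≤ Q.z (j + 1) + Q.G (j + 1) / 2
    · exact Q.zone2 j hθ hβ h1 h2 (by linarith) h4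
    · exact Q.zone3 j hθ hβ h2 (by linarith)

end Stages

end Pool.Agent.IND2I
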