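import Pool.Agent.IND2I.CatDec

/-!
# IND2I, module CatZ: the bounds on the `z`-rays and at the targets

Write `γ, C, ε, G, ..` for the data with index `j`, `x' = x - x j`, `' ` for index `j + 1`.
PROOF of `block_z` (`β = 0`, `X j ≤ x ≤ X (j+1)`).  `dec1`.  `I₀ ≤ C e^{-γ (x - z)} m ≤ ε/16` (`past`, `x - z ≥ 5/2 G`, `s4`).
`a ∫_{Ico z w} k (x - y) = a ∫_{Ioi (x' + M)} k - a ∫_{Ioi (x - z)} k ≤ a ∫_{Ioi (x' + M)} k + ε/16` (`ktar_Ico_eq` with `β = 0`, `x - w = x' + M`,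
`ktar_tail_le`, `s4`).  The filler terms are `≤ 0` (`hneg`: `f = 0`, or `k ≤ 0`).
`a' ∫_{Ioo (x_j + B₀) w'} k (x - y) = a' ∫_{Ioi B₀} k (x' - y) - a' ∫_{Ici w'} k (x - y)`, the last one is `≤ a' C e^{x - w'} ≤ a' C e^{-G'/2} ≤ ε/16`
(`ktar_right_abs`, `s3` with `(j, j+1)`).  `I₆ ≤ ε/16`.  Total `≤ env (k θ) 0 .. x' + 4 ε/16 ≤ c θ + ε + ε`.
PROOF of `target`: `x = x j`, `x' = 0`, `k = k (t j)`, `β = β (t j) ≥ 0`.  `X j ≤ x j ≤ z (j+1) ≤ X (j+1)`.  `I₀ ≥ -β m - ε/16`.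
`a ∫_{Ico z w} = -β 3 a G + a ∫_{Ioi M} (k + β) - a ∫_{Ioi (x - z)} (k + β)`, last term `≥ -ε/16`.
`f ∫_{Ico (z+G) (z+2G)} = -β f G + f ∫_{Ioi (x - z - 2G)} (k + β) - f ∫_{Ioi (x - z - G)} (k + β) ≥ -β f G - 2 ε/16` (`x - z - 2G ≥ G`, `s4`).
Patch term exact.  `a' ∫_{Ioo ..} ≥ a' ∫_{Ioi B₀} k (0 - y) - ε/16`.  `f' ∫ .. ≥ -f' C e^{x - z' - G'} ≥ -ε/16` (`s3`).  `I₆ ≥ -ε/16`.
Total `≥ env .. 0 - 7 ε/16 ≥ v - ε - ε`.
-/

set_option autoImplicit false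

namespace Pool.Agent.IND2I

open MeasureTheory Set Filter

namespace Stages

variable {Θ : Type} {P : Plan Θ} (Q : Stages P)

private lemma e4 {i j : ℕ} (hij : i ≤ j) {t K : ℝ} (ht : Q.G j / 2 ≤ t) (hK0 : 0 ≤ K)
    (hK : K ≤ Q.m j + P.a j + P.f j + 1) :
    P.C i / P.γ i * Real.exp (-(P.γ i * t)) * K ≤ P.ε i / 16 := by
  have hC := P.hC i
  have hγ := P.hγ i
  have h1 : Real.exp (-(P.γ i * t)) ≤ Real.exp (-(P.γ i * (Q.G j / 2))) := by
    rw [Real.exp_le_exp, neg_le_neg_iff]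
    exact mul_le_mul_of_nonneg_left ht hγ.le
  refine le_trans ?_ (Q.s4 i j hij)
  refine mul_le_mul ?_ hK hK0 (by positivity)
  exact mul_le_mul_of_nonneg_left h1 (by positivity)

private lemma e4' {i j : ℕ} (hij : i ≤ j) {t K : ℝ} (ht : Q.G j / 2 ≤ t) (hK0 : 0 ≤ K)
    (hK : K ≤ Q.m j + P.a j + P.f j + 1) :
    P.C i * Real.exp (-(P.γ i * t)) * K ≤ P.ε i / 16 := by
  refine le_trans ?_ (Q.e4 hij ht hK0 hK)
  have hC := P.hC i
  have hγ := P.hγ i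
  refine mul_le_mul_of_nonneg_right ?_ hK0
  refine mul_le_mul_of_nonneg_right ?_ (Real.exp_pos _).le
  rw [le_div_iff₀ hγ]
  have := (P.hγ1 i).le
  calc P.C i * P.γ i ≤ P.C i * 1 := mul_le_mul_of_nonneg_left this (by linarith)
    _ = P.C i := mul_one _

private lemma e3 (j : ℕ) {t K : ℝ} (ht : t ≤ -(Q.G (j + 1) / 2)) (hK0 : 0 ≤ K)
    (hK : K ≤ P.a (j + 1) + P.f (j + 1)) :
    P.C j * Real.exp t * K ≤ P.ε j / 16 := by
  have hC := P.hC j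
  have hε := P.hε j
  have h1 : Real.exp t ≤ Real.exp (-(Q.G (j + 1) / 2)) := Real.exp_le_exp.2 ht
  have h2 : 0 ≤ ∫ y, Q.pi (j + 1) y := integral_nonneg (Q.patch (j + 1)).nonneg
  have h3 := P.ha (j + 1 + 1)
  have h4 := P.hf (j + 1 + 1)
  refine le_trans ?_ ((Q.s3 j (j + 1) (by omega)).trans ?_)
  · refine mul_le_mul ?_ (by linarith) hK0 (by positivity)
    exact mul_le_mul_of_nonneg_left h1 (by linarith)
  · have h5 : ((1 : ℝ) / 2) ^ (j + 1) ≤ 1 := pow_le_one₀ (by norm_num) (by norm_num)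
    have h6 : ((1 : ℝ) / 2) ^ (j + 1) * P.ε j ≤ 1 * P.ε j :=
      mul_le_mul_of_nonneg_right h5 hε.le
    linarith

/-- the past -/
private lemma a1 (j : ℕ) {β : ℝ} {k : ℝ → ℝ} (hβ : 0 ≤ β) (hk : KTar (P.γ j) (P.C j) β k) {x : ℝ}
    (hx : Q.z j + Q.G j / 2 ≤ x) :
    |(∫ y in Iio (Q.z j), k (x - y) * Q.rho y) + β * Q.m j| ≤ P.ε j / 16 := by
  have hG := Q.G1 j
  have hm := Q.m_nonneg j
  have ha := P.ha j
  have hf := P.hf j
  refine (Q.past (P.hγ j) (P.hγ1 j) (P.hC j) hβ hk j (by linarith)).trans ?_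
  exact Q.e4' le_rfl (by linarith) hm (by linarith)

private lemma a2 (j : ℕ) {β : ℝ} {k : ℝ → ℝ} (hk : KTar (P.γ j) (P.C j) β k) {x : ℝ}
    (hx : Q.z j + Q.G j / 2 ≤ x) :
    |P.a j * (∫ y in Ico (Q.z j) (Q.w j), k (x - y)) -
      (-(β * (3 * P.a j * Q.G j)) + P.a j * ∫ s in Ioi (x - Q.x j + Q.M j), (k s + β))| ≤
      P.ε j / 16 := by
  have hG := Q.G1 j
  have hm := Q.m_nonneg j
  have ha := P.ha j
  have hf := P.hf j
  have h0 : x - Q.x j + Q.M j = x - Q.w j := by unfold Stages.x Stages.w; ring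
  have h1 := ktar_Ico_eq (P.hγ j) hk (u := Q.z j) (w := Q.w j) (by unfold w; linarith) x
  have h2 := ktar_tail_le (P.hγ j) hk (t := x - Q.z j) (by linarith)
  rw [h0, h1]
  have h3 : P.a j * (-(β * (Q.w j - Q.z j)) + (∫ s in Ioi (x - Q.w j), (k s + β)) -
      ∫ s in Ioi (x - Q.z j), (k s + β)) - (-(β * (3 * P.a j * Q.G j)) +
      P.a j * ∫ s in Ioi (x - Q.w j), (k s + β)) =
      -(P.a j * ∫ s in Ioi (x - Q.z j), (k s + β)) := by
    unfold w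
    ring
  rw [h3, abs_neg, abs_mul, abs_of_nonneg ha]
  have h4 := Q.e4 (le_refl j) (t := x - Q.z j) (by linarith) ha (by linarith)
  calc P.a j * |∫ s in Ioi (x - Q.z j), (k s + β)| ≤
      P.a j * (P.C j / P.γ j * Real.exp (-(P.γ j * (x - Q.z j)))) :=
        mul_le_mul_of_nonneg_left h2 ha
    _ = P.C j / P.γ j * Real.exp (-(P.γ j * (x - Q.z j))) * P.a j := by ring
    _ ≤ _ := h4

private lemma a3 (j : ℕ) {β : ℝ} {k : ℝ → ℝ} (hk : KTar (P.γ j) (P.C j) β k) {x : ℝ}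
    (hx : Q.z j + 5 / 2 * Q.G j ≤ x) :
    |P.f j * (∫ y in Ico (Q.z j + Q.G j) (Q.z j + 2 * Q.G j), k (x - y)) +
      β * (P.f j * Q.G j)| ≤ 2 * (P.ε j / 16) := by
  have hG := Q.G1 j
  have hm := Q.m_nonneg j
  have ha := P.ha j
  have hf := P.hf j
  have h1 := ktar_Ico_eq (P.hγ j) hk (u := Q.z j + Q.G j) (w := Q.z j + 2 * Q.G j)
    (by linarith) x
  have h2 := ktar_tail_le (P.hγ j) hk (t := x - (Q.z j + 2 * Q.G j)) (by linarith)
  have h2' := ktar_tail_le (P.hγ j) hk (t := x - (Q.z j + Q.G j)) (by linarith)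
  have h4 := Q.e4 (le_refl j) (t := x - (Q.z j + 2 * Q.G j)) (by linarith) hf (by linarith)
  have h4' := Q.e4 (le_refl j) (t := x - (Q.z j + Q.G j)) (by linarith) hf (by linarith)
  rw [h1]
  have h3 : P.f j * (-(β * (Q.z j + 2 * Q.G j - (Q.z j + Q.G j))) +
      (∫ s in Ioi (x - (Q.z j + 2 * Q.G j)), (k s + β)) -
      ∫ s in Ioi (x - (Q.z j + Q.G j)), (k s + β)) + β * (P.f j * Q.G j) =
      P.f j * (∫ s in Ioi (x - (Q.z j + 2 * Q.G j)), (k s + β)) -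
      P.f j * ∫ s in Ioi (x - (Q.z j + Q.G j)), (k s + β) := by ring
  rw [h3]
  refine (abs_sub _ _).trans ?_
  rw [abs_mul, abs_mul, abs_of_nonneg hf]
  have h5 : P.f j * |∫ s in Ioi (x - (Q.z j + 2 * Q.G j)), (k s + β)| ≤ P.ε j / 16 := by
    refine (mul_le_mul_of_nonneg_left h2 hf).trans ?_
    rw [mul_comm]
    exact h4
  have h6 : P.f j * |∫ s in Ioi (x - (Q.z j + Q.G j)), (k s + β)| ≤ P.ε j / 16 := by
    refine (mul_le_mul_of_nonneg_left h2' hf).trans ?_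
    rw [mul_comm]
    exact h4'
  linarith

private lemma z_x (j : ℕ) : Q.z (j + 1) = Q.x j + Q.B j := by
  rw [Q.zs j]
  rfl

private lemma a5 (j : ℕ) {β : ℝ} {k : ℝ → ℝ} (hk : KTar (P.γ j) (P.C j) β k) {x : ℝ}
    (hx : x ≤ Q.X (j + 1)) :
    |P.a (j + 1) * (∫ y in Ioo (Q.x j + Q.B₀ j) (Q.w (j + 1)), k (x - y)) -
      P.a (j + 1) * ∫ y in Ioi (Q.B₀ j), k (x - Q.x j - y)| ≤ P.ε j / 16 := by
  have hG := Q.G1 (j + 1)
  have ha := P.ha (j + 1)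
  have hf := P.hf (j + 1)
  have hB := (Q.patch j).hB
  have hzx := Q.z_x j
  have hb : Q.x j + Q.B₀ j < Q.w (j + 1) := by
    unfold w
    linarith
  have hX : Q.X (j + 1) = Q.w (j + 1) - Q.G (j + 1) / 2 := by
    unfold X w
    ring
  have h1 := ktar_Ioo_split hk hb x
  have h2 : ∫ y in Ioi (Q.x j + Q.B₀ j), k (x - y) = ∫ y in Ioi (Q.B₀ j), k (x - Q.x j - y) := by
    have h3 := (measurePreserving_add_right volume (Q.x j)).setIntegral_preimage_emb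
      (measurableEmbedding_addRight (Q.x j)) (fun y => k (x - y)) (Ioi (Q.x j + Q.B₀ j))
    rw [preimage_add_const_Ioi, add_sub_cancel_left] at h3
    rw [← h3]
    refine setIntegral_congr_fun measurableSet_Ioi fun y _ => ?_
    congr 1
    ring
  have h4 := ktar_right_abs hk (u := Q.w (j + 1)) (x := x) (by linarith) measurableSet_Ici
    (subset_refl (Ici (Q.w (j + 1))))
  rw [h1, h2, ← mul_sub, sub_sub_cancel_left, abs_mul, abs_of_nonneg ha, abs_neg]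
  have h5 := Q.e3 j (t := x - Q.w (j + 1)) (by linarith) ha (by linarith)
  refine (mul_le_mul_of_nonneg_left h4 ha).trans ?_
  rw [mul_comm]
  exact h5

private lemma a6 (j : ℕ) {β : ℝ} {k : ℝ → ℝ} (hk : KTar (P.γ j) (P.C j) β k) {x : ℝ}
    (hx : x ≤ Q.z (j + 1) + Q.G (j + 1) / 2) :
    |P.f (j + 1) * (∫ y in Ico (Q.z (j + 1) + Q.G (j + 1)) (Q.z (j + 1) + 2 * Q.G (j + 1)),
        k (x - y))| ≤ P.ε j / 16 := by
  have hG := Q.G1 (j + 1)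
  have ha := P.ha (j + 1)
  have hf := P.hf (j + 1)
  have h4 := ktar_right_abs hk (u := Q.z (j + 1) + Q.G (j + 1)) (x := x) (by linarith)
    (measurableSet_Ico (a := Q.z (j + 1) + Q.G (j + 1)) (b := Q.z (j + 1) + 2 * Q.G (j + 1)))
    (fun y hy => hy.1)
  rw [abs_mul, abs_of_nonneg hf]
  have h5 := Q.e3 j (t := x - (Q.z (j + 1) + Q.G (j + 1))) (by linarith) hf (by linarith)
  refine (mul_le_mul_of_nonneg_left h4 hf).trans ?_
  rw [mul_comm]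
  exact h5

theorem block_z (j : ℕ) {θ : Θ} (hθ : θ ∈ P.F j) (hβ : P.β θ = 0) {x : ℝ}
    (h1 : Q.X j ≤ x) (h2 : x ≤ Q.X (j + 1)) :
    ∫ y, P.k θ (x - y) * Q.rho y ≤ P.c j θ + 2 * P.ε j := by
  have hG := Q.G1 j
  have hε := P.hε j
  have hk := P.hk j θ hθ
  have hβ' := P.hβ j θ hθ
  have hxz : Q.z j + 5 / 2 * Q.G j ≤ x := h1
  obtain ⟨I₆, hI6, hI⟩ := Q.dec1 j hβ' hk h2
  have b1 := Q.a1 j hβ' hk (x := x) (by linarith)
  have b2 := Q.a2 j hk (x := x) (by linarith)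
  have b5 := Q.a5 j hk h2
  have hpz := (Q.patch j).z θ hθ hβ (x - Q.x j)
  unfold env at hpz
  rw [hβ] at b1 b2 hpz
  have b3 : P.f j * (∫ y in Ico (Q.z j + Q.G j) (Q.z j + 2 * Q.G j), P.k θ (x - y)) ≤ 0 := by
    rcases P.hneg with h | h
    · rw [h j, zero_mul]
    · exact mul_nonpos_of_nonneg_of_nonpos (P.hf j)
        (integral_nonpos fun y => h j θ hθ hβ (x - y))
  have b6 : P.f (j + 1) * (∫ y in Ico (Q.z (j + 1) + Q.G (j + 1)) (Q.z (j + 1) +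
      2 * Q.G (j + 1)), P.k θ (x - y)) ≤ 0 := by
    rcases P.hneg with h | h
    · rw [h (j + 1), zero_mul]
    · exact mul_nonpos_of_nonneg_of_nonpos (P.hf (j + 1))
        (integral_nonpos fun y => h j θ hθ hβ (x - y))
  have c1 := (abs_le.1 b1).2
  have c2 := (abs_le.1 b2).2
  have c5 := (abs_le.1 b5).2
  have c6 := (abs_le.1 hI6).2
  rw [hI]
  linarith

theorem target (j : ℕ) : Q.X j ≤ Q.x j ∧ Q.x j ≤ Q.X (j + 1) ∧
    P.v j - 2 * P.ε j ≤ ∫ y, P.k (P.t j) (Q.x j - y) * Q.rho y := by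
  have hG := Q.G1 j
  have hG' := Q.G1 (j + 1)
  have hε := P.hε j
  have hk := P.hkt j
  have hβ' := P.hβt j
  have hM := (Q.patch j).hM
  have hB := (Q.patch j).hB0
  have hzx := Q.z_x j
  have hx1 : Q.X j ≤ Q.x j := by
    unfold X x
    linarith
  have hx2 : Q.x j ≤ Q.X (j + 1) := by
    unfold X
    linarith
  refine ⟨hx1, hx2, ?_⟩
  have hxz : Q.z j + 5 / 2 * Q.G j ≤ Q.x j := hx1
  obtain ⟨I₆, hI6, hI⟩ := Q.dec1 j hβ' hk hx2
  have b1 := Q.a1 j hβ' hk (x := Q.x j) (by linarith)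
  have b2 := Q.a2 j hk (x := Q.x j) (by linarith)
  have b3 := Q.a3 j hk hxz
  have b5 := Q.a5 j hk hx2
  have b6 := Q.a6 j hk (x := Q.x j) (by linarith)
  have hpt := (Q.patch j).t
  unfold env at hpt
  rw [sub_self] at b2 b5 hI
  have c1 := (abs_le.1 b1).1
  have c2 := (abs_le.1 b2).1
  have c3 := (abs_le.1 b3).1
  have c5 := (abs_le.1 b5).1
  have c6 := (abs_le.1 hI6).1
  have c7 := (abs_le.1 b6).1
  have hΛ : P.β (P.t j) * (Q.m j + (3 * P.a j + P.f j) * Q.G j) = P.β (P.t j) * Q.m j +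
      P.β (P.t j) * (3 * P.a j * Q.G j) + P.β (P.t j) * (P.f j * Q.G j) := by ring
  rw [hΛ] at hpt
  rw [hI]
  linarith

end Stages

end Pool.Agent.IND2I
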