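import Pool.Agent.IND2I.CatSeq
import Pool.Agent.IND2I.CatZ
import Pool.Agent.IND2I.CatB

/-!
# IND2I, module Cat: the concatenation theorem

PROOF.  `stages_exist`, then `rho` with `X = Q.X`; `rho_*`, `int_k`, `block_z`, `block_b` (`hβ` gives `β θ = 0` or `0 < β θ`), `target`.
Growth: given `δ > 0`, for `x ≥ X j₀` with `1/(j₀ + 1) ≤ δ` the point `x` lies in a block `j ≥ j₀` (`X_tendsto`), `rho_growth`.
-/

set_option autoImplicit false

namespace Pool.Agent.IND2I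

open MeasureTheory Set Filter

theorem cat {Θ : Type} (P : Plan Θ) : ∃ (ρ : ℝ → ℝ) (X : ℕ → ℝ),
    Measurable ρ ∧ (∀ y, 0 ≤ ρ y) ∧ (∀ y, y < 0 → ρ y = 0) ∧
    (∀ x, IntegrableOn ρ (Iio x)) ∧
    (∀ δ : ℝ, 0 < δ → ∀ᶠ x in atTop, ∫ y in Iio x, ρ y ≤ Real.exp (δ * x)) ∧
    Tendsto (fun x => ∫ y in Iio x, ρ y) atTop atTop ∧
    StrictMono X ∧ Tendsto X atTop atTop ∧
    (∀ j x, X j ≤ x → x ≤ X (j + 1) → ∀ θ ∈ P.F j,
      ∫ y, P.k θ (x - y) * ρ y ≤ P.c j θ + 2 * P.ε j) ∧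
    ∀ j, ∃ x, X j ≤ x ∧ x ≤ X (j + 1) ∧
      P.v j - 2 * P.ε j ≤ ∫ y, P.k (P.t j) (x - y) * ρ y := by
  classical
  obtain ⟨Q⟩ := stages_exist P
  refine ⟨Q.rho, Q.X, Q.rho_meas, Q.rho_nonneg, fun y hy => Q.rho_neg hy, Q.rho_intOn, ?_,
    Q.rho_div, Q.X_mono, Q.X_tendsto, ?_, ?_⟩
  · intro δ hδ
    obtain ⟨j0, hj0⟩ := exists_nat_one_div_lt hδ
    filter_upwards [eventually_ge_atTop (max (Q.X j0) 0)] with x hx
    have hx1 : Q.X j0 ≤ x := (le_max_left _ _).trans hx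
    have hx0 : 0 ≤ x := (le_max_right _ _).trans hx
    have hex : ∃ n, x < Q.X n := (Q.X_tendsto.eventually_gt_atTop x).exists
    obtain ⟨n, hn⟩ : ∃ n, n = Nat.find hex := ⟨_, rfl⟩
    have h1 : x < Q.X n := by rw [hn]; exact Nat.find_spec hex
    have h2 : j0 < n := by
      by_contra h3
      push Not at h3
      exact absurd (lt_of_lt_of_le h1 (Q.X_mono.monotone h3)) (not_lt.2 hx1)
    obtain ⟨j, rfl⟩ : ∃ j, n = j + 1 := ⟨n - 1, by omega⟩
    have h3 : Q.X j ≤ x := by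
      have h4 := Nat.find_min hex (m := j) (by omega)
      exact not_lt.1 h4
    refine (Q.rho_growth j h3 h1.le).trans (Real.exp_le_exp.2 ?_)
    have h5 : (j0 : ℝ) ≤ j := by
      have : j0 ≤ j := by omega
      exact_mod_cast this
    have h6 : x / ((j : ℝ) + 1) ≤ x / ((j0 : ℝ) + 1) :=
      div_le_div_of_nonneg_left hx0 (by positivity) (by linarith)
    have h7 : x / ((j0 : ℝ) + 1) = 1 / ((j0 : ℝ) + 1) * x := by ring
    rw [h7] at h6
    exact h6.trans (mul_le_mul_of_nonneg_right hj0.le hx0)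
  · intro j x h1 h2 θ hθ
    rcases (P.hβ j θ hθ).eq_or_lt with h | h
    · exact Q.block_z j hθ h.symm h1 h2
    · exact Q.block_b j hθ h h1 h2
  · intro j
    exact ⟨Q.x j, Q.target j⟩

end Pool.Agent.IND2I
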