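import Pool.Agent.IND2I.CatTail

/-!
# IND2I, module CatDec: decomposition of the potential

PROOF.  Split `ℝ` into `Iio (z i)`, `Ico (z i) (z (i+1))`, `Ico (z (i+1)) (w (i+1))`, `Ici (w (i+1))` (`int_k`: everything is
integrable).  On `Ioo (z i) (z (i+1))` `rho = piece i` (`rho_eq_piece`), on `Ico (z (i+1)) (w (i+1))` (a.e.) `rho = piece (i+1)`, which there is
`a (i+1) + f (i+1) 1_{Ico (z + G) (z + 2G)}` (the patch `π (i+1)` begins at `w (i+1)`; the last term of the piece too, since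
`x + B₀ ≥ x - M = w`).  `∫_{Ico (z i) (z (i+1))} k (x - y) piece i y dy` is the sum of the four terms (the patch is supported in the
window; substitution `y ↦ y + x i`), and `a (i+1) ∫_{Ioo (x i + B₀ i) (z (i+1))} + a (i+1) ∫_{Ico (z (i+1)) (w (i+1))}` is the term with
`Ioo (x i + B₀ i) (w (i+1))` (`B₀ ≤ B`; if `B₀ = B` the first interval is empty).
`I₆ = ∫_{Ici (w (i+1))} k (x - y) rho`, `|k (x - y)| ≤ C e^{x - y}` (`left`, `x ≤ X (i+1) ≤ w (i+1)`), `tail`.
-/

set_option autoImplicit false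

namespace Pool.Agent.IND2I

open MeasureTheory Set Filter

namespace Stages

variable {Θ : Type} {P : Plan Θ} (Q : Stages P)

private theorem cd_basic (j : ℕ) : Q.z j ≤ Q.w j ∧ Q.w j ≤ Q.x j ∧ Q.x j - Q.M j = Q.w j ∧
    Q.w j ≤ Q.x j + Q.B₀ j ∧ Q.x j + Q.B₀ j ≤ Q.z (j + 1) ∧ Q.x j + Q.B j = Q.z (j + 1) ∧
    Q.w j ≤ Q.z (j + 1) ∧ Q.X j ≤ Q.w j ∧ 1 ≤ Q.G j ∧ Q.w j = Q.z j + 3 * Q.G j := by
  have h1 := Q.G1 j
  have h2 := (Q.patch j).hM
  have h3 := (Q.patch j).hB₀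
  have h4 := (Q.patch j).hB
  have h5 := (Q.patch j).hB0
  have h6 := Q.zs j
  refine ⟨?_, ?_, ?_, ?_, ?_, ?_, ?_, ?_, h1, rfl⟩ <;> simp only [w, x, X] <;> linarith

private theorem cd_ind_int {g : ℝ → ℝ} (hg : Continuous g) (a : ℝ) {s : Set ℝ}
    (hs : MeasurableSet s) {b c : ℝ} (hb : s ⊆ Icc b c) :
    Integrable (s.indicator (fun y => a * g y)) := by
  rw [integrable_indicator_iff hs]
  exact ((continuous_const.mul hg).integrableOn_Icc).mono_set hb

private theorem cd_rew {g : ℝ → ℝ} (s : Set ℝ) (a y : ℝ) :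
    g y * s.indicator (fun _ => a) y = s.indicator (fun y => a * g y) y := by
  by_cases h : y ∈ s
  · rw [indicator_of_mem h, indicator_of_mem h, mul_comm]
  · rw [indicator_of_notMem h, indicator_of_notMem h, mul_zero]

private theorem cd_piece (j : ℕ) {g : ℝ → ℝ} (y : ℝ) : g y * Q.piece j y =
    (Ico (Q.z j) (Q.w j)).indicator (fun y => P.a j * g y) y +
    (Ico (Q.z j + Q.G j) (Q.z j + 2 * Q.G j)).indicator (fun y => P.f j * g y) y +
    g y * Q.pi j (y - Q.x j) +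
    (Ioo (Q.x j + Q.B₀ j) (Q.z (j + 1))).indicator (fun y => P.a (j + 1) * g y) y := by
  simp only [piece, mul_add, cd_rew]

/-- the whole piece against a bounded continuous function -/
private theorem cd_win (j : ℕ) {g : ℝ → ℝ} (hg : Continuous g) {K : ℝ} (hK : ∀ y, |g y| ≤ K) :
    ∫ y in Ico (Q.z j) (Q.z (j + 1)), g y * Q.rho y =
      P.a j * (∫ y in Ico (Q.z j) (Q.w j), g y) +
      P.f j * (∫ y in Ico (Q.z j + Q.G j) (Q.z j + 2 * Q.G j), g y) +
      (∫ y, g (y + Q.x j) * Q.pi j y) +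
      P.a (j + 1) * (∫ y in Ioo (Q.x j + Q.B₀ j) (Q.z (j + 1)), g y) := by
  have e1 : ∫ y in Ico (Q.z j) (Q.z (j + 1)), g y * Q.rho y =
      ∫ y, g y * Q.piece j y := by
    rw [integral_Ico_eq_integral_Ioo,
      setIntegral_congr_fun measurableSet_Ioo (g := fun y => g y * Q.piece j y)
        (fun y hy => by
          change g y * Q.rho y = g y * Q.piece j y
          rw [Q.rho_eq_piece hy]),
      ← integral_Icc_eq_integral_Ioo]
    apply setIntegral_eq_integral_of_forall_compl_eq_zero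
    intro y hy
    rw [Q.piece_supp j hy, mul_zero]
  have i1 : Integrable ((Ico (Q.z j) (Q.w j)).indicator (fun y => P.a j * g y)) :=
    cd_ind_int hg _ measurableSet_Ico Ico_subset_Icc_self
  have i2 : Integrable ((Ico (Q.z j + Q.G j) (Q.z j + 2 * Q.G j)).indicator
      (fun y => P.f j * g y)) :=
    cd_ind_int hg _ measurableSet_Ico Ico_subset_Icc_self
  have i3 : Integrable (fun y => g y * Q.pi j (y - Q.x j)) :=
    ((Q.patch j).int.comp_sub_right (Q.x j)).bdd_mul hg.aestronglyMeasurable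
      (Filter.Eventually.of_forall fun y => by rw [Real.norm_eq_abs]; exact hK y)
  have i4 : Integrable ((Ioo (Q.x j + Q.B₀ j) (Q.z (j + 1))).indicator
      (fun y => P.a (j + 1) * g y)) :=
    cd_ind_int hg _ measurableSet_Ioo Ioo_subset_Icc_self
  have e3 : ∫ y, g y * Q.pi j (y - Q.x j) = ∫ y, g (y + Q.x j) * Q.pi j y := by
    rw [← integral_sub_right_eq_self (fun y => g (y + Q.x j) * Q.pi j y) (Q.x j)]
    simp only [sub_add_cancel]
  have j12 : Integrable (fun y => (Ico (Q.z j) (Q.w j)).indicator (fun y => P.a j * g y) y +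
      (Ico (Q.z j + Q.G j) (Q.z j + 2 * Q.G j)).indicator (fun y => P.f j * g y) y) := i1.add i2
  have j123 : Integrable (fun y => (Ico (Q.z j) (Q.w j)).indicator (fun y => P.a j * g y) y +
      (Ico (Q.z j + Q.G j) (Q.z j + 2 * Q.G j)).indicator (fun y => P.f j * g y) y +
      g y * Q.pi j (y - Q.x j)) := j12.add i3
  rw [e1]
  simp only [Q.cd_piece j]
  rw [integral_add j123 i4, integral_add j12 i3, integral_add i1 i2, e3,
    integral_indicator measurableSet_Ico, integral_indicator measurableSet_Ico,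
    integral_indicator measurableSet_Ioo, integral_const_mul, integral_const_mul,
    integral_const_mul]

/-- the beginning of the piece -/
private theorem cd_left (j : ℕ) {g : ℝ → ℝ} (hg : Continuous g) :
    ∫ y in Ico (Q.z j) (Q.w j), g y * Q.rho y =
      P.a j * (∫ y in Ico (Q.z j) (Q.w j), g y) +
      P.f j * (∫ y in Ico (Q.z j + Q.G j) (Q.z j + 2 * Q.G j), g y) := by
  obtain ⟨b1, b2, b3, b4, b5, b6, b7, b8, b9, b10⟩ := Q.cd_basic j
  have e1 : ∫ y in Ico (Q.z j) (Q.w j), g y * Q.rho y =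
      ∫ y in Ico (Q.z j) (Q.w j), g y * Q.piece j y := by
    rw [integral_Ico_eq_integral_Ioo, integral_Ico_eq_integral_Ioo]
    refine setIntegral_congr_fun measurableSet_Ioo fun y hy => ?_
    rw [Q.rho_eq_piece ⟨hy.1, hy.2.trans_le b7⟩]
  have e2 : ∫ y in Ico (Q.z j) (Q.w j), g y * Q.piece j y =
      ∫ y in Ico (Q.z j) (Q.w j), ((Ico (Q.z j) (Q.w j)).indicator (fun y => P.a j * g y) y +
        (Ico (Q.z j + Q.G j) (Q.z j + 2 * Q.G j)).indicator (fun y => P.f j * g y) y) := by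
    refine setIntegral_congr_fun measurableSet_Ico fun y hy => ?_
    rw [Q.cd_piece j, (Q.patch j).supp (y - Q.x j) (fun h => by have := h.1; have := hy.2; linarith),
      indicator_of_notMem (s := Ioo (Q.x j + Q.B₀ j) (Q.z (j + 1)))
        (fun h => by have := h.1; have := hy.2; linarith), mul_zero, add_zero, add_zero]
  have i1 : Integrable ((Ico (Q.z j) (Q.w j)).indicator (fun y => P.a j * g y)) :=
    cd_ind_int hg _ measurableSet_Ico Ico_subset_Icc_self
  have i2 : Integrable ((Ico (Q.z j + Q.G j) (Q.z j + 2 * Q.G j)).indicator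
      (fun y => P.f j * g y)) :=
    cd_ind_int hg _ measurableSet_Ico Ico_subset_Icc_self
  have e3 : Ico (Q.z j) (Q.w j) ∩ Ico (Q.z j + Q.G j) (Q.z j + 2 * Q.G j) =
      Ico (Q.z j + Q.G j) (Q.z j + 2 * Q.G j) := by
    apply inter_eq_right.2
    intro y hy
    exact ⟨by have := hy.1; linarith, by have := hy.2; linarith⟩
  rw [e1, e2, integral_add i1.integrableOn i2.integrableOn,
    setIntegral_indicator measurableSet_Ico, setIntegral_indicator measurableSet_Ico, inter_self,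
    e3, integral_const_mul, integral_const_mul]

private theorem cd_I6 (i : ℕ) {β : ℝ} {k : ℝ → ℝ} (hk : KTar (P.γ i) (P.C i) β k) {x : ℝ}
    (hx : x ≤ Q.X (i + 1)) :
    |∫ y in Ici (Q.w (i + 1)), k (x - y) * Q.rho y| ≤ P.ε i / 16 := by
  obtain ⟨b1, b2, b3, b4, b5, b6, b7, b8, b9, b10⟩ := Q.cd_basic (i + 1)
  obtain ⟨t1, t2⟩ := Q.tail i hx
  refine le_trans ?_ t2
  rw [← Real.norm_eq_abs, ← integral_const_mul]
  refine norm_integral_le_of_norm_le (t1.const_mul _) ?_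
  refine (ae_restrict_iff' measurableSet_Ici).2 (Filter.Eventually.of_forall fun y hy => ?_)
  have hy' : Q.w (i + 1) ≤ y := hy
  have h1 := hk.left (x - y) (by linarith)
  rw [Real.norm_eq_abs, abs_mul, abs_of_nonneg (Q.rho_nonneg y), ← mul_assoc]
  exact mul_le_mul_of_nonneg_right h1 (Q.rho_nonneg y)

private theorem cd_split {f : ℝ → ℝ} (hf : Integrable f) {a b : ℝ} (hab : a ≤ b) :
    ∫ y, f y = (∫ y in Iio a, f y) + (∫ y in Ico a b, f y) + ∫ y in Ici b, f y := by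
  have e1 : ∫ y in Iio b, f y = (∫ y in Iio a, f y) + ∫ y in Ico a b, f y := by
    rw [← Iio_union_Ico_eq_Iio hab]
    exact setIntegral_union (by
      rw [Set.disjoint_left]
      intro y hy hy'
      exact absurd hy'.1 (not_le.2 hy)) measurableSet_Ico hf.integrableOn hf.integrableOn
  rw [← e1, ← integral_add_compl (measurableSet_Iio (a := b)) hf, compl_Iio]

theorem dec2 (i : ℕ) {β : ℝ} {k : ℝ → ℝ} (hβ : 0 ≤ β) (hk : KTar (P.γ i) (P.C i) β k) {x : ℝ}
    (hx : x ≤ Q.X (i + 1)) : ∃ I₆ : ℝ, |I₆| ≤ P.ε i / 16 ∧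
    ∫ y, k (x - y) * Q.rho y =
      (∫ y in Iio (Q.z (i + 1)), k (x - y) * Q.rho y) +
      P.a (i + 1) * (∫ y in Ico (Q.z (i + 1)) (Q.w (i + 1)), k (x - y)) +
      P.f (i + 1) * (∫ y in Ico (Q.z (i + 1) + Q.G (i + 1)) (Q.z (i + 1) + 2 * Q.G (i + 1)),
        k (x - y)) + I₆ := by
  obtain ⟨b1, b2, b3, b4, b5, b6, b7, b8, b9, b10⟩ := Q.cd_basic (i + 1)
  refine ⟨_, Q.cd_I6 i hk hx, ?_⟩
  have hint := Q.int_k (P.hγ i) (P.hγ1 i) (P.hC i) hβ hk x
  have hg : Continuous fun y => k (x - y) := hk.cont.comp (continuous_const.sub continuous_id)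
  rw [cd_split hint b1, Q.cd_left (i + 1) hg]
  ring

theorem dec1 (i : ℕ) {β : ℝ} {k : ℝ → ℝ} (hβ : 0 ≤ β) (hk : KTar (P.γ i) (P.C i) β k) {x : ℝ}
    (hx : x ≤ Q.X (i + 1)) : ∃ I₆ : ℝ, |I₆| ≤ P.ε i / 16 ∧
    ∫ y, k (x - y) * Q.rho y =
      (∫ y in Iio (Q.z i), k (x - y) * Q.rho y) +
      P.a i * (∫ y in Ico (Q.z i) (Q.w i), k (x - y)) +
      P.f i * (∫ y in Ico (Q.z i + Q.G i) (Q.z i + 2 * Q.G i), k (x - y)) +
      (∫ y, k (x - Q.x i - y) * Q.pi i y) +
      P.a (i + 1) * (∫ y in Ioo (Q.x i + Q.B₀ i) (Q.w (i + 1)), k (x - y)) +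
      P.f (i + 1) * (∫ y in Ico (Q.z (i + 1) + Q.G (i + 1)) (Q.z (i + 1) + 2 * Q.G (i + 1)),
        k (x - y)) + I₆ := by
  obtain ⟨b1, b2, b3, b4, b5, b6, b7, b8, b9, b10⟩ := Q.cd_basic i
  obtain ⟨c1, c2, c3, c4, c5, c6, c7, c8, c9, c10⟩ := Q.cd_basic (i + 1)
  obtain ⟨I₆, h1, h2⟩ := Q.dec2 i hβ hk hx
  refine ⟨I₆, h1, ?_⟩
  have hint := Q.int_k (P.hγ i) (P.hγ1 i) (P.hC i) hβ hk x
  have hg : Continuous fun y => k (x - y) := hk.cont.comp (continuous_const.sub continuous_id)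
  have hz : Q.z i ≤ Q.z (i + 1) := b1.trans b7
  have e1 : ∫ y in Iio (Q.z (i + 1)), k (x - y) * Q.rho y =
      (∫ y in Iio (Q.z i), k (x - y) * Q.rho y) +
        ∫ y in Ico (Q.z i) (Q.z (i + 1)), k (x - y) * Q.rho y := by
    rw [← Iio_union_Ico_eq_Iio hz]
    exact setIntegral_union (by
      rw [Set.disjoint_left]
      intro y hy hy'
      exact absurd hy'.1 (not_le.2 hy)) measurableSet_Ico hint.integrableOn hint.integrableOn
  have e2 : (∫ y in Ioo (Q.x i + Q.B₀ i) (Q.z (i + 1)), k (x - y)) +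
      (∫ y in Ico (Q.z (i + 1)) (Q.w (i + 1)), k (x - y)) =
      ∫ y in Ioo (Q.x i + Q.B₀ i) (Q.w (i + 1)), k (x - y) := by
    rw [integral_Ico_eq_integral_Ioo, ← integral_Ioc_eq_integral_Ioo,
      ← integral_Ioc_eq_integral_Ioo, ← integral_Ioc_eq_integral_Ioo,
      ← intervalIntegral.integral_of_le b5, ← intervalIntegral.integral_of_le c1,
      ← intervalIntegral.integral_of_le (b5.trans c1)]
    exact intervalIntegral.integral_add_adjacent_intervals (hg.intervalIntegrable _ _)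
      (hg.intervalIntegrable _ _)
  have e3 := Q.cd_win i hg (K := β + P.C i)
    (fun y => ktar_abs (P.hγ i) (P.hγ1 i) (P.hC i) hβ hk _)
  have e4 : ∫ y, k (x - (y + Q.x i)) * Q.pi i y = ∫ y, k (x - Q.x i - y) * Q.pi i y := by
    congr 1
    ext y
    congr 2
    ring
  rw [e4] at e3
  rw [h2, e1, e3, ← e2]
  ring

end Stages

end Pool.Agent.IND2I
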