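import Pool.Agent.IND2I.PDefs

/-!
# IND2I, module CatG: one step of the construction

PROOF.  `P.hP j` gives `L₁, A, Λ₀` and for every `Λ ≥ Λ₀` a patch.  Put `Λ(G) = m + (3 a + f) G → ∞` (`a + f > 0`).  For every `G` with
`Λ(G) ≥ Λ₀` take the patch for `Λ(G)`; `M, B ≤ A log Λ(G)`, `∫ π ≤ Λ(G)^A`, `B - B₀ ≤ B + M ≤ 2 A log Λ(G)`.  All conditions hold for
all sufficiently large `G`: exponentials beat powers of `Λ(G)` (which is affine in `G`): `e^{-G/2} (Λ(G)^A + const) → 0`,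
`e^{-γ G/2} const → 0`, `(Λ(G) + Λ(G)^A + 2 a' A log Λ(G)) e^{-G/(j+1)} → 0`, `Λ(G) → ∞`; there are finitely many `i ≤ j` and finitely many
`θ ∈ F j`.  Use `Filter.Eventually` in `atTop` and `Real.isLittleO_pow_exp_atTop`-type facts
(`Real.exp (A log Λ) = Λ ^ A`, or: `A log Λ(G) ≤ G/4(j+1)` eventually, since `log` of an affine function is `o(G)`).
-/

set_option autoImplicit false

namespace Pool.Agent.IND2I

open MeasureTheory Set

open Filter in
private theorem catg_log {A m s : ℝ} (hA : 1 ≤ A) (hs : 0 < s) {δ : ℝ} (hδ : 0 < δ) :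
    ∀ᶠ G : ℝ in atTop, A * Real.log (m + s * G) ≤ δ * G := by
  have hΛ : Tendsto (fun G : ℝ => m + s * G) atTop atTop :=
    tendsto_atTop_add_const_left _ _ (tendsto_id.const_mul_atTop hs)
  have h1 := (Real.isLittleO_log_id_atTop.comp_tendsto hΛ).bound
    (c := δ / (2 * A * s)) (by positivity)
  have h2 : ∀ᶠ G : ℝ in atTop, m ≤ s * G :=
    (tendsto_id.const_mul_atTop hs).eventually_ge_atTop m
  have h3 : ∀ᶠ G : ℝ in atTop, 1 ≤ m + s * G := hΛ.eventually_ge_atTop 1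
  filter_upwards [h1, h2, h3] with G h1 h2 h3
  simp only [Function.comp, id, Real.norm_eq_abs] at h1
  rw [abs_of_nonneg (Real.log_nonneg h3), abs_of_nonneg (by linarith)] at h1
  have hA0 : 0 < A := by linarith
  calc A * Real.log (m + s * G) ≤ A * (δ / (2 * A * s) * (m + s * G)) := by gcongr
    _ = δ / (2 * s) * (m + s * G) := by field_simp
    _ ≤ δ / (2 * s) * (2 * (s * G)) := by gcongr; linarith
    _ = δ * G := by field_simp

open Filter in
private theorem catg_exp {a c : ℝ} (ha : 0 < a) (K : ℝ) (hc : 0 < c) :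
    ∀ᶠ G : ℝ in atTop, K * Real.exp (-(a * G)) ≤ c := by
  have h1 : Tendsto (fun G : ℝ => a * G) atTop atTop := tendsto_id.const_mul_atTop ha
  have h2 : Tendsto (fun G : ℝ => K * Real.exp (-(a * G))) atTop (nhds (K * 0)) :=
    (Real.tendsto_exp_neg_atTop_nhds_zero.comp h1).const_mul K
  rw [mul_zero] at h2
  exact h2.eventually_le_const hc

theorem exists_G {Θ : Type} (P : Plan Θ) (j : ℕ) {m : ℝ} (hm : 0 ≤ m) :
    ∃ (G M B₀ B L : ℝ) (pi : ℝ → ℝ), 1 ≤ G ∧ 0 ≤ L ∧ L ≤ G / 2 ∧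
      Patch P.k P.β (P.F j) (P.c j) (P.t j) (P.v j) (P.ε j) (P.a j) (P.a (j + 1))
        (m + (3 * P.a j + P.f j) * G) M B₀ B L pi ∧
      (∀ i, i ≤ j → P.C i * Real.exp (-(G / 2)) *
        ((∫ y, pi y) + P.a j + P.f j + 2 * P.a (j + 1) + P.f (j + 1) + 1) ≤
          (1 / 2) ^ j * P.ε i / 16) ∧
      (∀ i, i ≤ j → P.C i / P.γ i * Real.exp (-(P.γ i * (G / 2))) *
        (m + P.a j + P.f j + 1) ≤ P.ε i / 16) ∧
      (∀ θ ∈ P.F j, 0 < P.β θ → |P.c j θ| +
        4 * P.C j / P.γ j * (P.a j + P.f j + P.a (j + 1) + P.f (j + 1) + 1) ≤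
          P.β θ * (m + (3 * P.a j + P.f j) * G) / 4) ∧
      (m + (3 * P.a j + P.f j) * G + (∫ y, pi y) + P.a (j + 1) * (B - B₀) ≤
        Real.exp (G / (j + 1))) ∧
      ((j : ℝ) + 1) * (P.a (j + 1) + P.f (j + 1)) ≤ Real.exp (G / (j + 1)) ∧
      (j : ℝ) ≤ m + (3 * P.a j + P.f j) * G := by
  obtain ⟨L₁, A, Λ₀, hL₁, hA, hΛ₀, hex⟩ := P.hP j
  have ha := P.ha j
  have hf := P.hf j
  have haf := P.haf j
  have ha' := P.ha (j + 1)
  have hf' := P.hf (j + 1)
  set s := 3 * P.a j + P.f j with hs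
  have hs0 : 0 < s := by linarith
  have hΛ : Filter.Tendsto (fun G : ℝ => m + s * G) Filter.atTop Filter.atTop :=
    Filter.tendsto_atTop_add_const_left _ _ (Filter.tendsto_id.const_mul_atTop hs0)
  have hj0 : (0 : ℝ) < (j : ℝ) + 1 := by positivity
  set K := P.a j + P.f j + 2 * P.a (j + 1) + P.f (j + 1) + 1 with hK
  have hK0 : 0 < K := by linarith
  have hA0 : 0 < A := by linarith
  -- the eventual conditions
  have E1 : ∀ᶠ G : ℝ in Filter.atTop, 1 ≤ G := Filter.eventually_ge_atTop 1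
  have E2 : ∀ᶠ G : ℝ in Filter.atTop, 2 * L₁ ≤ G := Filter.eventually_ge_atTop _
  have E3 : ∀ᶠ G : ℝ in Filter.atTop, Λ₀ ≤ m + s * G := hΛ.eventually_ge_atTop _
  have E4 : ∀ᶠ G : ℝ in Filter.atTop, A * Real.log (m + s * G) ≤ 1 / 4 * G :=
    catg_log hA hs0 (by norm_num)
  have E5 : ∀ᶠ G : ℝ in Filter.atTop, A * Real.log (m + s * G) ≤ 1 / (2 * ((j : ℝ) + 1)) * G :=
    catg_log hA hs0 (by positivity)
  have E6 : ∀ᶠ G : ℝ in Filter.atTop, ∀ i ∈ Finset.range (j + 1),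
      P.C i * (1 + K) * Real.exp (-(1 / 4 * G)) ≤ (1 / 2) ^ j * P.ε i / 16 := by
    rw [Filter.eventually_all_finset]
    intro i _
    have h1 := P.hε i
    exact catg_exp (by norm_num) _ (by positivity)
  have E7 : ∀ᶠ G : ℝ in Filter.atTop, ∀ i ∈ Finset.range (j + 1),
      P.C i / P.γ i * (m + P.a j + P.f j + 1) * Real.exp (-(P.γ i / 2 * G)) ≤ P.ε i / 16 := by
    rw [Filter.eventually_all_finset]
    intro i _
    have h1 := P.hε i
    have h2 := P.hγ i
    exact catg_exp (by positivity) _ (by positivity)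
  have E8 : ∀ᶠ G : ℝ in Filter.atTop, ∀ θ ∈ P.F j, 0 < P.β θ → |P.c j θ| +
        4 * P.C j / P.γ j * (P.a j + P.f j + P.a (j + 1) + P.f (j + 1) + 1) ≤
          P.β θ * (m + s * G) / 4 := by
    rw [Filter.eventually_all_finset]
    intro θ _
    by_cases hβ : 0 < P.β θ
    · filter_upwards [hΛ.eventually_ge_atTop (4 / P.β θ * (|P.c j θ| +
        4 * P.C j / P.γ j * (P.a j + P.f j + P.a (j + 1) + P.f (j + 1) + 1)))] with G hG _
      rw [div_mul_eq_mul_div, div_le_iff₀ hβ] at hG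
      linarith
    · exact Filter.Eventually.of_forall fun G h => absurd h hβ
  have E9 : ∀ᶠ G : ℝ in Filter.atTop, (2 + 2 * P.a (j + 1) * A) *
      Real.exp (-(1 / (2 * ((j : ℝ) + 1)) * G)) ≤ 1 := catg_exp (by positivity) _ one_pos
  have E10 : ∀ᶠ G : ℝ in Filter.atTop, (((j : ℝ) + 1) * (P.a (j + 1) + P.f (j + 1))) *
      Real.exp (-(1 / ((j : ℝ) + 1) * G)) ≤ 1 := catg_exp (by positivity) _ one_pos
  have E11 : ∀ᶠ G : ℝ in Filter.atTop, (j : ℝ) ≤ m + s * G := hΛ.eventually_ge_atTop _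
  obtain ⟨G, h1, h2, h3, h4, h5, h6, h7, h8, h9, h10, h11⟩ := (E1.and (E2.and (E3.and (E4.and
    (E5.and (E6.and (E7.and (E8.and (E9.and (E10.and E11)))))))))).exists
  obtain ⟨M, B₀, B, pi, hM, hB, hpi, hpatch⟩ := hex _ h3
  have hΛ1 : 1 ≤ m + s * G := hΛ₀.trans h3
  have hlog0 : 0 ≤ Real.log (m + s * G) := Real.log_nonneg hΛ1
  refine ⟨G, M, B₀, B, L₁, pi, h1, hL₁, by linarith, hpatch, ?_, ?_, h8, ?_, ?_, h11⟩
  · intro i hi
    have hC := P.hC i
    have e1 : (∫ y, pi y) ≤ Real.exp (1 / 4 * G) := hpi.trans (Real.exp_le_exp.2 h4)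
    have e2 : (1 : ℝ) ≤ Real.exp (1 / 4 * G) := Real.one_le_exp (by linarith)
    have e3 : (∫ y, pi y) + P.a j + P.f j + 2 * P.a (j + 1) + P.f (j + 1) + 1 ≤
        (1 + K) * Real.exp (1 / 4 * G) := by
      have : K ≤ K * Real.exp (1 / 4 * G) := le_mul_of_one_le_right hK0.le e2
      linarith
    calc P.C i * Real.exp (-(G / 2)) *
        ((∫ y, pi y) + P.a j + P.f j + 2 * P.a (j + 1) + P.f (j + 1) + 1)
        ≤ P.C i * Real.exp (-(G / 2)) * ((1 + K) * Real.exp (1 / 4 * G)) := by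
          apply mul_le_mul_of_nonneg_left e3
          positivity
      _ = P.C i * (1 + K) * Real.exp (-(1 / 4 * G)) := by
          have : Real.exp (-(1 / 4 * G)) = Real.exp (-(G / 2)) * Real.exp (1 / 4 * G) := by
            rw [← Real.exp_add]; congr 1; ring
          rw [this]; ring
      _ ≤ _ := h6 i (by simp; omega)
  · intro i hi
    have := h7 i (by simp; omega)
    have e1 : P.γ i / 2 * G = P.γ i * (G / 2) := by ring
    rw [e1] at this
    calc _ = P.C i / P.γ i * (m + P.a j + P.f j + 1) * Real.exp (-(P.γ i * (G / 2))) := by ring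
      _ ≤ _ := this
  · have e0 : m + s * G ≤ Real.exp (A * Real.log (m + s * G)) := by
      calc m + s * G = Real.exp (Real.log (m + s * G)) := (Real.exp_log (by linarith)).symm
        _ ≤ _ := Real.exp_le_exp.2 (le_mul_of_one_le_left hlog0 hA)
    have e1 : Real.log (m + s * G) ≤ Real.exp (A * Real.log (m + s * G)) :=
      (Real.log_le_self (by linarith)).trans e0
    have hB2 : B - B₀ ≤ 2 * A * Real.log (m + s * G) := by
      have := hpatch.hB₀
      linarith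
    have e2 : P.a (j + 1) * (B - B₀) ≤
        2 * P.a (j + 1) * A * Real.exp (A * Real.log (m + s * G)) := by
      calc P.a (j + 1) * (B - B₀) ≤ P.a (j + 1) * (2 * A * Real.log (m + s * G)) := by gcongr
        _ ≤ P.a (j + 1) * (2 * A * Real.exp (A * Real.log (m + s * G))) := by gcongr
        _ = _ := by ring
    have e3 : Real.exp (A * Real.log (m + s * G)) ≤ Real.exp (1 / (2 * ((j : ℝ) + 1)) * G) :=
      Real.exp_le_exp.2 h5
    have e4 : Real.exp (G / ((j : ℝ) + 1)) = Real.exp (1 / (2 * ((j : ℝ) + 1)) * G) *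
        Real.exp (1 / (2 * ((j : ℝ) + 1)) * G) := by
      rw [← Real.exp_add]; congr 1; field_simp; ring
    have e5 : 2 + 2 * P.a (j + 1) * A ≤ Real.exp (1 / (2 * ((j : ℝ) + 1)) * G) := by
      rw [Real.exp_neg, ← div_eq_mul_inv, div_le_one (Real.exp_pos _)] at h9
      exact h9
    calc m + s * G + (∫ y, pi y) + P.a (j + 1) * (B - B₀)
        ≤ (2 + 2 * P.a (j + 1) * A) * Real.exp (A * Real.log (m + s * G)) := by linarith
      _ ≤ Real.exp (1 / (2 * ((j : ℝ) + 1)) * G) * Real.exp (1 / (2 * ((j : ℝ) + 1)) * G) := by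
          gcongr
      _ = _ := e4.symm
  · rw [Real.exp_neg, ← div_eq_mul_inv, div_le_one (Real.exp_pos _)] at h10
    rw [div_eq_mul_inv, mul_comm G, ← one_div]
    exact h10

end Pool.Agent.IND2I
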