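import Pool.Agent.IND2I.PDefs

/-!
# IND2I, module CatRho: elementary properties of the stages and of the density `rho`

PROOF.  `M, B ≥ 0` (`Patch`), `G ≥ 1`: `z (j+1) ≥ z j + 3`.  `piece j` is supported in `[z j, z (j+1)]` (the window of the patch is
`[w j, z (j+1)] = [x j - M j, x j + B j]`), and `∫ piece j = a 3G + f G + ∫ π + a' (B - B₀) = m (j+1) - m j` (`z (j+1) - (x j + B₀) = B - B₀`).
So the sum defining `rho` is finite near every point, `rho = ∑_{i < n} piece i` on `Iio (z n)`; the pieces with `i < n` are supported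
in `Iic (z n)`, so `∫_{Iio (z n)} rho = ∑_{i<n} ∫ piece i = m n - m 0 = m n`.
`growth`: for `X j ≤ x ≤ z (j+1)`: mass `≤ m (j+1) ≤ e^{G j/(j+1)} ≤ e^{x/(j+1)}` (`s6`, `X j ≥ G j`).  For `z (j+1) ≤ x ≤ X (j+1)` (`< w (j+1)`)
the mass is `≤ m (j+1) + (a + f) (x - z)`, `z = z (j+1)`, `a = a (j+1)`, `f = f (j+1)`; by `s6` `m (j+1) ≤ e^{z/(j+1)}` and
`(a + f)(x - z) ≤ e^{z/(j+1)} (x - z)/(j+1) ≤ e^{z/(j+1)} (e^{(x-z)/(j+1)} - 1)`.  Divergence: `m (j+1) ≥ Lam j ≥ j` (`s7`).
-/

set_option autoImplicit false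

namespace Pool.Agent.IND2I

open MeasureTheory Set Filter

namespace Stages

variable {Θ : Type} {P : Plan Θ} (Q : Stages P)

private theorem catRho_int4 {f₁ f₂ f₃ f₄ : ℝ → ℝ} (h₁ : Integrable f₁) (h₂ : Integrable f₂)
    (h₃ : Integrable f₃) (h₄ : Integrable f₄) : ∫ y, (f₁ y + f₂ y + f₃ y + f₄ y) =
      (∫ y, f₁ y) + (∫ y, f₂ y) + (∫ y, f₃ y) + ∫ y, f₄ y := by
  rw [integral_add (f := fun y => f₁ y + f₂ y + f₃ y) ((h₁.add h₂).add h₃) h₄,
    integral_add (f := fun y => f₁ y + f₂ y) (h₁.add h₂) h₃, integral_add h₁ h₂]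

theorem m_nonneg (j : ℕ) : 0 ≤ Q.m j := by
  induction j with
  | zero => rw [Q.m0]
  | succ j ih =>
    rw [Q.ms]
    have h := Q.patch j
    have h1 : 0 ≤ ∫ y, Q.pi j y := integral_nonneg h.nonneg
    have h2 : 0 ≤ (3 * P.a j + P.f j) * Q.G j :=
      mul_nonneg (by linarith [P.ha j, P.hf j]) (by linarith [Q.G1 j])
    have h3 : 0 ≤ P.a (j + 1) * (Q.B j - Q.B₀ j) :=
      mul_nonneg (P.ha _) (by linarith [h.hB])
    linarith

theorem z_step (j : ℕ) : Q.z j + 3 * Q.G j ≤ Q.z (j + 1) := by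
  rw [Q.zs]
  have h := Q.patch j
  linarith [h.hM, h.hB0]

theorem z_ge (j : ℕ) : 3 * (j : ℝ) ≤ Q.z j := by
  induction j with
  | zero =>
    rw [Q.z0]
    simp
  | succ j ih =>
    have h1 := Q.z_step j
    have h2 := Q.G1 j
    push_cast
    linarith

theorem z_mono : StrictMono Q.z := by
  refine strictMono_nat_of_lt_succ fun j => ?_
  have h1 := Q.z_step j
  have h2 := Q.G1 j
  linarith

theorem X_mono : StrictMono Q.X := by
  refine strictMono_nat_of_lt_succ fun j => ?_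
  have h1 := Q.z_step j
  have h2 := Q.G1 j
  have h3 := Q.G1 (j + 1)
  unfold X
  linarith

theorem X_tendsto : Tendsto Q.X atTop atTop := by
  refine tendsto_atTop_mono (f := fun j : ℕ => (j : ℝ)) (fun j => ?_)
    tendsto_natCast_atTop_atTop
  have h1 := Q.z_ge j
  have h2 := Q.G1 j
  have h3 : (0 : ℝ) ≤ j := Nat.cast_nonneg j
  unfold X
  linarith

theorem Lam_le (j : ℕ) : Q.Lam j ≤ Q.m (j + 1) := by
  rw [Q.ms]
  unfold Lam
  have h := Q.patch j
  have h1 : 0 ≤ ∫ y, Q.pi j y := integral_nonneg h.nonneg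
  have h3 : 0 ≤ P.a (j + 1) * (Q.B j - Q.B₀ j) :=
    mul_nonneg (P.ha _) (by linarith [h.hB])
  linarith

theorem piece_nonneg (j : ℕ) (y : ℝ) : 0 ≤ Q.piece j y := by
  unfold piece
  have h1 : 0 ≤ (Ico (Q.z j) (Q.w j)).indicator (fun _ => P.a j) y :=
    indicator_nonneg (fun _ _ => P.ha j) y
  have h2 : 0 ≤ (Ico (Q.z j + Q.G j) (Q.z j + 2 * Q.G j)).indicator (fun _ => P.f j) y :=
    indicator_nonneg (fun _ _ => P.hf j) y
  have h3 : 0 ≤ Q.pi j (y - Q.x j) := (Q.patch j).nonneg _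
  have h4 : 0 ≤ (Ioo (Q.x j + Q.B₀ j) (Q.z (j + 1))).indicator (fun _ => P.a (j + 1)) y :=
    indicator_nonneg (fun _ _ => P.ha _) y
  linarith

theorem piece_meas (j : ℕ) : Measurable (Q.piece j) := by
  unfold piece
  refine ((Measurable.add ?_ ?_).add ?_).add ?_
  · exact measurable_const.indicator measurableSet_Ico
  · exact measurable_const.indicator measurableSet_Ico
  · exact (Q.patch j).meas.comp (measurable_id.sub_const _)
  · exact measurable_const.indicator measurableSet_Ioo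

theorem piece_supp (j : ℕ) {y : ℝ} (h : y ∉ Icc (Q.z j) (Q.z (j + 1))) : Q.piece j y = 0 := by
  have h1 := Q.z_step j
  have h2 := Q.G1 j
  have hp := Q.patch j
  have hz := Q.zs j
  have hx : Q.x j = Q.z j + 3 * Q.G j + Q.M j := rfl
  have hw : Q.w j = Q.z j + 3 * Q.G j := rfl
  unfold piece
  have e1 : (Ico (Q.z j) (Q.w j)).indicator (fun _ => P.a j) y = 0 := by
    refine indicator_of_notMem (fun hy => h ?_) _
    exact ⟨hy.1, by linarith [hy.2]⟩
  have e2 : (Ico (Q.z j + Q.G j) (Q.z j + 2 * Q.G j)).indicator (fun _ => P.f j) y = 0 := by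
    refine indicator_of_notMem (fun hy => h ?_) _
    exact ⟨by linarith [hy.1], by linarith [hy.2]⟩
  have e3 : Q.pi j (y - Q.x j) = 0 := by
    refine hp.supp _ (fun hy => h ?_)
    exact ⟨by linarith [hy.1], by linarith [hy.2]⟩
  have e4 : (Ioo (Q.x j + Q.B₀ j) (Q.z (j + 1))).indicator (fun _ => P.a (j + 1)) y = 0 := by
    refine indicator_of_notMem (fun hy => h ?_) _
    exact ⟨by linarith [hy.1, hp.hB₀], hy.2.le⟩
  rw [e1, e2, e3, e4]
  ring

theorem piece_int (j : ℕ) : Integrable (Q.piece j) := by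
  have hi : ∀ (s : Set ℝ) (c : ℝ), MeasurableSet s → volume s ≠ ⊤ →
      Integrable (s.indicator fun _ => c) := by
    intro s c hs hv
    rw [integrable_indicator_iff hs]
    exact integrableOn_const hv
  unfold piece
  refine ((Integrable.add ?_ ?_).add ?_).add ?_
  · exact hi _ _ measurableSet_Ico (by rw [Real.volume_Ico]; exact ENNReal.ofReal_ne_top)
  · exact hi _ _ measurableSet_Ico (by rw [Real.volume_Ico]; exact ENNReal.ofReal_ne_top)
  · exact (Q.patch j).int.comp_sub_right (Q.x j)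
  · exact hi _ _ measurableSet_Ioo (by rw [Real.volume_Ioo]; exact ENNReal.ofReal_ne_top)

theorem piece_mass (j : ℕ) : ∫ y, Q.piece j y = Q.m (j + 1) - Q.m j := by
  have hi : ∀ (s : Set ℝ) (c : ℝ), MeasurableSet s → volume s ≠ ⊤ →
      Integrable (s.indicator fun _ => c) := by
    intro s c hs hv
    rw [integrable_indicator_iff hs]
    exact integrableOn_const hv
  have i1 : Integrable ((Ico (Q.z j) (Q.w j)).indicator fun _ => P.a j) :=
    hi _ _ measurableSet_Ico (by rw [Real.volume_Ico]; exact ENNReal.ofReal_ne_top)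
  have i2 : Integrable ((Ico (Q.z j + Q.G j) (Q.z j + 2 * Q.G j)).indicator fun _ => P.f j) :=
    hi _ _ measurableSet_Ico (by rw [Real.volume_Ico]; exact ENNReal.ofReal_ne_top)
  have i3 : Integrable fun y => Q.pi j (y - Q.x j) := (Q.patch j).int.comp_sub_right (Q.x j)
  have i4 : Integrable ((Ioo (Q.x j + Q.B₀ j) (Q.z (j + 1))).indicator fun _ => P.a (j + 1)) :=
    hi _ _ measurableSet_Ioo (by rw [Real.volume_Ioo]; exact ENNReal.ofReal_ne_top)
  have hp := Q.patch j
  have hG := Q.G1 j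
  have hz := Q.zs j
  have hx : Q.x j = Q.z j + 3 * Q.G j + Q.M j := rfl
  have hw : Q.w j = Q.z j + 3 * Q.G j := rfl
  have e : ∫ y, Q.piece j y = (∫ y, (Ico (Q.z j) (Q.w j)).indicator (fun _ => P.a j) y) +
      (∫ y, (Ico (Q.z j + Q.G j) (Q.z j + 2 * Q.G j)).indicator (fun _ => P.f j) y) +
      (∫ y, Q.pi j (y - Q.x j)) +
      ∫ y, (Ioo (Q.x j + Q.B₀ j) (Q.z (j + 1))).indicator (fun _ => P.a (j + 1)) y := by
    exact catRho_int4 i1 i2 i3 i4
  rw [e, integral_indicator measurableSet_Ico, integral_indicator measurableSet_Ico,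
    integral_indicator measurableSet_Ioo, integral_sub_right_eq_self (fun y => Q.pi j y) (Q.x j),
    setIntegral_const, setIntegral_const, setIntegral_const, Real.volume_real_Ico_of_le,
    Real.volume_real_Ico_of_le, Real.volume_real_Ioo_of_le, Q.ms]
  · simp only [smul_eq_mul]
    rw [hz, hx, hw]
    ring
  · linarith [hp.hB]
  · linarith
  · linarith

private theorem catRho_z_ex (y : ℝ) : ∃ n, y < Q.z n := by
  obtain ⟨n, hn⟩ := exists_nat_gt y
  have h1 := Q.z_ge n
  have h2 : (0 : ℝ) ≤ n := Nat.cast_nonneg n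
  exact ⟨n, by linarith⟩

private theorem catRho_far {n j : ℕ} {y : ℝ} (h : y < Q.z n) (hj : n ≤ j) : Q.piece j y = 0 := by
  refine Q.piece_supp j fun hy => ?_
  have h1 := Q.z_mono.monotone hj
  linarith [hy.1]

private theorem catRho_hasSum {n : ℕ} {y : ℝ} (h : y < Q.z n) :
    HasSum (fun j => Q.piece j y) (∑ j ∈ Finset.range n, Q.piece j y) := by
  refine hasSum_sum_of_ne_finset_zero fun j hj => ?_
  rw [Finset.mem_range, not_lt] at hj
  exact Q.catRho_far h hj

theorem rho_nonneg (y : ℝ) : 0 ≤ Q.rho y := by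
  exact tsum_nonneg fun j => Q.piece_nonneg j y

theorem rho_meas : Measurable Q.rho := by
  refine measurable_of_tendsto_metrizable
    (f := fun n y => ∑ j ∈ Finset.range n, Q.piece j y)
    (fun n => Finset.measurable_fun_sum _ fun j _ => Q.piece_meas j) ?_
  rw [tendsto_pi_nhds]
  intro y
  obtain ⟨n, hn⟩ := Q.catRho_z_ex y
  have h1 := (Q.catRho_hasSum hn).summable.hasSum.tendsto_sum_nat
  exact h1

theorem rho_neg {y : ℝ} (h : y < 0) : Q.rho y = 0 := by
  have h0 : y < Q.z 0 := by rw [Q.z0]; exact h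
  have h1 := (Q.catRho_hasSum h0).tsum_eq
  rw [Finset.range_zero, Finset.sum_empty] at h1
  exact h1

theorem rho_eq_sum {n : ℕ} {y : ℝ} (h : y < Q.z n) :
    Q.rho y = ∑ j ∈ Finset.range n, Q.piece j y := by
  exact (Q.catRho_hasSum h).tsum_eq

/-- on the open window between `z j` and `z (j+1)` only the piece `j` is present -/
theorem rho_eq_piece {j : ℕ} {y : ℝ} (h : y ∈ Ioo (Q.z j) (Q.z (j + 1))) :
    Q.rho y = Q.piece j y := by
  refine tsum_eq_single j fun i hi => ?_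
  refine Q.piece_supp i fun hy => ?_
  rcases lt_or_gt_of_ne hi with h1 | h1
  · have h2 : Q.z (i + 1) ≤ Q.z j := Q.z_mono.monotone h1
    linarith [h.1, hy.2]
  · have h2 : Q.z (j + 1) ≤ Q.z i := Q.z_mono.monotone h1
    linarith [h.2, hy.1]

theorem rho_intOn (x : ℝ) : IntegrableOn Q.rho (Iio x) := by
  obtain ⟨n, hn⟩ := Q.catRho_z_ex x
  have h1 : IntegrableOn (fun y => ∑ j ∈ Finset.range n, Q.piece j y) (Iio x) :=
    (integrable_finsetSum _ fun j _ => Q.piece_int j).integrableOn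
  refine h1.congr_fun (fun y hy => ?_) measurableSet_Iio
  exact (Q.rho_eq_sum (lt_trans hy hn)).symm

theorem rho_mass (j : ℕ) : ∫ y in Iio (Q.z j), Q.rho y = Q.m j := by
  have h1 : ∫ y in Iio (Q.z j), Q.rho y =
      ∫ y in Iio (Q.z j), ∑ i ∈ Finset.range j, Q.piece i y :=
    setIntegral_congr_fun measurableSet_Iio fun y hy => Q.rho_eq_sum hy
  rw [h1, integral_finsetSum _ fun i _ => (Q.piece_int i).integrableOn]
  have h2 : ∀ i ∈ Finset.range j, ∫ y in Iio (Q.z j), Q.piece i y = Q.m (i + 1) - Q.m i := by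
    intro i hi
    rw [Finset.mem_range] at hi
    rw [← Q.piece_mass i, ← integral_Iic_eq_integral_Iio]
    refine setIntegral_eq_integral_of_forall_compl_eq_zero fun y hy => ?_
    refine Q.piece_supp i fun hy' => hy ?_
    have h3 : Q.z (i + 1) ≤ Q.z j := Q.z_mono.monotone hi
    exact le_trans hy'.2 h3
  rw [Finset.sum_congr rfl h2, Finset.sum_range_sub, Q.m0, sub_zero]

theorem rho_growth (j : ℕ) {x : ℝ} (h1 : Q.X j ≤ x) (h2 : x ≤ Q.X (j + 1)) :
    ∫ y in Iio x, Q.rho y ≤ Real.exp (x / (j + 1)) := by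
  have hj : (0 : ℝ) < (j : ℝ) + 1 := by positivity
  have hG := Q.G1 j
  have hz0 : 0 ≤ Q.z j := by
    have h3 := Q.z_ge j
    have h4 : (0 : ℝ) ≤ j := Nat.cast_nonneg j
    linarith
  have hX : Q.X j = Q.z j + 5 / 2 * Q.G j := rfl
  have hst := Q.z_step j
  rcases le_total x (Q.z (j + 1)) with h3 | h3
  · have h4 : ∫ y in Iio x, Q.rho y ≤ ∫ y in Iio (Q.z (j + 1)), Q.rho y :=
      setIntegral_mono_set (Q.rho_intOn _) (ae_of_all _ fun y => Q.rho_nonneg y)
        (Iio_subset_Iio h3).eventuallyLE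
    refine h4.trans ?_
    rw [Q.rho_mass]
    refine (Q.s6 j).1.trans ?_
    rw [Real.exp_le_exp]
    exact div_le_div_of_nonneg_right (by linarith) hj.le
  · have hG' := Q.G1 (j + 1)
    have hX' : Q.X (j + 1) = Q.z (j + 1) + 5 / 2 * Q.G (j + 1) := rfl
    have hst' := Q.z_step (j + 1)
    have hw' : Q.w (j + 1) = Q.z (j + 1) + 3 * Q.G (j + 1) := rfl
    have hx' : Q.x (j + 1) = Q.z (j + 1) + 3 * Q.G (j + 1) + Q.M (j + 1) := rfl
    have hp := Q.patch (j + 1)
    have e1 : Iio x = Iio (Q.z (j + 1)) ∪ Ico (Q.z (j + 1)) x := (Iio_union_Ico_eq_Iio h3).symm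
    have e2 : ∫ y in Iio x, Q.rho y = (∫ y in Iio (Q.z (j + 1)), Q.rho y) +
        ∫ y in Ico (Q.z (j + 1)) x, Q.rho y := by
      rw [e1]
      refine setIntegral_union ?_ measurableSet_Ico (Q.rho_intOn _)
        ((Q.rho_intOn x).mono_set Ico_subset_Iio_self)
      rw [Set.disjoint_left]
      intro y hy hy'
      exact absurd hy'.1 (not_le.2 hy)
    have e3 : ∫ y in Ico (Q.z (j + 1)) x, Q.rho y ≤
        (P.a (j + 1) + P.f (j + 1)) * (x - Q.z (j + 1)) := by
      rw [integral_Ico_eq_integral_Ioo]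
      have e4 : ∫ y in Ioo (Q.z (j + 1)) x, Q.rho y ≤
          ∫ y in Ioo (Q.z (j + 1)) x, (P.a (j + 1) + P.f (j + 1)) := by
        refine setIntegral_mono_on ((Q.rho_intOn x).mono_set Ioo_subset_Iio_self)
          (integrableOn_const (by rw [Real.volume_Ioo]; exact ENNReal.ofReal_ne_top))
          measurableSet_Ioo fun y hy => ?_
        have hyw : y < Q.w (j + 1) := by linarith [hy.2]
        rw [Q.rho_eq_piece (j := j + 1) ⟨hy.1, by linarith [hy.2]⟩]
        unfold piece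
        have f1 : (Ico (Q.z (j + 1)) (Q.w (j + 1))).indicator (fun _ => P.a (j + 1)) y ≤
            P.a (j + 1) := by
          refine indicator_le_self' (s := Ico (Q.z (j + 1)) (Q.w (j + 1)))
            (f := fun _ => P.a (j + 1)) (fun _ _ => P.ha _) y
        have f2 : (Ico (Q.z (j + 1) + Q.G (j + 1)) (Q.z (j + 1) + 2 * Q.G (j + 1))).indicator
            (fun _ => P.f (j + 1)) y ≤ P.f (j + 1) := by
          refine indicator_le_self'
            (s := Ico (Q.z (j + 1) + Q.G (j + 1)) (Q.z (j + 1) + 2 * Q.G (j + 1)))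
            (f := fun _ => P.f (j + 1)) (fun _ _ => P.hf _) y
        have f3 : Q.pi (j + 1) (y - Q.x (j + 1)) = 0 := by
          refine hp.supp _ fun hy' => ?_
          linarith [hy'.1]
        have f4 : (Ioo (Q.x (j + 1) + Q.B₀ (j + 1)) (Q.z (j + 1 + 1))).indicator
            (fun _ => P.a (j + 1 + 1)) y = 0 := by
          refine indicator_of_notMem (fun hy' => ?_) _
          linarith [hy'.1, hp.hB₀]
        rw [f3, f4]
        linarith
      refine e4.trans (le_of_eq ?_)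
      rw [setIntegral_const, Real.volume_real_Ioo_of_le h3, smul_eq_mul, mul_comm]
    have hE : Real.exp (Q.G j / (j + 1)) ≤ Real.exp (Q.z (j + 1) / (j + 1)) := by
      rw [Real.exp_le_exp]
      exact div_le_div_of_nonneg_right (by linarith) hj.le
    have g1 : Q.m (j + 1) ≤ Real.exp (Q.z (j + 1) / (j + 1)) := (Q.s6 j).1.trans hE
    have g2 : ((j : ℝ) + 1) * (P.a (j + 1) + P.f (j + 1)) ≤ Real.exp (Q.z (j + 1) / (j + 1)) :=
      (Q.s6 j).2.trans hE
    have g3 : (x - Q.z (j + 1)) / (j + 1) + 1 ≤ Real.exp ((x - Q.z (j + 1)) / (j + 1)) :=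
      Real.add_one_le_exp _
    have g4 : (P.a (j + 1) + P.f (j + 1)) * (x - Q.z (j + 1)) =
        (((j : ℝ) + 1) * (P.a (j + 1) + P.f (j + 1))) * ((x - Q.z (j + 1)) / (j + 1)) := by
      field_simp
    have g5 : (P.a (j + 1) + P.f (j + 1)) * (x - Q.z (j + 1)) ≤
        Real.exp (Q.z (j + 1) / (j + 1)) * ((x - Q.z (j + 1)) / (j + 1)) := by
      rw [g4]
      exact mul_le_mul_of_nonneg_right g2 (div_nonneg (by linarith) hj.le)
    have g6 : Real.exp (x / (j + 1)) = Real.exp (Q.z (j + 1) / (j + 1)) *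
        Real.exp ((x - Q.z (j + 1)) / (j + 1)) := by
      rw [← Real.exp_add]
      congr 1
      ring
    rw [e2, Q.rho_mass, g6]
    have g7 := mul_le_mul_of_nonneg_left g3 (Real.exp_pos (Q.z (j + 1) / (j + 1))).le
    linarith

theorem rho_div : Tendsto (fun x => ∫ y in Iio x, Q.rho y) atTop atTop := by
  rw [tendsto_atTop_atTop]
  intro b
  obtain ⟨j, hj⟩ := exists_nat_ge b
  refine ⟨Q.z (j + 1), fun x hx => ?_⟩
  have h1 : ∫ y in Iio (Q.z (j + 1)), Q.rho y ≤ ∫ y in Iio x, Q.rho y :=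
    setIntegral_mono_set (Q.rho_intOn _) (ae_of_all _ fun y => Q.rho_nonneg y)
      (Iio_subset_Iio hx).eventuallyLE
  rw [Q.rho_mass] at h1
  have h2 := Q.Lam_le j
  have h3 := Q.s7 j
  unfold Lam at h2
  linarith

end Stages

end Pool.Agent.IND2I
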