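import Pool.Agent.IND2I.CatG

/-!
# IND2I, module CatSeq: the stages exist

PROOF.  Choose functions `G, M, B₀, B, L, pi` of `(j, m)` for `m ≥ 0` from `exists_G` (put anything for `m < 0`; or work with the
subtype `{m : ℝ // 0 ≤ m}`), define the pairs `(z j, m j)` by recursion (`Nat.rec`), starting with `(0, 0)`.  `m (j + 1) ≥ 0` because
all terms are nonnegative (`Patch.nonneg`, `B₀ ≤ B`).
-/

set_option autoImplicit false

namespace Pool.Agent.IND2I

theorem stages_exist {Θ : Type} (P : Plan Θ) : Nonempty (Stages P) := by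
  have hex : ∀ (j : ℕ) (m : ℝ), _ := fun j m => exists_G P j (le_max_right m 0)
  choose G M B₀ B L pi hG1 hL0 hLG hpatch h3 h4 h5 h6 h6' h7 using hex
  let nx : ℕ → ℝ × ℝ → ℝ × ℝ := fun j s =>
    (s.1 + 3 * G j s.2 + M j s.2 + B j s.2,
      s.2 + (3 * P.a j + P.f j) * G j s.2 + (∫ y, pi j s.2 y) +
        P.a (j + 1) * (B j s.2 - B₀ j s.2))
  let sq : ℕ → ℝ × ℝ := fun n => Nat.rec (0, 0) nx n
  have sq0 : sq 0 = (0, 0) := rfl
  have sqs : ∀ j, sq (j + 1) = nx j (sq j) := fun _ => rfl
  have hnn : ∀ j, 0 ≤ (sq j).2 := by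
    intro j
    induction j with
    | zero => rw [sq0]
    | succ j ih =>
      rw [sqs]
      have e1 := (hpatch j (sq j).2).nonneg
      have e2 := (hpatch j (sq j).2).hB
      have e3 : 0 ≤ ∫ y, pi j (sq j).2 y := MeasureTheory.integral_nonneg e1
      have e4 := hG1 j (sq j).2
      have e5 := P.ha j
      have e6 := P.hf j
      have e7 := P.ha (j + 1)
      have e8 : 0 ≤ (3 * P.a j + P.f j) * G j (sq j).2 := by positivity
      have e9 : 0 ≤ P.a (j + 1) * (B j (sq j).2 - B₀ j (sq j).2) :=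
        mul_nonneg e7 (by linarith)
      change 0 ≤ (sq j).2 + (3 * P.a j + P.f j) * G j (sq j).2 + (∫ y, pi j (sq j).2 y) +
        P.a (j + 1) * (B j (sq j).2 - B₀ j (sq j).2)
      linarith
  have hmax : ∀ j, max (sq j).2 0 = (sq j).2 := fun j => max_eq_left (hnn j)
  have hpatch' := fun j => hpatch j (sq j).2
  have h3' := fun j => h3 j (sq j).2
  have h4' := fun j => h4 j (sq j).2
  have h5' := fun j => h5 j (sq j).2
  have h6'' := fun j => h6 j (sq j).2
  have h7' := fun j => h7 j (sq j).2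
  simp only [hmax] at hpatch' h4' h5' h6'' h7'
  exact ⟨{
    z := fun j => (sq j).1
    m := fun j => (sq j).2
    G := fun j => G j (sq j).2
    M := fun j => M j (sq j).2
    B₀ := fun j => B₀ j (sq j).2
    B := fun j => B j (sq j).2
    L := fun j => L j (sq j).2
    pi := fun j => pi j (sq j).2
    z0 := rfl
    m0 := rfl
    zs := fun j => rfl
    ms := fun j => rfl
    G1 := fun j => hG1 j _
    L0 := fun j => hL0 j _
    LG := fun j => hLG j _
    patch := hpatch'
    s3 := fun i j hij => h3' j i hij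
    s4 := fun i j hij => h4' j i hij
    s5 := fun j => h5' j
    s6 := fun j => ⟨h6'' j, h6' j _⟩
    s7 := fun j => h7' j }⟩

end Pool.Agent.IND2I
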