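import Pool.Agent.IND2I.CatRho
import Pool.Agent.IND2I.KT

/-!
# IND2I, module CatTail: the influence of the later stages

PROOF of `tail`.  Let `x ≤ X (i+1)`.  `Ici (w (i+1))` is (up to a null set) the union of `[w j, z (j+1)]` for `j ≥ i + 1` and of
`[z (j+1), w (j+1))`, `j ≥ i + 1`.  Since `x ≤ X j = w j - G j/2` for all `j ≥ i + 1`:
`∫_{[w j, z (j+1)]} e^{x-y} rho ≤ e^{-G j/2} (∫ π j + a (j+1))` (`e^{x - y} ≤ e^{-G j/2} e^{w j - y}`, `∫_{y ≥ w j} e^{w j - y} a (j+1) dy = a (j+1)`) and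
`∫_{[z (j+1), w (j+1))} e^{x-y} rho ≤ (a (j+1) + f (j+1)) e^{x - z (j+1)} ≤ (a (j+1) + f (j+1)) e^{-G j/2}`.  By `s3`
`C i` times the sum over `j ≥ i + 1` is `≤ ∑_{j ≥ i+1} (1/2)^j ε i/16 ≤ ε i/16`.  (Monotone convergence: the integral over
`Ico (w (i+1)) (z n)` is bounded uniformly in `n`; `rho` is nonnegative.)
PROOF of `int_k`.  On `Iio (w (i+1))` the kernel is bounded (`ktar_abs`) and `rho` is integrable (`rho_intOn`); on `Ici (w (i+1))`
`|k (x - y)| ≤ const e^{-y}` (for `y ≥ x` by `left`, and `[w (i+1), x]` is bounded), so `tail` gives integrability.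
PROOF of `past`.  `(∫_{Iio (z j)} k (x - y) rho) + β m_j = ∫_{Iio (z j)} (k (x - y) + β) rho` (`rho_mass`), `x - y ≥ x - z j ≥ 0`, `right`.
-/

set_option autoImplicit false

namespace Pool.Agent.IND2I

open MeasureTheory Set Filter

namespace Stages

variable {Θ : Type} {P : Plan Θ} (Q : Stages P)

/-- `w j ≤ z (j+1)` -/
private theorem ct_w_le (j : ℕ) : Q.w j ≤ Q.z (j + 1) := Q.z_step j

private theorem ct_z_lt (j : ℕ) : Q.z j < Q.w j := by
  have := Q.G1 j
  unfold w
  linarith

private theorem ct_w_le_w (j : ℕ) : Q.w j ≤ Q.w (j + 1) :=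
  (Q.ct_w_le j).trans (Q.ct_z_lt (j + 1)).le

private theorem ct_X (j : ℕ) : Q.X j = Q.w j - Q.G j / 2 := by
  unfold X w
  ring

private theorem ct_w_tendsto : Tendsto Q.w atTop atTop := by
  refine tendsto_atTop_mono (fun j => ?_) Q.X_tendsto
  have := Q.G1 j
  rw [Q.ct_X]
  linarith

private theorem ct_zx (j : ℕ) : Q.x j - Q.M j = Q.w j := by
  unfold x w
  ring

/-- pointwise bound of `rho` on the block from `w j` to `w (j+1)` -/
private theorem ct_pt (j : ℕ) {y : ℝ} (h1 : Q.w j ≤ y) (h2 : y < Q.w (j + 1)) :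
    Q.rho y ≤ Q.pi j (y - Q.x j) + P.a (j + 1) +
      (if Q.z (j + 1) ≤ y then P.a (j + 1) + P.f (j + 1) else 0) := by
  have hG := Q.G1 j
  have hG' := Q.G1 (j + 1)
  have hy2 : y < Q.z (j + 2) := lt_of_lt_of_le h2 (Q.ct_w_le (j + 1))
  rw [Q.rho_eq_sum hy2, Finset.sum_range_succ, Finset.sum_range_succ]
  have hlow : ∑ l ∈ Finset.range j, Q.piece l y = 0 := by
    refine Finset.sum_eq_zero fun l hl => Q.piece_supp l ?_
    intro hmem
    have h3 : Q.z (l + 1) ≤ Q.z j := Q.z_mono.monotone (Finset.mem_range.1 hl)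
    have h4 := Q.ct_z_lt j
    have h5 := hmem.2
    linarith
  have hj : Q.piece j y ≤ Q.pi j (y - Q.x j) + P.a (j + 1) := by
    unfold piece
    have e1 : (Ico (Q.z j) (Q.w j)).indicator (fun _ => P.a j) y = 0 :=
      indicator_of_notMem (fun h => absurd h.2 (not_lt.2 h1)) _
    have e2 : (Ico (Q.z j + Q.G j) (Q.z j + 2 * Q.G j)).indicator (fun _ => P.f j) y = 0 := by
      refine indicator_of_notMem (fun h => ?_) _
      have h3 := h.2
      unfold w at h1
      linarith
    have e3 : (Ioo (Q.x j + Q.B₀ j) (Q.z (j + 1))).indicator (fun _ => P.a (j + 1)) y ≤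
        P.a (j + 1) := indicator_le_self' (fun _ _ => P.ha (j + 1)) y
    rw [e1, e2]
    linarith
  have hj1 : Q.piece (j + 1) y ≤
      (if Q.z (j + 1) ≤ y then P.a (j + 1) + P.f (j + 1) else 0) := by
    unfold piece
    have hp := Q.patch (j + 1)
    have e3 : Q.pi (j + 1) (y - Q.x (j + 1)) = 0 := by
      refine hp.supp _ (fun h => ?_)
      have h3 := h.1
      have h4 := Q.ct_zx (j + 1)
      linarith
    have e4 : (Ioo (Q.x (j + 1) + Q.B₀ (j + 1)) (Q.z (j + 1 + 1))).indicator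
        (fun _ => P.a (j + 1 + 1)) y = 0 := by
      refine indicator_of_notMem (fun h => ?_) _
      have h3 := h.1
      have h4 := Q.ct_zx (j + 1)
      have h5 := hp.hB₀
      linarith
    rw [e3, e4, add_zero, add_zero]
    by_cases hz : Q.z (j + 1) ≤ y
    · rw [if_pos hz]
      exact add_le_add (indicator_le_self' (fun _ _ => P.ha (j + 1)) y)
        (indicator_le_self' (fun _ _ => P.hf (j + 1)) y)
    · rw [if_neg hz]
      have e1 : (Ico (Q.z (j + 1)) (Q.w (j + 1))).indicator (fun _ => P.a (j + 1)) y = 0 :=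
        indicator_of_notMem (fun h => hz h.1) _
      have e2 : (Ico (Q.z (j + 1) + Q.G (j + 1)) (Q.z (j + 1) + 2 * Q.G (j + 1))).indicator
          (fun _ => P.f (j + 1)) y = 0 := by
        refine indicator_of_notMem (fun h => hz ?_) _
        have h3 := h.1
        linarith
      rw [e1, e2, add_zero]
  linarith

/-- `rho` times the exponential is integrable on bounded parts -/
private theorem ct_int (x t : ℝ) : IntegrableOn (fun y => Real.exp (x - y) * Q.rho y) (Iio t) := by
  have h1 : (fun y => Real.exp (x - y) * Q.rho y) =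
      fun y => Real.exp (x - max y 0) * Q.rho y := by
    funext y
    by_cases hy : y < 0
    · rw [Q.rho_neg hy, mul_zero, mul_zero]
    · rw [max_eq_left (not_lt.1 hy)]
  rw [h1]
  have hc : Continuous (fun y : ℝ => Real.exp (x - max y 0)) := by fun_prop
  refine (Q.rho_intOn t).bdd_mul (c := Real.exp x) hc.aestronglyMeasurable
    (Filter.Eventually.of_forall fun y => ?_)
  rw [Real.norm_eq_abs, abs_of_pos (Real.exp_pos _), Real.exp_le_exp]
  have := le_max_right y 0
  linarith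

private theorem ct_exp_int (w : ℝ) :
    Integrable ((Ici w).indicator fun y => Real.exp (w - y)) ∧
      ∫ y, (Ici w).indicator (fun y => Real.exp (w - y)) y = 1 := by
  have h1 : ∀ y : ℝ, Real.exp (w - y) = Real.exp w * Real.exp (-1 * y) := by
    intro y
    rw [← Real.exp_add]
    congr 1
    ring
  simp only [h1]
  refine ⟨?_, ?_⟩
  · rw [integrable_indicator_iff measurableSet_Ici, integrableOn_Ici_iff_integrableOn_Ioi]
    exact (integrableOn_exp_mul_Ioi (neg_lt_zero.2 one_pos) w).const_mul _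
  · rw [integral_indicator measurableSet_Ici, integral_Ici_eq_integral_Ioi, integral_const_mul,
      integral_exp_mul_Ioi (neg_lt_zero.2 one_pos)]
    rw [show Real.exp w * (-Real.exp (-1 * w) / -1) = Real.exp w * Real.exp (-1 * w) by ring,
      ← Real.exp_add]
    simp

/-- the bound of a block -/
private noncomputable def ctb (j : ℕ) : ℝ := Real.exp (-(Q.G j / 2)) *
  ((∫ y, Q.pi j y) + P.a (j + 1) + (P.a (j + 1) + P.f (j + 1)))

private theorem ct_block (j : ℕ) {x : ℝ} (hx : x ≤ Q.X j) :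
    ∫ y in Ico (Q.w j) (Q.w (j + 1)), Real.exp (x - y) * Q.rho y ≤ Q.ctb j := by
  have hp := Q.patch j
  obtain ⟨hi1, hv1⟩ := ct_exp_int (Q.w j)
  obtain ⟨hi2, hv2⟩ := ct_exp_int (Q.z (j + 1))
  have hpi : Integrable (fun y => Q.pi j (y - Q.x j)) := hp.int.comp_sub_right _
  have hpv : ∫ y, Q.pi j (y - Q.x j) = ∫ y, Q.pi j y :=
    integral_sub_right_eq_self (fun y => Q.pi j y) _
  set g : ℝ → ℝ := fun y => Real.exp (-(Q.G j / 2)) * ((Q.pi j (y - Q.x j) +
    P.a (j + 1) * (Ici (Q.w j)).indicator (fun y => Real.exp (Q.w j - y)) y) +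
    (P.a (j + 1) + P.f (j + 1)) *
      (Ici (Q.z (j + 1))).indicator (fun y => Real.exp (Q.z (j + 1) - y)) y) with hg
  have hgi : Integrable g :=
    ((hpi.add (hi1.const_mul _)).add (hi2.const_mul _)).const_mul _
  have ha := P.ha (j + 1)
  have hf := P.hf (j + 1)
  have hg0 : ∀ y, 0 ≤ g y := by
    intro y
    have h1 := hp.nonneg (y - Q.x j)
    have h2 : 0 ≤ (Ici (Q.w j)).indicator (fun y => Real.exp (Q.w j - y)) y :=
      indicator_nonneg (fun _ _ => (Real.exp_pos _).le) y
    have h3 : 0 ≤ (Ici (Q.z (j + 1))).indicator (fun y => Real.exp (Q.z (j + 1) - y)) y :=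
      indicator_nonneg (fun _ _ => (Real.exp_pos _).le) y
    rw [hg]
    positivity
  have hgv : ∫ y, g y = Q.ctb j := by
    have hA : Integrable (fun y => Q.pi j (y - Q.x j) +
        P.a (j + 1) * (Ici (Q.w j)).indicator (fun y => Real.exp (Q.w j - y)) y) :=
      hpi.add (hi1.const_mul _)
    have hB : Integrable (fun y => P.a (j + 1) *
        (Ici (Q.w j)).indicator (fun y => Real.exp (Q.w j - y)) y) := hi1.const_mul _
    have hC : Integrable (fun y => (P.a (j + 1) + P.f (j + 1)) *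
        (Ici (Q.z (j + 1))).indicator (fun y => Real.exp (Q.z (j + 1) - y)) y) := hi2.const_mul _
    rw [hg, integral_const_mul, integral_add hA hC, integral_add hpi hB, integral_const_mul,
      integral_const_mul, hv1, hv2, hpv, mul_one, mul_one]
    rfl
  have hle : ∫ y in Ico (Q.w j) (Q.w (j + 1)), Real.exp (x - y) * Q.rho y ≤
      ∫ y in Ico (Q.w j) (Q.w (j + 1)), g y := by
    refine setIntegral_mono_on ((Q.ct_int x (Q.w (j + 1))).mono_set Ico_subset_Iio_self)
      hgi.integrableOn measurableSet_Ico (fun y hy => ?_)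
    have h1 := Q.ct_pt j hy.1 hy.2
    have h2 : Real.exp (x - y) ≤ Real.exp (-(Q.G j / 2)) * Real.exp (Q.w j - y) := by
      rw [← Real.exp_add, Real.exp_le_exp]
      rw [Q.ct_X] at hx
      linarith
    have h3 : Real.exp (Q.w j - y) ≤ 1 := Real.exp_le_one_iff.2 (by linarith [hy.1])
    have h4 := hp.nonneg (y - Q.x j)
    have e1 : (Ici (Q.w j)).indicator (fun y => Real.exp (Q.w j - y)) y = Real.exp (Q.w j - y) :=
      indicator_of_mem (show y ∈ Ici (Q.w j) from hy.1) _
    have hE := (Real.exp_pos (-(Q.G j / 2))).le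
    have hA : Real.exp (x - y) * Q.pi j (y - Q.x j) ≤
        Real.exp (-(Q.G j / 2)) * Q.pi j (y - Q.x j) := by
      refine mul_le_mul_of_nonneg_right (h2.trans ?_) h4
      exact mul_le_of_le_one_right hE h3
    have hB : Real.exp (x - y) * P.a (j + 1) ≤
        Real.exp (-(Q.G j / 2)) * Real.exp (Q.w j - y) * P.a (j + 1) :=
      mul_le_mul_of_nonneg_right h2 ha
    have hC : Real.exp (x - y) * (if Q.z (j + 1) ≤ y then P.a (j + 1) + P.f (j + 1) else 0) ≤
        Real.exp (-(Q.G j / 2)) * ((P.a (j + 1) + P.f (j + 1)) *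
          (Ici (Q.z (j + 1))).indicator (fun y => Real.exp (Q.z (j + 1) - y)) y) := by
      by_cases hz : Q.z (j + 1) ≤ y
      · rw [if_pos hz, indicator_of_mem (show y ∈ Ici (Q.z (j + 1)) from hz)]
        have h5 : Real.exp (x - y) ≤ Real.exp (-(Q.G j / 2)) * Real.exp (Q.z (j + 1) - y) := by
          rw [← Real.exp_add, Real.exp_le_exp]
          rw [Q.ct_X] at hx
          have := Q.ct_w_le j
          linarith
        have h6 := mul_le_mul_of_nonneg_right h5 (add_nonneg ha hf)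
        linarith
      · rw [if_neg hz, indicator_of_notMem (show y ∉ Ici (Q.z (j + 1)) from fun h => hz h),
          mul_zero, mul_zero, mul_zero]
    have hD : Real.exp (x - y) * Q.rho y ≤ Real.exp (x - y) * (Q.pi j (y - Q.x j) + P.a (j + 1) +
      (if Q.z (j + 1) ≤ y then P.a (j + 1) + P.f (j + 1) else 0)) :=
      mul_le_mul_of_nonneg_left h1 (Real.exp_pos _).le
    rw [hg]
    simp only
    rw [e1]
    linarith
  refine hle.trans ?_
  rw [← hgv]
  exact setIntegral_le_integral hgi (Filter.Eventually.of_forall hg0)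

private theorem ct_sum (i : ℕ) {x : ℝ} (hx : x ≤ Q.X (i + 1)) (n : ℕ) :
    ∫ y in Ico (Q.w (i + 1)) (Q.w (i + 1 + n)), Real.exp (x - y) * Q.rho y ≤
      ∑ l ∈ Finset.range n, Q.ctb (i + 1 + l) := by
  induction n with
  | zero => simp
  | succ n ih =>
    have hmono : Monotone Q.w := monotone_nat_of_le_succ Q.ct_w_le_w
    have h1 : Q.w (i + 1) ≤ Q.w (i + 1 + n) := hmono (Nat.le_add_right _ _)
    have h2 : Q.w (i + 1 + n) ≤ Q.w (i + 1 + n + 1) := Q.ct_w_le_w _
    have h3 : Ico (Q.w (i + 1)) (Q.w (i + 1 + n + 1)) =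
        Ico (Q.w (i + 1)) (Q.w (i + 1 + n)) ∪ Ico (Q.w (i + 1 + n)) (Q.w (i + 1 + n + 1)) :=
      (Ico_union_Ico_eq_Ico h1 h2).symm
    rw [Finset.sum_range_succ, ← Nat.add_assoc, h3, setIntegral_union
      (Ico_disjoint_Ico_same) measurableSet_Ico
      ((Q.ct_int x _).mono_set Ico_subset_Iio_self) ((Q.ct_int x _).mono_set Ico_subset_Iio_self)]
    refine add_le_add ih (Q.ct_block (i + 1 + n) (hx.trans ?_))
    exact Q.X_mono.monotone (Nat.le_add_right _ _)

private theorem ct_ctb (i j : ℕ) (hij : i ≤ j) : P.C i * Q.ctb j ≤ (1 / 2) ^ j * P.ε i / 16 := by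
  refine le_trans ?_ (Q.s3 i j hij)
  rw [ctb, ← mul_assoc]
  refine mul_le_mul_of_nonneg_left ?_
    (mul_nonneg (by linarith [P.hC i]) (Real.exp_pos _).le)
  have := P.ha j
  have := P.hf j
  linarith

private theorem ct_geo (i n : ℕ) : ∑ l ∈ Finset.range n, (1 / 2 : ℝ) ^ (i + 1 + l) ≤ 1 := by
  have h1 : ∀ n : ℕ, ∑ l ∈ Finset.range n, (1 / 2 : ℝ) ^ (1 + l) = 1 - (1 / 2) ^ n := by
    intro n
    induction n with
    | zero => simp
    | succ n ih =>
      rw [Finset.sum_range_succ, ih, pow_add, pow_one, pow_succ]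
      ring
  calc ∑ l ∈ Finset.range n, (1 / 2 : ℝ) ^ (i + 1 + l) ≤
        ∑ l ∈ Finset.range n, (1 / 2 : ℝ) ^ (1 + l) := by
        refine Finset.sum_le_sum fun l _ => ?_
        exact pow_le_pow_of_le_one (by norm_num) (by norm_num) (by omega)
    _ = 1 - (1 / 2) ^ n := h1 n
    _ ≤ 1 := by
        have : (0 : ℝ) ≤ (1 / 2) ^ n := by positivity
        linarith

theorem tail (i : ℕ) {x : ℝ} (hx : x ≤ Q.X (i + 1)) :
    IntegrableOn (fun y => Real.exp (x - y) * Q.rho y) (Ici (Q.w (i + 1))) ∧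
    P.C i * ∫ y in Ici (Q.w (i + 1)), Real.exp (x - y) * Q.rho y ≤ P.ε i / 16 := by
  have hC : 0 < P.C i := by linarith [P.hC i]
  have hε := P.hε i
  have hbd : ∀ n, P.C i * ∫ y in Ico (Q.w (i + 1)) (Q.w (i + 1 + n)),
      Real.exp (x - y) * Q.rho y ≤ P.ε i / 16 := by
    intro n
    calc P.C i * ∫ y in Ico (Q.w (i + 1)) (Q.w (i + 1 + n)), Real.exp (x - y) * Q.rho y ≤
          P.C i * ∑ l ∈ Finset.range n, Q.ctb (i + 1 + l) :=
          mul_le_mul_of_nonneg_left (Q.ct_sum i hx n) hC.le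
      _ = ∑ l ∈ Finset.range n, P.C i * Q.ctb (i + 1 + l) := Finset.mul_sum _ _ _
      _ ≤ ∑ l ∈ Finset.range n, (1 / 2) ^ (i + 1 + l) * P.ε i / 16 :=
          Finset.sum_le_sum fun l _ => Q.ct_ctb i (i + 1 + l) (by omega)
      _ = (∑ l ∈ Finset.range n, (1 / 2 : ℝ) ^ (i + 1 + l)) * (P.ε i / 16) := by
          rw [Finset.sum_mul]
          refine Finset.sum_congr rfl fun l _ => ?_
          ring
      _ ≤ 1 * (P.ε i / 16) := mul_le_mul_of_nonneg_right (ct_geo i n) (by positivity)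
      _ = P.ε i / 16 := one_mul _
  have htend : Tendsto (fun n => Q.w (i + 1 + n)) atTop atTop := by
    have h1 : (fun n => Q.w (i + 1 + n)) = fun n => Q.w (n + (i + 1)) := by
      funext n
      rw [Nat.add_comm]
    rw [h1]
    exact (tendsto_add_atTop_iff_nat (i + 1)).2 Q.ct_w_tendsto
  have hcov : AECover (volume.restrict (Ici (Q.w (i + 1)))) atTop
      (fun n => Ico (Q.w (i + 1)) (Q.w (i + 1 + n))) := aecover_Ici_of_Ico htend
  have hfi : ∀ n, IntegrableOn (fun y => Real.exp (x - y) * Q.rho y)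
      (Ico (Q.w (i + 1)) (Q.w (i + 1 + n))) (volume.restrict (Ici (Q.w (i + 1)))) := fun n =>
    ((Q.ct_int x _).mono_set Ico_subset_Iio_self).mono_measure Measure.restrict_le_self
  have heq : ∀ n, ∫ y in Ico (Q.w (i + 1)) (Q.w (i + 1 + n)), Real.exp (x - y) * Q.rho y
      ∂(volume.restrict (Ici (Q.w (i + 1)))) =
      ∫ y in Ico (Q.w (i + 1)) (Q.w (i + 1 + n)), Real.exp (x - y) * Q.rho y := by
    intro n
    rw [Measure.restrict_restrict measurableSet_Ico,
      inter_eq_self_of_subset_left Ico_subset_Ici_self]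
  have hint : IntegrableOn (fun y => Real.exp (x - y) * Q.rho y) (Ici (Q.w (i + 1))) := by
    refine hcov.integrable_of_integral_bounded_of_nonneg_ae (P.ε i / 16 / P.C i) hfi
      (Filter.Eventually.of_forall fun y => mul_nonneg (Real.exp_pos _).le (Q.rho_nonneg y))
      (Filter.Eventually.of_forall fun n => ?_)
    rw [heq n, le_div_iff₀ hC, mul_comm]
    exact hbd n
  refine ⟨hint, ?_⟩
  have hlim := (hcov.integral_tendsto_of_countably_generated hint).const_mul (P.C i)
  refine le_of_tendsto hlim (Filter.Eventually.of_forall fun n => ?_)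
  rw [heq n]
  exact hbd n

theorem exp_int (x : ℝ) : Integrable (fun y => Real.exp (x - y) * Q.rho y) := by
  obtain ⟨i, hi⟩ := (Q.X_tendsto.eventually_ge_atTop x).exists
  have h1 := (Q.tail i (hi.trans (Q.X_mono (Nat.lt_succ_self i)).le)).1
  have h2 := Q.ct_int x (Q.w (i + 1))
  rw [← integrableOn_univ, ← Iio_union_Ici (a := Q.w (i + 1))]
  exact h2.union h1

theorem int_k {γ C β : ℝ} {k : ℝ → ℝ} (hγ0 : 0 < γ) (hγ1 : γ < 1) (hC : 1 ≤ C) (hβ : 0 ≤ β)
    (hk : KTar γ C β k) (x : ℝ) : Integrable (fun y => k (x - y) * Q.rho y) := by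
  have hc : Continuous (fun y => k (x - y)) := hk.cont.comp (continuous_const.sub continuous_id)
  have h1 : Integrable (fun y => (β + C) * (Iio x).indicator Q.rho y +
      C * (Real.exp (x - y) * Q.rho y)) := by
    refine Integrable.add ?_ ((Q.exp_int x).const_mul C)
    refine Integrable.const_mul ?_ _
    rw [integrable_indicator_iff measurableSet_Iio]
    exact Q.rho_intOn x
  refine h1.mono' (hc.measurable.mul Q.rho_meas).aestronglyMeasurable
    (Filter.Eventually.of_forall fun y => ?_)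
  have h0 := Q.rho_nonneg y
  rw [Real.norm_eq_abs, abs_mul, abs_of_nonneg h0]
  by_cases hy : y < x
  · rw [indicator_of_mem (show y ∈ Iio x from hy)]
    have h2 := mul_le_mul_of_nonneg_right (ktar_abs hγ0 hγ1 hC hβ hk (x - y)) h0
    have h3 : 0 ≤ C * (Real.exp (x - y) * Q.rho y) :=
      mul_nonneg (by linarith) (mul_nonneg (Real.exp_pos _).le h0)
    linarith
  · rw [indicator_of_notMem (show y ∉ Iio x from fun h => hy h), mul_zero, zero_add, ← mul_assoc]
    exact mul_le_mul_of_nonneg_right (hk.left (x - y) (by linarith)) h0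

theorem past {γ C β : ℝ} {k : ℝ → ℝ} (hγ0 : 0 < γ) (hγ1 : γ < 1) (hC : 1 ≤ C) (hβ : 0 ≤ β)
    (hk : KTar γ C β k) (j : ℕ) {x : ℝ} (hx : Q.z j ≤ x) :
    |(∫ y in Iio (Q.z j), k (x - y) * Q.rho y) + β * Q.m j| ≤
      C * Real.exp (-(γ * (x - Q.z j))) * Q.m j := by
  have hi1 : IntegrableOn (fun y => k (x - y) * Q.rho y) (Iio (Q.z j)) :=
    (Q.int_k hγ0 hγ1 hC hβ hk x).integrableOn
  have hi2 := Q.rho_intOn (Q.z j)
  rw [← Q.rho_mass j, ← integral_const_mul, ← integral_add hi1 (hi2.const_mul β),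
    ← integral_const_mul, ← Real.norm_eq_abs]
  refine norm_integral_le_of_norm_le (hi2.const_mul _) ?_
  refine (ae_restrict_iff' measurableSet_Iio).2 (Filter.Eventually.of_forall fun y hy => ?_)
  have hy' : y < Q.z j := hy
  have h0 := Q.rho_nonneg y
  rw [← add_mul, Real.norm_eq_abs, abs_mul, abs_of_nonneg h0]
  refine mul_le_mul_of_nonneg_right ((hk.right (x - y) (by linarith)).trans ?_) h0
  refine mul_le_mul_of_nonneg_left ?_ (by linarith)
  rw [Real.exp_le_exp, neg_le_neg_iff]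
  exact mul_le_mul_of_nonneg_left (by linarith) hγ0.le

end Stages

end Pool.Agent.IND2I
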