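import Pool.Agent.IND2I.CutL

/-!
# IND2I, module Cut: a half line certificate has (almost) no surplus

PROOF.  Suppose `D n y₁ > C₃ (b + e)`, `b = B n y₁`, `e = e^{γ/2 y₁}`.  Fix `i₀ : ι` and `C₂ ≥ 0` with
`|lam| C C₄ e^{-γ C₂} ≤ 1/4` (`cut_l`).  Let `n' i = (n i).restrict (Ici y₁)`, plus `η δ_{y₁ - L}` for `i = i₀`, where
`η = (C/c) e^L b`, and `l' j = (l j).restrict (Ici (y₁ + C₂))`.
`y ≥ y₁`: `g n' l' y = g n l y - ∑ ∫_{x < y₁} kb i (x - y) dn_i + ∑ ∫_{x < y₁ + C₂} |kl j (x - y)| dl_j + η kb i₀ (y₁ - L - y)`.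
For `x < y₁`: `kb i (x - y) ≤ C e^{x - y} ≤ C e^{-(y - y₁)} e^{-γ/2 |x - y₁|}`, so the second term is `≥ -C e^{-(y - y₁)} b`; the
last is `≥ η c e^{-L} e^{-(y - y₁)} = C e^{-(y - y₁)} b` (`low`, `y₁ - L - y ≤ -L`).  So `g n' l' y ≥ g n l y ≥ 0`.
`y < y₁`: `∑ ∫_{x ≥ y₁} kb i (x - y) ≥ -∑ β i n_i (Ici y₁) - C b` (`kb_ge_right`, `x - y ≥ x - y₁`),
`-k₀ (-y) ≥ β₀ - C e^{γ y} ≥ β₀ - C e`, `η kb i₀ ≥ -η (β i₀ + C)`, and the left end masses contribute
`≥ -∑_j C ∫_{x ≥ y₁ + C₂} e^{-γ (x - y₁)} dl_j ≥ -(1/4) D n y₁ - |lam| C C₄ (b + e)` (`cut_l`; `D n y₁ > 0`).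
So `g n' l' y ≥ (3/4) D n y₁ - C' (b + e) ≥ 0`.
Exponential moments with `δ = κ`: on `x ≥ y₁`, `e^{κ |x|} ≤ e^{κ x} + e^{-κ y₁}`.
So `(n', l')` is a certificate, and `∑ β i n'_i (ℝ) = β₀ - D n y₁ + β i₀ η < β₀` since `β i₀ η ≤ C₃ b < D n y₁`
(strict because `e > 0`): this contradicts `HypV`.
-/

set_option autoImplicit false

namespace Pool.Agent.IND2I

open MeasureTheory Set

namespace Sys

variable {ι lam : Type} [Fintype ι] [Fintype lam] (S : Sys ι lam)

private lemma cut_mom {κ y₁ t : ℝ} (hκ : 0 < κ) (ht : y₁ ≤ t) (μ : Measure ℝ)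
    [IsFiniteMeasure μ] (h : Integrable (fun x => Real.exp (κ * x)) μ) :
    Integrable (fun x => Real.exp (κ * |x|)) (μ.restrict (Ici t)) := by
  have h1 : Integrable (fun x => Real.exp (κ * x) + Real.exp (-(κ * y₁))) (μ.restrict (Ici t)) :=
    (h.restrict).add (integrable_const _)
  refine h1.mono' ?_ ?_
  · exact (by fun_prop : Continuous (fun x : ℝ => Real.exp (κ * |x|))).aestronglyMeasurable
  · refine (ae_restrict_iff' measurableSet_Ici).2 (Filter.Eventually.of_forall fun x hx => ?_)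
    rw [Real.norm_eq_abs, abs_of_nonneg (Real.exp_nonneg _)]
    rcases le_total 0 x with h2 | h2
    · rw [abs_of_nonneg h2]
      linarith [Real.exp_pos (-(κ * y₁))]
    · rw [abs_of_nonpos h2]
      have h3 : Real.exp (κ * -x) ≤ Real.exp (-(κ * y₁)) := by
        rw [Real.exp_le_exp]
        have : y₁ ≤ x := ht.trans hx
        (first | linarith | nlinarith)
      linarith [Real.exp_pos (κ * x)]

/-- part of the certificate to the left of `y₁` -/
private lemma cut_left {μ : Measure ℝ} [IsFiniteMeasure μ] (i : ι) {y y₁ : ℝ} (hy : y₁ ≤ y) :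
    ∫ x in Iio y₁, S.kb i (x - y) ∂μ ≤
      S.C * Real.exp (-(y - y₁)) * ∫ x, Real.exp (-(S.γ / 2 * |x - y₁|)) ∂μ := by
  have hC := S.hC
  have hγ := S.hγ0
  have hγ1 := S.hγ1
  have h1 : ∫ x in Iio y₁, S.kb i (x - y) ∂μ ≤
      ∫ x in Iio y₁, S.C * Real.exp (-(y - y₁)) * Real.exp (-(S.γ / 2 * |x - y₁|)) ∂μ := by
    refine setIntegral_mono_on (S.int_kb i μ y).integrableOn
      ((S.loc_exp_int μ y₁).const_mul _).integrableOn measurableSet_Iio fun x hx => ?_
    have hx' : x < y₁ := hx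
    have h2 := (abs_le.1 ((S.hkb i).left (x - y) (by linarith))).2
    have h3 : Real.exp (x - y) ≤ Real.exp (-(y - y₁)) * Real.exp (-(S.γ / 2 * |x - y₁|)) := by
      rw [← Real.exp_add, Real.exp_le_exp, abs_of_neg (by linarith)]
      (first | linarith | nlinarith)
    calc S.kb i (x - y) ≤ S.C * Real.exp (x - y) := h2
      _ ≤ S.C * (Real.exp (-(y - y₁)) * Real.exp (-(S.γ / 2 * |x - y₁|))) :=
          mul_le_mul_of_nonneg_left h3 (by linarith)
      _ = _ := by ring
  refine h1.trans ?_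
  rw [integral_const_mul]
  refine mul_le_mul_of_nonneg_left ?_ (by positivity)
  exact setIntegral_le_integral (S.loc_exp_int μ y₁)
    (Filter.Eventually.of_forall fun x => (Real.exp_pos _).le)

/-- the right part for `y < y₁` -/
private lemma cut_right {μ : Measure ℝ} [IsFiniteMeasure μ] (i : ι) {y y₁ : ℝ} (hy : y ≤ y₁) :
    -(S.β i * μ.real (Ici y₁)) - S.C * ∫ x, Real.exp (-(S.γ / 2 * |x - y₁|)) ∂μ ≤
      ∫ x in Ici y₁, S.kb i (x - y) ∂μ := by
  have hC := S.hC
  have hγ := S.hγ0
  have h1 : ∫ x in Ici y₁, (-S.β i - S.C * Real.exp (-(S.γ / 2 * |x - y₁|))) ∂μ ≤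
      ∫ x in Ici y₁, S.kb i (x - y) ∂μ := by
    refine setIntegral_mono_on
      ((integrable_const _).sub ((S.loc_exp_int μ y₁).const_mul _)).integrableOn
      (S.int_kb i μ y).integrableOn measurableSet_Ici fun x hx => ?_
    have hx' : y₁ ≤ x := hx
    have h2 := S.kb_ge_right i (s := x - y) (by linarith)
    have h3 : Real.exp (-(S.γ * (x - y))) ≤ Real.exp (-(S.γ / 2 * |x - y₁|)) := by
      rw [Real.exp_le_exp, abs_of_nonneg (by linarith)]
      (first | linarith | nlinarith)
    have h4 : S.C * Real.exp (-(S.γ * (x - y))) ≤ S.C * Real.exp (-(S.γ / 2 * |x - y₁|)) :=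
      mul_le_mul_of_nonneg_left h3 (by linarith)
    linarith
  refine le_trans ?_ h1
  rw [integral_sub (integrable_const _).integrableOn
    ((S.loc_exp_int μ y₁).const_mul _).integrableOn, setIntegral_const, integral_const_mul]
  have h5 : ∫ x in Ici y₁, Real.exp (-(S.γ / 2 * |x - y₁|)) ∂μ ≤
      ∫ x, Real.exp (-(S.γ / 2 * |x - y₁|)) ∂μ :=
    setIntegral_le_integral (S.loc_exp_int μ y₁)
      (Filter.Eventually.of_forall fun x => (Real.exp_pos _).le)
  have h6 : S.C * ∫ x in Ici y₁, Real.exp (-(S.γ / 2 * |x - y₁|)) ∂μ ≤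
      S.C * ∫ x, Real.exp (-(S.γ / 2 * |x - y₁|)) ∂μ :=
    mul_le_mul_of_nonneg_left h5 (by linarith)
  rw [smul_eq_mul]
  linarith [mul_comm (μ.real (Ici y₁)) (-S.β i)]

/-- the left end points for `y < y₁` -/
private lemma cut_end {μ : Measure ℝ} [IsFiniteMeasure μ] (j : lam) {y y₁ C₂ : ℝ} (hy : y ≤ y₁)
    (hC₂ : 0 ≤ C₂) :
    -(S.C * ∫ x in Ici (y₁ + C₂), Real.exp (-(S.γ * (x - y₁))) ∂μ) ≤
      ∫ x in Ici (y₁ + C₂), S.kl j (x - y) ∂μ := by
  have hC := S.hC
  have hγ := S.hγ0
  have hint : Integrable (fun x => Real.exp (-(S.γ * (x - y₁)))) (μ.restrict (Ici (y₁ + C₂))) := by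
    refine (integrable_const (1 : ℝ)).mono' ?_ ?_
    · exact (by fun_prop : Continuous (fun x : ℝ => Real.exp (-(S.γ * (x - y₁))))
        ).aestronglyMeasurable
    · refine (ae_restrict_iff' measurableSet_Ici).2 (Filter.Eventually.of_forall fun x hx => ?_)
      have hx' : y₁ + C₂ ≤ x := hx
      rw [Real.norm_eq_abs, abs_of_nonneg (Real.exp_nonneg _)]
      refine Real.exp_le_one_iff.2 ?_
      (first | linarith | nlinarith)
  rw [← integral_const_mul, ← integral_neg]
  refine setIntegral_mono_on (hint.const_mul _).neg (S.int_kl j μ y).integrableOn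
    measurableSet_Ici fun x hx => ?_
  have hx' : y₁ + C₂ ≤ x := hx
  have h2 := (abs_le.1 ((S.hkl j).right (x - y) (by linarith))).1
  have h3 : Real.exp (-(S.γ * (x - y))) ≤ Real.exp (-(S.γ * (x - y₁))) := by
    rw [Real.exp_le_exp]
    (first | linarith | nlinarith)
  have h4 : S.C * Real.exp (-(S.γ * (x - y))) ≤ S.C * Real.exp (-(S.γ * (x - y₁))) :=
    mul_le_mul_of_nonneg_left h3 (by linarith)
  linarith

theorem cut [Nonempty ι] (hV : S.HypV) {K : ℝ} (hK : 0 ≤ K) :
    ∃ C₃ : ℝ, 1 ≤ C₃ ∧ ∀ (κ M y₁ : ℝ) (n : ι → Measure ℝ) (l : lam → Measure ℝ),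
      0 < κ → (∀ i, IsFiniteMeasure (n i)) → (∀ j, IsFiniteMeasure (l j)) →
      (∀ i, Integrable (fun x => Real.exp (κ * x)) (n i)) →
      (∀ j, Integrable (fun x => Real.exp (κ * x)) (l j)) →
      (∀ j, (l j).real (Ici 0) ≤ K) → (∀ y, -M ≤ y → 0 ≤ S.g n l y) →
      -M ≤ y₁ → y₁ ≤ 0 →
      S.D n y₁ ≤ C₃ * (S.B n y₁ + Real.exp (S.γ / 2 * y₁)) := by
  classical
  obtain ⟨C₄, hC₄, hcut⟩ := S.cut_l hK
  have hC := S.hC
  have hγ := S.hγ0
  have hγ1 := S.hγ1
  have hc := S.hc
  have hL := S.hL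
  let i₀ : ι := Classical.arbitrary ι
  have hβi := S.hβ i₀
  set N : ℝ := (Fintype.card lam : ℝ) with hN
  have hN0 : 0 ≤ N := by positivity
  set P : ℝ := N * S.C * C₄ with hP
  have hP0 : 0 ≤ P := by positivity
  set C₂ : ℝ := Real.log (4 * P + 1) / S.γ with hC₂
  have hC₂0 : 0 ≤ C₂ := div_nonneg (Real.log_nonneg (by linarith)) hγ.le
  have hexp : P * Real.exp (-(S.γ * C₂)) ≤ 1 / 4 := by
    rw [hC₂, mul_div_cancel₀ _ hγ.ne', Real.exp_neg, Real.exp_log (by linarith),
      ← div_eq_mul_inv, div_le_iff₀ (by linarith)]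
    linarith
  set Q : ℝ := S.C / S.c * Real.exp S.L with hQ
  have hQ0 : 0 ≤ Q := by positivity
  set C' : ℝ := S.C + Q * (S.β i₀ + S.C) + P with hC'
  have hC'0 : 1 ≤ C' := by
    have : 0 ≤ Q * (S.β i₀ + S.C) := by positivity
    linarith
  refine ⟨2 * C' + 1, by linarith, ?_⟩
  intro κ M y₁ n l hκ hn hl hin hil hlK hpos hM hy₁
  by_contra hcon
  push Not at hcon
  set b : ℝ := S.B n y₁ with hb
  set e : ℝ := Real.exp (S.γ / 2 * y₁) with he
  set D : ℝ := S.D n y₁ with hD
  have hb0 : 0 ≤ b := by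
    rw [hb]
    unfold B
    exact Finset.sum_nonneg fun i _ => integral_nonneg fun x => (Real.exp_pos _).le
  have he0 : 0 < e := Real.exp_pos _
  have hbe : 0 < b + e := by linarith
  have hD0 : 0 < D := lt_of_le_of_lt (by positivity) hcon
  set η : ℝ := Q * b with hη
  have hη0 : 0 ≤ η := by positivity
  -- the new certificate
  let a : ι → NNReal := fun i => if i = i₀ then Real.toNNReal η else 0
  have ha : ∀ i, (a i : ℝ) = if i = i₀ then η else 0 := by
    intro i
    by_cases hi : i = i₀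
    · simp only [a, if_pos hi, Real.coe_toNNReal η hη0]
    · simp only [a, if_neg hi, NNReal.coe_zero]
  let n' : ι → Measure ℝ := fun i => (n i).restrict (Ici y₁) + a i • Measure.dirac (y₁ - S.L)
  let l' : lam → Measure ℝ := fun j => (l j).restrict (Ici (y₁ + C₂))
  have hn' : ∀ i, IsFiniteMeasure (n' i) := fun i => by
    have := hn i
    show IsFiniteMeasure ((n i).restrict (Ici y₁) + a i • Measure.dirac (y₁ - S.L))
    infer_instance
  have hl' : ∀ j, IsFiniteMeasure (l' j) := fun j => by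
    have := hl j
    show IsFiniteMeasure ((l j).restrict (Ici (y₁ + C₂)))
    infer_instance
  have hint' : ∀ (i : ι) (f : ℝ → ℝ), Continuous f → Integrable f (n i) →
      ∫ x, f x ∂(n' i) = ∫ x in Ici y₁, f x ∂(n i) + a i * f (y₁ - S.L) := by
    intro i f hf hfi
    show ∫ x, f x ∂((n i).restrict (Ici y₁) + a i • Measure.dirac (y₁ - S.L)) = _
    rw [integral_add_measure hfi.restrict
      ((integrable_dirac (by simp)).smul_measure_nnreal), integral_smul_nnreal_measure,
      integral_dirac]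
    rfl
  have hkbc : ∀ i y, Continuous fun x => S.kb i (x - y) := fun i y =>
    (S.hkb i).cont.comp (continuous_id.sub continuous_const)
  have hg' : ∀ y, S.g n' l' y = ∑ i, ∫ x in Ici y₁, S.kb i (x - y) ∂(n i) +
      η * S.kb i₀ (y₁ - S.L - y) + ∑ j, ∫ x in Ici (y₁ + C₂), S.kl j (x - y) ∂(l j) -
      S.k₀ (-y) := by
    intro y
    unfold g
    have h1 : ∑ i, ∫ x, S.kb i (x - y) ∂(n' i) =
        ∑ i, ∫ x in Ici y₁, S.kb i (x - y) ∂(n i) + η * S.kb i₀ (y₁ - S.L - y) := by
      rw [Finset.sum_congr rfl fun i _ => hint' i _ (hkbc i y) (by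
        have := hn i
        exact S.int_kb i (n i) y), Finset.sum_add_distrib]
      congr 1
      rw [Finset.sum_eq_single i₀]
      · rw [ha, if_pos rfl]
      · intro i _ hi
        rw [ha, if_neg hi, zero_mul]
      · intro h
        exact absurd (Finset.mem_univ _) h
    rw [h1]
  have hcert : S.Cert n' l' := by
    refine ⟨hn', hl', ⟨κ, hκ, fun i => ?_, fun j => ?_⟩, fun y => ?_⟩
    · have := hn i
      show Integrable _ ((n i).restrict (Ici y₁) + a i • Measure.dirac (y₁ - S.L))
      exact (cut_mom hκ le_rfl (n i) (hin i)).add_measure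
        ((integrable_dirac (by simp)).smul_measure_nnreal)
    · have := hl j
      exact cut_mom hκ (by linarith : y₁ ≤ y₁ + C₂) (l j) (hil j)
    · rw [hg']
      rcases le_or_gt y₁ y with hy | hy
      · -- y ≥ y₁
        have h1 := hpos y (by linarith)
        unfold g at h1
        have h2 : ∑ i, ∫ x, S.kb i (x - y) ∂(n i) ≤
            ∑ i, ∫ x in Ici y₁, S.kb i (x - y) ∂(n i) + S.C * Real.exp (-(y - y₁)) * b := by
          have h3 : S.C * Real.exp (-(y - y₁)) * b = ∑ i, S.C * Real.exp (-(y - y₁)) *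
              ∫ x, Real.exp (-(S.γ / 2 * |x - y₁|)) ∂(n i) := by
            rw [hb, B, Finset.mul_sum]
          rw [h3, ← Finset.sum_add_distrib]
          refine Finset.sum_le_sum fun i _ => ?_
          have := hn i
          have h4 := S.cut_left (μ := n i) i hy
          have h5 := integral_add_compl (measurableSet_Ici (a := y₁)) (S.int_kb i (n i) y)
          rw [compl_Ici] at h5
          linarith
        have h6 : ∑ j, ∫ x, S.kl j (x - y) ∂(l j) ≤
            ∑ j, ∫ x in Ici (y₁ + C₂), S.kl j (x - y) ∂(l j) := by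
          refine Finset.sum_le_sum fun j _ => ?_
          have := hl j
          have h5 := integral_add_compl (measurableSet_Ici (a := y₁ + C₂)) (S.int_kl j (l j) y)
          have h7 : ∫ x in (Ici (y₁ + C₂))ᶜ, S.kl j (x - y) ∂(l j) ≤ 0 :=
            setIntegral_nonpos measurableSet_Ici.compl fun x _ => ((S.hkl j).neg _).le
          linarith
        have h8 : S.C * Real.exp (-(y - y₁)) * b ≤ η * S.kb i₀ (y₁ - S.L - y) := by
          have h9 := (S.hkb i₀).low (y₁ - S.L - y) (by linarith)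
          have h10 : η * (S.c * Real.exp (y₁ - S.L - y)) = S.C * Real.exp (-(y - y₁)) * b := by
            have h11 : Real.exp (y₁ - S.L - y) = Real.exp (-(y - y₁)) / Real.exp S.L := by
              rw [← Real.exp_sub]
              congr 1
              ring
            rw [hη, hQ, h11]
            field_simp
          rw [← h10]
          exact mul_le_mul_of_nonneg_left h9 hη0
        linarith
      · -- y < y₁
        have h1 : -(∑ i, S.β i * (n i).real (Ici y₁)) - S.C * b ≤
            ∑ i, ∫ x in Ici y₁, S.kb i (x - y) ∂(n i) := by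
          have h3 : S.C * b = ∑ i, S.C * ∫ x, Real.exp (-(S.γ / 2 * |x - y₁|)) ∂(n i) := by
            rw [hb, B, Finset.mul_sum]
          rw [h3, ← Finset.sum_neg_distrib, ← Finset.sum_sub_distrib]
          refine Finset.sum_le_sum fun i _ => ?_
          have := hn i
          exact S.cut_right i hy.le
        have h2 : -(η * (S.β i₀ + S.C)) ≤ η * S.kb i₀ (y₁ - S.L - y) := by
          have h3 := (abs_le.1 (S.kb_abs i₀ (y₁ - S.L - y))).1
          have := mul_le_mul_of_nonneg_left h3 hη0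
          linarith
        have h4 : S.β₀ - S.C * e ≤ -S.k₀ (-y) := by
          have h5 := (abs_le.1 (S.hk₀.right (-y) (by linarith))).2
          have h6 : Real.exp (-(S.γ * -y)) ≤ e := by
            rw [he, Real.exp_le_exp]
            (first | linarith | nlinarith)
          have h7 : S.C * Real.exp (-(S.γ * -y)) ≤ S.C * e :=
            mul_le_mul_of_nonneg_left h6 (by linarith)
          linarith
        have h8 : -(P * (Real.exp (-(S.γ * C₂)) * D + b + e)) ≤
            ∑ j, ∫ x in Ici (y₁ + C₂), S.kl j (x - y) ∂(l j) := by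
          have h9 : P * (Real.exp (-(S.γ * C₂)) * D + b + e) =
              ∑ _j : lam, S.C * (C₄ * (Real.exp (-(S.γ * C₂)) * D + b + e)) := by
            rw [Finset.sum_const, Finset.card_univ, nsmul_eq_mul, hP, hN]
            ring
          rw [h9, ← Finset.sum_neg_distrib]
          refine Finset.sum_le_sum fun j _ => ?_
          have := hl j
          have h10 := S.cut_end (μ := l j) j hy.le hC₂0
          have h11 := hcut M y₁ C₂ n l hn hl hlK hpos hM hy₁ hC₂0 j
          rw [← hD, max_eq_left hD0.le, ← hb, ← he] at h11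
          have h12 := mul_le_mul_of_nonneg_left h11 (show 0 ≤ S.C by linarith)
          linarith
        have h13 : D = S.β₀ - ∑ i, S.β i * (n i).real (Ici y₁) := rfl
        have h14 : P * (Real.exp (-(S.γ * C₂)) * D + b + e) ≤ 1 / 4 * D + P * (b + e) := by
          have := mul_le_mul_of_nonneg_right hexp hD0.le
          (first | linarith | nlinarith)
        have h15 : C' * (b + e) ≤ 3 / 4 * D := by
          (first | linarith | nlinarith)
        have h16 : S.C * b + S.C * e + η * (S.β i₀ + S.C) + P * (b + e) ≤ C' * (b + e) := by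
          rw [hC', hη]
          have : 0 ≤ Q * (S.β i₀ + S.C) * e := by positivity
          (first | linarith | nlinarith)
        linarith
  have h1 := hV n' l' hcert
  have h2 : ∑ i, S.β i * (n' i).real univ =
      ∑ i, S.β i * (n i).real (Ici y₁) + S.β i₀ * η := by
    have h3 : ∀ i, (n' i).real univ = (n i).real (Ici y₁) + a i := by
      intro i
      have := hn i
      have h4 := hint' i (fun _ => 1) continuous_const (integrable_const _)
      have := hn' i
      simpa [integral_const, smul_eq_mul] using h4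
    simp_rw [h3, mul_add]
    rw [Finset.sum_add_distrib]
    congr 1
    rw [Finset.sum_eq_single i₀]
    · rw [ha, if_pos rfl]
    · intro i _ hi
      rw [ha, if_neg hi, mul_zero]
    · intro h
      exact absurd (Finset.mem_univ _) h
  rw [h2] at h1
  have h13 : D = S.β₀ - ∑ i, S.β i * (n i).real (Ici y₁) := rfl
  have h14 : S.β i₀ * η ≤ C' * b := by
    rw [hη, hC']
    have h15 : 0 ≤ Q * S.C * b := by positivity
    (first | linarith | nlinarith)
  (first | linarith | nlinarith)

end Sys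

end Pool.Agent.IND2I
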