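import Pool.Agent.IND2I.Loc

/-!
# IND2I, module CutL: the tail of the left end masses to the right of `y₁ + C₂`

PROOF.  Write `d = max (D n y₁) 0`, `b = B n y₁`, `w t = e^{-γ (t - y₁)}`, `e = e^{γ/2 y₁}`.
(a) For `y₁ ≤ t ≤ 0`: `D n t = D n y₁ + ∑ β i n_i [y₁, t)`, and for `x ∈ [y₁, t)` one has
`1 ≤ e^{γ/2 (t - y₁)} e^{-γ/2 |x - y₁|}`, so `D n t ≤ d + β_max e^{γ/2 (t - y₁)} b`.
(b) `|x - y₁| ≤ |x - t| + (t - y₁)`, so `B n t ≤ e^{γ/2 (t - y₁)} b`.  (c) `e^{γ/2 t} = e^{γ/2 (t - y₁)} e`.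
So by `loc_mass` `c l_j [t-1, t+1] ≤ d + C' e^{γ/2 (t - y₁)} (b + e)` with `C' = β_max + C`, `y₁ ≤ t ≤ 0`.
(d) `x ∈ [y₁ + C₂, 0)`: cover by `[t-1, t+1]`, `t = t_k = y₁ + C₂ + 1 + 2 k ≤ 0`; on this interval the weight is
`≤ e^{γ} w t_k`.  As `∑_k w t_k ≤ e^{-γ C₂}/(1 - e^{-2γ})` and `∑_k w t_k e^{γ/2 (t_k - y₁)} ≤ 1/(1 - e^{-γ})`, this part is
`≤ C'' (e^{-γ C₂} d + b + e)` (induction over the number of intervals).  (e) The rest of `[y₁ + C₂, 0)` lies in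
`[-1, 0]` (also if `t_0 > 0`, then `y₁ + C₂ > -1`): weight `≤ e^{γ} e^{γ y₁}`, and by `loc_mass` at `0`, `D n 0 ≤ β₀`,
`c l_j [-1, 1] ≤ β₀ + C B n 0 + C ≤ β₀ + C + C e^{-γ/2 y₁} b`; so this part is `≤ C (e + b)` (`e^{γ y₁} ≤ e`).
(f) On `[0, ∞)` the weight is `≤ e^{γ y₁} ≤ e` and the mass `≤ K`.
-/

set_option autoImplicit false

namespace Pool.Agent.IND2I

open MeasureTheory Set

namespace Sys

variable {ι lam : Type} [Fintype ι] [Fintype lam] (S : Sys ι lam)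

/-- (b): `B n t ≤ e^{γ/2 (t - y)} B n y` for `y ≤ t`. -/
theorem cutl_B {n : ι → Measure ℝ} (hn : ∀ i, IsFiniteMeasure (n i)) {y t : ℝ} (hyt : y ≤ t) :
    S.B n t ≤ Real.exp (S.γ / 2 * (t - y)) * S.B n y := by
  rw [B, B, Finset.mul_sum]
  refine Finset.sum_le_sum fun i _ => ?_
  have := hn i
  rw [← integral_const_mul]
  refine integral_mono (S.loc_exp_int (n i) t) ((S.loc_exp_int (n i) y).const_mul _) fun x => ?_
  show Real.exp (-(S.γ / 2 * |x - t|)) ≤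
    Real.exp (S.γ / 2 * (t - y)) * Real.exp (-(S.γ / 2 * |x - y|))
  rw [← Real.exp_add]
  refine Real.exp_le_exp.2 ?_
  have h1 : |x - y| ≤ |x - t| + (t - y) := by
    have h2 : x - y = (x - t) + (t - y) := by ring
    rw [h2]
    refine (abs_add_le _ _).trans ?_
    rw [abs_of_nonneg (by linarith : 0 ≤ t - y)]
  have h3 := S.hγ0
  (first | linarith | nlinarith)

/-- (a): `D n t ≤ D n y + (∑ β) e^{γ/2 (t - y)} B n y` for `y ≤ t`. -/
theorem cutl_D {n : ι → Measure ℝ} (hn : ∀ i, IsFiniteMeasure (n i)) {y t : ℝ} (hyt : y ≤ t) :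
    S.D n t ≤ S.D n y + (∑ i, S.β i) * (Real.exp (S.γ / 2 * (t - y)) * S.B n y) := by
  rw [S.D_eq hn t, S.D_eq hn y]
  have h1 : ∀ i, (n i).real (Iio t) = (n i).real (Iio y) + (n i).real (Ico y t) := by
    intro i
    have := hn i
    rw [← measureReal_union ?_ measurableSet_Ico]
    · congr 1
      exact (Iio_union_Ico_eq_Iio hyt).symm
    · rw [Set.disjoint_left]
      intro x hx hx'
      exact absurd (lt_of_lt_of_le (Set.mem_Iio.1 hx) hx'.1) (lt_irrefl _)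
  have h2 : ∀ i, (n i).real (Ico y t) ≤ Real.exp (S.γ / 2 * (t - y)) *
      ∫ x, Real.exp (-(S.γ / 2 * |x - y|)) ∂(n i) := by
    intro i
    have := hn i
    rw [← integral_const_mul]
    have h3 : ∫ x, (Ico y t).indicator (fun _ => (1:ℝ)) x ∂(n i) = (n i).real (Ico y t) := by
      rw [integral_indicator measurableSet_Ico, setIntegral_const, smul_eq_mul, mul_one]
    rw [← h3]
    refine integral_mono ((integrable_const (1:ℝ)).indicator measurableSet_Ico)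
      ((S.loc_exp_int (n i) y).const_mul _) fun x => ?_
    show (Ico y t).indicator (fun _ => (1:ℝ)) x ≤
      Real.exp (S.γ / 2 * (t - y)) * Real.exp (-(S.γ / 2 * |x - y|))
    by_cases hx : x ∈ Ico y t
    · rw [Set.indicator_of_mem hx, ← Real.exp_add]
      refine Real.one_le_exp ?_
      rw [abs_of_nonneg (by linarith [hx.1] : 0 ≤ x - y)]
      have := S.hγ0
      (first | linarith [hx.2] | nlinarith [hx.2])
    · rw [Set.indicator_of_notMem hx]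
      positivity
  have hB : ∀ i, 0 ≤ ∫ x, Real.exp (-(S.γ / 2 * |x - y|)) ∂(n i) :=
    fun i => integral_nonneg fun x => Real.exp_nonneg _
  have h4 : ∑ i, S.β i * (n i).real (Iio t) ≤ ∑ i, S.β i * (n i).real (Iio y) +
      (∑ i, S.β i) * (Real.exp (S.γ / 2 * (t - y)) * S.B n y) := by
    have h5 : ∀ i, S.β i * (n i).real (Iio t) ≤ S.β i * (n i).real (Iio y) +
        S.β i * (Real.exp (S.γ / 2 * (t - y)) * S.B n y) := by
      intro i
      rw [h1 i, mul_add]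
      have h6 : ∫ x, Real.exp (-(S.γ / 2 * |x - y|)) ∂(n i) ≤ S.B n y := by
        rw [B]
        exact Finset.single_le_sum
          (f := fun i => ∫ x, Real.exp (-(S.γ / 2 * |x - y|)) ∂(n i)) (fun i _ => hB i)
          (Finset.mem_univ i)
      have h7 : (n i).real (Ico y t) ≤ Real.exp (S.γ / 2 * (t - y)) * S.B n y :=
        (h2 i).trans (mul_le_mul_of_nonneg_left h6 (Real.exp_nonneg _))
      have := mul_le_mul_of_nonneg_left h7 (S.hβ i).le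
      linarith
    refine (Finset.sum_le_sum fun i _ => h5 i).trans ?_
    rw [Finset.sum_add_distrib, ← Finset.sum_mul]
  linarith

/-- (c): the local mass of `l_j` near `t`, `y ≤ t ≤ 0`. -/
theorem cutl_mass {n : ι → Measure ℝ} {l : lam → Measure ℝ} (hn : ∀ i, IsFiniteMeasure (n i))
    (hl : ∀ j, IsFiniteMeasure (l j)) {y t : ℝ} (hyt : y ≤ t) (ht : t ≤ 0)
    (hg : 0 ≤ S.g n l t) (j : lam) :
    S.c * (l j).real (Icc (t - 1) (t + 1)) ≤ max (S.D n y) 0 +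
      (∑ i, S.β i + S.C) * (Real.exp (S.γ / 2 * (t - y)) *
        (S.B n y + Real.exp (S.γ / 2 * y))) := by
  have h1 := S.loc_mass hn hl ht hg j
  have h2 := S.cutl_B hn hyt
  have h3 := S.cutl_D hn hyt
  have h4 := le_max_left (S.D n y) 0
  have h5 : Real.exp (S.γ / 2 * t) =
      Real.exp (S.γ / 2 * (t - y)) * Real.exp (S.γ / 2 * y) := by
    rw [← Real.exp_add]; congr 1; ring
  have hC : 0 ≤ S.C := by linarith [S.hC]
  have hβ : 0 ≤ ∑ i, S.β i := Finset.sum_nonneg fun i _ => (S.hβ i).le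
  have h6 := mul_le_mul_of_nonneg_left h2 hC
  have h7 : 0 ≤ (∑ i, S.β i) * (Real.exp (S.γ / 2 * (t - y)) * Real.exp (S.γ / 2 * y)) := by
    positivity
  rw [h5] at h1
  (first | linarith | nlinarith)

/-- pointwise domination of the weight -/
theorem cutl_dom (y₁ C₂ : ℝ) (x : ℝ) :
    (Ici (y₁ + C₂)).indicator (fun x => Real.exp (-(S.γ * (x - y₁)))) x ≤
      ∑ k ∈ Finset.range ⌊(1 - (y₁ + C₂)) / 2⌋₊,
        (Icc (y₁ + C₂ + 1 + 2 * k - 1) (y₁ + C₂ + 1 + 2 * k + 1)).indicator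
          (fun _ => Real.exp S.γ * Real.exp (-(S.γ * (C₂ + 1 + 2 * k)))) x +
      (Icc ((0:ℝ) - 1) (0 + 1)).indicator (fun _ => Real.exp S.γ * Real.exp (S.γ * y₁)) x +
      (Ici (0:ℝ)).indicator (fun _ => Real.exp (S.γ * y₁)) x := by
  have hγ := S.hγ0
  have hs : 0 ≤ ∑ k ∈ Finset.range ⌊(1 - (y₁ + C₂)) / 2⌋₊,
        (Icc (y₁ + C₂ + 1 + 2 * k - 1) (y₁ + C₂ + 1 + 2 * k + 1)).indicator
          (fun _ => Real.exp S.γ * Real.exp (-(S.γ * (C₂ + 1 + 2 * k)))) x :=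
    Finset.sum_nonneg fun k _ => Set.indicator_nonneg (fun _ _ => by positivity) _
  have h2 : 0 ≤ (Icc ((0:ℝ) - 1) (0 + 1)).indicator
      (fun _ => Real.exp S.γ * Real.exp (S.γ * y₁)) x :=
    Set.indicator_nonneg (fun _ _ => by positivity) _
  have h3 : 0 ≤ (Ici (0:ℝ)).indicator (fun _ => Real.exp (S.γ * y₁)) x :=
    Set.indicator_nonneg (fun _ _ => by positivity) _
  by_cases hx : x ∈ Ici (y₁ + C₂)
  swap
  · rw [Set.indicator_of_notMem hx]; positivity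
  rw [Set.indicator_of_mem hx]
  have hx' : y₁ + C₂ ≤ x := hx
  by_cases hx0 : 0 ≤ x
  · have h4 : (Ici (0:ℝ)).indicator (fun _ => Real.exp (S.γ * y₁)) x = Real.exp (S.γ * y₁) :=
      Set.indicator_of_mem hx0 _
    have h5 : Real.exp (-(S.γ * (x - y₁))) ≤ Real.exp (S.γ * y₁) :=
      Real.exp_le_exp.2 (by (first | linarith | nlinarith))
    rw [h4]
    exact le_add_of_nonneg_of_le (add_nonneg hs h2) h5
  push Not at hx0
  by_cases hxN : x < y₁ + C₂ + 2 * (⌊(1 - (y₁ + C₂)) / 2⌋₊ : ℝ)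
  · -- an interval of the covering
    set k := ⌊(x - (y₁ + C₂)) / 2⌋₊ with hk
    have hk1 : (k : ℝ) ≤ (x - (y₁ + C₂)) / 2 := Nat.floor_le (by linarith)
    have hk2 : (x - (y₁ + C₂)) / 2 < k + 1 := Nat.lt_floor_add_one _
    have hkN : k < ⌊(1 - (y₁ + C₂)) / 2⌋₊ := by
      have : (k : ℝ) < (⌊(1 - (y₁ + C₂)) / 2⌋₊ : ℝ) := by linarith
      exact_mod_cast this
    have h4 : (Icc (y₁ + C₂ + 1 + 2 * (k:ℝ) - 1) (y₁ + C₂ + 1 + 2 * k + 1)).indicator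
          (fun _ => Real.exp S.γ * Real.exp (-(S.γ * (C₂ + 1 + 2 * k)))) x ≤
        ∑ k ∈ Finset.range ⌊(1 - (y₁ + C₂)) / 2⌋₊,
        (Icc (y₁ + C₂ + 1 + 2 * (k:ℝ) - 1) (y₁ + C₂ + 1 + 2 * k + 1)).indicator
          (fun _ => Real.exp S.γ * Real.exp (-(S.γ * (C₂ + 1 + 2 * k)))) x :=
      Finset.single_le_sum
        (f := fun k : ℕ => (Icc (y₁ + C₂ + 1 + 2 * (k:ℝ) - 1) (y₁ + C₂ + 1 + 2 * k + 1)).indicator
          (fun _ => Real.exp S.γ * Real.exp (-(S.γ * (C₂ + 1 + 2 * k)))) x)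
        (fun k _ => Set.indicator_nonneg (fun _ _ => by positivity) _)
        (Finset.mem_range.2 hkN)
    rw [Set.indicator_of_mem (show x ∈ Icc (y₁ + C₂ + 1 + 2 * (k:ℝ) - 1)
      (y₁ + C₂ + 1 + 2 * k + 1) from ⟨by linarith, by linarith⟩)] at h4
    have h5 : Real.exp (-(S.γ * (x - y₁))) ≤
        Real.exp S.γ * Real.exp (-(S.γ * (C₂ + 1 + 2 * k))) := by
      rw [← Real.exp_add]
      refine Real.exp_le_exp.2 ?_
      (first | linarith | nlinarith)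
    exact le_add_of_le_of_nonneg (le_add_of_le_of_nonneg (h5.trans h4) h2) h3
  · push Not at hxN
    have hN : (1 - (y₁ + C₂)) / 2 < (⌊(1 - (y₁ + C₂)) / 2⌋₊ : ℝ) + 1 := Nat.lt_floor_add_one _
    have hx1 : -1 < x := by linarith
    have h4 : (Icc ((0:ℝ) - 1) (0 + 1)).indicator
      (fun _ => Real.exp S.γ * Real.exp (S.γ * y₁)) x = Real.exp S.γ * Real.exp (S.γ * y₁) :=
      Set.indicator_of_mem (show x ∈ Icc ((0:ℝ) - 1) (0 + 1) from ⟨by linarith, by linarith⟩) _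
    have h5 : Real.exp (-(S.γ * (x - y₁))) ≤ Real.exp S.γ * Real.exp (S.γ * y₁) := by
      rw [← Real.exp_add]
      refine Real.exp_le_exp.2 ?_
      (first | linarith | nlinarith)
    rw [h4]
    exact le_add_of_le_of_nonneg (le_add_of_nonneg_of_le hs h5) h3

/-- the integrated form of `cutl_dom` -/
theorem cutl_int (μ : Measure ℝ) [IsFiniteMeasure μ] (y₁ C₂ : ℝ) :
    ∫ x in Ici (y₁ + C₂), Real.exp (-(S.γ * (x - y₁))) ∂μ ≤
      ∑ k ∈ Finset.range ⌊(1 - (y₁ + C₂)) / 2⌋₊,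
        Real.exp S.γ * Real.exp (-(S.γ * (C₂ + 1 + 2 * k))) *
          μ.real (Icc (y₁ + C₂ + 1 + 2 * k - 1) (y₁ + C₂ + 1 + 2 * k + 1)) +
      Real.exp S.γ * Real.exp (S.γ * y₁) * μ.real (Icc ((0:ℝ) - 1) (0 + 1)) +
      Real.exp (S.γ * y₁) * μ.real (Ici 0) := by
  have hγ := S.hγ0
  rw [← integral_indicator measurableSet_Ici]
  have hI1 : ∀ k ∈ Finset.range ⌊(1 - (y₁ + C₂)) / 2⌋₊, Integrable (fun x =>
      (Icc (y₁ + C₂ + 1 + 2 * (k:ℝ) - 1) (y₁ + C₂ + 1 + 2 * k + 1)).indicator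
          (fun _ => Real.exp S.γ * Real.exp (-(S.γ * (C₂ + 1 + 2 * k)))) x) μ :=
    fun k _ => (integrable_const _).indicator measurableSet_Icc
  have hI2 : Integrable (fun x => (Icc ((0:ℝ) - 1) (0 + 1)).indicator
      (fun _ => Real.exp S.γ * Real.exp (S.γ * y₁)) x) μ :=
    (integrable_const _).indicator measurableSet_Icc
  have hI3 : Integrable (fun x => (Ici (0:ℝ)).indicator (fun _ => Real.exp (S.γ * y₁)) x) μ :=
    (integrable_const _).indicator measurableSet_Ici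
  have hI0 : Integrable ((Ici (y₁ + C₂)).indicator
      (fun x => Real.exp (-(S.γ * (x - y₁))))) μ := by
    refine Integrable.of_bound (C := Real.exp (-(S.γ * C₂))) ?_ ?_
    · exact ((by fun_prop : Continuous (fun x => Real.exp (-(S.γ * (x - y₁))))).measurable.indicator
        measurableSet_Ici).aestronglyMeasurable
    · refine Filter.Eventually.of_forall fun x => ?_
      by_cases hx : x ∈ Ici (y₁ + C₂)
      · rw [Set.indicator_of_mem hx, Real.norm_eq_abs, abs_of_nonneg (Real.exp_nonneg _)]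
        refine Real.exp_le_exp.2 ?_
        have : y₁ + C₂ ≤ x := hx
        (first | linarith | nlinarith)
      · rw [Set.indicator_of_notMem hx, norm_zero]
        positivity
  have hIs := integrable_finset_sum (Finset.range ⌊(1 - (y₁ + C₂)) / 2⌋₊) hI1
  have h1 := integral_mono hI0 ((hIs.add hI2).add hI3) (fun x => S.cutl_dom y₁ C₂ x)
  refine h1.trans (le_of_eq ?_)
  have e0 : ∫ x, (∑ k ∈ Finset.range ⌊(1 - (y₁ + C₂)) / 2⌋₊,
        (Icc (y₁ + C₂ + 1 + 2 * (k:ℝ) - 1) (y₁ + C₂ + 1 + 2 * k + 1)).indicator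
          (fun _ => Real.exp S.γ * Real.exp (-(S.γ * (C₂ + 1 + 2 * k)))) x +
      (Icc ((0:ℝ) - 1) (0 + 1)).indicator (fun _ => Real.exp S.γ * Real.exp (S.γ * y₁)) x +
      (Ici (0:ℝ)).indicator (fun _ => Real.exp (S.γ * y₁)) x) ∂μ =
      ∑ k ∈ Finset.range ⌊(1 - (y₁ + C₂)) / 2⌋₊, ∫ x,
        (Icc (y₁ + C₂ + 1 + 2 * (k:ℝ) - 1) (y₁ + C₂ + 1 + 2 * k + 1)).indicator
          (fun _ => Real.exp S.γ * Real.exp (-(S.γ * (C₂ + 1 + 2 * k)))) x ∂μ +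
      ∫ x, (Icc ((0:ℝ) - 1) (0 + 1)).indicator
        (fun _ => Real.exp S.γ * Real.exp (S.γ * y₁)) x ∂μ +
      ∫ x, (Ici (0:ℝ)).indicator (fun _ => Real.exp (S.γ * y₁)) x ∂μ := by
    rw [integral_add (f := fun x => ∑ k ∈ Finset.range ⌊(1 - (y₁ + C₂)) / 2⌋₊,
        (Icc (y₁ + C₂ + 1 + 2 * (k:ℝ) - 1) (y₁ + C₂ + 1 + 2 * k + 1)).indicator
          (fun _ => Real.exp S.γ * Real.exp (-(S.γ * (C₂ + 1 + 2 * k)))) x +
      (Icc ((0:ℝ) - 1) (0 + 1)).indicator (fun _ => Real.exp S.γ * Real.exp (S.γ * y₁)) x)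
      (hIs.add hI2) hI3, integral_add hIs hI2, integral_finset_sum _ hI1]
  refine e0.trans ?_
  have e2 : ∫ x, (Icc ((0:ℝ) - 1) (0 + 1)).indicator
        (fun _ => Real.exp S.γ * Real.exp (S.γ * y₁)) x ∂μ =
      Real.exp S.γ * Real.exp (S.γ * y₁) * μ.real (Icc ((0:ℝ) - 1) (0 + 1)) := by
    rw [integral_indicator measurableSet_Icc, setIntegral_const, smul_eq_mul, mul_comm]
  have e3 : ∫ x, (Ici (0:ℝ)).indicator (fun _ => Real.exp (S.γ * y₁)) x ∂μ =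
      Real.exp (S.γ * y₁) * μ.real (Ici 0) := by
    rw [integral_indicator measurableSet_Ici, setIntegral_const, smul_eq_mul, mul_comm]
  rw [e2, e3]
  have e1 : ∑ k ∈ Finset.range ⌊(1 - (y₁ + C₂)) / 2⌋₊,
      ∫ x, (Icc (y₁ + C₂ + 1 + 2 * (k:ℝ) - 1) (y₁ + C₂ + 1 + 2 * k + 1)).indicator
          (fun _ => Real.exp S.γ * Real.exp (-(S.γ * (C₂ + 1 + 2 * k)))) x ∂μ =
      ∑ k ∈ Finset.range ⌊(1 - (y₁ + C₂)) / 2⌋₊,
        Real.exp S.γ * Real.exp (-(S.γ * (C₂ + 1 + 2 * k))) *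
          μ.real (Icc (y₁ + C₂ + 1 + 2 * k - 1) (y₁ + C₂ + 1 + 2 * k + 1)) := by
    refine Finset.sum_congr rfl fun k _ => ?_
    rw [integral_indicator measurableSet_Icc, setIntegral_const, smul_eq_mul, mul_comm]
  rw [e1]

theorem cut_l {K : ℝ} (hK : 0 ≤ K) :
    ∃ C₄ : ℝ, 1 ≤ C₄ ∧ ∀ (M y₁ C₂ : ℝ) (n : ι → Measure ℝ) (l : lam → Measure ℝ),
      (∀ i, IsFiniteMeasure (n i)) → (∀ j, IsFiniteMeasure (l j)) →
      (∀ j, (l j).real (Ici 0) ≤ K) → (∀ y, -M ≤ y → 0 ≤ S.g n l y) →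
      -M ≤ y₁ → y₁ ≤ 0 → 0 ≤ C₂ →
      ∀ j, ∫ x in Ici (y₁ + C₂), Real.exp (-(S.γ * (x - y₁))) ∂(l j) ≤
        C₄ * (Real.exp (-(S.γ * C₂)) * max (S.D n y₁) 0 + S.B n y₁
          + Real.exp (S.γ / 2 * y₁)) := by
  have hγ := S.hγ0
  have hc := S.hc
  have hC := S.hC
  have hβ₀ := S.hβ₀
  have hβ : 0 ≤ ∑ i, S.β i := Finset.sum_nonneg fun i _ => (S.hβ i).le
  obtain ⟨q, hq⟩ : ∃ q : ℝ, q = Real.exp (-S.γ) := ⟨_, rfl⟩
  have hq0 : 0 < q := by rw [hq]; positivity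
  have hq1 : q < 1 := by rw [hq, ← Real.exp_zero]; exact Real.exp_lt_exp.2 (by linarith)
  obtain ⟨A, hA⟩ : ∃ A : ℝ, A = Real.exp S.γ / S.c := ⟨_, rfl⟩
  have hA0 : 0 < A := by rw [hA]; positivity
  obtain ⟨C', hC'⟩ : ∃ C' : ℝ, C' = ∑ i, S.β i + S.C := ⟨_, rfl⟩
  have hC'0 : 0 ≤ C' := by rw [hC']; linarith
  have h1q : 0 < 1 - q := by linarith
  refine ⟨A * (1 / (1 - q)) + A * (C' * (1 / (1 - q))) + A * (S.β₀ + S.C) + K + 1, ?_, ?_⟩
  · have : 0 ≤ A * (1 / (1 - q)) + A * (C' * (1 / (1 - q))) + A * (S.β₀ + S.C) + K := by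
      have : 0 ≤ S.β₀ + S.C := by linarith
      positivity
    linarith
  intro M y₁ C₂ n l hn hl hlK hg hM hy hC2 j
  have := hl j
  have hB0 := S.B_nonneg (n := n) y₁
  obtain ⟨e, he⟩ : ∃ e : ℝ, e = Real.exp (S.γ / 2 * y₁) := ⟨_, rfl⟩
  have he0 : 0 < e := by rw [he]; positivity
  have he1 : e ≤ 1 := by
    rw [he]
    exact Real.exp_le_one_iff.2 (by (first | linarith | nlinarith))
  have hee : Real.exp (S.γ * y₁) = e * e := by
    rw [he, ← Real.exp_add]; congr 1; ring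
  obtain ⟨dd, hdd⟩ : ∃ dd : ℝ, dd = max (S.D n y₁) 0 := ⟨_, rfl⟩
  have hdd0 : 0 ≤ dd := by rw [hdd]; exact le_max_right _ _
  rw [← he, ← hdd]
  refine (S.cutl_int (l j) y₁ C₂).trans ?_
  -- the intervals
  have hk : ∀ k ∈ Finset.range ⌊(1 - (y₁ + C₂)) / 2⌋₊,
      Real.exp S.γ * Real.exp (-(S.γ * (C₂ + 1 + 2 * k))) *
          (l j).real (Icc (y₁ + C₂ + 1 + 2 * k - 1) (y₁ + C₂ + 1 + 2 * k + 1)) ≤
      A * (Real.exp (-(S.γ * C₂)) * dd + C' * (S.B n y₁ + e)) * q ^ k := by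
    intro k hk
    have hk' : (k:ℝ) + 1 ≤ (⌊(1 - (y₁ + C₂)) / 2⌋₊ : ℝ) := by
      have := Finset.mem_range.1 hk
      exact_mod_cast this
    have hN0 : 0 ≤ (1 - (y₁ + C₂)) / 2 := by
      by_contra hneg
      push Not at hneg
      rw [Nat.floor_of_nonpos hneg.le] at hk'
      have : (0:ℝ) ≤ k := by positivity
      norm_num at hk'
      linarith
    have hfl := Nat.floor_le hN0
    have hk0 : (0:ℝ) ≤ k := by positivity
    have ht0 : y₁ + C₂ + 1 + 2 * (k:ℝ) ≤ 0 := by linarith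
    have hty : y₁ ≤ y₁ + C₂ + 1 + 2 * (k:ℝ) := by linarith
    have h1 := S.cutl_mass hn hl hty ht0 (hg _ (by linarith)) j
    rw [← hdd, ← he, ← hC'] at h1
    have e2 : y₁ + C₂ + 1 + 2 * (k:ℝ) - y₁ = C₂ + 1 + 2 * k := by ring
    rw [e2] at h1
    -- weights
    have hw1 : Real.exp (-(S.γ * (C₂ + 1 + 2 * k))) ≤ Real.exp (-(S.γ * C₂)) * q ^ k := by
      rw [hq, ← Real.exp_nat_mul, ← Real.exp_add]
      refine Real.exp_le_exp.2 ?_
      (first | linarith [mul_nonneg hγ.le hk0] | nlinarith [mul_nonneg hγ.le hk0])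
    have hw2 : Real.exp (-(S.γ * (C₂ + 1 + 2 * k))) * Real.exp (S.γ / 2 * (C₂ + 1 + 2 * k)) ≤
        q ^ k := by
      rw [hq, ← Real.exp_nat_mul, ← Real.exp_add]
      refine Real.exp_le_exp.2 ?_
      (first | linarith [mul_nonneg hγ.le hC2, mul_nonneg hγ.le hk0] | nlinarith [mul_nonneg hγ.le hC2, mul_nonneg hγ.le hk0])
    obtain ⟨W, hW⟩ : ∃ W : ℝ, W = Real.exp (-(S.γ * (C₂ + 1 + 2 * k))) := ⟨_, rfl⟩
    obtain ⟨Et, hEt⟩ : ∃ Et : ℝ, Et = Real.exp (S.γ / 2 * (C₂ + 1 + 2 * k)) := ⟨_, rfl⟩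
    obtain ⟨m, hm⟩ : ∃ m : ℝ, m = (l j).real (Icc (y₁ + C₂ + 1 + 2 * k - 1)
      (y₁ + C₂ + 1 + 2 * k + 1)) := ⟨_, rfl⟩
    have hW0 : 0 < W := by rw [hW]; positivity
    rw [← hW] at hw1 hw2 ⊢
    rw [← hEt] at hw2 h1
    rw [← hm] at h1 ⊢
    have h2 : W * (S.c * m) ≤ W * (dd + C' * (Et * (S.B n y₁ + e))) :=
      mul_le_mul_of_nonneg_left h1 hW0.le
    have h3 : W * dd ≤ Real.exp (-(S.γ * C₂)) * q ^ k * dd := mul_le_mul_of_nonneg_right hw1 hdd0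
    have h4 : (W * Et) * (C' * (S.B n y₁ + e)) ≤ q ^ k * (C' * (S.B n y₁ + e)) :=
      mul_le_mul_of_nonneg_right hw2 (by positivity)
    have h5 : S.c * (W * m) ≤ (Real.exp (-(S.γ * C₂)) * dd + C' * (S.B n y₁ + e)) * q ^ k := by
      (first | linarith | nlinarith)
    have h6 : Real.exp S.γ * W * m = A * (S.c * (W * m)) := by
      rw [hA]; field_simp
    rw [h6, mul_assoc A]
    exact mul_le_mul_of_nonneg_left h5 hA0.le
  have hsum : ∑ k ∈ Finset.range ⌊(1 - (y₁ + C₂)) / 2⌋₊, q ^ k ≤ 1 / (1 - q) := by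
    rw [geom_sum_eq hq1.ne]
    have : (q ^ ⌊(1 - (y₁ + C₂)) / 2⌋₊ - 1) / (q - 1) =
        (1 - q ^ ⌊(1 - (y₁ + C₂)) / 2⌋₊) / (1 - q) := by
      rw [← neg_sub, ← neg_sub (1:ℝ) q, neg_div_neg_eq]
    rw [this]
    refine div_le_div_of_nonneg_right ?_ h1q.le
    have : 0 ≤ q ^ ⌊(1 - (y₁ + C₂)) / 2⌋₊ := by positivity
    linarith
  have hpart1 : ∑ k ∈ Finset.range ⌊(1 - (y₁ + C₂)) / 2⌋₊,
      Real.exp S.γ * Real.exp (-(S.γ * (C₂ + 1 + 2 * k))) *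
          (l j).real (Icc (y₁ + C₂ + 1 + 2 * k - 1) (y₁ + C₂ + 1 + 2 * k + 1)) ≤
      A * (Real.exp (-(S.γ * C₂)) * dd + C' * (S.B n y₁ + e)) * (1 / (1 - q)) := by
    refine (Finset.sum_le_sum hk).trans ?_
    rw [← Finset.mul_sum]
    exact mul_le_mul_of_nonneg_left hsum (by positivity)
  -- the middle part
  have hpart2 : Real.exp S.γ * Real.exp (S.γ * y₁) * (l j).real (Icc ((0:ℝ) - 1) (0 + 1)) ≤
      A * ((S.β₀ + S.C) * e + S.C * S.B n y₁) := by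
    have h1 := S.loc_mass hn hl (le_refl (0:ℝ)) (hg 0 (by linarith)) j
    have h2 := S.D_le hn (0:ℝ)
    have h3 := S.cutl_B hn hy
    have h4 : Real.exp (S.γ / 2 * (0:ℝ)) = 1 := by simp
    rw [h4, mul_one] at h1
    have h5 : Real.exp (S.γ / 2 * (0 - y₁)) * e = 1 := by
      rw [he, ← Real.exp_add]
      have : S.γ / 2 * (0 - y₁) + S.γ / 2 * y₁ = 0 := by ring
      rw [this, Real.exp_zero]
    obtain ⟨E0, hE0⟩ : ∃ E0 : ℝ, E0 = Real.exp (S.γ / 2 * (0 - y₁)) := ⟨_, rfl⟩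
    rw [← hE0] at h3 h5
    obtain ⟨m, hm⟩ : ∃ m : ℝ, m = (l j).real (Icc ((0:ℝ) - 1) (0 + 1)) := ⟨_, rfl⟩
    rw [← hm] at h1 ⊢
    have h6 : S.c * m ≤ S.β₀ + S.C + S.C * (E0 * S.B n y₁) := by
      have := mul_le_mul_of_nonneg_left h3 (by linarith : 0 ≤ S.C)
      linarith
    have h7 : (e * e) * (S.c * m) ≤ (e * e) * (S.β₀ + S.C + S.C * (E0 * S.B n y₁)) :=
      mul_le_mul_of_nonneg_left h6 (by positivity)
    have h8 : (e * e) * (S.β₀ + S.C + S.C * (E0 * S.B n y₁)) =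
        e * (e * (S.β₀ + S.C)) + e * (S.C * S.B n y₁) * (E0 * e) := by ring
    rw [h8, h5, mul_one] at h7
    have h9 : e * (e * (S.β₀ + S.C)) ≤ 1 * (e * (S.β₀ + S.C)) :=
      mul_le_mul_of_nonneg_right he1 (by positivity)
    have h10 : e * (S.C * S.B n y₁) ≤ 1 * (S.C * S.B n y₁) :=
      mul_le_mul_of_nonneg_right he1 (by positivity)
    have h11 : Real.exp S.γ * Real.exp (S.γ * y₁) * m = A * ((e * e) * (S.c * m)) := by
      rw [hee, hA]; field_simp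
    rw [h11]
    refine mul_le_mul_of_nonneg_left ?_ hA0.le
    linarith
  have hpart3 : Real.exp (S.γ * y₁) * (l j).real (Ici 0) ≤ K * e := by
    rw [hee]
    have h1 := hlK j
    have h2 : e * e * (l j).real (Ici 0) ≤ e * e * K := mul_le_mul_of_nonneg_left h1 (by positivity)
    have h3 : e * e * K ≤ 1 * e * K := by
      refine mul_le_mul_of_nonneg_right (mul_le_mul_of_nonneg_right he1 he0.le) hK
    linarith
  have hX : 0 ≤ Real.exp (-(S.γ * C₂)) * dd := by positivity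
  obtain ⟨X, hXd⟩ : ∃ X : ℝ, X = Real.exp (-(S.γ * C₂)) * dd := ⟨_, rfl⟩
  obtain ⟨g1, hg1⟩ : ∃ g1 : ℝ, g1 = 1 / (1 - q) := ⟨_, rfl⟩
  have hg10 : 0 ≤ g1 := by rw [hg1]; positivity
  rw [← hXd] at hX hpart1 ⊢
  rw [← hg1] at hpart1 ⊢
  obtain ⟨b, hb⟩ : ∃ b : ℝ, b = S.B n y₁ := ⟨_, rfl⟩
  rw [← hb] at hB0 hpart1 hpart2 ⊢
  have p1 : 0 ≤ A * g1 := by positivity
  have p2 : 0 ≤ A * (C' * g1) := by positivity
  have p3 : 0 ≤ A * (S.β₀ + S.C) := by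
    have : 0 ≤ S.β₀ + S.C := by linarith
    positivity
  have p4 : A * (S.C * b) ≤ A * (S.β₀ + S.C) * b := by
    have : 0 ≤ A * S.β₀ * b := by positivity
    (first | linarith | nlinarith)
  have q1 : A * (X + C' * (b + e)) * g1 = A * g1 * X + A * (C' * g1) * b + A * (C' * g1) * e := by
    ring
  have q2 : A * ((S.β₀ + S.C) * e + S.C * b) = A * (S.β₀ + S.C) * e + A * (S.C * b) := by ring
  have q3 : (A * g1 + A * (C' * g1) + A * (S.β₀ + S.C) + K + 1) * (X + b + e) =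
      A * g1 * X + A * (C' * g1) * b + A * (C' * g1) * e + A * (S.β₀ + S.C) * e +
      A * (S.β₀ + S.C) * b + K * e + (A * g1 * b + A * g1 * e + A * (C' * g1) * X +
      A * (S.β₀ + S.C) * X + K * X + K * b + (X + b + e)) := by ring
  have q4 : 0 ≤ A * g1 * b + A * g1 * e + A * (C' * g1) * X +
      A * (S.β₀ + S.C) * X + K * X + K * b + (X + b + e) := by positivity
  refine (add_le_add (add_le_add hpart1 hpart2) hpart3).trans ?_
  rw [q1, q2, q3]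
  linarith

end Sys

end Pool.Agent.IND2I
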