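import Mathlib

/-!
# IND2I, module Grow: exponential decay from a local bound

PROOF.  Let `ψ y = μ.real (Iio y)`, `I y = ∫ e^{-g |x - y|} dμ`, `s y = ∫ min 1 (e^{-g (x - y)}) dμ`, so
`ψ y ≤ s y`, `I y ≤ s y`, `s y ≤ K`.  Let `q = 1/(1 - e^{-g})`.
(1) `∑_{j < N} e^{-g |x - (y - j)|} ≤ 2 q min 1 (e^{-g (x - y)})` for all `x`: for `x ≥ y` every term is
`e^{-g (x - y)} e^{-g j}`; for `x < y` at most two geometric series (`|x - (y - j)|` are numbers at distance 1).
So `∑_{j < N} I (y - j) ≤ 2 q s y`.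
(2) Let `y ≤ 0`, `y - N ≥ -M`.  `ψ` is nondecreasing, so
`N ψ (y - N) ≤ ∑_{j < N} ψ (y - j) ≤ C (2 q s y + q e^{g y}) + N δ₀`.
(3) `s (y - 2N) ≤ ψ (y - N) + e^{-g N} s y`: for `x < y - N` use `min ≤ 1`; for `x ≥ y - N`:
`e^{-g (x - y + 2N)} = e^{-g N} e^{-g (x - y + N)}` and `e^{-g (x - y + N)} ≤ min 1 (e^{-g (x - y)})`.
So `s (y - 2N) ≤ (2 C q/N + e^{-g N}) s y + C q e^{g y} + δ₀ ≤ (1/2) s y + C q e^{g y} + δ₀` for a fixed large natural
`N ≥ 1` (depending on `g`, `C` only).
(4) Iterate: for `-M ≤ z ≤ 0` let `k = ⌊-z/(2N)⌋`, `y_i = z + 2N i`, `y_k ∈ (-2N, 0]`.  All steps are allowed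
(`y_i - N ≥ z ≥ -M` for `i ≥ 1`).  Choose `c₁ > 0` with `c₁ ≤ g` and `e^{2N c₁} ≤ 3/2`.  Claim
`s y ≤ A (K e^{c₁ y} + δ₀)` by induction on `k` with `A` so large that `A ≥ e^{2N c₁}`, `A ≥ 2` and
`(1/2) A e^{2N c₁} + C q e^{2N c₁} ≤ A`: for `z = y - 2N`: `s z ≤ (1/2) A (K e^{c₁ y} + δ₀) + C q e^{c₁ y} + δ₀
≤ A K e^{c₁ z} + A δ₀` (`K ≥ 1`, `e^{g y} ≤ e^{c₁ y}`, `e^{c₁ y} = e^{2N c₁} e^{c₁ z}`).
-/

set_option autoImplicit false

namespace Pool.Agent.IND2I

open MeasureTheory Set

namespace Gro

theorem geom_le {r : ℝ} (h0 : 0 ≤ r) (h1 : r < 1) (N : ℕ) :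
    ∑ i ∈ Finset.range N, r ^ i ≤ 1 / (1 - r) := by
  rw [le_div_iff₀ (by linarith), geom_sum_mul_neg]
  have := pow_nonneg h0 N
  linarith

theorem sum_exp_le {g : ℝ} (hg : 0 < g) (x y : ℝ) (N : ℕ) :
    ∑ j ∈ Finset.range N, Real.exp (-(g * |x - (y - j)|)) ≤
      2 * (1 / (1 - Real.exp (-g))) * min 1 (Real.exp (-(g * (x - y)))) := by
  have hr0 : 0 ≤ Real.exp (-g) := (Real.exp_pos _).le
  have hr1 : Real.exp (-g) < 1 := by
    rw [Real.exp_lt_one_iff]; linarith
  have hq : 0 ≤ 1 / (1 - Real.exp (-g)) := by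
    apply one_div_nonneg.2; linarith
  have hpow : ∀ i : ℕ, Real.exp (-g) ^ i = Real.exp (-(g * i)) := by
    intro i
    rw [← Real.exp_nat_mul]
    congr 1
    ring
  rcases le_or_gt y x with h | h
  · have h1 : min 1 (Real.exp (-(g * (x - y)))) = Real.exp (-(g * (x - y))) := by
      apply min_eq_right
      rw [Real.exp_le_one_iff]
      have := mul_nonneg hg.le (sub_nonneg.2 h)
      linarith
    have h2 : ∀ j ∈ Finset.range N, Real.exp (-(g * |x - (y - j)|)) =
        Real.exp (-(g * (x - y))) * Real.exp (-g) ^ j := by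
      intro j _
      rw [hpow, ← Real.exp_add]
      congr 1
      have h3 : 0 ≤ x - (y - (j : ℝ)) := by
        have : (0 : ℝ) ≤ j := Nat.cast_nonneg j
        linarith
      rw [abs_of_nonneg h3]
      ring
    rw [h1, Finset.sum_congr rfl h2, ← Finset.mul_sum]
    have h3 := geom_le hr0 hr1 N
    have h4 := (Real.exp_pos (-(g * (x - y)))).le
    calc Real.exp (-(g * (x - y))) * ∑ i ∈ Finset.range N, Real.exp (-g) ^ i
        ≤ Real.exp (-(g * (x - y))) * (1 / (1 - Real.exp (-g))) :=
          mul_le_mul_of_nonneg_left h3 h4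
      _ ≤ 2 * (1 / (1 - Real.exp (-g))) * Real.exp (-(g * (x - y))) := by
          (first | linarith [mul_nonneg hq h4] | nlinarith [mul_nonneg hq h4])
  · have h1 : min 1 (Real.exp (-(g * (x - y)))) = 1 := by
      apply min_eq_left
      rw [Real.one_le_exp_iff]
      have := mul_nonneg hg.le (sub_nonneg.2 h.le)
      linarith
    rw [h1, mul_one]
    set d : ℝ := y - x with hd
    have hd0 : 0 ≤ d := by linarith
    set n : ℕ := ⌊d⌋₊ with hn
    have hn1 : (n : ℝ) ≤ d := Nat.floor_le hd0
    have hn2 : d < n + 1 := Nat.lt_floor_add_one d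
    have hsub : ∑ j ∈ Finset.range N, Real.exp (-(g * |x - (y - j)|)) ≤
        ∑ j ∈ Finset.range ((n + 1) + N), Real.exp (-(g * |x - (y - j)|)) := by
      apply Finset.sum_le_sum_of_subset_of_nonneg
      · intro j hj
        rw [Finset.mem_range] at hj ⊢
        omega
      · intro j _ _
        exact (Real.exp_pos _).le
    refine hsub.trans ?_
    rw [Finset.sum_range_add]
    have ha : ∑ j ∈ Finset.range (n + 1), Real.exp (-(g * |x - (y - j)|)) ≤
        1 / (1 - Real.exp (-g)) := by
      refine le_trans ?_ (geom_le hr0 hr1 (n + 1))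
      rw [← Finset.sum_range_reflect (fun i => Real.exp (-g) ^ i)]
      apply Finset.sum_le_sum
      intro j hj
      rw [Finset.mem_range] at hj
      rw [hpow]
      apply Real.exp_le_exp.2
      have h3 : ((n + 1 - 1 - j : ℕ) : ℝ) = n - j := by
        rw [Nat.add_sub_cancel, Nat.cast_sub (by omega)]
      rw [h3]
      have h4 : (n : ℝ) - j ≤ |x - (y - j)| := by
        rw [abs_sub_comm]
        refine le_trans ?_ (le_abs_self _)
        linarith
      have := mul_le_mul_of_nonneg_left h4 hg.le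
      linarith
    have hb : ∑ i ∈ Finset.range N, Real.exp (-(g * |x - (y - ((n + 1 + i : ℕ) : ℝ))|)) ≤
        1 / (1 - Real.exp (-g)) := by
      refine le_trans ?_ (geom_le hr0 hr1 N)
      apply Finset.sum_le_sum
      intro i _
      rw [hpow]
      apply Real.exp_le_exp.2
      have h4 : (i : ℝ) ≤ |x - (y - ((n + 1 + i : ℕ) : ℝ))| := by
        refine le_trans ?_ (le_abs_self _)
        push_cast
        linarith
      have := mul_le_mul_of_nonneg_left h4 hg.le
      linarith
    linarith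

theorem int_bdd {μ : Measure ℝ} [IsFiniteMeasure μ] {f : ℝ → ℝ} (hf : Continuous f)
    (h : ∀ x, |f x| ≤ 1) : Integrable f μ :=
  Integrable.of_bound hf.aestronglyMeasurable 1 (Filter.Eventually.of_forall fun x => by
    rw [Real.norm_eq_abs]; exact h x)

theorem int_I {g : ℝ} (hg : 0 < g) {μ : Measure ℝ} [IsFiniteMeasure μ] (y : ℝ) :
    Integrable (fun x => Real.exp (-(g * |x - y|))) μ := by
  apply int_bdd
  · fun_prop
  · intro x
    rw [abs_of_pos (Real.exp_pos _), Real.exp_le_one_iff]
    have := mul_nonneg hg.le (abs_nonneg (x - y))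
    linarith

theorem int_s {g : ℝ} {μ : Measure ℝ} [IsFiniteMeasure μ] (y : ℝ) :
    Integrable (fun x => min 1 (Real.exp (-(g * (x - y))))) μ := by
  apply int_bdd
  · fun_prop
  · intro x
    rw [abs_of_nonneg (le_min zero_le_one (Real.exp_pos _).le)]
    exact min_le_left _ _

end Gro

open Gro in
theorem grow {g C : ℝ} (hg : 0 < g) (hC : 0 ≤ C) :
    ∃ C₁ c₁ : ℝ, 1 ≤ C₁ ∧ 0 < c₁ ∧ ∀ (μ : Measure ℝ) (M K δ₀ : ℝ), IsFiniteMeasure μ →
      μ.real univ ≤ K → 1 ≤ K → 0 ≤ δ₀ →
      (∀ y, -M ≤ y → y ≤ 0 →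
        μ.real (Iio y) ≤ C * (∫ x, Real.exp (-(g * |x - y|)) ∂μ + Real.exp (g * y)) + δ₀) →
      ∀ y, -M ≤ y → y ≤ 0 →
        ∫ x, min 1 (Real.exp (-(g * (x - y)))) ∂μ ≤ C₁ * (K * Real.exp (c₁ * y) + δ₀) := by
  set q : ℝ := 1 / (1 - Real.exp (-g)) with hqdef
  have hr1 : Real.exp (-g) < 1 := by
    rw [Real.exp_lt_one_iff]; linarith
  have hq : 0 ≤ q := by
    apply one_div_nonneg.2; linarith
  have hCq : 0 ≤ C * q := mul_nonneg hC hq
  obtain ⟨N, hN⟩ := exists_nat_ge (1 + 8 * (C * q) + 3 / g)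
  have h3g : 0 ≤ 3 / g := by positivity
  have hN1 : (1 : ℝ) ≤ N := by linarith
  have hN8 : 8 * (C * q) ≤ N := by linarith
  have hN3 : 3 / g ≤ N := by linarith
  have hN0 : (0 : ℝ) < N := by linarith
  have hexpN : Real.exp (-(g * N)) ≤ 1 / 4 := by
    have h1 : 3 ≤ g * N := by
      rw [div_le_iff₀ hg] at hN3
      linarith
    have h2 : 4 ≤ Real.exp (g * N) := by
      have := Real.add_one_le_exp (g * N)
      linarith
    rw [Real.exp_neg, ← one_div]
    exact one_div_le_one_div_of_le (by norm_num) h2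
  set c₁ : ℝ := min g (Real.log (3 / 2) / (2 * N)) with hc₁
  have hlog : 0 < Real.log (3 / 2) := Real.log_pos (by norm_num)
  have hc₁0 : 0 < c₁ := lt_min hg (by positivity)
  have hc₁g : c₁ ≤ g := min_le_left _ _
  have hc₁N : Real.exp (2 * N * c₁) ≤ 3 / 2 := by
    have h1 : c₁ ≤ Real.log (3 / 2) / (2 * N) := min_le_right _ _
    rw [le_div_iff₀ (by positivity)] at h1
    rw [← Real.le_log_iff_exp_le (by norm_num)]
    linarith
  refine ⟨2 + 6 * (C * q), c₁, by linarith, hc₁0, ?_⟩
  intro μ M K δ₀ hμ hmass hK hδ hloc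
  set A : ℝ := 2 + 6 * (C * q) with hA
  set s : ℝ → ℝ := fun y => ∫ x, min 1 (Real.exp (-(g * (x - y)))) ∂μ with hs
  have hs0 : ∀ y, 0 ≤ s y := fun y =>
    integral_nonneg fun x => le_min zero_le_one (Real.exp_pos _).le
  have hsK : ∀ y, s y ≤ K := by
    intro y
    have h1 : s y ≤ ∫ _x, (1 : ℝ) ∂μ :=
      integral_mono (int_s y) (integrable_const _) fun x => min_le_left _ _
    rw [integral_const, smul_eq_mul, mul_one] at h1
    exact h1.trans hmass
  -- step (2)
  have step2 : ∀ y, y ≤ 0 → -M ≤ y - N →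
      N * μ.real (Iio (y - N)) ≤ C * (2 * q * s y + q * Real.exp (g * y)) + N * δ₀ := by
    intro y hy hyM
    have h1 : ∀ j ∈ Finset.range N, μ.real (Iio (y - N)) ≤
        C * (∫ x, Real.exp (-(g * |x - (y - j)|)) ∂μ + Real.exp (g * (y - j))) + δ₀ := by
      intro j hj
      rw [Finset.mem_range] at hj
      have hj' : (j : ℝ) ≤ N := by exact_mod_cast hj.le
      have hj0 : (0 : ℝ) ≤ j := Nat.cast_nonneg j
      have h2 := hloc (y - j) (by linarith) (by linarith)
      refine le_trans ?_ h2
      apply measureReal_mono _ (measure_ne_top μ _)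
      intro x hx
      simp only [Set.mem_Iio] at hx ⊢
      linarith
    have h2 := Finset.sum_le_sum h1
    rw [Finset.sum_const, Finset.card_range, nsmul_eq_mul, Finset.sum_add_distrib,
      ← Finset.mul_sum, Finset.sum_add_distrib, Finset.sum_const, Finset.card_range,
      nsmul_eq_mul] at h2
    refine h2.trans ?_
    have h3 : ∑ j ∈ Finset.range N, ∫ x, Real.exp (-(g * |x - (y - j)|)) ∂μ ≤ 2 * q * s y := by
      rw [← integral_finsetSum _ (fun j _ => int_I hg _)]
      rw [hs]
      simp only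
      rw [← integral_const_mul]
      apply integral_mono
      · exact integrable_finsetSum _ (fun j _ => int_I hg _)
      · exact (int_s y).const_mul _
      · intro x
        exact sum_exp_le hg x y N
    have h4 : ∑ j ∈ Finset.range N, Real.exp (g * (y - j)) ≤ q * Real.exp (g * y) := by
      have h5 : ∀ j ∈ Finset.range N, Real.exp (g * (y - j)) =
          Real.exp (g * y) * Real.exp (-g) ^ j := by
        intro j _
        rw [← Real.exp_nat_mul, ← Real.exp_add]
        congr 1
        ring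
      rw [Finset.sum_congr rfl h5, ← Finset.mul_sum, mul_comm]
      exact mul_le_mul_of_nonneg_right (geom_le (Real.exp_pos _).le hr1 N) (Real.exp_pos _).le
    have h5 := mul_le_mul_of_nonneg_left (add_le_add h3 h4) hC
    linarith
  -- step (3)
  have step3 : ∀ y, s (y - 2 * N) ≤ μ.real (Iio (y - N)) + Real.exp (-(g * N)) * s y := by
    intro y
    have h1 : μ.real (Iio (y - N)) = ∫ x, (Iio (y - N)).indicator (fun _ => (1 : ℝ)) x ∂μ := by
      rw [integral_indicator_const _ measurableSet_Iio, smul_eq_mul, mul_one]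
    have h2 : Integrable (fun x => (Iio (y - N)).indicator (fun _ => (1 : ℝ)) x) μ :=
      (integrable_const _).indicator measurableSet_Iio
    rw [h1, hs]
    simp only
    rw [← integral_const_mul, ← integral_add h2 ((int_s y).const_mul _)]
    apply integral_mono (int_s _) (h2.add ((int_s y).const_mul _))
    intro x
    simp only [Pi.add_apply]
    by_cases hx : x < y - N
    · rw [Set.indicator_of_mem (by exact hx)]
      have h3 : 0 ≤ Real.exp (-(g * N)) * min 1 (Real.exp (-(g * (x - y)))) :=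
        mul_nonneg (Real.exp_pos _).le (le_min zero_le_one (Real.exp_pos _).le)
      have h4 : min 1 (Real.exp (-(g * (x - (y - 2 * N))))) ≤ 1 := min_le_left _ _
      linarith
    · rw [Set.indicator_of_notMem (by exact hx), zero_add]
      push Not at hx
      refine (min_le_right _ _).trans ?_
      have h3 : Real.exp (-(g * (x - (y - 2 * N)))) =
          Real.exp (-(g * N)) * Real.exp (-(g * (x - y + N))) := by
        rw [← Real.exp_add]; congr 1; ring
      rw [h3]
      apply mul_le_mul_of_nonneg_left _ (Real.exp_pos _).le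
      apply le_min
      · rw [Real.exp_le_one_iff]
        have := mul_nonneg hg.le (by linarith : 0 ≤ x - y + N)
        linarith
      · apply Real.exp_le_exp.2
        have := mul_le_mul_of_nonneg_left (by linarith : x - y ≤ x - y + N) hg.le
        linarith
  have step : ∀ y, y ≤ 0 → -M ≤ y - N →
      s (y - 2 * N) ≤ 1 / 2 * s y + C * q * Real.exp (g * y) + δ₀ := by
    intro y hy hyM
    have h2 := step2 y hy hyM
    have h3 := step3 y
    have h4 : μ.real (Iio (y - N)) ≤ 1 / 4 * s y + C * q * Real.exp (g * y) + δ₀ := by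
      have h5 : C * (2 * q * s y + q * Real.exp (g * y)) + N * δ₀ ≤
          N * (1 / 4 * s y + C * q * Real.exp (g * y) + δ₀) := by
        have h6 : 2 * (C * q) * s y ≤ N * (1 / 4 * s y) := by
          (first | linarith [hs0 y] | nlinarith [hs0 y])
        have h7 : C * q * Real.exp (g * y) ≤ N * (C * q * Real.exp (g * y)) := by
          have := mul_nonneg hCq (Real.exp_pos (g * y)).le
          (first | linarith | nlinarith)
        (first | linarith | nlinarith)
      exact le_of_mul_le_mul_left (h2.trans h5) hN0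
    have h5 : Real.exp (-(g * N)) * s y ≤ 1 / 4 * s y :=
      mul_le_mul_of_nonneg_right hexpN (hs0 y)
    linarith
  -- step (4)
  have main : ∀ k : ℕ, ∀ z : ℝ, -M ≤ z → z ≤ 0 → -(2 * (N : ℝ) * (k + 1)) ≤ z →
      s z ≤ A * (K * Real.exp (c₁ * z) + δ₀) := by
    have base : ∀ z : ℝ, z ≤ 0 → -(2 * (N : ℝ)) ≤ z → s z ≤ A * (K * Real.exp (c₁ * z) + δ₀) := by
      intro z hz0 hz
      have h1 : (2 / 3 : ℝ) ≤ Real.exp (c₁ * z) := by
        have h2 : Real.exp (-(2 * N * c₁)) ≤ Real.exp (c₁ * z) := by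
          apply Real.exp_le_exp.2
          (first | linarith | nlinarith)
        refine le_trans ?_ h2
        rw [Real.exp_neg, ← one_div, le_div_iff₀ (Real.exp_pos _)]
        linarith
      have h3 : K ≤ A * (K * Real.exp (c₁ * z)) := by
        have h4 : (2 / 3 : ℝ) * K ≤ K * Real.exp (c₁ * z) := by (first | linarith | nlinarith)
        have h5 : 2 ≤ A := by rw [hA]; linarith
        have h6 : 2 * (K * Real.exp (c₁ * z)) ≤ A * (K * Real.exp (c₁ * z)) :=
          mul_le_mul_of_nonneg_right h5 (by positivity)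
        linarith
      have h7 : 0 ≤ A * δ₀ := by positivity
      calc s z ≤ K := hsK z
        _ ≤ A * (K * Real.exp (c₁ * z) + δ₀) := by rw [mul_add]; linarith
    intro k
    induction k with
    | zero =>
      intro z _ hz0 hz
      apply base z hz0
      push_cast at hz
      linarith
    | succ k ih =>
      intro z hzM hz0 hz
      by_cases hb : -(2 * (N : ℝ)) ≤ z
      · exact base z hz0 hb
      · push Not at hb
        have h1 := step (z + 2 * N) (by linarith) (by linarith)
        rw [add_sub_cancel_right] at h1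
        have h2 := ih (z + 2 * N) (by linarith) (by linarith) (by push_cast at hz ⊢; linarith)
        have h3 : Real.exp (g * (z + 2 * N)) ≤ Real.exp (c₁ * (z + 2 * N)) := by
          apply Real.exp_le_exp.2
          (first | linarith | nlinarith)
        have h4 : Real.exp (c₁ * (z + 2 * N)) ≤ 3 / 2 * Real.exp (c₁ * z) := by
          have h5 : Real.exp (c₁ * (z + 2 * N)) = Real.exp (2 * N * c₁) * Real.exp (c₁ * z) := by
            rw [← Real.exp_add]; congr 1; ring
          rw [h5]
          exact mul_le_mul_of_nonneg_right hc₁N (Real.exp_pos _).le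
        set e := Real.exp (c₁ * z) with he
        have he0 : 0 < e := Real.exp_pos _
        set e' := Real.exp (c₁ * (z + 2 * N)) with he'
        have he'0 : 0 < e' := Real.exp_pos _
        have h5 : C * q * Real.exp (g * (z + 2 * N)) ≤ C * q * (K * e') := by
          apply mul_le_mul_of_nonneg_left _ hCq
          refine h3.trans ?_
          (first | linarith | nlinarith)
        have h6 : K * e' ≤ 3 / 2 * (K * e) := by (first | linarith | nlinarith)
        have h7 : (1 / 2 * A + C * q) * (K * e') ≤ A * (K * e) := by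
          have h8 : (1 / 2 * A + C * q) * (K * e') ≤ (1 / 2 * A + C * q) * (3 / 2 * (K * e)) := by
            apply mul_le_mul_of_nonneg_left h6
            positivity
          have h9 : (1 / 2 * A + C * q) * (3 / 2) ≤ A := by rw [hA]; linarith
          have h10 : (1 / 2 * A + C * q) * (3 / 2) * (K * e) ≤ A * (K * e) :=
            mul_le_mul_of_nonneg_right h9 (by positivity)
          linarith
        have h8 : (1 / 2 * A + 1) * δ₀ ≤ A * δ₀ := by
          apply mul_le_mul_of_nonneg_right _ hδ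
          rw [hA]; linarith
        (first | linarith | nlinarith)
  intro y hyM hy0
  obtain ⟨k, hk⟩ := exists_nat_ge (-y)
  apply main k y hyM hy0
  have h1 : (k : ℝ) ≤ 2 * N * (k + 1) := by
    have hk0 : (0 : ℝ) ≤ k := Nat.cast_nonneg k
    (first | linarith | nlinarith)
  linarith

end Pool.Agent.IND2I
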