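import Pool.Agent.IND2I.Tot
import Pool.Agent.IND2I.Cut
import Pool.Agent.IND2I.Grow

/-!
# IND2I, module Dec: exponential decay of half line certificates

PROOF.  `tot` (constant `C₁`) and `cut` (its `K` is `max K 0`; `l_j (Ici 0) ≤ K` by `Half.mom`, since `e^{κ x} ≥ 1`
on `Ici 0` and all terms of the sum are nonnegative).  Let `μ = ∑ i, ENNReal.ofReal (β i) • n i`, so
`μ.real A = ∑ β i n_i A`, and `β_min B n y ≤ ∫ e^{-γ/2 |x - y|} dμ`.  Let `δ₀ = max (-Dtot n) 0 ≤ C₁ (M + 1)/Λ`.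
By `D_eq` `μ (Iio y) = D n y - Dtot n ≤ C₃ (B n y + e^{γ/2 y}) + δ₀` for `-M ≤ y ≤ 0`.  `grow` with `g = γ/2`,
`C = C₃ max(1, 1/β_min)`, mass `≤ K' = max 1 (β_max C₁)`:
`S y := ∫ min 1 (e^{-γ/2 (x - y)}) dμ ≤ C (e^{c y} + δ₀)` on `[-M, 0]`.  As `1_{Iio y} ≤ min`, `e^{-γ/2|x-y|} ≤ min`:
`n_i (Iio y) ≤ S y/β_min`, `B n y ≤ S y/β_min`, `D n y ≤ C (e^{c y} + δ₀)` (`c ≤ γ/2`) by `cut`.
`Dtot ≤ 0`: trivial.  `Dtot > 0`: `δ₀ = 0`, `Dtot ≤ D n (-M) ≤ C e^{-c M}` (`D_eq`).
`l_j`: `loc_mass`: `c l_j [t-1, t+1] ≤ C (e^{c t} + δ₀)` for `-M ≤ t ≤ 0`; `Ico (-M) y` is covered by the intervals with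
centres `t = y - 1 - 2k ≥ -M` and `t = -M` (at most `M + 2` of them), sum `≤ C (e^{c y} + (M + 2) δ₀)` plus `C (e^{-c M} + δ₀)`.
-/

set_option autoImplicit false

namespace Pool.Agent.IND2I

open MeasureTheory Set

namespace Sys

variable {ι lam : Type} [Fintype ι] [Fintype lam] (S : Sys ι lam)

/-- the weighted sum of the supercritical masses -/
private noncomputable def dmu (n : ι → Measure ℝ) : Measure ℝ :=
  ∑ i, ENNReal.ofReal (S.β i) • n i

private theorem dmu_fin {n : ι → Measure ℝ} (hn : ∀ i, IsFiniteMeasure (n i)) :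
    IsFiniteMeasure (dmu S n) := by
  refine ⟨?_⟩
  rw [dmu, Measure.finsetSum_apply]
  refine ENNReal.sum_lt_top.2 fun i _ => ?_
  have := hn i
  rw [Measure.smul_apply, smul_eq_mul]
  exact ENNReal.mul_lt_top ENNReal.ofReal_lt_top (measure_lt_top _ _)

private theorem dmu_real {n : ι → Measure ℝ} (hn : ∀ i, IsFiniteMeasure (n i)) (A : Set ℝ) :
    (dmu S n).real A = ∑ i, S.β i * (n i).real A := by
  rw [Measure.real, dmu, Measure.finsetSum_apply, ENNReal.toReal_sum]
  · refine Finset.sum_congr rfl fun i _ => ?_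
    rw [Measure.smul_apply, smul_eq_mul, ENNReal.toReal_mul, ENNReal.toReal_ofReal (S.hβ i).le,
      Measure.real]
  · intro i _
    have := hn i
    rw [Measure.smul_apply, smul_eq_mul]
    exact (ENNReal.mul_lt_top ENNReal.ofReal_lt_top (measure_lt_top _ _)).ne

private theorem dmu_int {n : ι → Measure ℝ} {f : ℝ → ℝ} (hf : ∀ i, Integrable f (n i)) :
    ∫ x, f x ∂(dmu S n) = ∑ i, S.β i * ∫ x, f x ∂(n i) := by
  rw [dmu, integral_finsetSum_measure]
  · refine Finset.sum_congr rfl fun i _ => ?_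
    rw [integral_smul_measure, ENNReal.toReal_ofReal (S.hβ i).le, smul_eq_mul]
  · intro i _
    exact (hf i).smul_measure ENNReal.ofReal_ne_top

private theorem dmu_R (i : ι) (t : ι → ℝ) (ht : ∀ i, 0 ≤ t i) :
    t i ≤ (∑ i, 1 / S.β i) * ∑ i, S.β i * t i := by
  have h1 : 1 / S.β i ≤ ∑ i, 1 / S.β i :=
    Finset.single_le_sum (f := fun i => 1 / S.β i)
      (fun i _ => by have := S.hβ i; positivity) (Finset.mem_univ i)
  have h2 : S.β i * t i ≤ ∑ i, S.β i * t i :=
    Finset.single_le_sum (f := fun i => S.β i * t i)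
      (fun i _ => mul_nonneg (S.hβ i).le (ht i)) (Finset.mem_univ i)
  have hb := S.hβ i
  calc t i = 1 / S.β i * (S.β i * t i) := by field_simp
    _ ≤ (∑ i, 1 / S.β i) * (S.β i * t i) :=
        mul_le_mul_of_nonneg_right h1 (mul_nonneg hb.le (ht i))
    _ ≤ _ := mul_le_mul_of_nonneg_left h2 ((by positivity : (0:ℝ) ≤ 1 / S.β i).trans h1)

private theorem dmu_B {n : ι → Measure ℝ} (hn : ∀ i, IsFiniteMeasure (n i)) (y : ℝ) :
    S.B n y ≤ (∑ i, 1 / S.β i) * ∫ x, Real.exp (-(S.γ / 2 * |x - y|)) ∂(dmu S n) := by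
  rw [dmu_int S (f := fun x => Real.exp (-(S.γ / 2 * |x - y|)))
    (fun i => by have := hn i; exact S.loc_exp_int (n i) y), B, Finset.sum_mul]
  have hnn : ∀ i, 0 ≤ S.β i * ∫ x, Real.exp (-(S.γ / 2 * |x - y|)) ∂(n i) := fun i =>
    mul_nonneg (S.hβ i).le (integral_nonneg fun x => Real.exp_nonneg _)
  refine Finset.sum_le_sum fun i _ => ?_
  have h2 := Finset.single_le_sum
    (f := fun i => S.β i * ∫ x, Real.exp (-(S.γ / 2 * |x - y|)) ∂(n i))
    (fun i _ => hnn i) (Finset.mem_univ i)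
  have hb := S.hβ i
  calc ∫ x, Real.exp (-(S.γ / 2 * |x - y|)) ∂(n i) =
      1 / S.β i * (S.β i * ∫ x, Real.exp (-(S.γ / 2 * |x - y|)) ∂(n i)) := by field_simp
    _ ≤ _ := mul_le_mul_of_nonneg_left h2 (by positivity)

private theorem dec_cover {μ : Measure ℝ} [IsFiniteMeasure μ] {M y c A δ : ℝ} (hM : 0 ≤ M)
    (hc : 0 < c) (hA : 0 ≤ A) (hδ : 0 ≤ δ) (_hy : -M ≤ y) (hy0 : y ≤ 0)
    (h : ∀ t, -M ≤ t → t ≤ 0 → μ.real (Icc (t - 1) (t + 1)) ≤ A * (Real.exp (c * t) + δ)) :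
    μ.real (Ico (-M) y) ≤ A * (1 / (1 - Real.exp (-(2 * c))) * Real.exp (c * y) +
      (M + 1) * Real.exp (-(c * M)) + (M + 1) * δ) := by
  have hsub : Ico (-M) y ⊆ ⋃ k ∈ Finset.range (⌊M⌋₊ + 1),
      Icc (max (y - 1 - 2 * (k:ℝ)) (-M) - 1) (max (y - 1 - 2 * (k:ℝ)) (-M) + 1) := by
    intro x hx
    simp only [mem_iUnion, Finset.mem_range, exists_prop]
    have hxy : 0 ≤ (y - x) / 2 := by have := hx.2; linarith
    refine ⟨⌊(y - x) / 2⌋₊, ?_, ?_⟩
    · exact Nat.lt_succ_of_le (Nat.floor_le_floor (by linarith [hx.1]))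
    · have h1 := Nat.floor_le hxy
      have h2 := Nat.lt_floor_add_one ((y - x) / 2)
      have h3 := hx.1
      rcases le_total (y - 1 - 2 * ((⌊(y - x) / 2⌋₊ : ℕ) : ℝ)) (-M) with h4 | h4
      · rw [max_eq_right h4]
        constructor <;> linarith
      · rw [max_eq_left h4]
        constructor <;> linarith
  have hN : ((⌊M⌋₊ + 1 : ℕ) : ℝ) ≤ M + 1 := by
    push_cast
    linarith [Nat.floor_le hM]
  have hr : ∀ k : ℕ, Real.exp (-(2 * c)) ^ k = Real.exp (-(2 * c * k)) := by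
    intro k
    rw [← Real.exp_nat_mul]
    congr 1
    ring
  have hterm : ∀ k ∈ Finset.range (⌊M⌋₊ + 1),
      μ.real (Icc (max (y - 1 - 2 * (k:ℝ)) (-M) - 1) (max (y - 1 - 2 * (k:ℝ)) (-M) + 1)) ≤
      A * (Real.exp (c * y) * Real.exp (-(2 * c)) ^ k + (Real.exp (-(c * M)) + δ)) := by
    intro k _
    have hk : (0:ℝ) ≤ k := Nat.cast_nonneg k
    refine (h _ (le_max_right _ _) (max_le (by linarith) (by linarith))).trans ?_
    refine mul_le_mul_of_nonneg_left ?_ hA
    have h5 : Real.exp (c * max (y - 1 - 2 * (k:ℝ)) (-M)) ≤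
        Real.exp (c * y) * Real.exp (-(2 * c)) ^ k + Real.exp (-(c * M)) := by
      rcases le_total (y - 1 - 2 * (k:ℝ)) (-M) with h4 | h4
      · rw [max_eq_right h4]
        have : 0 ≤ Real.exp (c * y) * Real.exp (-(2 * c)) ^ k := by positivity
        have e : c * -M = -(c * M) := by ring
        rw [e]
        linarith
      · rw [max_eq_left h4, hr, ← Real.exp_add]
        have h6 : Real.exp (c * (y - 1 - 2 * (k:ℝ))) ≤ Real.exp (c * y + -(2 * c * k)) := by
          rw [Real.exp_le_exp]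
          have e : c * (y - 1 - 2 * (k:ℝ)) = c * y + -(2 * c * k) - c := by ring
          rw [e]
          linarith
        have h7 := Real.exp_nonneg (-(c * M))
        linarith
    linarith
  have hq1 : Real.exp (-(2 * c)) < 1 := by
    rw [Real.exp_lt_one_iff]; linarith
  have hgeo := Gro.geom_le (Real.exp_nonneg (-(2 * c))) hq1 (⌊M⌋₊ + 1)
  calc μ.real (Ico (-M) y)
      ≤ μ.real (⋃ k ∈ Finset.range (⌊M⌋₊ + 1),
        Icc (max (y - 1 - 2 * (k:ℝ)) (-M) - 1) (max (y - 1 - 2 * (k:ℝ)) (-M) + 1)) :=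
        measureReal_mono hsub (measure_ne_top _ _)
    _ ≤ ∑ k ∈ Finset.range (⌊M⌋₊ + 1),
        μ.real (Icc (max (y - 1 - 2 * (k:ℝ)) (-M) - 1) (max (y - 1 - 2 * (k:ℝ)) (-M) + 1)) :=
        measureReal_biUnion_finset_le _ _
    _ ≤ ∑ k ∈ Finset.range (⌊M⌋₊ + 1),
        A * (Real.exp (c * y) * Real.exp (-(2 * c)) ^ k + (Real.exp (-(c * M)) + δ)) :=
        Finset.sum_le_sum hterm
    _ = A * (Real.exp (c * y) * ∑ k ∈ Finset.range (⌊M⌋₊ + 1), Real.exp (-(2 * c)) ^ k +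
        ((⌊M⌋₊ + 1 : ℕ) : ℝ) * (Real.exp (-(c * M)) + δ)) := by
        rw [← Finset.mul_sum, Finset.sum_add_distrib, ← Finset.mul_sum, Finset.sum_const,
          Finset.card_range, nsmul_eq_mul]
    _ ≤ A * (Real.exp (c * y) * (1 / (1 - Real.exp (-(2 * c)))) +
        (M + 1) * (Real.exp (-(c * M)) + δ)) := by
        refine mul_le_mul_of_nonneg_left ?_ hA
        have h8 := mul_le_mul_of_nonneg_left hgeo (Real.exp_nonneg (c * y))
        have h9 := mul_le_mul_of_nonneg_right hN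
          (add_nonneg (Real.exp_nonneg (-(c * M))) hδ)
        linarith
    _ = _ := by ring

theorem dec [Nonempty ι] (hV : S.HypV) {a : ℝ} (ha : 0 ≤ a)
    (hal : ∀ j, a * ∫ s in Ioi (0 : ℝ), S.kl j s < S.cl j)
    {L₁ : ℝ} (hL₁ : 0 ≤ L₁) {κ : ℝ} (hκ : 0 < κ) (K : ℝ) :
    ∃ C₂ c₂ : ℝ, 1 ≤ C₂ ∧ 0 < c₂ ∧ ∀ Λ M n l, 1 ≤ M → C₂ * (M + 1) ≤ Λ →
      S.Half a κ K Λ M L₁ n l →
      (∀ i, (n i).real univ ≤ C₂) ∧ (∀ j, (l j).real (Ici 0) ≤ C₂) ∧
      S.Dtot n ≤ C₂ * Real.exp (-(c₂ * M)) ∧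
      (∀ i y, -M ≤ y → y ≤ 0 →
        (n i).real (Iio y) ≤ C₂ * (Real.exp (c₂ * y) + (M + 1) / Λ)) ∧
      (∀ j y, -M ≤ y → y ≤ 0 →
        (l j).real (Ico (-M) y) ≤ C₂ * (Real.exp (c₂ * y) + (M + 1) ^ 2 / Λ)) := by
  obtain ⟨C₁, hC₁, htot⟩ := S.tot ha hal hL₁ hκ K
  obtain ⟨C₃, hC₃, hcut⟩ := S.cut hV (K := max K 0) (le_max_right _ _)
  have hSC := S.hC
  have hSc := S.hc
  have hγ := S.hγ0
  set R : ℝ := ∑ i, 1 / S.β i with hRdef
  have hR : 0 ≤ R := Finset.sum_nonneg fun i _ => by have := S.hβ i; positivity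
  set Bt : ℝ := ∑ i, S.β i with hBt
  have hBt0 : 0 ≤ Bt := Finset.sum_nonneg fun i _ => (S.hβ i).le
  obtain ⟨C₅, c₅, hC₅, hc₅, hgrow⟩ := grow (g := S.γ / 2) (C := C₃ * (1 + R)) (by positivity)
    (by positivity)
  set Km : ℝ := 1 + Bt * C₁ with hKm
  have hKm1 : 1 ≤ Km := by
    have : 0 ≤ Bt * C₁ := by positivity
    linarith
  set c : ℝ := min c₅ (S.γ / 2) with hcdef
  have hc : 0 < c := lt_min hc₅ (by positivity)
  set A : ℝ := C₅ * Km with hAdef
  have hA1 : 1 ≤ A := by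
    rw [hAdef]
    exact one_le_mul_of_one_le_of_one_le hC₅ hKm1
  set F : ℝ := C₃ * (R * A + 1) with hFdef
  have hF0 : 0 ≤ F := by positivity
  set E : ℝ := F + S.C * (R * A) + S.C with hEdef
  have hE0 : 0 ≤ E := by positivity
  set G : ℝ := E / S.c with hGdef
  have hG0 : 0 ≤ G := by positivity
  set q : ℝ := 1 / (1 - Real.exp (-(2 * c))) with hqdef
  have hq0 : 0 ≤ q := by
    have : Real.exp (-(2 * c)) < 1 := by rw [Real.exp_lt_one_iff]; linarith
    apply one_div_nonneg.2; linarith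
  set m : ℝ := 1 + 2 / c with hmdef
  have hm0 : 0 ≤ m := by positivity
  have hK0 : 0 ≤ max K 0 := le_max_right _ _
  set C₂ : ℝ := C₁ + max K 0 + F + R * A * (1 + C₁) + G * (q + m + C₁) with hC₂def
  have hC₂a : C₁ ≤ C₂ := by
    have h1 : 0 ≤ R * A * (1 + C₁) := by positivity
    have h2 : 0 ≤ G * (q + m + C₁) := by positivity
    linarith
  have hC₂b : max K 0 ≤ C₂ := by
    have h1 : 0 ≤ R * A * (1 + C₁) := by positivity
    have h2 : 0 ≤ G * (q + m + C₁) := by positivity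
    linarith
  have hC₂c : F ≤ C₂ := by
    have h1 : 0 ≤ R * A * (1 + C₁) := by positivity
    have h2 : 0 ≤ G * (q + m + C₁) := by positivity
    linarith
  have hC₂d : R * A * (1 + C₁) ≤ C₂ := by
    have h2 : 0 ≤ G * (q + m + C₁) := by positivity
    linarith
  have hC₂e : G * (q + m + C₁) ≤ C₂ := by
    have h1 : 0 ≤ R * A * (1 + C₁) := by positivity
    linarith
  refine ⟨C₂, c / 2, hC₁.trans hC₂a, by positivity, ?_⟩
  intro Λ M n l hM hΛ H
  have hM0 : 0 ≤ M := by linarith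
  have hM1 : 0 < M + 1 := by linarith
  have hΛ1 : C₁ * (M + 1) ≤ Λ := (mul_le_mul_of_nonneg_right hC₂a hM1.le).trans hΛ
  have hΛ0 : 0 < Λ := lt_of_lt_of_le (by positivity) hΛ1
  obtain ⟨t1, t2, t3⟩ := htot Λ M n l hM hΛ1 H
  have hnu : ∀ i, (n i).real univ ≤ C₁ := fun i =>
    (Finset.single_le_sum (f := fun i => (n i).real univ) (fun i _ => measureReal_nonneg)
      (Finset.mem_univ i)).trans t2
  have hlu : ∀ j, (l j).real (Ici 0) ≤ max K 0 := fun j =>
    (S.tot_right hκ H j).trans (le_max_left _ _)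
  have hfin := H.finn
  have hmf : IsFiniteMeasure (dmu S n) := dmu_fin S hfin
  set μ := dmu S n with hμ
  set δ : ℝ := max (-S.Dtot n) 0 with hδ
  have hδ0 : 0 ≤ δ := le_max_right _ _
  have hδ1 : δ ≤ C₁ * ((M + 1) / Λ) := by
    refine max_le ?_ (by positivity)
    have e : C₁ * ((M + 1) / Λ) = C₁ * (M + 1) / Λ := by ring
    rw [e]; linarith
  -- total mass
  have hmu1 : μ.real univ ≤ Km := by
    rw [hμ, dmu_real S hfin]
    have : ∑ i, S.β i * (n i).real univ ≤ Bt * C₁ := by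
      rw [hBt, Finset.sum_mul]
      exact Finset.sum_le_sum fun i _ => mul_le_mul_of_nonneg_left (hnu i) (S.hβ i).le
    linarith
  have hcutn : ∀ y, -M ≤ y → y ≤ 0 →
      S.D n y ≤ C₃ * (S.B n y + Real.exp (S.γ / 2 * y)) := fun y h1 h2 =>
    hcut κ M y n l hκ H.finn H.finl H.intn H.intl hlu H.pos h1 h2
  have hDt : -S.Dtot n ≤ δ := le_max_left _ _
  have hloc : ∀ y, -M ≤ y → y ≤ 0 →
      μ.real (Iio y) ≤ C₃ * (1 + R) * (∫ x, Real.exp (-(S.γ / 2 * |x - y|)) ∂μ +
        Real.exp (S.γ / 2 * y)) + δ := by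
    intro y h1 h2
    have h3 := hcutn y h1 h2
    rw [hμ, dmu_real S hfin]
    have h4 := S.D_eq hfin y
    have h5 := dmu_B S hfin y
    rw [← hRdef, ← hμ] at h5
    have hI : 0 ≤ ∫ x, Real.exp (-(S.γ / 2 * |x - y|)) ∂μ :=
      integral_nonneg fun x => Real.exp_nonneg _
    have he := Real.exp_nonneg (S.γ / 2 * y)
    have h6 : S.B n y + Real.exp (S.γ / 2 * y) ≤
        (1 + R) * (∫ x, Real.exp (-(S.γ / 2 * |x - y|)) ∂μ + Real.exp (S.γ / 2 * y)) := by
      have h0 : 0 ≤ R * Real.exp (S.γ / 2 * y) := mul_nonneg hR he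
      have e : (1 + R) * (∫ x, Real.exp (-(S.γ / 2 * |x - y|)) ∂μ + Real.exp (S.γ / 2 * y)) =
          (∫ x, Real.exp (-(S.γ / 2 * |x - y|)) ∂μ) + Real.exp (S.γ / 2 * y) +
          R * (∫ x, Real.exp (-(S.γ / 2 * |x - y|)) ∂μ) + R * Real.exp (S.γ / 2 * y) := by ring
      rw [e]
      linarith
    have h7 := mul_le_mul_of_nonneg_left h6 (show 0 ≤ C₃ by linarith)
    rw [← mul_assoc] at h7
    linarith
  have hgr := hgrow μ M Km δ hmf hmu1 hKm1 hδ0 hloc
  have hexp : ∀ y, y ≤ 0 → Real.exp (c₅ * y) ≤ Real.exp (c * y) ∧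
      Real.exp (S.γ / 2 * y) ≤ Real.exp (c * y) := by
    intro y hy
    have h1 : c ≤ c₅ := min_le_left _ _
    have h2 : c ≤ S.γ / 2 := min_le_right _ _
    constructor
    · rw [Real.exp_le_exp]
      exact mul_le_mul_of_nonpos_right h1 hy
    · rw [Real.exp_le_exp]
      exact mul_le_mul_of_nonpos_right h2 hy
  have hSy : ∀ y, -M ≤ y → y ≤ 0 →
      ∫ x, min 1 (Real.exp (-(S.γ / 2 * (x - y)))) ∂μ ≤ A * (Real.exp (c * y) + δ) := by
    intro y h1 h2
    refine (hgr y h1 h2).trans ?_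
    have h3 := (hexp y h2).1
    have h4 : C₅ * (Km * Real.exp (c₅ * y) + δ) ≤ C₅ * (Km * Real.exp (c * y) + Km * δ) := by
      refine mul_le_mul_of_nonneg_left ?_ (by linarith)
      have h5 := mul_le_mul_of_nonneg_left h3 (show 0 ≤ Km by linarith)
      have h6 : δ ≤ Km * δ := le_mul_of_one_le_left hδ0 hKm1
      linarith
    refine h4.trans (le_of_eq ?_)
    rw [hAdef]; ring
  -- consequences
  have hIy : ∀ y, ∫ x, Real.exp (-(S.γ / 2 * |x - y|)) ∂μ ≤
      ∫ x, min 1 (Real.exp (-(S.γ / 2 * (x - y)))) ∂μ := by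
    intro y
    refine integral_mono (Gro.int_I (by positivity) y) (Gro.int_s y) fun x => ?_
    refine le_min ?_ ?_
    · rw [Real.exp_le_one_iff]
      have := mul_nonneg (show 0 ≤ S.γ / 2 by positivity) (abs_nonneg (x - y))
      linarith
    · rw [Real.exp_le_exp]
      have := mul_le_mul_of_nonneg_left (le_abs_self (x - y)) (show 0 ≤ S.γ / 2 by positivity)
      linarith
  have hmy : ∀ y, μ.real (Iio y) ≤ ∫ x, min 1 (Real.exp (-(S.γ / 2 * (x - y)))) ∂μ := by
    intro y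
    have h1 : μ.real (Iio y) = ∫ x, (Iio y).indicator (fun _ => (1:ℝ)) x ∂μ := by
      rw [integral_indicator measurableSet_Iio]
      simp [Measure.real]
    rw [h1]
    refine integral_mono ((integrable_const (1:ℝ)).indicator measurableSet_Iio) (Gro.int_s y)
      fun x => ?_
    by_cases hx : x ∈ Iio y
    · simp only [indicator_of_mem hx]
      refine le_min le_rfl ?_
      rw [Real.one_le_exp_iff]
      have hx' : x < y := hx
      have h0 := mul_nonneg (show 0 ≤ S.γ / 2 by positivity) (show 0 ≤ y - x by linarith)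
      have e : -(S.γ / 2 * (x - y)) = S.γ / 2 * (y - x) := by ring
      rw [e]
      exact h0
    · simp only [indicator_of_notMem hx]
      exact le_min zero_le_one (Real.exp_nonneg _)
  have hBy : ∀ y, -M ≤ y → y ≤ 0 → S.B n y ≤ R * A * (Real.exp (c * y) + δ) := by
    intro y h1 h2
    have h3 := dmu_B S hfin y
    rw [← hRdef, ← hμ] at h3
    refine h3.trans ?_
    rw [mul_assoc]
    exact mul_le_mul_of_nonneg_left ((hIy y).trans (hSy y h1 h2)) hR
  have hDy : ∀ y, -M ≤ y → y ≤ 0 → S.D n y ≤ F * (Real.exp (c * y) + δ) := by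
    intro y h1 h2
    refine (hcutn y h1 h2).trans ?_
    rw [hFdef, mul_assoc]
    refine mul_le_mul_of_nonneg_left ?_ (by linarith)
    have h3 := hBy y h1 h2
    have h4 := (hexp y h2).2
    linarith
  have hny : ∀ i y, -M ≤ y → y ≤ 0 →
      (n i).real (Iio y) ≤ R * A * (Real.exp (c * y) + δ) := by
    intro i y h1 h2
    have h3 := dmu_R S i (fun i => (n i).real (Iio y)) (fun i => measureReal_nonneg)
    rw [← dmu_real S hfin, ← hRdef, ← hμ] at h3
    refine h3.trans ?_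
    rw [mul_assoc]
    exact mul_le_mul_of_nonneg_left ((hmy y).trans (hSy y h1 h2)) hR
  have hexp2 : ∀ y, y ≤ 0 → Real.exp (c * y) ≤ Real.exp (c / 2 * y) := by
    intro y hy
    rw [Real.exp_le_exp]
    exact mul_le_mul_of_nonpos_right (by linarith) hy
  have hMΛ : 0 ≤ (M + 1) / Λ := by positivity
  refine ⟨fun i => (hnu i).trans hC₂a, fun j => (hlu j).trans hC₂b, ?_, ?_, ?_⟩
  · rcases le_or_gt (S.Dtot n) 0 with h1 | h1
    · exact h1.trans (mul_nonneg (by linarith) (Real.exp_nonneg _))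
    · have hδz : δ = 0 := max_eq_right (by linarith)
      have h2 := S.D_eq hfin (-M)
      have h3 : 0 ≤ ∑ i, S.β i * (n i).real (Iio (-M)) :=
        Finset.sum_nonneg fun i _ => mul_nonneg (S.hβ i).le measureReal_nonneg
      have h4 := hDy (-M) le_rfl (by linarith)
      rw [hδz, add_zero] at h4
      have h5 : Real.exp (c * -M) ≤ Real.exp (-(c / 2 * M)) := by
        rw [Real.exp_le_exp]
        have h0 : 0 ≤ c * M := mul_nonneg hc.le hM0
        have e : c * -M = -(c / 2 * M) - c * M / 2 := by ring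
        rw [e]
        linarith
      calc S.Dtot n ≤ S.D n (-M) := by linarith
        _ ≤ F * Real.exp (c * -M) := h4
        _ ≤ F * Real.exp (-(c / 2 * M)) := mul_le_mul_of_nonneg_left h5 hF0
        _ ≤ _ := mul_le_mul_of_nonneg_right hC₂c (Real.exp_nonneg _)
  · intro i y h1 h2
    refine (hny i y h1 h2).trans ?_
    have h3 := hexp2 y h2
    have hRA : 0 ≤ R * A := by positivity
    calc R * A * (Real.exp (c * y) + δ) ≤
        R * A * (Real.exp (c / 2 * y) + C₁ * ((M + 1) / Λ)) :=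
          mul_le_mul_of_nonneg_left (by linarith) hRA
      _ ≤ R * A * ((1 + C₁) * (Real.exp (c / 2 * y) + (M + 1) / Λ)) := by
          refine mul_le_mul_of_nonneg_left ?_ hRA
          have h4 : 0 ≤ C₁ * Real.exp (c / 2 * y) :=
            mul_nonneg (by linarith) (Real.exp_nonneg _)
          have e : (1 + C₁) * (Real.exp (c / 2 * y) + (M + 1) / Λ) =
              Real.exp (c / 2 * y) + C₁ * ((M + 1) / Λ) + (M + 1) / Λ +
              C₁ * Real.exp (c / 2 * y) := by ring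
          rw [e]
          linarith
      _ = R * A * (1 + C₁) * (Real.exp (c / 2 * y) + (M + 1) / Λ) := by ring
      _ ≤ _ := mul_le_mul_of_nonneg_right hC₂d (by positivity)
  · intro j y h1 h2
    have := H.finl j
    have hI : ∀ t, -M ≤ t → t ≤ 0 →
        (l j).real (Icc (t - 1) (t + 1)) ≤ G * (Real.exp (c * t) + δ) := by
      intro t ht1 ht2
      have h3 := S.loc_mass H.finn H.finl ht2 (H.pos t ht1) j
      have h4 := hDy t ht1 ht2
      have h5 := mul_le_mul_of_nonneg_left (hBy t ht1 ht2) (show 0 ≤ S.C by linarith)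
      have h6 := mul_le_mul_of_nonneg_left (hexp t ht2).2 (show 0 ≤ S.C by linarith)
      have h7 : 0 ≤ S.C * δ := by positivity
      have h8 : S.c * (l j).real (Icc (t - 1) (t + 1)) ≤ E * (Real.exp (c * t) + δ) := by
        have e : E * (Real.exp (c * t) + δ) = F * (Real.exp (c * t) + δ) +
            S.C * (R * A * (Real.exp (c * t) + δ)) + S.C * Real.exp (c * t) + S.C * δ := by
          rw [hEdef]; ring
        rw [e]
        linarith
      rw [hGdef, div_mul_eq_mul_div, le_div_iff₀ hSc]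
      linarith
    have hcov := dec_cover hM0 hc hG0 hδ0 h1 h2 hI
    refine hcov.trans ?_
    rw [← hqdef]
    have h3 := hexp2 y h2
    have h4 : (M + 1) * Real.exp (-(c * M)) ≤ m * Real.exp (c / 2 * y) := by
      have h5 : M + 1 ≤ m * Real.exp (c / 2 * M) := by
        have h6 := Real.add_one_le_exp (c / 2 * M)
        have h7 : m * (c / 2 * M + 1) ≤ m * Real.exp (c / 2 * M) :=
          mul_le_mul_of_nonneg_left h6 hm0
        have h8 : M + 1 ≤ m * (c / 2 * M + 1) := by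
          have e : m * (c / 2 * M + 1) = (c / 2 * M + 1) + (M + 2 / c) := by
            rw [hmdef]; field_simp
          rw [e]
          have : 0 ≤ c / 2 * M := by positivity
          have : 0 ≤ 2 / c := by positivity
          linarith
        linarith
      calc (M + 1) * Real.exp (-(c * M)) ≤
          m * Real.exp (c / 2 * M) * Real.exp (-(c * M)) :=
            mul_le_mul_of_nonneg_right h5 (Real.exp_nonneg _)
        _ = m * Real.exp (-(c / 2 * M)) := by
            rw [mul_assoc, ← Real.exp_add]; congr 2; ring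
        _ ≤ _ := by
            refine mul_le_mul_of_nonneg_left ?_ hm0
            rw [Real.exp_le_exp]
            have h0 := mul_le_mul_of_nonneg_left h1 (show 0 ≤ c / 2 by positivity)
            have e : c / 2 * -M = -(c / 2 * M) := by ring
            rw [e] at h0
            exact h0
    have h9 : (M + 1) * δ ≤ C₁ * ((M + 1) ^ 2 / Λ) := by
      calc (M + 1) * δ ≤ (M + 1) * (C₁ * ((M + 1) / Λ)) :=
            mul_le_mul_of_nonneg_left hδ1 hM1.le
        _ = _ := by ring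
    have h10 : q * Real.exp (c * y) ≤ q * Real.exp (c / 2 * y) :=
      mul_le_mul_of_nonneg_left h3 hq0
    have hP : 0 ≤ (M + 1) ^ 2 / Λ := by positivity
    have hX := Real.exp_nonneg (c / 2 * y)
    calc G * (q * Real.exp (c * y) + (M + 1) * Real.exp (-(c * M)) + (M + 1) * δ)
        ≤ G * ((q + m + C₁) * (Real.exp (c / 2 * y) + (M + 1) ^ 2 / Λ)) := by
          refine mul_le_mul_of_nonneg_left ?_ hG0
          have i1 : 0 ≤ (q + m) * ((M + 1) ^ 2 / Λ) := mul_nonneg (add_nonneg hq0 hm0) hP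
          have i2 : 0 ≤ C₁ * Real.exp (c / 2 * y) := mul_nonneg (by linarith) hX
          have e : (q + m + C₁) * (Real.exp (c / 2 * y) + (M + 1) ^ 2 / Λ) =
              q * Real.exp (c / 2 * y) + m * Real.exp (c / 2 * y) +
              C₁ * Real.exp (c / 2 * y) + (q + m) * ((M + 1) ^ 2 / Λ) +
              C₁ * ((M + 1) ^ 2 / Λ) := by ring
          rw [e]
          linarith
      _ = G * (q + m + C₁) * (Real.exp (c / 2 * y) + (M + 1) ^ 2 / Λ) := by ring
      _ ≤ _ := mul_le_mul_of_nonneg_right hC₂e (by positivity)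

end Sys

end Pool.Agent.IND2I
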