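import Pool.Agent.IND2I.Hb

/-!
# IND2I, module Dual: duality for convolution inequalities on a half line and on the line

PROOF of `dual_half`.  `X = Ici A × F` (`F` with the discrete topology), `V` = continuous functions
`m : ℝ → ℝ` with compact support and `m = 0` on `Iic b` (a real vector space, e.g. a submodule of
`ℝ → ℝ`), `A = {m ∈ V | -ω ≤ m}` (convex, contains `0`), `T m (x, θ) = e^{-κ x} ∫ k θ (x - y) m y dy`
(continuous; tends to `0` at infinity because the convolution is bounded by `C ∫ |m|` and `κ > 0`),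
`l m = ∫ k₀ (0 - y) m y dy`, `Φ (x, θ) = e^{-κ x} φ θ x ≥ δ`.  `hb_c0` gives `ν` on `X`; let `n θ` be the image
in `ℝ` of the measure `e^{-κ x} ν` restricted to `Ici A × {θ}`.  Then `∫ e^{κ x} dn θ < ∞`, `∫ φ θ dn θ < ∞`,
and by Fubini for all admissible `m`
`∑ ∫ φ θ dn θ - w ≤ ∫ m y (G y) dy`, `G y = ∑ ∫ k θ (x - y) dn θ - k₀ (-y)` (continuous, bounded).
If `G y₀ < 0`, `y₀ > b`, take large multiples of a bump at `y₀`: contradiction; so `G ≥ 0` on `Ici b`.
`m = -χ ω` with cutoff functions `χ ↑ 1` on `Ioi b` and monotone convergence give the last inequality.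

`dual_line`: the same with `X = ℝ × F`, without weight: `∫ k θ (x - y) m y dy → 0` as `|x| → ∞` because
`k θ → 0` at `±∞`; the background `ω` is now the constant `a ≥ 0`.
-/

set_option autoImplicit false

namespace Pool.Agent.IND2I

open MeasureTheory Set
open scoped ZeroAtInfty

/-- integrals over `Y × F`, `F` finite and discrete. -/
theorem integral_prod_fin {Y F : Type*} [Fintype F] [TopologicalSpace Y] [MeasurableSpace Y] [BorelSpace Y]
    [TopologicalSpace F] [DiscreteTopology F] [MeasurableSpace F] [BorelSpace F] [BorelSpace (Y × F)]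
    (ν : Measure (Y × F)) (h : Y × F → ℝ) (hh : Integrable h ν) :
    (∀ θ, Integrable (fun x => h (x, θ)) (ν.comap fun x => (x, θ))) ∧
    ∫ p, h p ∂ν = ∑ θ, ∫ x, h (x, θ) ∂(ν.comap fun x => (x, θ)) := by
  have hsing : ∀ θ : F, MeasurableSet ({θ} : Set F) := fun θ => (isClosed_discrete _).measurableSet
  have hemb : ∀ θ : F, MeasurableEmbedding (fun x : Y => (x, θ)) := by
    intro θ
    refine (Topology.IsClosedEmbedding.mk ?_ ?_).measurableEmbedding
    · exact isEmbedding_prodMkLeft θ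
    · have : range (fun x : Y => (x, θ)) = Prod.snd ⁻¹' {θ} := by
        ext p; constructor
        · rintro ⟨x, rfl⟩; rfl
        · intro hp; exact ⟨p.1, by ext <;> simp [← (show p.2 = θ from hp)]⟩
      rw [this]
      exact (isClosed_discrete _).preimage continuous_snd
  have hr : ∀ θ : F, ((ν.comap fun x => (x, θ)).map fun x => (x, θ)) = ν.restrict (Prod.snd ⁻¹' {θ}) := by
    intro θ
    rw [(hemb θ).map_comap]
    congr 1
    ext p; constructor
    · rintro ⟨x, rfl⟩; rfl
    · intro hp; exact ⟨p.1, by ext <;> simp [← (show p.2 = θ from hp)]⟩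
  constructor
  · intro θ
    have := (hemb θ).integrable_map_iff (μ := ν.comap fun x => (x, θ)) (g := h)
    rw [hr θ] at this
    exact this.1 hh.restrict
  · have h1 : ∀ θ, ∫ x, h (x, θ) ∂(ν.comap fun x => (x, θ)) = ∫ p in Prod.snd ⁻¹' {θ}, h p ∂ν := by
      intro θ
      rw [← hr θ, (hemb θ).integral_map]
    simp_rw [h1]
    rw [← integral_iUnion_fintype]
    · have : (⋃ θ : F, (Prod.snd ⁻¹' {θ} : Set (Y × F))) = univ := by
        ext p; simp
      rw [this, Measure.restrict_univ]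
    · intro θ; exact measurable_snd (hsing θ)
    · intro θ θ' hne
      rw [Function.onFun, Set.disjoint_left]
      intro p hp hp'
      exact hne ((show p.2 = θ from hp).symm.trans hp')
    · intro θ; exact hh.integrableOn


/-- The measure part: a finite measure on `Y × F`. -/
theorem dual_meas {F : Type} [Fintype F] (k : F → ℝ → ℝ) (hk : ∀ θ, Continuous (k θ))
    (k₀ : ℝ → ℝ) (hk₀ : Continuous k₀) (Y : Set ℝ) (hY : IsClosed Y) (ρ : ℝ → ℝ)
    (hρ : Continuous ρ) (hρ0 : ∀ x, 0 < ρ x) (d : ℝ → ℝ)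
    (ω : ℝ → ℝ) (hω0 : ∀ y, 0 ≤ ω y) (φ : F → ℝ → ℝ)
    (hφ : ∀ θ, ContinuousOn (φ θ) Y) {δ : ℝ} (hδ : 0 < δ)
    (hφδ : ∀ θ x, x ∈ Y → δ ≤ ρ x * φ θ x)
    (hvan : ∀ θ (m : ℝ → ℝ), Continuous m → HasCompactSupport m → ∀ ε > 0, ∃ R : ℝ, ∀ x ∈ Y,
      R ≤ |x| → |ρ x * ∫ y, k θ (x - y) * m y| < ε) (w : ℝ)
    (hno : ∀ m : ℝ → ℝ, Continuous m → HasCompactSupport m → (∀ y, d y = 0 → m y = 0) →
      (∀ y, -ω y ≤ m y) → (∀ θ x, x ∈ Y → ∫ y, k θ (x - y) * m y < φ θ x) →
      ∫ y, k₀ (0 - y) * m y ≤ w) :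
    ∃ ν : F → Measure ℝ, (∀ θ, IsFiniteMeasure (ν θ)) ∧ (∀ θ, ν θ Yᶜ = 0) ∧
      (∀ θ, Integrable (fun x => ρ x * φ θ x) (ν θ)) ∧
      ∀ m : ℝ → ℝ, Continuous m → HasCompactSupport m → (∀ y, d y = 0 → m y = 0) →
        (∀ y, -ω y ≤ m y) →
        (∀ θ, Integrable (fun x => ρ x * ∫ y, k θ (x - y) * m y) (ν θ)) ∧
        ∑ θ, ∫ x, (ρ x * φ θ x - ρ x * ∫ y, k θ (x - y) * m y) ∂(ν θ)
          ≤ w - ∫ y, k₀ (0 - y) * m y := by
  classical
  let : TopologicalSpace F := ⊥
  have : DiscreteTopology F := ⟨rfl⟩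
  let : MeasurableSpace F := borel F
  have : BorelSpace F := ⟨rfl⟩
  have hLC : LocallyCompactSpace Y := hY.isClosedEmbedding_subtypeVal.locallyCompactSpace
  have hSC : SigmaCompactSpace Y := hY.isClosedEmbedding_subtypeVal.sigmaCompactSpace
  -- continuity of the convolution
  have hconv : ∀ (g : ℝ → ℝ), Continuous g → ∀ m : ℝ → ℝ, Continuous m → HasCompactSupport m →
      Continuous (fun x => ∫ y, g (x - y) * m y) := by
    intro g hg m hm hmc
    have h1 : (fun x => ∫ y, g (x - y) * m y) = fun x => ∫ y in tsupport m, g (x - y) * m y := by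
      funext x
      rw [setIntegral_eq_integral_of_forall_compl_eq_zero]
      intro y hy
      rw [image_eq_zero_of_notMem_tsupport hy, mul_zero]
    rw [h1]
    exact continuous_parametric_integral_of_continuous (f := fun x y => g (x - y) * m y)
      (by fun_prop) hmc
  have hint : ∀ (g : ℝ → ℝ), Continuous g → ∀ x : ℝ, ∀ m : ℝ → ℝ, Continuous m → HasCompactSupport m →
      Integrable (fun y => g (x - y) * m y) := by
    intro g hg x m hm hmc
    exact (by fun_prop : Continuous fun y => g (x - y) * m y).integrable_of_hasCompactSupport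
      (hmc.mul_left)
  let V : Submodule ℝ (ℝ → ℝ) :=
    { carrier := {m | Continuous m ∧ HasCompactSupport m ∧ ∀ y, d y = 0 → m y = 0}
      add_mem' := by
        rintro a b ⟨ha, hac, had⟩ ⟨hb, hbc, hbd⟩
        exact ⟨ha.add hb, hac.add hbc, fun y hy => by simp [had y hy, hbd y hy]⟩
      zero_mem' := ⟨continuous_zero, HasCompactSupport.zero, fun _ _ => rfl⟩
      smul_mem' := by
        rintro c a ⟨ha, hac, had⟩
        exact ⟨ha.const_smul c, hac.smul_left (f := fun _ => c), fun y hy => by simp [had y hy]⟩ }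
  -- the operator
  have hTc : ∀ m : V, Continuous (fun p : Y × F => ρ p.1 * ∫ y, k p.2 (p.1 - y) * m.1 y) := by
    intro m
    rw [continuous_iff_continuousAt]
    rintro ⟨x, θ⟩
    have h2 : Continuous (fun p : Y × F => ρ p.1 * ∫ y, k θ (p.1 - y) * m.1 y) := by
      refine Continuous.mul (by fun_prop) ?_
      exact (hconv (k θ) (hk θ) m.1 m.2.1 m.2.2.1).comp (by fun_prop)
    refine h2.continuousAt.congr ?_
    have : (Prod.snd ⁻¹' ({θ} : Set F) : Set (Y × F)) ∈ nhds (x, θ) :=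
      ((isOpen_discrete _).preimage continuous_snd).mem_nhds rfl
    filter_upwards [this] with p hp
    have hp' : p.2 = θ := hp
    rw [hp']
  have hT0 : ∀ m : V, Filter.Tendsto (fun p : Y × F => ρ p.1 * ∫ y, k p.2 (p.1 - y) * m.1 y)
      (Filter.cocompact (Y × F)) (nhds 0) := by
    intro m
    rw [Metric.tendsto_nhds]
    intro ε hε
    choose R hR using fun θ => hvan θ m.1 m.2.1 m.2.2.1 ε hε
    let R0 : ℝ := ∑ θ, |R θ|
    have hR0 : ∀ θ, R θ ≤ R0 := fun θ => (le_abs_self _).trans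
      (Finset.single_le_sum (f := fun θ => |R θ|) (fun _ _ => abs_nonneg _) (Finset.mem_univ θ))
    have hK : IsCompact ((Subtype.val ⁻¹' (Icc (-R0) R0) : Set Y) ×ˢ (univ : Set F)) :=
      (hY.isClosedEmbedding_subtypeVal.isCompact_preimage isCompact_Icc).prod isCompact_univ
    filter_upwards [hK.compl_mem_cocompact] with p hp
    rw [Real.dist_eq, sub_zero]
    refine hR p.2 p.1 p.1.2 ((hR0 p.2).trans ?_)
    by_contra hlt
    push Not at hlt
    apply hp
    exact ⟨⟨(abs_le.1 hlt.le).1, (abs_le.1 hlt.le).2⟩, mem_univ _⟩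
  let T : V →ₗ[ℝ] C₀(Y × F, ℝ) :=
    { toFun := fun m => ⟨⟨_, hTc m⟩, hT0 m⟩
      map_add' := by
        intro a b
        ext p
        change ρ p.1 * ∫ y, k p.2 (p.1 - y) * (a.1 y + b.1 y) = ρ p.1 * (∫ y, k p.2 (p.1 - y) * a.1 y) + ρ p.1 * ∫ y, k p.2 (p.1 - y) * b.1 y
        rw [← mul_add, ← integral_add (hint _ (hk _) _ _ a.2.1 a.2.2.1) (hint _ (hk _) _ _ b.2.1 b.2.2.1)]
        congr 1
        refine integral_congr_ae (Filter.Eventually.of_forall fun y => ?_)
        simp only [mul_add]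
      map_smul' := by
        intro c a
        ext p
        change ρ p.1 * (∫ y, k p.2 (p.1 - y) * (c * a.1 y)) = c * (ρ p.1 * ∫ y, k p.2 (p.1 - y) * a.1 y)
        have h := integral_const_mul (μ := (volume : Measure ℝ)) c (fun y => k p.2 (p.1 - y) * a.1 y)
        rw [mul_left_comm, ← h]
        congr 1
        refine integral_congr_ae (Filter.Eventually.of_forall fun y => ?_)
        simp only []
        ring }
  let l : V →ₗ[ℝ] ℝ :=
    { toFun := fun m => ∫ y, k₀ (0 - y) * m.1 y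
      map_add' := by
        intro a b
        change ∫ y, k₀ (0 - y) * (a.1 y + b.1 y) = _
        rw [← integral_add (hint _ hk₀ _ _ a.2.1 a.2.2.1) (hint _ hk₀ _ _ b.2.1 b.2.2.1)]
        refine integral_congr_ae (Filter.Eventually.of_forall fun y => ?_)
        simp only [mul_add]
      map_smul' := by
        intro c a
        change ∫ y, k₀ (0 - y) * (c * a.1 y) = c * ∫ y, k₀ (0 - y) * a.1 y
        rw [← integral_const_mul]
        refine integral_congr_ae (Filter.Eventually.of_forall fun y => ?_)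
        simp only []
        ring }
  let A : Set V := {m | ∀ y, -ω y ≤ m.1 y}
  have hA : Convex ℝ A := by
    intro a ha b hb s t hs ht hst y
    have h1 := ha y
    have h2 := hb y
    change -ω y ≤ s * a.1 y + t * b.1 y
    have e : -ω y = s * (-ω y) + t * (-ω y) := by rw [← add_mul, hst, one_mul]
    rw [e]
    exact add_le_add (mul_le_mul_of_nonneg_left h1 hs) (mul_le_mul_of_nonneg_left h2 ht)
  have hA0 : (0 : V) ∈ A := fun y => by
    change -ω y ≤ 0
    linarith [hω0 y]
  let Φ : Y × F → ℝ := fun p => ρ p.1 * φ p.2 p.1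
  have hΦ : Continuous Φ := by
    rw [continuous_iff_continuousAt]
    rintro ⟨x, θ⟩
    have h2 : Continuous (fun p : Y × F => ρ p.1 * φ θ p.1) := by
      refine Continuous.mul (by fun_prop) ?_
      exact (continuousOn_iff_continuous_domRestrict.1 (hφ θ)).comp continuous_fst
    refine h2.continuousAt.congr ?_
    have : (Prod.snd ⁻¹' ({θ} : Set F) : Set (Y × F)) ∈ nhds (x, θ) :=
      ((isOpen_discrete _).preimage continuous_snd).mem_nhds rfl
    filter_upwards [this] with p hp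
    have hp' : p.2 = θ := hp
    simp only [Φ]
    rw [hp']
  obtain ⟨ν, hνf, hνΦ, hν⟩ := hb_c0 A hA hA0 T l Φ hΦ hδ (fun p => hφδ p.2 p.1 p.1.2) w (by
    intro m hm hlt
    refine hno m.1 m.2.1 m.2.2.1 m.2.2.2 hm fun θ x hx => ?_
    have := hlt (⟨x, hx⟩, θ)
    change ρ x * ∫ y, k θ (x - y) * m.1 y < ρ x * φ θ x at this
    exact lt_of_mul_lt_mul_left this (hρ0 x).le)
  have hmv : MeasurableEmbedding (Subtype.val : Y → ℝ) := MeasurableEmbedding.subtype_coe hY.measurableSet
  let e : F → Y → Y × F := fun θ x => (x, θ)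
  refine ⟨fun θ => (ν.comap (e θ)).map Subtype.val, ?_, ?_, ?_, ?_⟩
  · intro θ
    have : IsFiniteMeasure (ν.comap (e θ)) := inferInstance
    infer_instance
  · intro θ
    rw [hmv.map_apply]
    have : (Subtype.val ⁻¹' Yᶜ : Set Y) = ∅ := by
      ext x; simp
    rw [this, measure_empty]
  · intro θ
    rw [hmv.integrable_map_iff]
    exact (integral_prod_fin ν Φ hνΦ).1 θ
  · intro m hm hmc hmd hmω
    let m' : V := ⟨m, hm, hmc, hmd⟩
    have hTi : Integrable (fun p => T m' p) ν := by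
      obtain ⟨C, hC⟩ := (T m').isBounded_range.exists_norm_le
      refine Integrable.mono' (integrable_const C) (T m').continuous.aestronglyMeasurable
        (Filter.Eventually.of_forall fun p => hC _ ⟨p, rfl⟩)
    have h1 := integral_prod_fin ν (fun p => T m' p) hTi
    have h2 := integral_prod_fin ν (fun p => Φ p - T m' p) (hνΦ.sub hTi)
    constructor
    · intro θ
      rw [hmv.integrable_map_iff]
      exact h1.1 θ
    · have h3 := hν m' hmω
      rw [h2.2] at h3
      refine le_trans (le_of_eq ?_) h3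
      refine Finset.sum_congr rfl fun θ _ => ?_
      rw [hmv.integral_map]
      rfl

theorem dual_core (G d ω : ℝ → ℝ) (hG : Continuous G) (hd : Continuous d) (hd0 : ∀ y, 0 ≤ d y)
    (hω : Continuous ω) (hω0 : ∀ y, 0 ≤ ω y) (W : ℝ)
    (h : ∀ m : ℝ → ℝ, Continuous m → HasCompactSupport m → (∀ y, d y = 0 → m y = 0) →
      (∀ y, -ω y ≤ m y) → -W ≤ ∫ y, m y * G y) :
    (∀ y, 0 < d y → 0 ≤ G y) ∧ IntegrableOn (fun y => ω y * G y) {y | 0 < d y} ∧
      ∫ y in {y | 0 < d y}, ω y * G y ≤ W := by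
  have hcut : ∀ n : ℕ, HasCompactSupport (fun y : ℝ => max 0 (min 1 ((n : ℝ) - |y|))) := by
    intro n
    refine HasCompactSupport.intro (isCompact_Icc (a := -(n : ℝ)) (b := n)) ?_
    intro y hy
    have : (n : ℝ) < |y| := by
      by_contra hc
      push Not at hc
      exact hy ⟨(abs_le.1 hc).1, (abs_le.1 hc).2⟩
    rw [max_eq_left]
    exact (min_le_right _ _).trans (by linarith)
  have hpos : ∀ y, 0 < d y → 0 ≤ G y := by
    intro y₀ hy₀
    by_contra hneg
    push Not at hneg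
    -- a bump function times negative part of G
    let m₀ : ℝ → ℝ := fun y => (max 0 (min 1 ((⌈|y₀|⌉₊ + 1 : ℕ) - |y|))) * (d y * max 0 (-G y))
    have hm₀c : Continuous m₀ := by
      simp only [m₀]; fun_prop
    have hm₀s : HasCompactSupport m₀ := (hcut _).mul_right
    have hm₀0 : ∀ y, 0 ≤ m₀ y := fun y => mul_nonneg (le_max_left _ _) (mul_nonneg (hd0 y) (le_max_left _ _))
    have hm₀G : ∀ y, m₀ y * G y = -(m₀ y * max 0 (-G y)) := by
      intro y
      rcases le_total 0 (G y) with hg | hg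
      · have : max 0 (-G y) = 0 := max_eq_left (by linarith)
        simp only [m₀]; rw [this]; ring
      · have : max 0 (-G y) = -G y := max_eq_right (by linarith)
        rw [this]; ring
    let I : ℝ := ∫ y, m₀ y * max 0 (-G y)
    have hIpos : 0 < I := by
      have hc : Continuous fun y => m₀ y * max 0 (-G y) := by fun_prop
      refine hc.integral_pos_of_hasCompactSupport_nonneg_nonzero (hm₀s.mul_right)
        (fun y => mul_nonneg (hm₀0 y) (le_max_left _ _)) (x := y₀) ?_
      have h1 : max 0 (-G y₀) = -G y₀ := max_eq_right (by linarith)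
      have h2 : (0 : ℝ) < max 0 (min 1 ((⌈|y₀|⌉₊ + 1 : ℕ) - |y₀|)) := by
        refine lt_max_of_lt_right (lt_min one_pos ?_)
        have := Nat.le_ceil |y₀|
        push_cast; linarith
      simp only [m₀]
      rw [h1]
      have : (0 : ℝ) < (max 0 (min 1 ((⌈|y₀|⌉₊ + 1 : ℕ) - |y₀|))) * (d y₀ * -G y₀) * -G y₀ :=
        mul_pos (mul_pos h2 (mul_pos hy₀ (by linarith))) (by linarith)
      exact this.ne'
    obtain ⟨s, hs0, hs⟩ : ∃ s : ℝ, 0 ≤ s ∧ W < s * I := by
      refine ⟨(|W| + 1) / I, by positivity, ?_⟩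
      rw [div_mul_cancel₀ _ hIpos.ne']
      linarith [le_abs_self W]
    have := h (fun y => s * m₀ y) (by fun_prop) (hm₀s.mul_left) (fun y hy => by simp [m₀, hy])
      (fun y => le_trans (by linarith [hω0 y]) (mul_nonneg hs0 (hm₀0 y)))
    have e : ∫ y, s * m₀ y * G y = -(s * I) := by
      have : (fun y => s * m₀ y * G y) = fun y => (-s) * (m₀ y * max 0 (-G y)) := by
        funext y; rw [mul_assoc, hm₀G]; ring
      rw [this, integral_const_mul]; ring
    rw [e] at this
    linarith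
  have hS : MeasurableSet {y | 0 < d y} := (isOpen_lt continuous_const hd).measurableSet
  let χ : ℕ → ℝ → ℝ := fun n y => max 0 (min 1 ((n : ℝ) - |y|)) * min 1 (n * d y)
  have hχc : ∀ n, Continuous (χ n) := fun n => by simp only [χ]; fun_prop
  have hχs : ∀ n, HasCompactSupport (χ n) := fun n => (hcut n).mul_right
  have hχ0 : ∀ n y, 0 ≤ χ n y := fun n y => mul_nonneg (le_max_left _ _)
    (le_min zero_le_one (mul_nonneg (Nat.cast_nonneg _) (hd0 y)))
  have hχ1 : ∀ n y, χ n y ≤ 1 := fun n y => mul_le_one₀ (max_le zero_le_one (min_le_left _ _))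
    (le_min zero_le_one (mul_nonneg (Nat.cast_nonneg _) (hd0 y))) (min_le_left _ _)
  have hχz : ∀ n y, d y = 0 → χ n y = 0 := fun n y hy => by simp [χ, hy]
  have hχlim : ∀ y, 0 < d y → ∀ᶠ n : ℕ in Filter.atTop, χ n y = 1 := by
    intro y hy
    filter_upwards [Filter.eventually_ge_atTop (⌈|y| + 1⌉₊ + ⌈1 / d y⌉₊)] with n hn
    have h1 : |y| + 1 ≤ n := (Nat.le_ceil _).trans (by exact_mod_cast (Nat.le_add_right _ _).trans hn)
    have h2 : 1 / d y ≤ n := (Nat.le_ceil _).trans (by exact_mod_cast (Nat.le_add_left _ _).trans hn)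
    have h3 : 1 ≤ n * d y := by rwa [div_le_iff₀ hy] at h2
    have e1 : min 1 ((n : ℝ) - |y|) = 1 := min_eq_left (by linarith)
    simp only [χ]
    rw [e1, min_eq_left h3]
    simp
  have hbound : ∀ n, ∫ y, χ n y * (ω y * G y) ≤ W := by
    intro n
    have := h (fun y => -(χ n y * ω y)) (by have := hχc n; fun_prop) ((hχs n).mul_right.neg)
      (fun y hy => by simp [hχz n y hy]) (fun y => by
        have := mul_le_of_le_one_left (hω0 y) (hχ1 n y)
        linarith)
    have e : ∫ y, -(χ n y * ω y) * G y = -∫ y, χ n y * (ω y * G y) := by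
      rw [← integral_neg]
      congr 1
      funext y; ring
    rw [e] at this
    linarith
  have hnn : ∀ n y, 0 ≤ χ n y * (ω y * G y) := by
    intro n y
    rcases (hd0 y).eq_or_lt with hy | hy
    · rw [hχz n y hy.symm, zero_mul]
    · exact mul_nonneg (hχ0 n y) (mul_nonneg (hω0 y) (hpos y hy))
  have hint : ∀ n, Integrable fun y => χ n y * (ω y * G y) := by
    intro n
    have := hχc n
    exact (by fun_prop : Continuous fun y => χ n y * (ω y * G y)).integrable_of_hasCompactSupport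
      ((hχs n).mul_right)
  have hfn : ∀ n, ∫⁻ y, ENNReal.ofReal (χ n y * (ω y * G y)) ≤ ENNReal.ofReal W := by
    intro n
    rw [← ofReal_integral_eq_lintegral_ofReal (hint n) (Filter.Eventually.of_forall (hnn n))]
    exact ENNReal.ofReal_le_ofReal (hbound n)
  have hW0 : 0 ≤ W := (integral_nonneg (hnn 0)).trans (hbound 0)
  have hfat : ∫⁻ y in {y | 0 < d y}, ENNReal.ofReal (ω y * G y) ≤ ENNReal.ofReal W := by
    have h1 : ∫⁻ y in {y | 0 < d y}, ENNReal.ofReal (ω y * G y)
        ≤ ∫⁻ y in {y | 0 < d y}, Filter.liminf (fun n => ENNReal.ofReal (χ n y * (ω y * G y))) Filter.atTop := by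
      refine setLIntegral_mono' hS fun y hy => ?_
      refine le_of_eq ?_
      symm
      refine Filter.Tendsto.liminf_eq ?_
      refine tendsto_const_nhds.congr' ?_
      filter_upwards [hχlim y hy] with n hn
      rw [hn, one_mul]
    refine h1.trans ?_
    refine (lintegral_liminf_le (fun n => ?_)).trans ?_
    · have := hχc n
      exact (by fun_prop : Continuous fun y => χ n y * (ω y * G y)).measurable.ennreal_ofReal
    · refine Filter.liminf_le_of_le (by isBoundedDefault) ?_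
      intro b hb
      obtain ⟨n, hn⟩ := hb.exists
      exact hn.trans ((setLIntegral_le_lintegral _ _).trans (hfn n))
  have hωG : Integrable (fun y => ω y * G y) (volume.restrict {y | 0 < d y}) := by
    refine ⟨(by fun_prop : Continuous fun y => ω y * G y).aestronglyMeasurable, ?_⟩
    rw [hasFiniteIntegral_iff_ofReal]
    · exact hfat.trans_lt ENNReal.ofReal_lt_top
    · exact (ae_restrict_iff' hS).2 (Filter.Eventually.of_forall fun y hy => mul_nonneg (hω0 y) (hpos y hy))
  refine ⟨hpos, hωG, ?_⟩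
  rw [integral_eq_lintegral_of_nonneg_ae]
  · exact ENNReal.toReal_le_of_le_ofReal hW0 hfat
  · exact (ae_restrict_iff' hS).2 (Filter.Eventually.of_forall fun y hy => mul_nonneg (hω0 y) (hpos y hy))
  · exact (by fun_prop : Continuous fun y => ω y * G y).aestronglyMeasurable


theorem dual_gen {F : Type} [Fintype F] (k : F → ℝ → ℝ) (hk : ∀ θ, Continuous (k θ))
    (hkb : ∃ C : ℝ, ∀ θ s, |k θ s| ≤ C)
    (k₀ : ℝ → ℝ) (hk₀ : Continuous k₀) (Y : Set ℝ) (hY : IsClosed Y) (ρ : ℝ → ℝ)
    (hρ : Continuous ρ) (hρ0 : ∀ x, 0 < ρ x) (hρb : ∃ C : ℝ, ∀ x ∈ Y, ρ x ≤ C) (d : ℝ → ℝ)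
    (hd : Continuous d) (hd0 : ∀ y, 0 ≤ d y)
    (ω : ℝ → ℝ) (hω : Continuous ω) (hω0 : ∀ y, 0 ≤ ω y) (φ : F → ℝ → ℝ)
    (hφ : ∀ θ, ContinuousOn (φ θ) Y) {δ : ℝ} (hδ : 0 < δ)
    (hφδ : ∀ θ x, x ∈ Y → δ ≤ ρ x * φ θ x)
    (hvan : ∀ θ (m : ℝ → ℝ), Continuous m → HasCompactSupport m → ∀ ε > 0, ∃ R : ℝ, ∀ x ∈ Y,
      R ≤ |x| → |ρ x * ∫ y, k θ (x - y) * m y| < ε) (w : ℝ)
    (hno : ∀ m : ℝ → ℝ, Continuous m → HasCompactSupport m → (∀ y, d y = 0 → m y = 0) →
      (∀ y, -ω y ≤ m y) → (∀ θ x, x ∈ Y → ∫ y, k θ (x - y) * m y < φ θ x) →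
      ∫ y, k₀ (0 - y) * m y ≤ w) :
    ∃ n : F → Measure ℝ, (∀ θ, IsFiniteMeasure (n θ)) ∧ (∀ θ, n θ Yᶜ = 0) ∧
      (∀ θ, Integrable (fun x => (ρ x)⁻¹) (n θ)) ∧ (∀ θ, Integrable (φ θ) (n θ)) ∧
      (Continuous fun y => ∑ θ, ∫ x, k θ (x - y) ∂(n θ) - k₀ (-y)) ∧
      (∀ y, 0 < d y → k₀ (-y) ≤ ∑ θ, ∫ x, k θ (x - y) ∂(n θ)) ∧
      IntegrableOn (fun y => ω y * (∑ θ, ∫ x, k θ (x - y) ∂(n θ) - k₀ (-y))) {y | 0 < d y} ∧
      ∑ θ, ∫ x, φ θ x ∂(n θ) +
        ∫ y in {y | 0 < d y}, ω y * (∑ θ, ∫ x, k θ (x - y) ∂(n θ) - k₀ (-y)) ≤ w := by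
  classical
  obtain ⟨ν, hνf, hνY, hνφ, hν⟩ := dual_meas k hk k₀ hk₀ Y hY ρ hρ hρ0 d ω hω0 φ hφ hδ hφδ hvan w hno
  obtain ⟨C, hC⟩ := hkb
  obtain ⟨Cρ, hCρ⟩ := hρb
  let r : ℝ → NNReal := fun x => Real.toNNReal (ρ x)
  have hr : Measurable r := hρ.measurable.real_toNNReal
  have hrv : ∀ x, (r x : ℝ) = ρ x := fun x => Real.coe_toNNReal _ (hρ0 x).le
  let n : F → Measure ℝ := fun θ => (ν θ).withDensity fun x => (r x : ENNReal)
  have haeY : ∀ θ, ∀ᵐ x ∂(ν θ), x ∈ Y := fun θ => by
    rw [ae_iff]; exact hνY θ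
  have hnf : ∀ θ, IsFiniteMeasure (n θ) := by
    intro θ
    have := hνf θ
    refine isFiniteMeasure_withDensity (ne_of_lt ?_)
    have h1 : ∫⁻ x, (r x : ENNReal) ∂(ν θ) ≤ ∫⁻ _, ENNReal.ofReal Cρ ∂(ν θ) := by
      refine lintegral_mono_ae ?_
      filter_upwards [haeY θ] with x hx
      exact ENNReal.ofReal_le_ofReal (hCρ x hx)
    refine h1.trans_lt ?_
    rw [lintegral_const]
    exact ENNReal.mul_lt_top ENNReal.ofReal_lt_top (measure_lt_top _ _)
  have hni : ∀ θ (g : ℝ → ℝ), Integrable g (n θ) ↔ Integrable (fun x => ρ x * g x) (ν θ) := by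
    intro θ g
    rw [integrable_withDensity_iff_integrable_smul hr]
    refine integrable_congr (Filter.Eventually.of_forall fun x => ?_)
    change (r x : ℝ) * g x = ρ x * g x
    rw [hrv]
  have hnint : ∀ θ (g : ℝ → ℝ), ∫ x, g x ∂(n θ) = ∫ x, ρ x * g x ∂(ν θ) := by
    intro θ g
    rw [integral_withDensity_eq_integral_smul hr]
    refine integral_congr_ae (Filter.Eventually.of_forall fun x => ?_)
    change (r x : ℝ) * g x = ρ x * g x
    rw [hrv]
  have hkint : ∀ θ y, Integrable (fun x => k θ (x - y)) (n θ) := by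
    intro θ y
    have := hnf θ
    exact Integrable.mono' (integrable_const C)
      ((hk θ).comp (continuous_id.sub continuous_const)).aestronglyMeasurable
      (Filter.Eventually.of_forall fun x => hC θ _)
  have hGc : Continuous fun y => ∑ θ, ∫ x, k θ (x - y) ∂(n θ) - k₀ (-y) := by
    refine Continuous.sub (continuous_finsetSum _ fun θ _ => ?_) (hk₀.comp continuous_neg)
    have := hnf θ
    refine continuous_of_dominated (bound := fun _ => C) (fun y => ?_)
      (fun y => Filter.Eventually.of_forall fun x => hC θ _) (integrable_const C)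
      (Filter.Eventually.of_forall fun x => ?_)
    · exact ((hk θ).comp (continuous_id.sub continuous_const)).aestronglyMeasurable
    · exact (hk θ).comp (continuous_const.sub continuous_id)
  have hfub : ∀ θ (m : ℝ → ℝ), Continuous m → HasCompactSupport m →
      ∫ x, (∫ y, k θ (x - y) * m y) ∂(n θ) = ∫ y, m y * ∫ x, k θ (x - y) ∂(n θ) := by
    intro θ m hm hmc
    have := hnf θ
    rw [integral_integral_swap]
    · refine integral_congr_ae (Filter.Eventually.of_forall fun y => ?_)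
      simp only []
      rw [integral_mul_const, mul_comm]
    · have h1 : Integrable (fun p : ℝ × ℝ => |m p.2|) ((n θ).prod volume) :=
        (hm.integrable_of_hasCompactSupport hmc).abs.comp_snd _
      refine Integrable.mono' (h1.const_mul C) ?_ (Filter.Eventually.of_forall fun p => ?_)
      · exact (((hk θ).comp (continuous_fst.sub continuous_snd)).mul (hm.comp continuous_snd)).aestronglyMeasurable
      · change |k θ (p.1 - p.2) * m p.2| ≤ C * |m p.2|
        rw [abs_mul]
        exact mul_le_mul_of_nonneg_right (hC θ _) (abs_nonneg _)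
  have hcore := dual_core (fun y => ∑ θ, ∫ x, k θ (x - y) ∂(n θ) - k₀ (-y)) d ω hGc hd hd0 hω hω0
    (w - ∑ θ, ∫ x, φ θ x ∂(n θ)) (by
      intro m hm hmc hmd hmω
      obtain ⟨hi, hle⟩ := hν m hm hmc hmd hmω
      have e1 : ∑ θ, ∫ x, (ρ x * φ θ x - ρ x * ∫ y, k θ (x - y) * m y) ∂(ν θ)
          = ∑ θ, ∫ x, φ θ x ∂(n θ) - ∑ θ, ∫ y, m y * ∫ x, k θ (x - y) ∂(n θ) := by
        rw [← Finset.sum_sub_distrib]
        refine Finset.sum_congr rfl fun θ _ => ?_
        rw [integral_sub (hνφ θ) (hi θ), ← hfub θ m hm hmc, hnint, hnint]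
      rw [e1] at hle
      have hmi : ∀ θ, Integrable (fun y => m y * ∫ x, k θ (x - y) ∂(n θ)) := by
        intro θ
        have hc : Continuous fun y => ∫ x, k θ (x - y) ∂(n θ) := by
          have := hnf θ
          refine continuous_of_dominated (bound := fun _ => C) (fun y => ?_)
            (fun y => Filter.Eventually.of_forall fun x => hC θ _) (integrable_const C)
            (Filter.Eventually.of_forall fun x => ?_)
          · exact ((hk θ).comp (continuous_id.sub continuous_const)).aestronglyMeasurable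
          · exact (hk θ).comp (continuous_const.sub continuous_id)
        exact (hm.mul hc).integrable_of_hasCompactSupport hmc.mul_right
      have hmk : Integrable (fun y => m y * k₀ (-y)) :=
        (hm.mul (hk₀.comp continuous_neg)).integrable_of_hasCompactSupport hmc.mul_right
      have e2 : ∫ y, m y * (∑ θ, ∫ x, k θ (x - y) ∂(n θ) - k₀ (-y))
          = ∑ θ, (∫ y, m y * ∫ x, k θ (x - y) ∂(n θ)) - ∫ y, k₀ (0 - y) * m y := by
        rw [← integral_finsetSum _ (fun θ _ => hmi θ)]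
        have e3 : ∫ y, k₀ (0 - y) * m y = ∫ y, m y * k₀ (-y) := by
          refine integral_congr_ae (Filter.Eventually.of_forall fun y => ?_)
          simp only [zero_sub]; ring
        rw [e3, ← integral_sub (integrable_finsetSum _ fun θ _ => hmi θ) hmk]
        refine integral_congr_ae (Filter.Eventually.of_forall fun y => ?_)
        simp only []
        rw [mul_sub, Finset.mul_sum]
      rw [e2]
      linarith)
  refine ⟨n, hnf, ?_, ?_, ?_, hGc, fun y hy => sub_nonneg.1 (hcore.1 y hy), hcore.2.1, ?_⟩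
  · intro θ
    exact withDensity_absolutelyContinuous _ _ (hνY θ)
  · intro θ
    rw [hni]
    have := hνf θ
    refine (integrable_const (1 : ℝ)).congr (Filter.Eventually.of_forall fun x => ?_)
    change (1 : ℝ) = ρ x * (ρ x)⁻¹
    rw [mul_inv_cancel₀ (hρ0 x).ne']
  · intro θ
    rw [hni]
    exact hνφ θ
  · linarith [hcore.2.2]

theorem dual_half {F : Type} [Fintype F] (k : F → ℝ → ℝ) (hk : ∀ θ, Continuous (k θ))
    (hkb : ∃ C : ℝ, ∀ θ s, |k θ s| ≤ C) (k₀ : ℝ → ℝ) (hk₀ : Continuous k₀)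
    (hk₀b : ∃ C : ℝ, ∀ s, |k₀ s| ≤ C) {A b κ δ : ℝ} (hκ : 0 < κ) (hδ : 0 < δ) (ω : ℝ → ℝ)
    (hω : Continuous ω) (hω0 : ∀ y, 0 ≤ ω y) (φ : F → ℝ → ℝ)
    (hφ : ∀ θ, ContinuousOn (φ θ) (Ici A))
    (hφδ : ∀ θ x, A ≤ x → δ * Real.exp (κ * x) ≤ φ θ x) (w : ℝ)
    (hno : ∀ m : ℝ → ℝ, Continuous m → HasCompactSupport m → (∀ y, y ≤ b → m y = 0) →
      (∀ y, -ω y ≤ m y) → (∀ θ x, A ≤ x → ∫ y, k θ (x - y) * m y < φ θ x) →
      ∫ y, k₀ (0 - y) * m y ≤ w) :
    ∃ n : F → Measure ℝ, (∀ θ, IsFiniteMeasure (n θ)) ∧ (∀ θ, n θ (Iio A) = 0) ∧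
      (∀ θ, Integrable (fun x => Real.exp (κ * x)) (n θ)) ∧ (∀ θ, Integrable (φ θ) (n θ)) ∧
      (∀ y, b ≤ y → k₀ (-y) ≤ ∑ θ, ∫ x, k θ (x - y) ∂(n θ)) ∧
      IntegrableOn (fun y => ω y * (∑ θ, ∫ x, k θ (x - y) ∂(n θ) - k₀ (-y))) (Ioi b) ∧
      ∑ θ, ∫ x, φ θ x ∂(n θ) +
        ∫ y in Ioi b, ω y * (∑ θ, ∫ x, k θ (x - y) ∂(n θ) - k₀ (-y)) ≤ w := by
  obtain ⟨C, hC⟩ := hkb
  have hset : {y | 0 < max 0 (y - b)} = Ioi b := by
    ext y; simp
  obtain ⟨n, h1, h2, h3, h4, h5, h6, h7, h8⟩ := dual_gen k hk ⟨C, hC⟩ k₀ hk₀ (Ici A) isClosed_Ici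
    (fun x => Real.exp (-(κ * x))) (by fun_prop) (fun x => Real.exp_pos _)
    ⟨Real.exp (-(κ * A)), fun x hx => Real.exp_le_exp.2 (by
      have := mul_le_mul_of_nonneg_left (show A ≤ x from hx) hκ.le
      linarith)⟩ (fun y => max 0 (y - b)) (by fun_prop) (fun y => le_max_left _ _) ω hω hω0 φ hφ hδ
    (by
      intro θ x hx
      have := mul_le_mul_of_nonneg_left (hφδ θ x hx) (Real.exp_pos (-(κ * x))).le
      refine le_trans (le_of_eq ?_) this
      rw [mul_left_comm, ← Real.exp_add]; simp)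
    (by
      intro θ m hm hmc ε hε
      have hmi := (hm.integrable_of_hasCompactSupport (μ := (volume : Measure ℝ)) hmc).abs
      let I : ℝ := ∫ y, |m y|
      have hb : ∀ x, |∫ y, k θ (x - y) * m y| ≤ C * I := by
        intro x
        rw [← integral_const_mul]
        refine abs_integral_le_integral_abs.trans ?_
        refine integral_mono_of_nonneg (Filter.Eventually.of_forall fun y => abs_nonneg _)
          (hmi.const_mul C) (Filter.Eventually.of_forall fun y => ?_)
        simp only [abs_mul]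
        exact mul_le_mul_of_nonneg_right (hC θ _) (abs_nonneg _)
      have hCI : 0 ≤ C * I := (abs_nonneg _).trans (hb 0)
      have hlim : Filter.Tendsto (fun x : ℝ => Real.exp (-(κ * x)) * (C * I)) Filter.atTop (nhds (0 * (C * I))) := by
        refine Filter.Tendsto.mul_const _ ?_
        exact Real.tendsto_exp_neg_atTop_nhds_zero.comp (Filter.tendsto_id.const_mul_atTop hκ)
      rw [zero_mul] at hlim
      obtain ⟨R, hR⟩ := Filter.eventually_atTop.1 (hlim.eventually (gt_mem_nhds hε))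
      refine ⟨max (|R| + 1) (|A| + 1), fun x hx hxR => ?_⟩
      have hx0 : |x| = x := by
        by_contra hne
        have hxneg : x < 0 := by
          by_contra hx0; push Not at hx0; exact hne (abs_of_nonneg hx0)
        have : |x| = -x := abs_of_neg hxneg
        have h1 := (le_max_right (|R| + 1) (|A| + 1)).trans hxR
        have h2 := neg_abs_le A
        have h3 : A ≤ x := hx
        linarith
      have hRx : R ≤ x := by
        have h1 := (le_max_left (|R| + 1) (|A| + 1)).trans hxR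
        rw [hx0] at h1
        linarith [le_abs_self R]
      rw [abs_mul, abs_of_pos (Real.exp_pos _)]
      exact (mul_le_mul_of_nonneg_left (hb x) (Real.exp_pos _).le).trans_lt (hR x hRx)) w
    (by
      intro m hm hmc hmd hmω hlt
      refine hno m hm hmc (fun y hy => hmd y (max_eq_left (by linarith))) hmω
        (fun θ x hx => hlt θ x hx))
  rw [hset] at h7 h8
  refine ⟨n, h1, fun θ => ?_, fun θ => ?_, h4, fun y hy => ?_, h7, h8⟩
  · have := h2 θ
    rwa [compl_Ici] at this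
  · refine (h3 θ).congr (Filter.Eventually.of_forall fun x => ?_)
    simp only [Real.exp_neg, inv_inv]
  · -- closedness
    have hcl : IsClosed {y | k₀ (-y) ≤ ∑ θ, ∫ x, k θ (x - y) ∂(n θ)} := by
      have : {y | k₀ (-y) ≤ ∑ θ, ∫ x, k θ (x - y) ∂(n θ)}
          = (fun y => ∑ θ, ∫ x, k θ (x - y) ∂(n θ) - k₀ (-y)) ⁻¹' Ici 0 := by
        ext y; simp
      rw [this]
      exact isClosed_Ici.preimage h5
    have hsub : Ioi b ⊆ {y | k₀ (-y) ≤ ∑ θ, ∫ x, k θ (x - y) ∂(n θ)} := fun y hy => h6 y (by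
      have : b < y := hy
      exact lt_max_of_lt_right (by linarith))
    have := closure_minimal hsub hcl
    rw [closure_Ioi] at this
    exact this hy

theorem dual_line {F : Type} [Fintype F] (k : F → ℝ → ℝ) (hk : ∀ θ, Continuous (k θ))
    (hk0 : ∀ θ, Filter.Tendsto (k θ) (Filter.cocompact ℝ) (nhds 0)) (k₀ : ℝ → ℝ)
    (hk₀ : Continuous k₀) (hk₀b : ∃ C : ℝ, ∀ s, |k₀ s| ≤ C) {a : ℝ} (ha : 0 ≤ a) (φ : F → ℝ)
    (hφ : ∀ θ, 0 < φ θ) (w : ℝ)
    (hno : ∀ m : ℝ → ℝ, Continuous m → HasCompactSupport m → (∀ y, -a ≤ m y) →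
      (∀ θ x, ∫ y, k θ (x - y) * m y < φ θ) → ∫ y, k₀ (0 - y) * m y ≤ w) :
    ∃ n : F → Measure ℝ, (∀ θ, IsFiniteMeasure (n θ)) ∧
      (∀ y, k₀ (-y) ≤ ∑ θ, ∫ x, k θ (x - y) ∂(n θ)) ∧
      Integrable (fun y => a * (∑ θ, ∫ x, k θ (x - y) ∂(n θ) - k₀ (-y))) ∧
      ∑ θ, φ θ * (n θ).real univ +
        ∫ y, a * (∑ θ, ∫ x, k θ (x - y) ∂(n θ) - k₀ (-y)) ≤ w := by
  classical
  have hbd : ∀ θ, ∃ C, ∀ s, |k θ s| ≤ C := by
    intro θ
    obtain ⟨C, hC⟩ := (ZeroAtInftyContinuousMap.isBounded_range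
      (⟨⟨k θ, hk θ⟩, hk0 θ⟩ : C₀(ℝ, ℝ))).exists_norm_le
    exact ⟨C, fun s => hC _ ⟨s, rfl⟩⟩
  choose Cf hCf using hbd
  have hkb : ∃ C : ℝ, ∀ θ s, |k θ s| ≤ C := ⟨∑ θ, |Cf θ|, fun θ s => (hCf θ s).trans
    ((le_abs_self _).trans (Finset.single_le_sum (f := fun θ => |Cf θ|) (fun _ _ => abs_nonneg _)
      (Finset.mem_univ θ)))⟩
  obtain ⟨δ, hδ, hδφ⟩ : ∃ δ : ℝ, 0 < δ ∧ ∀ θ, δ ≤ φ θ := by
    rcases isEmpty_or_nonempty F with hF | hF
    · exact ⟨1, one_pos, fun θ => (hF.false θ).elim⟩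
    · obtain ⟨θ₀, hθ₀⟩ := Finite.exists_min φ
      exact ⟨φ θ₀, hφ θ₀, hθ₀⟩
  have hset : {y : ℝ | (0 : ℝ) < 1} = univ := by ext; simp
  obtain ⟨n, h1, h2, h3, h4, h5, h6, h7, h8⟩ := dual_gen k hk hkb k₀ hk₀ univ isClosed_univ
    (fun _ => 1) continuous_const (fun _ => one_pos) ⟨1, fun _ _ => le_rfl⟩ (fun _ => 1)
    continuous_const (fun _ => zero_le_one) (fun _ => a) continuous_const (fun _ => ha)
    (fun θ _ => φ θ) (fun θ => continuousOn_const) hδ (fun θ x _ => by simpa using hδφ θ)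
    (by
      intro θ m hm hmc ε hε
      -- the convolution tends to zero
      obtain ⟨R₁, hR₁⟩ : ∃ R₁ : ℝ, ∀ y, R₁ < |y| → m y = 0 := by
        obtain ⟨R, hR⟩ := hmc.isCompact.isBounded.exists_norm_le
        refine ⟨R, fun y hy => ?_⟩
        by_contra hne
        have := hR y (subset_tsupport m hne)
        rw [Real.norm_eq_abs] at this
        linarith
      have hmi := (hm.integrable_of_hasCompactSupport (μ := (volume : Measure ℝ)) hmc).abs
      let I : ℝ := ∫ y, |m y|
      have hI0 : 0 ≤ I := integral_nonneg fun _ => abs_nonneg _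
      have hev := (hk0 θ).eventually (Metric.ball_mem_nhds 0 (show 0 < ε / (2 * (I + 1)) by positivity))
      obtain ⟨K, hK, hKs⟩ := Filter.mem_cocompact.1 hev
      obtain ⟨R₂, hR₂⟩ := hK.isBounded.exists_norm_le
      refine ⟨|R₁| + |R₂| + 1, fun x _ hx => ?_⟩
      rw [one_mul]
      have hb : |∫ y, k θ (x - y) * m y| ≤ ε / (2 * (I + 1)) * I := by
        rw [← integral_const_mul]
        refine abs_integral_le_integral_abs.trans ?_
        refine integral_mono_of_nonneg (Filter.Eventually.of_forall fun y => abs_nonneg _)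
          (hmi.const_mul _) (Filter.Eventually.of_forall fun y => ?_)
        simp only [abs_mul]
        rcases le_or_gt |y| |R₁| with hy | hy
        · refine mul_le_mul_of_nonneg_right ?_ (abs_nonneg _)
          have hnK : x - y ∈ Kᶜ := by
            intro hmem
            have h1 := hR₂ _ hmem
            rw [Real.norm_eq_abs] at h1
            have h2 : |x| ≤ |x - y| + |y| := by
              have := abs_add_le (x - y) y
              simpa using this
            linarith [le_abs_self R₂]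
          have h4 : dist (k θ (x - y)) 0 < ε / (2 * (I + 1)) := hKs hnK
          rw [Real.dist_eq, sub_zero] at h4
          exact h4.le
        · rw [hR₁ y ((le_abs_self _).trans_lt hy)]; simp
      refine hb.trans_lt ?_
      have : ε / (2 * (I + 1)) * I = ε * (I / (2 * (I + 1))) := by ring
      rw [this]
      have h3 : I / (2 * (I + 1)) < 1 := by
        rw [div_lt_one (by positivity)]; linarith
      nlinarith) w
    (by
      intro m hm hmc _ hmω hlt
      exact hno m hm hmc hmω (fun θ x => hlt θ x (mem_univ _)))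
  rw [hset] at h7 h8
  rw [integrableOn_univ] at h7
  rw [Measure.restrict_univ] at h8
  refine ⟨n, h1, fun y => h6 y one_pos, h7, ?_⟩
  refine le_trans (le_of_eq ?_) h8
  congr 1
  refine Finset.sum_congr rfl fun θ _ => ?_
  rw [integral_const, smul_eq_mul, mul_comm]

end Pool.Agent.IND2I
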