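import Pool.Agent.IND2I.Bg
import Pool.Agent.IND2I.Dual

/-!
# IND2I, module DualS: if the programme is not feasible there is a half line certificate

PROOF of `om_fubini`: Fubini for `∑ ∫∫ kb i (x - y) ω y dy dn_i(x)`; absolute convergence:
`∫_{-M<y<x} |kb| ω ≤ (β + C) (η Λ/κ) e^{κ (x+M)}`, `∫_{y>x} C e^{x-y} ω ≤ C η Λ e^{κ (x+M)}/(1-κ)`, and
`∫ e^{κ x} dn < ∞`; for `kl` similarly.
PROOF of `exists_half`.  `dual_half` with `F = ι ⊕ lam`, `A = -M - L₁`, `b = -M`, `ω = om κ η Λ M`,
`φ (inl i) = cb i - ub i`, `φ (inr j) = cl j - ul j`, `δ = c₁ Λ e^{κ M}`, `w = v - u0`: if `m` is admissible with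
strict constraints and `∫ k₀ (0 - y) m > v - u0` then `ν = ω + m` contradicts `hno` (`m = 0` on `Iic (-M)`, so
the integrals over `ℝ` are integrals over `Ioi (-M)`).  The result: `∑ ∫ φ dn + ∫_{Ioi (-M)} ω g ≤ v - u0`.
As `ω g ≥ 0`, `∑ ∫ φ dn ≤ v + |u0| ≤ |v| + C₁ Λ e^{κ M} ≤ (|v| + C₁) Λ e^{κ M}`, and `φ ≥ c₁ Λ e^{κ (x+M)}`: this is `mom`
with `K = (|v| + C₁)/c₁`.  With `om_fubini`, `∑ ∫ φ dn + ∫ ω g + u0 = V` (`pb`, `pl` are bounded on the support, so
integrable): this is `val`.
-/

set_option autoImplicit false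

namespace Pool.Agent.IND2I

open MeasureTheory Set

private lemma q_int {κ : ℝ} (hκ : 0 < κ) (hκ1 : κ < 1) :
    Integrable (fun s : ℝ => Real.exp (min s 0) * Real.exp (-(κ * s))) := by
  rw [← integrableOn_univ, ← Iic_union_Ioi (a := (0:ℝ))]
  refine IntegrableOn.union ?_ ?_
  · have h := integrableOn_exp_mul_Iic (a := 1 - κ) (by linarith) 0
    refine h.congr_fun (fun s hs => ?_) measurableSet_Iic
    have hs' : s ≤ 0 := hs
    simp only
    rw [min_eq_left hs', ← Real.exp_add]
    congr 1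
    ring
  · have h := integrableOn_exp_mul_Ioi (a := -κ) (by linarith) 0
    refine h.congr_fun (fun s hs => ?_) measurableSet_Ioi
    have hs' : 0 < s := hs
    simp only
    rw [min_eq_right hs'.le, Real.exp_zero, one_mul]
    congr 1
    ring

private lemma om_cont (κ η Λ M : ℝ) : Continuous (om κ η Λ M) := by
  unfold om
  fun_prop

private lemma om_nonneg {κ η Λ M : ℝ} (hη : 0 ≤ η) (hΛ : 0 ≤ Λ) (y : ℝ) : 0 ≤ om κ η Λ M y := by
  unfold om
  positivity

private lemma fub {k : ℝ → ℝ} (hk : Continuous k) {B : ℝ} (hB : 0 ≤ B)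
    (hkB : ∀ s, |k s| ≤ B * Real.exp (min s 0)) {κ η Λ M : ℝ} (hκ : 0 < κ) (hκ1 : κ < 1)
    (hη : 0 ≤ η) (hΛ : 0 ≤ Λ) {n : Measure ℝ} (hn : IsFiniteMeasure n)
    (hne : Integrable (fun x => Real.exp (κ * x)) n) :
    Integrable (fun x => ∫ y in Ioi (-M), k (x - y) * om κ η Λ M y) n ∧
    IntegrableOn (fun y => om κ η Λ M y * ∫ x, k (x - y) ∂n) (Ioi (-M)) ∧
    ∫ y in Ioi (-M), (om κ η Λ M y * ∫ x, k (x - y) ∂n) =
      ∫ x, (∫ y in Ioi (-M), k (x - y) * om κ η Λ M y) ∂n := by
  set q : ℝ → ℝ := fun s => Real.exp (min s 0) * Real.exp (-(κ * s)) with hq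
  have hqi : Integrable q := q_int hκ hκ1
  have hbd : ∀ x y, ‖k (x - y) * om κ η Λ M y‖ ≤
      B * (η * Λ) * Real.exp (κ * (x + M)) * q (x - y) := by
    intro x y
    rw [norm_mul, Real.norm_eq_abs, Real.norm_eq_abs, abs_of_nonneg (om_nonneg hη hΛ y)]
    have h1 := mul_le_mul_of_nonneg_right (hkB (x - y)) (om_nonneg (κ := κ) (M := M) hη hΛ y)
    refine h1.trans (le_of_eq ?_)
    have h2 : Real.exp (κ * (y + M)) = Real.exp (κ * (x + M)) * Real.exp (-(κ * (x - y))) := by
      rw [← Real.exp_add]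
      congr 1
      ring
    simp only [hq, om]
    rw [h2]
    ring
  have hxi : ∀ x, Integrable (fun y => B * (η * Λ) * Real.exp (κ * (x + M)) * q (x - y)) :=
    fun x => (hqi.comp_sub_left x).const_mul _
  have hmeas : AEStronglyMeasurable (fun p : ℝ × ℝ => k (p.1 - p.2) * om κ η Λ M p.2)
      (n.prod (volume.restrict (Ioi (-M)))) := by
    apply Continuous.aestronglyMeasurable
    exact (hk.comp (continuous_fst.sub continuous_snd)).mul ((om_cont κ η Λ M).comp continuous_snd)
  have hin : ∀ x, Integrable (fun y => k (x - y) * om κ η Λ M y) (volume.restrict (Ioi (-M))) := by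
    intro x
    refine (hxi x).restrict.mono' ?_ ?_
    · apply Continuous.aestronglyMeasurable
      exact (hk.comp (continuous_const.sub continuous_id)).mul (om_cont κ η Λ M)
    · exact Filter.Eventually.of_forall (fun y => hbd x y)
  have hF : Integrable (fun p : ℝ × ℝ => k (p.1 - p.2) * om κ η Λ M p.2)
      (n.prod (volume.restrict (Ioi (-M)))) := by
    rw [integrable_prod_iff hmeas]
    refine ⟨Filter.Eventually.of_forall hin, ?_⟩
    have hdom : Integrable (fun x => B * (η * Λ) * Real.exp (κ * M) * (∫ s, q s) *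
        Real.exp (κ * x)) n := hne.const_mul _
    refine hdom.mono' hmeas.norm.integral_prod_right' ?_
    refine Filter.Eventually.of_forall (fun x => ?_)
    rw [Real.norm_eq_abs, abs_of_nonneg (integral_nonneg (fun y => norm_nonneg _))]
    have h1 : ∫ y in Ioi (-M), ‖k (x - y) * om κ η Λ M y‖ ≤
        ∫ y in Ioi (-M), B * (η * Λ) * Real.exp (κ * (x + M)) * q (x - y) :=
      integral_mono (hin x).norm (hxi x).restrict (fun y => hbd x y)
    have h2 : ∫ y in Ioi (-M), B * (η * Λ) * Real.exp (κ * (x + M)) * q (x - y) ≤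
        ∫ y, B * (η * Λ) * Real.exp (κ * (x + M)) * q (x - y) := by
      refine setIntegral_le_integral (hxi x) (Filter.Eventually.of_forall (fun y => ?_))
      simp only [hq, Pi.zero_apply]
      positivity
    have h3 : ∫ y, B * (η * Λ) * Real.exp (κ * (x + M)) * q (x - y) =
        B * (η * Λ) * Real.exp (κ * M) * (∫ s, q s) * Real.exp (κ * x) := by
      rw [integral_const_mul, integral_sub_left_eq_self q volume x]
      have : Real.exp (κ * (x + M)) = Real.exp (κ * M) * Real.exp (κ * x) := by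
        rw [← Real.exp_add]
        congr 1
        ring
      rw [this]
      ring
    exact h1.trans (h2.trans h3.le)
  have hmul : ∀ y, ∫ x, k (x - y) * om κ η Λ M y ∂n = om κ η Λ M y * ∫ x, k (x - y) ∂n := by
    intro y
    rw [integral_mul_const, mul_comm]
  refine ⟨hF.integral_prod_left, ?_, ?_⟩
  · have h := hF.integral_prod_right
    simp only [hmul] at h
    exact h
  · have h := integral_integral_swap (f := fun x y => k (x - y) * om κ η Λ M y) (μ := n)
      (ν := volume.restrict (Ioi (-M))) hF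
    simp only [hmul] at h
    exact h.symm

namespace Sys

variable {ι lam : Type} [Fintype ι] [Fintype lam] (S : Sys ι lam)

theorem om_fubini {κ η Λ M L₁ : ℝ} (hκ : 0 < κ) (hκ1 : κ < 1) (hη : 0 ≤ η) (hΛ : 0 ≤ Λ)
    {n : ι → Measure ℝ} {l : lam → Measure ℝ} (hn : ∀ i, IsFiniteMeasure (n i))
    (hl : ∀ j, IsFiniteMeasure (l j)) (hn' : ∀ i, n i (Iio (-M - L₁)) = 0)
    (hl' : ∀ j, l j (Iio (-M - L₁)) = 0)
    (hne : ∀ i, Integrable (fun x => Real.exp (κ * x)) (n i))
    (hle : ∀ j, Integrable (fun x => Real.exp (κ * x)) (l j)) :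
    (∀ i, Integrable (fun x => ∫ y in Ioi (-M), S.kb i (x - y) * om κ η Λ M y) (n i)) ∧
    (∀ j, Integrable (fun x => ∫ y in Ioi (-M), S.kl j (x - y) * om κ η Λ M y) (l j)) ∧
    IntegrableOn (fun y => om κ η Λ M y * S.g n l y) (Ioi (-M)) ∧
    ∫ y in Ioi (-M), om κ η Λ M y * S.g n l y =
      ∑ i, ∫ x, (∫ y in Ioi (-M), S.kb i (x - y) * om κ η Λ M y) ∂(n i) +
      ∑ j, ∫ x, (∫ y in Ioi (-M), S.kl j (x - y) * om κ η Λ M y) ∂(l j) -
      ∫ y in Ioi (-M), S.k₀ (0 - y) * om κ η Λ M y := by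
  have hC := S.hC
  have Hb := fun i => fub (κ := κ) (η := η) (Λ := Λ) (M := M) (n := n i) (B := S.β i + S.C)
    (S.hkb i).cont (by have := S.hβ i; linarith)
    (fun s => by
      have hb := S.hβ i
      rcases le_total s 0 with hs | hs
      · rw [min_eq_left hs]
        refine ((S.hkb i).left s hs).trans ?_
        exact mul_le_mul_of_nonneg_right (by linarith) (Real.exp_pos _).le
      · rw [min_eq_right hs, Real.exp_zero, mul_one]
        exact S.kb_abs i s) hκ hκ1 hη hΛ (hn i) (hne i)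
  have Hl := fun j => fub (κ := κ) (η := η) (Λ := Λ) (M := M) (n := l j) (B := S.C)
    (S.hkl j).cont (by linarith)
    (fun s => by
      rcases le_total s 0 with hs | hs
      · rw [min_eq_left hs]
        exact (S.hkl j).left s hs
      · rw [min_eq_right hs, Real.exp_zero, mul_one]
        exact S.kl_abs j s) hκ hκ1 hη hΛ (hl j) (hle j)
  have H0 := S.om_k0_int (κ := κ) (η := η) (Λ := Λ) (M := M) hκ hκ1 0
  have hg : ∀ y, om κ η Λ M y * S.g n l y =
      ∑ i, (om κ η Λ M y * ∫ x, S.kb i (x - y) ∂(n i)) +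
      ∑ j, (om κ η Λ M y * ∫ x, S.kl j (x - y) ∂(l j)) - S.k₀ (0 - y) * om κ η Λ M y := by
    intro y
    unfold g
    rw [mul_sub, mul_add, Finset.mul_sum, Finset.mul_sum, zero_sub]
    ring
  have I1 : Integrable (fun y => ∑ i, (om κ η Λ M y * ∫ x, S.kb i (x - y) ∂(n i)))
      (volume.restrict (Ioi (-M))) := integrable_finset_sum _ (fun i _ => (Hb i).2.1)
  have I2 : Integrable (fun y => ∑ j, (om κ η Λ M y * ∫ x, S.kl j (x - y) ∂(l j)))
      (volume.restrict (Ioi (-M))) := integrable_finset_sum _ (fun j _ => (Hl j).2.1)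
  refine ⟨fun i => (Hb i).1, fun j => (Hl j).1, ?_, ?_⟩
  · unfold IntegrableOn
    simp only [hg]
    exact (I1.add I2).sub H0
  · simp only [hg]
    have e1 := integral_sub (I1.add I2) H0
    simp only [Pi.add_apply] at e1
    rw [e1, integral_add I1 I2, integral_finset_sum _ (fun i _ => (Hb i).2.1),
      integral_finset_sum _ (fun j _ => (Hl j).2.1)]
    congr 2
    · exact Finset.sum_congr rfl (fun i _ => (Hb i).2.2)
    · exact Finset.sum_congr rfl (fun j _ => (Hl j).2.2)

private lemma split_int {k m ω : ℝ → ℝ} {M x : ℝ} (hk : Continuous k) (hm : Continuous m)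
    (hmc : HasCompactSupport m) (hm0 : ∀ y, y ≤ -M → m y = 0)
    (hi : IntegrableOn (fun y => k (x - y) * ω y) (Ioi (-M))) :
    ∫ y in Ioi (-M), k (x - y) * (ω y + m y) =
      (∫ y in Ioi (-M), k (x - y) * ω y) + ∫ y, k (x - y) * m y := by
  have h1 : Integrable (fun y => k (x - y) * m y) := by
    apply Continuous.integrable_of_hasCompactSupport
    · exact (hk.comp (continuous_const.sub continuous_id)).mul hm
    · exact hmc.mul_left
  have h2 : ∫ y in Ioi (-M), k (x - y) * m y = ∫ y, k (x - y) * m y := by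
    apply setIntegral_eq_integral_of_forall_compl_eq_zero
    intro y hy
    rw [hm0 y (not_lt.1 hy), mul_zero]
  rw [← h2, ← integral_add hi h1.integrableOn]
  refine integral_congr_ae (Filter.Eventually.of_forall (fun y => ?_))
  simp only
  ring

theorem exists_half {a κ η c₁ C₁ Λ M L₁ : ℝ} (ha : 0 ≤ a) (hL₁ : 0 ≤ L₁) (hκ : 0 < κ)
    (hκ1 : κ < 1) (hη : 0 < η) (hc₁ : 0 < c₁) (hC₁ : 0 < C₁) (hΛ : 1 ≤ Λ) (hM : 1 ≤ M)
    (h1 : ∀ i x, -M - L₁ ≤ x →
      c₁ * Λ * Real.exp (κ * (x + M)) ≤ S.cb i - S.ub a κ η Λ M i x)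
    (h2 : ∀ j x, -M - L₁ ≤ x →
      c₁ * Λ * Real.exp (κ * (x + M)) ≤ S.cl j - S.ul a κ η Λ M j x)
    (h3 : |S.u0 a κ η Λ M| ≤ C₁ * Λ * Real.exp (κ * M))
    (hno : ¬ ∃ ν : ℝ → ℝ, Continuous ν ∧ (∃ R, ∀ y, R ≤ y → ν y = om κ η Λ M y) ∧
      S.Feas a Λ M L₁ ν) :
    ∃ n l, S.Half a κ ((|S.v| + C₁) / c₁) Λ M L₁ n l := by
  have hΛ0 : 0 < Λ := by linarith
  have hC := S.hC
  have hexp : ∀ x, Real.exp (κ * (x + M)) = Real.exp (κ * M) * Real.exp (κ * x) := by
    intro x
    rw [← Real.exp_add]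
    congr 1
    ring
  obtain ⟨n', hfin, hsup, hint, hφint, hpos, hωint, hval⟩ := dual_half
    (F := ι ⊕ lam) (Sum.elim S.kb S.kl)
    (by
      rintro (i | j)
      · exact (S.hkb i).cont
      · exact (S.hkl j).cont)
    (by
      refine ⟨∑ i, S.β i + S.C, ?_⟩
      have hs0 : 0 ≤ ∑ i, S.β i := Finset.sum_nonneg (fun i _ => (S.hβ i).le)
      rintro (i | j) s
      · refine (S.kb_abs i s).trans ?_
        have := Finset.single_le_sum (f := S.β) (fun i _ => (S.hβ i).le) (Finset.mem_univ i)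
        linarith
      · refine (S.kl_abs j s).trans ?_
        linarith)
    S.k₀ S.hk₀.cont ⟨S.β₀ + S.C, S.k0_abs⟩ (A := -M - L₁) (b := -M) (κ := κ)
    (δ := c₁ * Λ * Real.exp (κ * M)) hκ (by positivity) (om κ η Λ M) (om_cont κ η Λ M)
    (om_nonneg hη.le hΛ0.le)
    (Sum.elim (fun i x => S.cb i - S.ub a κ η Λ M i x) (fun j x => S.cl j - S.ul a κ η Λ M j x))
    (by
      rintro (i | j)
      · exact (continuous_const.sub (S.cont_ub hκ hκ1 i)).continuousOn
      · exact (continuous_const.sub (S.cont_ul hκ hκ1 j)).continuousOn)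
    (by
      rintro (i | j) x hx
      · have := h1 i x hx
        rw [hexp] at this
        simp only [Sum.elim_inl]
        linarith
      · have := h2 j x hx
        rw [hexp] at this
        simp only [Sum.elim_inr]
        linarith)
    (S.v - S.u0 a κ η Λ M)
    (by
      intro m hm hmc hm0 hmω hcon
      by_contra hlt
      push Not at hlt
      apply hno
      refine ⟨fun y => om κ η Λ M y + m y, (om_cont κ η Λ M).add hm, ?_, ?_, ?_, ?_, ?_⟩
      · obtain ⟨R, hR⟩ := hmc.isCompact.bddAbove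
        refine ⟨R + 1, fun y hy => ?_⟩
        have : m y = 0 := by
          apply image_eq_zero_of_notMem_tsupport
          intro hmem
          have := hR hmem
          linarith
        simp only [this, add_zero]
      · intro y _
        have := hmω y
        linarith
      · intro i x hx
        rw [split_int (S.hkb i).cont hm hmc hm0 (S.om_kb_int hκ hκ1 i x)]
        have := hcon (Sum.inl i) x hx
        simp only [Sum.elim_inl, ub] at this
        linarith
      · intro j x hx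
        rw [split_int (S.hkl j).cont hm hmc hm0 (S.om_kl_int hκ hκ1 j x)]
        have := hcon (Sum.inr j) x hx
        simp only [Sum.elim_inr, ul] at this
        linarith
      · rw [split_int S.hk₀.cont hm hmc hm0 (S.om_k0_int hκ hκ1 0)]
        simp only [u0] at hlt
        linarith)
  have hgeq : ∀ y, ∑ θ, ∫ x, (Sum.elim S.kb S.kl : ι ⊕ lam → ℝ → ℝ) θ (x - y) ∂(n' θ) -
      S.k₀ (-y) = S.g (fun i => n' (Sum.inl i)) (fun j => n' (Sum.inr j)) y := by
    intro y
    rw [Fintype.sum_sum_type]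
    simp only [Sum.elim_inl, Sum.elim_inr, g]
  have hgpos : ∀ y, -M ≤ y → 0 ≤ S.g (fun i => n' (Sum.inl i)) (fun j => n' (Sum.inr j)) y := by
    intro y hy
    rw [← hgeq]
    have := hpos y hy
    linarith
  simp only [hgeq] at hval hωint
  obtain ⟨J1, J2, J3, J4⟩ := S.om_fubini (L₁ := L₁) hκ hκ1 hη.le hΛ0.le
    (fun i => hfin (Sum.inl i)) (fun j => hfin (Sum.inr j)) (fun i => hsup (Sum.inl i))
    (fun j => hsup (Sum.inr j)) (fun i => hint (Sum.inl i)) (fun j => hint (Sum.inr j))
  have hωg : 0 ≤ ∫ y in Ioi (-M), om κ η Λ M y *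
      S.g (fun i => n' (Sum.inl i)) (fun j => n' (Sum.inr j)) y := by
    refine setIntegral_nonneg measurableSet_Ioi (fun y hy => ?_)
    exact mul_nonneg (om_nonneg hη.le hΛ0.le y) (hgpos y (le_of_lt hy))
  -- integrability of `pb` and `pl`
  have P1 : ∀ i, Integrable (fun x => S.pb a Λ M i x) (n' (Sum.inl i)) := by
    intro i
    haveI := hfin (Sum.inl i)
    have h := ((integrable_const (S.cb i)).sub (hφint (Sum.inl i))).sub (J1 i)
    refine h.congr (Filter.Eventually.of_forall (fun x => ?_))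
    simp only [Pi.sub_apply, Sum.elim_inl, ub]
    ring
  have P2 : ∀ j, Integrable (fun x => S.pl a M j x) (n' (Sum.inr j)) := by
    intro j
    haveI := hfin (Sum.inr j)
    have h := ((integrable_const (S.cl j)).sub (hφint (Sum.inr j))).sub (J2 j)
    refine h.congr (Filter.Eventually.of_forall (fun x => ?_))
    simp only [Pi.sub_apply, Sum.elim_inr, ul]
    ring
  have E1 : ∀ i, ∫ x, (S.cb i - S.ub a κ η Λ M i x) ∂(n' (Sum.inl i)) =
      S.cb i * (n' (Sum.inl i)).real univ - ∫ x, S.pb a Λ M i x ∂(n' (Sum.inl i)) -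
        ∫ x, (∫ y in Ioi (-M), S.kb i (x - y) * om κ η Λ M y) ∂(n' (Sum.inl i)) := by
    intro i
    haveI := hfin (Sum.inl i)
    have e1 := integral_sub ((integrable_const (S.cb i)).sub (P1 i)) (J1 i)
    simp only [Pi.sub_apply] at e1
    rw [integral_sub (integrable_const (S.cb i)) (P1 i), integral_const, smul_eq_mul,
      mul_comm] at e1
    rw [← e1]
    refine integral_congr_ae (Filter.Eventually.of_forall (fun x => ?_))
    simp only [ub]
    ring
  have E2 : ∀ j, ∫ x, (S.cl j - S.ul a κ η Λ M j x) ∂(n' (Sum.inr j)) =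
      S.cl j * (n' (Sum.inr j)).real univ - ∫ x, S.pl a M j x ∂(n' (Sum.inr j)) -
        ∫ x, (∫ y in Ioi (-M), S.kl j (x - y) * om κ η Λ M y) ∂(n' (Sum.inr j)) := by
    intro j
    haveI := hfin (Sum.inr j)
    have e1 := integral_sub ((integrable_const (S.cl j)).sub (P2 j)) (J2 j)
    simp only [Pi.sub_apply] at e1
    rw [integral_sub (integrable_const (S.cl j)) (P2 j), integral_const, smul_eq_mul,
      mul_comm] at e1
    rw [← e1]
    refine integral_congr_ae (Filter.Eventually.of_forall (fun x => ?_))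
    simp only [ul]
    ring
  refine ⟨fun i => n' (Sum.inl i), fun j => n' (Sum.inr j), fun i => hfin _, fun j => hfin _,
    fun i => hsup _, fun j => hsup _, fun i => hint _, fun j => hint _, ?_, hgpos, ?_⟩
  · have hδ : ∀ θ, c₁ * Λ * Real.exp (κ * M) * ∫ x, Real.exp (κ * x) ∂(n' θ) ≤
        ∫ x, (Sum.elim (fun i x => S.cb i - S.ub a κ η Λ M i x)
          (fun j x => S.cl j - S.ul a κ η Λ M j x) : ι ⊕ lam → ℝ → ℝ) θ x ∂(n' θ) := by
      intro θ
      rw [← integral_const_mul]
      refine integral_mono_ae ((hint θ).const_mul _) (hφint θ) ?_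
      have hae : ∀ᵐ x ∂(n' θ), x ∉ Iio (-M - L₁) := measure_eq_zero_iff_ae_notMem.1 (hsup θ)
      filter_upwards [hae] with x hx
      have hx' : -M - L₁ ≤ x := not_lt.1 hx
      rcases θ with i | j
      · have := h1 i x hx'
        rw [hexp] at this
        simp only [Sum.elim_inl]
        linarith
      · have := h2 j x hx'
        rw [hexp] at this
        simp only [Sum.elim_inr]
        linarith
    have hsum := Finset.sum_le_sum (fun θ (_ : θ ∈ Finset.univ) => hδ θ)
    rw [← Finset.mul_sum, Fintype.sum_sum_type] at hsum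
    have hu := neg_le_of_abs_le h3
    have hv := le_abs_self S.v
    have hge1 : 1 ≤ Λ * Real.exp (κ * M) := by
      have : 1 ≤ Real.exp (κ * M) := Real.one_le_exp (by positivity)
      nlinarith
    have hvΛ : |S.v| ≤ |S.v| * (Λ * Real.exp (κ * M)) := le_mul_of_one_le_right (abs_nonneg _) hge1
    have hfin2 : c₁ * (Λ * Real.exp (κ * M)) *
        (∑ i, ∫ x, Real.exp (κ * x) ∂(n' (Sum.inl i)) +
          ∑ j, ∫ x, Real.exp (κ * x) ∂(n' (Sum.inr j))) ≤
        (|S.v| + C₁) * (Λ * Real.exp (κ * M)) := by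
      nlinarith [hsum, hval, hωg, hu, hv, hvΛ]
    have hpos' : 0 < Λ * Real.exp (κ * M) := by positivity
    rw [le_div_iff₀ hc₁]
    refine le_of_mul_le_mul_right ?_ hpos'
    linarith
  · unfold V
    rw [Fintype.sum_sum_type] at hval
    simp only [Sum.elim_inl, Sum.elim_inr] at hval
    simp only [E1, E2, Finset.sum_sub_distrib] at hval
    simp only [u0] at hval
    linarith [J4]

end Sys

end Pool.Agent.IND2I
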