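import Pool.Agent.IND2I.Defs

/-!
# IND2I: the cut-off density (definitions)
-/

set_option autoImplicit false

namespace Pool.Agent.IND2I

open MeasureTheory Set

/-- `ν` on `(-M, B₁)`, `(1 - η') ν` on `[B₁, B)`, zero otherwise -/
noncomputable def cutf (ν : ℝ → ℝ) (M η' B₁ B y : ℝ) : ℝ :=
  if y ≤ -M then 0 else if y < B₁ then ν y else if y < B then (1 - η') * ν y else 0

end Pool.Agent.IND2I
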