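import Pool.Agent.IND2I.Bg
import Pool.Agent.IND2I.ExDefs

/-!
# IND2I, module ExB: the sharp cut keeps the constraints of the supercritical rays

PROOF.  Let `s₀` be the change of sign of `kb i` (`hkb.sign`), `|s₀| ≤ S₀`, and let `A ∈ {1, 1 - η', 0}` be the value at
`y = x - s₀` of the nonincreasing factor `χ` (`χ = 1` on `y < B₁`, `1 - η'` on `[B₁, B)`, `0` after `B`; `cutf = χ ν` on `(-M, ∞)`).
For every `y > -M`: `kb i (x - y) χ y ν y ≤ A kb i (x - y) ν y` (if `y < x - s₀` then `kb i (x - y) ≤ 0` and `χ y ≥ A`; if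
`y > x - s₀` then `kb i (x - y) ≥ 0` and `χ y ≤ A`; for `y = x - s₀` equality).  So `∫ kb i (x - y) cutf ≤ A ∫_{Ioi (-M)} kb i (x - y) ν y`
`≤ A (cb i - pb i x)` (`Feas.cb`).  New density: `a' ∫_{Ioi B₀} kb i (x - y) dy ≤ a' 4C/γ` always (`kb_le`), and `≤ a' C e^{x - B₀}` for
`x ≤ B₀` (`left`).
`A = 1` (`x - s₀ < B₁`, so `x < B₁ + S₀ ≤ B₀`): total `≤ cb i + a' C e^{B₁ + S₀ - B₀} ≤ cb i + ε` (`h1`).
`A = 1 - η'` (`x - s₀ ≥ B₁`, so `x + M ≥ B₁ - S₀ + M ≥ 0`): total `≤ (1 - η') cb i + η' pb i x + a' 4C/γ`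
`≤ cb i + |cb i| η' + η' (-β i Λ + a C/γ) + a' 4C/γ ≤ cb i` by `h2` (`tail_kb_le`, `η' ≤ 1`).
`A = 0`: total `≤ pb i x + a' 4C/γ ≤ -β i Λ + a C/γ + a' 4C/γ ≤ cb i` by `h3`.
-/

set_option autoImplicit false

namespace Pool.Agent.IND2I

open MeasureTheory Set

private lemma eb_ik {k ν : ℝ → ℝ} {C κ η Λ M : ℝ} (hk : Continuous k)
    (hkl : ∀ s, s ≤ 0 → |k s| ≤ C * Real.exp s) (hκ1 : κ < 1) (hν : Continuous ν)
    (hνom : ∃ R, ∀ y, R ≤ y → ν y = om κ η Λ M y) (x A : ℝ) :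
    IntegrableOn (fun y => k (x - y) * ν y) (Ioi A) := by
  obtain ⟨R, hR⟩ := hνom
  obtain ⟨B, hB⟩ : ∃ B, B = max A (max x R) := ⟨_, rfl⟩
  have hAB : A ≤ B := hB ▸ le_max_left _ _
  have hxB : x ≤ B := hB ▸ (le_max_left _ _).trans (le_max_right _ _)
  have hRB : R ≤ B := hB ▸ (le_max_right _ _).trans (le_max_right _ _)
  have hc : Continuous fun y => k (x - y) * ν y := by fun_prop
  rw [← Ioc_union_Ioi_eq_Ioi hAB]
  refine IntegrableOn.union hc.integrableOn_Ioc ?_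
  have h1 : IntegrableOn (fun y => Real.exp (-(1 - κ) * y)) (Ioi B) :=
    integrableOn_exp_mul_Ioi (by linarith) B
  have h2 := h1.const_mul (C * Real.exp x * |η * Λ| * Real.exp (κ * M))
  refine Integrable.mono' h2 hc.aestronglyMeasurable ?_
  refine (ae_restrict_iff' measurableSet_Ioi).2 (Filter.Eventually.of_forall fun y hy => ?_)
  have hy' : B < y := hy
  rw [Real.norm_eq_abs, abs_mul, hR y (by linarith), om, abs_mul, abs_of_pos (Real.exp_pos _)]
  have h3 := hkl (x - y) (by linarith)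
  calc |k (x - y)| * (|η * Λ| * Real.exp (κ * (y + M)))
      ≤ (C * Real.exp (x - y)) * (|η * Λ| * Real.exp (κ * (y + M))) := by gcongr
    _ = C * Real.exp x * |η * Λ| * Real.exp (κ * M) * Real.exp (-(1 - κ) * y) := by
        rw [sub_eq_add_neg, Real.exp_add, show κ * (y + M) = κ * M + κ * y by ring, Real.exp_add,
          show -(1 - κ) * y = κ * y + -y by ring, Real.exp_add]
        ring

private lemma eb_cut_meas {ν : ℝ → ℝ} (hν : Continuous ν) (M η' B₁ B : ℝ) :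
    Measurable (cutf ν M η' B₁ B) := by
  unfold cutf
  refine Measurable.ite measurableSet_Iic measurable_const ?_
  refine Measurable.ite measurableSet_Iio hν.measurable ?_
  exact Measurable.ite measurableSet_Iio (hν.measurable.const_mul _) measurable_const

private lemma eb_cut_bd {ν : ℝ → ℝ} {M η' B₁ B : ℝ} (hη0 : 0 ≤ η') (hη1 : η' ≤ 1) {y : ℝ}
    (hy : 0 ≤ ν y) : 0 ≤ cutf ν M η' B₁ B y ∧ cutf ν M η' B₁ B y ≤ ν y := by
  unfold cutf
  split_ifs
  · exact ⟨le_rfl, hy⟩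
  · exact ⟨hy, le_rfl⟩
  · exact ⟨mul_nonneg (by linarith) hy, by nlinarith⟩
  · exact ⟨le_rfl, hy⟩

/-- the integral against the cut density lives on `(-M, ∞)` -/
private lemma eb_cut_set {ν : ℝ → ℝ} (k : ℝ → ℝ) (M η' B₁ B x : ℝ) :
    ∫ y, k (x - y) * cutf ν M η' B₁ B y = ∫ y in Ioi (-M), k (x - y) * cutf ν M η' B₁ B y := by
  rw [setIntegral_eq_integral_of_forall_compl_eq_zero]
  intro y hy
  have hy' : y ≤ -M := not_lt.1 hy
  simp [cutf, hy']

private lemma eb_cut_int {k ν : ℝ → ℝ} {C κ η Λ M η' B₁ B : ℝ} (hk : Continuous k)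
    (hkl : ∀ s, s ≤ 0 → |k s| ≤ C * Real.exp s) (hκ1 : κ < 1) (hη0 : 0 ≤ η') (hη1 : η' ≤ 1)
    (hν : Continuous ν) (hνom : ∃ R, ∀ y, R ≤ y → ν y = om κ η Λ M y)
    (hν0 : ∀ y, -M ≤ y → 0 ≤ ν y) (x : ℝ) :
    IntegrableOn (fun y => k (x - y) * cutf ν M η' B₁ B y) (Ioi (-M)) := by
  have h1 := (eb_ik hk hkl hκ1 hν hνom x (-M)).norm
  refine Integrable.mono' h1 ?_ ?_
  · have h2 : Measurable fun y => k (x - y) := (hk.comp (continuous_const.sub continuous_id)).measurable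
    exact (h2.mul (eb_cut_meas hν _ _ _ _)).aestronglyMeasurable
  · refine (ae_restrict_iff' measurableSet_Ioi).2 (Filter.Eventually.of_forall fun y hy => ?_)
    have h3 := hν0 y (le_of_lt hy)
    obtain ⟨h4, h5⟩ := eb_cut_bd (M := M) (B₁ := B₁) (B := B) hη0 hη1 h3
    rw [norm_mul, norm_mul]
    refine mul_le_mul_of_nonneg_left ?_ (norm_nonneg _)
    rw [Real.norm_of_nonneg h4, Real.norm_of_nonneg h3]
    exact h5

private lemma eb_tail {k : ℝ → ℝ} {C : ℝ} (hk : Continuous k)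
    (hkl : ∀ s, s ≤ 0 → |k s| ≤ C * Real.exp s) {x B₀ : ℝ} (hx : x ≤ B₀) :
    IntegrableOn (fun y => k (x - y)) (Ioi B₀) ∧
      ∫ y in Ioi B₀, k (x - y) ≤ C * Real.exp (x - B₀) := by
  have e1 : IntegrableOn (fun y => Real.exp (-1 * y)) (Ioi B₀) :=
    integrableOn_exp_mul_Ioi (by norm_num) B₀
  have e2 : (∫ y in Ioi B₀, Real.exp (-1 * y)) = Real.exp (-B₀) := by
    rw [integral_exp_mul_Ioi (by norm_num) B₀]
    simp
  have e0 : ∀ y ∈ Ioi B₀, |k (x - y)| ≤ C * Real.exp x * Real.exp (-1 * y) := by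
    intro y hy
    have hy' : B₀ < y := hy
    have h := hkl (x - y) (by linarith)
    refine h.trans (le_of_eq ?_)
    rw [mul_assoc, ← Real.exp_add]
    congr 2
    ring
  have e3 : IntegrableOn (fun y => k (x - y)) (Ioi B₀) := by
    refine Integrable.mono' (e1.const_mul (C * Real.exp x))
      (hk.comp (continuous_const.sub continuous_id)).aestronglyMeasurable ?_
    refine (ae_restrict_iff' measurableSet_Ioi).2 (Filter.Eventually.of_forall fun y hy => ?_)
    rw [Real.norm_eq_abs]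
    exact e0 y hy
  refine ⟨e3, ?_⟩
  calc (∫ y in Ioi B₀, k (x - y)) ≤ ∫ y in Ioi B₀, C * Real.exp x * Real.exp (-1 * y) :=
        setIntegral_mono_on e3 (e1.const_mul _) measurableSet_Ioi
          fun y hy => (le_abs_self _).trans (e0 y hy)
    _ = C * Real.exp (x - B₀) := by
        rw [integral_const_mul, e2, mul_assoc, ← Real.exp_add]
        rfl

private lemma eb_exp (g : ℝ) (hg : 0 < g) {x B₀ : ℝ} (h : B₀ ≤ x) :
    ∫ y in Ioc B₀ x, Real.exp (-(g * (x - y))) ≤ 1 / g := by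
  rw [← intervalIntegral.integral_of_le h]
  have hd : ∀ y ∈ uIcc B₀ x, HasDerivAt (fun y => Real.exp (-(g * (x - y))) / g)
      (Real.exp (-(g * (x - y)))) y := by
    intro y _
    have e1 : HasDerivAt (fun y => -(g * (x - y))) g y := by
      have := (((hasDerivAt_id y).const_sub x).const_mul g).neg
      refine this.congr_deriv ?_
      ring
    refine ((e1.exp).div_const g).congr_deriv ?_
    field_simp
  rw [intervalIntegral.integral_eq_sub_of_hasDerivAt hd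
    ((by fun_prop : Continuous fun y => Real.exp (-(g * (x - y)))).intervalIntegrable _ _)]
  have h1 : 0 ≤ Real.exp (-(g * (x - B₀))) / g := by positivity
  simp only [sub_self, mul_zero, neg_zero, Real.exp_zero]
  linarith

namespace Sys

variable {ι lam : Type} [Fintype ι] [Fintype lam] (S : Sys ι lam)

private lemma eb_N (i : ι) (x B₀ : ℝ) : ∫ y in Ioi B₀, S.kb i (x - y) ≤ 4 * S.C / S.γ := by
  have hC := S.hC
  have hγ0 := S.hγ0
  have hγ1 := S.hγ1
  have hCγ : S.C ≤ S.C / S.γ := by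
    rw [le_div_iff₀ hγ0]
    nlinarith
  have h4 : 4 * S.C / S.γ = 4 * (S.C / S.γ) := by ring
  rcases le_total x B₀ with h | h
  · have h1 := (eb_tail (S.hkb i).cont (S.hkb i).left h).2
    have h2 : Real.exp (x - B₀) ≤ 1 := Real.exp_le_one_iff.2 (by linarith)
    have h3 : S.C * Real.exp (x - B₀) ≤ S.C := by nlinarith
    rw [h4]
    linarith
  · obtain ⟨i1, h1⟩ := eb_tail (S.hkb i).cont (S.hkb i).left (le_refl x)
    have hc : Continuous fun y => S.kb i (x - y) :=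
      (S.hkb i).cont.comp (continuous_const.sub continuous_id)
    rw [← Ioc_union_Ioi_eq_Ioi h, setIntegral_union Ioc_disjoint_Ioi_same measurableSet_Ioi
      hc.integrableOn_Ioc i1]
    have h2 : (∫ y in Ioc B₀ x, S.kb i (x - y)) ≤ 2 * (S.C / S.γ) := by
      have h5 := eb_exp (S.γ / 2) (by positivity) h
      calc (∫ y in Ioc B₀ x, S.kb i (x - y))
          ≤ ∫ y in Ioc B₀ x, S.C * Real.exp (-(S.γ / 2 * (x - y))) := by
            refine setIntegral_mono_on hc.integrableOn_Ioc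
              (by fun_prop : Continuous fun y =>
                S.C * Real.exp (-(S.γ / 2 * (x - y)))).integrableOn_Ioc measurableSet_Ioc
              fun y hy => ?_
            have := S.kb_le i (x - y)
            rwa [abs_of_nonneg (by linarith [hy.2])] at this
        _ = S.C * ∫ y in Ioc B₀ x, Real.exp (-(S.γ / 2 * (x - y))) := integral_const_mul _ _
        _ ≤ S.C * (1 / (S.γ / 2)) := mul_le_mul_of_nonneg_left h5 (by linarith)
        _ = 2 * (S.C / S.γ) := by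
            field_simp
    rw [sub_self, Real.exp_zero, mul_one] at h1
    rw [h4]
    have : 0 ≤ S.C / S.γ := by positivity
    linarith

theorem exit_b {a a' κ η Λ M L₁ ε η' B₀ B₁ B S₀ : ℝ} {ν : ℝ → ℝ} (ha : 0 ≤ a) (ha' : 0 ≤ a')
    (hε : 0 ≤ ε) (hκ : 0 < κ) (hκ1 : κ < 1) (hη0 : 0 ≤ η') (hη1 : η' ≤ 1)
    (hν : Continuous ν) (hνom : ∃ R, ∀ y, R ≤ y → ν y = om κ η Λ M y)
    (hF : S.Feas a Λ M L₁ ν) (i : ι) (hS₀ : ∃ s₀, |s₀| ≤ S₀ ∧ (∀ s, s ≤ s₀ → 0 ≤ S.kb i s) ∧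
      ∀ s, s₀ ≤ s → S.kb i s ≤ 0) (hB1 : S₀ - M ≤ B₁) (hB : B₁ ≤ B) (hB0 : B₁ + S₀ ≤ B₀)
    (h1 : a' * S.C * Real.exp (B₁ + S₀ - B₀) ≤ ε)
    (h2 : |S.cb i| + a * (S.C / S.γ) + a' * (4 * S.C / S.γ) ≤ η' * (S.β i * Λ))
    (h3 : |S.cb i| + a * (S.C / S.γ) + a' * (4 * S.C / S.γ) ≤ S.β i * Λ)
    {x : ℝ} (hx : -M - L₁ ≤ x) :
    S.pb a Λ M i x + (∫ y, S.kb i (x - y) * cutf ν M η' B₁ B y)
      + a' * ∫ y in Ioi B₀, S.kb i (x - y) ≤ S.cb i + ε := by
  obtain ⟨s₀, hs₀, hpos, hneg⟩ := hS₀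
  obtain ⟨hs1, hs2⟩ := abs_le.1 hs₀
  have hC := S.hC
  have hγ0 := S.hγ0
  have hβ := S.hβ i
  have hN := S.eb_N i x B₀
  have hcb := hF.cb i x hx
  have haC : 0 ≤ a * (S.C / S.γ) := by positivity
  have hcb0 := abs_nonneg (S.cb i)
  have hcb1 := le_abs_self (S.cb i)
  have hcb2 := neg_abs_le (S.cb i)
  have hN' := mul_le_mul_of_nonneg_left hN ha'
  -- the factor
  obtain ⟨χ, hχ⟩ : ∃ χ : ℝ → ℝ, χ = fun y => if y < B₁ then 1 else if y < B then 1 - η' else 0 :=
    ⟨_, rfl⟩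
  have hanti : ∀ y z, y ≤ z → χ z ≤ χ y := by
    intro y z hyz
    simp only [hχ]
    split_ifs <;> linarith
  have hcut : ∀ y, -M < y → cutf ν M η' B₁ B y = χ y * ν y := by
    intro y hy
    unfold cutf
    rw [if_neg (not_le.2 hy)]
    simp only [hχ]
    split_ifs <;> ring
  have i1 := eb_ik (S.hkb i).cont (S.hkb i).left hκ1 hν hνom x (-M)
  have i2 := eb_cut_int (B₁ := B₁) (B := B) (S.hkb i).cont (S.hkb i).left hκ1 hη0 hη1 hν hνom
    hF.nonneg x
  have hI : (∫ y, S.kb i (x - y) * cutf ν M η' B₁ B y) ≤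
      χ (x - s₀) * ∫ y in Ioi (-M), S.kb i (x - y) * ν y := by
    rw [eb_cut_set, ← integral_const_mul]
    refine setIntegral_mono_on i2 (i1.const_mul _) measurableSet_Ioi fun y hy => ?_
    have hy' : -M < y := hy
    have hy0 := hF.nonneg y hy'.le
    rw [hcut y hy']
    rcases le_total y (x - s₀) with h | h
    · have e1 := hanti _ _ h
      have e2 := hneg (x - y) (by linarith)
      have e3 : 0 ≤ -(S.kb i (x - y)) * (χ y - χ (x - s₀)) * ν y :=
        mul_nonneg (mul_nonneg (by linarith) (by linarith)) hy0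
      nlinarith
    · have e1 := hanti _ _ h
      have e2 := hpos (x - y) (by linarith)
      have e3 : 0 ≤ S.kb i (x - y) * (χ (x - s₀) - χ y) * ν y :=
        mul_nonneg (mul_nonneg e2 (by linarith)) hy0
      nlinarith
  obtain ⟨Q, hQ⟩ : ∃ Q, Q = ∫ y in Ioi (-M), S.kb i (x - y) * ν y := ⟨_, rfl⟩
  rw [← hQ] at hI hcb
  have hpb : 0 ≤ x + M → S.pb a Λ M i x ≤ -(S.β i * Λ) + a * (S.C / S.γ) := by
    intro hxM
    unfold pb
    have e1 := (abs_le.1 (S.tail_kb_le i hxM)).2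
    have e2 : Real.exp (-(S.γ * (x + M))) ≤ 1 :=
      Real.exp_le_one_iff.2 (by nlinarith)
    have e3 : S.C / S.γ * Real.exp (-(S.γ * (x + M))) ≤ S.C / S.γ :=
      mul_le_of_le_one_right (by positivity) e2
    have e4 := mul_le_mul_of_nonneg_left (e1.trans e3) ha
    linarith
  by_cases c1 : x - s₀ < B₁
  · have hA : χ (x - s₀) = 1 := by simp only [hχ]; rw [if_pos c1]
    rw [hA, one_mul] at hI
    have hxB : x ≤ B₀ := by linarith
    have e1 := (eb_tail (S.hkb i).cont (S.hkb i).left hxB).2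
    have e2 : S.C * Real.exp (x - B₀) ≤ S.C * Real.exp (B₁ + S₀ - B₀) :=
      mul_le_mul_of_nonneg_left (Real.exp_le_exp.2 (by linarith)) (by linarith)
    have e3 := mul_le_mul_of_nonneg_left (e1.trans e2) ha'
    linarith
  · have hxM : 0 ≤ x + M := by linarith
    have hp := hpb hxM
    by_cases c2 : x - s₀ < B
    · have hA : χ (x - s₀) = 1 - η' := by simp only [hχ]; rw [if_neg c1, if_pos c2]
      rw [hA] at hI
      have e1 : (1 - η') * Q ≤ (1 - η') * (S.cb i - S.pb a Λ M i x) :=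
        mul_le_mul_of_nonneg_left (by linarith) (by linarith)
      have e2 : η' * S.pb a Λ M i x ≤ η' * (-(S.β i * Λ) + a * (S.C / S.γ)) :=
        mul_le_mul_of_nonneg_left hp hη0
      have e3 : η' * (a * (S.C / S.γ)) ≤ a * (S.C / S.γ) := mul_le_of_le_one_left haC hη1
      have e4 : η' * |S.cb i| ≤ |S.cb i| := mul_le_of_le_one_left hcb0 hη1
      have e5 : -(η' * S.cb i) ≤ η' * |S.cb i| := by nlinarith
      nlinarith
    · have hA : χ (x - s₀) = 0 := by simp only [hχ]; rw [if_neg c1, if_neg c2]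
      rw [hA, zero_mul] at hI
      linarith

end Sys

end Pool.Agent.IND2I
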