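import Pool.Agent.IND2I.Bg
import Pool.Agent.IND2I.ExDefs

/-!
# IND2I, module ExL: the sharp cut keeps the constraints of the left end points

PROOF.  `kl < 0`.  `x < -M`: `pl j x ≤ a ∫_{Ioi 0} kl j < cl j` (`tail_kl_mono`, `hal`), the other two terms are `≤ 0`.
`x ≥ B₀`: `pl ≤ 0`, the second term is `≤ 0`, and `a' ∫_{Ioi B₀} kl j (x - y) dy = a' ∫_{Iio (x - B₀)} kl j ≤ a' ∫_{Iio 0} kl j < cl j`.
`-M ≤ x < B₀`: drop the last term; `cutf ≥ (1 - η') ν` on `(-M, B)`, so
`∫ kl j (x - y) cutf ≤ (1 - η') ∫_{-M < y < B} kl j (x - y) ν ≤ (1 - η') (∫_{Ioi (-M)} kl j (x - y) ν + ∫_{y ≥ B} |kl j (x - y)| ν)`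
`≤ (1 - η') (cl j - pl j x) + ∫_{y ≥ B} |kl j (x - y)| ν` (`Feas.cl`, `x ≥ -M ≥ -M - L₁`), and the last integral is
`≤ C e^{x - B} ∫_{Ioi B} e^{-(y - B)} ν ≤ C e^{B₀ - B} ∫_{Ioi B} e^{-(y - B)} ν ≤ ε/2` (`h2`).  Total
`≤ cl j - η' cl j + η' pl j x + ε/2 ≤ cl j + η' |cl j| + ε/2 ≤ cl j + ε` (`h1`).
-/

set_option autoImplicit false

namespace Pool.Agent.IND2I

open MeasureTheory Set

private lemma el_ik {k ν : ℝ → ℝ} {C κ η Λ M : ℝ} (hk : Continuous k)
    (hkl : ∀ s, s ≤ 0 → |k s| ≤ C * Real.exp s) (hκ1 : κ < 1) (hν : Continuous ν)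
    (hνom : ∃ R, ∀ y, R ≤ y → ν y = om κ η Λ M y) (x A : ℝ) :
    IntegrableOn (fun y => k (x - y) * ν y) (Ioi A) := by
  obtain ⟨R, hR⟩ := hνom
  obtain ⟨B, hB⟩ : ∃ B, B = max A (max x R) := ⟨_, rfl⟩
  have hAB : A ≤ B := hB ▸ le_max_left _ _
  have hxB : x ≤ B := hB ▸ (le_max_left _ _).trans (le_max_right _ _)
  have hRB : R ≤ B := hB ▸ (le_max_right _ _).trans (le_max_right _ _)
  have hc : Continuous fun y => k (x - y) * ν y := by fun_prop
  rw [← Ioc_union_Ioi_eq_Ioi hAB]
  refine IntegrableOn.union hc.integrableOn_Ioc ?_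
  have h1 : IntegrableOn (fun y => Real.exp (-(1 - κ) * y)) (Ioi B) :=
    integrableOn_exp_mul_Ioi (by linarith) B
  have h2 := h1.const_mul (C * Real.exp x * |η * Λ| * Real.exp (κ * M))
  refine Integrable.mono' h2 hc.aestronglyMeasurable ?_
  refine (ae_restrict_iff' measurableSet_Ioi).2 (Filter.Eventually.of_forall fun y hy => ?_)
  have hy' : B < y := hy
  rw [Real.norm_eq_abs, abs_mul, hR y (by linarith), om, abs_mul, abs_of_pos (Real.exp_pos _)]
  have h3 := hkl (x - y) (by linarith)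
  calc |k (x - y)| * (|η * Λ| * Real.exp (κ * (y + M)))
      ≤ (C * Real.exp (x - y)) * (|η * Λ| * Real.exp (κ * (y + M))) := by gcongr
    _ = C * Real.exp x * |η * Λ| * Real.exp (κ * M) * Real.exp (-(1 - κ) * y) := by
        rw [sub_eq_add_neg, Real.exp_add, show κ * (y + M) = κ * M + κ * y by ring, Real.exp_add,
          show -(1 - κ) * y = κ * y + -y by ring, Real.exp_add]
        ring

private lemma el_cut_meas {ν : ℝ → ℝ} (hν : Continuous ν) (M η' B₁ B : ℝ) :
    Measurable (cutf ν M η' B₁ B) := by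
  unfold cutf
  refine Measurable.ite measurableSet_Iic measurable_const ?_
  refine Measurable.ite measurableSet_Iio hν.measurable ?_
  exact Measurable.ite measurableSet_Iio (hν.measurable.const_mul _) measurable_const

private lemma el_cut_bd {ν : ℝ → ℝ} {M η' B₁ B : ℝ} (hη0 : 0 ≤ η') (hη1 : η' ≤ 1) {y : ℝ}
    (hy : 0 ≤ ν y) : 0 ≤ cutf ν M η' B₁ B y ∧ cutf ν M η' B₁ B y ≤ ν y := by
  unfold cutf
  split_ifs
  · exact ⟨le_rfl, hy⟩
  · exact ⟨hy, le_rfl⟩
  · exact ⟨mul_nonneg (by linarith) hy, by nlinarith⟩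
  · exact ⟨le_rfl, hy⟩

/-- the integral against the cut density lives on `(-M, ∞)` -/
private lemma el_cut_set {ν : ℝ → ℝ} (k : ℝ → ℝ) (M η' B₁ B x : ℝ) :
    ∫ y, k (x - y) * cutf ν M η' B₁ B y = ∫ y in Ioi (-M), k (x - y) * cutf ν M η' B₁ B y := by
  rw [setIntegral_eq_integral_of_forall_compl_eq_zero]
  intro y hy
  have hy' : y ≤ -M := not_lt.1 hy
  simp [cutf, hy']

private lemma el_cut_int {k ν : ℝ → ℝ} {C κ η Λ M η' B₁ B : ℝ} (hk : Continuous k)
    (hkl : ∀ s, s ≤ 0 → |k s| ≤ C * Real.exp s) (hκ1 : κ < 1) (hη0 : 0 ≤ η') (hη1 : η' ≤ 1)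
    (hν : Continuous ν) (hνom : ∃ R, ∀ y, R ≤ y → ν y = om κ η Λ M y)
    (hν0 : ∀ y, -M ≤ y → 0 ≤ ν y) (x : ℝ) :
    IntegrableOn (fun y => k (x - y) * cutf ν M η' B₁ B y) (Ioi (-M)) := by
  have h1 := (el_ik hk hkl hκ1 hν hνom x (-M)).norm
  refine Integrable.mono' h1 ?_ ?_
  · have h2 : Measurable fun y => k (x - y) := (hk.comp (continuous_const.sub continuous_id)).measurable
    exact (h2.mul (el_cut_meas hν _ _ _ _)).aestronglyMeasurable
  · refine (ae_restrict_iff' measurableSet_Ioi).2 (Filter.Eventually.of_forall fun y hy => ?_)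
    have h3 := hν0 y (le_of_lt hy)
    obtain ⟨h4, h5⟩ := el_cut_bd (M := M) (B₁ := B₁) (B := B) hη0 hη1 h3
    rw [norm_mul, norm_mul]
    refine mul_le_mul_of_nonneg_left ?_ (norm_nonneg _)
    rw [Real.norm_of_nonneg h4, Real.norm_of_nonneg h3]
    exact h5

/-- the new density seen from the right of its left end -/
private lemma el_new {k : ℝ → ℝ} {C : ℝ} (hk : Continuous k) (hneg : ∀ s, k s < 0)
    (hkl : ∀ s, s ≤ 0 → |k s| ≤ C * Real.exp s) {x B₀ : ℝ} (hx : B₀ ≤ x) :
    ∫ y in Ioi B₀, k (x - y) ≤ ∫ s in Iio (0 : ℝ), k s := by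
  have e1 : IntegrableOn (fun y => Real.exp (-1 * y)) (Ioi x) :=
    integrableOn_exp_mul_Ioi (by norm_num) x
  have hc : Continuous fun y => k (x - y) := hk.comp (continuous_const.sub continuous_id)
  have e3 : IntegrableOn (fun y => k (x - y)) (Ioi x) := by
    refine Integrable.mono' (e1.const_mul (C * Real.exp x)) hc.aestronglyMeasurable ?_
    refine (ae_restrict_iff' measurableSet_Ioi).2 (Filter.Eventually.of_forall fun y hy => ?_)
    have hy' : x < y := hy
    have h := hkl (x - y) (by linarith)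
    rw [Real.norm_eq_abs]
    refine h.trans (le_of_eq ?_)
    rw [mul_assoc, ← Real.exp_add]
    congr 2
    ring
  have e4 : ∫ y in Ioi x, k (x - y) = ∫ s in Iio (0 : ℝ), k s := by
    rw [← integral_indicator measurableSet_Ioi, ← integral_indicator measurableSet_Iio,
      ← integral_sub_left_eq_self (fun s => (Iio (0 : ℝ)).indicator k s) volume x]
    refine integral_congr_ae (Filter.Eventually.of_forall fun y => ?_)
    simp only []
    by_cases hy : x < y
    · rw [indicator_of_mem (show y ∈ Ioi x from hy), indicator_of_mem (show x - y ∈ Iio (0 : ℝ) by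
        rw [mem_Iio]; linarith)]
    · rw [indicator_of_notMem (show y ∉ Ioi x from hy),
        indicator_of_notMem (show x - y ∉ Iio (0 : ℝ) by rw [mem_Iio]; linarith)]
  rw [← e4, ← Ioc_union_Ioi_eq_Ioi hx, setIntegral_union Ioc_disjoint_Ioi_same measurableSet_Ioi
      hc.integrableOn_Ioc e3]
  have e5 : ∫ y in Ioc B₀ x, k (x - y) ≤ 0 :=
    setIntegral_nonpos measurableSet_Ioc fun y _ => (hneg _).le
  linarith

namespace Sys

variable {ι lam : Type} [Fintype ι] [Fintype lam] (S : Sys ι lam)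

theorem exit_l {a a' κ η Λ M L₁ ε η' B₀ B₁ B : ℝ} {ν : ℝ → ℝ} (ha : 0 ≤ a) (ha' : 0 ≤ a')
    (hL₁ : 0 ≤ L₁) (hε : 0 ≤ ε) (hκ : 0 < κ) (hκ1 : κ < 1) (hη0 : 0 ≤ η') (hη1 : η' ≤ 1)
    (hν : Continuous ν) (hνom : ∃ R, ∀ y, R ≤ y → ν y = om κ η Λ M y)
    (hF : S.Feas a Λ M L₁ ν) (j : lam)
    (hal : a * ∫ s in Ioi (0 : ℝ), S.kl j s < S.cl j)
    (hal' : a' * ∫ s in Iio (0 : ℝ), S.kl j s < S.cl j)
    (hB1 : -M ≤ B₁) (hB : B₁ ≤ B) (hB0 : B₀ ≤ B) (h1 : η' * |S.cl j| ≤ ε / 2)
    (h2 : S.C * Real.exp (B₀ - B) * (∫ y in Ioi B, Real.exp (-(y - B)) * ν y) ≤ ε / 2) (x : ℝ) :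
    S.pl a M j x + (∫ y, S.kl j (x - y) * cutf ν M η' B₁ B y)
      + a' * ∫ y in Ioi B₀, S.kl j (x - y) ≤ S.cl j + ε := by
  have hC := S.hC
  have hneg := (S.hkl j).neg
  have hcut0 : ∀ y, 0 ≤ cutf ν M η' B₁ B y := by
    intro y
    rcases le_total y (-M) with hy | hy
    · unfold cutf
      rw [if_pos hy]
    · exact (el_cut_bd hη0 hη1 (hF.nonneg y hy)).1
  have t2 : (∫ y, S.kl j (x - y) * cutf ν M η' B₁ B y) ≤ 0 :=
    integral_nonpos fun y => mul_nonpos_of_nonpos_of_nonneg (hneg _).le (hcut0 y)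
  have t3 : a' * ∫ y in Ioi B₀, S.kl j (x - y) ≤ 0 :=
    mul_nonpos_of_nonneg_of_nonpos ha'
      (setIntegral_nonpos measurableSet_Ioi fun y _ => (hneg _).le)
  have t1 : S.pl a M j x ≤ 0 := by
    unfold pl
    exact mul_nonpos_of_nonneg_of_nonpos ha (S.tail_kl_nonpos j _)
  rcases lt_or_ge x (-M) with hxM | hxM
  · -- far to the left
    have e1 : S.pl a M j x ≤ a * ∫ s in Ioi (0 : ℝ), S.kl j s := by
      unfold pl
      exact mul_le_mul_of_nonneg_left (S.tail_kl_mono j (by linarith)) ha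
    linarith
  rcases le_or_gt B₀ x with hxB | hxB
  · -- in the new density
    have e1 := mul_le_mul_of_nonneg_left
      (el_new (S.hkl j).cont hneg (S.hkl j).left hxB) ha'
    linarith
  · -- in the middle
    have hBM : -M ≤ B := hB1.trans hB
    obtain ⟨Q, hQ⟩ : ∃ Q, Q = ∫ y in Ioi (-M), S.kl j (x - y) * ν y := ⟨_, rfl⟩
    have hcl := hF.cl j x (by linarith)
    rw [← hQ] at hcl
    have i1 := el_ik (S.hkl j).cont (S.hkl j).left hκ1 hν hνom x (-M)
    have i2 := el_cut_int (B₁ := B₁) (B := B) (S.hkl j).cont (S.hkl j).left hκ1 hη0 hη1 hν hνom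
      hF.nonneg x
    have i3 : IntegrableOn (fun y => Real.exp (-(y - B)) * ν y) (Ioi B) := by
      have := el_ik (k := fun s => Real.exp s) (C := 1) Real.continuous_exp
        (fun s _ => by rw [abs_of_pos (Real.exp_pos _), one_mul]) hκ1 hν hνom B B
      simpa only [neg_sub] using this
    have i4 : IntegrableOn (fun y => S.C * Real.exp (B₀ - B) * (Real.exp (-(y - B)) * ν y))
        (Ici B) := by
      rw [integrableOn_Ici_iff_integrableOn_Ioi]
      exact i3.const_mul _
    have i5 : IntegrableOn ((Ici B).indicator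
        (fun y => S.C * Real.exp (B₀ - B) * (Real.exp (-(y - B)) * ν y))) (Ioi (-M)) :=
      ((integrable_indicator_iff measurableSet_Ici).2 i4).integrableOn
    have hI : (∫ y, S.kl j (x - y) * cutf ν M η' B₁ B y) ≤ (1 - η') * Q + ε / 2 := by
      rw [el_cut_set]
      calc (∫ y in Ioi (-M), S.kl j (x - y) * cutf ν M η' B₁ B y)
          ≤ ∫ y in Ioi (-M), ((1 - η') * (S.kl j (x - y) * ν y) + (Ici B).indicator
            (fun y => S.C * Real.exp (B₀ - B) * (Real.exp (-(y - B)) * ν y)) y) := by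
            refine setIntegral_mono_on i2 ((i1.const_mul _).add i5) measurableSet_Ioi
              fun y hy => ?_
            have hy' : -M < y := hy
            have hy0 := hF.nonneg y hy'.le
            have hn := hneg (x - y)
            rcases lt_or_ge y B with hyB | hyB
            · rw [indicator_of_notMem (show y ∉ Ici B from not_le.2 hyB), add_zero]
              have e1 : (1 - η') * ν y ≤ cutf ν M η' B₁ B y := by
                unfold cutf
                rw [if_neg (not_le.2 hy')]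
                split_ifs
                · nlinarith
                · exact le_rfl
              nlinarith
            · rw [indicator_of_mem (show y ∈ Ici B from hyB)]
              have e1 : cutf ν M η' B₁ B y = 0 := by
                unfold cutf
                rw [if_neg (not_le.2 hy'), if_neg (not_lt.2 (hB.trans hyB)),
                  if_neg (not_lt.2 hyB)]
              rw [e1, mul_zero]
              have e2 := (abs_le.1 ((S.hkl j).left (x - y) (by linarith))).1
              have e3 : Real.exp (x - y) ≤ Real.exp (B₀ - B) * Real.exp (-(y - B)) := by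
                rw [← Real.exp_add]
                exact Real.exp_le_exp.2 (by linarith)
              have e4 : S.C * Real.exp (x - y) ≤
                  S.C * (Real.exp (B₀ - B) * Real.exp (-(y - B))) :=
                mul_le_mul_of_nonneg_left e3 (by linarith)
              have e5 : 0 ≤ (S.kl j (x - y) + S.C * (Real.exp (B₀ - B) * Real.exp (-(y - B)))) *
                  ν y := mul_nonneg (by linarith) hy0
              have e6 : η' * (S.kl j (x - y) * ν y) ≤ 0 :=
                mul_nonpos_of_nonneg_of_nonpos hη0 (mul_nonpos_of_nonpos_of_nonneg hn.le hy0)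
              nlinarith
        _ = (1 - η') * Q + S.C * Real.exp (B₀ - B) * ∫ y in Ioi B, Real.exp (-(y - B)) * ν y := by
            rw [integral_add (i1.const_mul _) i5, integral_const_mul, ← hQ,
              setIntegral_indicator measurableSet_Ici]
            rcases hBM.lt_or_eq with h | h
            · have e : Ioi (-M) ∩ Ici B = Ici B :=
                inter_eq_right.2 fun y hy => lt_of_lt_of_le h hy
              rw [e, integral_Ici_eq_integral_Ioi, integral_const_mul]
            · have e : Ioi (-M) ∩ Ici B = Ioi B := by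
                rw [h]
                exact inter_eq_left.2 Ioi_subset_Ici_self
              rw [e, integral_const_mul]
        _ ≤ (1 - η') * Q + ε / 2 := by linarith
    have hp : (1 - η') * Q ≤ (1 - η') * (S.cl j - S.pl a M j x) :=
      mul_le_mul_of_nonneg_left (by linarith) (by linarith)
    have hq : η' * S.pl a M j x ≤ 0 := mul_nonpos_of_nonneg_of_nonpos hη0 t1
    have hr : -(η' * S.cl j) ≤ η' * |S.cl j| := by
      have := mul_le_mul_of_nonneg_left (neg_abs_le (S.cl j)) hη0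
      linarith
    nlinarith

end Sys

end Pool.Agent.IND2I
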