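import Pool.Agent.IND2I.Bg
import Pool.Agent.IND2I.ExDefs

/-!
# IND2I, module ExT: the sharp cut and the target; the effect of the patch far to the left

PROOF of `exit_t`.  `cutf = ν` on `(-M, B₁)` and `|cutf - ν| ≤ ν` on `[B₁, ∞)`, `|k₀ (0 - y)| ≤ C e^{-y}` for `y ≥ 0` (`left`), so the integral
changes by at most `∫_{Ioi B₁} C e^{-y} ν = C e^{-B₁} ∫_{Ioi B₁} e^{-(y - B₁)} ν ≤ ε/2`, and
`|a' ∫_{Ioi B₀} k₀ (0 - y)| ≤ a' C e^{-B₀} ≤ ε/2`.
PROOF of `exit_bl`.  For `y > -M` and `x ≤ -M - L₁`: `x - y ≤ 0`, `kb i (x - y) ≤ C e^{x - y} ≤ C e^{-L₁} e^{-(y + M)}`, `0 ≤ cutf ≤ ν`.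
-/

set_option autoImplicit false

namespace Pool.Agent.IND2I

open MeasureTheory Set

private lemma ex_ik {k ν : ℝ → ℝ} {C κ η Λ M : ℝ} (hk : Continuous k)
    (hkl : ∀ s, s ≤ 0 → |k s| ≤ C * Real.exp s) (hκ1 : κ < 1) (hν : Continuous ν)
    (hνom : ∃ R, ∀ y, R ≤ y → ν y = om κ η Λ M y) (x A : ℝ) :
    IntegrableOn (fun y => k (x - y) * ν y) (Ioi A) := by
  obtain ⟨R, hR⟩ := hνom
  obtain ⟨B, hB⟩ : ∃ B, B = max A (max x R) := ⟨_, rfl⟩
  have hAB : A ≤ B := hB ▸ le_max_left _ _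
  have hxB : x ≤ B := hB ▸ (le_max_left _ _).trans (le_max_right _ _)
  have hRB : R ≤ B := hB ▸ (le_max_right _ _).trans (le_max_right _ _)
  have hc : Continuous fun y => k (x - y) * ν y := by fun_prop
  rw [← Ioc_union_Ioi_eq_Ioi hAB]
  refine IntegrableOn.union hc.integrableOn_Ioc ?_
  have h1 : IntegrableOn (fun y => Real.exp (-(1 - κ) * y)) (Ioi B) :=
    integrableOn_exp_mul_Ioi (by linarith) B
  have h2 := h1.const_mul (C * Real.exp x * |η * Λ| * Real.exp (κ * M))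
  refine Integrable.mono' h2 hc.aestronglyMeasurable ?_
  refine (ae_restrict_iff' measurableSet_Ioi).2 (Filter.Eventually.of_forall fun y hy => ?_)
  have hy' : B < y := hy
  rw [Real.norm_eq_abs, abs_mul, hR y (by linarith), om, abs_mul, abs_of_pos (Real.exp_pos _)]
  have h3 := hkl (x - y) (by linarith)
  calc |k (x - y)| * (|η * Λ| * Real.exp (κ * (y + M)))
      ≤ (C * Real.exp (x - y)) * (|η * Λ| * Real.exp (κ * (y + M))) := by gcongr
    _ = C * Real.exp x * |η * Λ| * Real.exp (κ * M) * Real.exp (-(1 - κ) * y) := by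
        rw [sub_eq_add_neg, Real.exp_add, show κ * (y + M) = κ * M + κ * y by ring, Real.exp_add,
          show -(1 - κ) * y = κ * y + -y by ring, Real.exp_add]
        ring

private lemma ex_cut_meas {ν : ℝ → ℝ} (hν : Continuous ν) (M η' B₁ B : ℝ) :
    Measurable (cutf ν M η' B₁ B) := by
  unfold cutf
  refine Measurable.ite measurableSet_Iic measurable_const ?_
  refine Measurable.ite measurableSet_Iio hν.measurable ?_
  exact Measurable.ite measurableSet_Iio (hν.measurable.const_mul _) measurable_const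

private lemma ex_cut_bd {ν : ℝ → ℝ} {M η' B₁ B : ℝ} (hη0 : 0 ≤ η') (hη1 : η' ≤ 1) {y : ℝ}
    (hy : 0 ≤ ν y) : 0 ≤ cutf ν M η' B₁ B y ∧ cutf ν M η' B₁ B y ≤ ν y := by
  unfold cutf
  split_ifs
  · exact ⟨le_rfl, hy⟩
  · exact ⟨hy, le_rfl⟩
  · exact ⟨mul_nonneg (by linarith) hy, by nlinarith⟩
  · exact ⟨le_rfl, hy⟩

/-- the integral against the cut density lives on `(-M, ∞)` -/
private lemma ex_cut_set {ν : ℝ → ℝ} (k : ℝ → ℝ) (M η' B₁ B x : ℝ) :
    ∫ y, k (x - y) * cutf ν M η' B₁ B y = ∫ y in Ioi (-M), k (x - y) * cutf ν M η' B₁ B y := by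
  rw [setIntegral_eq_integral_of_forall_compl_eq_zero]
  intro y hy
  have hy' : y ≤ -M := not_lt.1 hy
  simp [cutf, hy']

private lemma ex_cut_int {k ν : ℝ → ℝ} {C κ η Λ M η' B₁ B : ℝ} (hk : Continuous k)
    (hkl : ∀ s, s ≤ 0 → |k s| ≤ C * Real.exp s) (hκ1 : κ < 1) (hη0 : 0 ≤ η') (hη1 : η' ≤ 1)
    (hν : Continuous ν) (hνom : ∃ R, ∀ y, R ≤ y → ν y = om κ η Λ M y)
    (hν0 : ∀ y, -M ≤ y → 0 ≤ ν y) (x : ℝ) :
    IntegrableOn (fun y => k (x - y) * cutf ν M η' B₁ B y) (Ioi (-M)) := by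
  have h1 := (ex_ik hk hkl hκ1 hν hνom x (-M)).norm
  refine Integrable.mono' h1 ?_ ?_
  · have h2 : Measurable fun y => k (x - y) := (hk.comp (continuous_const.sub continuous_id)).measurable
    exact (h2.mul (ex_cut_meas hν _ _ _ _)).aestronglyMeasurable
  · refine (ae_restrict_iff' measurableSet_Ioi).2 (Filter.Eventually.of_forall fun y hy => ?_)
    have h3 := hν0 y (le_of_lt hy)
    obtain ⟨h4, h5⟩ := ex_cut_bd (M := M) (B₁ := B₁) (B := B) hη0 hη1 h3
    rw [norm_mul, norm_mul]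
    refine mul_le_mul_of_nonneg_left ?_ (norm_nonneg _)
    rw [Real.norm_of_nonneg h4, Real.norm_of_nonneg h3]
    exact h5

namespace Sys

variable {ι lam : Type} [Fintype ι] [Fintype lam] (S : Sys ι lam)

theorem exit_t {a a' κ η Λ M L₁ ε η' B₀ B₁ B : ℝ} {ν : ℝ → ℝ} (ha' : 0 ≤ a')
    (hM : 0 ≤ M) (hκ : 0 < κ) (hκ1 : κ < 1) (hη0 : 0 ≤ η') (hη1 : η' ≤ 1)
    (hν : Continuous ν) (hνom : ∃ R, ∀ y, R ≤ y → ν y = om κ η Λ M y)
    (hF : S.Feas a Λ M L₁ ν) (hB1 : 0 ≤ B₁) (hB : B₁ ≤ B) (hB0 : 0 ≤ B₀)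
    (h1 : S.C * Real.exp (-B₁) * (∫ y in Ioi B₁, Real.exp (-(y - B₁)) * ν y) ≤ ε / 2)
    (h2 : a' * S.C * Real.exp (-B₀) ≤ ε / 2) :
    S.v - ε ≤ S.p0 a Λ M 0 + (∫ y, S.k₀ (0 - y) * cutf ν M η' B₁ B y)
      + a' * ∫ y in Ioi B₀, S.k₀ (0 - y) := by
  have ht := hF.target
  have hC := S.hC
  rw [ex_cut_set]
  have i1 := ex_ik S.hk₀.cont S.hk₀.left hκ1 hν hνom 0 (-M)
  have i2 := ex_cut_int (B₁ := B₁) (B := B) S.hk₀.cont S.hk₀.left hκ1 hη0 hη1 hν hνom
    hF.nonneg 0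
  -- the change of the integral
  have h3 : (∫ y in Ioi (-M), S.k₀ (0 - y) * ν y) -
      (∫ y in Ioi (-M), S.k₀ (0 - y) * cutf ν M η' B₁ B y) ≤ ε / 2 := by
    rw [← integral_sub i1 i2]
    refine le_trans ?_ h1
    have i3 : IntegrableOn (fun y => Real.exp (-(y - B₁)) * ν y) (Ioi B₁) := by
      have := ex_ik (k := fun s => Real.exp s) (C := 1) Real.continuous_exp
        (fun s _ => by rw [abs_of_pos (Real.exp_pos _), one_mul]) hκ1 hν hνom B₁ B₁
      simpa only [neg_sub] using this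
    have hBM : -M ≤ B₁ := by linarith
    have hne : ∀ᵐ y : ℝ, y ≠ B₁ := by simp [ae_iff]
    have h4 : (∫ y in Ioi (-M), (S.k₀ (0 - y) * ν y - S.k₀ (0 - y) * cutf ν M η' B₁ B y)) =
        ∫ y in Ioi B₁, (S.k₀ (0 - y) * ν y - S.k₀ (0 - y) * cutf ν M η' B₁ B y) := by
      refine setIntegral_eq_of_subset_of_ae_sdiff_eq_zero measurableSet_Ioi.nullMeasurableSet
        (Ioi_subset_Ioi hBM) ?_
      filter_upwards [hne] with y hy hy2
      have hy3 : -M < y := hy2.1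
      have hy4 : y ≤ B₁ := not_lt.1 hy2.2
      have hy5 : y < B₁ := lt_of_le_of_ne hy4 hy
      have : cutf ν M η' B₁ B y = ν y := by
        unfold cutf
        rw [if_neg (not_le.2 hy3), if_pos hy5]
      rw [this, sub_self]
    rw [h4, ← integral_const_mul]
    refine setIntegral_mono_on ((i1.sub i2).mono_set (Ioi_subset_Ioi hBM)) (i3.const_mul _)
      measurableSet_Ioi fun y hy => ?_
    have hy' : B₁ < y := hy
    have h6 := hF.nonneg y (by linarith)
    obtain ⟨h7, h8⟩ := ex_cut_bd (M := M) (B₁ := B₁) (B := B) hη0 hη1 h6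
    have h9 := S.hk₀.left (0 - y) (by linarith)
    calc S.k₀ (0 - y) * ν y - S.k₀ (0 - y) * cutf ν M η' B₁ B y
        = S.k₀ (0 - y) * (ν y - cutf ν M η' B₁ B y) := by ring
      _ ≤ (S.C * Real.exp (0 - y)) * (ν y - cutf ν M η' B₁ B y) :=
          mul_le_mul_of_nonneg_right ((le_abs_self _).trans h9) (by linarith)
      _ ≤ (S.C * Real.exp (0 - y)) * ν y :=
          mul_le_mul_of_nonneg_left (by linarith) (by positivity)
      _ = S.C * Real.exp (-B₁) * (Real.exp (-(y - B₁)) * ν y) := by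
          have : Real.exp (0 - y) = Real.exp (-B₁) * Real.exp (-(y - B₁)) := by
            rw [← Real.exp_add]
            congr 1
            ring
          rw [this]
          ring
  have h5 : -(ε / 2) ≤ a' * ∫ y in Ioi B₀, S.k₀ (0 - y) := by
    have e1 : IntegrableOn (fun y => Real.exp (-1 * y)) (Ioi B₀) :=
      integrableOn_exp_mul_Ioi (by norm_num) B₀
    have e2 : (∫ y in Ioi B₀, Real.exp (-1 * y)) = Real.exp (-B₀) := by
      rw [integral_exp_mul_Ioi (by norm_num) B₀]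
      simp
    have e3 : IntegrableOn (fun y => S.k₀ (0 - y)) (Ioi B₀) := by
      refine Integrable.mono' (e1.const_mul S.C)
        (S.hk₀.cont.comp (continuous_const.sub continuous_id)).aestronglyMeasurable ?_
      refine (ae_restrict_iff' measurableSet_Ioi).2 (Filter.Eventually.of_forall fun y hy => ?_)
      have hy' : B₀ < y := hy
      have := S.hk₀.left (0 - y) (by linarith)
      rw [Real.norm_eq_abs]
      simpa using this
    have e4 : -(S.C * Real.exp (-B₀)) ≤ ∫ y in Ioi B₀, S.k₀ (0 - y) := by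
      rw [← e2, ← integral_const_mul, ← integral_neg]
      refine setIntegral_mono_on (e1.const_mul S.C).neg e3 measurableSet_Ioi fun y hy => ?_
      have hy' : B₀ < y := hy
      have h9 := (abs_le.1 (S.hk₀.left (0 - y) (by linarith))).1
      simpa using h9
    have := mul_le_mul_of_nonneg_left e4 ha'
    linarith
  linarith

theorem exit_bl {κ η Λ M L₁ η' B₁ B : ℝ} {ν : ℝ → ℝ}
    (hκ : 0 < κ) (hκ1 : κ < 1) (hη0 : 0 ≤ η') (hη1 : η' ≤ 1) (hL₁ : 0 ≤ L₁)
    (hν : Continuous ν) (hνom : ∃ R, ∀ y, R ≤ y → ν y = om κ η Λ M y)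
    (hν0 : ∀ y, -M ≤ y → 0 ≤ ν y) (i : ι) {x : ℝ} (hx : x ≤ -M - L₁) :
    ∫ y, S.kb i (x - y) * cutf ν M η' B₁ B y ≤
      S.C * Real.exp (-L₁) * ∫ y in Ioi (-M), Real.exp (-(y - -M)) * ν y := by
  have hC := S.hC
  rw [ex_cut_set, ← integral_const_mul]
  have i2 := ex_cut_int (B₁ := B₁) (B := B) (S.hkb i).cont (S.hkb i).left hκ1 hη0 hη1 hν hνom
    hν0 x
  have i3 : IntegrableOn (fun y => Real.exp (-(y - -M)) * ν y) (Ioi (-M)) := by
    have := ex_ik (k := fun s => Real.exp s) (C := 1) Real.continuous_exp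
      (fun s _ => by rw [abs_of_pos (Real.exp_pos _), one_mul]) hκ1 hν hνom (-M) (-M)
    simpa only [neg_sub] using this
  refine setIntegral_mono_on i2 (i3.const_mul _) measurableSet_Ioi fun y hy => ?_
  have hy' : -M < y := hy
  have h3 := hν0 y hy'.le
  obtain ⟨h4, h5⟩ := ex_cut_bd (M := M) (B₁ := B₁) (B := B) hη0 hη1 h3
  have h6 := (S.hkb i).left (x - y) (by linarith)
  have h7 : S.kb i (x - y) ≤ S.C * Real.exp (-L₁) * Real.exp (-(y - -M)) := by
    refine (le_abs_self _).trans (h6.trans ?_)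
    rw [mul_assoc, ← Real.exp_add]
    refine mul_le_mul_of_nonneg_left (Real.exp_le_exp.2 (by linarith)) (by linarith)
  calc S.kb i (x - y) * cutf ν M η' B₁ B y
      ≤ S.C * Real.exp (-L₁) * Real.exp (-(y - -M)) * cutf ν M η' B₁ B y :=
        mul_le_mul_of_nonneg_right h7 h4
    _ ≤ S.C * Real.exp (-L₁) * Real.exp (-(y - -M)) * ν y := by
        refine mul_le_mul_of_nonneg_left h5 ?_
        positivity
    _ = S.C * Real.exp (-L₁) * (Real.exp (-(y - -M)) * ν y) := by ring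

end Sys

end Pool.Agent.IND2I
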