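import Pool.Agent.IND2I.Bg

/-!
# IND2I, module WG: growth rate less than one of every feasible density

PROOF.  Fix `i₀ : ι`.  Put `W x = ∫_{Ioi x} e^{-(y-x)} ν y dy` (finite: `ν = om` eventually, `κ < 1`),
`G x = ∫_{Ioc (-M) x} ν`.  For `x ≥ -M` use the constraint `Feas.cb i₀ (x - L)` (`x - L ≥ -M - L₁`): for `y > x`
`kb i₀ (x - L - y) ≥ c e^{-L} e^{-(y - x)}` (`low`), for `-M < y ≤ x` it is `≥ -(β i₀ + C)` (`kb_abs`), and
`pb (x - L) ≥ -β i₀ Λ - a (C/γ + (2 β i₀ + C) L)` (`tail_kb_bdd` with `R = L`).  So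
`c e^{-L} W x ≤ |cb i₀| + β i₀ Λ + a (..) + (β i₀ + C) G x`, i.e. `W x ≤ C' (Λ + G x)` with `C' ≥ 1` independent of
`L₁, κ, η, Λ ≥ 1, M`.
`H x = Λ + G x + W x` is differentiable on `(-M, ∞)` with `H' = ν + (W - ν) = W` (`W x = e^x ∫_{Ioi x} e^{-y} ν y dy`, `ν`
continuous).  As `(1 + C') W ≤ C' H`, `H' ≤ θ H` with `θ = C'/(1 + C') < 1`, so
`H x ≤ H (-M) e^{θ (x + M)} ≤ (Λ + C' Λ) e^{θ (x + M)}` (`H x e^{-θ x}` is antitone on `[-M, ∞)`; continuity at `-M`).
Take `Cw = 1 + C'`.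
-/

set_option autoImplicit false

namespace Pool.Agent.IND2I

open MeasureTheory Set

private lemma wg_ik {k ν : ℝ → ℝ} {C κ η Λ M : ℝ} (hk : Continuous k)
    (hkl : ∀ s, s ≤ 0 → |k s| ≤ C * Real.exp s) (hκ1 : κ < 1) (hν : Continuous ν)
    (hνom : ∃ R, ∀ y, R ≤ y → ν y = om κ η Λ M y) (x A : ℝ) :
    IntegrableOn (fun y => k (x - y) * ν y) (Ioi A) := by
  obtain ⟨R, hR⟩ := hνom
  obtain ⟨B, hB⟩ : ∃ B, B = max A (max x R) := ⟨_, rfl⟩
  have hAB : A ≤ B := hB ▸ le_max_left _ _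
  have hxB : x ≤ B := hB ▸ (le_max_left _ _).trans (le_max_right _ _)
  have hRB : R ≤ B := hB ▸ (le_max_right _ _).trans (le_max_right _ _)
  have hc : Continuous fun y => k (x - y) * ν y := by fun_prop
  rw [← Ioc_union_Ioi_eq_Ioi hAB]
  refine IntegrableOn.union hc.integrableOn_Ioc ?_
  have h1 : IntegrableOn (fun y => Real.exp (-(1 - κ) * y)) (Ioi B) :=
    integrableOn_exp_mul_Ioi (by linarith) B
  have h2 := h1.const_mul (C * Real.exp x * |η * Λ| * Real.exp (κ * M))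
  refine Integrable.mono' h2 hc.aestronglyMeasurable ?_
  refine (ae_restrict_iff' measurableSet_Ioi).2 (Filter.Eventually.of_forall fun y hy => ?_)
  have hy' : B < y := hy
  rw [Real.norm_eq_abs, abs_mul, hR y (by linarith), om, abs_mul, abs_of_pos (Real.exp_pos _)]
  have h3 := hkl (x - y) (by linarith)
  calc |k (x - y)| * (|η * Λ| * Real.exp (κ * (y + M)))
      ≤ (C * Real.exp (x - y)) * (|η * Λ| * Real.exp (κ * (y + M))) := by gcongr
    _ = C * Real.exp x * |η * Λ| * Real.exp (κ * M) * Real.exp (-(1 - κ) * y) := by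
        rw [sub_eq_add_neg, Real.exp_add, show κ * (y + M) = κ * M + κ * y by ring, Real.exp_add,
          show -(1 - κ) * y = κ * y + -y by ring, Real.exp_add]
        ring

/-- the differential inequality -/
private lemma wg_ode {ν : ℝ → ℝ} {M Λ C' F₀ : ℝ} (hC' : 0 ≤ C') (hν : Continuous ν)
    (hW : ∀ x, -M ≤ x → Real.exp x * (F₀ - ∫ y in (-M)..x, Real.exp (-y) * ν y) ≤
      C' * (Λ + ∫ y in (-M)..x, ν y)) {x : ℝ} (hx : -M ≤ x) :
    Λ + (∫ y in (-M)..x, ν y) + Real.exp x * (F₀ - ∫ y in (-M)..x, Real.exp (-y) * ν y) ≤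
      (1 + C') * Λ * Real.exp (C' / (1 + C') * (x + M)) := by
  obtain ⟨θ, hθ⟩ : ∃ θ, θ = C' / (1 + C') := ⟨_, rfl⟩
  have h1C : 0 < 1 + C' := by linarith
  have hθC : (1 + C') * θ = C' := by rw [hθ]; field_simp
  obtain ⟨W, hWd⟩ : ∃ W : ℝ → ℝ, W = fun x =>
    Real.exp x * (F₀ - ∫ y in (-M)..x, Real.exp (-y) * ν y) := ⟨_, rfl⟩
  obtain ⟨H, hH⟩ : ∃ H : ℝ → ℝ, H = fun x => Λ + (∫ y in (-M)..x, ν y) + W x := ⟨_, rfl⟩
  have hc2 : Continuous fun y => Real.exp (-y) * ν y := by fun_prop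
  have hder : ∀ x, HasDerivAt H (W x) x := by
    intro x
    have d1 : HasDerivAt (fun x => ∫ y in (-M)..x, ν y) (ν x) x :=
      intervalIntegral.integral_hasDerivAt_right (hν.intervalIntegrable _ _)
        hν.aestronglyMeasurable.stronglyMeasurableAtFilter hν.continuousAt
    have d2 : HasDerivAt (fun x => ∫ y in (-M)..x, Real.exp (-y) * ν y)
        (Real.exp (-x) * ν x) x :=
      intervalIntegral.integral_hasDerivAt_right (hc2.intervalIntegrable _ _)
        hc2.aestronglyMeasurable.stronglyMeasurableAtFilter hc2.continuousAt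
    have d3 := (Real.hasDerivAt_exp x).mul (d2.const_sub F₀)
    have d4 := (d1.const_add Λ).add d3
    rw [hH, hWd]
    refine d4.congr_deriv ?_
    have : Real.exp x * Real.exp (-x) = 1 := by rw [← Real.exp_add]; simp
    linear_combination (-(ν x)) * this
  have hWH : ∀ x, -M ≤ x → W x ≤ θ * H x := by
    intro x hx
    have h1 := hW x hx
    have h2 : H x = Λ + (∫ y in (-M)..x, ν y) + W x := by rw [hH]
    have h3 : W x ≤ C' * (Λ + ∫ y in (-M)..x, ν y) := by rw [hWd]; exact h1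
    have h4 : (1 + C') * W x ≤ (1 + C') * (θ * H x) := by
      rw [← mul_assoc, hθC, h2]
      nlinarith
    exact le_of_mul_le_mul_left h4 h1C
  have hder2 : ∀ x, HasDerivAt (fun x => H x * Real.exp (-θ * (x + M)))
      ((W x - θ * H x) * Real.exp (-θ * (x + M))) x := by
    intro x
    have e1 : HasDerivAt (fun x => Real.exp (-θ * (x + M)))
        (Real.exp (-θ * (x + M)) * (-θ * 1)) x :=
      (((hasDerivAt_id x).add_const M).const_mul (-θ)).exp
    refine ((hder x).mul e1).congr_deriv ?_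
    ring
  have hanti : AntitoneOn (fun x => H x * Real.exp (-θ * (x + M))) (Ici (-M)) := by
    refine antitoneOn_of_deriv_nonpos (convex_Ici _)
      (fun x _ => (hder2 x).continuousAt.continuousWithinAt)
      (fun x _ => (hder2 x).differentiableAt.differentiableWithinAt) fun x hx => ?_
    rw [(hder2 x).deriv]
    rw [interior_Ici] at hx
    have := hWH x (le_of_lt hx)
    exact mul_nonpos_of_nonpos_of_nonneg (by linarith) (Real.exp_pos _).le
  have h5 := hanti (mem_Ici.2 (le_refl (-M))) (mem_Ici.2 hx) hx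
  have h6 : H (-M) ≤ (1 + C') * Λ := by
    have := hW (-M) le_rfl
    have h2 : H (-M) = Λ + (∫ y in (-M)..(-M), ν y) + W (-M) := by rw [hH]
    have h3 : W (-M) ≤ C' * (Λ + ∫ y in (-M)..(-M), ν y) := by rw [hWd]; exact this
    rw [intervalIntegral.integral_same] at h2 h3
    linarith
  have h7 : H x * Real.exp (-θ * (x + M)) ≤ (1 + C') * Λ := by
    refine h5.trans ?_
    simpa using h6
  have h8 : Real.exp (-θ * (x + M)) * Real.exp (θ * (x + M)) = 1 := by
    rw [← Real.exp_add]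
    simp
  have h9 : H x = H x * Real.exp (-θ * (x + M)) * Real.exp (θ * (x + M)) := by
    rw [mul_assoc, h8, mul_one]
  have h10 : H x ≤ (1 + C') * Λ * Real.exp (θ * (x + M)) := by
    rw [h9]
    exact mul_le_mul_of_nonneg_right h7 (Real.exp_pos _).le
  rw [hH, hWd, hθ] at h10
  exact h10

namespace Sys

variable {ι lam : Type} [Fintype ι] [Fintype lam] (S : Sys ι lam)

theorem wg [Nonempty ι] {a : ℝ} (ha : 0 ≤ a) :
    ∃ Cw θ : ℝ, 1 ≤ Cw ∧ 0 < θ ∧ θ < 1 ∧ ∀ (κ η Λ M L₁ : ℝ) (ν : ℝ → ℝ), 0 < κ → κ < 1 →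
      0 ≤ M → 1 ≤ Λ → S.L ≤ L₁ → Continuous ν →
      (∃ R, ∀ y, R ≤ y → ν y = om κ η Λ M y) → S.Feas a Λ M L₁ ν →
      ∀ x, -M ≤ x →
        IntegrableOn (fun y => Real.exp (-(y - x)) * ν y) (Ioi x) ∧
        (∫ y in Ioi x, Real.exp (-(y - x)) * ν y) + ∫ y in Ioc (-M) x, ν y ≤
          Cw * Λ * Real.exp (θ * (x + M)) := by
  obtain ⟨i₀⟩ := ‹Nonempty ι›
  have hC := S.hC
  have hc := S.hc
  have hL := S.hL
  have hβ := S.hβ i₀
  have hγ0 := S.hγ0
  obtain ⟨E, hE⟩ : ∃ E, E = |S.cb i₀| + S.β i₀ +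
    a * (S.C / S.γ + (2 * S.β i₀ + S.C) * S.L) + (S.β i₀ + S.C) := ⟨_, rfl⟩
  have hE1 : 0 ≤ a * (S.C / S.γ + (2 * S.β i₀ + S.C) * S.L) := by
    have : 0 ≤ S.C / S.γ := by positivity
    have : 0 ≤ (2 * S.β i₀ + S.C) * S.L := by positivity
    positivity
  have hE0 : 0 < E := by
    have := abs_nonneg (S.cb i₀)
    linarith
  obtain ⟨q, hq⟩ : ∃ q, q = S.c * Real.exp (-S.L) := ⟨_, rfl⟩
  have hq0 : 0 < q := by rw [hq]; positivity
  have hC'0 : 0 < E / q := by positivity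
  refine ⟨1 + E / q, E / q / (1 + E / q), by linarith, by positivity, ?_, ?_⟩
  · rw [div_lt_one (by linarith)]
    linarith
  intro κ η Λ M L₁ ν hκ hκ1 hM hΛ hL₁ hν hνom hF x hx
  have hexp : ∀ x A, IntegrableOn (fun y => Real.exp (x - y) * ν y) (Ioi A) := by
    intro x A
    refine wg_ik (C := 1) (k := fun s => Real.exp s) Real.continuous_exp ?_ hκ1 hν hνom x A
    intro s _
    rw [abs_of_pos (Real.exp_pos _), one_mul]
  have hexp' : ∀ x A, IntegrableOn (fun y => Real.exp (-(y - x)) * ν y) (Ioi A) := by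
    intro x A
    have := hexp x A
    simpa only [neg_sub] using this
  refine ⟨hexp' x x, ?_⟩
  obtain ⟨F₀, hF₀⟩ : ∃ F₀, F₀ = ∫ y in Ioi (-M), Real.exp (-y) * ν y := ⟨_, rfl⟩
  have hint0 : ∀ A, IntegrableOn (fun y => Real.exp (-y) * ν y) (Ioi A) := by
    intro A
    have := hexp 0 A
    simpa only [zero_sub] using this
  have hWeq : ∀ x, -M ≤ x → (∫ y in Ioi x, Real.exp (-(y - x)) * ν y) =
      Real.exp x * (F₀ - ∫ y in (-M)..x, Real.exp (-y) * ν y) := by
    intro x hx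
    have e1 : F₀ = (∫ y in (-M)..x, Real.exp (-y) * ν y) + ∫ y in Ioi x, Real.exp (-y) * ν y := by
      rw [hF₀, intervalIntegral.integral_of_le hx, ← Ioc_union_Ioi_eq_Ioi hx]
      refine setIntegral_union Ioc_disjoint_Ioi_same measurableSet_Ioi ?_ (hint0 x)
      exact (hint0 (-M)).mono_set Ioc_subset_Ioi_self
    rw [e1, add_sub_cancel_left, ← integral_const_mul]
    refine integral_congr_ae (Filter.Eventually.of_forall fun y => ?_)
    simp only
    rw [← mul_assoc, ← Real.exp_add]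
    congr 2
    ring
  have hGeq : ∀ x, -M ≤ x → (∫ y in Ioc (-M) x, ν y) = ∫ y in (-M)..x, ν y := by
    intro x hx
    rw [intervalIntegral.integral_of_le hx]
  rw [hWeq x hx, hGeq x hx]
  have hmain := wg_ode (ν := ν) (M := M) (Λ := Λ) (C' := E / q) (F₀ := F₀) hC'0.le hν ?_ hx
  · linarith
  intro x hx
  rw [← hWeq x hx, ← hGeq x hx]
  -- the constraint at `x - L`
  have h1 := hF.cb i₀ (x - S.L) (by linarith)
  have hnn := hF.nonneg
  have hkint : ∀ A, IntegrableOn (fun y => S.kb i₀ (x - S.L - y) * ν y) (Ioi A) := fun A =>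
    wg_ik (S.hkb i₀).cont (S.hkb i₀).left hκ1 hν hνom (x - S.L) A
  have h2 : -(S.β i₀ * Λ) - a * (S.C / S.γ + (2 * S.β i₀ + S.C) * S.L) ≤
      S.pb a Λ M i₀ (x - S.L) := by
    unfold pb
    have := (abs_le.1 (S.tail_kb_bdd i₀ (R := S.L) (t := x - S.L + M) (by linarith)
      (by linarith))).1
    have h3 := mul_le_mul_of_nonneg_left this ha
    linarith
  have h3 : (∫ y in Ioi (-M), S.kb i₀ (x - S.L - y) * ν y) =
      (∫ y in Ioc (-M) x, S.kb i₀ (x - S.L - y) * ν y) +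
        ∫ y in Ioi x, S.kb i₀ (x - S.L - y) * ν y := by
    rw [← Ioc_union_Ioi_eq_Ioi hx]
    refine setIntegral_union Ioc_disjoint_Ioi_same measurableSet_Ioi ?_ (hkint x)
    exact (hkint (-M)).mono_set Ioc_subset_Ioi_self
  have h4 : -(S.β i₀ + S.C) * ∫ y in Ioc (-M) x, ν y ≤
      ∫ y in Ioc (-M) x, S.kb i₀ (x - S.L - y) * ν y := by
    rw [← integral_const_mul]
    refine setIntegral_mono_on ((hν.integrableOn_Ioc).const_mul _)
      ((hkint (-M)).mono_set Ioc_subset_Ioi_self) measurableSet_Ioc fun y hy => ?_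
    have h5 := (abs_le.1 (S.kb_abs i₀ (x - S.L - y))).1
    have h6 := hnn y hy.1.le
    exact mul_le_mul_of_nonneg_right (by linarith) h6
  have h5 : q * (∫ y in Ioi x, Real.exp (-(y - x)) * ν y) ≤
      ∫ y in Ioi x, S.kb i₀ (x - S.L - y) * ν y := by
    rw [← integral_const_mul]
    refine setIntegral_mono_on ((hexp' x x).const_mul _) (hkint x) measurableSet_Ioi
      fun y hy => ?_
    have hy' : x < y := hy
    have h6 := hnn y (by linarith)
    have h7 := (S.hkb i₀).low (x - S.L - y) (by linarith)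
    rw [← mul_assoc]
    refine mul_le_mul_of_nonneg_right ?_ h6
    refine le_of_eq_of_le ?_ h7
    rw [hq, mul_assoc, ← Real.exp_add]
    congr 2
    ring
  have hG0 : 0 ≤ ∫ y in Ioc (-M) x, ν y :=
    setIntegral_nonneg measurableSet_Ioc fun y hy => hnn y hy.1.le
  have h6 : q * (∫ y in Ioi x, Real.exp (-(y - x)) * ν y) ≤
      E * (Λ + ∫ y in Ioc (-M) x, ν y) := by
    have h7 := le_abs_self (S.cb i₀)
    have h8 := abs_nonneg (S.cb i₀)
    have h9 : q * (∫ y in Ioi x, Real.exp (-(y - x)) * ν y) ≤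
        |S.cb i₀| + S.β i₀ * Λ + a * (S.C / S.γ + (2 * S.β i₀ + S.C) * S.L) +
          (S.β i₀ + S.C) * ∫ y in Ioc (-M) x, ν y := by linarith
    refine h9.trans ?_
    have e1 : |S.cb i₀| ≤ |S.cb i₀| * Λ := le_mul_of_one_le_right h8 hΛ
    have e2 : a * (S.C / S.γ + (2 * S.β i₀ + S.C) * S.L) ≤
        a * (S.C / S.γ + (2 * S.β i₀ + S.C) * S.L) * Λ := le_mul_of_one_le_right hE1 hΛ
    have e3 : (S.β i₀ + S.C) * (∫ y in Ioc (-M) x, ν y) ≤ E * ∫ y in Ioc (-M) x, ν y :=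
      mul_le_mul_of_nonneg_right (by linarith) hG0
    have e4 : E * Λ = |S.cb i₀| * Λ + S.β i₀ * Λ +
        a * (S.C / S.γ + (2 * S.β i₀ + S.C) * S.L) * Λ + (S.β i₀ + S.C) * Λ := by
      rw [hE]; ring
    have e5 : 0 ≤ (S.β i₀ + S.C) * Λ := by positivity
    linarith
  rw [div_mul_eq_mul_div, le_div_iff₀ hq0]
  linarith

end Sys

end Pool.Agent.IND2I
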