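import Pool.Agent.IND2I.LP
import Pool.Agent.IND2I.WG
import Pool.Agent.IND2I.ExB
import Pool.Agent.IND2I.ExL
import Pool.Agent.IND2I.ExT

/-!
# IND2I, module Exit: the patch for a supercritical target

PROOF.  `wg` gives `Cw, θ` (independent of `L₁`).  Choose `L₁ ≥ max L 0` with `C e^{-L₁} Cw ≤ β_min/4`.  `half_lp` gives
`κ, η, A₁, Λ₂` (`κ < γ/2 < 1`) and for `Λ ≥ Λ₂` the density `ν`, `M = A₁ log Λ`.  `S₀` = a bound for the changes of sign of all `kb i`
(finite type; choose), `S₀ ≥ 0`.  Put `Cη = max_i (|cb i| + a C/γ + a' 4C/γ)/β i` and `η' = Cη/Λ`, `B₁ = b₁ log Λ` with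
`b₁ = (θ A₁ + 2)/(1 - θ)`, `B₀ = B₁ + S₀ + log (1 + 2 a' C/ε)`, `B = b₂ log Λ` with `b₂ = (2 + b₁ + θ A₁)/(1 - θ) + b₁`,
`ρ = cutf ν M η' B₁ B`.  For `Λ ≥ Λ₀` everything holds: write `Λ = e^{log Λ}`.
`C e^{-B₁} W(B₁) ≤ C Cw Λ e^{θ (B₁ + M) - B₁} = C Cw Λ^{1 + θ A₁ - (1-θ) b₁} = C Cw/Λ ≤ ε/2`;
`C e^{B₀ - B} W(B) ≤ C Cw e^{S₀} (1 + 2a'C/ε) Λ^{1 + b₁ + θ A₁ - (1 - θ) b₂} ≤ ../Λ ≤ ε/2`; `η' |cl j| ≤ ε/2`; `η' ≤ 1`;
`S₀ - M ≤ B₁`, `B₁ ≤ B`, `B₀ ≤ B` for large `Λ`.  `exit_b, exit_l, exit_t, exit_bl`.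
Mass: `∫ ρ ≤ ∫_{Ioc (-M) B} ν ≤ Cw Λ e^{θ (B + M)} ≤ Λ^{A}` for large `A`.  `ρ` is measurable (piecewise continuous), bounded
with support in `[-M, B]`, so integrable.  `exit_bl` with `wg` at `x = -M`: `≤ C e^{-L₁} Cw Λ ≤ β i Λ/4`.
-/

set_option autoImplicit false

namespace Pool.Agent.IND2I

open MeasureTheory Set

namespace Sys

variable {ι lam : Type} [Fintype ι] [Fintype lam] (S : Sys ι lam)

private theorem ex_meas {ν : ℝ → ℝ} (hν : Continuous ν) (M η' B₁ B : ℝ) :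
    Measurable (cutf ν M η' B₁ B) := by
  unfold cutf
  refine Measurable.ite measurableSet_Iic measurable_const ?_
  refine Measurable.ite measurableSet_Iio hν.measurable ?_
  exact Measurable.ite measurableSet_Iio (hν.measurable.const_mul _) measurable_const

private theorem ex_nonneg {ν : ℝ → ℝ} {M η' B₁ B : ℝ} (h0 : ∀ y, -M ≤ y → 0 ≤ ν y)
    (hη : η' ≤ 1) (y : ℝ) : 0 ≤ cutf ν M η' B₁ B y := by
  unfold cutf
  split_ifs with h1 h2 h3
  · exact le_rfl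
  · exact h0 y (not_le.1 h1).le
  · exact mul_nonneg (by linarith) (h0 y (not_le.1 h1).le)
  · exact le_rfl

private theorem ex_supp {ν : ℝ → ℝ} {M η' B₁ B : ℝ} (hB : B₁ ≤ B) {y : ℝ}
    (hy : y ∉ Icc (-M) B) : cutf ν M η' B₁ B y = 0 := by
  unfold cutf
  split_ifs with h1 h2 h3
  · rfl
  · exact (hy (mem_Icc.2 ⟨(not_le.1 h1).le, (h2.trans_le hB).le⟩)).elim
  · exact (hy (mem_Icc.2 ⟨(not_le.1 h1).le, h3.le⟩)).elim
  · rfl

private theorem ex_le {ν : ℝ → ℝ} {M η' B₁ B : ℝ} (h0 : ∀ y, -M ≤ y → 0 ≤ ν y)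
    (hη0 : 0 ≤ η') (hB : B₁ ≤ B) (y : ℝ) :
    cutf ν M η' B₁ B y ≤ (Ioc (-M) B).indicator ν y := by
  unfold cutf
  split_ifs with h1 h2 h3
  · exact indicator_nonneg (fun z hz => h0 z hz.1.le) y
  · rw [indicator_of_mem (mem_Ioc.2 ⟨not_le.1 h1, (h2.trans_le hB).le⟩)]
  · rw [indicator_of_mem (mem_Ioc.2 ⟨not_le.1 h1, h3.le⟩)]
    have := h0 y (not_le.1 h1).le
    nlinarith
  · exact indicator_nonneg (fun z hz => h0 z hz.1.le) y

theorem exit [Nonempty ι] (hM : S.HypM) (hV : S.HypV) {a a' ε : ℝ} (ha : 0 ≤ a) (ha' : 0 ≤ a')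
    (hal : ∀ j, a * ∫ s in Ioi (0 : ℝ), S.kl j s < S.cl j)
    (hal' : ∀ j, a' * ∫ s in Iio (0 : ℝ), S.kl j s < S.cl j) (hε : 0 < ε) :
    ∃ L₁ A Λ₀ : ℝ, 0 ≤ L₁ ∧ 1 ≤ A ∧ 1 ≤ Λ₀ ∧ ∀ Λ, Λ₀ ≤ Λ → ∃ (M B₀ B : ℝ) (ρ : ℝ → ℝ),
      0 ≤ M ∧ M ≤ A * Real.log Λ ∧ 0 ≤ B₀ ∧ B₀ ≤ B ∧ B ≤ A * Real.log Λ ∧ Measurable ρ ∧
      (∀ y, 0 ≤ ρ y) ∧ (∀ y, y ∉ Icc (-M) B → ρ y = 0) ∧ Integrable ρ ∧
      ∫ y, ρ y ≤ Real.exp (A * Real.log Λ) ∧
      (∀ i x, -M - L₁ ≤ x → S.pb a Λ M i x + (∫ y, S.kb i (x - y) * ρ y)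
        + a' * ∫ y in Ioi B₀, S.kb i (x - y) ≤ S.cb i + ε) ∧
      (∀ i x, x ≤ -M - L₁ → ∫ y, S.kb i (x - y) * ρ y ≤ S.β i * Λ / 4) ∧
      (∀ j x, S.pl a M j x + (∫ y, S.kl j (x - y) * ρ y)
        + a' * ∫ y in Ioi B₀, S.kl j (x - y) ≤ S.cl j + ε) ∧
      S.v - ε ≤ S.p0 a Λ M 0 + (∫ y, S.k₀ (0 - y) * ρ y)
        + a' * ∫ y in Ioi B₀, S.k₀ (0 - y) := by
  obtain ⟨Cw, θ, hCw, hθ0, hθ1, hwg⟩ := S.wg ha
  have hγ0 := S.hγ0
  have hγ1 := S.hγ1
  have hC1 := S.hC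
  have hC0 : 0 < S.C := by linarith
  have hCw0 : 0 < Cw := by linarith
  have h1θ : 0 < 1 - θ := by linarith
  -- the choice of `L₁`
  obtain ⟨L₁, hL₁S, hL₁β⟩ : ∃ L₁ : ℝ, S.L ≤ L₁ ∧
      ∀ i, S.C * Real.exp (-L₁) * Cw ≤ S.β i / 4 := by
    refine ⟨S.L + ∑ i, |Real.log (4 * S.C * Cw / S.β i)|, ?_, ?_⟩
    · have : 0 ≤ ∑ i, |Real.log (4 * S.C * Cw / S.β i)| :=
        Finset.sum_nonneg fun _ _ => abs_nonneg _
      linarith
    · intro i
      have hβ := S.hβ i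
      have h1 : Real.log (4 * S.C * Cw / S.β i) ≤
          S.L + ∑ i, |Real.log (4 * S.C * Cw / S.β i)| := by
        have h2 : |Real.log (4 * S.C * Cw / S.β i)| ≤
            ∑ i, |Real.log (4 * S.C * Cw / S.β i)| :=
          Finset.single_le_sum (f := fun i => |Real.log (4 * S.C * Cw / S.β i)|)
            (fun _ _ => abs_nonneg _) (Finset.mem_univ i)
        have h3 := le_abs_self (Real.log (4 * S.C * Cw / S.β i))
        have h4 := S.hL
        linarith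
      have h5 : Real.exp (-(S.L + ∑ i, |Real.log (4 * S.C * Cw / S.β i)|)) ≤
          (4 * S.C * Cw / S.β i)⁻¹ := by
        rw [← Real.exp_log (show 0 < 4 * S.C * Cw / S.β i by positivity), ← Real.exp_neg,
          Real.exp_le_exp, neg_le_neg_iff]
        exact h1
      calc S.C * Real.exp (-(S.L + ∑ i, |Real.log (4 * S.C * Cw / S.β i)|)) * Cw ≤
            S.C * (4 * S.C * Cw / S.β i)⁻¹ * Cw := by gcongr
        _ = S.β i / 4 := by
            field_simp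
  have hL₁0 : 0 ≤ L₁ := by
    have := S.hL
    linarith
  obtain ⟨κ, η, A₁, Λ₂, hκ0, hκγ, hη0, hA₁, hΛ₂, hlp⟩ := S.half_lp hM hV ha hal hL₁0
  have hκ1 : κ < 1 := by linarith
  -- the changes of sign
  choose s₀ hs₀ using fun i => (S.hkb i).sign
  set S₀ : ℝ := ∑ i, |s₀ i| with hS₀
  have hS₀0 : 0 ≤ S₀ := Finset.sum_nonneg fun _ _ => abs_nonneg _
  have hs₀le : ∀ i, |s₀ i| ≤ S₀ := fun i =>
    Finset.single_le_sum (f := fun i => |s₀ i|) (fun _ _ => abs_nonneg _) (Finset.mem_univ i)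
  -- the constant in `η'`
  set Q : ι → ℝ := fun i => |S.cb i| + a * (S.C / S.γ) + a' * (4 * S.C / S.γ) with hQ
  have hQ0 : ∀ i, 0 ≤ Q i := fun i => by
    rw [hQ]
    positivity
  set Cη : ℝ := ∑ i, Q i / S.β i with hCη
  have hCη0 : 0 ≤ Cη := Finset.sum_nonneg fun i _ => div_nonneg (hQ0 i) (S.hβ i).le
  have hQle : ∀ i, Q i ≤ Cη * S.β i := by
    intro i
    have h1 : Q i / S.β i ≤ Cη := Finset.single_le_sum (f := fun i => Q i / S.β i)
      (fun i _ => div_nonneg (hQ0 i) (S.hβ i).le) (Finset.mem_univ i)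
    rwa [div_le_iff₀ (S.hβ i)] at h1
  set T : ℝ := S₀ + Real.log (1 + 2 * a' * S.C / ε) with hT
  have hE1 : 1 ≤ 1 + 2 * a' * S.C / ε := by
    have : 0 ≤ 2 * a' * S.C / ε := by positivity
    linarith
  have hlogE : 0 ≤ Real.log (1 + 2 * a' * S.C / ε) := Real.log_nonneg hE1
  have hT0 : 0 ≤ T := by positivity
  have hT1 : S₀ ≤ T := by linarith
  -- the exponents
  set b₁ : ℝ := (θ * A₁ + 2) / (1 - θ) with hb₁
  have hb₁e : (1 - θ) * b₁ = θ * A₁ + 2 := by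
    rw [hb₁]
    field_simp
  have hθA : 0 ≤ θ * A₁ := by positivity
  have hb₁2 : 2 ≤ b₁ := by nlinarith
  set b₂ : ℝ := (2 + b₁ + θ * A₁) / (1 - θ) + b₁ with hb₂
  have hb₂e : (1 - θ) * (b₂ - b₁) = 2 + b₁ + θ * A₁ := by
    rw [hb₂]
    field_simp
    ring
  have hb₂1 : b₁ + 1 ≤ b₂ := by nlinarith
  set A : ℝ := A₁ + b₂ + 2 + θ * (b₂ + A₁) with hA
  set X : ℝ := 2 * S.C * Cw * Real.exp S₀ * (1 + 2 * a' * S.C / ε) / ε with hX
  have hX0 : 0 ≤ X := by positivity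
  set Y : ℝ := ∑ j, 2 * Cη * |S.cl j| / ε with hY
  have hY0 : 0 ≤ Y := Finset.sum_nonneg fun j _ => by positivity
  have hb₂0 : 0 ≤ b₂ := by linarith
  have hθb : 0 ≤ θ * (b₂ + A₁) := by
    have : 0 ≤ b₂ + A₁ := by linarith
    positivity
  refine ⟨L₁, A, Λ₂ + Cη + Real.exp T + X + Y + Cw, hL₁0, by linarith, ?_, ?_⟩
  · have := Real.exp_pos T
    linarith
  intro Λ hΛ
  have hexT := Real.exp_pos T
  have hΛa : Λ₂ ≤ Λ := by linarith
  have hΛb : Cη ≤ Λ := by linarith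
  have hΛc : Real.exp T ≤ Λ := by linarith
  have hΛd : X ≤ Λ := by linarith
  have hΛe : Y ≤ Λ := by linarith
  have hΛf : Cw ≤ Λ := by linarith
  have hΛ1 : 1 ≤ Λ := by linarith
  have hΛ0 : 0 < Λ := by linarith
  set l : ℝ := Real.log Λ with hl
  have hΛl : Λ = Real.exp l := (Real.exp_log hΛ0).symm
  have hl0 : 0 ≤ l := Real.log_nonneg hΛ1
  have hTl : T ≤ l := by
    rw [hl, Real.le_log_iff_exp_le hΛ0]
    exact hΛc
  obtain ⟨ν, hνc, hνom, hF⟩ := hlp Λ hΛa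
  set M : ℝ := A₁ * l with hMdef
  have hM0 : 0 ≤ M := by positivity
  have hW := hwg κ η Λ M L₁ ν hκ0 hκ1 hM0 hΛ1 hL₁S hνc hνom hF
  have hν0 := hF.nonneg
  set B₁ : ℝ := b₁ * l with hB₁
  set B₀ : ℝ := B₁ + T with hB₀
  set B : ℝ := b₂ * l with hB
  have hB₁0 : 0 ≤ B₁ := by positivity
  have hB₀0 : 0 ≤ B₀ := by positivity
  have hB1B : B₁ ≤ B := by
    rw [hB₁, hB]
    exact mul_le_mul_of_nonneg_right (by linarith) hl0
  have hB0B : B₀ ≤ B := by
    have : (b₁ + 1) * l ≤ b₂ * l := mul_le_mul_of_nonneg_right hb₂1 hl0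
    rw [hB₀, hB₁, hB]
    linarith
  have hB0' : 0 ≤ B := hB₀0.trans hB0B
  set η' : ℝ := Cη / Λ with hη'
  have hη'0 : 0 ≤ η' := by positivity
  have hη'1 : η' ≤ 1 := by
    rw [hη', div_le_one hΛ0]
    exact hΛb
  have hη'Λ : η' * Λ = Cη := by
    rw [hη']
    field_simp
  -- the integrals of `ν`
  have hWpos : ∀ x, -M ≤ x → 0 ≤ ∫ y in Ioi x, Real.exp (-(y - x)) * ν y := by
    intro x hx
    refine setIntegral_nonneg measurableSet_Ioi fun y hy => ?_
    exact mul_nonneg (Real.exp_pos _).le (hν0 y (hx.trans (le_of_lt hy)))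
  have hGpos : ∀ x, 0 ≤ ∫ y in Ioc (-M) x, ν y := by
    intro x
    exact setIntegral_nonneg measurableSet_Ioc fun y hy => hν0 y hy.1.le
  have hWle : ∀ x, -M ≤ x → ∫ y in Ioi x, Real.exp (-(y - x)) * ν y ≤
      Cw * Λ * Real.exp (θ * (x + M)) := by
    intro x hx
    have h1 := (hW x hx).2
    have h2 := hGpos x
    linarith
  have hMB₁ : -M ≤ B₁ := by linarith
  have hMB : -M ≤ B := by linarith
  have hexT2 : Real.exp T = Real.exp S₀ * (1 + 2 * a' * S.C / ε) := by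
    rw [hT, Real.exp_add, Real.exp_log (by linarith)]
  -- the smallness conditions
  have hE : a' * S.C * Real.exp (B₁ + S₀ - B₀) ≤ ε / 2 := by
    have h1 : B₁ + S₀ - B₀ = -Real.log (1 + 2 * a' * S.C / ε) := by
      rw [hB₀, hT]
      ring
    rw [h1, Real.exp_neg, Real.exp_log (by linarith), ← div_eq_mul_inv,
      div_le_iff₀ (by linarith)]
    have h2 : ε / 2 * (1 + 2 * a' * S.C / ε) = ε / 2 + a' * S.C := by
      field_simp
    rw [h2]
    linarith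
  have hE2 : a' * S.C * Real.exp (-B₀) ≤ ε / 2 := by
    refine le_trans ?_ hE
    refine mul_le_mul_of_nonneg_left ?_ (by positivity)
    rw [Real.exp_le_exp]
    linarith
  have hX1 : S.C * Cw * Real.exp T * Real.exp (-l) ≤ ε / 2 := by
    rw [Real.exp_neg, ← hΛl, ← div_eq_mul_inv, div_le_iff₀ hΛ0, hexT2]
    have h1 : S.C * Cw * (Real.exp S₀ * (1 + 2 * a' * S.C / ε)) = ε / 2 * X := by
      rw [hX]
      field_simp
    rw [h1]
    exact mul_le_mul_of_nonneg_left hΛd (by linarith)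
  have hT1' : 1 ≤ Real.exp T := Real.one_le_exp hT0
  have hX2 : S.C * Cw * Real.exp (-l) ≤ ε / 2 := by
    refine le_trans ?_ hX1
    have h1 : S.C * Cw * Real.exp T * Real.exp (-l) =
        S.C * Cw * Real.exp (-l) * Real.exp T := by ring
    rw [h1]
    exact le_mul_of_one_le_right (by positivity) hT1'
  have hW1 : S.C * Real.exp (-B₁) * (∫ y in Ioi B₁, Real.exp (-(y - B₁)) * ν y) ≤ ε / 2 := by
    calc S.C * Real.exp (-B₁) * (∫ y in Ioi B₁, Real.exp (-(y - B₁)) * ν y) ≤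
          S.C * Real.exp (-B₁) * (Cw * Λ * Real.exp (θ * (B₁ + M))) :=
          mul_le_mul_of_nonneg_left (hWle B₁ hMB₁) (by positivity)
      _ = S.C * Cw * Real.exp (-l) := by
          rw [hΛl]
          have h1 : Real.exp (-l) = Real.exp (-B₁) * Real.exp l * Real.exp (θ * (B₁ + M)) := by
            rw [← Real.exp_add, ← Real.exp_add]
            congr 1
            rw [hB₁, hMdef]
            linear_combination l * hb₁e
          rw [h1]
          ring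
      _ ≤ ε / 2 := hX2
  have hW2 : S.C * Real.exp (B₀ - B) * (∫ y in Ioi B, Real.exp (-(y - B)) * ν y) ≤ ε / 2 := by
    calc S.C * Real.exp (B₀ - B) * (∫ y in Ioi B, Real.exp (-(y - B)) * ν y) ≤
          S.C * Real.exp (B₀ - B) * (Cw * Λ * Real.exp (θ * (B + M))) :=
          mul_le_mul_of_nonneg_left (hWle B hMB) (by positivity)
      _ = S.C * Cw * Real.exp T * Real.exp (-l - (1 - θ) * b₁ * l) := by
          rw [hΛl]
          have h1 : Real.exp T * Real.exp (-l - (1 - θ) * b₁ * l) =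
              Real.exp (B₀ - B) * Real.exp l * Real.exp (θ * (B + M)) := by
            rw [← Real.exp_add, ← Real.exp_add, ← Real.exp_add]
            congr 1
            rw [hB₀, hB₁, hMdef, hB]
            linear_combination (l) * hb₂e
          calc S.C * Real.exp (B₀ - B) * (Cw * Real.exp l * Real.exp (θ * (B + M))) =
                S.C * Cw * (Real.exp (B₀ - B) * Real.exp l * Real.exp (θ * (B + M))) := by ring
            _ = S.C * Cw * Real.exp T * Real.exp (-l - (1 - θ) * b₁ * l) := by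
                rw [← h1]
                ring
      _ ≤ S.C * Cw * Real.exp T * Real.exp (-l) := by
          refine mul_le_mul_of_nonneg_left ?_ (by positivity)
          rw [Real.exp_le_exp]
          have : 0 ≤ (1 - θ) * b₁ * l := by positivity
          linarith
      _ ≤ ε / 2 := hX1
  refine ⟨M, B₀, B, cutf ν M η' B₁ B, hM0, ?_, hB₀0, hB0B, ?_, ex_meas hνc M η' B₁ B,
    ex_nonneg hν0 hη'1, fun y hy => ex_supp hB1B hy, ?_, ?_, ?_, ?_, ?_, ?_⟩
  · rw [hMdef]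
    exact mul_le_mul_of_nonneg_right (by linarith) hl0
  · rw [hB]
    exact mul_le_mul_of_nonneg_right (by linarith) hl0
  · -- integrability
    have hint : Integrable ((Ioc (-M) B).indicator ν) := by
      rw [integrable_indicator_iff measurableSet_Ioc]
      exact (hνc.continuousOn.integrableOn_Icc (a := -M) (b := B)).mono_set Ioc_subset_Icc_self
    refine hint.mono' (ex_meas hνc M η' B₁ B).aestronglyMeasurable ?_
    filter_upwards with y
    rw [Real.norm_eq_abs, abs_of_nonneg (ex_nonneg hν0 hη'1 y)]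
    exact ex_le hν0 hη'0 hB1B y
  · -- mass
    have hint : Integrable ((Ioc (-M) B).indicator ν) := by
      rw [integrable_indicator_iff measurableSet_Ioc]
      exact (hνc.continuousOn.integrableOn_Icc (a := -M) (b := B)).mono_set Ioc_subset_Icc_self
    have h1 : ∫ y, cutf ν M η' B₁ B y ≤ ∫ y, (Ioc (-M) B).indicator ν y := by
      refine integral_mono_of_nonneg ?_ hint ?_
      · filter_upwards with y
        exact ex_nonneg hν0 hη'1 y
      · filter_upwards with y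
        exact ex_le hν0 hη'0 hB1B y
    rw [integral_indicator measurableSet_Ioc] at h1
    have h2 := (hW B hMB).2
    have h3 := hWpos B hMB
    have h4 : Cw * Λ * Real.exp (θ * (B + M)) ≤ Real.exp (A * l) := by
      calc Cw * Λ * Real.exp (θ * (B + M)) ≤ Real.exp l * Real.exp l * Real.exp (θ * (B + M)) := by
            rw [← hΛl]
            gcongr
        _ = Real.exp ((2 + θ * (b₂ + A₁)) * l) := by
            rw [← Real.exp_add, ← Real.exp_add]
            congr 1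
            rw [hB, hMdef]
            ring
        _ ≤ Real.exp (A * l) := by
            rw [Real.exp_le_exp]
            exact mul_le_mul_of_nonneg_right (by linarith) hl0
    linarith
  · -- supercritical rays
    intro i x hx
    refine S.exit_b ha ha' hε.le hκ0 hκ1 hη'0 hη'1 hνc hνom hF i (S₀ := S₀)
      ⟨s₀ i, hs₀le i, (hs₀ i).1, (hs₀ i).2⟩ ?_ hB1B ?_ (hE.trans (by linarith)) ?_ ?_ hx
    · have : 2 * l ≤ b₁ * l := mul_le_mul_of_nonneg_right hb₁2 hl0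
      rw [hB₁]
      linarith
    · rw [hB₀]
      linarith
    · have h1 := hQle i
      have h2 : η' * (S.β i * Λ) = Cη * S.β i := by
        rw [← hη'Λ]
        ring
      rw [h2]
      exact h1
    · have h1 := hQle i
      have h2 : Cη * S.β i ≤ S.β i * Λ := by
        rw [mul_comm]
        exact mul_le_mul_of_nonneg_left hΛb (S.hβ i).le
      exact h1.trans h2
  · -- far to the left
    intro i x hx
    have h1 := S.exit_bl (κ := κ) (η := η) (Λ := Λ) (B₁ := B₁) (B := B) hκ0 hκ1 hη'0 hη'1 hL₁0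
      hνc hνom hν0 i hx
    refine h1.trans ?_
    have h2 := hWle (-M) le_rfl
    have h3 : Cw * Λ * Real.exp (θ * (-M + M)) = Cw * Λ := by
      simp
    rw [h3] at h2
    calc S.C * Real.exp (-L₁) * ∫ y in Ioi (-M), Real.exp (-(y - -M)) * ν y ≤
          S.C * Real.exp (-L₁) * (Cw * Λ) := mul_le_mul_of_nonneg_left h2 (by positivity)
      _ = (S.C * Real.exp (-L₁) * Cw) * Λ := by ring
      _ ≤ S.β i / 4 * Λ := mul_le_mul_of_nonneg_right (hL₁β i) hΛ0.le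
      _ = S.β i * Λ / 4 := by ring
  · -- left end points
    intro j x
    refine S.exit_l ha ha' hL₁0 hε.le hκ0 hκ1 hη'0 hη'1 hνc hνom hF j (hal j) (hal' j) hMB₁ hB1B
      hB0B ?_ hW2 x
    have h1 : 2 * Cη * |S.cl j| / ε ≤ Y := Finset.single_le_sum
      (f := fun j => 2 * Cη * |S.cl j| / ε) (fun j _ => by positivity) (Finset.mem_univ j)
    have h2 := h1.trans hΛe
    rw [div_le_iff₀ hε] at h2
    rw [hη', div_mul_eq_mul_div, div_le_iff₀ hΛ0]
    linarith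
  · exact S.exit_t ha' hM0 hκ0 hκ1 hη'0 hη'1 hνc hνom hF hB₁0 hB1B hB₀0 hW1 hE2

end Sys

end Pool.Agent.IND2I
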