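import Pool.Agent.IND2I.NecD
import Pool.Agent.IND2I.KI
import Pool.Agent.Helper25.Ind.Had
import Pool.Agent.Helper25.Ind.IndApi
import Pool.Agent.Helper25.Ind.Trig
import Pool.Agent.Helper25.Ind.Nec

/-!
# IND2I, module Fdat: entire functions of integer order with negative zeros and their measures

`FDat p f a Q`: the conclusions of `hadamard` (`Helper25.Ind.Had`) for an entire function `f` of order at most `p`, with not summable
`a i ^ (-p)` and real leading coefficient `Q.coeff p`.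
PROOFS.  `muf_tame`: `a i → ∞` (`Summable (a i ^ (-(p+1)))`), so `a` has a positive lower bound `e^{y₀}`; for `x`, `δ > 0`:
`μ (Iic x) = ∑_{log a i ≤ x} a i^{-p} ≤ ∑ a i^{-p-δ} e^{δ x}` (for `a i ≤ e^x` `a i^δ ≤ e^{δx}`), and it is `0` for `x < y₀` (adjust `C`, `e^{δ x} ≤ e^{δ|x|}`).
`muf_top`: `∑ ofReal (a i^{-p}) = ⊤`.
`muf_int`: `∫ kk p θ (x - y) dmuf = ∑' a i^{-p} kk p θ (x - log a i)` (`integral_sum_measure`, `integral_dirac`; summability of the right side in absolute
value: for `f z ≠ 0`: `Summable (ker p z (a i))`, and in `ℝ` summable = absolutely summable), and by `ker_scale`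
`a^{-p} kk p θ (x - log a) = a^{-p} e^{-p (x - log a)} ker p (e^{x}/a e^{iθ}) 1 = e^{-px} ker p (e^x e^{iθ}) a`.
`fdat_eq`: `hlog`.  `Q.eval z = (Q.coeff p) z^p + O(|z|^{p-1})` for `|z| ≥ 1` (`natDegree ≤ p`, `p ≥ 1`), `Re ((Q.coeff p) (e^{x}e^{iθ})^p) = (Q.coeff p).re e^{px} cos (pθ)`.
`fdat_ind`: `f ≠ 0` on the ray `θ ∈ [0, π)`; `ratio p f θ (e^x) = e^{-px} log ‖f‖`; `r = e^x` (`Real.exp` maps `atTop` to `atTop`, order isomorphism), the
error tends to `0`.
-/

set_option autoImplicit false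

namespace Pool.Agent.IND2I

open MeasureTheory Set Filter Topology Helper25.Ind

/-- the measure of the zeros on the logarithmic scale -/
noncomputable def muf (p : ℕ) {I : Type} (a : I → ℝ) : Measure ℝ :=
  Measure.sum fun i => ENNReal.ofReal (a i ^ (-(p : ℝ))) • Measure.dirac (Real.log (a i))

structure FDat (p : ℕ) (f : ℂ → ℂ) {I : Type} (a : I → ℝ) (Q : Polynomial ℂ) : Prop where
  ord : OrderLE p f
  cnt : Countable I
  pos : ∀ i, 0 < a i
  deg : Q.natDegree ≤ p
  re : (Q.coeff p).im = 0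
  sum : ∀ σ : ℝ, (p : ℝ) < σ → Summable fun i => a i ^ (-σ)
  nsum : ¬ Summable fun i => a i ^ (-(p : ℝ))
  zero : ∀ z, f z = 0 ↔ ∃ i, z = -(a i : ℂ)
  log : ∀ z, f z ≠ 0 → (Summable fun i => ker p z (a i)) ∧
    Real.log ‖f z‖ = (Q.eval z).re + ∑' i, ker p z (a i)

variable {p : ℕ} {f : ℂ → ℂ} {I : Type} {a : I → ℝ} {Q : Polynomial ℂ}

private lemma fd_norm (θ s : ℝ) :
    ‖(Real.exp s : ℂ) * Complex.exp (θ * Complex.I)‖ = Real.exp s := by
  rw [norm_mul, Complex.norm_exp_ofReal_mul_I, mul_one, Complex.norm_real, Real.norm_of_nonneg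
    (Real.exp_pos s).le]

private lemma fd_kk {p : ℕ} {θ x a : ℝ} (ha : 0 < a) :
    a ^ (-(p : ℝ)) * kk p θ (x - Real.log a) =
      Real.exp (-((p : ℝ) * x)) * ker p ((Real.exp x : ℂ) * Complex.exp (θ * Complex.I)) a := by
  unfold kk
  rw [Nat.floor_natCast]
  have h1 : Real.exp (x - Real.log a) = Real.exp x / a := by
    rw [Real.exp_sub, Real.exp_log ha]
  have hx := Real.exp_pos x
  have h2 : ker p (((Real.exp (x - Real.log a) : ℝ) : ℂ) * Complex.exp (θ * Complex.I)) 1 =
      ker p ((Real.exp x : ℂ) * Complex.exp (θ * Complex.I)) a := by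
    rw [h1, ker_scale _ _ (div_pos hx ha) one_pos, ker_scale _ _ hx ha, one_div, inv_div]
  rw [h2, ← mul_assoc]
  congr 1
  rw [Real.rpow_def_of_pos ha, ← Real.exp_add]
  congr 1
  ring

private lemma fd_lead {c : ℂ} (hc : c.im = 0) (p : ℕ) (r θ : ℝ) :
    (c * ((r : ℂ) * Complex.exp (θ * Complex.I)) ^ p).re = c.re * Real.cos (p * θ) * r ^ p := by
  have h1 : c = ((c.re : ℝ) : ℂ) := by
    apply Complex.ext
    · simp
    · simp [hc]
  have h2 : c * ((r : ℂ) * Complex.exp (θ * Complex.I)) ^ p =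
      ((c.re * r ^ p : ℝ) : ℂ) * Complex.exp (((p * θ : ℝ) : ℂ) * Complex.I) := by
    have h : Complex.exp (((p * θ : ℝ) : ℂ) * Complex.I) =
        Complex.exp (θ * Complex.I) ^ p := by
      rw [← Complex.exp_nat_mul]
      congr 1
      push_cast
      ring
    rw [h]
    conv_lhs => rw [h1]
    rw [mul_pow]
    push_cast
    ring
  rw [h2, Complex.re_ofReal_mul, Complex.exp_ofReal_mul_I_re]
  ring

private lemma fd_poly {p : ℕ} (hp : 1 ≤ p) (hQ : Q.natDegree ≤ p) (hre : (Q.coeff p).im = 0) :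
    ∃ C : ℝ, 0 ≤ C ∧ ∀ r : ℝ, 1 ≤ r → ∀ θ : ℝ,
      |(Q.eval ((r : ℂ) * Complex.exp (θ * Complex.I))).re -
        (Q.coeff p).re * Real.cos (p * θ) * r ^ p| ≤ C * r ^ (p - 1) := by
  refine ⟨∑ i ∈ Finset.range p, ‖Q.coeff i‖, ?_, ?_⟩
  · exact Finset.sum_nonneg fun i _ => by positivity
  · intro r hr θ
    have hz : ‖(r : ℂ) * Complex.exp (θ * Complex.I)‖ = r := by
      rw [norm_mul, Complex.norm_exp_ofReal_mul_I, mul_one, Complex.norm_real,
        Real.norm_of_nonneg (by linarith)]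
    rw [Polynomial.eval_eq_sum_range' (Nat.lt_succ_of_le hQ), Finset.sum_range_succ,
      Complex.add_re, fd_lead hre, add_sub_cancel_right, Finset.sum_mul]
    refine (Complex.abs_re_le_norm _).trans ((norm_sum_le _ _).trans (Finset.sum_le_sum ?_))
    intro i hi
    have hi' : i ≤ p - 1 := by
      have := Finset.mem_range.mp hi
      omega
    rw [norm_mul, norm_pow, hz]
    exact mul_le_mul_of_nonneg_left (pow_le_pow_right₀ hr hi') (norm_nonneg _)

theorem muf_tame (hp : 1 ≤ p) (F : FDat p f a Q) : Tame (muf p a) := by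
  have ha := F.pos
  have hs := F.sum
  have hpos : ∀ (σ : ℝ) (i : I), 0 ≤ a i ^ (-σ) := fun σ i => Real.rpow_nonneg (ha i).le _
  constructor
  · obtain ⟨S, hS⟩ : ∃ S : ℝ, S = ∑' i, a i ^ (-((p : ℝ) + 1)) := ⟨_, rfl⟩
    refine ⟨-S / ((p : ℝ) + 1), ?_⟩
    have hp0 : (0 : ℝ) ≤ p := Nat.cast_nonneg p
    unfold muf
    rw [Measure.sum_apply _ measurableSet_Iio]
    refine ENNReal.tsum_eq_zero.2 fun i => ?_
    have h1 : a i ^ (-((p : ℝ) + 1)) ≤ S := by
      rw [hS]
      exact (hs ((p : ℝ) + 1) (by linarith)).le_tsum i (fun j _ => hpos _ j)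
    have h2 : S ≤ Real.exp S := by
      have := Real.add_one_le_exp S
      linarith
    have h3 : Real.log (a i) * (-((p : ℝ) + 1)) ≤ S := by
      rw [← Real.exp_le_exp, ← Real.rpow_def_of_pos (ha i)]
      exact h1.trans h2
    have h4 : -S / ((p : ℝ) + 1) ≤ Real.log (a i) := by
      rw [div_le_iff₀ (by linarith)]
      linarith
    rw [Measure.smul_apply, Measure.dirac_apply' _ measurableSet_Iio,
      Set.indicator_of_notMem (by simpa using h4), smul_zero]
  · intro δ hδ
    refine ⟨∑' i, a i ^ (-((p : ℝ) + δ)), tsum_nonneg fun i => hpos _ i, fun x => ?_⟩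
    have hsδ := hs ((p : ℝ) + δ) (by linarith)
    unfold muf
    rw [Measure.sum_apply _ measurableSet_Iic]
    have h1 : ∀ i, (ENNReal.ofReal (a i ^ (-(p : ℝ))) • Measure.dirac (Real.log (a i))) (Iic x) ≤
        ENNReal.ofReal (a i ^ (-((p : ℝ) + δ)) * Real.exp (δ * |x|)) := by
      intro i
      rw [Measure.smul_apply, Measure.dirac_apply' _ measurableSet_Iic, smul_eq_mul]
      by_cases hi : Real.log (a i) ≤ x
      · rw [Set.indicator_of_mem (by simpa using hi), Pi.one_apply, mul_one]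
        refine ENNReal.ofReal_le_ofReal ?_
        rw [Real.rpow_def_of_pos (ha i), Real.rpow_def_of_pos (ha i), ← Real.exp_add,
          Real.exp_le_exp]
        have h2 : Real.log (a i) * δ ≤ δ * |x| := by
          have := mul_le_mul_of_nonneg_left (hi.trans (le_abs_self x)) hδ.le
          linarith
        linarith
      · rw [Set.indicator_of_notMem (by simpa using hi), mul_zero]
        exact zero_le
    refine (ENNReal.tsum_le_tsum h1).trans (le_of_eq ?_)
    rw [← ENNReal.ofReal_tsum_of_nonneg _ (hsδ.mul_right _), tsum_mul_right]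
    intro i
    exact mul_nonneg (hpos _ i) (Real.exp_nonneg _)

theorem muf_top (F : FDat p f a Q) : (muf p a) univ = ⊤ := by
  by_contra hne
  apply F.nsum
  unfold muf at hne
  rw [Measure.sum_apply _ MeasurableSet.univ] at hne
  have h1 := ENNReal.summable_toReal hne
  refine h1.congr fun i => ?_
  rw [Measure.smul_apply, Measure.dirac_apply' _ MeasurableSet.univ, smul_eq_mul,
    Set.indicator_of_mem (mem_univ _), Pi.one_apply, mul_one,
    ENNReal.toReal_ofReal (Real.rpow_nonneg (F.pos i).le _)]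

theorem muf_int (hp : 1 ≤ p) (F : FDat p f a Q) {θ x : ℝ} (hθ : θ ∈ Icc (0 : ℝ) Real.pi)
    (hne : f (Real.exp x * Complex.exp (θ * Complex.I)) ≠ 0) :
    ∫ y, kk p θ (x - y) ∂(muf p a) = Real.exp (-((p : ℝ) * x)) *
      ∑' i, ker p (Real.exp x * Complex.exp (θ * Complex.I)) (a i) := by
  have := F.cnt
  unfold muf
  rw [integral_sum_dirac (fun i => ENNReal.ofReal_ne_top), ← tsum_mul_left]
  refine tsum_congr fun i => ?_
  rw [ENNReal.toReal_ofReal (Real.rpow_nonneg (F.pos i).le _), smul_eq_mul, fd_kk (F.pos i)]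

theorem fdat_eq (hp : 1 ≤ p) (F : FDat p f a Q) : ∃ C : ℝ, 0 ≤ C ∧ ∀ θ ∈ Icc (0 : ℝ) Real.pi,
    ∀ x, 0 ≤ x → f (Real.exp x * Complex.exp (θ * Complex.I)) ≠ 0 →
      |Real.exp (-((p : ℝ) * x)) * Real.log ‖f (Real.exp x * Complex.exp (θ * Complex.I))‖ -
        (∫ y, kk p θ (x - y) ∂(muf p a)) - (Q.coeff p).re * Real.cos (p * θ)| ≤
          C * Real.exp (-x) := by
  obtain ⟨C, hC, h⟩ := fd_poly hp F.deg F.re
  refine ⟨C, hC, fun θ hθ x hx hne => ?_⟩
  rw [muf_int hp F hθ hne, (F.log _ hne).2]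
  have h1 := h (Real.exp x) (Real.one_le_exp hx) θ
  have h2 : Real.exp (-((p : ℝ) * x)) * Real.exp x ^ p = 1 := by
    rw [← Real.exp_nat_mul, ← Real.exp_add, neg_add_cancel, Real.exp_zero]
  have h3 : Real.exp (-((p : ℝ) * x)) * Real.exp x ^ (p - 1) = Real.exp (-x) := by
    rw [← Real.exp_nat_mul, ← Real.exp_add]
    congr 1
    rw [Nat.cast_sub hp]
    push_cast
    ring
  set T := ∑' i, ker p (Real.exp x * Complex.exp (θ * Complex.I)) (a i)
  set q := (Polynomial.eval (Real.exp x * Complex.exp (θ * Complex.I)) Q).re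
  have h4 : Real.exp (-((p : ℝ) * x)) * (q + T) - Real.exp (-((p : ℝ) * x)) * T -
      (Q.coeff p).re * Real.cos (p * θ) =
      Real.exp (-((p : ℝ) * x)) * (q - (Q.coeff p).re * Real.cos (p * θ) * Real.exp x ^ p) := by
    have : Real.exp (-((p : ℝ) * x)) * ((Q.coeff p).re * Real.cos (p * θ) * Real.exp x ^ p) =
        (Q.coeff p).re * Real.cos (p * θ) := by
      calc _ = (Q.coeff p).re * Real.cos (p * θ) *
            (Real.exp (-((p : ℝ) * x)) * Real.exp x ^ p) := by ring
        _ = _ := by rw [h2, mul_one]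
    rw [mul_sub, this]
    ring
  rw [h4, abs_mul, abs_of_pos (Real.exp_pos _)]
  calc _ ≤ Real.exp (-((p : ℝ) * x)) * (C * Real.exp x ^ (p - 1)) :=
        mul_le_mul_of_nonneg_left h1 (Real.exp_pos _).le
    _ = C * (Real.exp (-((p : ℝ) * x)) * Real.exp x ^ (p - 1)) := by ring
    _ = _ := by rw [h3]

private lemma fd_limsup {g h : ℝ → ℝ} (H : Tendsto (fun x => g x - h x) atTop (𝓝 0)) :
    limsup (fun x => ((g x : ℝ) : EReal)) atTop ≤ limsup (fun x => ((h x : ℝ) : EReal)) atTop := by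
  refine le_of_forall_gt_imp_ge_of_dense fun A hA => ?_
  obtain ⟨q, hq1, hq2⟩ := EReal.lt_iff_exists_real_btwn.1 hA
  obtain ⟨q', hq3, hq4⟩ := EReal.lt_iff_exists_real_btwn.1 hq2
  have hqq : q < q' := by exact_mod_cast hq3
  refine limsup_le_of_le (h := ?_)
  filter_upwards [eventually_lt_of_limsup_lt hq1, H.eventually (gt_mem_nhds (sub_pos.2 hqq))]
    with x h1 h2
  have h3 : h x < q := by exact_mod_cast h1
  have h4 : g x < q' := by
    have h5 : g x - h x < q' - q := h2
    linarith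
  exact (le_of_lt (by exact_mod_cast h4 : ((g x : ℝ) : EReal) < (q' : EReal))).trans hq4.le

theorem fdat_ind (hp : 1 ≤ p) (F : FDat p f a Q) {θ : ℝ} (h0 : 0 ≤ θ) (h1 : θ < Real.pi) :
    indicatorOf p f θ = limsup (fun x : ℝ => (((∫ y, kk p θ (x - y) ∂(muf p a)) +
      (Q.coeff p).re * Real.cos (p * θ) : ℝ) : EReal)) atTop := by
  obtain ⟨C, hC, hE⟩ := fdat_eq hp F
  have hne : ∀ x : ℝ, f (Real.exp x * Complex.exp (θ * Complex.I)) ≠ 0 := by
    intro x hx
    obtain ⟨i, hi⟩ := (F.zero _).1 hx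
    have h2 : ((Real.exp x : ℂ) * Complex.exp (θ * Complex.I)).arg = θ := by
      rw [Complex.arg_real_mul _ (Real.exp_pos x), Complex.arg_exp_mul_I, toIocMod_eq_self]
      constructor <;> linarith [Real.pi_pos]
    have h3 : (-(a i : ℂ)).arg = Real.pi := by
      have := Complex.arg_ofReal_of_neg (neg_lt_zero.2 (F.pos i))
      rwa [Complex.ofReal_neg] at this
    rw [hi, h3] at h2
    linarith
  have h2 : indicatorOf p f θ = limsup (fun x : ℝ =>
      ((Real.exp (-((p : ℝ) * x)) * Real.log ‖f (Real.exp x * Complex.exp (θ * Complex.I))‖ : ℝ) :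
        EReal)) atTop := by
    unfold indicatorOf
    have hm : limsup (ratio p f θ) atTop = limsup (ratio p f θ) (map Real.exp atTop) := by
      rw [Real.map_exp_atTop]
    rw [hm, ← Filter.limsup_comp]
    congr 1
    funext x
    simp only [Function.comp, ratio]
    rw [if_neg (hne x)]
    congr 1
    rw [← Real.exp_mul, div_eq_mul_inv, ← Real.exp_neg, mul_comm x]
    ring
  rw [h2]
  have hlim : Tendsto (fun x : ℝ => C * Real.exp (-x)) atTop (𝓝 0) := by
    have := (Real.tendsto_exp_neg_atTop_nhds_zero).const_mul C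
    rwa [mul_zero] at this
  have hev : ∀ᶠ x : ℝ in atTop,
      |(Real.exp (-((p : ℝ) * x)) * Real.log ‖f (Real.exp x * Complex.exp (θ * Complex.I))‖) -
        ((∫ y, kk p θ (x - y) ∂(muf p a)) + (Q.coeff p).re * Real.cos (p * θ))| ≤
          C * Real.exp (-x) := by
    filter_upwards [eventually_ge_atTop (0 : ℝ)] with x hx
    have := hE θ ⟨h0, h1.le⟩ x hx (hne x)
    rwa [sub_sub] at this
  have hT := squeeze_zero_norm' (a := fun x : ℝ => C * Real.exp (-x)) (by
    filter_upwards [hev] with x hx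
    rw [Real.norm_eq_abs]
    exact hx) hlim
  refine le_antisymm (fd_limsup hT) (fd_limsup ?_)
  have := hT.neg
  simpa using this

theorem fdat_even (hp : 1 ≤ p) (F : FDat p f a Q) (θ : ℝ) :
    indicatorOf p f (-θ) = indicatorOf p f θ := by
  have hconj : ∀ r : ℝ, (r : ℂ) * Complex.exp (((-θ : ℝ) : ℂ) * Complex.I) =
      starRingEnd ℂ ((r : ℂ) * Complex.exp ((θ : ℂ) * Complex.I)) := by
    intro r
    rw [map_mul, ← Complex.exp_conj, map_mul, Complex.conj_I, Complex.conj_ofReal,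
      Complex.conj_ofReal]
    push_cast
    ring_nf
  have hzero : ∀ w : ℂ, f (starRingEnd ℂ w) = 0 ↔ f w = 0 := by
    have h1 : ∀ w : ℂ, f w = 0 → f (starRingEnd ℂ w) = 0 := by
      intro w hw
      obtain ⟨i, hi⟩ := (F.zero w).1 hw
      have h2 : w.im = 0 := by rw [hi]; simp
      rw [Complex.conj_eq_iff_im.mpr h2]
      exact hw
    intro w
    refine ⟨fun h2 => ?_, h1 w⟩
    have := h1 _ h2
    rwa [Complex.conj_conj] at this
  obtain ⟨C, hC, hb⟩ := fd_poly hp F.deg F.re
  have hmain : indicatorOf p f (-θ) = indicatorOf p f θ + ((0 : ℝ) : EReal) := by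
    refine indicatorOf_eq_add ?_ ?_
    · refine Filter.Eventually.of_forall fun r => ?_
      rw [hconj r]
      exact hzero _
    · intro ε hε
      filter_upwards [eventually_ge_atTop (2 * C / ε), eventually_ge_atTop (1 : ℝ)]
        with r h1 h2 h3
      have h4 : f ((r : ℂ) * Complex.exp (((-θ : ℝ) : ℂ) * Complex.I)) ≠ 0 := by
        rw [hconj r]
        exact fun h5 => h3 ((hzero _).mp h5)
      obtain ⟨-, e1⟩ := F.log _ h4
      obtain ⟨-, e2⟩ := F.log _ h3
      have e3 : (fun i => ker p ((r : ℂ) * Complex.exp (((-θ : ℝ) : ℂ) * Complex.I)) (a i)) =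
          fun i => ker p ((r : ℂ) * Complex.exp ((θ : ℂ) * Complex.I)) (a i) := by
        funext i
        rw [hconj r, ker_conj]
      rw [e3] at e1
      rw [e1, e2]
      have h6 := hb r h2 (-θ)
      have h7 := hb r h2 θ
      have h8 : Real.cos (p * -θ) = Real.cos (p * θ) := by
        rw [mul_neg, Real.cos_neg]
      rw [h8] at h6
      have h9 : 2 * (C * r ^ (p - 1)) ≤ ε * r ^ (p : ℝ) := by
        rw [Real.rpow_natCast]
        have h10 : r ^ p = r * r ^ (p - 1) := by
          rw [← pow_succ']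
          congr 1
          omega
        rw [h10]
        rw [div_le_iff₀ hε] at h1
        have h11 : 0 ≤ r ^ (p - 1) := by positivity
        have := mul_le_mul_of_nonneg_right h1 h11
        linarith
      rw [abs_le] at h6 h7 ⊢
      constructor <;> nlinarith [h6.1, h6.2, h7.1, h7.2]
  rw [hmain]
  simp

end Pool.Agent.IND2I
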