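import Mathlib

/-!
# IND2I, module Hb: Hahn-Banach and Riesz for a linear programme with values in `C₀(X)`

PROOF.  `𝒜 = {(f, t) ∈ C₀(X) × ℝ | ∃ m ∈ A, (∀ x, T m x - Φ x < f x) ∧ t < l m}` is convex,
nonempty (`(0, l 0 - 1)`, `m = 0`), open: for `(f, t)` with `m` the function `f + Φ - T m` is
positive, continuous and `≥ δ/2` outside a compact set (`f - T m ∈ C₀`), so it is `≥ ε > 0`.
`(0, v) ∉ 𝒜` by `hno`.  `geometric_hahn_banach_open_point`: a continuous linear `F` with
`F a < F (0, v)` on `𝒜`.  Put `Q f = -F (f, 0)`, `τ = F (0, 1)`.  `Q f ≥ 0` for `f ≥ 0` (if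
`(f₀, t₀) ∈ 𝒜` then `(f₀ + s f, t₀) ∈ 𝒜` for all `s ≥ 0`), `τ ≥ 0` (`t → -∞`).
`RealRMK.rieszMeasure` for `Q` on `C_c(X, ℝ)` gives `ν` with `∫ f dν = Q f` on `C_c`; `ν K ≤ ‖Q‖`
for compact `K` (`f ∈ C_c`, `0 ≤ f ≤ 1`, `f = 1` on `K`), so `ν` is finite (`X` is `σ`-compact).
Let `m ∈ A`, `t < l m`, `χ ∈ C_c`, `0 ≤ χ ≤ 1`, `χ = 1` on a compact set outside of which
`T m - Φ + ε ≤ 0` (`T m → 0`, `Φ ≥ δ`, `ε < δ/2`).  Then `f = χ (T m - Φ + ε) ∈ C_c` satisfies
`T m - Φ < f`, so `-∫ f dν + τ t < τ v`: `∫ χ (Φ - T m - ε) dν ≤ τ (v - t)`.  Let `χ ↑ 1` (exhaustion by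
compact sets), `ε → 0`, `t → l m` (monotone convergence for `χ (Φ + ‖T m‖ - T m)`):
`Φ` is `ν`-integrable and `∫ (Φ - T m) dν ≤ τ (v - l m)`.  If `τ = 0` then `m = 0` gives `∫ Φ dν ≤ 0`,
so `ν = 0`, `Q = 0` on `C_c`, hence on `C₀` (density: `χ f → f` uniformly), `F = 0`, contradiction.  So
`τ > 0`; take `ν / τ`.
-/

set_option autoImplicit false

namespace Pool.Agent.IND2I

open MeasureTheory Set
open scoped ZeroAtInfty

open Filter Topology CompactlySupported

section aux

variable {X : Type*} [TopologicalSpace X]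

/-- the inclusion of `C_c` in `C₀` -/
private noncomputable def cc0 : C_c(X, ℝ) →ₗ[ℝ] C₀(X, ℝ) where
  toFun f := ⟨⟨f, map_continuous f⟩, HasCompactSupport.is_zero_at_infty f.hasCompactSupport⟩
  map_add' f g := by ext; rfl
  map_smul' c f := by ext; rfl

private lemma cc0_apply (f : C_c(X, ℝ)) (x : X) : cc0 f x = f x := rfl

private lemma le_norm_c0 (f : C₀(X, ℝ)) (x : X) : |f x| ≤ ‖f‖ := by
  have h := f.toBCF.norm_coe_le_norm x
  rwa [Real.norm_eq_abs] at h

/-- a function in `C₀` is small off a compact set -/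
private lemma exists_compact_lt (g : C₀(X, ℝ)) {η : ℝ} (hη : 0 < η) :
    ∃ K : Set X, IsCompact K ∧ ∀ x ∉ K, |g x| < η := by
  have h := g.zero_at_infty'
  have h2 := h (Metric.ball_mem_nhds (0 : ℝ) hη)
  rw [mem_map, mem_cocompact] at h2
  obtain ⟨K, hK, hKs⟩ := h2
  refine ⟨K, hK, fun x hx => ?_⟩
  have := hKs hx
  rw [mem_preimage, Metric.mem_ball, dist_zero_right, Real.norm_eq_abs] at this
  exact this

/-- a uniform lower bound -/
private lemma exists_eps (Φ : X → ℝ) (hΦ : Continuous Φ) {δ : ℝ} (hδ : 0 < δ)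
    (hΦδ : ∀ x, δ ≤ Φ x) (g : C₀(X, ℝ)) (hg : ∀ x, 0 < g x + Φ x) :
    ∃ ε : ℝ, 0 < ε ∧ ∀ x, ε ≤ g x + Φ x := by
  obtain ⟨K, hK, hKs⟩ := exists_compact_lt g (half_pos hδ)
  have hout : ∀ x ∉ K, δ / 2 ≤ g x + Φ x := by
    intro x hx
    have h1 := (abs_lt.1 (hKs x hx)).1
    have h2 := hΦδ x
    linarith
  rcases K.eq_empty_or_nonempty with hKe | hKn
  · refine ⟨δ / 2, half_pos hδ, fun x => hout x ?_⟩
    rw [hKe]; exact notMem_empty x
  · have hc : ContinuousOn (fun x => g x + Φ x) K := ((map_continuous g).add hΦ).continuousOn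
    obtain ⟨x₀, hx₀, hmin⟩ := hK.exists_isMinOn hKn hc
    refine ⟨min (δ / 2) (g x₀ + Φ x₀), lt_min (half_pos hδ) (hg x₀), fun x => ?_⟩
    by_cases hx : x ∈ K
    · exact (min_le_right _ _).trans (hmin hx)
    · exact (min_le_left _ _).trans (hout x hx)

private lemma hb_normed {E : Type*} [NormedAddCommGroup E] [NormedSpace ℝ E] {S : Set E} {x : E}
    (h1 : Convex ℝ S) (h2 : IsOpen S) (h3 : x ∉ S) : ∃ F : E →L[ℝ] ℝ, ∀ a ∈ S, F a < F x := by
  obtain ⟨F, hF⟩ := geometric_hahn_banach_open_point h1 h2 h3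
  exact ⟨F, hF⟩

private lemma separation {V : Type*} [AddCommGroup V]
    [Module ℝ V] (A : Set V) (hA : Convex ℝ A) (h0 : (0 : V) ∈ A) (T : V →ₗ[ℝ] C₀(X, ℝ))
    (l : V →ₗ[ℝ] ℝ) (Φ : X → ℝ) (hΦ : Continuous Φ) {δ : ℝ} (hδ : 0 < δ) (hΦδ : ∀ x, δ ≤ Φ x)
    (v : ℝ) (hno : ∀ m ∈ A, (∀ x, T m x < Φ x) → l m ≤ v) :
    ∃ Q : C₀(X, ℝ) →L[ℝ] ℝ, (∀ f : C₀(X, ℝ), (∀ x, 0 ≤ f x) → 0 ≤ Q f) ∧
      ∀ m ∈ A, ∀ f : C₀(X, ℝ), (∀ x, T m x - Φ x < f x) → l m - Q f ≤ v := by
  set S : Set (C₀(X, ℝ) × ℝ) :=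
    {p | ∃ m ∈ A, (∀ x, T m x - Φ x < p.1 x) ∧ p.2 < l m} with hS
  have hconv : Convex ℝ S := by
    rintro p ⟨m, hm, h1, h2⟩ q ⟨m', hm', h1', h2'⟩ a b ha hb hab
    refine ⟨a • m + b • m', hA hm hm' ha hb hab, fun x => ?_, ?_⟩
    · have e1 : T (a • m + b • m') x = a * T m x + b * T m' x := by
        rw [map_add, map_smul, map_smul]; rfl
      have e2 : (a • p + b • q).1 x = a * p.1 x + b * q.1 x := rfl
      rw [e1, e2]
      have e3 : Φ x = a * Φ x + b * Φ x := by rw [← add_mul, hab, one_mul]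
      have k1 := h1 x
      have k2 := h1' x
      rcases ha.eq_or_lt with ha0 | ha0
      · have hb1 : b = 1 := by linarith
        rw [← ha0, hb1]; linarith
      · have k3 : a * (T m x - Φ x) < a * p.1 x := mul_lt_mul_of_pos_left k1 ha0
        have k4 : b * (T m' x - Φ x) ≤ b * q.1 x := mul_le_mul_of_nonneg_left k2.le hb
        rw [mul_sub] at k3 k4
        linarith
    · have e1 : l (a • m + b • m') = a * l m + b * l m' := by
        rw [map_add, map_smul, map_smul]; rfl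
      have e2 : (a • p + b • q).2 = a * p.2 + b * q.2 := rfl
      rw [e1, e2]
      rcases ha.eq_or_lt with ha0 | ha0
      · have hb1 : b = 1 := by linarith
        rw [← ha0, hb1]; linarith
      · have k3 : a * p.2 < a * l m := mul_lt_mul_of_pos_left h2 ha0
        have k4 : b * q.2 ≤ b * l m' := mul_le_mul_of_nonneg_left h2'.le hb
        linarith
  have hopen : IsOpen S := by
    rw [isOpen_iff_mem_nhds]
    rintro ⟨f, t⟩ ⟨m, hm, h1, h2⟩
    obtain ⟨ε, hε, hεb⟩ := exists_eps Φ hΦ hδ hΦδ (f - T m) (fun x => by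
      have := h1 x
      have e : (f - T m) x = f x - T m x := rfl
      simp only at this
      rw [e]; linarith)
    have hn : Metric.ball f ε ×ˢ Iio (l m) ∈ 𝓝 (f, t) :=
      prod_mem_nhds (Metric.ball_mem_nhds f hε) (Iio_mem_nhds h2)
    refine mem_of_superset hn ?_
    rintro ⟨f', t'⟩ ⟨hf', ht'⟩
    refine ⟨m, hm, fun x => ?_, ht'⟩
    have h3 : |(f' - f) x| < ε := by
      have h4 : ‖f' - f‖ < ε := by
        rw [← dist_eq_norm]; exact hf'
      exact (le_norm_c0 _ x).trans_lt h4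
    have e : (f' - f) x = f' x - f x := rfl
    rw [e] at h3
    have h5 := (abs_lt.1 h3).1
    have h6 := hεb x
    have e' : (f - T m) x = f x - T m x := rfl
    rw [e'] at h6
    simp only
    linarith
  have hnot : ((0 : C₀(X, ℝ)), v) ∉ S := by
    rintro ⟨m, hm, h1, h2⟩
    have := hno m hm (fun x => by
      have := h1 x
      have e : (0 : C₀(X, ℝ)) x = 0 := rfl
      simp only [e] at this
      linarith)
    simp only at h2
    linarith
  obtain ⟨F, hF⟩ := hb_normed hconv hopen hnot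
  -- the two components
  set τ : ℝ := F (0, 1) with hτ
  have hdec : ∀ (f : C₀(X, ℝ)) (t : ℝ), F (f, t) = F (f, 0) + t * τ := by
    intro f t
    have e : (f, t) = (f, (0 : ℝ)) + t • ((0 : C₀(X, ℝ)), (1 : ℝ)) := by
      ext1
      · simp
      · simp
    rw [e, map_add, map_smul]
    rfl
  have hz : F ((0 : C₀(X, ℝ)), (0 : ℝ)) = 0 := by
    have : ((0 : C₀(X, ℝ)), (0 : ℝ)) = 0 := rfl
    rw [this, map_zero]
  have hFv : F ((0 : C₀(X, ℝ)), v) = v * τ := by rw [hdec, hz, zero_add]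
  have hmem : ∀ (f : C₀(X, ℝ)) (t : ℝ), (∀ x, 0 ≤ f x) → t < 0 → (f, t) ∈ S := by
    intro f t hf ht
    refine ⟨0, h0, fun x => ?_, ?_⟩
    · have e : T 0 x = 0 := by rw [map_zero]; rfl
      rw [e]
      have := hf x
      have := hΦδ x
      simp only
      linarith
    · rw [map_zero]; exact ht
  have hτ0 : 0 < τ := by
    by_contra hc
    push Not at hc
    have h1 := hF _ (hmem 0 (-(1 + |v|)) (fun x => le_refl _) (by
      have := abs_nonneg v; linarith))
    rw [hFv, hdec, hz, zero_add] at h1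
    have h2 : 0 ≤ v + (1 + |v|) := by
      have := neg_abs_le v; linarith
    nlinarith
  refine ⟨-(τ⁻¹) • (F.comp (ContinuousLinearMap.inl ℝ C₀(X, ℝ) ℝ)), ?_, ?_⟩
  · intro f hf
    have e : (-(τ⁻¹) • (F.comp (ContinuousLinearMap.inl ℝ C₀(X, ℝ) ℝ))) f
        = -(τ⁻¹) * F (f, 0) := rfl
    rw [e]
    have hneg : F (f, 0) ≤ 0 := by
      by_contra hc
      push Not at hc
      obtain ⟨s, hs⟩ := exists_nat_gt ((v * τ + τ) / F (f, 0))
      have hsf : ∀ x, 0 ≤ ((s : ℝ) • f) x := by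
        intro x
        have e : ((s : ℝ) • f) x = s * f x := rfl
        rw [e]
        exact mul_nonneg (Nat.cast_nonneg s) (hf x)
      have h1 := hF _ (hmem ((s : ℝ) • f) (-1) hsf (by norm_num))
      rw [hFv, hdec] at h1
      have e2 : F ((s : ℝ) • f, (0 : ℝ)) = s * F (f, 0) := by
        have : ((s : ℝ) • f, (0 : ℝ)) = (s : ℝ) • (f, (0 : ℝ)) := by
          ext1
          · rfl
          · simp
        rw [this, map_smul]
        rfl
      rw [e2] at h1
      rw [div_lt_iff₀ hc] at hs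
      linarith
    have := inv_pos.2 hτ0
    nlinarith
  · intro m hm f hf
    have e : (-(τ⁻¹) • (F.comp (ContinuousLinearMap.inl ℝ C₀(X, ℝ) ℝ))) f
        = -(τ⁻¹) * F (f, 0) := rfl
    rw [e]
    have key : ∀ t < l m, F (f, 0) + t * τ < v * τ := by
      intro t ht
      have := hF (f, t) ⟨m, hm, hf, ht⟩
      rwa [hFv, hdec] at this
    have key2 : ∀ t < l m, t ≤ v - τ⁻¹ * F (f, 0) := by
      intro t ht
      have h1 := key t ht
      have h2 : t * τ < v * τ - F (f, 0) := by linarith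
      have h3 : t < (v * τ - F (f, 0)) / τ := by rwa [lt_div_iff₀ hτ0]
      have h4 : (v * τ - F (f, 0)) / τ = v - τ⁻¹ * F (f, 0) := by
        field_simp
      rw [h4] at h3
      exact h3.le
    have := le_of_forall_lt_imp_le_of_dense key2
    linarith

end aux

section meas

variable {X : Type*} [TopologicalSpace X] [T2Space X] [LocallyCompactSpace X]
  [MeasurableSpace X] [BorelSpace X]

omit [MeasurableSpace X] [BorelSpace X] in
/-- cut-off functions -/
private lemma exists_cut {K : Set X} (hK : IsCompact K) :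
    ∃ χ : C_c(X, ℝ), (∀ x ∈ K, χ x = 1) ∧ (∀ x, 0 ≤ χ x) ∧ ∀ x, χ x ≤ 1 := by
  obtain ⟨f, h1, -, h3, h4⟩ :=
    exists_continuous_one_zero_of_isCompact hK isClosed_empty (disjoint_empty K)
  exact ⟨⟨f, h3⟩, fun x hx => h1 hx, fun x => (h4 x).1, fun x => (h4 x).2⟩

private lemma exists_meas (Q : C₀(X, ℝ) →L[ℝ] ℝ)
    (hQ : ∀ f : C₀(X, ℝ), (∀ x, 0 ≤ f x) → 0 ≤ Q f) :
    ∃ ν : Measure X, IsFiniteMeasure ν ∧ ∀ f : C_c(X, ℝ), ∫ x, f x ∂ν = Q (cc0 f) := by
  let Λ : C_c(X, ℝ) →ₚ[ℝ] ℝ := PositiveLinearMap.mk₀ (Q.toLinearMap.comp cc0)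
    (fun f hf => hQ _ (fun x => hf x))
  have hΛ : ∀ f, Λ f = Q (cc0 f) := fun f => rfl
  refine ⟨RealRMK.rieszMeasure Λ, ⟨?_⟩, fun f => ?_⟩
  · have hreg : (RealRMK.rieszMeasure Λ).Regular := RealRMK.regular_rieszMeasure Λ
    rw [isOpen_univ.measure_eq_iSup_isCompact (RealRMK.rieszMeasure Λ)]
    refine lt_of_le_of_lt ?_ (ENNReal.ofReal_lt_top (r := ‖Q‖))
    refine iSup_le fun K => iSup_le fun _ => iSup_le fun hK => ?_
    obtain ⟨χ, h1, h2, h3⟩ := exists_cut hK
    refine (RealRMK.rieszMeasure_le_of_eq_one Λ h2 hK h1).trans ?_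
    refine ENNReal.ofReal_le_ofReal ?_
    rw [hΛ]
    refine (le_abs_self _).trans ?_
    rw [← Real.norm_eq_abs]
    refine (Q.le_opNorm (cc0 χ)).trans ?_
    have hn : ‖cc0 χ‖ ≤ 1 := by
      rw [← ZeroAtInftyContinuousMap.norm_toBCF_eq_norm]
      refine (BoundedContinuousFunction.norm_le zero_le_one).2 fun x => ?_
      have e : (cc0 χ).toBCF x = χ x := rfl
      rw [e, Real.norm_eq_abs, abs_of_nonneg (h2 x)]
      exact h3 x
    exact mul_le_of_le_one_right (norm_nonneg _) hn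
  · rw [RealRMK.integral_rieszMeasure, hΛ]

end meas

theorem hb_c0 {X : Type*} [TopologicalSpace X] [T2Space X] [LocallyCompactSpace X]
    [SigmaCompactSpace X] [MeasurableSpace X] [BorelSpace X] {V : Type*} [AddCommGroup V]
    [Module ℝ V] (A : Set V) (hA : Convex ℝ A) (h0 : (0 : V) ∈ A) (T : V →ₗ[ℝ] C₀(X, ℝ))
    (l : V →ₗ[ℝ] ℝ) (Φ : X → ℝ) (hΦ : Continuous Φ) {δ : ℝ} (hδ : 0 < δ) (hΦδ : ∀ x, δ ≤ Φ x)
    (v : ℝ) (hno : ∀ m ∈ A, (∀ x, T m x < Φ x) → l m ≤ v) :
    ∃ ν : Measure X, IsFiniteMeasure ν ∧ Integrable Φ ν ∧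
      ∀ m ∈ A, ∫ x, (Φ x - T m x) ∂ν ≤ v - l m := by
  obtain ⟨Q, hQ0, hQ⟩ := separation A hA h0 T l Φ hΦ hδ hΦδ v hno
  obtain ⟨ν, hν, hνQ⟩ := exists_meas Q hQ0
  -- the basic inequality
  have basic : ∀ m ∈ A, ∀ ε : ℝ, 0 < ε → ε < δ / 2 → ∃ K : Set X, IsCompact K ∧
      ∀ χ : C_c(X, ℝ), (∀ x ∈ K, χ x = 1) → (∀ x, 0 ≤ χ x) → (∀ x, χ x ≤ 1) →
      ∫ x, χ x * (Φ x - T m x - ε) ∂ν ≤ v - l m := by
    intro m hm ε hε hεδ
    obtain ⟨K, hK, hKs⟩ := exists_compact_lt (T m) (half_pos hδ)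
    refine ⟨K, hK, fun χ h1 h2 h3 => ?_⟩
    have hcont : Continuous (fun x => χ x * (T m x - Φ x + ε)) :=
      (map_continuous χ).mul (((map_continuous (T m)).sub hΦ).add continuous_const)
    let f : C_c(X, ℝ) := ⟨⟨fun x => χ x * (T m x - Φ x + ε), hcont⟩,
      HasCompactSupport.mul_right χ.hasCompactSupport⟩
    have hf : ∀ x, T m x - Φ x < cc0 f x := by
      intro x
      have e : cc0 f x = χ x * (T m x - Φ x + ε) := rfl
      rw [e]
      by_cases hx : x ∈ K
      · rw [h1 x hx]; linarith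
      · have k1 := (abs_lt.1 (hKs x hx)).2
        have k2 := hΦδ x
        have k3 : T m x - Φ x + ε ≤ 0 := by linarith
        have k4 := h3 x
        nlinarith
    have h := hQ m hm (cc0 f) hf
    rw [← hνQ] at h
    have e2 : ∫ x, χ x * (Φ x - T m x - ε) ∂ν = -∫ x, f x ∂ν := by
      rw [← integral_neg]
      congr 1
      funext x
      have e : f x = χ x * (T m x - Φ x + ε) := rfl
      rw [e]; ring
    rw [e2]; linarith
  have hcov : AECover ν atTop (compactCovering X) := by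
    refine ⟨Eventually.of_forall fun x => ?_, fun n => ?_⟩
    · obtain ⟨n, hn⟩ := exists_mem_compactCovering x
      filter_upwards [eventually_ge_atTop n] with k hk
      exact compactCovering_subset X hk hn
    · exact (isCompact_compactCovering X n).measurableSet
  -- integrability
  have hint1 : ∀ n, IntegrableOn (fun x => Φ x - δ / 4) (compactCovering X n) ν := by
    intro n
    exact (hΦ.sub continuous_const).continuousOn.integrableOn_compact
      (isCompact_compactCovering X n)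
  have hpos : ∀ x, 0 ≤ Φ x - δ / 4 := fun x => by
    have := hΦδ x; linarith
  have hI1 : Integrable (fun x => Φ x - δ / 4) ν := by
    refine hcov.integrable_of_integral_bounded_of_nonneg_ae v hint1
      (Eventually.of_forall hpos) (Eventually.of_forall fun n => ?_)
    obtain ⟨K, hK, hKb⟩ := basic 0 h0 (δ / 4) (by linarith) (by linarith)
    obtain ⟨χ, h1, h2, h3⟩ := exists_cut (hK.union (isCompact_compactCovering X n))
    have h := hKb χ (fun x hx => h1 x (Or.inl hx)) h2 h3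
    have e1 : (fun x => χ x * (Φ x - T 0 x - δ / 4)) = fun x => χ x * (Φ x - δ / 4) := by
      funext x
      have e : T 0 x = 0 := by rw [map_zero]; rfl
      rw [e, sub_zero]
    rw [e1, map_zero, sub_zero] at h
    refine le_trans ?_ h
    have hcs : Integrable (fun x => χ x * (Φ x - δ / 4)) ν := by
      have hcont : Continuous (fun x => χ x * (Φ x - δ / 4)) :=
        (map_continuous χ).mul (hΦ.sub continuous_const)
      exact hcont.integrable_of_hasCompactSupport
        (HasCompactSupport.mul_right χ.hasCompactSupport)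
    rw [← integral_indicator (isCompact_compactCovering X n).measurableSet]
    refine integral_mono ((hint1 n).integrable_indicator
      (isCompact_compactCovering X n).measurableSet) hcs fun x => ?_
    by_cases hx : x ∈ compactCovering X n
    · rw [indicator_of_mem hx]
      simp only [h1 x (Or.inr hx), one_mul, le_refl]
    · rw [indicator_of_notMem hx]
      exact mul_nonneg (h2 x) (hpos x)
  have hI : Integrable Φ ν := by
    have h := hI1.add (integrable_const (δ / 4))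
    refine h.congr (Eventually.of_forall fun x => ?_)
    simp
  refine ⟨ν, hν, hI, fun m hm => ?_⟩
  have hTm : Integrable (fun x => T m x) ν := by
    refine Integrable.mono' (integrable_const ‖T m‖)
      (map_continuous (T m)).aestronglyMeasurable (Eventually.of_forall fun x => ?_)
    rw [Real.norm_eq_abs]
    exact le_norm_c0 (T m) x
  have hD : Integrable (fun x => Φ x - T m x) ν := hI.sub hTm
  -- the inequality with `ε`
  have key : ∀ ε : ℝ, 0 < ε → ε < δ / 2 →
      ∫ x, (Φ x - T m x) ∂ν ≤ v - l m + ε * ν.real univ := by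
    intro ε hε hεδ
    obtain ⟨K, hK, hKb⟩ := basic m hm ε hε hεδ
    have hDe : Integrable (fun x => Φ x - T m x - ε) ν := hD.sub (integrable_const ε)
    choose χ h1 h2 h3 using fun n : ℕ => exists_cut (hK.union (isCompact_compactCovering X n))
    have hlim : Tendsto (fun n => ∫ x, χ n x * (Φ x - T m x - ε) ∂ν) atTop
        (𝓝 (∫ x, (Φ x - T m x - ε) ∂ν)) := by
      refine tendsto_integral_of_dominated_convergence (fun x => |Φ x - T m x - ε|)
        (fun n => ?_) hDe.abs (fun n => ?_) ?_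
      · exact (map_continuous (χ n)).aestronglyMeasurable.mul hDe.aestronglyMeasurable
      · refine Eventually.of_forall fun x => ?_
        rw [Real.norm_eq_abs, abs_mul, abs_of_nonneg (h2 n x)]
        exact mul_le_of_le_one_left (abs_nonneg _) (h3 n x)
      · refine Eventually.of_forall fun x => ?_
        obtain ⟨n, hn⟩ := exists_mem_compactCovering x
        refine tendsto_const_nhds.congr' ?_
        filter_upwards [eventually_ge_atTop n] with k hk
        rw [h1 k x (Or.inr (compactCovering_subset X hk hn)), one_mul]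
    have hle := le_of_tendsto hlim (Eventually.of_forall fun n =>
      hKb (χ n) (fun x hx => h1 n x (Or.inl hx)) (h2 n) (h3 n))
    have e : ∫ x, (Φ x - T m x - ε) ∂ν = ∫ x, (Φ x - T m x) ∂ν - ε * ν.real univ := by
      rw [integral_sub hD (integrable_const ε), integral_const, smul_eq_mul, mul_comm]
    rw [e] at hle
    linarith
  refine le_of_forall_pos_le_add fun η hη => ?_
  set M : ℝ := ν.real univ with hM
  have hM0 : 0 ≤ M := measureReal_nonneg
  have hpos2 : 0 < min (δ / 4) (η / (M + 1)) := lt_min (by linarith) (by positivity)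
  have h := key (min (δ / 4) (η / (M + 1))) hpos2
    ((min_le_left _ _).trans_lt (by linarith))
  refine h.trans ?_
  have h5 : min (δ / 4) (η / (M + 1)) * M ≤ η := by
    calc min (δ / 4) (η / (M + 1)) * M ≤ η / (M + 1) * M :=
          mul_le_mul_of_nonneg_right (min_le_right _ _) hM0
      _ ≤ η / (M + 1) * (M + 1) :=
          mul_le_mul_of_nonneg_left (by linarith) (by positivity)
      _ = η := by field_simp
  linarith

end Pool.Agent.IND2I
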