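import Pool.Agent.IND2I.KI

/-!
# IND2I, module KZ: the kernels with `b = 0`, integer order `p ≥ 1`

PROOF of `kz_bounds`.  `kk p θ` is continuous and has no zero: `aa ≠ 0` (`ab_ne`), so `pattern_neg` or `pattern_pos` applies; hence
two-sided bounds on every compact interval (`psi` is bounded above and below there by positive constants).  At `-∞`: `kk_left_asymp`
(`kp p = 1`), `kk = aa/(p+1) e^s + O(e^{2s})`.  At `+∞`: `ker p w 1 = log ‖1 + w‖ + Re ∑_{j<p} (-w)^{j+1}/(j+1)`, the term `j + 1 = p` vanishes.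
`p ≥ 2`: the term `j + 1 = p - 1` is `(-1)^{p-1} cos ((p-1)θ) e^{(p-1)s}/(p-1)` and `(-1)^{p-1} cos ((p-1) θ) = aa`
(because `cos (pθ) = 0`: `cos ((p±1)θ) = ∓ sin (pθ) sin θ`), all the others are `O((1+s) + e^{(p-2)s})`, so
`kk e^s → aa/(p-1) ≠ 0`.  `p = 1`: `cos θ = 0`, `‖1 + w‖² = 1 + e^{2s}`, `kk = e^{-s} (1/2) log (1 + e^{2s})`, and
`s ≤ (1/2) log (1 + e^{2s}) ≤ s + 1` for `s ≥ 0`.
`psi_shift`: cases; for `s ≥ 0`, `p = 1`: `(1 + s + u) ≤ (1 + s)(1 + u)`, `(1 + u) e^{-u} ≤ C e^{-u/2}`; for `s = 0` both formulas give `1`.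
The rest: combine (`kz_le`: both kernels are negative, `|kk l| ≥ c |kk l'|`; `kz_le_r`: both positive).
-/

set_option autoImplicit false

namespace Pool.Agent.IND2I

open MeasureTheory Set Helper25.Ind

private lemma kz_norm (θ s : ℝ) :
    ‖((Real.exp s : ℝ) : ℂ) * Complex.exp (θ * Complex.I)‖ = Real.exp s := by
  rw [norm_mul, Complex.norm_real, Complex.norm_exp_ofReal_mul_I, mul_one, Real.norm_eq_abs,
    abs_of_pos (Real.exp_pos s)]

private lemma kz_w {θ : ℝ} (h0 : 0 ≤ θ) (h1 : θ < Real.pi) : ∃ c : ℝ, 0 < c ∧ ∀ s : ℝ,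
    c * (1 + Real.exp s) ≤ ‖1 + ((Real.exp s : ℝ) : ℂ) * Complex.exp (θ * Complex.I)‖ := by
  refine ⟨Real.sin ((Real.pi - θ) / 2), ?_, fun s => ?_⟩
  · exact Real.sin_pos_of_pos_of_lt_pi (by linarith) (by linarith [Real.pi_pos])
  · have h2 := norm_one_add_ge (z := ((Real.exp s : ℝ) : ℂ) * Complex.exp (θ * Complex.I))
      (δ := Real.pi - θ) (by linarith) (by linarith) (by
        rw [Complex.arg_real_mul _ (Real.exp_pos s), Complex.exp_mul_I,
          Complex.arg_cos_add_sin_mul_I ⟨by linarith [Real.pi_pos], h1.le⟩, abs_of_nonneg h0]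
        linarith)
    rw [kz_norm, mul_comm] at h2
    exact h2

private lemma kz_expand {p : ℕ} {θ : ℝ} (h0 : 0 ≤ θ) (h1 : θ < Real.pi) (s : ℝ) :
    kk p θ s = Real.exp (-(p * s)) *
      (Real.log ‖1 + ((Real.exp s : ℝ) : ℂ) * Complex.exp (θ * Complex.I)‖ +
      ∑ j ∈ Finset.range p, (-1) ^ (j + 1) * Real.cos (((j : ℝ) + 1) * θ) *
        Real.exp (((j : ℝ) + 1) * s) / ((j : ℝ) + 1)) := by
  obtain ⟨c, hc, hw⟩ := kz_w h0 h1
  have hne : 1 + ((Real.exp s : ℝ) : ℂ) * Complex.exp (θ * Complex.I) ≠ 0 := by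
    rw [← norm_pos_iff]
    refine lt_of_lt_of_le ?_ (hw s)
    have := Real.exp_pos s
    positivity
  unfold kk
  rw [Nat.floor_natCast]
  congr 1
  have h2 := kera_eq p (((Real.exp s : ℝ) : ℂ) * Complex.exp (θ * Complex.I)) (t := 1)
    (by rw [Complex.ofReal_one, div_one]; exact hne)
  rw [h2, Complex.ofReal_one, div_one]
  unfold keraLog
  rw [Complex.add_re, Complex.log_re, Complex.re_sum]
  congr 1
  refine Finset.sum_congr rfl fun j _ => ?_
  have h3 : (-(((Real.exp s : ℝ) : ℂ) * Complex.exp (θ * Complex.I))) ^ (j + 1) / ((j : ℂ) + 1) =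
      (((-1) ^ (j + 1) * Real.exp (((j : ℝ) + 1) * s) / ((j : ℝ) + 1) : ℝ) : ℂ) *
        Complex.exp (((((j : ℝ) + 1) * θ : ℝ) : ℂ) * Complex.I) := by
    have e1 : Real.exp (((j : ℝ) + 1) * s) = Real.exp s ^ (j + 1) := by
      rw [← Real.exp_nat_mul]
      push_cast
      rfl
    have e2 : Complex.exp (((((j : ℝ) + 1) * θ : ℝ) : ℂ) * Complex.I) =
        Complex.exp (θ * Complex.I) ^ (j + 1) := by
      rw [← Complex.exp_nat_mul]
      congr 1
      push_cast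
      ring
    rw [e1, e2, neg_pow, mul_pow]
    push_cast
    ring
  rw [h3, Complex.re_ofReal_mul, Complex.exp_ofReal_mul_I_re]
  ring

private lemma psi_nn (p : ℕ) {s : ℝ} (hs : 0 ≤ s) :
    psi p s = if p = 1 then (1 + s) * Real.exp (-s) else Real.exp (-s) := by
  unfold psi
  rcases eq_or_lt_of_le hs with h | h
  · subst h
    simp
  · rw [if_neg (not_le.2 h)]

private lemma psi_neg {p : ℕ} {s : ℝ} (hs : s ≤ 0) : psi p s = Real.exp s := by
  unfold psi
  rw [if_pos hs]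

private lemma psi_pos (p : ℕ) (s : ℝ) : 0 < psi p s := by
  rcases le_total s 0 with h | h
  · rw [psi_neg h]
    exact Real.exp_pos _
  · rw [psi_nn p h]
    split_ifs
    · exact mul_pos (by linarith) (Real.exp_pos _)
    · exact Real.exp_pos _

private lemma psi_le_one (p : ℕ) (s : ℝ) : psi p s ≤ 1 := by
  rcases le_total s 0 with h | h
  · rw [psi_neg h]
    exact Real.exp_le_one_iff.2 h
  · rw [psi_nn p h]
    split_ifs
    · have h1 := Real.add_one_le_exp s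
      rw [Real.exp_neg, ← div_eq_mul_inv, div_le_one (Real.exp_pos s)]
      linarith
    · exact Real.exp_le_one_iff.2 (by linarith)

private lemma kz_log {θ : ℝ} (h0 : 0 ≤ θ) (h1 : θ < Real.pi) : ∃ C : ℝ, 0 ≤ C ∧ ∀ s : ℝ, 0 ≤ s →
    |Real.log ‖1 + ((Real.exp s : ℝ) : ℂ) * Complex.exp (θ * Complex.I)‖| ≤ C + s := by
  obtain ⟨c, hc, hw⟩ := kz_w h0 h1
  refine ⟨|Real.log c| + 1, by positivity, fun s hs => ?_⟩
  have hexp : 1 ≤ Real.exp s := Real.one_le_exp hs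
  have h2 : c ≤ ‖1 + ((Real.exp s : ℝ) : ℂ) * Complex.exp (θ * Complex.I)‖ := by
    refine le_trans ?_ (hw s)
    nlinarith
  have h3 : ‖1 + ((Real.exp s : ℝ) : ℂ) * Complex.exp (θ * Complex.I)‖ ≤ 2 * Real.exp s := by
    refine (norm_add_le _ _).trans ?_
    rw [kz_norm, norm_one]
    linarith
  have h4 := Real.log_le_log hc h2
  have h5 := Real.log_le_log (hc.trans_le h2) h3
  rw [Real.log_mul two_ne_zero (Real.exp_pos s).ne', Real.log_exp] at h5
  have h6 : Real.log 2 ≤ 1 := by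
    have := Real.log_two_lt_d9
    linarith
  have h7 := neg_abs_le (Real.log c)
  have h8 := abs_nonneg (Real.log c)
  rw [abs_le]
  constructor <;> linarith

private lemma kz_cos {p : ℕ} {θ : ℝ} (hb : bb p θ = 0) : Real.cos (p * θ) = 0 := by
  unfold bb at hb
  rw [Nat.floor_natCast] at hb
  rcases mul_eq_zero.1 hb with h | h
  · exact absurd h (pow_ne_zero _ (by norm_num))
  · exact h

/-- case `p = 1` -/
private lemma kz_right_one {θ : ℝ} (h0 : 0 ≤ θ) (h1 : θ < Real.pi) (hb : bb (1 : ℕ) θ = 0) {s : ℝ}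
    (hs : 0 ≤ s) : s * Real.exp (-s) ≤ kk (1 : ℕ) θ s ∧
      kk (1 : ℕ) θ s ≤ (1 + s) * Real.exp (-s) := by
  have hcos : Real.cos θ = 0 := by
    have h2 := kz_cos hb
    rwa [Nat.cast_one, one_mul] at h2
  have hsin : Real.sin θ ^ 2 = 1 := by
    have h2 := Real.sin_sq_add_cos_sq θ
    rw [hcos] at h2
    linarith
  have h3 := kz_expand (p := 1) h0 h1 s
  rw [Finset.sum_range_one, Nat.cast_zero, zero_add, zero_add, one_mul, hcos, mul_zero, zero_mul,
    zero_div, add_zero, Nat.cast_one, one_mul] at h3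
  have h4 : ‖1 + ((Real.exp s : ℝ) : ℂ) * Complex.exp (θ * Complex.I)‖ ^ 2 =
      1 + Real.exp s ^ 2 := by
    rw [← Complex.normSq_eq_norm_sq, Complex.normSq_apply, Complex.add_re, Complex.add_im,
      Complex.one_re, Complex.one_im, Complex.re_ofReal_mul, Complex.im_ofReal_mul,
      Complex.exp_ofReal_mul_I_re, Complex.exp_ofReal_mul_I_im, hcos]
    have : Real.sin θ * Real.sin θ = 1 := by rw [← sq, hsin]
    linear_combination Real.exp s ^ 2 * this
  have hexp : 1 ≤ Real.exp s := Real.one_le_exp hs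
  have h5 : Real.exp s ≤ ‖1 + ((Real.exp s : ℝ) : ℂ) * Complex.exp (θ * Complex.I)‖ := by
    refine le_of_pow_le_pow_left₀ two_ne_zero (norm_nonneg _) ?_
    rw [h4]
    linarith
  have h6 : ‖1 + ((Real.exp s : ℝ) : ℂ) * Complex.exp (θ * Complex.I)‖ ≤ 2 * Real.exp s := by
    refine le_of_pow_le_pow_left₀ two_ne_zero (by positivity) ?_
    rw [h4]
    nlinarith
  have h7 := Real.log_le_log (Real.exp_pos s) h5
  have h8 := Real.log_le_log ((Real.exp_pos s).trans_le h5) h6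
  rw [Real.log_exp] at h7
  rw [Real.log_mul two_ne_zero (Real.exp_pos s).ne', Real.log_exp] at h8
  have h9 : Real.log 2 ≤ 1 := by
    have := Real.log_two_lt_d9
    linarith
  have h10 := Real.exp_pos (-s)
  rw [Nat.cast_one, h3]
  constructor
  · rw [mul_comm]
    exact mul_le_mul_of_nonneg_left h7 h10.le
  · rw [mul_comm]
    exact mul_le_mul_of_nonneg_right (by linarith) h10.le

/-- case `p ≥ 2` -/
private lemma kz_right_two (q : ℕ) {θ : ℝ} (h0 : 0 ≤ θ) (h1 : θ < Real.pi)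
    (hb : bb (q + 2 : ℕ) θ = 0) : ∃ D : ℝ, 0 ≤ D ∧ ∀ s : ℝ, 0 ≤ s →
      |kk (q + 2 : ℕ) θ s - aa (q + 2 : ℕ) θ / ((q : ℝ) + 1) * Real.exp (-s)| ≤
        (D + s) * Real.exp (-s) * Real.exp (-s) := by
  obtain ⟨C, hC, hlog⟩ := kz_log h0 h1
  have hcos := kz_cos hb
  have ha : aa (q + 2 : ℕ) θ = (-1) ^ (q + 1) * Real.cos (((q : ℝ) + 1) * θ) := by
    unfold aa
    rw [Nat.floor_natCast]
    have e1 : Real.cos ((((q + 2 : ℕ) : ℝ) + 1) * θ) = -Real.cos (((q : ℝ) + 1) * θ) := by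
      have e2 : (((q + 2 : ℕ) : ℝ) + 1) * θ = ((q + 2 : ℕ) : ℝ) * θ + θ := by ring
      have e3 : ((q : ℝ) + 1) * θ = ((q + 2 : ℕ) : ℝ) * θ - θ := by
        push_cast
        ring
      rw [e2, e3, Real.cos_add, Real.cos_sub, hcos]
      ring
    rw [e1]
    ring
  refine ⟨C + q, by positivity, fun s hs => ?_⟩
  have h3 := kz_expand (p := q + 2) h0 h1 s
  rw [Finset.sum_range_succ, Finset.sum_range_succ] at h3
  have e4 : (((q + 1 : ℕ) : ℝ) + 1) * θ = ((q + 2 : ℕ) : ℝ) * θ := by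
    push_cast
    ring
  rw [e4, hcos, mul_zero, zero_mul, zero_div, add_zero] at h3
  obtain ⟨R, hR⟩ : ∃ R : ℝ, R = ∑ j ∈ Finset.range q, (-1) ^ (j + 1) *
    Real.cos (((j : ℝ) + 1) * θ) * Real.exp (((j : ℝ) + 1) * s) / ((j : ℝ) + 1) := ⟨_, rfl⟩
  obtain ⟨W, hW⟩ : ∃ W : ℝ, W = Real.log ‖1 + ((Real.exp s : ℝ) : ℂ) *
    Complex.exp (θ * Complex.I)‖ := ⟨_, rfl⟩
  have hWs := hlog s hs
  rw [← hW] at hWs
  rw [← hR, ← hW, ← ha] at h3
  have hRs : |R| ≤ q * Real.exp (q * s) := by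
    rw [hR]
    refine (Finset.abs_sum_le_sum_abs _ _).trans ?_
    have h4 : ∀ j ∈ Finset.range q, |(-1) ^ (j + 1) * Real.cos (((j : ℝ) + 1) * θ) *
        Real.exp (((j : ℝ) + 1) * s) / ((j : ℝ) + 1)| ≤ Real.exp (q * s) := by
      intro j hj
      rw [Finset.mem_range] at hj
      have hj1 : (j : ℝ) + 1 ≤ q := by exact_mod_cast hj
      have hj0 : (0 : ℝ) ≤ j := Nat.cast_nonneg j
      rw [abs_div, abs_mul, abs_mul, abs_pow, abs_neg, abs_one, one_pow, one_mul,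
        abs_of_pos (Real.exp_pos _), abs_of_pos (by linarith : (0 : ℝ) < (j : ℝ) + 1)]
      rw [div_le_iff₀ (by linarith)]
      have h5 := Real.abs_cos_le_one (((j : ℝ) + 1) * θ)
      have h6 : Real.exp (((j : ℝ) + 1) * s) ≤ Real.exp (q * s) := by
        rw [Real.exp_le_exp]
        exact mul_le_mul_of_nonneg_right hj1 hs
      have h7 := Real.exp_pos (((j : ℝ) + 1) * s)
      have h8 := abs_nonneg (Real.cos (((j : ℝ) + 1) * θ))
      have h9 := Real.exp_pos ((q : ℝ) * s)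
      calc |Real.cos (((j : ℝ) + 1) * θ)| * Real.exp (((j : ℝ) + 1) * s)
          ≤ 1 * Real.exp (q * s) := mul_le_mul h5 h6 h7.le zero_le_one
        _ ≤ Real.exp (q * s) * ((j : ℝ) + 1) := by nlinarith
    refine (Finset.sum_le_sum h4).trans ?_
    rw [Finset.sum_const, Finset.card_range, nsmul_eq_mul]
  have e5 : kk (q + 2 : ℕ) θ s - aa (q + 2 : ℕ) θ / ((q : ℝ) + 1) * Real.exp (-s) =
      Real.exp (-(((q + 2 : ℕ) : ℝ) * s)) * (W + R) := by
    rw [h3]
    have e6 : Real.exp (-s) = Real.exp (-(((q + 2 : ℕ) : ℝ) * s)) *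
        Real.exp (((q : ℝ) + 1) * s) := by
      rw [← Real.exp_add]
      congr 1
      push_cast
      ring
    rw [e6]
    ring
  have e7 : Real.exp (-(((q + 2 : ℕ) : ℝ) * s)) =
      Real.exp (-s) * Real.exp (-s) * Real.exp (-(q * s)) := by
    rw [← Real.exp_add, ← Real.exp_add]
    congr 1
    push_cast
    ring
  have h10 : Real.exp (-(q * s)) ≤ 1 := by
    rw [Real.exp_le_one_iff]
    have : 0 ≤ (q : ℝ) * s := by positivity
    linarith
  have h11 : Real.exp (-(q * s)) * Real.exp (q * s) = 1 := by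
    rw [← Real.exp_add, neg_add_cancel, Real.exp_zero]
  have h12 := Real.exp_pos (-(q * s))
  have h13 : Real.exp (-(q * s)) * |W + R| ≤ C + q + s := by
    have h14 := abs_add_le W R
    calc Real.exp (-(q * s)) * |W + R| ≤ Real.exp (-(q * s)) * (C + s + q * Real.exp (q * s)) :=
          mul_le_mul_of_nonneg_left (by linarith) h12.le
      _ = Real.exp (-(q * s)) * (C + s) + q * (Real.exp (-(q * s)) * Real.exp (q * s)) := by
          ring
      _ ≤ 1 * (C + s) + q * 1 := by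
          rw [h11]
          have : Real.exp (-(q * s)) * (C + s) ≤ 1 * (C + s) :=
            mul_le_mul_of_nonneg_right h10 (by linarith)
          linarith
      _ = C + q + s := by ring
  rw [e5, abs_mul, abs_of_pos (Real.exp_pos _), e7]
  have h15 : 0 ≤ Real.exp (-s) * Real.exp (-s) := by positivity
  calc Real.exp (-s) * Real.exp (-s) * Real.exp (-(q * s)) * |W + R|
      = Real.exp (-s) * Real.exp (-s) * (Real.exp (-(q * s)) * |W + R|) := by ring
    _ ≤ Real.exp (-s) * Real.exp (-s) * (C + q + s) := mul_le_mul_of_nonneg_left h13 h15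
    _ = (C + q + s) * Real.exp (-s) * Real.exp (-s) := by ring

private lemma kz_sexp {s : ℝ} (hs : 0 ≤ s) : s * Real.exp (-s) ≤ 1 := by
  have h1 := Real.add_one_le_exp s
  rw [Real.exp_neg, ← div_eq_mul_inv, div_le_one (Real.exp_pos s)]
  linarith

private lemma kz_aa {p : ℕ} {θ : ℝ} (h0 : 0 ≤ θ) (h1 : θ < Real.pi) (hb : bb p θ = 0) :
    aa p θ ≠ 0 := fun h => ab_ne p ⟨h0, h1.le⟩ ⟨h, hb⟩

private lemma kz_right {p : ℕ} (hp : 1 ≤ p) {θ : ℝ} (h0 : 0 ≤ θ) (h1 : θ < Real.pi)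
    (hb : bb p θ = 0) : ∃ C c L : ℝ, 0 ≤ C ∧ 0 < c ∧ 0 ≤ L ∧
      (∀ s, 0 ≤ s → |kk p θ s| ≤ C * psi p s) ∧ ∀ s, L ≤ s → c * psi p s ≤ |kk p θ s| := by
  rcases eq_or_lt_of_le hp with h | h
  · subst h
    refine ⟨1, 1 / 2, 1, zero_le_one, by norm_num, zero_le_one, fun s hs => ?_, fun s hs => ?_⟩
    · obtain ⟨h2, h3⟩ := kz_right_one h0 h1 hb hs
      have h4 : 0 ≤ s * Real.exp (-s) := mul_nonneg hs (Real.exp_pos _).le
      rw [psi_nn 1 hs, if_pos rfl, abs_of_nonneg (h4.trans h2), one_mul]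
      exact h3
    · have hs0 : 0 ≤ s := by linarith
      obtain ⟨h2, h3⟩ := kz_right_one h0 h1 hb hs0
      rw [psi_nn 1 hs0, if_pos rfl]
      refine le_trans ?_ (h2.trans (le_abs_self _))
      have h5 := Real.exp_pos (-s)
      nlinarith
  · obtain ⟨q, rfl⟩ : ∃ q, p = q + 2 := ⟨p - 2, by omega⟩
    obtain ⟨D, hD, hk⟩ := kz_right_two q h0 h1 hb
    have ha := kz_aa h0 h1 hb
    have hq : (0 : ℝ) < (q : ℝ) + 1 := by positivity
    obtain ⟨α, hα⟩ : ∃ α, α = aa (q + 2 : ℕ) θ / ((q : ℝ) + 1) := ⟨_, rfl⟩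
    have hα0 : 0 < |α| := by
      rw [hα, abs_pos]
      exact div_ne_zero ha hq.ne'
    have hlim : Filter.Tendsto (fun s : ℝ => (D + s) * Real.exp (-s)) Filter.atTop (nhds 0) := by
      have t1 := Real.tendsto_exp_neg_atTop_nhds_zero.const_mul D
      have t2 := Real.tendsto_pow_mul_exp_neg_atTop_nhds_zero 1
      have t3 := t1.add t2
      rw [mul_zero, add_zero] at t3
      refine t3.congr fun s => ?_
      rw [pow_one, add_mul]
    obtain ⟨L, hL⟩ := Filter.eventually_atTop.1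
      (hlim.eventually_le_const (half_pos hα0))
    have hne : q + 2 ≠ 1 := by omega
    refine ⟨|α| + (D + 1), |α| / 2, max L 0, by positivity, half_pos hα0, le_max_right _ _,
      fun s hs => ?_, fun s hs => ?_⟩
    · have h2 := hk s hs
      rw [← hα] at h2
      rw [psi_nn _ hs, if_neg hne]
      have h5 := Real.exp_pos (-s)
      have h6 : Real.exp (-s) ≤ 1 := Real.exp_le_one_iff.2 (by linarith)
      have h7 : (D + s) * Real.exp (-s) ≤ D + 1 := by
        have := kz_sexp hs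
        nlinarith
      have h8 : (D + s) * Real.exp (-s) * Real.exp (-s) ≤ (D + 1) * Real.exp (-s) :=
        mul_le_mul_of_nonneg_right h7 h5.le
      have h9 : |kk (q + 2 : ℕ) θ s| ≤ |kk (q + 2 : ℕ) θ s - α * Real.exp (-s)| +
          |α * Real.exp (-s)| := by
        have := abs_add_le (kk (q + 2 : ℕ) θ s - α * Real.exp (-s)) (α * Real.exp (-s))
        rwa [sub_add_cancel] at this
      rw [abs_mul, abs_of_pos h5] at h9
      rw [add_mul]
      linarith
    · have hs0 : 0 ≤ s := (le_max_right _ _).trans hs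
      have h2 := hk s hs0
      rw [← hα] at h2
      rw [psi_nn _ hs0, if_neg hne]
      have h5 := Real.exp_pos (-s)
      have h7 := hL s ((le_max_left _ _).trans hs)
      have h8 : (D + s) * Real.exp (-s) * Real.exp (-s) ≤ |α| / 2 * Real.exp (-s) :=
        mul_le_mul_of_nonneg_right h7 h5.le
      have h9 : |α * Real.exp (-s)| ≤ |kk (q + 2 : ℕ) θ s| +
          |kk (q + 2 : ℕ) θ s - α * Real.exp (-s)| := by
        have := abs_sub_abs_le_abs_sub (α * Real.exp (-s)) (kk (q + 2 : ℕ) θ s)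
        rw [abs_sub_comm (α * Real.exp (-s))] at this
        linarith
      rw [abs_mul, abs_of_pos h5] at h9
      linarith

private lemma kz_left {p : ℕ} {θ : ℝ} (h0 : 0 ≤ θ) (h1 : θ < Real.pi)
    (hb : bb p θ = 0) : ∃ c L : ℝ, 0 < c ∧ 0 ≤ L ∧
      ∀ s, s ≤ -L → c * Real.exp s ≤ |kk p θ s| := by
  obtain ⟨C, hC, hk⟩ := kk_left_asymp p
  have ha := kz_aa h0 h1 hb
  have hkp : kp (p : ℝ) = 1 := by
    unfold kp
    rw [Nat.floor_natCast]
    ring
  have hp1 : (0 : ℝ) < (p : ℝ) + 1 := by positivity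
  obtain ⟨α, hα⟩ : ∃ α, α = aa p θ / ((p : ℝ) + 1) := ⟨_, rfl⟩
  have hα0 : 0 < |α| := by
    rw [hα, abs_pos]
    exact div_ne_zero ha hp1.ne'
  refine ⟨|α| / 2, max 1 (-(Real.log (|α| / (2 * C)))), half_pos hα0,
    zero_le_one.trans (le_max_left _ _), fun s hs => ?_⟩
  have hs1 : s ≤ -1 := by
    have := le_max_left 1 (-(Real.log (|α| / (2 * C))))
    linarith
  have hs2 : s ≤ Real.log (|α| / (2 * C)) := by
    have := le_max_right 1 (-(Real.log (|α| / (2 * C))))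
    linarith
  have h2 := hk θ ⟨h0, h1.le⟩ s hs1
  rw [hkp, Nat.floor_natCast, one_mul, ← hα] at h2
  have h3 : Real.exp s ≤ |α| / (2 * C) := by
    rw [← Real.exp_log (by positivity : 0 < |α| / (2 * C)), Real.exp_le_exp]
    exact hs2
  have h5 := Real.exp_pos s
  have h4 : C * Real.exp ((1 + 1) * s) ≤ |α| / 2 * Real.exp s := by
    have e1 : Real.exp ((1 + 1) * s) = Real.exp s * Real.exp s := by
      rw [← Real.exp_add]
      congr 1
      ring
    rw [e1]
    have h6 : C * Real.exp s ≤ |α| / 2 := by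
      calc C * Real.exp s ≤ C * (|α| / (2 * C)) := mul_le_mul_of_nonneg_left h3 hC.le
        _ = |α| / 2 := by field_simp
    nlinarith
  have h9 : |α * Real.exp s| ≤ |kk p θ s| + |kk p θ s - α * Real.exp s| := by
    have := abs_sub_abs_le_abs_sub (α * Real.exp s) (kk p θ s)
    rw [abs_sub_comm (α * Real.exp s)] at this
    linarith
  rw [abs_mul, abs_of_pos h5] at h9
  have h10 := h2.trans h4
  have h11 : |α| * Real.exp s = |α| / 2 * Real.exp s + |α| / 2 * Real.exp s := by ring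
  linarith

private lemma kz_ne {p : ℕ} {θ : ℝ} (h0 : 0 ≤ θ) (h1 : θ < Real.pi)
    (hb : bb p θ = 0) (s : ℝ) : kk p θ s ≠ 0 := by
  rcases le_total (aa p θ) 0 with h | h
  · exact (pattern_neg p ⟨h0, h1.le⟩ h hb.le s).ne
  · exact (pattern_pos p ⟨h0, h1.le⟩ h hb.ge s).ne'

theorem kz_bounds {p : ℕ} (hp : 1 ≤ p) {θ : ℝ} (h0 : 0 ≤ θ) (h1 : θ < Real.pi) (hb : bb p θ = 0) :
    ∃ C c : ℝ, 1 ≤ C ∧ 0 < c ∧ ∀ s, c * psi p s ≤ |kk p θ s| ∧ |kk p θ s| ≤ C * psi p s := by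
  obtain ⟨C1, c1, L1, hC1, hc1, hL1, hu, hl⟩ := kz_right hp h0 h1 hb
  obtain ⟨c3, L3, hc3, hL3, hl3⟩ := kz_left h0 h1 hb
  obtain ⟨C2, hC2, hu2⟩ := kk_left hp h0 h1
  obtain ⟨s₁, hs₁, hmin⟩ := (isCompact_Icc (a := -L3) (b := L1)).exists_isMinOn
    ⟨0, by constructor <;> linarith⟩ (continuous_kk p h0 h1).abs.continuousOn
  have hm : 0 < |kk p θ s₁| := abs_pos.2 (kz_ne h0 h1 hb s₁)
  refine ⟨max (max C1 C2) 1, min (min c1 c3) |kk p θ s₁|, le_max_right _ _,
    lt_min (lt_min hc1 hc3) hm, fun s => ?_⟩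
  have hψ := psi_pos p s
  constructor
  · rcases le_total s (-L3) with h | h
    · have h2 := hl3 s h
      rw [← psi_neg (p := p) (by linarith : s ≤ 0)] at h2
      exact (mul_le_mul_of_nonneg_right ((min_le_left _ _).trans (min_le_right _ _))
        hψ.le).trans h2
    · rcases le_total L1 s with h' | h'
      · exact (mul_le_mul_of_nonneg_right ((min_le_left _ _).trans (min_le_left _ _))
          hψ.le).trans (hl s h')
      · have h3 : |kk p θ s₁| ≤ |kk p θ s| := hmin ⟨h, h'⟩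
        calc min (min c1 c3) |kk p θ s₁| * psi p s ≤ |kk p θ s₁| * 1 :=
              mul_le_mul (min_le_right _ _) (psi_le_one p s) hψ.le hm.le
          _ ≤ |kk p θ s| := by rw [mul_one]; exact h3
  · rcases le_total s 0 with h | h
    · have h2 := hu2 s h
      rw [← psi_neg (p := p) h] at h2
      exact h2.trans (mul_le_mul_of_nonneg_right ((le_max_right _ _).trans (le_max_left _ _))
        hψ.le)
    · exact (hu s h).trans (mul_le_mul_of_nonneg_right
        ((le_max_left _ _).trans (le_max_left _ _)) hψ.le)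

theorem psi_shift (p : ℕ) : ∃ C : ℝ, 1 ≤ C ∧
    (∀ s u, 0 ≤ s → 0 ≤ u → psi p (s + u) ≤ C * Real.exp (-(1 / 2 * u)) * psi p s) ∧
    ∀ s u, s ≤ 0 → 0 ≤ u → psi p (s - u) ≤ C * Real.exp (-(1 / 2 * u)) * psi p s := by
  have hu1 : ∀ u : ℝ, 0 ≤ u → Real.exp (-u) ≤ 2 * Real.exp (-(1 / 2 * u)) := by
    intro u hu
    have h1 : Real.exp (-u) ≤ Real.exp (-(1 / 2 * u)) := by
      rw [Real.exp_le_exp]
      linarith
    have h2 := Real.exp_pos (-(1 / 2 * u))
    linarith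
  refine ⟨2, one_le_two, fun s u hs hu => ?_, fun s u hs hu => ?_⟩
  · rw [psi_nn p (by linarith : 0 ≤ s + u), psi_nn p hs]
    have e1 : Real.exp (-(s + u)) = Real.exp (-s) * Real.exp (-u) := by
      rw [← Real.exp_add]
      congr 1
      ring
    have h5 := Real.exp_pos (-s)
    split_ifs
    · have h2 : (1 + u) * Real.exp (-u) ≤ 2 * Real.exp (-(1 / 2 * u)) := by
        have e2 : Real.exp (-u) = Real.exp (-(1 / 2 * u)) * Real.exp (-(1 / 2 * u)) := by
          rw [← Real.exp_add]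
          congr 1
          ring
        have h3 := Real.add_one_le_exp (1 / 2 * u)
        have h4 : Real.exp (1 / 2 * u) * Real.exp (-(1 / 2 * u)) = 1 := by
          rw [← Real.exp_add, add_neg_cancel, Real.exp_zero]
        have h6 := Real.exp_pos (-(1 / 2 * u))
        have h7 : (1 + u) * Real.exp (-(1 / 2 * u)) ≤ 2 := by
          calc (1 + u) * Real.exp (-(1 / 2 * u)) ≤
                (2 * Real.exp (1 / 2 * u)) * Real.exp (-(1 / 2 * u)) :=
                mul_le_mul_of_nonneg_right (by linarith) h6.le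
            _ = 2 := by rw [mul_assoc, h4, mul_one]
        rw [e2, ← mul_assoc]
        exact mul_le_mul_of_nonneg_right h7 h6.le
      have h8 : (1 + (s + u)) ≤ (1 + s) * (1 + u) := by nlinarith
      calc (1 + (s + u)) * Real.exp (-(s + u)) ≤ ((1 + s) * (1 + u)) * Real.exp (-(s + u)) :=
            mul_le_mul_of_nonneg_right h8 (Real.exp_pos _).le
        _ = (1 + s) * Real.exp (-s) * ((1 + u) * Real.exp (-u)) := by rw [e1]; ring
        _ ≤ (1 + s) * Real.exp (-s) * (2 * Real.exp (-(1 / 2 * u))) :=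
            mul_le_mul_of_nonneg_left h2 (by positivity)
        _ = _ := by ring
    · rw [e1, mul_comm (Real.exp (-s))]
      exact mul_le_mul_of_nonneg_right (hu1 u hu) h5.le
  · rw [psi_neg (by linarith : s - u ≤ 0), psi_neg hs]
    have e1 : Real.exp (s - u) = Real.exp (-u) * Real.exp s := by
      rw [← Real.exp_add]
      congr 1
      ring
    rw [e1]
    exact mul_le_mul_of_nonneg_right (hu1 u hu) (Real.exp_pos s).le

theorem kz_cmp {p : ℕ} (hp : 1 ≤ p) (Z : Finset ℝ)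
    (hZ : ∀ θ ∈ Z, 0 ≤ θ ∧ θ < Real.pi ∧ bb p θ = 0) {r : ℝ} (hr0 : 0 ≤ r) (hr1 : r < Real.pi)
    (hrb : bb p r = 0) (hra : 0 < aa p r) : ∃ C : ℝ, 1 ≤ C ∧ ∀ θ ∈ Z,
      (∀ s u, 0 ≤ s → 0 ≤ u → |kk p θ (s + u)| ≤ C * Real.exp (-(1 / 2 * u)) * kk p r s) ∧
      ∀ s u, s ≤ 0 → 0 ≤ u → |kk p θ (s - u)| ≤ C * Real.exp (-(1 / 2 * u)) * kk p r s := by
  obtain ⟨C₀, hC₀, hs1, hs2⟩ := psi_shift p
  obtain ⟨Cr, cr, hCr, hcr, hr⟩ := kz_bounds hp hr0 hr1 hrb
  have hrp : ∀ s, psi p s ≤ kk p r s / cr := by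
    intro s
    have h1 := (hr s).1
    rw [abs_of_pos (pattern_pos p ⟨hr0, hr1.le⟩ hra.le hrb.ge s)] at h1
    rw [le_div_iff₀ hcr]
    linarith
  have hrk : ∀ s, 0 < kk p r s := fun s => pattern_pos p ⟨hr0, hr1.le⟩ hra.le hrb.ge s
  have hex : ∀ θ ∈ Z, ∃ C : ℝ, 1 ≤ C ∧ ∀ s, |kk p θ s| ≤ C * psi p s := by
    intro θ hθ
    obtain ⟨h0, h1, h2⟩ := hZ θ hθ
    obtain ⟨C, c, hC, hc, h3⟩ := kz_bounds hp h0 h1 h2
    exact ⟨C, hC, fun s => (h3 s).2⟩
  choose! Cf hCf1 hCf2 using hex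
  have hsum : ∀ θ ∈ Z, Cf θ ≤ 1 + ∑ θ ∈ Z, Cf θ := by
    intro θ hθ
    have h1 := Finset.single_le_sum (f := Cf) (fun i hi => zero_le_one.trans (hCf1 i hi)) hθ
    linarith
  have hsum0 : 0 ≤ ∑ θ ∈ Z, Cf θ :=
    Finset.sum_nonneg fun i hi => zero_le_one.trans (hCf1 i hi)
  obtain ⟨S, hS⟩ : ∃ S, S = 1 + ∑ θ ∈ Z, Cf θ := ⟨_, rfl⟩
  have hS0 : 0 < S := by rw [hS]; linarith
  have key : ∀ θ ∈ Z, ∀ s t e : ℝ, 0 ≤ e → psi p t ≤ C₀ * e * psi p s →
      |kk p θ t| ≤ max 1 (S * C₀ / cr) * e * kk p r s := by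
    intro θ hθ s t e he h
    calc |kk p θ t| ≤ Cf θ * psi p t := hCf2 θ hθ t
      _ ≤ S * psi p t := mul_le_mul_of_nonneg_right (by rw [hS]; exact hsum θ hθ)
          (psi_pos p t).le
      _ ≤ S * (C₀ * e * psi p s) := mul_le_mul_of_nonneg_left h hS0.le
      _ ≤ S * (C₀ * e * (kk p r s / cr)) := by
          refine mul_le_mul_of_nonneg_left ?_ hS0.le
          exact mul_le_mul_of_nonneg_left (hrp s) (mul_nonneg (by linarith) he)
      _ = S * C₀ / cr * e * kk p r s := by ring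
      _ ≤ _ := by
          refine mul_le_mul_of_nonneg_right ?_ (hrk s).le
          exact mul_le_mul_of_nonneg_right (le_max_right _ _) he
  refine ⟨max 1 (S * C₀ / cr), le_max_left _ _, fun θ hθ => ⟨fun s u hs hu => ?_,
    fun s u hs hu => ?_⟩⟩
  · exact key θ hθ s (s + u) _ (Real.exp_pos _).le (hs1 s u hs hu)
  · exact key θ hθ s (s - u) _ (Real.exp_pos _).le (hs2 s u hs hu)

theorem kz_le {p : ℕ} (hp : 1 ≤ p) {l l' : ℝ} (h0 : 0 ≤ l) (h1 : l < Real.pi) (hb : bb p l = 0)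
    (ha : aa p l < 0) (h0' : 0 ≤ l') (h1' : l' < Real.pi) (hb' : bb p l' = 0) (ha' : aa p l' < 0) :
    ∃ c : ℝ, 0 < c ∧ ∀ s, kk p l s ≤ c * kk p l' s := by
  obtain ⟨C₁, c, hC₁, hc, h⟩ := kz_bounds hp h0 h1 hb
  obtain ⟨C, c₁, hC, hc₁, h'⟩ := kz_bounds hp h0' h1' hb'
  have hC0 : 0 < C := by linarith
  refine ⟨c / C, div_pos hc hC0, fun s => ?_⟩
  have h2 := (h s).1
  have h3 := (h' s).2
  rw [abs_of_neg (pattern_neg p ⟨h0, h1.le⟩ ha.le hb.le s)] at h2
  rw [abs_of_neg (pattern_neg p ⟨h0', h1'.le⟩ ha'.le hb'.le s)] at h3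
  have h4 : -kk p l' s / C ≤ psi p s := by
    rw [div_le_iff₀ hC0]
    linarith
  have h5 := mul_le_mul_of_nonneg_left h4 hc.le
  have e : c * (-kk p l' s / C) = -(c / C * kk p l' s) := by ring
  rw [e] at h5
  linarith

theorem kz_le_r {p : ℕ} (hp : 1 ≤ p) {r r' : ℝ} (h0 : 0 ≤ r) (h1 : r < Real.pi) (hb : bb p r = 0)
    (ha : 0 < aa p r) (h0' : 0 ≤ r') (h1' : r' < Real.pi) (hb' : bb p r' = 0) (ha' : 0 < aa p r') :
    ∃ c : ℝ, 0 < c ∧ ∀ s, kk p r s ≤ c * kk p r' s := by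
  obtain ⟨C, c₁, hC, hc₁, h⟩ := kz_bounds hp h0 h1 hb
  obtain ⟨C₁, c, hC₁, hc, h'⟩ := kz_bounds hp h0' h1' hb'
  have hC0 : 0 < C := by linarith
  refine ⟨C / c, div_pos hC0 hc, fun s => ?_⟩
  have h2 := (h s).2
  have h3 := (h' s).1
  rw [abs_of_pos (pattern_pos p ⟨h0, h1.le⟩ ha.le hb.ge s)] at h2
  rw [abs_of_pos (pattern_pos p ⟨h0', h1'.le⟩ ha'.le hb'.ge s)] at h3
  have h4 : psi p s ≤ kk p r' s / c := by
    rw [le_div_iff₀ hc]
    linarith
  have h5 := mul_le_mul_of_nonneg_left h4 hC0.le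
  have e : C * (kk p r' s / c) = C / c * kk p r' s := by ring
  rw [e] at h5
  linarith

end Pool.Agent.IND2I
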