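import Pool.Agent.IND2I.Defs

/-!
# IND2I, module Ker1: elementary estimates for the kernels

All immediate from the fields of `KSup`, `KLef`, `KTar` (`S.hkb`, `S.hkl`, `S.hk₀`):
`kb_le`: for `s ≥ 0` use `right` (`S.kb i s ≤ -β + C e^{-γ s} ≤ C e^{-γ/2 |s|}`), for `s ≤ 0` use
`left` and `γ/2 ≤ 1`.  The integrals over `Ioi t` converge by `right` (`integrableOn_exp_neg..`),
for `t < 0` there is in addition a bounded interval.  `int_kb`: a bounded continuous function is
integrable for a finite measure.  `cont_int`: `continuous_of_dominated`.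
-/

set_option autoImplicit false

namespace Pool.Agent.IND2I

open MeasureTheory Set

/-! generic lemmas for a continuous function `f` with `|f s| ≤ C e^{-γ s}` for `s ≥ 0` -/

private lemma gen_int {f : ℝ → ℝ} {γ C : ℝ} (hγ : 0 < γ) (hf : Continuous f)
    (h : ∀ s, 0 ≤ s → |f s| ≤ C * Real.exp (-(γ * s))) (t : ℝ) : IntegrableOn f (Ioi t) := by
  have h0 : IntegrableOn f (Ioi (max t 0)) := by
    refine Integrable.mono' ((integrableOn_exp_mul_Ioi (a := -γ) (by linarith) (max t 0)).const_mul C)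
      hf.aestronglyMeasurable ?_
    refine (ae_restrict_iff' measurableSet_Ioi).2 (Filter.Eventually.of_forall fun s hs => ?_)
    have h1 := h s ((le_max_right t 0).trans (le_of_lt hs))
    rw [Real.norm_eq_abs]
    rw [neg_mul]
    exact h1
  have h1 : IntegrableOn f (Ioc t (max t 0)) :=
    (hf.continuousOn.integrableOn_Icc (a := t) (b := max t 0)).mono_set Ioc_subset_Icc_self
  have h2 := h1.union h0
  rwa [Ioc_union_Ioi_eq_Ioi (le_max_left t 0)] at h2

private lemma gen_le {f : ℝ → ℝ} {γ C : ℝ} (hγ : 0 < γ)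
    (h : ∀ s, 0 ≤ s → |f s| ≤ C * Real.exp (-(γ * s))) {t : ℝ} (ht : 0 ≤ t) :
    |∫ s in Ioi t, f s| ≤ C / γ * Real.exp (-(γ * t)) := by
  have h1 : ‖∫ s in Ioi t, f s‖ ≤ ∫ s in Ioi t, C * Real.exp (-γ * s) := by
    refine norm_integral_le_of_norm_le
      ((integrableOn_exp_mul_Ioi (a := -γ) (by linarith) t).const_mul C) ?_
    refine (ae_restrict_iff' measurableSet_Ioi).2 (Filter.Eventually.of_forall fun s hs => ?_)
    have h1 := h s (ht.trans (le_of_lt hs))
    rw [Real.norm_eq_abs, neg_mul]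
    exact h1
  rw [integral_const_mul, integral_exp_mul_Ioi (by linarith)] at h1
  rw [Real.norm_eq_abs] at h1
  refine h1.trans (le_of_eq ?_)
  rw [neg_mul, neg_div_neg_eq]
  ring

private lemma gen_cont {f : ℝ → ℝ} (hf : Continuous f) (h : ∀ t, IntegrableOn f (Ioi t)) :
    Continuous fun t => ∫ s in Ioi t, f s := by
  have h1 : (fun t => ∫ s in Ioi t, f s) =
      fun t => (∫ s in Ioi (0 : ℝ), f s) - ∫ s in (0 : ℝ)..t, f s := by
    funext t
    rw [← intervalIntegral.integral_Ioi_sub_Ioi' (h 0) (h t)]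
    ring
  rw [h1]
  exact continuous_const.sub (intervalIntegral.continuous_primitive
    (fun a b => hf.intervalIntegrable a b) 0)

private lemma exp_le_one' {x : ℝ} (h : x ≤ 0) : Real.exp x ≤ 1 := Real.exp_le_one_iff.2 h

namespace Sys

variable {ι lam : Type} [Fintype ι] [Fintype lam] (S : Sys ι lam)

theorem kb_abs (i : ι) (s : ℝ) : |S.kb i s| ≤ S.β i + S.C := by
  have hβ := S.hβ i
  have hC := S.hC
  have hγ := S.hγ0
  rcases le_total 0 s with h | h
  · have h1 := (S.hkb i).right s h
    have h2 : Real.exp (-(S.γ * s)) ≤ 1 := exp_le_one' (by nlinarith)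
    have h3 : |S.kb i s| ≤ |S.kb i s + S.β i| + |S.β i| := by
      have := abs_sub (S.kb i s + S.β i) (S.β i)
      rwa [add_sub_cancel_right] at this
    rw [abs_of_pos hβ] at h3
    nlinarith
  · have h1 := (S.hkb i).left s h
    have h2 : Real.exp s ≤ 1 := exp_le_one' h
    nlinarith

theorem kb_le (i : ι) (s : ℝ) : S.kb i s ≤ S.C * Real.exp (-(S.γ / 2 * |s|)) := by
  have hβ := S.hβ i
  have hC := S.hC
  have hγ := S.hγ0
  have hγ1 := S.hγ1
  rcases le_total 0 s with h | h
  · have h1 := (abs_le.1 ((S.hkb i).right s h)).2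
    have h2 : Real.exp (-(S.γ * s)) ≤ Real.exp (-(S.γ / 2 * |s|)) := by
      rw [Real.exp_le_exp, abs_of_nonneg h]
      nlinarith
    nlinarith
  · have h1 := (abs_le.1 ((S.hkb i).left s h)).2
    have h2 : Real.exp s ≤ Real.exp (-(S.γ / 2 * |s|)) := by
      rw [Real.exp_le_exp, abs_of_nonpos h]
      nlinarith
    nlinarith

/-- for mass to the left the kernel is close to `-β` -/
theorem kb_le_right (i : ι) {s : ℝ} (hs : 0 ≤ s) :
    S.kb i s ≤ -S.β i + S.C * Real.exp (-(S.γ / 2 * |s|)) := by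
  have hC := S.hC
  have hγ := S.hγ0
  have h1 := (abs_le.1 ((S.hkb i).right s hs)).2
  have h2 : Real.exp (-(S.γ * s)) ≤ Real.exp (-(S.γ / 2 * |s|)) := by
    rw [Real.exp_le_exp, abs_of_nonneg hs]
    nlinarith
  nlinarith

theorem kb_ge_right (i : ι) {s : ℝ} (hs : 0 ≤ s) :
    -S.β i - S.C * Real.exp (-(S.γ * s)) ≤ S.kb i s := by
  have h1 := (abs_le.1 ((S.hkb i).right s hs)).1
  linarith

theorem kl_abs (j : lam) (s : ℝ) : |S.kl j s| ≤ S.C := by
  have hC := S.hC
  have hγ := S.hγ0
  rcases le_total 0 s with h | h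
  · have h1 := (S.hkl j).right s h
    have h2 : Real.exp (-(S.γ * s)) ≤ 1 := exp_le_one' (by nlinarith)
    nlinarith
  · have h1 := (S.hkl j).left s h
    have h2 : Real.exp s ≤ 1 := exp_le_one' h
    nlinarith

theorem kl_abs' (j : lam) (s : ℝ) : |S.kl j s| ≤ S.C * Real.exp (-(S.γ * |s|)) := by
  have hC := S.hC
  have hγ := S.hγ0
  have hγ1 := S.hγ1
  rcases le_total 0 s with h | h
  · rw [abs_of_nonneg h]
    exact (S.hkl j).right s h
  · have h1 := (S.hkl j).left s h
    have h2 : Real.exp s ≤ Real.exp (-(S.γ * |s|)) := by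
      rw [Real.exp_le_exp, abs_of_nonpos h]
      nlinarith
    nlinarith

theorem k0_abs (s : ℝ) : |S.k₀ s| ≤ S.β₀ + S.C := by
  have hβ := S.hβ₀
  have hC := S.hC
  have hγ := S.hγ0
  rcases le_total 0 s with h | h
  · have h1 := S.hk₀.right s h
    have h2 : Real.exp (-(S.γ * s)) ≤ 1 := exp_le_one' (by nlinarith)
    have h3 : |S.k₀ s| ≤ |S.k₀ s + S.β₀| + |S.β₀| := by
      have := abs_sub (S.k₀ s + S.β₀) S.β₀
      rwa [add_sub_cancel_right] at this
    rw [abs_of_pos hβ] at h3
    nlinarith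
  · have h1 := S.hk₀.left s h
    have h2 : Real.exp s ≤ 1 := exp_le_one' h
    nlinarith

theorem int_kb (i : ι) (μ : Measure ℝ) [IsFiniteMeasure μ] (y : ℝ) :
    Integrable (fun x => S.kb i (x - y)) μ :=
  Integrable.of_bound
    ((S.hkb i).cont.comp (continuous_id.sub continuous_const)).aestronglyMeasurable
    (S.β i + S.C) (Filter.Eventually.of_forall fun x => S.kb_abs i (x - y))

theorem int_kl (j : lam) (μ : Measure ℝ) [IsFiniteMeasure μ] (y : ℝ) :
    Integrable (fun x => S.kl j (x - y)) μ :=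
  Integrable.of_bound
    ((S.hkl j).cont.comp (continuous_id.sub continuous_const)).aestronglyMeasurable
    S.C (Filter.Eventually.of_forall fun x => S.kl_abs j (x - y))

/-- continuity of the certificate function -/
theorem cont_g {n : ι → Measure ℝ} {l : lam → Measure ℝ} (hn : ∀ i, IsFiniteMeasure (n i))
    (hl : ∀ j, IsFiniteMeasure (l j)) : Continuous (S.g n l) := by
  unfold g
  refine ((continuous_finset_sum _ fun i _ => ?_).add
    (continuous_finset_sum _ fun j _ => ?_)).sub (S.hk₀.cont.comp continuous_neg)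
  · haveI := hn i
    refine continuous_of_dominated (bound := fun _ => S.β i + S.C) (fun y => ?_) (fun y => ?_)
      (integrable_const _) ?_
    · exact ((S.hkb i).cont.comp (continuous_id.sub continuous_const)).aestronglyMeasurable
    · exact Filter.Eventually.of_forall fun x => S.kb_abs i (x - y)
    · exact Filter.Eventually.of_forall fun x =>
        (S.hkb i).cont.comp (continuous_const.sub continuous_id)
  · haveI := hl j
    refine continuous_of_dominated (bound := fun _ => S.C) (fun y => ?_) (fun y => ?_)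
      (integrable_const _) ?_
    · exact ((S.hkl j).cont.comp (continuous_id.sub continuous_const)).aestronglyMeasurable
    · exact Filter.Eventually.of_forall fun x => S.kl_abs j (x - y)
    · exact Filter.Eventually.of_forall fun x =>
        (S.hkl j).cont.comp (continuous_const.sub continuous_id)

/-- the tail integrals of `kb + β` -/
theorem tail_kb_int (i : ι) (t : ℝ) : IntegrableOn (fun s => S.kb i s + S.β i) (Ioi t) :=
  gen_int S.hγ0 ((S.hkb i).cont.add continuous_const) (S.hkb i).right t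

theorem tail_kb_le (i : ι) {t : ℝ} (ht : 0 ≤ t) :
    |∫ s in Ioi t, (S.kb i s + S.β i)| ≤ S.C / S.γ * Real.exp (-(S.γ * t)) :=
  gen_le S.hγ0 (S.hkb i).right ht

/-- for `-R ≤ t` the tail integral is bounded -/
theorem tail_kb_bdd (i : ι) {R t : ℝ} (hR : 0 ≤ R) (ht : -R ≤ t) :
    |∫ s in Ioi t, (S.kb i s + S.β i)| ≤ S.C / S.γ + (2 * S.β i + S.C) * R := by
  have hβ := S.hβ i
  have hC := S.hC
  have hγ := S.hγ0
  have hR0 : 0 ≤ (2 * S.β i + S.C) * R := by positivity
  rcases le_total 0 t with h | h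
  · have h1 := S.tail_kb_le i h
    have h2 : Real.exp (-(S.γ * t)) ≤ 1 := exp_le_one' (by nlinarith)
    have h3 : S.C / S.γ * Real.exp (-(S.γ * t)) ≤ S.C / S.γ * 1 :=
      mul_le_mul_of_nonneg_left h2 (by positivity)
    linarith
  · have h1 := S.tail_kb_le i (le_refl 0)
    rw [mul_zero, neg_zero, Real.exp_zero, mul_one] at h1
    have h2 := intervalIntegral.integral_interval_add_Ioi (S.tail_kb_int i t) (S.tail_kb_int i 0)
    have h3 : ‖∫ s in t..0, (S.kb i s + S.β i)‖ ≤ (2 * S.β i + S.C) * |0 - t| := by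
      refine intervalIntegral.norm_integral_le_of_norm_le_const fun s _ => ?_
      rw [Real.norm_eq_abs]
      have h4 := S.kb_abs i s
      have h5 := abs_add_le (S.kb i s) (S.β i)
      rw [abs_of_pos hβ] at h5
      linarith
    rw [Real.norm_eq_abs] at h3
    have h4 : |0 - t| ≤ R := by
      rw [zero_sub, abs_neg, abs_of_nonpos h]
      linarith
    have h5 : (2 * S.β i + S.C) * |0 - t| ≤ (2 * S.β i + S.C) * R :=
      mul_le_mul_of_nonneg_left h4 (by positivity)
    rw [← h2]
    refine (abs_add_le _ _).trans ?_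
    linarith

theorem tail_kl_int (j : lam) (t : ℝ) : IntegrableOn (S.kl j) (Ioi t) :=
  gen_int S.hγ0 (S.hkl j).cont (S.hkl j).right t

theorem tail_kl_nonpos (j : lam) (t : ℝ) : ∫ s in Ioi t, S.kl j s ≤ 0 :=
  setIntegral_nonpos measurableSet_Ioi fun s _ => ((S.hkl j).neg s).le

/-- the tail integral of the negative function `kl` is nondecreasing -/
theorem tail_kl_mono (j : lam) {t u : ℝ} (h : t ≤ u) :
    ∫ s in Ioi t, S.kl j s ≤ ∫ s in Ioi u, S.kl j s := by
  have h2 := intervalIntegral.integral_interval_add_Ioi (S.tail_kl_int j t) (S.tail_kl_int j u)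
  have h3 : ∫ s in t..u, S.kl j s ≤ 0 := by
    rw [intervalIntegral.integral_of_le h]
    exact setIntegral_nonpos measurableSet_Ioc fun s _ => ((S.hkl j).neg s).le
  linarith

theorem tail_kl_ge (j : lam) (t : ℝ) : -(2 * S.C / S.γ) ≤ ∫ s in Ioi t, S.kl j s := by
  have hC := S.hC
  have hγ := S.hγ0
  have hγ1 := S.hγ1
  have h0 : -(S.C / S.γ) ≤ ∫ s in Ioi (0 : ℝ), S.kl j s := by
    have h1 := gen_le hγ (S.hkl j).right (le_refl 0)
    rw [mul_zero, neg_zero, Real.exp_zero, mul_one] at h1
    exact (abs_le.1 h1).1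
  have hCg : 0 ≤ S.C / S.γ := by positivity
  have e : 2 * S.C / S.γ = S.C / S.γ + S.C / S.γ := by ring
  rcases le_total 0 t with h | h
  · have := S.tail_kl_mono j h
    linarith
  · have h2 := intervalIntegral.integral_interval_add_Ioi (S.tail_kl_int j t) (S.tail_kl_int j 0)
    have h3 : -S.C ≤ ∫ s in t..0, S.kl j s := by
      have h4 : ∫ s in t..0, -(S.C * Real.exp s) ≤ ∫ s in t..0, S.kl j s := by
        refine intervalIntegral.integral_mono_on h ?_ ((S.hkl j).cont.intervalIntegrable _ _) ?_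
        · exact (continuous_const.mul Real.continuous_exp).neg.intervalIntegrable _ _
        · intro s hs
          exact (abs_le.1 ((S.hkl j).left s hs.2)).1
      rw [intervalIntegral.integral_neg, intervalIntegral.integral_const_mul, integral_exp,
        Real.exp_zero] at h4
      have := Real.exp_pos t
      nlinarith
    have h5 : S.C ≤ S.C / S.γ := by
      rw [le_div_iff₀ hγ]
      nlinarith
    linarith

theorem tail_k0_int (t : ℝ) : IntegrableOn (fun s => S.k₀ s + S.β₀) (Ioi t) :=
  gen_int S.hγ0 (S.hk₀.cont.add continuous_const) S.hk₀.right t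

theorem tail_k0_le {t : ℝ} (ht : 0 ≤ t) :
    |∫ s in Ioi t, (S.k₀ s + S.β₀)| ≤ S.C / S.γ * Real.exp (-(S.γ * t)) :=
  gen_le S.hγ0 S.hk₀.right ht

theorem tail_kb_cont (i : ι) : Continuous fun t => ∫ s in Ioi t, (S.kb i s + S.β i) :=
  gen_cont ((S.hkb i).cont.add continuous_const) (S.tail_kb_int i)

theorem tail_kl_cont (j : lam) : Continuous fun t => ∫ s in Ioi t, S.kl j s :=
  gen_cont (S.hkl j).cont (S.tail_kl_int j)

end Sys

end Pool.Agent.IND2I
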