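import Pool.Agent.IND2I.LimC
import Pool.Agent.IND2I.DualS

/-!
# IND2I, module LP: feasibility of the half line programme

PROOF.  `bg` gives `κ, η, c₁, C₁, Λ₁`; `lim_cert` with `K = (|v| + C₁)/c₁` gives `A`.  If there is no `Λ₂` as claimed, then
for every `m : ℕ` there is `Λ_m ≥ max m (max Λ₁ (e))` (so `M = A log Λ_m ≥ 1`) such that no `ν` exists; `exists_half`
gives half line certificates, `lim_cert` a certificate of cost `≤ v`, which contradicts `HypM`.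
(If one wants `Feas` with `Continuous ν` and the eventual form, this is exactly the negation in `exists_half`.)
-/

set_option autoImplicit false

namespace Pool.Agent.IND2I

open MeasureTheory Set Filter

namespace Sys

variable {ι lam : Type} [Fintype ι] [Fintype lam] (S : Sys ι lam)

theorem half_lp [Nonempty ι] (hM : S.HypM) (hV : S.HypV) {a : ℝ} (ha : 0 ≤ a)
    (hal : ∀ j, a * ∫ s in Ioi (0 : ℝ), S.kl j s < S.cl j) {L₁ : ℝ} (hL₁ : 0 ≤ L₁) :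
    ∃ κ η A Λ₂ : ℝ, 0 < κ ∧ κ < S.γ / 2 ∧ 0 < η ∧ 1 ≤ A ∧ 1 ≤ Λ₂ ∧ ∀ Λ, Λ₂ ≤ Λ →
      ∃ ν : ℝ → ℝ, Continuous ν ∧
        (∃ R, ∀ y, R ≤ y → ν y = om κ η Λ (A * Real.log Λ) y) ∧
        S.Feas a Λ (A * Real.log Λ) L₁ ν := by
  obtain ⟨κ, η, c₁, C₁, Λ₁, hκ, hκ2, hη, hc₁, hC₁, hΛ₁, hbg⟩ := S.bg ha hL₁
  obtain ⟨A, hA, hlim⟩ := S.lim_cert hV ha hal hL₁ hκ ((|S.v| + C₁) / c₁)
  by_contra hcon
  have hκ1 : κ < 1 := by
    have h1 := S.hγ1
    have h2 := S.hγ0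
    linarith
  have hsel : ∀ m : ℕ, ∃ Λ : ℝ, (m : ℝ) ≤ Λ ∧ Λ₁ ≤ Λ ∧ Real.exp 1 ≤ Λ ∧
      ¬ ∃ ν : ℝ → ℝ, Continuous ν ∧ (∃ R, ∀ y, R ≤ y → ν y = om κ η Λ (A * Real.log Λ) y) ∧
        S.Feas a Λ (A * Real.log Λ) L₁ ν := by
    intro m
    by_contra hm
    apply hcon
    refine ⟨κ, η, A, max (m : ℝ) (max Λ₁ (Real.exp 1)), hκ, hκ2, hη, hA, ?_, fun Λ hΛ => ?_⟩
    · exact hΛ₁.trans ((le_max_left _ _).trans (le_max_right _ _))
    · by_contra hno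
      apply hm
      exact ⟨Λ, (le_max_left _ _).trans hΛ,
        ((le_max_left _ _).trans (le_max_right _ _)).trans hΛ,
        ((le_max_right _ _).trans (le_max_right _ _)).trans hΛ, hno⟩
  choose Λ hm hΛ1 hΛe hno using hsel
  have hhalf : ∀ m, ∃ n l, S.Half a κ ((|S.v| + C₁) / c₁) (Λ m) (A * Real.log (Λ m)) L₁ n l := by
    intro m
    have hpos : 0 < Λ m := (Real.exp_pos 1).trans_le (hΛe m)
    have hlog : 1 ≤ Real.log (Λ m) := by
      rw [Real.le_log_iff_exp_le hpos]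
      exact hΛe m
    have hM : 1 ≤ A * Real.log (Λ m) := by nlinarith
    obtain ⟨h1, h2, h3⟩ := hbg (Λ m) (A * Real.log (Λ m)) (hΛ1 m) hM
    exact S.exists_half ha hL₁ hκ hκ1 hη hc₁ hC₁ (hΛ₁.trans (hΛ1 m)) hM h1 h2 h3 (hno m)
  choose n l hnl using hhalf
  have htend : Tendsto Λ atTop atTop :=
    tendsto_atTop_mono hm tendsto_natCast_atTop_atTop
  obtain ⟨n', l', hcert, hcost⟩ := hlim Λ n l htend hnl
  exact absurd (hM n' l' hcert) (not_lt.2 hcost)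

end Sys

end Pool.Agent.IND2I
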