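import Mathlib

/-!
# IND2I, module Lim: limits of tight sequences of measures on the line

PROOF.  `𝓕 = (hyperfilter ℕ : Filter ℕ)` (an ultrafilter, `≤ cofinite = atTop`).  For each `θ` the sequence `μ θ m`
is tight: `isTightMeasureSet_range_of_tendsto_limsup_measure_norm_gt` (for fixed `R ≥ 0` and all large `m`
(`R ≤ M m`) `μ θ m {x | R < ‖x‖} ≤ ofReal (K e^{-c R} + K (e^{-c R} + ε m))`, so the `limsup` is `≤ 2 K e^{-c R}`).  Hence there are
compact sets `K_n` and `u_n = 1/(n+1)` with `μ θ m K_nᶜ ≤ u_n` for all `m`; with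
`isCompact_setOfPred_finiteMeasure_mass_le_compl_isCompact_le` (`NormalSpace ℝ`) all `μ θ m` (as `FiniteMeasure ℝ`)
lie in a compact set, so the ultrafilter `map` converges to some `μ' θ : FiniteMeasure ℝ`, and
`tendsto_iff_forall_integral_tendsto` is the second claim.  Exponential moment: let `f` be continuous,
`1_{Ioi (R + 1)} ≤ f ≤ 1_{Ioi R}`-like (for example `f x = max 0 (min 1 (|x| - R))`): `∫ f dμ' ≤ 2 K e^{-c R}`, so
`μ'.real {x | R + 1 ≤ |x|} ≤ 2 K e^{-c R}` for all `R ≥ 0`; then `∫ e^{c/2 |x|} dμ' ≤ ∑_k e^{c/2 (k+1)} μ' {k ≤ |x|} < ∞`.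
-/

set_option autoImplicit false

namespace Pool.Agent.IND2I

open MeasureTheory Set Filter Topology

namespace Lm

theorem exp_moment {ν : Measure ℝ} [IsFiniteMeasure ν] {B c : ℝ} (hc : 0 < c) (hB : 0 ≤ B)
    (h : ∀ k : ℕ, ν {x | (k : ℝ) ≤ |x|} ≤ ENNReal.ofReal (B * Real.exp (-(c * k)))) :
    Integrable (fun x => Real.exp (c / 2 * |x|)) ν := by
  refine ⟨by fun_prop, ?_⟩
  have hpt : ∀ x : ℝ, ‖Real.exp (c / 2 * |x|)‖ₑ ≤
      ∑' k : ℕ, ENNReal.ofReal (Real.exp (c / 2 * (k + 1))) *
        {x : ℝ | (k : ℝ) ≤ |x|}.indicator (fun _ => (1 : ENNReal)) x := by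
    intro x
    rw [Real.enorm_eq_ofReal (Real.exp_pos _).le]
    have h1 : ((⌊|x|⌋₊ : ℕ) : ℝ) ≤ |x| := Nat.floor_le (abs_nonneg x)
    have h2 : |x| < (⌊|x|⌋₊ : ℕ) + 1 := Nat.lt_floor_add_one |x|
    refine le_trans ?_ (ENNReal.le_tsum ⌊|x|⌋₊)
    rw [Set.indicator_of_mem (by exact h1), mul_one]
    apply ENNReal.ofReal_le_ofReal
    apply Real.exp_le_exp.2
    exact mul_le_mul_of_nonneg_left h2.le (by positivity)
  have hmeas : ∀ k : ℕ, MeasurableSet {x : ℝ | (k : ℝ) ≤ |x|} := by
    intro k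
    exact measurableSet_le measurable_const (by fun_prop)
  rw [hasFiniteIntegral_def]
  calc ∫⁻ x, ‖Real.exp (c / 2 * |x|)‖ₑ ∂ν ≤
      ∫⁻ x, ∑' k : ℕ, ENNReal.ofReal (Real.exp (c / 2 * (k + 1))) *
        {x : ℝ | (k : ℝ) ≤ |x|}.indicator (fun _ => (1 : ENNReal)) x ∂ν := lintegral_mono hpt
    _ = ∑' k : ℕ, ENNReal.ofReal (Real.exp (c / 2 * (k + 1))) * ν {x : ℝ | (k : ℝ) ≤ |x|} := by
        rw [lintegral_tsum]
        · congr 1
          funext k
          rw [lintegral_const_mul _ (measurable_const.indicator (hmeas k)),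
            lintegral_indicator_const (hmeas k), one_mul]
        · intro k
          exact ((measurable_const.indicator (hmeas k)).const_mul _).aemeasurable
    _ ≤ ∑' k : ℕ, ENNReal.ofReal (B * Real.exp (c / 2) * Real.exp (-(c / 2)) ^ k) := by
        apply ENNReal.tsum_le_tsum
        intro k
        refine (mul_le_mul_right (h k) _).trans ?_
        rw [← ENNReal.ofReal_mul (Real.exp_pos _).le]
        apply ENNReal.ofReal_le_ofReal
        apply le_of_eq
        rw [← Real.exp_nat_mul]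
        have h3 : Real.exp (c / 2 * (k + 1)) * (B * Real.exp (-(c * k))) =
            B * (Real.exp (c / 2 * (k + 1)) * Real.exp (-(c * k))) := by ring
        rw [h3, ← Real.exp_add, mul_assoc, ← Real.exp_add]
        congr 2
        ring
    _ < ⊤ := by
        have hr : Real.exp (-(c / 2)) < 1 := by
          rw [Real.exp_lt_one_iff]; linarith
        have hsum : Summable (fun k : ℕ => B * Real.exp (c / 2) * Real.exp (-(c / 2)) ^ k) :=
          (summable_geometric_of_lt_one (Real.exp_pos _).le hr).mul_left _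
        rw [← ENNReal.ofReal_tsum_of_nonneg _ hsum]
        · exact ENNReal.ofReal_lt_top
        · intro k
          positivity

end Lm

open Lm in
theorem lim_tight {F : Type} [Fintype F] (μ : F → ℕ → Measure ℝ)
    (hfin : ∀ θ m, IsFiniteMeasure (μ θ m)) {K c : ℝ} (hc : 0 < c) {M ε : ℕ → ℝ}
    (hM : Tendsto M atTop atTop) (hε : Tendsto ε atTop (𝓝 0)) (hmass : ∀ θ m, (μ θ m).real univ ≤ K)
    (hr : ∀ θ m R, 0 ≤ R → (μ θ m).real (Ici R) ≤ K * Real.exp (-(c * R)))
    (hl : ∀ θ m R, 0 ≤ R → R ≤ M m →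
      (μ θ m).real (Iio (-R)) ≤ K * (Real.exp (-(c * R)) + ε m)) :
    ∃ (𝓕 : Filter ℕ) (μ' : F → Measure ℝ), 𝓕.NeBot ∧ 𝓕 ≤ atTop ∧ (∀ θ, IsFiniteMeasure (μ' θ)) ∧
      (∀ θ, Integrable (fun x => Real.exp (c / 2 * |x|)) (μ' θ)) ∧
      ∀ θ (f : ℝ → ℝ), Continuous f → (∃ B, ∀ x, |f x| ≤ B) →
        Tendsto (fun m => ∫ x, f x ∂(μ θ m)) 𝓕 (𝓝 (∫ x, f x ∂(μ' θ))) := by
  have hub : ∀ θ m R, 0 ≤ R → R ≤ M m → (μ θ m).real {x | R < |x|} ≤
      K * Real.exp (-(c * R)) + K * (Real.exp (-(c * R)) + ε m) := by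
    intro θ m R hR hRM
    have := hfin θ m
    have hsub : {x : ℝ | R < |x|} ⊆ Ici R ∪ Iio (-R) := by
      intro x hx
      rcases lt_abs.1 (by exact hx : R < |x|) with h | h
      · exact Or.inl h.le
      · right
        simp only [Set.mem_Iio]
        linarith
    calc (μ θ m).real {x | R < |x|} ≤ (μ θ m).real (Ici R ∪ Iio (-R)) :=
          measureReal_mono hsub (measure_ne_top _ _)
      _ ≤ (μ θ m).real (Ici R) + (μ θ m).real (Iio (-R)) := measureReal_union_le _ _
      _ ≤ _ := add_le_add (hr θ m R hR) (hl θ m R hR hRM)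
  have hMev : ∀ R : ℝ, ∀ᶠ m in atTop, R ≤ M m := fun R => hM.eventually_ge_atTop R
  have hlimc : ∀ R : ℝ, Tendsto (fun m => K * Real.exp (-(c * R)) +
      K * (Real.exp (-(c * R)) + ε m)) atTop (𝓝 (2 * K * Real.exp (-(c * R)))) := by
    intro R
    have h1 : Tendsto (fun m => K * Real.exp (-(c * R)) + K * (Real.exp (-(c * R)) + ε m)) atTop
        (𝓝 (K * Real.exp (-(c * R)) + K * (Real.exp (-(c * R)) + 0))) :=
      tendsto_const_nhds.add ((tendsto_const_nhds.add hε).const_mul K)
    have h2 : K * Real.exp (-(c * R)) + K * (Real.exp (-(c * R)) + 0) =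
        2 * K * Real.exp (-(c * R)) := by ring
    rwa [h2] at h1
  have key : ∀ θ : F, ∃ ν : Measure ℝ, IsFiniteMeasure ν ∧
      Integrable (fun x => Real.exp (c / 2 * |x|)) ν ∧
      ∀ f : ℝ → ℝ, Continuous f → (∃ B, ∀ x, |f x| ≤ B) →
        Tendsto (fun m => ∫ x, f x ∂(μ θ m)) (hyperfilter ℕ).toFilter (𝓝 (∫ x, f x ∂ν)) := by
    intro θ
    have hfinθ : ∀ m, IsFiniteMeasure (μ θ m) := hfin θ
    have hK : 0 ≤ K := measureReal_nonneg.trans (hmass θ 0)
    have htight : IsTightMeasureSet (Set.range (μ θ)) := by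
      apply isTightMeasureSet_range_of_tendsto_limsup_measure_norm_gt
      have hup : Tendsto (fun r : ℝ => ENNReal.ofReal (2 * K * Real.exp (-(c * r)))) atTop
          (𝓝 0) := by
        have h1 : Tendsto (fun r : ℝ => 2 * K * Real.exp (-(c * r))) atTop (𝓝 (2 * K * 0)) := by
          apply Tendsto.const_mul
          apply Real.tendsto_exp_neg_atTop_nhds_zero.comp
          exact tendsto_id.const_mul_atTop hc
        rw [mul_zero] at h1
        have h2 := ENNReal.tendsto_ofReal h1
        rwa [ENNReal.ofReal_zero] at h2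
      refine tendsto_of_tendsto_of_tendsto_of_le_of_le' tendsto_const_nhds hup
        (Eventually.of_forall fun _ => zero_le) ?_
      filter_upwards [eventually_ge_atTop (0 : ℝ)] with r hr0
      have h1 : limsup (fun m => μ θ m {x | r < ‖x‖}) atTop ≤
          limsup (fun m => ENNReal.ofReal (K * Real.exp (-(c * r)) +
            K * (Real.exp (-(c * r)) + ε m))) atTop := by
        refine limsup_le_limsup ?_
        filter_upwards [hMev r] with m hm
        have h2 := hub θ m r hr0 hm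
        rw [← ofReal_measureReal (μ := μ θ m) (measure_ne_top _ _)]
        apply ENNReal.ofReal_le_ofReal
        exact h2
      refine h1.trans ?_
      rw [(ENNReal.tendsto_ofReal (hlimc r)).limsup_eq]
    rw [isTightMeasureSet_iff_exists_isCompact_measure_compl_le] at htight
    obtain ⟨u, -, u_pos, u_lim⟩ :
        ∃ u : ℕ → NNReal, StrictAnti u ∧ (∀ n, 0 < u n) ∧ Tendsto u atTop (𝓝 0) :=
      exists_seq_strictAnti_tendsto 0
    have hA : ∀ n, ∃ Kc : Set ℝ, IsCompact Kc ∧ ∀ m, μ θ m Kcᶜ ≤ u n := by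
      intro n
      obtain ⟨Kc, h1, h2⟩ := htight (u n) (by exact_mod_cast u_pos n)
      exact ⟨Kc, h1, fun m => h2 _ ⟨m, rfl⟩⟩
    choose Kc hKc hKcu using hA
    have hcomp := isCompact_setOfPred_finiteMeasure_mass_le_compl_isCompact_le (E := ℝ)
      (u := u) (K := Kc) K.toNNReal u_lim hKc (Or.inl inferInstance)
    let ν : ℕ → FiniteMeasure ℝ := fun m => ⟨μ θ m, hfin θ m⟩
    have hν : ∀ m, ν m ∈ {μ : FiniteMeasure ℝ | μ.mass ≤ K.toNNReal ∧ ∀ n, μ (Kc n)ᶜ ≤ u n} := by
      intro m
      refine ⟨?_, fun n => ?_⟩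
      · rw [← NNReal.coe_le_coe, Real.coe_toNNReal K hK]
        exact hmass θ m
      · rw [← ENNReal.coe_le_coe, FiniteMeasure.ennreal_coeFn_eq_coeFn_toMeasure]
        exact hKcu n m
    obtain ⟨ν', hν', hlim⟩ := hcomp.ultrafilter_le_nhds ((hyperfilter ℕ).map ν) (by
      rw [le_principal_iff]
      exact Ultrafilter.mem_map.2 (Filter.univ_mem' hν))
    have hlim' : Tendsto ν (hyperfilter ℕ).toFilter (𝓝 ν') := hlim
    rw [FiniteMeasure.tendsto_iff_forall_integral_tendsto] at hlim'
    have hconv : ∀ f : ℝ → ℝ, Continuous f → (∃ B, ∀ x, |f x| ≤ B) →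
        Tendsto (fun m => ∫ x, f x ∂(μ θ m)) (hyperfilter ℕ).toFilter
          (𝓝 (∫ x, f x ∂(ν' : Measure ℝ))) := by
      rintro f hf ⟨B, hB⟩
      exact hlim' (BoundedContinuousFunction.ofNormedAddCommGroup f hf B hB)
    refine ⟨(ν' : Measure ℝ), inferInstance, ?_, hconv⟩
    have htail : ∀ R : ℝ, 0 ≤ R → (ν' : Measure ℝ).real {x | R + 1 ≤ |x|} ≤
        2 * K * Real.exp (-(c * R)) := by
      intro R hR
      set f : ℝ → ℝ := fun x => max 0 (min 1 (|x| - R)) with hf
      have hfc : Continuous f := by rw [hf]; fun_prop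
      have hf0 : ∀ x, 0 ≤ f x := fun x => le_max_left _ _
      have hf1 : ∀ x, f x ≤ 1 := fun x => max_le zero_le_one (min_le_left _ _)
      have hfb : ∀ x, |f x| ≤ 1 := fun x => by rw [abs_of_nonneg (hf0 x)]; exact hf1 x
      have hint : ∀ (ρ : Measure ℝ) [IsFiniteMeasure ρ], Integrable f ρ := fun ρ _ =>
        Integrable.of_bound hfc.aestronglyMeasurable 1 (Eventually.of_forall fun x => by
          rw [Real.norm_eq_abs]; exact hfb x)
      have hms : MeasurableSet {x : ℝ | R + 1 ≤ |x|} :=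
        measurableSet_le measurable_const (by fun_prop)
      have hms' : MeasurableSet {x : ℝ | R < |x|} :=
        measurableSet_lt measurable_const (by fun_prop)
      have h1 : (ν' : Measure ℝ).real {x | R + 1 ≤ |x|} ≤ ∫ x, f x ∂(ν' : Measure ℝ) := by
        have h2 : (ν' : Measure ℝ).real {x | R + 1 ≤ |x|} =
            ∫ x, {x : ℝ | R + 1 ≤ |x|}.indicator (fun _ => (1 : ℝ)) x ∂(ν' : Measure ℝ) := by
          rw [integral_indicator_const _ hms, smul_eq_mul, mul_one]
        rw [h2]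
        apply integral_mono ((integrable_const _).indicator hms) (hint _)
        intro x
        by_cases hx : x ∈ {x : ℝ | R + 1 ≤ |x|}
        · rw [Set.indicator_of_mem hx]
          have hx' : R + 1 ≤ |x| := hx
          apply le_max_of_le_right
          apply le_min le_rfl
          linarith
        · rw [Set.indicator_of_notMem hx]
          exact hf0 x
      refine h1.trans ?_
      refine le_of_tendsto_of_tendsto (hconv f hfc ⟨1, hfb⟩)
        ((hlimc R).mono_left Nat.hyperfilter_le_atTop) ?_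
      filter_upwards [Nat.hyperfilter_le_atTop (hMev R)] with m hm
      have h3 : ∫ x, f x ∂(μ θ m) ≤ (μ θ m).real {x | R < |x|} := by
        have h2 : (μ θ m).real {x | R < |x|} =
            ∫ x, {x : ℝ | R < |x|}.indicator (fun _ => (1 : ℝ)) x ∂(μ θ m) := by
          rw [integral_indicator_const _ hms', smul_eq_mul, mul_one]
        rw [h2]
        apply integral_mono (hint _) ((integrable_const _).indicator hms')
        intro x
        by_cases hx : x ∈ {x : ℝ | R < |x|}
        · rw [Set.indicator_of_mem hx]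
          exact hf1 x
        · rw [Set.indicator_of_notMem hx]
          have hx' : ¬ R < |x| := hx
          push Not at hx'
          rw [hf]
          simp only
          apply max_le le_rfl
          refine (min_le_right _ _).trans ?_
          linarith
      exact h3.trans (hub θ m R hR hm)
    apply exp_moment (B := 2 * K * Real.exp c) hc (by positivity)
    intro k
    rw [← ofReal_measureReal (μ := (ν' : Measure ℝ)) (measure_ne_top _ _)]
    apply ENNReal.ofReal_le_ofReal
    rcases Nat.eq_zero_or_pos k with hk | hk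
    · subst hk
      have h1 : (ν' : Measure ℝ).real {x : ℝ | ((0 : ℕ) : ℝ) ≤ |x|} ≤ K := by
        have h2 : (ν' : Measure ℝ).real {x : ℝ | ((0 : ℕ) : ℝ) ≤ |x|} ≤
            (ν' : Measure ℝ).real univ := measureReal_mono (subset_univ _) (measure_ne_top _ _)
        have h3 : ν'.mass ≤ K.toNNReal := hν'.1
        rw [← NNReal.coe_le_coe, Real.coe_toNNReal K hK] at h3
        exact h2.trans h3
      refine h1.trans ?_
      have h2 : 1 ≤ Real.exp c := by
        rw [Real.one_le_exp_iff]; exact hc.le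
      have h3 : Real.exp (-(c * ((0 : ℕ) : ℝ))) = 1 := by simp
      rw [h3, mul_one]
      nlinarith
    · have h1 : (1 : ℝ) ≤ k := by exact_mod_cast hk
      have h2 := htail (k - 1) (by linarith)
      rw [sub_add_cancel] at h2
      refine h2.trans ?_
      rw [mul_assoc (2 * K), ← Real.exp_add]
      apply le_of_eq
      congr 2
      ring
  choose μ' h1 h2 h3 using key
  exact ⟨(hyperfilter ℕ).toFilter, μ', inferInstance, Nat.hyperfilter_le_atTop, h1, h2, h3⟩

end Pool.Agent.IND2I
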