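import Pool.Agent.IND2I.Dec
import Pool.Agent.IND2I.Lim

/-!
# IND2I, module LimC: a sequence of half line certificates has a limit certificate

PROOF.  `dec`: constants `C₂, c₂`; take `A = 2/c₂ + 1` (so `Λ e^{-c₂ A log Λ} → 0`) and let `M m = A log (Λ m)`; drop the
finitely many `m` with `M m < 1` or `C₂ (M m + 1) > Λ m` (shift the sequence).  Put `l' = (l m j).restrict (Ici (-M m))`.
`g (n m) (l' m) y ≥ g (n m) (l m) y ≥ 0` for `y ≥ -M m` (`kl < 0`).
Cost: with `E_i t = ∫_{Ioi t} (kb + β)`, `E₀` (`tail_*`), the integrals of constants are exact, so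
`V = ∑ cb i n_i (ℝ) + ∑ ∫ (cl j - pl j x) dl_j - Λ Dtot - a ∑ ∫ E_i (x + M) dn_i + a E₀ M ≤ v`.  For `x < -M`:
`cl j - pl j x > 0` (`hal`, `tail_kl_mono`); for `x ≥ -M`: `cl j - pl j x ≥ cl j` (`tail_kl_nonpos`).  So
`∑ cb i n_i (ℝ) + ∑ cl j l'_j (ℝ) ≤ v + Λ C₂ e^{-c₂ M} + a ∑ ∫ |E_i (x + M)| dn_i + a |E₀ M|`, where
`∫ |E_i (x + M)| dn_i ≤ (C/γ) e^{-γ M/2} C₂ + E_max n_i (Iio (-M/2))` (`tail_kb_le` for `x ≥ -M/2`, `tail_kb_bdd` with `R = L₁`
otherwise), and `n_i (Iio (-M/2)) ≤ C₂ (e^{-c₂ M/2} + (M + 1)/Λ)`: everything tends to `0`.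
`lim_tight` with `F = ι ⊕ lam`, `c = min κ c₂`, `ε = (M + 1)^2/Λ → 0`, `K` large: right tails from `Half.mom`
(`e^{κ R} μ (Ici R) ≤ ∫ e^{κ x} ≤ K`), left tails from `dec`, masses `≤ C₂` resp. `≤ l (Ico (-M) 0) + l (Ici 0) ≤ 2 C₂ + C₂ + C₂`.
Limits `n*, l*`: `g n* l* y = lim g (n m) (l' m) y ≥ 0` for each `y` (`kb i (· - y)`, `kl j (· - y)` are continuous and bounded);
`∑ cb n* (ℝ) + ∑ cl l* (ℝ) ≤ v` (test function `1`).  So `(n*, l*)` is a certificate with cost `≤ v`.
-/

set_option autoImplicit false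

namespace Pool.Agent.IND2I

open MeasureTheory Set Filter

namespace Sys

variable {ι lam : Type} [Fintype ι] [Fintype lam] (S : Sys ι lam)

private theorem limc_exp {M : ℕ → ℝ} (hM : Tendsto M atTop atTop) {c : ℝ} (hc : 0 < c) :
    Tendsto (fun m => Real.exp (-(c * M m))) atTop (nhds 0) :=
  Real.tendsto_exp_neg_atTop_nhds_zero.comp (hM.const_mul_atTop hc)

private theorem limc_grow (A : ℝ) {Λ : ℕ → ℝ} (hΛ : Tendsto Λ atTop atTop) :
    Tendsto (fun m => (A * Real.log (Λ m) + 1) ^ 2 / Λ m) atTop (nhds 0) := by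
  have h2 := (Real.tendsto_pow_log_div_mul_add_atTop 1 0 2 one_ne_zero).comp hΛ
  have h1 := (Real.tendsto_pow_log_div_mul_add_atTop 1 0 1 one_ne_zero).comp hΛ
  have h0 := (Real.tendsto_pow_log_div_mul_add_atTop 1 0 0 one_ne_zero).comp hΛ
  have h := ((h2.const_mul (A ^ 2)).add (h1.const_mul (2 * A))).add h0
  rw [mul_zero, mul_zero, add_zero, add_zero] at h
  refine h.congr fun m => ?_
  simp only [Function.comp_apply, one_mul, add_zero, pow_one, pow_zero]
  ring

private theorem limc_lam {Λ : ℕ → ℝ} (hΛ : Tendsto Λ atTop atTop) {c A C : ℝ} (hc : 0 < c)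
    (hA : A = 2 / c + 1) (hC : 0 ≤ C) :
    Tendsto (fun m => Λ m * (C * Real.exp (-(c * (A * Real.log (Λ m)))))) atTop (nhds 0) := by
  have h1 : Tendsto (fun m => C * (Λ m)⁻¹) atTop (nhds 0) := by
    have := (tendsto_inv_atTop_zero.comp hΛ).const_mul C
    rwa [mul_zero] at this
  refine squeeze_zero' ?_ ?_ h1
  · filter_upwards [hΛ.eventually_ge_atTop 1] with m hm
    have h2 : 0 ≤ Λ m := by linarith
    positivity
  · filter_upwards [hΛ.eventually_ge_atTop 1] with m hm
    have h2 : 0 < Λ m := by linarith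
    have h3 : 0 ≤ Real.log (Λ m) := Real.log_nonneg hm
    have h4 : Real.exp (-(c * (A * Real.log (Λ m)))) ≤ (Λ m)⁻¹ * (Λ m)⁻¹ := by
      have h5 : (Λ m)⁻¹ * (Λ m)⁻¹ = Real.exp (-(2 * Real.log (Λ m))) := by
        have h6 : Real.exp (-Real.log (Λ m)) = (Λ m)⁻¹ := by
          rw [Real.exp_neg, Real.exp_log h2]
        rw [← h6, ← Real.exp_add]
        congr 1
        ring
      rw [h5, Real.exp_le_exp]
      have h7 : c * (A * Real.log (Λ m)) = 2 * Real.log (Λ m) + c * Real.log (Λ m) := by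
        rw [hA]
        field_simp
      rw [h7]
      have : 0 ≤ c * Real.log (Λ m) := mul_nonneg hc.le h3
      linarith
    calc Λ m * (C * Real.exp (-(c * (A * Real.log (Λ m)))))
        ≤ Λ m * (C * ((Λ m)⁻¹ * (Λ m)⁻¹)) := by gcongr
      _ = C * (Λ m)⁻¹ := by field_simp

private theorem limc_right {κ K : ℝ} {μ : Measure ℝ} (hκ : 0 < κ)
    (hint : Integrable (fun x => Real.exp (κ * x)) μ) (hK : ∫ x, Real.exp (κ * x) ∂μ ≤ K)
    (R : ℝ) : μ.real (Ici R) ≤ K * Real.exp (-(κ * R)) := by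
  have h1 := mul_meas_ge_le_integral_of_nonneg
    (Filter.Eventually.of_forall fun x => (Real.exp_pos (κ * x)).le) hint (Real.exp (κ * R))
  have h2 : {x : ℝ | Real.exp (κ * R) ≤ Real.exp (κ * x)} = Ici R := by
    ext x
    rw [mem_ofPred_eq, Real.exp_le_exp, mem_Ici]
    exact mul_le_mul_iff_right₀ hκ
  rw [h2] at h1
  have h3 := h1.trans hK
  rw [Real.exp_neg, ← div_eq_mul_inv, le_div_iff₀ (Real.exp_pos _), mul_comm]
  exact h3

/-- the cost of a half line certificate after the restriction to `[-M, ∞)` -/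
private theorem limc_cost {a κ K Λ M L₁ C₂ c₂ : ℝ} (ha : 0 ≤ a)
    (hal : ∀ j, a * ∫ s in Ioi (0 : ℝ), S.kl j s < S.cl j) (hL₁ : 0 ≤ L₁) (hM : 1 ≤ M)
    (hΛ : 0 < Λ) {n : ι → Measure ℝ} {l : lam → Measure ℝ} (H : S.Half a κ K Λ M L₁ n l)
    (hd1 : ∀ i, (n i).real univ ≤ C₂) (hD : S.Dtot n ≤ C₂ * Real.exp (-(c₂ * M)))
    (hd4 : ∀ i, (n i).real (Iio (-(M / 2))) ≤
      C₂ * (Real.exp (-(c₂ * (M / 2))) + (M + 1) / Λ)) :
    ∑ i, S.cb i * (n i).real univ + ∑ j, S.cl j * (l j).real (Ici (-M)) ≤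
      S.v + (Λ * (C₂ * Real.exp (-(c₂ * M))) +
        a * ∑ i, (S.C / S.γ * Real.exp (-(S.γ * (M / 2))) * C₂ +
          (S.C / S.γ + (2 * S.β i + S.C) * L₁) *
            (C₂ * (Real.exp (-(c₂ * (M / 2))) + (M + 1) / Λ))) +
        a * (S.C / S.γ * Real.exp (-(S.γ * M)))) := by
  have hγ := S.hγ0
  have hC := S.hC
  have hfn := H.finn
  have hfl := H.finl
  have hCγ : 0 ≤ S.C / S.γ := div_nonneg (by linarith) hγ.le
  -- the supercritical masses
  have hE : ∀ i, Integrable (fun x => ∫ s in Ioi (x + M), (S.kb i s + S.β i)) (n i) ∧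
      ∫ x, (∫ s in Ioi (x + M), (S.kb i s + S.β i)) ∂(n i) ≤
        S.C / S.γ * Real.exp (-(S.γ * (M / 2))) * C₂ +
          (S.C / S.γ + (2 * S.β i + S.C) * L₁) *
            (C₂ * (Real.exp (-(c₂ * (M / 2))) + (M + 1) / Λ)) := by
    intro i
    have hβ := S.hβ i
    have hEm : 0 ≤ S.C / S.γ + (2 * S.β i + S.C) * L₁ :=
      add_nonneg hCγ (mul_nonneg (by linarith) hL₁)
    have hcont : Continuous fun x => ∫ s in Ioi (x + M), (S.kb i s + S.β i) :=
      (S.tail_kb_cont i).comp (continuous_id.add continuous_const)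
    have hae : ∀ᵐ x ∂(n i), -M - L₁ ≤ x := by
      have h1 := H.supn i
      rw [← compl_Ici] at h1
      exact mem_ae_iff.2 h1
    have hbd : ∀ᵐ x ∂(n i), ‖∫ s in Ioi (x + M), (S.kb i s + S.β i)‖ ≤
        S.C / S.γ + (2 * S.β i + S.C) * L₁ := by
      filter_upwards [hae] with x hx
      exact S.tail_kb_bdd i hL₁ (by linarith)
    have hint := Integrable.of_bound (μ := n i) hcont.aestronglyMeasurable _ hbd
    refine ⟨hint, ?_⟩
    have hint2 : Integrable (fun x => S.C / S.γ * Real.exp (-(S.γ * (M / 2))) +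
        (Iio (-(M / 2))).indicator (fun _ => S.C / S.γ + (2 * S.β i + S.C) * L₁) x) (n i) :=
      (integrable_const _).add ((integrable_const _).indicator measurableSet_Iio)
    have h2 : ∫ x, (∫ s in Ioi (x + M), (S.kb i s + S.β i)) ∂(n i) ≤
        ∫ x, (S.C / S.γ * Real.exp (-(S.γ * (M / 2))) +
          (Iio (-(M / 2))).indicator (fun _ => S.C / S.γ + (2 * S.β i + S.C) * L₁) x) ∂(n i) := by
      refine integral_mono_ae hint hint2 ?_
      filter_upwards [hbd] with x hx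
      by_cases hxM : x < -(M / 2)
      · rw [indicator_of_mem (mem_Iio.2 hxM)]
        have h3 := (le_abs_self _).trans hx
        have h4 : 0 ≤ S.C / S.γ * Real.exp (-(S.γ * (M / 2))) :=
          mul_nonneg hCγ (Real.exp_pos _).le
        linarith
      · rw [indicator_of_notMem (by rwa [mem_Iio]), add_zero]
        have hx0 : 0 ≤ x + M := by linarith
        refine (le_abs_self _).trans ((S.tail_kb_le i hx0).trans ?_)
        refine mul_le_mul_of_nonneg_left ?_ hCγ
        rw [Real.exp_le_exp]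
        have h5 : S.γ * (M / 2) ≤ S.γ * (x + M) := mul_le_mul_of_nonneg_left (by linarith) hγ.le
        linarith
    refine h2.trans ?_
    rw [integral_add (integrable_const _) ((integrable_const _).indicator measurableSet_Iio),
      integral_const, integral_indicator_const _ measurableSet_Iio, smul_eq_mul, smul_eq_mul,
      mul_comm ((n i).real univ), mul_comm ((n i).real (Iio (-(M / 2))))]
    have h6 : 0 ≤ S.C / S.γ * Real.exp (-(S.γ * (M / 2))) := mul_nonneg hCγ (Real.exp_pos _).le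
    exact add_le_add (mul_le_mul_of_nonneg_left (hd1 i) h6)
      (mul_le_mul_of_nonneg_left (hd4 i) hEm)
  have hpb : ∀ i, ∫ x, S.pb a Λ M i x ∂(n i) = -(S.β i * Λ) * (n i).real univ +
      a * ∫ x, (∫ s in Ioi (x + M), (S.kb i s + S.β i)) ∂(n i) := by
    intro i
    unfold pb
    rw [integral_add (integrable_const _) ((hE i).1.const_mul a), integral_const,
      integral_const_mul, smul_eq_mul, mul_comm ((n i).real univ)]
  -- the left masses
  have hpl : ∀ j, S.cl j * (l j).real (Ici (-M)) ≤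
      S.cl j * (l j).real univ - ∫ x, S.pl a M j x ∂(l j) := by
    intro j
    have hcont : Continuous fun x => S.pl a M j x :=
      continuous_const.mul ((S.tail_kl_cont j).comp (continuous_id.add continuous_const))
    have hbd : ∀ x, ‖S.pl a M j x‖ ≤ a * (2 * S.C / S.γ) := by
      intro x
      unfold pl
      rw [Real.norm_eq_abs, abs_mul, abs_of_nonneg ha]
      refine mul_le_mul_of_nonneg_left ?_ ha
      rw [abs_of_nonpos (S.tail_kl_nonpos j _)]
      have := S.tail_kl_ge j (x + M)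
      linarith
    have hint : Integrable (fun x => S.pl a M j x) (l j) :=
      Integrable.of_bound hcont.aestronglyMeasurable _ (Filter.Eventually.of_forall hbd)
    have h1 : S.cl j * (l j).real univ - ∫ x, S.pl a M j x ∂(l j) =
        ∫ x, (S.cl j - S.pl a M j x) ∂(l j) := by
      rw [integral_sub (integrable_const _) hint, integral_const, smul_eq_mul,
        mul_comm ((l j).real univ)]
    have h2 : S.cl j * (l j).real (Ici (-M)) =
        ∫ x, (Ici (-M)).indicator (fun _ => S.cl j) x ∂(l j) := by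
      rw [integral_indicator_const _ measurableSet_Ici, smul_eq_mul, mul_comm]
    rw [h1, h2]
    refine integral_mono ((integrable_const _).indicator measurableSet_Ici)
      ((integrable_const _).sub hint) fun x => ?_
    by_cases hx : -M ≤ x
    · rw [indicator_of_mem (mem_Ici.2 hx)]
      have h3 : S.pl a M j x ≤ 0 := mul_nonpos_of_nonneg_of_nonpos ha (S.tail_kl_nonpos j _)
      show S.cl j ≤ S.cl j - S.pl a M j x
      linarith
    · rw [indicator_of_notMem (by rwa [mem_Ici])]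
      have h3 : S.pl a M j x ≤ a * ∫ s in Ioi (0 : ℝ), S.kl j s :=
        mul_le_mul_of_nonneg_left (S.tail_kl_mono j (by linarith)) ha
      have h4 := hal j
      show 0 ≤ S.cl j - S.pl a M j x
      linarith
  have hE0 : -(a * (S.C / S.γ * Real.exp (-(S.γ * M)))) ≤
      a * ∫ s in Ioi (0 + M), (S.k₀ s + S.β₀) := by
    rw [zero_add]
    have h1 := S.tail_k0_le (t := M) (by linarith)
    have h2 := (abs_le.1 h1).1
    have h3 := mul_le_mul_of_nonneg_left h2 ha
    linarith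
  have hv := H.val
  unfold V p0 at hv
  have hD2 : Λ * S.Dtot n ≤ Λ * (C₂ * Real.exp (-(c₂ * M))) :=
    mul_le_mul_of_nonneg_left hD hΛ.le
  unfold Dtot at hD2
  have e1 : ∑ i, ∫ x, S.pb a Λ M i x ∂(n i) = -(Λ * ∑ i, S.β i * (n i).real univ) +
      a * ∑ i, ∫ x, (∫ s in Ioi (x + M), (S.kb i s + S.β i)) ∂(n i) := by
    rw [Finset.mul_sum, Finset.mul_sum, ← Finset.sum_neg_distrib, ← Finset.sum_add_distrib]
    refine Finset.sum_congr rfl fun i _ => ?_
    rw [hpb i]
    ring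
  have e2 : ∑ j, S.cl j * (l j).real (Ici (-M)) ≤
      ∑ j, S.cl j * (l j).real univ - ∑ j, ∫ x, S.pl a M j x ∂(l j) := by
    rw [← Finset.sum_sub_distrib]
    exact Finset.sum_le_sum fun j _ => hpl j
  have e3 : a * ∑ i, ∫ x, (∫ s in Ioi (x + M), (S.kb i s + S.β i)) ∂(n i) ≤
      a * ∑ i, (S.C / S.γ * Real.exp (-(S.γ * (M / 2))) * C₂ +
          (S.C / S.γ + (2 * S.β i + S.C) * L₁) *
            (C₂ * (Real.exp (-(c₂ * (M / 2))) + (M + 1) / Λ))) :=
    mul_le_mul_of_nonneg_left (Finset.sum_le_sum fun i _ => (hE i).2) ha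
  rw [e1] at hv
  linarith

private theorem limc_aux {κ K c₂ C₂ : ℝ} (hκ : 0 < κ) (hc₂ : 0 < c₂) (hC₂ : 1 ≤ C₂)
    {n : ℕ → ι → Measure ℝ} {l : ℕ → lam → Measure ℝ} {M ε err : ℕ → ℝ}
    (hM : Tendsto M atTop atTop) (hM0 : ∀ m, 0 ≤ M m) (hε : Tendsto ε atTop (nhds 0))
    (hε1 : ∀ m, ε m ≤ 1)
    (hfn : ∀ m i, IsFiniteMeasure (n m i)) (hfl : ∀ m j, IsFiniteMeasure (l m j))
    (hmn : ∀ m i R, (n m i).real (Ici R) ≤ K * Real.exp (-(κ * R)))
    (hml : ∀ m j R, (l m j).real (Ici R) ≤ K * Real.exp (-(κ * R)))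
    (hd1 : ∀ m i, (n m i).real univ ≤ C₂) (hd2 : ∀ m j, (l m j).real (Ici 0) ≤ C₂)
    (hd4 : ∀ m i R, 0 ≤ R → R ≤ M m →
      (n m i).real (Iio (-R)) ≤ C₂ * (Real.exp (-(c₂ * R)) + ε m))
    (hd5 : ∀ m j R, 0 ≤ R → R ≤ M m →
      (l m j).real (Ico (-(M m)) (-R)) ≤ C₂ * (Real.exp (-(c₂ * R)) + ε m))
    (hpos : ∀ m y, -(M m) ≤ y → 0 ≤ S.g (n m) (l m) y)
    (herr : Tendsto err atTop (nhds 0))
    (hcost : ∀ m, ∑ i, S.cb i * (n m i).real univ +
      ∑ j, S.cl j * (l m j).real (Ici (-(M m))) ≤ S.v + err m) :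
    ∃ n' l', S.Cert n' l' ∧
      ∑ i, S.cb i * (n' i).real univ + ∑ j, S.cl j * (l' j).real univ ≤ S.v := by
  obtain ⟨μ, hμ⟩ : ∃ μ : ι ⊕ lam → ℕ → Measure ℝ, μ = fun θ m =>
    Sum.elim (fun i => n m i) (fun j => (l m j).restrict (Ici (-(M m)))) θ := ⟨_, rfl⟩
  have hμl : ∀ i m, μ (Sum.inl i) m = n m i := by
    intro i m
    rw [hμ]
    rfl
  have hμr : ∀ j m, μ (Sum.inr j) m = (l m j).restrict (Ici (-(M m))) := by
    intro j m
    rw [hμ]
    rfl
  obtain ⟨K', hK'⟩ : ∃ K', K' = max K (3 * C₂) := ⟨_, rfl⟩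
  obtain ⟨c, hc⟩ : ∃ c, c = min κ c₂ := ⟨_, rfl⟩
  have hc0 : 0 < c := by rw [hc]; exact lt_min hκ hc₂
  have hcκ : c ≤ κ := by rw [hc]; exact min_le_left _ _
  have hcc : c ≤ c₂ := by rw [hc]; exact min_le_right _ _
  have hKK : K ≤ K' := by rw [hK']; exact le_max_left _ _
  have hKC : 3 * C₂ ≤ K' := by rw [hK']; exact le_max_right _ _
  have hK0 : 0 ≤ K' := by linarith
  have hexp : ∀ R : ℝ, 0 ≤ R → K * Real.exp (-(κ * R)) ≤ K' * Real.exp (-(c * R)) := by
    intro R hR
    have h1 : Real.exp (-(κ * R)) ≤ Real.exp (-(c * R)) := by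
      rw [Real.exp_le_exp]
      have := mul_le_mul_of_nonneg_right hcκ hR
      linarith
    calc K * Real.exp (-(κ * R)) ≤ K' * Real.exp (-(κ * R)) :=
          mul_le_mul_of_nonneg_right hKK (Real.exp_pos _).le
      _ ≤ _ := mul_le_mul_of_nonneg_left h1 hK0
  have hexp2 : ∀ (R : ℝ) (m : ℕ), 0 ≤ R → 0 ≤ Real.exp (-(c₂ * R)) + ε m →
      C₂ * (Real.exp (-(c₂ * R)) + ε m) ≤ K' * (Real.exp (-(c * R)) + ε m) := by
    intro R m hR h0
    have h1 : Real.exp (-(c₂ * R)) ≤ Real.exp (-(c * R)) := by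
      rw [Real.exp_le_exp]
      have := mul_le_mul_of_nonneg_right hcc hR
      linarith
    calc C₂ * (Real.exp (-(c₂ * R)) + ε m) ≤ K' * (Real.exp (-(c₂ * R)) + ε m) :=
          mul_le_mul_of_nonneg_right (by linarith) h0
      _ ≤ _ := mul_le_mul_of_nonneg_left (by linarith) hK0
  obtain ⟨𝓕, μ', hne, hle, hfin', hint', hlim⟩ := lim_tight μ (by
      rintro (i | j) m
      · rw [hμl]; exact hfn m i
      · rw [hμr]
        have := hfl m j
        infer_instance) hc0 hM hε (K := K') (by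
      rintro (i | j) m
      · rw [hμl]
        have := hd1 m i
        linarith
      · rw [hμr, measureReal_restrict_apply_univ]
        have := hfl m j
        have h1 : Ici (-(M m)) = Ico (-(M m)) 0 ∪ Ici 0 := by
          rw [Ico_union_Ici_eq_Ici (by linarith [hM0 m])]
        rw [h1]
        refine (measureReal_union_le _ _).trans ?_
        have h2 := hd5 m j 0 le_rfl (hM0 m)
        rw [neg_zero, mul_zero, neg_zero, Real.exp_zero] at h2
        have h3 := hd2 m j
        have h4 : C₂ * (1 + ε m) ≤ C₂ * (1 + 1) :=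
          mul_le_mul_of_nonneg_left (by linarith [hε1 m]) (by linarith)
        linarith) (by
      rintro (i | j) m R hR
      · rw [hμl]
        exact (hmn m i R).trans (hexp R hR)
      · rw [hμr, measureReal_restrict_apply measurableSet_Ici]
        have := hfl m j
        exact ((measureReal_mono inter_subset_left).trans (hml m j R)).trans (hexp R hR)) (by
      rintro (i | j) m R hR hRM
      · rw [hμl]
        have := hfn m i
        have h1 := hd4 m i R hR hRM
        refine h1.trans (hexp2 R m hR ?_)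
        have h2 : (0 : ℝ) ≤ (n m i).real (Iio (-R)) := measureReal_nonneg
        have h3 : 0 ≤ C₂ * (Real.exp (-(c₂ * R)) + ε m) := h2.trans h1
        exact (mul_nonneg_iff_of_pos_left (by linarith)).1 h3
      · rw [hμr, measureReal_restrict_apply measurableSet_Iio]
        have := hfl m j
        have h1 := hd5 m j R hR hRM
        have e1 : Iio (-R) ∩ Ici (-(M m)) = Ico (-(M m)) (-R) := by
          ext x
          simp only [mem_inter_iff, mem_Iio, mem_Ici, mem_Ico]
          exact and_comm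
        rw [e1]
        refine h1.trans (hexp2 R m hR ?_)
        have h2 : (0 : ℝ) ≤ (l m j).real (Ico (-(M m)) (-R)) := measureReal_nonneg
        have h3 : 0 ≤ C₂ * (Real.exp (-(c₂ * R)) + ε m) := h2.trans h1
        exact (mul_nonneg_iff_of_pos_left (by linarith)).1 h3)
  have hmass : ∀ θ, Tendsto (fun m => (μ θ m).real univ) 𝓕 (nhds ((μ' θ).real univ)) := by
    intro θ
    have h1 := hlim θ (fun _ => 1) continuous_const ⟨1, fun x => by rw [abs_one]⟩
    simp only [integral_const, smul_eq_mul, mul_one] at h1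
    exact h1
  refine ⟨fun i => μ' (Sum.inl i), fun j => μ' (Sum.inr j), ⟨fun i => hfin' _, fun j => hfin' _,
    ⟨c / 2, by positivity, fun i => hint' _, fun j => hint' _⟩, fun y => ?_⟩, ?_⟩
  · have hgl : Tendsto (fun m => S.g (n m) (fun j => (l m j).restrict (Ici (-(M m)))) y) 𝓕
        (nhds (S.g (fun i => μ' (Sum.inl i)) (fun j => μ' (Sum.inr j)) y)) := by
      unfold g
      refine ((tendsto_finsetSum _ fun i _ => ?_).add (tendsto_finsetSum _ fun j _ => ?_)).sub
        tendsto_const_nhds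
      · have h1 := hlim (Sum.inl i) (fun x => S.kb i (x - y))
          ((S.hkb i).cont.comp (continuous_id.sub continuous_const))
          ⟨S.β i + S.C, fun x => S.kb_abs i _⟩
        simp only [hμl] at h1
        exact h1
      · have h1 := hlim (Sum.inr j) (fun x => S.kl j (x - y))
          ((S.hkl j).cont.comp (continuous_id.sub continuous_const))
          ⟨S.C, fun x => S.kl_abs j _⟩
        simp only [hμr] at h1
        exact h1
    refine ge_of_tendsto hgl ?_
    have h2 : ∀ᶠ m in atTop, -(M m) ≤ y := by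
      filter_upwards [hM.eventually_ge_atTop (-y)] with m hm
      linarith
    filter_upwards [hle h2] with m hm
    refine (hpos m y hm).trans ?_
    unfold g
    refine sub_le_sub_right (add_le_add_right (Finset.sum_le_sum fun j _ => ?_) _) _
    have := hfl m j
    have h3 := S.int_kl j (l m j) y
    rw [← integral_indicator measurableSet_Ici]
    refine integral_mono h3 (h3.indicator measurableSet_Ici) fun x => ?_
    by_cases hx : x ∈ Ici (-(M m))
    · rw [indicator_of_mem hx]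
    · rw [indicator_of_notMem hx]
      exact ((S.hkl j).neg _).le
  · have h1 : Tendsto (fun m => ∑ i, S.cb i * (n m i).real univ +
        ∑ j, S.cl j * (l m j).real (Ici (-(M m)))) 𝓕
        (nhds (∑ i, S.cb i * (μ' (Sum.inl i)).real univ +
          ∑ j, S.cl j * (μ' (Sum.inr j)).real univ)) := by
      refine (tendsto_finsetSum _ fun i _ => ?_).add (tendsto_finsetSum _ fun j _ => ?_)
      · have h2 := (hmass (Sum.inl i)).const_mul (S.cb i)
        simp only [hμl] at h2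
        exact h2
      · have h2 := (hmass (Sum.inr j)).const_mul (S.cl j)
        simp only [hμr, measureReal_restrict_apply_univ] at h2
        exact h2
    have h2 : Tendsto (fun m => S.v + err m) 𝓕 (nhds (S.v + 0)) :=
      tendsto_const_nhds.add (herr.mono_left hle)
    rw [add_zero] at h2
    exact le_of_tendsto_of_tendsto' h1 h2 hcost

theorem lim_cert [Nonempty ι] (hV : S.HypV) {a : ℝ} (ha : 0 ≤ a)
    (hal : ∀ j, a * ∫ s in Ioi (0 : ℝ), S.kl j s < S.cl j)
    {L₁ : ℝ} (hL₁ : 0 ≤ L₁) {κ : ℝ} (hκ : 0 < κ) (K : ℝ) :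
    ∃ A : ℝ, 1 ≤ A ∧ ∀ (Λ : ℕ → ℝ) (n : ℕ → ι → Measure ℝ) (l : ℕ → lam → Measure ℝ),
      Tendsto Λ atTop atTop →
      (∀ m, S.Half a κ K (Λ m) (A * Real.log (Λ m)) L₁ (n m) (l m)) →
      ∃ n' l', S.Cert n' l' ∧
        ∑ i, S.cb i * (n' i).real univ + ∑ j, S.cl j * (l' j).real univ ≤ S.v := by
  obtain ⟨C₂, c₂, hC₂, hc₂, hdec⟩ := S.dec hV ha hal hL₁ hκ K
  obtain ⟨A, hA⟩ : ∃ A : ℝ, A = 2 / c₂ + 1 := ⟨_, rfl⟩
  have hA1 : 1 ≤ A := by
    rw [hA]
    have : 0 ≤ 2 / c₂ := by positivity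
    linarith
  refine ⟨A, hA1, fun Λ n l hΛ H => ?_⟩
  -- growth
  have hMt : Tendsto (fun m => A * Real.log (Λ m)) atTop atTop :=
    (Real.tendsto_log_atTop.comp hΛ).const_mul_atTop (by linarith)
  have hεt := limc_grow A hΛ
  have hev : ∀ᶠ m in atTop, 1 ≤ Λ m ∧ 1 ≤ A * Real.log (Λ m) ∧
      (A * Real.log (Λ m) + 1) ^ 2 / Λ m ≤ 1 / C₂ := by
    filter_upwards [hΛ.eventually_ge_atTop 1, hMt.eventually_ge_atTop 1,
      hεt.eventually_le_const (by positivity : (0 : ℝ) < 1 / C₂)] with m h1 h2 h3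
    exact ⟨h1, h2, h3⟩
  obtain ⟨N, hN⟩ := eventually_atTop.1 hev
  have hsh := tendsto_add_atTop_nat N
  obtain ⟨Λ', hΛ'⟩ : ∃ Λ' : ℕ → ℝ, Λ' = fun m => Λ (m + N) := ⟨_, rfl⟩
  have hΛt : Tendsto Λ' atTop atTop := by
    rw [hΛ']
    exact hΛ.comp hsh
  obtain ⟨M, hM⟩ : ∃ M : ℕ → ℝ, M = fun m => A * Real.log (Λ' m) := ⟨_, rfl⟩
  have hMt' : Tendsto M atTop atTop := by
    rw [hM, hΛ']
    exact hMt.comp hsh
  have hN1 : ∀ m, 1 ≤ Λ' m := fun m => by
    rw [hΛ']
    exact (hN (m + N) (Nat.le_add_left _ _)).1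
  have hN2 : ∀ m, 1 ≤ M m := fun m => by
    rw [hM, hΛ']
    exact (hN (m + N) (Nat.le_add_left _ _)).2.1
  have hN3 : ∀ m, (M m + 1) ^ 2 / Λ' m ≤ 1 / C₂ := fun m => by
    rw [hM, hΛ']
    exact (hN (m + N) (Nat.le_add_left _ _)).2.2
  have hεt' : Tendsto (fun m => (M m + 1) ^ 2 / Λ' m) atTop (nhds 0) := by
    rw [hM]
    exact limc_grow A hΛt
  have hH : ∀ m, S.Half a κ K (Λ' m) (M m) L₁ (n (m + N)) (l (m + N)) := fun m => by
    rw [hM, hΛ']
    exact H (m + N)
  have hlin : ∀ m, (M m + 1) / Λ' m ≤ (M m + 1) ^ 2 / Λ' m := by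
    intro m
    have h1 := hN1 m
    have h2 := hN2 m
    refine div_le_div_of_nonneg_right ?_ (by linarith)
    nlinarith
  have hC1 : 1 / C₂ ≤ 1 := by
    rw [div_le_one (by linarith)]
    exact hC₂
  have hCM : ∀ m, C₂ * (M m + 1) ≤ Λ' m := by
    intro m
    have h1 := (hlin m).trans (hN3 m)
    have h2 : 0 < Λ' m := by linarith [hN1 m]
    rw [div_le_div_iff₀ h2 (by linarith), one_mul] at h1
    linarith
  have hde := fun m => hdec (Λ' m) (M m) (n (m + N)) (l (m + N)) (hN2 m) (hCM m) (hH m)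
  -- moments
  have hint : ∀ m, (∀ i, ∫ x, Real.exp (κ * x) ∂(n (m + N) i) ≤ K) ∧
      ∀ j, ∫ x, Real.exp (κ * x) ∂(l (m + N) j) ≤ K := by
    intro m
    have h1 := (hH m).mom
    have h2 : ∀ i, 0 ≤ ∫ x, Real.exp (κ * x) ∂(n (m + N) i) := fun i =>
      integral_nonneg fun x => (Real.exp_pos _).le
    have h3 : ∀ j, 0 ≤ ∫ x, Real.exp (κ * x) ∂(l (m + N) j) := fun j =>
      integral_nonneg fun x => (Real.exp_pos _).le
    have h4 : 0 ≤ ∑ i, ∫ x, Real.exp (κ * x) ∂(n (m + N) i) := Finset.sum_nonneg fun i _ => h2 i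
    have h5 : 0 ≤ ∑ j, ∫ x, Real.exp (κ * x) ∂(l (m + N) j) := Finset.sum_nonneg fun j _ => h3 j
    constructor
    · intro i
      have h6 := Finset.single_le_sum (f := fun i => ∫ x, Real.exp (κ * x) ∂(n (m + N) i))
        (fun i _ => h2 i) (Finset.mem_univ i)
      linarith
    · intro j
      have h6 := Finset.single_le_sum (f := fun j => ∫ x, Real.exp (κ * x) ∂(l (m + N) j))
        (fun j _ => h3 j) (Finset.mem_univ j)
      linarith
  -- the error
  obtain ⟨err, herr⟩ : ∃ err : ℕ → ℝ, err = fun m =>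
      (Λ' m * (C₂ * Real.exp (-(c₂ * M m))) +
        a * ∑ i, (S.C / S.γ * Real.exp (-(S.γ * (M m / 2))) * C₂ +
          (S.C / S.γ + (2 * S.β i + S.C) * L₁) *
            (C₂ * (Real.exp (-(c₂ * (M m / 2))) + (M m + 1) / Λ' m))) +
        a * (S.C / S.γ * Real.exp (-(S.γ * M m)))) := ⟨_, rfl⟩
  have hM2 : Tendsto (fun m => M m / 2) atTop atTop := hMt'.atTop_div_const two_pos
  have hlin0 : Tendsto (fun m => (M m + 1) / Λ' m) atTop (nhds 0) := by
    refine squeeze_zero (fun m => ?_) hlin hεt'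
    have h1 := hN1 m
    have h2 := hN2 m
    exact div_nonneg (by linarith) (by linarith)
  have herr0 : Tendsto err atTop (nhds 0) := by
    have t1 : Tendsto (fun m => Λ' m * (C₂ * Real.exp (-(c₂ * M m)))) atTop (nhds 0) := by
      rw [hM]
      exact limc_lam hΛt hc₂ hA (by linarith)
    have t2 : Tendsto (fun m => a * ∑ i, (S.C / S.γ * Real.exp (-(S.γ * (M m / 2))) * C₂ +
          (S.C / S.γ + (2 * S.β i + S.C) * L₁) *
            (C₂ * (Real.exp (-(c₂ * (M m / 2))) + (M m + 1) / Λ' m)))) atTop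
        (nhds (a * ∑ i : ι, (S.C / S.γ * 0 * C₂ +
          (S.C / S.γ + (2 * S.β i + S.C) * L₁) * (C₂ * (0 + 0))))) := by
      refine (tendsto_finsetSum _ fun i _ => ?_).const_mul a
      refine (((limc_exp hM2 S.hγ0).const_mul _).mul_const _).add
        ((((limc_exp hM2 hc₂).add hlin0).const_mul _).const_mul _)
    have t3 : Tendsto (fun m => a * (S.C / S.γ * Real.exp (-(S.γ * M m)))) atTop
        (nhds (a * (S.C / S.γ * 0))) := ((limc_exp hMt' S.hγ0).const_mul _).const_mul _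
    have t := (t1.add t2).add t3
    rw [herr]
    have e : (0 : ℝ) + a * ∑ i : ι, (S.C / S.γ * 0 * C₂ +
          (S.C / S.γ + (2 * S.β i + S.C) * L₁) * (C₂ * (0 + 0))) +
          a * (S.C / S.γ * 0) = 0 := by simp
    rw [e] at t
    exact t
  refine S.limc_aux hκ hc₂ hC₂ (n := fun m => n (m + N)) (l := fun m => l (m + N)) (M := M)
    (ε := fun m => (M m + 1) ^ 2 / Λ' m) (err := err) (K := K) hMt'
    (fun m => by linarith [hN2 m]) hεt' (fun m => (hN3 m).trans hC1)
    (fun m i => (hH m).finn i) (fun m j => (hH m).finl j)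
    (fun m i R => limc_right hκ ((hH m).intn i) ((hint m).1 i) R)
    (fun m j R => limc_right hκ ((hH m).intl j) ((hint m).2 j) R)
    (fun m i => (hde m).1 i) (fun m j => (hde m).2.1 j) ?_ ?_ (fun m y hy => (hH m).pos y hy)
    herr0 ?_
  · intro m i R hR hRM
    have h1 := (hde m).2.2.2.1 i (-R) (by linarith) (by linarith)
    have e1 : c₂ * -R = -(c₂ * R) := by ring
    rw [e1] at h1
    refine h1.trans (mul_le_mul_of_nonneg_left ?_ (by linarith))
    exact add_le_add_right (hlin m) _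
  · intro m j R hR hRM
    have h1 := (hde m).2.2.2.2 j (-R) (by linarith) (by linarith)
    have e1 : c₂ * -R = -(c₂ * R) := by ring
    rw [e1] at h1
    exact h1
  · intro m
    rw [herr]
    refine S.limc_cost ha hal hL₁ (hN2 m) (by linarith [hN1 m]) (hH m) (fun i => (hde m).1 i)
      (hde m).2.2.1 (fun i => ?_)
    have h0 := hN2 m
    have h1 := (hde m).2.2.2.1 i (-(M m / 2)) (by linarith) (by linarith)
    have e1 : c₂ * -(M m / 2) = -(c₂ * (M m / 2)) := by ring
    rw [e1] at h1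
    exact h1

end Sys

end Pool.Agent.IND2I
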