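import Pool.Agent.IND2I.Ker1

/-!
# IND2I, module Loc: local bounds for the masses of a certificate on the left of the target

`y ≤ 0`.  `g n l y ≥ 0` says `∑ ∫ |kl j (x - y)| dl_j ≤ -k₀ (-y) + ∑ ∫ kb i (x - y) dn_i`.  Here
`-k₀ (-y) ≤ β₀ + C e^{γ y}` (`hk₀.right`, `-y ≥ 0`), `∫_{x ≥ y} kb i (x - y) ≤ -β i n_i (Ici y) + C ∫_{x ≥ y} e^{-γ/2 |x-y|}`
(`kb_le_right`) and `∫_{x < y} kb i (x - y) ≤ C ∫_{x < y} e^{-γ/2 |x-y|}` (`kb_le`).
-/

set_option autoImplicit false

namespace Pool.Agent.IND2I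

open MeasureTheory Set

namespace Sys

variable {ι lam : Type} [Fintype ι] [Fintype lam] (S : Sys ι lam) {n : ι → Measure ℝ}
  {l : lam → Measure ℝ}

theorem loc_exp_int (μ : Measure ℝ) [IsFiniteMeasure μ] (y : ℝ) :
    Integrable (fun x => Real.exp (-(S.γ / 2 * |x - y|))) μ := by
  refine Integrable.of_bound (C := 1) ?_ ?_
  · exact (by fun_prop : Continuous (fun x => Real.exp (-(S.γ / 2 * |x - y|)))).aestronglyMeasurable
  · refine Filter.Eventually.of_forall (fun x => ?_)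
    rw [Real.norm_eq_abs, abs_of_nonneg (Real.exp_nonneg _)]
    refine Real.exp_le_one_iff.2 ?_
    have h1 := S.hγ0
    have h2 : 0 ≤ S.γ / 2 * |x - y| := by positivity
    linarith

theorem loc_kb (i : ι) (μ : Measure ℝ) [IsFiniteMeasure μ] (y : ℝ) :
    ∫ x, S.kb i (x - y) ∂μ ≤
      -(S.β i * μ.real (Ici y)) + S.C * ∫ x, Real.exp (-(S.γ / 2 * |x - y|)) ∂μ := by
  have h1 : Integrable (fun x => (Ici y).indicator (fun _ => -S.β i) x) μ :=
    (integrable_const (-S.β i)).indicator measurableSet_Ici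
  have h2 : Integrable (fun x => S.C * Real.exp (-(S.γ / 2 * |x - y|))) μ :=
    (S.loc_exp_int μ y).const_mul _
  have h3 : ∫ x, S.kb i (x - y) ∂μ ≤ ∫ x, ((Ici y).indicator (fun _ => -S.β i) x +
      S.C * Real.exp (-(S.γ / 2 * |x - y|))) ∂μ := by
    refine integral_mono (S.int_kb i μ y) (h1.add h2) (fun x => ?_)
    by_cases hx : y ≤ x
    · have h4 := S.kb_le_right i (s := x - y) (by linarith)
      have h5 : (Ici y).indicator (fun _ => -S.β i) x = -S.β i :=
        Set.indicator_of_mem (show x ∈ Ici y from hx) _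
      show S.kb i (x - y) ≤ (Ici y).indicator (fun _ => -S.β i) x + _
      rw [h5]
      exact h4
    · have h4 := S.kb_le i (x - y)
      have h5 : (Ici y).indicator (fun _ => -S.β i) x = 0 :=
        Set.indicator_of_notMem (show x ∉ Ici y from hx) _
      show S.kb i (x - y) ≤ (Ici y).indicator (fun _ => -S.β i) x + _
      rw [h5, zero_add]
      exact h4
  rw [integral_add h1 h2, integral_indicator measurableSet_Ici, setIntegral_const,
    integral_const_mul] at h3
  have h6 : μ.real (Ici y) • (-S.β i) = -(S.β i * μ.real (Ici y)) := by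
    rw [smul_eq_mul]
    ring
  rw [h6] at h3
  exact h3

theorem loc_upper (hn : ∀ i, IsFiniteMeasure (n i)) (hl : ∀ j, IsFiniteMeasure (l j)) {y : ℝ}
    (hy : y ≤ 0) (hg : 0 ≤ S.g n l y) :
    ∑ j, ∫ x, |S.kl j (x - y)| ∂(l j) ≤
      S.D n y + S.C * S.B n y + S.C * Real.exp (S.γ / 2 * y) := by
  have h1 : ∑ j, ∫ x, |S.kl j (x - y)| ∂(l j) = -∑ j, ∫ x, S.kl j (x - y) ∂(l j) := by
    rw [← Finset.sum_neg_distrib]
    refine Finset.sum_congr rfl (fun j _ => ?_)
    rw [← integral_neg]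
    refine integral_congr_ae (Filter.Eventually.of_forall (fun x => ?_))
    exact abs_of_neg ((S.hkl j).neg _)
  have h2 : ∑ i, ∫ x, S.kb i (x - y) ∂(n i) ≤
      -(∑ i, S.β i * (n i).real (Ici y)) + S.C * S.B n y := by
    rw [B, Finset.mul_sum, ← Finset.sum_neg_distrib, ← Finset.sum_add_distrib]
    refine Finset.sum_le_sum (fun i _ => ?_)
    have := hn i
    exact S.loc_kb i (n i) y
  have h3 := S.hk₀.right (-y) (by linarith)
  have h4 := (abs_le.1 h3).1
  have h5 : Real.exp (-(S.γ * (-y))) ≤ Real.exp (S.γ / 2 * y) := by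
    refine Real.exp_le_exp.2 ?_
    have := S.hγ0
    nlinarith
  have h6 : S.C * Real.exp (-(S.γ * (-y))) ≤ S.C * Real.exp (S.γ / 2 * y) :=
    mul_le_mul_of_nonneg_left h5 (by linarith [S.hC])
  rw [h1]
  rw [g] at hg
  rw [D]
  linarith

/-- `kl ≤ -c` on `[-1, 1]`. -/
theorem loc_mass (hn : ∀ i, IsFiniteMeasure (n i)) (hl : ∀ j, IsFiniteMeasure (l j)) {y : ℝ}
    (hy : y ≤ 0) (hg : 0 ≤ S.g n l y) (j : lam) :
    S.c * (l j).real (Icc (y - 1) (y + 1)) ≤
      S.D n y + S.C * S.B n y + S.C * Real.exp (S.γ / 2 * y) := by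
  refine le_trans ?_ (S.loc_upper hn hl hy hg)
  have := hl j
  have h1 : Integrable (fun x => (Icc (y - 1) (y + 1)).indicator (fun _ => S.c) x) (l j) :=
    (integrable_const S.c).indicator measurableSet_Icc
  have h2 : ∫ x, (Icc (y - 1) (y + 1)).indicator (fun _ => S.c) x ∂(l j) ≤
      ∫ x, |S.kl j (x - y)| ∂(l j) := by
    refine integral_mono h1 (S.int_kl j (l j) y).abs (fun x => ?_)
    show (Icc (y - 1) (y + 1)).indicator (fun _ => S.c) x ≤ |S.kl j (x - y)|
    by_cases hx : x ∈ Icc (y - 1) (y + 1)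
    · rw [Set.indicator_of_mem hx, abs_of_neg ((S.hkl j).neg _)]
      have h3 := (S.hkl j).mid (x - y) (by
        rw [abs_le]
        constructor
        · linarith [hx.1]
        · linarith [hx.2])
      linarith
    · rw [Set.indicator_of_notMem hx]
      exact abs_nonneg _
  rw [integral_indicator measurableSet_Icc, setIntegral_const, smul_eq_mul, mul_comm] at h2
  refine h2.trans ?_
  exact Finset.single_le_sum (f := fun j => ∫ x, |S.kl j (x - y)| ∂(l j))
    (fun j _ => integral_nonneg (fun x => abs_nonneg _)) (Finset.mem_univ j)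

theorem D_lower (hn : ∀ i, IsFiniteMeasure (n i)) (hl : ∀ j, IsFiniteMeasure (l j)) {y : ℝ}
    (hy : y ≤ 0) (hg : 0 ≤ S.g n l y) :
    -(S.C * S.B n y + S.C * Real.exp (S.γ / 2 * y)) ≤ S.D n y := by
  have h1 := S.loc_upper hn hl hy hg
  have h2 : 0 ≤ ∑ j, ∫ x, |S.kl j (x - y)| ∂(l j) :=
    Finset.sum_nonneg (fun j _ => integral_nonneg (fun x => abs_nonneg _))
  linarith

/-- `D n y = Dtot n + ∑ β i n_i (Iio y)`. -/
theorem D_eq (hn : ∀ i, IsFiniteMeasure (n i)) (y : ℝ) :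
    S.D n y = S.Dtot n + ∑ i, S.β i * (n i).real (Iio y) := by
  have h1 : ∀ i, (n i).real univ = (n i).real (Ici y) + (n i).real (Iio y) := by
    intro i
    have := hn i
    have h2 : (univ : Set ℝ) = Ici y ∪ Iio y := by
      ext x
      simp
    rw [h2, measureReal_union ?_ measurableSet_Iio]
    rw [Set.disjoint_left]
    intro x hx hx'
    exact absurd (lt_of_lt_of_le (Set.mem_Iio.1 hx') (Set.mem_Ici.1 hx)) (lt_irrefl _)
  rw [D, Dtot]
  have h3 : ∑ i, S.β i * (n i).real univ =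
      ∑ i, S.β i * (n i).real (Ici y) + ∑ i, S.β i * (n i).real (Iio y) := by
    rw [← Finset.sum_add_distrib]
    refine Finset.sum_congr rfl (fun i _ => ?_)
    rw [h1 i]
    ring
  rw [h3]
  ring

theorem D_mono (hn : ∀ i, IsFiniteMeasure (n i)) {y z : ℝ} (h : y ≤ z) : S.D n y ≤ S.D n z := by
  rw [D, D]
  have h1 : ∑ i, S.β i * (n i).real (Ici z) ≤ ∑ i, S.β i * (n i).real (Ici y) := by
    refine Finset.sum_le_sum (fun i _ => ?_)
    have := hn i
    exact mul_le_mul_of_nonneg_left (measureReal_mono (Set.Ici_subset_Ici.2 h)) (S.hβ i).le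
  linarith

theorem D_le (hn : ∀ i, IsFiniteMeasure (n i)) (y : ℝ) : S.D n y ≤ S.β₀ := by
  rw [D]
  have h1 : 0 ≤ ∑ i, S.β i * (n i).real (Ici y) :=
    Finset.sum_nonneg (fun i _ => mul_nonneg (S.hβ i).le measureReal_nonneg)
  linarith

theorem B_nonneg (y : ℝ) : 0 ≤ S.B n y := by
  rw [B]
  exact Finset.sum_nonneg (fun i _ => integral_nonneg (fun x => Real.exp_nonneg _))

theorem B_le (hn : ∀ i, IsFiniteMeasure (n i)) (y : ℝ) : S.B n y ≤ ∑ i, (n i).real univ := by
  rw [B]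
  refine Finset.sum_le_sum (fun i _ => ?_)
  have := hn i
  have h1 : ∫ x, Real.exp (-(S.γ / 2 * |x - y|)) ∂(n i) ≤ ∫ _x, (1 : ℝ) ∂(n i) := by
    refine integral_mono (S.loc_exp_int (n i) y) (integrable_const _) (fun x => ?_)
    refine Real.exp_le_one_iff.2 ?_
    have h1 := S.hγ0
    have h2 : 0 ≤ S.γ / 2 * |x - y| := by positivity
    linarith
  rwa [integral_const, smul_eq_mul, mul_one] at h1

end Sys

end Pool.Agent.IND2I
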