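import Pool.Agent.IND2I.KT

/-!
# IND2I, module NecD: potentials of measures with subexponential growth

`Tame μ`: no mass to the left of some `y₀`, `μ (Iic x) = e^{o(x)}`.
`tame_exp`: `∫_{y > x} e^{x - y} dμ ≤ C e^{δ|x|}`: for `δ ≤ 1/2` cover by the intervals `(x + m, x + m + 1]`:
`∑_m e^{-m} μ (Iic (x + m + 1)) ≤ ∑_m e^{-m} C e^{δ (|x| + m + 1)}`; for larger `δ` use `δ = 1/2` (`e^{|x|/2} ≤ e^{δ|x|}`).
`tame_abs`: `|k s| ≤ β + C` everywhere and `|k s| ≤ C e^s` for `s ≤ 0`: `∫ |k (x - y)| dμ ≤ (β + C) μ (Iic x) + C ∫_{y > x} e^{x-y} dμ`.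
`tame_cont`: dominated convergence, for `|x - x₀| ≤ 1`, `|k (x - y)| ≤ β + C` for `y ≤ x₀ + 1` and `≤ C e^{x₀ + 1 - y}` for `y > x₀ + 1`.
`tame_bot`: for `x < y₀` all mass is to the right: `|∫ k (x - y) dμ| ≤ C e^x ∫ e^{-y} dμ → 0`.
-/

set_option autoImplicit false

namespace Pool.Agent.IND2I

open MeasureTheory Set Filter Topology

structure Tame (μ : Measure ℝ) : Prop where
  y0 : ∃ y₀, μ (Iio y₀) = 0
  grow : ∀ δ : ℝ, 0 < δ → ∃ C : ℝ, 0 ≤ C ∧ ∀ x, μ (Iic x) ≤ ENNReal.ofReal (C * Real.exp (δ * |x|))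

variable {γ C β : ℝ} {k : ℝ → ℝ} {μ : Measure ℝ}

theorem Tame.fin (hμ : Tame μ) (x : ℝ) : μ (Iic x) < ⊤ := by
  obtain ⟨C, -, hC⟩ := hμ.grow 1 one_pos
  exact lt_of_le_of_lt (hC x) ENNReal.ofReal_lt_top

theorem tame_exp (hμ : Tame μ) {δ : ℝ} (hδ : 0 < δ) : ∃ C' : ℝ, 0 ≤ C' ∧ ∀ x,
    IntegrableOn (fun y => Real.exp (x - y)) (Ioi x) μ ∧
    ∫ y in Ioi x, Real.exp (x - y) ∂μ ≤ C' * Real.exp (δ * |x|) := by
  obtain ⟨δ', hδ', h1, h2⟩ : ∃ δ' : ℝ, 0 < δ' ∧ δ' ≤ δ ∧ δ' ≤ 1 / 2 :=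
    ⟨min δ (1 / 2), lt_min hδ (by norm_num), min_le_left _ _, min_le_right _ _⟩
  obtain ⟨C, hC0, hC⟩ := hμ.grow δ' hδ'
  have hr0 : 0 ≤ Real.exp (-(1 / 2)) := (Real.exp_pos _).le
  have hr1 : Real.exp (-(1 / 2)) < 1 := by
    rw [Real.exp_lt_one_iff]
    norm_num
  have hsum : Summable fun m : ℕ => Real.exp (-(1 / 2)) ^ m := summable_geometric_of_lt_one hr0 hr1
  obtain ⟨S, hS⟩ : ∃ S, S = ∑' m : ℕ, Real.exp (-(1 / 2)) ^ m := ⟨_, rfl⟩
  have hS0 : 0 ≤ S := by
    rw [hS]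
    exact tsum_nonneg fun m => pow_nonneg hr0 m
  refine ⟨C * Real.exp (1 / 2) * S, by positivity, fun x => ?_⟩
  have key : ∫⁻ y in Ioi x, ENNReal.ofReal (Real.exp (x - y)) ∂μ ≤
      ENNReal.ofReal (C * Real.exp (1 / 2) * S * Real.exp (δ * |x|)) := by
    have hsub : Ioi x ⊆ ⋃ m : ℕ, Ioc (x + m) (x + m + 1) := by
      intro y hy
      have hy' : 0 < y - x := sub_pos.2 hy
      have hc : 0 < ⌈y - x⌉₊ := Nat.ceil_pos.2 hy'
      refine mem_iUnion.2 ⟨⌈y - x⌉₊ - 1, ?_⟩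
      have e1 : ((⌈y - x⌉₊ - 1 : ℕ) : ℝ) = (⌈y - x⌉₊ : ℝ) - 1 := by
        rw [Nat.cast_sub hc, Nat.cast_one]
      have e2 := Nat.le_ceil (y - x)
      have e3 := Nat.ceil_lt_add_one hy'.le
      constructor
      · rw [e1]
        linarith
      · rw [e1]
        linarith
    calc ∫⁻ y in Ioi x, ENNReal.ofReal (Real.exp (x - y)) ∂μ
        ≤ ∫⁻ y in ⋃ m : ℕ, Ioc (x + m) (x + m + 1), ENNReal.ofReal (Real.exp (x - y)) ∂μ :=
          lintegral_mono_set hsub
      _ ≤ ∑' m : ℕ, ∫⁻ y in Ioc (x + m) (x + m + 1), ENNReal.ofReal (Real.exp (x - y)) ∂μ :=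
          lintegral_iUnion_le _ _
      _ ≤ ∑' m : ℕ, ENNReal.ofReal (C * Real.exp (1 / 2) * Real.exp (δ' * |x|) *
            Real.exp (-(1 / 2)) ^ m) := by
          refine ENNReal.tsum_le_tsum fun m => ?_
          have hm : ∀ y ∈ Ioc (x + m) (x + m + 1), ENNReal.ofReal (Real.exp (x - y)) ≤
              ENNReal.ofReal (Real.exp (-(m : ℝ))) := fun y hy =>
            ENNReal.ofReal_le_ofReal (Real.exp_le_exp.2 (by linarith [hy.1]))
          refine (setLIntegral_mono' measurableSet_Ioc hm).trans ?_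
          rw [setLIntegral_const]
          have h3 : μ (Ioc (x + m) (x + m + 1)) ≤
              ENNReal.ofReal (C * Real.exp (δ' * |x + m + 1|)) :=
            (measure_mono Ioc_subset_Iic_self).trans (hC _)
          refine (mul_le_mul_right h3 _).trans ?_
          rw [← ENNReal.ofReal_mul (Real.exp_pos _).le]
          refine ENNReal.ofReal_le_ofReal ?_
          have h4 : |x + m + 1| ≤ |x| + m + 1 := by
            have := abs_add_three x m 1
            rw [abs_one, Nat.abs_cast] at this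
            exact this
          have h5 : Real.exp (-(1 / 2)) ^ m = Real.exp (-(1 / 2) * m) := by
            rw [← Real.exp_nat_mul, mul_comm]
          rw [h5]
          have h6 : Real.exp (-(m : ℝ)) * (C * Real.exp (δ' * |x + m + 1|)) =
              C * Real.exp (-(m : ℝ) + δ' * |x + m + 1|) := by
            rw [Real.exp_add]
            ring
          have h7 : C * Real.exp (1 / 2) * Real.exp (δ' * |x|) * Real.exp (-(1 / 2) * m) =
              C * Real.exp (1 / 2 + δ' * |x| + -(1 / 2) * m) := by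
            rw [Real.exp_add, Real.exp_add]
            ring
          rw [h6, h7]
          refine mul_le_mul_of_nonneg_left (Real.exp_le_exp.2 ?_) hC0
          have h8 : δ' * |x + m + 1| ≤ δ' * (|x| + m + 1) := mul_le_mul_of_nonneg_left h4 hδ'.le
          have h9 : δ' * (m : ℝ) ≤ 1 / 2 * m := mul_le_mul_of_nonneg_right h2 (Nat.cast_nonneg m)
          nlinarith
      _ = ENNReal.ofReal (C * Real.exp (1 / 2) * Real.exp (δ' * |x|) * S) := by
          rw [← ENNReal.ofReal_tsum_of_nonneg (fun m => by positivity) (hsum.mul_left _),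
            tsum_mul_left, hS]
      _ ≤ ENNReal.ofReal (C * Real.exp (1 / 2) * S * Real.exp (δ * |x|)) := by
          refine ENNReal.ofReal_le_ofReal ?_
          have h3 : Real.exp (δ' * |x|) ≤ Real.exp (δ * |x|) :=
            Real.exp_le_exp.2 (mul_le_mul_of_nonneg_right h1 (abs_nonneg x))
          calc C * Real.exp (1 / 2) * Real.exp (δ' * |x|) * S
              = C * Real.exp (1 / 2) * S * Real.exp (δ' * |x|) := by ring
            _ ≤ C * Real.exp (1 / 2) * S * Real.exp (δ * |x|) :=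
                mul_le_mul_of_nonneg_left h3 (by positivity)
  have hmeas : AEStronglyMeasurable (fun y => Real.exp (x - y)) (μ.restrict (Ioi x)) :=
    (by fun_prop : Continuous fun y => Real.exp (x - y)).aestronglyMeasurable
  have hnn : 0 ≤ᵐ[μ.restrict (Ioi x)] fun y => Real.exp (x - y) :=
    Eventually.of_forall fun y => (Real.exp_pos _).le
  refine ⟨⟨hmeas, ?_⟩, ?_⟩
  · rw [hasFiniteIntegral_iff_ofReal hnn]
    exact lt_of_le_of_lt key ENNReal.ofReal_lt_top
  · rw [integral_eq_lintegral_of_nonneg_ae hnn hmeas]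
    exact ENNReal.toReal_le_of_le_ofReal (by positivity) key

theorem tar_abs (hγ0 : 0 < γ) (hC : 1 ≤ C) (hβ : 0 ≤ β) (hk : KTar γ C β k) (s : ℝ) :
    |k s| ≤ β + C := by
  rcases le_total 0 s with hs | hs
  · have h1 := hk.right s hs
    have h2 : Real.exp (-(γ * s)) ≤ 1 := by
      rw [Real.exp_le_one_iff]
      nlinarith
    have h3 : |k s| ≤ |k s + β| + |β| := by
      have := abs_sub (k s + β) β
      rwa [add_sub_cancel_right] at this
    rw [abs_of_nonneg hβ] at h3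
    nlinarith
  · have h1 := hk.left s hs
    have h2 : Real.exp s ≤ 1 := Real.exp_le_one_iff.2 hs
    nlinarith

theorem tame_on_Iic (hγ0 : 0 < γ) (hC : 1 ≤ C) (hβ : 0 ≤ β) (hk : KTar γ C β k)
    (hμ : Tame μ) (x z : ℝ) : IntegrableOn (fun y => k (x - y)) (Iic z) μ := by
  have hcont : Continuous fun y => k (x - y) := hk.cont.comp (by fun_prop)
  exact Measure.integrableOn_of_bounded (hμ.fin z).ne hcont.aestronglyMeasurable
    (M := β + C) (Eventually.of_forall fun y => by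
      rw [Real.norm_eq_abs]
      exact tar_abs hγ0 hC hβ hk _)

theorem tame_on_Ioi (hk : KTar γ C β k) (hμ : Tame μ) (x : ℝ) :
    IntegrableOn (fun y => k (x - y)) (Ioi x) μ := by
  obtain ⟨C', -, h⟩ := tame_exp hμ one_pos
  have hcont : Continuous fun y => k (x - y) := hk.cont.comp (by fun_prop)
  refine Integrable.mono' ((h x).1.const_mul C) hcont.aestronglyMeasurable ?_
  refine (ae_restrict_iff' measurableSet_Ioi).2 (Eventually.of_forall fun y hy => ?_)
  rw [Real.norm_eq_abs]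
  exact hk.left _ (sub_nonpos.2 (le_of_lt hy))

theorem tame_int (hγ0 : 0 < γ) (hγ1 : γ < 1) (hC : 1 ≤ C) (hβ : 0 ≤ β) (hk : KTar γ C β k)
    (hμ : Tame μ) (x : ℝ) : Integrable (fun y => k (x - y)) μ := by
  have h := (tame_on_Iic hγ0 hC hβ hk hμ x x).union (tame_on_Ioi hk hμ x)
  rwa [Iic_union_Ioi, integrableOn_univ] at h

theorem tame_abs (hγ0 : 0 < γ) (hγ1 : γ < 1) (hC : 1 ≤ C) (hβ : 0 ≤ β) (hk : KTar γ C β k)
    (hμ : Tame μ) {δ : ℝ} (hδ : 0 < δ) : ∃ C' : ℝ, 0 ≤ C' ∧ ∀ x,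
    ∫ y, |k (x - y)| ∂μ ≤ C' * Real.exp (δ * |x|) := by
  obtain ⟨C₁, h1, H1⟩ := hμ.grow δ hδ
  obtain ⟨C₂, h2, H2⟩ := tame_exp hμ hδ
  refine ⟨(β + C) * C₁ + C * C₂, by positivity, fun x => ?_⟩
  have hint : Integrable (fun y => |k (x - y)|) μ := (tame_int hγ0 hγ1 hC hβ hk hμ x).abs
  rw [← integral_add_compl measurableSet_Iic hint, compl_Iic]
  have e1 : ∫ y in Iic x, |k (x - y)| ∂μ ≤ (β + C) * (C₁ * Real.exp (δ * |x|)) := by
    have h3 : ∫ y in Iic x, |k (x - y)| ∂μ ≤ ∫ y in Iic x, (β + C) ∂μ := by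
      refine setIntegral_mono hint.integrableOn ?_ fun y => tar_abs hγ0 hC hβ hk _
      exact integrableOn_const (hμ.fin x).ne
    refine h3.trans ?_
    rw [setIntegral_const, smul_eq_mul, mul_comm]
    refine mul_le_mul_of_nonneg_left ?_ (by positivity)
    exact ENNReal.toReal_le_of_le_ofReal (by positivity) (H1 x)
  have e2 : ∫ y in Ioi x, |k (x - y)| ∂μ ≤ C * (C₂ * Real.exp (δ * |x|)) := by
    have h3 : ∫ y in Ioi x, |k (x - y)| ∂μ ≤ ∫ y in Ioi x, C * Real.exp (x - y) ∂μ :=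
      setIntegral_mono_on hint.integrableOn ((H2 x).1.const_mul C) measurableSet_Ioi
        fun y hy => hk.left _ (sub_nonpos.2 (le_of_lt hy))
    refine h3.trans ?_
    rw [integral_const_mul]
    exact mul_le_mul_of_nonneg_left (H2 x).2 (by linarith)
  nlinarith

theorem tame_cont (hγ0 : 0 < γ) (hγ1 : γ < 1) (hC : 1 ≤ C) (hβ : 0 ≤ β) (hk : KTar γ C β k)
    (hμ : Tame μ) : Continuous fun x => ∫ y, k (x - y) ∂μ := by
  rw [continuous_iff_continuousAt]
  intro x₀
  obtain ⟨C', -, h⟩ := tame_exp hμ one_pos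
  refine continuousAt_of_dominated (bound := (Iic (x₀ + 1)).piecewise (fun _ => β + C)
    (fun y => C * Real.exp (x₀ + 1 - y))) ?_ ?_ ?_ ?_
  · exact Eventually.of_forall fun x =>
      (hk.cont.comp (by fun_prop : Continuous fun y : ℝ => x - y)).aestronglyMeasurable
  · have hev : ∀ᶠ x in 𝓝 x₀, x < x₀ + 1 := eventually_lt_nhds (by linarith)
    filter_upwards [hev] with x hx
    refine Eventually.of_forall fun y => ?_
    rw [Real.norm_eq_abs]
    by_cases hy : y ∈ Iic (x₀ + 1)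
    · rw [piecewise_eq_of_mem _ _ _ hy]
      exact tar_abs hγ0 hC hβ hk _
    · rw [piecewise_eq_of_notMem _ _ _ hy]
      have hy' : x₀ + 1 < y := lt_of_not_ge hy
      refine (hk.left _ (by linarith)).trans ?_
      exact mul_le_mul_of_nonneg_left (Real.exp_le_exp.2 (by linarith)) (by linarith)
  · refine Integrable.piecewise measurableSet_Iic (integrableOn_const (hμ.fin _).ne) ?_
    rw [compl_Iic]
    exact (h (x₀ + 1)).1.const_mul C
  · refine Eventually.of_forall fun y => ?_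
    exact (hk.cont.comp (by fun_prop : Continuous fun x : ℝ => x - y)).continuousAt

theorem tame_bot (hγ0 : 0 < γ) (hγ1 : γ < 1) (hC : 1 ≤ C) (hβ : 0 ≤ β) (hk : KTar γ C β k)
    (hμ : Tame μ) : Tendsto (fun x => ∫ y, k (x - y) ∂μ) atBot (𝓝 0) := by
  obtain ⟨y₀, hy₀⟩ := hμ.y0
  obtain ⟨C', -, h⟩ := tame_exp hμ one_pos
  obtain ⟨x₁, hx₁⟩ : ∃ x₁, x₁ = y₀ - 1 := ⟨_, rfl⟩
  obtain ⟨K, hK⟩ : ∃ K, K = ∫ y in Ioi x₁, Real.exp (x₁ - y) ∂μ := ⟨_, rfl⟩
  have hae : ∀ᵐ y ∂μ, x₁ < y := by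
    refine measure_mono_null ?_ hy₀
    intro y hy
    have : y ≤ x₁ := not_lt.1 hy
    exact lt_of_le_of_lt this (by linarith)
  have hres : μ.restrict (Ioi x₁) = μ := Measure.restrict_eq_self_of_ae_mem hae
  have hint : Integrable (fun y => Real.exp (x₁ - y)) μ := by
    have := (h x₁).1
    rwa [IntegrableOn, hres] at this
  rw [hres] at hK
  have hb : ∀ x, x ≤ x₁ → ‖∫ y, k (x - y) ∂μ‖ ≤ C * K * Real.exp (-x₁) * Real.exp x := by
    intro x hx
    have h1 : ‖∫ y, k (x - y) ∂μ‖ ≤ ∫ y, C * Real.exp (x - x₁) * Real.exp (x₁ - y) ∂μ := by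
      refine norm_integral_le_of_norm_le (hint.const_mul _) ?_
      filter_upwards [hae] with y hy
      rw [Real.norm_eq_abs, mul_assoc, ← Real.exp_add]
      have e : x - x₁ + (x₁ - y) = x - y := by ring
      rw [e]
      exact hk.left _ (by linarith)
    rw [integral_const_mul, ← hK] at h1
    refine h1.trans (le_of_eq ?_)
    have e2 : x - x₁ = -x₁ + x := by ring
    rw [e2, Real.exp_add]
    ring
  have ht : Tendsto (fun x => C * K * Real.exp (-x₁) * Real.exp x) atBot (𝓝 0) := by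
    have := Real.tendsto_exp_atBot.const_mul (C * K * Real.exp (-x₁))
    rwa [mul_zero] at this
  refine squeeze_zero_norm' ?_ ht
  filter_upwards [eventually_le_atBot x₁] with x hx using hb x hx

theorem tame_top (hμ : Tame μ) (hinf : μ univ = ⊤) :
    Tendsto (fun x => (μ (Iic x)).toReal) atTop atTop := by
  have h1 := tendsto_measure_Iic_atTop μ
  rw [hinf, ENNReal.tendsto_nhds_top_iff_nnreal] at h1
  rw [tendsto_atTop]
  intro b
  filter_upwards [h1 b.toNNReal] with x hx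
  exact (ENNReal.ofReal_le_iff_le_toReal (hμ.fin x).ne).1 hx.le

end Pool.Agent.IND2I
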