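import Pool.Agent.IND2I.NecD

/-!
# IND2I, module Polya: a positive limit at `+∞` makes the potential unbounded (Pólya peaks)

PROOF.  `Δ x = (μ (Iic x)).toReal`, nondecreasing, right continuous or not, `→ ∞`, `Δ x ≤ C_ε e^{ε|x|}`.  `K` is bounded by some `B`.  Choose `T ≥ 1` with
`C e^{-γ T} ≤ b/8` and `2 C e^{-T} ≤ b/8`, then `ε ∈ (0, 1/2)` with `(B + b)(e^{3 T ε + ε} - 1) ≤ b/8` and so on.  Let `x₀ ≥ max X 0` with
`Δ x₀ ≥ 8 (|R| + 1)/b`.  As `Δ y e^{-ε y} → 0`, the supremum `σ` of it over `[x₀, ∞)` is finite and positive; choose `x ≥ x₀` with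
`Δ x e^{-ε x} ≥ e^{-ε} σ`.  So `Δ y ≤ e^{ε} e^{ε (y - x)} Δ x` for `y ≥ x`.  Evaluate at `z = x + T`:
`∫_{y ≤ x} K (z - y) dμ ≥ (b - C e^{-γ T}) Δ x`; `|∫_{x < y ≤ x + 2T} K (z - y) dμ| ≤ B (Δ (x + 2T) - Δ x) ≤ B (e^{ε + 2Tε} - 1) Δ x`;
`|∫_{y > x + 2T} K (z - y) dμ| ≤ C ∫_{y > x+2T} e^{z - y} dμ ≤ C e^{-T} ∑_{m ≥ 0} e^{-m} Δ (x + 2T + m + 1) ≤ C e^{-T} e^{ε + (2T+1)ε} Δ x ∑ e^{-(1-ε)m}`
`≤ C e^{-T} · 8 Δ x`, say.  Adjust `T` so that everything together is `≤ (b/2) Δ x`: `∫ K (z - y) dμ ≥ (b/2) Δ x ≥ R`.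
-/

set_option autoImplicit false

namespace Pool.Agent.IND2I

open MeasureTheory Set Filter Topology

theorem polya_tail {μ : Measure ℝ} {w D : ℝ} (hD : 0 ≤ D)
    (h : ∀ m : ℕ, μ (Iic (w + m + 1)) ≤ ENNReal.ofReal (D * Real.exp (1 / 2 * m))) :
    ∫ y in Ioi w, Real.exp (w - y) ∂μ ≤ D * 3 := by
  have hr0 : 0 ≤ Real.exp (-(1 / 2)) := (Real.exp_pos _).le
  have hr2 : Real.exp (-(1 / 2)) ≤ 2 / 3 := by
    have h1 : (1 : ℝ) / 2 + 1 ≤ Real.exp (1 / 2) := Real.add_one_le_exp _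
    rw [Real.exp_neg]
    refine (inv_anti₀ (by norm_num) h1).trans ?_
    norm_num
  have hr1 : Real.exp (-(1 / 2)) < 1 := by linarith
  have hsum : Summable fun m : ℕ => Real.exp (-(1 / 2)) ^ m := summable_geometric_of_lt_one hr0 hr1
  have hS : ∑' m : ℕ, Real.exp (-(1 / 2)) ^ m ≤ 3 := by
    rw [tsum_geometric_of_lt_one hr0 hr1]
    refine (inv_anti₀ (by norm_num : (0 : ℝ) < 1 / 3) (by linarith)).trans ?_
    norm_num
  have key : ∫⁻ y in Ioi w, ENNReal.ofReal (Real.exp (w - y)) ∂μ ≤ ENNReal.ofReal (D * 3) := by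
    have hsub : Ioi w ⊆ ⋃ m : ℕ, Ioc (w + m) (w + m + 1) := by
      intro y hy
      have hy' : 0 < y - w := sub_pos.2 hy
      have hc : 0 < ⌈y - w⌉₊ := Nat.ceil_pos.2 hy'
      refine mem_iUnion.2 ⟨⌈y - w⌉₊ - 1, ?_⟩
      have e1 : ((⌈y - w⌉₊ - 1 : ℕ) : ℝ) = (⌈y - w⌉₊ : ℝ) - 1 := by
        rw [Nat.cast_sub hc, Nat.cast_one]
      have e2 := Nat.le_ceil (y - w)
      have e3 := Nat.ceil_lt_add_one hy'.le
      constructor
      · rw [e1]
        linarith
      · rw [e1]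
        linarith
    calc ∫⁻ y in Ioi w, ENNReal.ofReal (Real.exp (w - y)) ∂μ
        ≤ ∫⁻ y in ⋃ m : ℕ, Ioc (w + m) (w + m + 1), ENNReal.ofReal (Real.exp (w - y)) ∂μ :=
          lintegral_mono_set hsub
      _ ≤ ∑' m : ℕ, ∫⁻ y in Ioc (w + m) (w + m + 1), ENNReal.ofReal (Real.exp (w - y)) ∂μ :=
          lintegral_iUnion_le _ _
      _ ≤ ∑' m : ℕ, ENNReal.ofReal (D * Real.exp (-(1 / 2)) ^ m) := by
          refine ENNReal.tsum_le_tsum fun m => ?_
          have hm : ∀ y ∈ Ioc (w + m) (w + m + 1), ENNReal.ofReal (Real.exp (w - y)) ≤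
              ENNReal.ofReal (Real.exp (-(m : ℝ))) := fun y hy =>
            ENNReal.ofReal_le_ofReal (Real.exp_le_exp.2 (by linarith [hy.1]))
          refine (setLIntegral_mono' measurableSet_Ioc hm).trans ?_
          rw [setLIntegral_const]
          have h3 : μ (Ioc (w + m) (w + m + 1)) ≤ ENNReal.ofReal (D * Real.exp (1 / 2 * m)) :=
            (measure_mono Ioc_subset_Iic_self).trans (h m)
          refine (mul_le_mul_right h3 _).trans ?_
          rw [← ENNReal.ofReal_mul (Real.exp_pos _).le]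
          refine ENNReal.ofReal_le_ofReal (le_of_eq ?_)
          rw [← Real.exp_nat_mul]
          have h7 : Real.exp (-(m : ℝ)) * (D * Real.exp (1 / 2 * m)) =
              D * Real.exp (-(m : ℝ) + 1 / 2 * m) := by
            rw [Real.exp_add]
            ring
          rw [h7]
          congr 2
          ring
      _ = ENNReal.ofReal (D * ∑' m : ℕ, Real.exp (-(1 / 2)) ^ m) := by
          rw [← ENNReal.ofReal_tsum_of_nonneg (fun m => by positivity) (hsum.mul_left _),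
            tsum_mul_left]
      _ ≤ ENNReal.ofReal (D * 3) := ENNReal.ofReal_le_ofReal (mul_le_mul_of_nonneg_left hS hD)
  have hmeas : AEStronglyMeasurable (fun y => Real.exp (w - y)) (μ.restrict (Ioi w)) :=
    (by fun_prop : Continuous fun y => Real.exp (w - y)).aestronglyMeasurable
  have hnn : 0 ≤ᵐ[μ.restrict (Ioi w)] fun y => Real.exp (w - y) :=
    Eventually.of_forall fun y => (Real.exp_pos _).le
  rw [integral_eq_lintegral_of_nonneg_ae hnn hmeas]
  exact ENNReal.toReal_le_of_le_ofReal (by positivity) key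

/-- Pólya peaks. -/
theorem polya_peak {μ : Measure ℝ} (hμ : Tame μ) (hinf : μ univ = ⊤) {ε : ℝ} (hε : 0 < ε)
    (M X : ℝ) : ∃ x, X ≤ x ∧ M ≤ (μ (Iic x)).toReal ∧ 0 < (μ (Iic x)).toReal ∧
      ∀ y, x ≤ y → (μ (Iic y)).toReal ≤ Real.exp (ε + ε * (y - x)) * (μ (Iic x)).toReal := by
  have htop := tame_top hμ hinf
  have hmono : ∀ x y, x ≤ y → (μ (Iic x)).toReal ≤ (μ (Iic y)).toReal := fun x y hxy =>
    ENNReal.toReal_mono (hμ.fin y).ne (measure_mono (Iic_subset_Iic.2 hxy))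
  obtain ⟨x₀, hx₀⟩ : ∃ x₀ : ℝ, X ≤ x₀ ∧ 0 ≤ x₀ ∧ max M 1 ≤ (μ (Iic x₀)).toReal := by
    have h1 := (htop.eventually_ge_atTop (max M 1)).and
      ((eventually_ge_atTop X).and (eventually_ge_atTop (0 : ℝ)))
    obtain ⟨x₀, h1, h2, h3⟩ := h1.exists
    exact ⟨x₀, h2, h3, h1⟩
  obtain ⟨hX, h0, hM⟩ := hx₀
  obtain ⟨C, hC0, hC⟩ := hμ.grow ε hε
  have hbd : ∀ y, 0 ≤ y → (μ (Iic y)).toReal * Real.exp (-(ε * y)) ≤ C := by
    intro y hy
    have h1 : (μ (Iic y)).toReal ≤ C * Real.exp (ε * |y|) :=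
      ENNReal.toReal_le_of_le_ofReal (by positivity) (hC y)
    rw [abs_of_nonneg hy] at h1
    have h2 := mul_le_mul_of_nonneg_right h1 (Real.exp_pos (-(ε * y))).le
    rwa [mul_assoc, ← Real.exp_add, add_neg_cancel, Real.exp_zero, mul_one] at h2
  have hbdd : BddAbove ((fun y => (μ (Iic y)).toReal * Real.exp (-(ε * y))) '' Ici x₀) := by
    refine ⟨C, ?_⟩
    rintro _ ⟨y, hy, rfl⟩
    exact hbd y (h0.trans hy)
  obtain ⟨σ, hσ⟩ : ∃ σ, σ = sSup ((fun y => (μ (Iic y)).toReal * Real.exp (-(ε * y))) '' Ici x₀) :=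
    ⟨_, rfl⟩
  have hle : ∀ y, x₀ ≤ y → (μ (Iic y)).toReal * Real.exp (-(ε * y)) ≤ σ := fun y hy => by
    rw [hσ]
    exact le_csSup hbdd ⟨y, hy, rfl⟩
  have hσ0 : 0 < σ := by
    refine lt_of_lt_of_le ?_ (hle x₀ le_rfl)
    have : 0 < (μ (Iic x₀)).toReal := by
      have := le_max_right M 1
      linarith
    positivity
  have hlt : Real.exp (-ε) * σ < σ := by
    have : Real.exp (-ε) < 1 := by
      rw [Real.exp_lt_one_iff]
      linarith
    nlinarith
  obtain ⟨_, ⟨x, hx, rfl⟩, hx2⟩ := exists_lt_of_lt_csSup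
    (⟨_, x₀, self_mem_Ici, rfl⟩ : ((fun y => (μ (Iic y)).toReal * Real.exp (-(ε * y))) '' Ici x₀).Nonempty)
    (by rw [← hσ]; exact hlt)
  have hx3 : Real.exp (-ε) * σ < (μ (Iic x)).toReal * Real.exp (-(ε * x)) := hx2
  have hx0 : x₀ ≤ x := hx
  have hMx : max M 1 ≤ (μ (Iic x)).toReal := hM.trans (hmono _ _ hx0)
  refine ⟨x, hX.trans hx0, (le_max_left _ _).trans hMx,
    lt_of_lt_of_le one_pos ((le_max_right _ _).trans hMx), fun y hy => ?_⟩
  have h1 := hle y (hx0.trans hy)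
  have h2 : σ ≤ Real.exp ε * ((μ (Iic x)).toReal * Real.exp (-(ε * x))) := by
    have h3 := mul_le_mul_of_nonneg_left hx3.le (Real.exp_pos ε).le
    rwa [← mul_assoc, ← Real.exp_add, add_neg_cancel, Real.exp_zero, one_mul] at h3
  have h4 := mul_le_mul_of_nonneg_right (h1.trans h2) (Real.exp_pos (ε * y)).le
  rw [mul_assoc, ← Real.exp_add, neg_add_cancel, Real.exp_zero, mul_one] at h4
  refine h4.trans (le_of_eq ?_)
  have e : ε + ε * (y - x) = ε + -(ε * x) + ε * y := by ring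
  rw [e, Real.exp_add, Real.exp_add]
  ring

theorem polya {γ C b : ℝ} {K : ℝ → ℝ} (hγ0 : 0 < γ) (hC : 1 ≤ C) (hb : 0 < b)
    (hm : Measurable K) (hr : ∀ s, 0 ≤ s → |K s - b| ≤ C * Real.exp (-(γ * s)))
    (hl : ∀ s, s ≤ 0 → |K s| ≤ C * Real.exp s) {μ : Measure ℝ} (hμ : Tame μ) (hinf : μ univ = ⊤)
    (R X : ℝ) : ∃ x, X ≤ x ∧ R ≤ ∫ y, K (x - y) ∂μ := by
  have hKb : ∀ s, |K s| ≤ b + C := by
    intro s
    rcases le_total 0 s with hs | hs
    · have h1 := hr s hs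
      have h2 : Real.exp (-(γ * s)) ≤ 1 := by
        rw [Real.exp_le_one_iff]
        nlinarith
      have h3 : |K s| ≤ |K s - b| + |b| := by
        have := abs_add_le (K s - b) b
        rwa [sub_add_cancel] at this
      rw [abs_of_pos hb] at h3
      nlinarith
    · have h1 := hl s hs
      have h2 : Real.exp s ≤ 1 := Real.exp_le_one_iff.2 hs
      nlinarith
  -- the constants
  obtain ⟨T, hT0, hT1, hT2⟩ : ∃ T : ℝ, 0 ≤ T ∧ C * Real.exp (-(γ * T)) ≤ b / 8 ∧
      C * Real.exp (-T) * 6 ≤ b / 8 := by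
    have t1 : Tendsto (fun T : ℝ => C * Real.exp (-(γ * T))) atTop (𝓝 0) := by
      have h1 : Tendsto (fun T : ℝ => Real.exp (-(γ * T))) atTop (𝓝 0) :=
        Real.tendsto_exp_neg_atTop_nhds_zero.comp (tendsto_id.const_mul_atTop hγ0)
      simpa using h1.const_mul C
    have t2 : Tendsto (fun T : ℝ => C * Real.exp (-T) * 6) atTop (𝓝 0) := by
      simpa using (Real.tendsto_exp_neg_atTop_nhds_zero.const_mul C).mul_const 6
    have hb8 : 0 < b / 8 := by positivity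
    obtain ⟨T, h1, h2, h3⟩ := ((eventually_ge_atTop (0 : ℝ)).and
      ((t1.eventually_le_const hb8).and (t2.eventually_le_const hb8))).exists
    exact ⟨T, h1, h2, h3⟩
  obtain ⟨ε, hε0, hε1, hε2, hε3⟩ : ∃ ε : ℝ, 0 < ε ∧ ε ≤ 1 / 2 ∧
      (b + C) * (Real.exp (ε + ε * (2 * T)) - 1) ≤ b / 8 ∧
      Real.exp (ε + ε * (2 * T + 1)) ≤ 2 := by
    have c1 : ContinuousAt (fun ε : ℝ => (b + C) * (Real.exp (ε + ε * (2 * T)) - 1)) 0 := by
      fun_prop
    have c2 : ContinuousAt (fun ε : ℝ => Real.exp (ε + ε * (2 * T + 1))) 0 := by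
      fun_prop
    have e1 : ∀ᶠ ε in 𝓝 (0 : ℝ), (b + C) * (Real.exp (ε + ε * (2 * T)) - 1) ≤ b / 8 := by
      have hb8 : 0 < b / 8 := by positivity
      refine c1.eventually_le_const ?_
      simpa using hb8
    have e2 : ∀ᶠ ε in 𝓝 (0 : ℝ), Real.exp (ε + ε * (2 * T + 1)) ≤ 2 := by
      refine c2.eventually_le_const ?_
      simp
    have e3 : ∀ᶠ ε in 𝓝 (0 : ℝ), ε ≤ 1 / 2 := eventually_le_nhds (by norm_num)
    have e4 : ∀ᶠ ε in 𝓝[>] (0 : ℝ), 0 < ε := eventually_mem_nhdsWithin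
    have e5 := (e1.and (e2.and e3)).filter_mono (nhdsWithin_le_nhds (s := Ioi (0 : ℝ)))
    obtain ⟨ε, h1, h2, h3, h4⟩ := (e4.and e5).exists
    exact ⟨ε, h1, h4, h2, h3⟩
  obtain ⟨x, hxX, hxM, hx0, hxp⟩ := polya_peak hμ hinf hε0 (8 * (|R| + 1) / b) X
  obtain ⟨D, hD⟩ : ∃ D, D = (μ (Iic x)).toReal := ⟨_, rfl⟩
  rw [← hD] at hxM hx0 hxp
  refine ⟨x + T, by linarith, ?_⟩
  -- integrability
  have hmeas : Measurable fun y => K (x + T - y) := hm.comp (by fun_prop)
  have hI1 : ∀ z, IntegrableOn (fun y => K (x + T - y)) (Iic z) μ := fun z =>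
    Measure.integrableOn_of_bounded (hμ.fin z).ne hmeas.aestronglyMeasurable
      (M := b + C) (Eventually.of_forall fun y => by
        rw [Real.norm_eq_abs]
        exact hKb _)
  obtain ⟨C', -, hexp⟩ := tame_exp hμ one_pos
  have hlt : ∀ y ∈ Ioi (x + 2 * T), |K (x + T - y)| ≤
      C * Real.exp (-T) * Real.exp (x + 2 * T - y) := by
    intro y hy
    have hy' : x + 2 * T < y := hy
    refine (hl _ (by linarith)).trans (le_of_eq ?_)
    rw [mul_assoc, ← Real.exp_add]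
    congr 2
    ring
  have hI2 : IntegrableOn (fun y => K (x + T - y)) (Ioi (x + 2 * T)) μ := by
    refine Integrable.mono' ((hexp (x + 2 * T)).1.const_mul (C * Real.exp (-T)))
      hmeas.aestronglyMeasurable ?_
    refine (ae_restrict_iff' measurableSet_Ioi).2 (Eventually.of_forall fun y hy => ?_)
    rw [Real.norm_eq_abs]
    exact hlt y hy
  have hI : Integrable (fun y => K (x + T - y)) μ := by
    have h := (hI1 (x + 2 * T)).union hI2
    rwa [Iic_union_Ioi, integrableOn_univ] at h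
  have hsplit : ∫ y, K (x + T - y) ∂μ = (∫ y in Iic x, K (x + T - y) ∂μ) +
      (∫ y in Ioc x (x + 2 * T), K (x + T - y) ∂μ) +
      ∫ y in Ioi (x + 2 * T), K (x + T - y) ∂μ := by
    rw [← integral_add_compl measurableSet_Iic hI (s := Iic (x + 2 * T)), compl_Iic]
    congr 1
    rw [← setIntegral_union (by
      rw [Set.disjoint_left]
      intro y h1 h2
      exact absurd h2.1 (not_lt.2 h1)) measurableSet_Ioc (hI1 x)
      ((hI1 (x + 2 * T)).mono_set Ioc_subset_Iic_self)]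
    rw [Iic_union_Ioc_eq_Iic (by linarith)]
  have hpart1 : 7 * b / 8 * D ≤ ∫ y in Iic x, K (x + T - y) ∂μ := by
    have h1 : ∫ y in Iic x, (7 * b / 8) ∂μ ≤ ∫ y in Iic x, K (x + T - y) ∂μ := by
      refine setIntegral_mono_on (integrableOn_const (hμ.fin x).ne) (hI1 x) measurableSet_Iic
        fun y hy => ?_
      have hy' : y ≤ x := hy
      have h2 := hr (x + T - y) (by linarith)
      have h3 : Real.exp (-(γ * (x + T - y))) ≤ Real.exp (-(γ * T)) :=
        Real.exp_le_exp.2 (by nlinarith)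
      have h4 := (abs_le.1 h2).1
      have h5 : C * Real.exp (-(γ * (x + T - y))) ≤ C * Real.exp (-(γ * T)) :=
        mul_le_mul_of_nonneg_left h3 (by linarith)
      linarith
    rw [setIntegral_const, smul_eq_mul] at h1
    have h2 : μ.real (Iic x) = D := hD.symm
    rw [h2] at h1
    linarith
  have hpart2 : -(b / 8 * D) ≤ ∫ y in Ioc x (x + 2 * T), K (x + T - y) ∂μ := by
    have h1 : ‖∫ y in Ioc x (x + 2 * T), K (x + T - y) ∂μ‖ ≤
        (b + C) * μ.real (Ioc x (x + 2 * T)) := by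
      refine norm_setIntegral_le_of_norm_le_const
        (lt_of_le_of_lt (measure_mono Ioc_subset_Iic_self) (hμ.fin (x + 2 * T))) fun y _ => ?_
      rw [Real.norm_eq_abs]
      exact hKb _
    have h2 : μ.real (Ioc x (x + 2 * T)) = (μ (Iic (x + 2 * T))).toReal - D := by
      have h3 : Iic (x + 2 * T) = Iic x ∪ Ioc x (x + 2 * T) :=
        (Iic_union_Ioc_eq_Iic (by linarith)).symm
      have h4 : μ.real (Iic (x + 2 * T)) = μ.real (Iic x) + μ.real (Ioc x (x + 2 * T)) := by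
        conv_lhs => rw [h3]
        refine measureReal_union (by
          rw [Set.disjoint_left]
          intro y h1 h2
          exact absurd h2.1 (not_lt.2 h1)) measurableSet_Ioc (hμ.fin x).ne
          (lt_of_le_of_lt (measure_mono Ioc_subset_Iic_self) (hμ.fin (x + 2 * T))).ne
      rw [hD]
      show _ = μ.real (Iic (x + 2 * T)) - μ.real (Iic x)
      linarith
    have h3 := hxp (x + 2 * T) (by linarith)
    have e : x + 2 * T - x = 2 * T := by ring
    rw [e] at h3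
    have h4 : (b + C) * μ.real (Ioc x (x + 2 * T)) ≤ b / 8 * D := by
      calc (b + C) * μ.real (Ioc x (x + 2 * T))
          ≤ (b + C) * ((Real.exp (ε + ε * (2 * T)) - 1) * D) := by
            refine mul_le_mul_of_nonneg_left ?_ (by linarith)
            rw [h2]
            linarith
        _ = (b + C) * (Real.exp (ε + ε * (2 * T)) - 1) * D := by ring
        _ ≤ b / 8 * D := mul_le_mul_of_nonneg_right hε2 hx0.le
    rw [Real.norm_eq_abs] at h1
    exact (neg_le_neg (h1.trans h4)).trans (neg_abs_le _)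
  have hpart3 : -(b / 8 * D) ≤ ∫ y in Ioi (x + 2 * T), K (x + T - y) ∂μ := by
    have h1 : ‖∫ y in Ioi (x + 2 * T), K (x + T - y) ∂μ‖ ≤
        ∫ y in Ioi (x + 2 * T), C * Real.exp (-T) * Real.exp (x + 2 * T - y) ∂μ := by
      refine norm_integral_le_of_norm_le ((hexp (x + 2 * T)).1.const_mul _) ?_
      refine (ae_restrict_iff' measurableSet_Ioi).2 (Eventually.of_forall fun y hy => ?_)
      rw [Real.norm_eq_abs]
      exact hlt y hy
    rw [integral_const_mul] at h1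
    have h2 : ∫ y in Ioi (x + 2 * T), Real.exp (x + 2 * T - y) ∂μ ≤ 2 * D * 3 := by
      refine polya_tail (by linarith) fun m => ?_
      have hm0 : (0 : ℝ) ≤ m := Nat.cast_nonneg m
      have h3 := hxp (x + 2 * T + m + 1) (by linarith)
      have h4 : Real.exp (ε + ε * (x + 2 * T + m + 1 - x)) ≤ 2 * Real.exp (1 / 2 * m) := by
        have e : ε + ε * (x + 2 * T + m + 1 - x) = (ε + ε * (2 * T + 1)) + ε * m := by ring
        rw [e, Real.exp_add]
        refine mul_le_mul hε3 (Real.exp_le_exp.2 (mul_le_mul_of_nonneg_right hε1 hm0))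
          (Real.exp_pos _).le (by norm_num)
      have h5 : (μ (Iic (x + 2 * T + m + 1))).toReal ≤ 2 * D * Real.exp (1 / 2 * m) := by
        refine h3.trans ((mul_le_mul_of_nonneg_right h4 hx0.le).trans (le_of_eq ?_))
        ring
      exact (ENNReal.le_ofReal_iff_toReal_le (hμ.fin _).ne (by positivity)).2 h5
    have h3 : C * Real.exp (-T) * (∫ y in Ioi (x + 2 * T), Real.exp (x + 2 * T - y) ∂μ) ≤
        b / 8 * D := by
      calc C * Real.exp (-T) * (∫ y in Ioi (x + 2 * T), Real.exp (x + 2 * T - y) ∂μ)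
          ≤ C * Real.exp (-T) * (2 * D * 3) :=
            mul_le_mul_of_nonneg_left h2 (by positivity)
        _ = C * Real.exp (-T) * 6 * D := by ring
        _ ≤ b / 8 * D := mul_le_mul_of_nonneg_right hT2 hx0.le
    rw [Real.norm_eq_abs] at h1
    exact (neg_le_neg (h1.trans h3)).trans (neg_abs_le _)
  have hfin : |R| + 1 ≤ b / 8 * D := by
    have h1 := mul_le_mul_of_nonneg_left hxM (by positivity : 0 ≤ b / 8)
    have h2 : b / 8 * (8 * (|R| + 1) / b) = |R| + 1 := by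
      field_simp
    rwa [h2] at h1
  have hR := le_abs_self R
  have habs := abs_nonneg R
  rw [hsplit]
  nlinarith

end Pool.Agent.IND2I
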