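import Pool.Agent.IND2I.Fdat
import Pool.Agent.IND2I.Polya

/-!
# IND2I, module NecPi: the indicator is `+∞` where `b > 0`

PROOF of `top_lt` (`θ < π`).  `KTar` for `kk p θ` with `bt p θ = -bb p θ/p < 0`... use `kk_right`, `kk_left` of `KI`: `polya` with `b = bb p θ/p > 0`, `K = kk p θ`
(continuous): the potential is `≥ R` at arbitrarily large `x`; `fdat_ind`.
PROOF of `top_pi`.  `bb p π = 1`.  Let `K s = ∫ u in 0..1, kk p π (s + u)`.  `kk p π` is measurable, `|kk p π s| ≤ C (ph p s (1 + |s|^{-1/2}))` for `s ≠ 0`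
(`abs_kk_le` of `Helper25.Ind2.KBound`), so it is locally integrable and `|K s|, ∫_0^1 |kk p π (s + u)| du ≤ C e^{s}` for `s ≤ 0` and bounded for `s ≥ 0`;
for `s ≥ 1` `|kk p π s - 1/p| ≤ C e^{-s/2}` (as in `kk_right`: `log |1 - e^s| = s + O(1)` for `s ≥ 1`).  So `K` satisfies the hypotheses of `polya` with
`b = 1/p`, `γ = 1/2`.  By Fubini (absolute convergence by the same bounds and `tame_exp`, `Tame.grow`) `∫ K (x - y) dmuf(y) = ∫ u in 0..1, U (x + u)` with
`U x = ∫ kk p π (x - y) dmuf`.  If it is `≥ R` then `U ≥ R` on a subset of positive measure of `[x, x+1]`, which contains a point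
`x'` with `f (-e^{x'}) ≠ 0` (countably many zeros).  By `fdat_eq` `e^{-p x'} log ‖f (e^{x'} e^{iπ})‖ ≥ R - |(Q.coeff p).re| - C`.
`R → ∞`, `x → ∞`: `ratio p f π` is frequently larger than every real number.
-/

set_option autoImplicit false

namespace Pool.Agent.IND2I

open MeasureTheory Set Filter Topology Helper25.Ind

variable {p : ℕ} {f : ℂ → ℂ} {I : Type} {a : I → ℝ} {Q : Polynomial ℂ}

private lemma np_w (θ s : ℝ) : ‖(Real.exp s : ℂ) * Complex.exp (θ * Complex.I)‖ = Real.exp s := by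
  rw [norm_mul, Complex.norm_exp_ofReal_mul_I, mul_one, Complex.norm_real,
    Real.norm_of_nonneg (Real.exp_pos s).le]

private lemma np_pow (p : ℕ) (θ s : ℝ) :
    ((-((Real.exp s : ℂ) * Complex.exp (θ * Complex.I))) ^ p).re =
      (-1) ^ p * Real.cos (p * θ) * Real.exp (p * s) := by
  have h1 : (-((Real.exp s : ℂ) * Complex.exp (θ * Complex.I))) ^ p =
      (((-1) ^ p * Real.exp (p * s) : ℝ) : ℂ) * Complex.exp (((p * θ : ℝ) : ℂ) * Complex.I) := by
    rw [neg_pow, mul_pow, ← Complex.exp_nat_mul, Real.exp_nat_mul]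
    push_cast
    have h : (p : ℂ) * θ * Complex.I = p * (θ * Complex.I) := by ring
    rw [h]
    ring
  rw [h1, Complex.re_ofReal_mul, Complex.exp_ofReal_mul_I_re]
  ring

private lemma np_aux (s : ℝ) : (1 + s) * Real.exp (-s) ≤ 2 * Real.exp (-(1 / 2 * s)) := by
  have h1 : 1 + s ≤ 2 * Real.exp (1 / 2 * s) := by
    have := Real.add_one_le_exp (1 / 2 * s)
    linarith
  have h2 := mul_le_mul_of_nonneg_right h1 (Real.exp_pos (-s)).le
  refine h2.trans (le_of_eq ?_)
  rw [mul_assoc, ← Real.exp_add]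
  congr 2
  ring

private lemma np_bb (p : ℕ) : bb p Real.pi = 1 := by
  unfold bb
  rw [Nat.floor_natCast, Real.cos_nat_mul_pi, ← mul_pow]
  norm_num

private lemma np_bt (p : ℕ) : bt p Real.pi = -(1 / p) := by
  unfold bt
  rw [np_bb]
  ring

private lemma np_right0 {p : ℕ} (hp : 1 ≤ p) :
    ∃ C : ℝ, 1 ≤ C ∧ ∀ s, 1 ≤ s → |kk p Real.pi s + bt p Real.pi| ≤
      C * Real.exp (-(1 / 2 * s)) := by
  obtain ⟨c, hcd⟩ : ∃ c : ℝ, c = 1 / 4 := ⟨_, rfl⟩
  have hc : 0 < c := by rw [hcd]; norm_num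
  have hc1 : c ≤ 1 := by rw [hcd]; norm_num
  obtain ⟨q, rfl⟩ : ∃ q, p = q + 1 := ⟨p - 1, by omega⟩
  refine ⟨2 + |Real.log c| + q, by
    have := abs_nonneg (Real.log c)
    have : (0 : ℝ) ≤ q := Nat.cast_nonneg q
    linarith, fun s hs1 => ?_⟩
  have hs : 0 ≤ s := by linarith
  obtain ⟨w, hw⟩ : ∃ w : ℂ, w = (Real.exp s : ℂ) * Complex.exp (Real.pi * Complex.I) := ⟨_, rfl⟩
  have hn : ‖w‖ = Real.exp s := by
    rw [hw, np_w]
  have hes : 1 ≤ Real.exp s := Real.one_le_exp hs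
  have hlow : (1 + Real.exp s) * c ≤ ‖1 + w‖ := by
    have h2 : 1 + w = ((1 - Real.exp s : ℝ) : ℂ) := by
      rw [hw, Complex.exp_pi_mul_I]
      push_cast
      ring
    rw [h2, Complex.norm_real, Real.norm_eq_abs, abs_sub_comm, hcd]
    refine le_trans ?_ (le_abs_self _)
    have h3 := Real.add_one_le_exp s
    linarith
  have hpos : 0 < ‖1 + w‖ := lt_of_lt_of_le (by positivity) hlow
  have hker : kk ((q + 1 : ℕ) : ℝ) Real.pi s + bt (q + 1) Real.pi =
      Real.exp (-(((q + 1 : ℕ) : ℝ) * s)) * (Real.log ‖1 + w‖ +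
        (∑ j ∈ Finset.range q, (-w) ^ (j + 1) / ((j : ℂ) + 1)).re) := by
    unfold kk bt bb
    rw [Nat.floor_natCast, ← hw]
    have hk : Helper25.Ind.ker (q + 1) w 1 = Real.log ‖1 + w‖ +
        (∑ j ∈ Finset.range (q + 1), (-w) ^ (j + 1) / ((j : ℂ) + 1)).re := by
      unfold Helper25.Ind.ker primary
      rw [Complex.ofReal_one, div_one, sub_neg_eq_add, norm_mul, Complex.norm_exp,
        Real.log_mul hpos.ne' (Real.exp_pos _).ne', Real.log_exp]
    rw [hk, Finset.sum_range_succ, Complex.add_re]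
    have h2 : ((-w) ^ (q + 1) / ((q : ℂ) + 1)).re =
        (-1) ^ (q + 1) * Real.cos (((q + 1 : ℕ) : ℝ) * Real.pi) * Real.exp (((q + 1 : ℕ) : ℝ) * s) /
          ((q + 1 : ℕ) : ℝ) := by
      have h3 : ((q : ℂ) + 1) = ((((q + 1 : ℕ) : ℝ)) : ℂ) := by
        push_cast
        ring
      rw [h3, Complex.div_ofReal_re, hw, np_pow]
    rw [h2]
    have h4 : Real.exp (-(((q + 1 : ℕ) : ℝ) * s)) * Real.exp (((q + 1 : ℕ) : ℝ) * s) = 1 := by
      rw [← Real.exp_add, neg_add_cancel, Real.exp_zero]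
    have h5 : Real.exp (-(((q + 1 : ℕ) : ℝ) * s)) * ((-1) ^ (q + 1) *
        Real.cos (((q + 1 : ℕ) : ℝ) * Real.pi) * Real.exp (((q + 1 : ℕ) : ℝ) * s) /
          ((q + 1 : ℕ) : ℝ)) = (-1) ^ (q + 1) * Real.cos (((q + 1 : ℕ) : ℝ) * Real.pi) /
          ((q + 1 : ℕ) : ℝ) := by
      calc _ = (Real.exp (-(((q + 1 : ℕ) : ℝ) * s)) * Real.exp (((q + 1 : ℕ) : ℝ) * s)) *
          ((-1) ^ (q + 1) * Real.cos (((q + 1 : ℕ) : ℝ) * Real.pi) / ((q + 1 : ℕ) : ℝ)) := by ring
        _ = _ := by rw [h4, one_mul]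
    rw [mul_add, mul_add, h5]
    ring
  rw [hker, abs_mul, abs_of_pos (Real.exp_pos _)]
  have hup : ‖1 + w‖ ≤ 2 * Real.exp s := by
    have := norm_add_le 1 w
    rw [norm_one, hn] at this
    linarith
  have hlogu : Real.log ‖1 + w‖ ≤ 1 + s := by
    have h2 := Real.log_le_log hpos hup
    rw [Real.log_mul (by norm_num) (Real.exp_pos s).ne', Real.log_exp] at h2
    have h3 : Real.log 2 ≤ 1 := by
      have := Real.log_two_lt_d9
      linarith
    linarith
  have hlogl : Real.log c ≤ Real.log ‖1 + w‖ := by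
    refine Real.log_le_log hc (le_trans ?_ hlow)
    nlinarith
  have hlog : |Real.log ‖1 + w‖| ≤ 1 + s + |Real.log c| := by
    rw [abs_le]
    constructor
    · have := neg_abs_le (Real.log c)
      linarith
    · have := abs_nonneg (Real.log c)
      linarith
  have hsum : |(∑ j ∈ Finset.range q, (-w) ^ (j + 1) / ((j : ℂ) + 1)).re| ≤
      q * Real.exp (q * s) := by
    refine (Complex.abs_re_le_norm _).trans ((norm_sum_le _ _).trans ?_)
    have h2 : ∀ j ∈ Finset.range q, ‖(-w) ^ (j + 1) / ((j : ℂ) + 1)‖ ≤ Real.exp (q * s) := by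
      intro j hj
      rw [norm_div, norm_pow, norm_neg, hn]
      have h3 : ‖((j : ℂ) + 1)‖ = (j : ℝ) + 1 := by
        have h4 : ((j : ℂ) + 1) = (((j : ℝ) + 1 : ℝ) : ℂ) := by
          push_cast
          ring
        rw [h4, Complex.norm_real, Real.norm_of_nonneg (by positivity)]
      rw [h3]
      have h5 : Real.exp s ^ (j + 1) ≤ Real.exp (q * s) := by
        rw [← Real.exp_nat_mul]
        refine Real.exp_le_exp.2 (mul_le_mul_of_nonneg_right ?_ hs)
        exact_mod_cast Finset.mem_range.1 hj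
      refine (div_le_self (by positivity) ?_).trans h5
      have : (0 : ℝ) ≤ j := Nat.cast_nonneg j
      linarith
    refine (Finset.sum_le_sum h2).trans (le_of_eq ?_)
    rw [Finset.sum_const, Finset.card_range, nsmul_eq_mul]
  have hq0 : (0 : ℝ) ≤ q := Nat.cast_nonneg q
  have htot := (abs_add_le (Real.log ‖1 + w‖)
    (∑ j ∈ Finset.range q, (-w) ^ (j + 1) / ((j : ℂ) + 1)).re).trans (add_le_add hlog hsum)
  have h6 : Real.exp (-(((q + 1 : ℕ) : ℝ) * s)) = Real.exp (-s) * Real.exp (-(q * s)) := by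
    rw [← Real.exp_add]
    congr 1
    push_cast
    ring
  have h7 : Real.exp (-(q * s)) ≤ 1 := by
    rw [Real.exp_le_one_iff]
    have := mul_nonneg hq0 hs
    linarith
  have h8 : Real.exp (-(q * s)) * Real.exp (q * s) = 1 := by
    rw [← Real.exp_add, neg_add_cancel, Real.exp_zero]
  have h9 : Real.exp (-s) ≤ Real.exp (-(1 / 2 * s)) := Real.exp_le_exp.2 (by linarith)
  have hlc := abs_nonneg (Real.log c)
  calc Real.exp (-(((q + 1 : ℕ) : ℝ) * s)) * |Real.log ‖1 + w‖ +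
        (∑ j ∈ Finset.range q, (-w) ^ (j + 1) / ((j : ℂ) + 1)).re|
      ≤ Real.exp (-(((q + 1 : ℕ) : ℝ) * s)) * (1 + s + |Real.log c| + q * Real.exp (q * s)) :=
        mul_le_mul_of_nonneg_left htot (Real.exp_pos _).le
    _ = Real.exp (-s) * (Real.exp (-(q * s)) * (1 + s + |Real.log c|) +
          q * (Real.exp (-(q * s)) * Real.exp (q * s))) := by
        rw [h6]
        ring
    _ ≤ Real.exp (-s) * (1 * (1 + s + |Real.log c|) + q) := by
        rw [h8, mul_one]
        refine mul_le_mul_of_nonneg_left ?_ (Real.exp_pos _).le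
        have := mul_le_mul_of_nonneg_right h7 (show 0 ≤ 1 + s + |Real.log c| by linarith)
        linarith
    _ = (1 + s) * Real.exp (-s) + (|Real.log c| + q) * Real.exp (-s) := by ring
    _ ≤ 2 * Real.exp (-(1 / 2 * s)) + (|Real.log c| + q) * Real.exp (-(1 / 2 * s)) :=
        add_le_add (np_aux s) (mul_le_mul_of_nonneg_left h9 (by linarith))
    _ = (2 + |Real.log c| + q) * Real.exp (-(1 / 2 * s)) := by ring

private lemma np_right {p : ℕ} (hp : 1 ≤ p) :
    ∃ C : ℝ, 1 ≤ C ∧ ∀ s, 1 ≤ s → |kk p Real.pi s - 1 / p| ≤ C * Real.exp (-(1 / 2 * s)) := by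
  obtain ⟨C, hC, h⟩ := np_right0 hp
  refine ⟨C, hC, fun s hs => ?_⟩
  have h1 := h s hs
  rwa [np_bt, ← sub_eq_add_neg] at h1

private lemma np_top {g : ℝ → EReal} (h : ∀ M X : ℝ, ∃ r, X ≤ r ∧ (M : EReal) ≤ g r) :
    limsup g atTop = ⊤ := by
  rw [EReal.eq_top_iff_forall_lt]
  intro M
  have h1 : ∃ᶠ r in atTop, ((M + 1 : ℝ) : EReal) ≤ g r := by
    rw [frequently_atTop]
    intro X
    obtain ⟨r, hr, hr2⟩ := h (M + 1) X
    exact ⟨r, hr, hr2⟩
  have h2 : ((M + 1 : ℝ) : EReal) ≤ limsup g atTop := le_limsup_of_frequently_le h1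
  exact lt_of_lt_of_le (EReal.coe_lt_coe_iff.2 (lt_add_one M)) h2

private lemma np_abs_int : IntervalIntegrable (fun v : ℝ => |v| ^ (-(1 / 2) : ℝ)) volume (-1) 1 := by
  have h1 : IntervalIntegrable (fun v : ℝ => |v| ^ (-(1 / 2) : ℝ)) volume 0 1 := by
    have h2 : IntervalIntegrable (fun v : ℝ => v ^ (-(1 / 2) : ℝ)) volume 0 1 :=
      intervalIntegral.intervalIntegrable_rpow' (by norm_num)
    refine h2.congr fun v hv => ?_
    rw [uIoc_of_le zero_le_one] at hv
    beta_reduce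
    rw [abs_of_pos hv.1]
  have h3 : IntervalIntegrable (fun v : ℝ => |v| ^ (-(1 / 2) : ℝ)) volume (-1) 0 := by
    have h4 := (IntervalIntegrable.iff_comp_neg).1 h1
    simp only [abs_neg, neg_zero] at h4
    exact h4.symm
  exact h3.trans h1

private lemma np_J : ∃ M : ℝ, 0 ≤ M ∧ ∀ s : ℝ,
    IntegrableOn (fun u => 1 + |s + u| ^ (-(1 / 2) : ℝ)) (Ioc 0 1) ∧
    ∫ u in Ioc (0 : ℝ) 1, (1 + |s + u| ^ (-(1 / 2) : ℝ)) ≤ M := by
  obtain ⟨w, hw⟩ : ∃ w : ℝ → ℝ, w = (Ioc (-1 : ℝ) 1).indicator (fun v => |v| ^ (-(1 / 2) : ℝ)) :=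
    ⟨_, rfl⟩
  have hwi : Integrable w := by
    rw [hw, integrable_indicator_iff measurableSet_Ioc]
    exact np_abs_int.1
  have hw0 : ∀ v, 0 ≤ w v := fun v => by
    rw [hw]
    exact indicator_nonneg (fun v _ => Real.rpow_nonneg (abs_nonneg v) _) v
  have hle : ∀ v : ℝ, |v| ^ (-(1 / 2) : ℝ) ≤ 1 + w v := by
    intro v
    by_cases hv : v ∈ Ioc (-1 : ℝ) 1
    · rw [hw, indicator_of_mem hv]
      linarith
    · have h1 : 1 ≤ |v| := by
        by_contra hcon
        push Not at hcon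
        rw [abs_lt] at hcon
        exact hv ⟨hcon.1, hcon.2.le⟩
      have h2 : |v| ^ (-(1 / 2) : ℝ) ≤ 1 := Real.rpow_le_one_of_one_le_of_nonpos h1 (by norm_num)
      have h3 := hw0 v
      linarith
  have hm : Measurable (fun v : ℝ => |v| ^ (-(1 / 2) : ℝ)) := by fun_prop
  refine ⟨2 + ∫ v, w v, add_nonneg (by norm_num) (integral_nonneg hw0), fun s => ?_⟩
  have hws : Integrable (fun u => w (s + u)) := hwi.comp_add_left s
  have hc2 : Integrable (fun _ : ℝ => (2 : ℝ)) (volume.restrict (Ioc (0 : ℝ) 1)) :=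
    integrableOn_const (by simp)
  have hdom : IntegrableOn (fun u => 2 + w (s + u)) (Ioc 0 1) :=
    (integrableOn_const (by simp)).add hws.integrableOn
  have hint : IntegrableOn (fun u => 1 + |s + u| ^ (-(1 / 2) : ℝ)) (Ioc 0 1) := by
    refine Integrable.mono' hdom ?_ ?_
    · exact (measurable_const.add (hm.comp (measurable_const_add s))).aestronglyMeasurable
    · refine Eventually.of_forall fun u => ?_
      have h1 := hle (s + u)
      have h2 : 0 ≤ |s + u| ^ (-(1 / 2) : ℝ) := Real.rpow_nonneg (abs_nonneg _) _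
      rw [Real.norm_of_nonneg (by linarith)]
      linarith
  refine ⟨hint, ?_⟩
  calc ∫ u in Ioc (0 : ℝ) 1, (1 + |s + u| ^ (-(1 / 2) : ℝ)) ≤
        ∫ u in Ioc (0 : ℝ) 1, (2 + w (s + u)) := by
        refine setIntegral_mono hint hdom fun u => ?_
        have h1 := hle (s + u)
        show 1 + |s + u| ^ (-(1 / 2) : ℝ) ≤ 2 + w (s + u)
        linarith
    _ = 2 + ∫ u in Ioc (0 : ℝ) 1, w (s + u) := by
        rw [integral_add hc2 hws.integrableOn, setIntegral_const]
        simp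
    _ ≤ 2 + ∫ u, w (s + u) := by
        have := setIntegral_le_integral (s := Ioc (0 : ℝ) 1) hws
          (Eventually.of_forall fun u => hw0 _)
        linarith
    _ = 2 + ∫ v, w v := by rw [integral_add_left_eq_self w s]

private lemma np_bound {p : ℕ} (hp : 1 ≤ p) : ∃ C : ℝ, 1 ≤ C ∧ ∀ s : ℝ,
    IntegrableOn (fun u => kk p Real.pi (s + u)) (Ioc 0 1) ∧
    ∫ u in Ioc (0 : ℝ) 1, |kk p Real.pi (s + u)| ≤ C * Real.exp (min s 0) := by
  obtain ⟨M, hM, hJ⟩ := np_J
  obtain ⟨C₁, hC₁, h1⟩ := abs_kk_le (p : ℝ)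
  obtain ⟨C₂, hC₂, h2⟩ := ph_le_pos' (p : ℝ) (by rw [Nat.floor_natCast]; exact hp)
  have hkm : km (p : ℝ) = 0 := by
    unfold km
    rw [Nat.floor_natCast, sub_self]
  have hkp : kp (p : ℝ) = 1 := by
    unfold kp
    rw [Nat.floor_natCast]
    ring
  have hp0 : (0 : ℝ) ≤ p := Nat.cast_nonneg p
  have hph : ∀ s : ℝ, ∀ u ∈ Ioc (0 : ℝ) 1, ph p (s + u) ≤
      (C₂ + Real.exp 1) * Real.exp (min s 0) := by
    intro s u hu
    rcases le_total 0 s with hs | hs
    · rw [min_eq_right hs, Real.exp_zero, mul_one]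
      have h3 := h2 (s + u) (by linarith [hu.1])
      rw [hkm, zero_mul, neg_zero, Real.exp_zero, mul_one] at h3
      have := Real.exp_pos 1
      linarith
    · rw [min_eq_left hs]
      have h3 := ph_le_exp (p : ℝ) (s + u)
      rw [hkp, one_mul, Nat.floor_natCast] at h3
      have h4 : Real.exp (s + u) / ((p : ℝ) + 1) ≤ Real.exp (s + u) :=
        div_le_self (Real.exp_pos _).le (by linarith)
      have h5 : Real.exp (s + u) ≤ Real.exp 1 * Real.exp s := by
        rw [← Real.exp_add]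
        exact Real.exp_le_exp.2 (by linarith [hu.2])
      have h6 := mul_pos hC₂ (Real.exp_pos s)
      nlinarith
  have hbd : ∀ s : ℝ, ∀ u ∈ Ioc (0 : ℝ) 1, s + u ≠ 0 → |kk p Real.pi (s + u)| ≤
      C₁ * ((C₂ + Real.exp 1) * Real.exp (min s 0)) * (1 + |s + u| ^ (-(1 / 2) : ℝ)) := by
    intro s u hu hne
    have h3 := h1 Real.pi ⟨Real.pi_pos.le, le_rfl⟩ (s + u) hne
    refine h3.trans ?_
    rw [mul_assoc C₁]
    refine mul_le_mul_of_nonneg_left ?_ hC₁.le
    refine mul_le_mul_of_nonneg_right (hph s u hu) ?_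
    have := Real.rpow_nonneg (abs_nonneg (s + u)) (-(1 / 2) : ℝ)
    linarith
  have hae : ∀ s : ℝ, ∀ᵐ u ∂(volume.restrict (Ioc (0 : ℝ) 1)), ‖kk p Real.pi (s + u)‖ ≤
      C₁ * ((C₂ + Real.exp 1) * Real.exp (min s 0)) * (1 + |s + u| ^ (-(1 / 2) : ℝ)) := by
    intro s
    rw [ae_restrict_iff' measurableSet_Ioc]
    have h3 : ∀ᵐ u : ℝ, u ≠ -s := by
      have := (countable_singleton (-s)).ae_notMem (volume : Measure ℝ)
      filter_upwards [this] with u hu
      simpa using hu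
    filter_upwards [h3] with u hu hmem
    rw [Real.norm_eq_abs]
    exact hbd s u hmem fun h => hu (by linarith)
  have hint : ∀ s : ℝ, IntegrableOn (fun u => kk p Real.pi (s + u)) (Ioc 0 1) := by
    intro s
    refine Integrable.mono' ((hJ s).1.const_mul
      (C₁ * ((C₂ + Real.exp 1) * Real.exp (min s 0)))) ?_ (hae s)
    exact ((measurable_kk _ _).comp (measurable_const_add s)).aestronglyMeasurable
  refine ⟨C₁ * (C₂ + Real.exp 1) * M + 1, by
    have : 0 ≤ C₁ * (C₂ + Real.exp 1) * M := by positivity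
    linarith, fun s => ⟨hint s, ?_⟩⟩
  calc ∫ u in Ioc (0 : ℝ) 1, |kk p Real.pi (s + u)| ≤
        ∫ u in Ioc (0 : ℝ) 1, C₁ * ((C₂ + Real.exp 1) * Real.exp (min s 0)) *
          (1 + |s + u| ^ (-(1 / 2) : ℝ)) :=
        integral_mono_ae (hint s).abs ((hJ s).1.const_mul _) (hae s)
    _ = C₁ * ((C₂ + Real.exp 1) * Real.exp (min s 0)) *
          ∫ u in Ioc (0 : ℝ) 1, (1 + |s + u| ^ (-(1 / 2) : ℝ)) := integral_const_mul _ _
    _ ≤ C₁ * ((C₂ + Real.exp 1) * Real.exp (min s 0)) * M :=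
        mul_le_mul_of_nonneg_left (hJ s).2 (by positivity)
    _ ≤ (C₁ * (C₂ + Real.exp 1) * M + 1) * Real.exp (min s 0) := by
        have := Real.exp_pos (min s 0)
        nlinarith

private lemma np_lf {μ : Measure ℝ} (hμ : Tame μ) : IsLocallyFiniteMeasure μ := by
  obtain ⟨C, -, h⟩ := hμ.grow 1 one_pos
  exact ⟨fun x => ⟨Iic (x + 1), Iic_mem_nhds (by linarith), (h _).trans_lt ENNReal.ofReal_lt_top⟩⟩

private lemma np_env {μ : Measure ℝ} (hμ : Tame μ) (x : ℝ) :
    Integrable (fun y => Real.exp (min (x - y) 0)) μ := by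
  obtain ⟨C, -, h⟩ := hμ.grow 1 one_pos
  obtain ⟨C', -, h'⟩ := tame_exp hμ one_pos
  rw [← integrableOn_univ, ← Iic_union_Ioi (a := x)]
  refine IntegrableOn.union ?_ ?_
  · have hfin : μ (Iic x) ≠ ⊤ := ((h _).trans_lt ENNReal.ofReal_lt_top).ne
    refine (integrableOn_const (C := (1 : ℝ)) hfin).congr_fun (fun y hy => ?_) measurableSet_Iic
    beta_reduce
    rw [min_eq_right (by have : y ≤ x := hy; linarith), Real.exp_zero]
  · refine (h' x).1.congr_fun (fun y hy => ?_) measurableSet_Ioi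
    beta_reduce
    rw [min_eq_left (by have : x < y := hy; linarith)]

private lemma np_prod {p : ℕ} (hp : 1 ≤ p) {μ : Measure ℝ} [SFinite μ] (hμ : Tame μ) (x : ℝ) :
    Integrable (fun q : ℝ × ℝ => kk p Real.pi (x + q.1 - q.2))
      ((volume.restrict (Ioc (0 : ℝ) 1)).prod μ) := by
  obtain ⟨C, hC, h⟩ := np_bound hp
  have hm : Measurable (fun q : ℝ × ℝ => kk p Real.pi (x + q.1 - q.2)) :=
    (measurable_kk _ _).comp ((measurable_const.add measurable_fst).sub measurable_snd)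
  have e : ∀ u y : ℝ, x + u - y = x - y + u := fun u y => by ring
  rw [integrable_prod_iff' hm.aestronglyMeasurable]
  refine ⟨Eventually.of_forall fun y => ?_, ?_⟩
  · simp only [e]
    exact (h (x - y)).1
  · refine Integrable.mono' ((np_env hμ x).const_mul C) ?_ ?_
    · exact hm.aestronglyMeasurable.norm.prod_swap.integral_prod_right'
    · refine Eventually.of_forall fun y => ?_
      rw [Real.norm_of_nonneg (integral_nonneg fun u => norm_nonneg _)]
      simp only [e, Real.norm_eq_abs]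
      exact (h (x - y)).2

private lemma np_K {p : ℕ} (hp : 1 ≤ p) {μ : Measure ℝ} (hμ : Tame μ) (hinf : μ univ = ⊤)
    (R X : ℝ) : ∃ x, X ≤ x ∧
      R ≤ ∫ u in Ioc (0 : ℝ) 1, (∫ y, kk p Real.pi (x + u - y) ∂μ) := by
  haveI := np_lf hμ
  obtain ⟨C₁, hC₁, h⟩ := np_bound hp
  obtain ⟨C₂, hC₂, hr⟩ := np_right hp
  have hp0 : (0 : ℝ) < p := by exact_mod_cast hp
  have hp1 : (1 : ℝ) ≤ p := by exact_mod_cast hp
  have hb1 : 1 / (p : ℝ) ≤ 1 := by
    rw [div_le_one hp0]
    exact hp1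
  obtain ⟨C, hCd⟩ : ∃ C, C = C₂ + (C₁ + 1) * Real.exp (1 / 2) := ⟨_, rfl⟩
  have hE : 1 ≤ Real.exp (1 / 2) := Real.one_le_exp (by norm_num)
  have hCC₂ : C₂ ≤ C := by
    rw [hCd]
    have : 0 ≤ (C₁ + 1) * Real.exp (1 / 2) := by positivity
    linarith
  have hCC₁ : (C₁ + 1) * Real.exp (1 / 2) ≤ C := by
    rw [hCd]
    linarith
  have hCC₁' : C₁ ≤ C := by
    have : C₁ + 1 ≤ (C₁ + 1) * Real.exp (1 / 2) := le_mul_of_one_le_right (by linarith) hE
    linarith
  have hKabs : ∀ s, |∫ u in Ioc (0 : ℝ) 1, kk p Real.pi (s + u)| ≤ C₁ * Real.exp (min s 0) :=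
    fun s => (abs_integral_le_integral_abs).trans (h s).2
  have hcp : Integrable (fun _ : ℝ => 1 / (p : ℝ)) (volume.restrict (Ioc (0 : ℝ) 1)) :=
    integrableOn_const (by simp)
  have hm : Measurable (fun s => ∫ u in Ioc (0 : ℝ) 1, kk p Real.pi (s + u)) := by
    have hm : StronglyMeasurable (fun q : ℝ × ℝ => kk p Real.pi (q.1 + q.2)) :=
      ((measurable_kk _ _).comp (measurable_fst.add measurable_snd)).stronglyMeasurable
    exact (hm.integral_prod_right' (ν := volume.restrict (Ioc (0 : ℝ) 1))).measurable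
  have hr' : ∀ s, 0 ≤ s → |(∫ u in Ioc (0 : ℝ) 1, kk p Real.pi (s + u)) - 1 / p| ≤
      C * Real.exp (-(1 / 2 * s)) := by
    intro s hs
    rcases le_total 1 s with h1 | h1
    · have h2 : (∫ u in Ioc (0 : ℝ) 1, kk p Real.pi (s + u)) - 1 / p =
          ∫ u in Ioc (0 : ℝ) 1, (kk p Real.pi (s + u) - 1 / p) := by
        rw [integral_sub (h s).1 hcp, setIntegral_const]
        simp
      rw [h2, ← Real.norm_eq_abs]
      have h3 := norm_setIntegral_le_of_norm_le_const (μ := (volume : Measure ℝ))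
        (s := Ioc (0 : ℝ) 1) (f := fun u => kk p Real.pi (s + u) - 1 / p)
        (C := C * Real.exp (-(1 / 2 * s))) (by simp) (fun u hu => by
          rw [Real.norm_eq_abs]
          refine (hr (s + u) (by linarith [hu.1])).trans ?_
          refine mul_le_mul hCC₂ ?_ (Real.exp_pos _).le (by linarith)
          exact Real.exp_le_exp.2 (by linarith [hu.1]))
      simpa using h3
    · have h2 := hKabs s
      rw [min_eq_right hs, Real.exp_zero, mul_one] at h2
      have h3 : |(∫ u in Ioc (0 : ℝ) 1, kk p Real.pi (s + u)) - 1 / p| ≤ C₁ + 1 := by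
        refine (abs_sub _ _).trans ?_
        rw [abs_of_nonneg (by positivity : (0 : ℝ) ≤ 1 / p)]
        linarith
      refine h3.trans ?_
      have h4 : 1 ≤ Real.exp (1 / 2) * Real.exp (-(1 / 2 * s)) := by
        rw [← Real.exp_add]
        exact Real.one_le_exp (by linarith)
      calc C₁ + 1 ≤ (C₁ + 1) * (Real.exp (1 / 2) * Real.exp (-(1 / 2 * s))) :=
            le_mul_of_one_le_right (by linarith) h4
        _ = (C₁ + 1) * Real.exp (1 / 2) * Real.exp (-(1 / 2 * s)) := by ring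
        _ ≤ C * Real.exp (-(1 / 2 * s)) := mul_le_mul_of_nonneg_right hCC₁ (Real.exp_pos _).le
  have hl' : ∀ s, s ≤ 0 → |∫ u in Ioc (0 : ℝ) 1, kk p Real.pi (s + u)| ≤ C * Real.exp s := by
    intro s hs
    have h2 := hKabs s
    rw [min_eq_left hs] at h2
    exact h2.trans (mul_le_mul_of_nonneg_right hCC₁' (Real.exp_pos _).le)
  obtain ⟨x, hx, hx2⟩ := polya (γ := 1 / 2) (C := C) (b := 1 / p)
    (K := fun s => ∫ u in Ioc (0 : ℝ) 1, kk p Real.pi (s + u)) (by norm_num)
    (by linarith) (by positivity) hm hr' hl' hμ hinf R X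
  refine ⟨x, hx, ?_⟩
  have h1 := integral_integral_swap (f := fun u y => kk p Real.pi (x + u - y)) (np_prod hp hμ x)
  rw [h1]
  refine hx2.trans (le_of_eq ?_)
  congr 1
  funext y
  have e : ∀ u : ℝ, x + u - y = x - y + u := fun u => by ring
  simp only [e]

theorem top_lt (hp : 1 ≤ p) (F : FDat p f a Q) {θ : ℝ} (h0 : 0 ≤ θ) (h1 : θ < Real.pi)
    (hb : 0 < bb p θ) : indicatorOf p f θ = ⊤ := by
  obtain ⟨C₁, hC₁, hr⟩ := kk_right hp h0 h1
  obtain ⟨C₂, hC₂, hl⟩ := kk_left hp h0 h1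
  have hp0 : (0 : ℝ) < p := by exact_mod_cast hp
  rw [fdat_ind hp F h0 h1]
  refine np_top fun M X => ?_
  have hr' : ∀ s, 0 ≤ s → |kk p θ s - bb p θ / p| ≤ max C₁ C₂ * Real.exp (-(1 / 2 * s)) := by
    intro s hs
    have h2 := hr s hs
    have e : kk p θ s - bb p θ / p = kk p θ s + bt p θ := by
      unfold bt
      ring
    rw [e]
    exact h2.trans (mul_le_mul_of_nonneg_right (le_max_left _ _) (Real.exp_pos _).le)
  have hl' : ∀ s, s ≤ 0 → |kk p θ s| ≤ max C₁ C₂ * Real.exp s := by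
    intro s hs
    exact (hl s hs).trans (mul_le_mul_of_nonneg_right (le_max_right _ _) (Real.exp_pos _).le)
  obtain ⟨x, hx, hx2⟩ := polya (γ := 1 / 2) (C := max C₁ C₂) (b := bb p θ / p) (K := kk p θ)
    (by norm_num) (hC₁.trans (le_max_left _ _)) (div_pos hb hp0) (measurable_kk _ _) hr' hl'
    (muf_tame hp F) (muf_top F) (M - (Q.coeff p).re * Real.cos (p * θ)) X
  exact ⟨x, hx, EReal.coe_le_coe_iff.2 (by linarith)⟩

theorem top_pi (hp : 1 ≤ p) (F : FDat p f a Q) : indicatorOf p f Real.pi = ⊤ := by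
  have hμ := muf_tame hp F
  haveI := np_lf hμ
  haveI := F.cnt
  obtain ⟨C, hC, hE⟩ := fdat_eq hp F
  unfold indicatorOf
  refine np_top fun M X => ?_
  obtain ⟨R, hR⟩ : ∃ R : ℝ, R = M + |(Q.coeff p).re| + C := ⟨_, rfl⟩
  obtain ⟨x, hx, hx2⟩ := np_K hp hμ (muf_top F) (R + 1) (max X 0)
  have hxX : X ≤ x := (le_max_left _ _).trans hx
  have hx0 : 0 ≤ x := (le_max_right _ _).trans hx
  obtain ⟨u, hu, hne, hu2⟩ : ∃ u ∈ Ioc (0 : ℝ) 1,
      f (Real.exp (x + u) * Complex.exp (Real.pi * Complex.I)) ≠ 0 ∧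
      R < ∫ y, kk p Real.pi (x + u - y) ∂(muf p a) := by
    by_contra hcon
    push Not at hcon
    have hint : Integrable (fun u => ∫ y, kk p Real.pi (x + u - y) ∂(muf p a))
        (volume.restrict (Ioc (0 : ℝ) 1)) := (np_prod hp hμ x).integral_prod_left
    have hc : (range fun i => Real.log (a i) - x).Countable := countable_range _
    have h1 : ∫ u in Ioc (0 : ℝ) 1, (∫ y, kk p Real.pi (x + u - y) ∂(muf p a)) ≤
        ∫ u in Ioc (0 : ℝ) 1, R := by
      refine integral_mono_ae hint (integrableOn_const (by simp)) ?_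
      refine (ae_restrict_iff' measurableSet_Ioc).2 ?_
      filter_upwards [hc.ae_notMem (volume : Measure ℝ)] with u hu hmem
      refine hcon u hmem fun h => hu ?_
      obtain ⟨i, hi⟩ := (F.zero _).1 h
      refine ⟨i, ?_⟩
      rw [Complex.exp_pi_mul_I, mul_neg, mul_one, neg_inj] at hi
      have h2 : Real.exp (x + u) = a i := by exact_mod_cast hi
      show Real.log (a i) - x = u
      rw [← h2, Real.log_exp]
      ring
    rw [setIntegral_const] at h1
    simp only [Real.volume_real_Ioc, sub_zero, smul_eq_mul] at h1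
    norm_num at h1
    linarith
  have hE' := hE Real.pi ⟨Real.pi_pos.le, le_rfl⟩ (x + u) (by linarith [hu.1]) hne
  refine ⟨Real.exp (x + u), ?_, ?_⟩
  · have := Real.add_one_le_exp (x + u)
    linarith [hu.1]
  · unfold ratio
    rw [if_neg hne]
    refine EReal.coe_le_coe_iff.2 ?_
    have h1 : Real.log ‖f (Real.exp (x + u) * Complex.exp (Real.pi * Complex.I))‖ /
        Real.exp (x + u) ^ (p : ℝ) = Real.exp (-((p : ℝ) * (x + u))) *
        Real.log ‖f (Real.exp (x + u) * Complex.exp (Real.pi * Complex.I))‖ := by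
      rw [← Real.exp_mul, div_eq_mul_inv, ← Real.exp_neg, mul_comm (x + u)]
      ring
    rw [h1]
    have h2 := (abs_le.1 hE').1
    have h3 : C * Real.exp (-(x + u)) ≤ C := by
      refine mul_le_of_le_one_right hC (Real.exp_le_one_iff.2 ?_)
      linarith [hu.1]
    have h4 : -|(Q.coeff p).re| ≤ (Q.coeff p).re * Real.cos (p * Real.pi) := by
      have h5 : |(Q.coeff p).re * Real.cos (p * Real.pi)| ≤ |(Q.coeff p).re| := by
        rw [abs_mul]
        exact mul_le_of_le_one_right (abs_nonneg _) (Real.abs_cos_le_one _)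
      exact (neg_le_neg h5).trans (neg_abs_le _)
    linarith

end Pool.Agent.IND2I
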