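import Pool.Agent.IND2I.Cat
import Pool.Agent.IND2I.IDefs

/-!
# IND2I, module PlanL: from a plan to limits superior

PROOF.  `cat P`.  `Dens` is part of it.  Upper: let `A` real with `L < A`; for `j ≥ j₀` `θ ∈ P.F j` and `P.c j θ + 2 P.ε j ≤ A`; every `x ≥ X j₀` lies in a
block `[X j, X (j+1)]` with `j ≥ j₀` (`X` strictly increasing, unbounded), so the potential is `≤ A`: `limsup ≤ A`; `A ↓ L`
(`EReal`: `le_of_forall_gt`-type argument with reals between).  Lower: `B < L` real: for frequently many `j` `P.t j = t` and there is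
`x ≥ X j` with potential `≥ P.v j - 2 P.ε j ≥ B`; `X j → ∞`: `B ≤ limsup` (`le_limsup_of_frequently_le`).
`ul_nonpos`: if `kk p θ ≤ 0` everywhere and `ρ ≥ 0`, the potential is `≤ 0` (also when not integrable, the integral is `0`).
-/

set_option autoImplicit false

namespace Pool.Agent.IND2I

open MeasureTheory Set Filter Helper25.Ind

/-- the densities which we construct -/
structure Dens (ρ : ℝ → ℝ) : Prop where
  meas : Measurable ρ
  nonneg : ∀ y, 0 ≤ ρ y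
  neg : ∀ y, y < 0 → ρ y = 0
  intOn : ∀ x, IntegrableOn ρ (Iio x)
  growth : ∀ δ : ℝ, 0 < δ → ∀ᶠ x in atTop, ∫ y in Iio x, ρ y ≤ Real.exp (δ * x)
  mass : Tendsto (fun x => ∫ y in Iio x, ρ y) atTop atTop

/-- limit superior of the potential on the ray `θ` -/
noncomputable def UL (p : ℕ) (ρ : ℝ → ℝ) (θ : ℝ) : EReal :=
  limsup (fun x : ℝ => ((∫ y, kk p θ (x - y) * ρ y : ℝ) : EReal)) atTop

theorem plan_lim (p : ℕ) (P : Plan ℝ) (hk : ∀ θ, P.k θ = kk p θ) : ∃ ρ : ℝ → ℝ, Dens ρ ∧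
    (∀ (θ : ℝ) (L : EReal), (∀ᶠ j in atTop, θ ∈ P.F j) →
      (∀ A : ℝ, L < (A : EReal) → ∀ᶠ j in atTop, P.c j θ + 2 * P.ε j ≤ A) → UL p ρ θ ≤ L) ∧
    ∀ (t : ℝ) (L : EReal), (∀ B : ℝ, (B : EReal) < L →
      ∃ᶠ j in atTop, P.t j = t ∧ B ≤ P.v j - 2 * P.ε j) → L ≤ UL p ρ t := by
  classical
  obtain ⟨ρ, X, h1, h2, h3, h4, h5, h6, hXm, hXt, hup, hlo⟩ := cat P
  refine ⟨ρ, ⟨h1, h2, h3, h4, h5, h6⟩, ?_, ?_⟩
  · intro θ L hF hA
    rw [← EReal.le_of_forall_lt_iff_le]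
    intro A hLA
    obtain ⟨j0, hj0⟩ := eventually_atTop.1 (hF.and (hA A hLA))
    have hev : ∀ᶠ x in atTop, ((∫ y, kk p θ (x - y) * ρ y : ℝ) : EReal) ≤ (A : EReal) := by
      filter_upwards [eventually_ge_atTop (X j0)] with x hx
      have hex : ∃ n, x < X n := (hXt.eventually_gt_atTop x).exists
      obtain ⟨n, hn⟩ : ∃ n, n = Nat.find hex := ⟨_, rfl⟩
      have g1 : x < X n := by rw [hn]; exact Nat.find_spec hex
      have g2 : j0 < n := by
        by_contra g3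
        push Not at g3
        exact absurd (lt_of_lt_of_le g1 (hXm.monotone g3)) (not_lt.2 hx)
      obtain ⟨j, rfl⟩ : ∃ j, n = j + 1 := ⟨n - 1, by omega⟩
      have g3 : X j ≤ x := not_lt.1 (Nat.find_min hex (m := j) (by omega))
      obtain ⟨g4, g5⟩ := hj0 j (by omega)
      have g6 := hup j x g3 g1.le θ g4
      rw [hk] at g6
      exact EReal.coe_le_coe_iff.2 (g6.trans g5)
    exact limsup_le_of_le (by isBoundedDefault) hev
  · intro t L hB
    rw [← EReal.ge_of_forall_gt_iff_ge]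
    intro B hBL
    refine le_limsup_of_frequently_le ?_ (by isBoundedDefault)
    rw [frequently_atTop]
    intro a
    obtain ⟨j, ⟨hj1, hj2⟩, hj3⟩ := ((hB B hBL).and_eventually (hXt.eventually_ge_atTop a)).exists
    obtain ⟨x, hx1, -, hx3⟩ := hlo j
    refine ⟨x, hj3.trans hx1, ?_⟩
    rw [hj1, hk] at hx3
    exact EReal.coe_le_coe_iff.2 (hj2.trans hx3)

theorem ul_nonpos (p : ℕ) {ρ : ℝ → ℝ} (hρ : Dens ρ) {θ : ℝ} (hk : ∀ s, kk p θ s ≤ 0) :
    UL p ρ θ ≤ 0 := by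
  refine limsup_le_of_le (by isBoundedDefault) (Eventually.of_forall fun x => ?_)
  have h1 : ∫ y, kk p θ (x - y) * ρ y ≤ 0 :=
    integral_nonpos fun y => mul_nonpos_of_nonpos_of_nonneg (hk _) (hρ.nonneg y)
  exact_mod_cast h1

/-- enumeration of a countable set with infinitely many repetitions -/
theorem enum_inf {T : Set ℝ} (hT : T.Countable) (hne : T.Nonempty) :
    ∃ t : ℕ → ℝ, (∀ j, t j ∈ T) ∧ ∀ x ∈ T, ∃ᶠ j in atTop, t j = x := by
  obtain ⟨f, rfl⟩ := hT.exists_eq_range hne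
  refine ⟨fun j => f j.unpair.1, fun j => ⟨_, rfl⟩, ?_⟩
  rintro _ ⟨n, rfl⟩
  rw [frequently_atTop]
  intro a
  refine ⟨Nat.pair n a, Nat.right_le_pair n a, ?_⟩
  show f (Nat.unpair (Nat.pair n a)).1 = f n
  rw [Nat.unpair_pair]

/-- increasing finite subsets of a countable set -/
theorem enum_fin {D : Set ℝ} (hD : D.Countable) :
    ∃ F : ℕ → Finset ℝ, (∀ j, ∀ x ∈ F j, x ∈ D) ∧ ∀ x ∈ D, ∀ᶠ j in atTop, x ∈ F j := by
  classical
  rcases D.eq_empty_or_nonempty with rfl | hne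
  · exact ⟨fun _ => ∅, fun j x hx => absurd hx (Finset.notMem_empty x),
      fun x hx => absurd hx (Set.notMem_empty x)⟩
  · obtain ⟨f, rfl⟩ := hD.exists_eq_range hne
    refine ⟨fun j => (Finset.range (j + 1)).image f, ?_, ?_⟩
    · intro j x hx
      obtain ⟨n, -, rfl⟩ := Finset.mem_image.1 hx
      exact ⟨n, rfl⟩
    · rintro _ ⟨n, rfl⟩
      filter_upwards [eventually_ge_atTop n] with j hj
      exact Finset.mem_image.2 ⟨n, Finset.mem_range.2 (by omega), rfl⟩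

end Pool.Agent.IND2I
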