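import Pool.Agent.Helper25.Ind.Disc

/-!
# IND2I, module RealD: discretisation of measures, integer order

PROOF.  As in `discretize` (`Helper25.Ind.Disc`): `a` from `exists_quantiles`, `(diracs a) (Iic t) = ⌊F t⌋`, `F t = (ν (Iic t)).toReal`, `e t = F t - ⌊F t⌋ ∈ [0, 1)`,
`e t = 0` for `t ≤ 1`.  `integral_ker_eq` for both measures:
`∫ ker d(diracs a) - ∫ ker dν = ∫_{Ioi 1} e t ((-z/t)^{p+1}/(1+z/t)).re/t dt`, and
`(-z/t)^{p+1}/(1+z/t) = -(-z/t)^p + (-z/t)^p/(1+z/t)`.  So it is `-E₀ ((-z)^p).re + ∫_{Ioi 1} e t ((-z/t)^p/(1+z/t)).re/t dt` with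
`E₀ = ∫_{Ioi 1} e t t^{-p-1} dt` (`p ≥ 1`: converges), and the last integral is bounded by `Phi (p-1) ‖z‖/sin (δ/2)` (`disc_bound`, `disc_integral` with
`p - 1` in place of `p`).
-/

set_option autoImplicit false

namespace Pool.Agent.IND2I

open MeasureTheory Set Filter Topology Helper25.Ind

theorem discretize_int {p : ℕ} (hp : 1 ≤ p) {ρ A : ℝ} (h1 : (p : ℝ) < ρ) (h2 : ρ < p + 1)
    (hA : 0 ≤ A) {ν : Measure ℝ} (hν : Growth ρ A ν) (h0 : ν (Iic 1) = 0) (hinf : ν univ = ⊤) :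
    ∃ (a : ℕ → ℝ) (E₀ : ℝ), (∀ k, 1 ≤ a k) ∧ Growth ρ A (diracs a) ∧
      (∀ t, (diracs a) (Iic t) ≤ ν (Iic t)) ∧
      ∀ δ : ℝ, 0 < δ → δ ≤ Real.pi → ∀ z ∈ Complex.slitPlane, |z.arg| ≤ Real.pi - δ →
        |(∫ t, ker p z t ∂(diracs a)) - (∫ t, ker p z t ∂ν) + E₀ * ((-z) ^ p).re| ≤
          Phi (p - 1) ‖z‖ / Real.sin (δ / 2) := by
  have hz0 : ∀ t : ℝ, t ≤ 1 → ν (Iic t) = 0 := fun t ht =>
    measure_mono_null (Iic_subset_Iic.2 ht) h0
  have hfin : ∀ t, ν (Iic t) < ⊤ := by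
    intro t
    rcases le_or_gt t 0 with ht | ht
    · rw [hz0 t (by linarith)]
      exact ENNReal.zero_lt_top
    · exact (hν.2 t ht).trans_lt ENNReal.ofReal_lt_top
  obtain ⟨a, ha1, ha2⟩ := exists_quantiles h0 hfin hinf
  have hle : ∀ t, (diracs a) (Iic t) ≤ ν (Iic t) := by
    intro t
    rw [ha2]
    have : ((⌊(ν (Iic t)).toReal⌋₊ : ℕ) : ENNReal) =
        ENNReal.ofReal ((⌊(ν (Iic t)).toReal⌋₊ : ℕ) : ℝ) := by
      rw [ENNReal.ofReal_natCast]
    rw [this]
    conv_rhs => rw [← ENNReal.ofReal_toReal (hfin t).ne]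
    exact ENNReal.ofReal_le_ofReal (Nat.floor_le ENNReal.toReal_nonneg)
  have hG : Growth ρ A (diracs a) := by
    refine ⟨?_, fun t ht => (hle t).trans (hν.2 t ht)⟩
    rw [ha2, hz0 0 (by norm_num)]
    simp
  set F : ℝ → ℝ := fun t => (ν (Iic t)).toReal with hF
  have hFmono : Monotone F := by
    intro s t hst
    exact ENNReal.toReal_mono (hfin t).ne (measure_mono (Iic_subset_Iic.2 hst))
  have hFm : Measurable F := hFmono.measurable
  set e : ℝ → ℝ := fun t => F t - ((⌊F t⌋₊ : ℕ) : ℝ) with he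
  have hem : Measurable e := by
    refine hFm.sub ?_
    exact (measurable_from_top (f := fun n : ℕ => (n : ℝ))).comp (Nat.measurable_floor.comp hFm)
  have he0 : ∀ t, |e t| ≤ 1 := by
    intro t
    have h1 : 0 ≤ F t := ENNReal.toReal_nonneg
    rw [abs_le]
    constructor
    · have := Nat.floor_le h1
      simp only [he]
      linarith
    · have := Nat.lt_floor_add_one (F t)
      simp only [he]
      linarith
  obtain ⟨q, rfl⟩ : ∃ q, p = q + 1 := ⟨p - 1, by omega⟩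
  have hp1 : (0 : ℝ) ≤ q := Nat.cast_nonneg q
  have hE : IntegrableOn (fun t : ℝ => e t / t ^ (q + 1 + 1)) (Ioi 1) := by
    have hb : IntegrableOn (fun t : ℝ => t ^ (-((q : ℝ) + 2))) (Ioi 1) :=
      integrableOn_Ioi_rpow_of_lt (by linarith) one_pos
    refine Integrable.mono' hb ?_ ?_
    · exact (hem.div ((measurable_id.pow_const (q + 1 + 1)))).aestronglyMeasurable
    · refine (ae_restrict_iff' measurableSet_Ioi).2 (Eventually.of_forall fun t ht => ?_)
      have ht0 : (0 : ℝ) < t := lt_trans one_pos ht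
      rw [Real.norm_eq_abs, abs_div, abs_of_pos (pow_pos ht0 _)]
      have h3 : t ^ (-((q : ℝ) + 2)) = 1 / t ^ (q + 1 + 1) := by
        rw [Real.rpow_neg ht0.le, one_div]
        congr 1
        rw [← Real.rpow_natCast]
        congr 1
        push_cast
        ring
      rw [h3]
      exact div_le_div_of_nonneg_right (he0 t) (pow_pos ht0 _).le
  refine ⟨a, ∫ t in Ioi (1 : ℝ), e t / t ^ (q + 1 + 1), ha1, hG, hle, ?_⟩
  intro δ hδ hδ' z hz hza
  have hs : 0 < Real.sin (δ / 2) := Real.sin_pos_of_pos_of_lt_pi (by linarith)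
    (by linarith [Real.pi_pos])
  obtain ⟨hi1, he1⟩ := integral_ker_eq h1 h2 hA hG hz
  obtain ⟨hi2, he2⟩ := integral_ker_eq h1 h2 hA hν hz
  have hr : 0 < ‖z‖ := norm_pos_iff.2 (Complex.slitPlane_ne_zero hz)
  rw [he1, he2]
  have hsub : -(∫ t in Ioi (0 : ℝ), ((diracs a) (Iic t)).toReal *
        (((-z / t) ^ (q + 1 + 1) / (1 + z / t)).re / t)) -
      -(∫ t in Ioi (0 : ℝ), (ν (Iic t)).toReal * (((-z / t) ^ (q + 1 + 1) / (1 + z / t)).re / t)) =
      ∫ t in Ioi (0 : ℝ), ((ν (Iic t)).toReal * (((-z / t) ^ (q + 1 + 1) / (1 + z / t)).re / t) -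
        ((diracs a) (Iic t)).toReal * (((-z / t) ^ (q + 1 + 1) / (1 + z / t)).re / t)) := by
    rw [integral_sub hi2 hi1]
    ring
  rw [hsub]
  have hzero : ∀ t ∈ Ioi (0 : ℝ) \ Ioi 1,
      ((ν (Iic t)).toReal * (((-z / t) ^ (q + 1 + 1) / (1 + z / t)).re / t) -
        ((diracs a) (Iic t)).toReal * (((-z / t) ^ (q + 1 + 1) / (1 + z / t)).re / t)) = 0 := by
    intro t ht
    have ht1 : t ≤ 1 := not_lt.1 ht.2
    rw [ha2, hz0 t ht1]
    simp
  rw [setIntegral_eq_of_subset_of_forall_sdiff_eq_zero measurableSet_Ioi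
    (Ioi_subset_Ioi zero_le_one) hzero]
  have hint : IntegrableOn (fun t : ℝ =>
      (ν (Iic t)).toReal * (((-z / t) ^ (q + 1 + 1) / (1 + z / t)).re / t) -
        ((diracs a) (Iic t)).toReal * (((-z / t) ^ (q + 1 + 1) / (1 + z / t)).re / t)) (Ioi 1) :=
    (hi2.sub hi1).mono_set (Ioi_subset_Ioi zero_le_one)
  rw [← integral_mul_const, ← integral_add hint (hE.mul_const _)]
  have hEq : ∀ t ∈ Ioi (1 : ℝ),
      ((ν (Iic t)).toReal * (((-z / t) ^ (q + 1 + 1) / (1 + z / t)).re / t) -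
        ((diracs a) (Iic t)).toReal * (((-z / t) ^ (q + 1 + 1) / (1 + z / t)).re / t)) +
        e t / t ^ (q + 1 + 1) * ((-z) ^ (q + 1)).re =
      e t * (((-z / t) ^ (q + 1) / (1 + z / t)).re / t) := by
    intro t ht
    have ht0 : (0 : ℝ) < t := lt_trans one_pos ht
    have htc : (t : ℂ) ≠ 0 := by exact_mod_cast ht0.ne'
    have h1z : (1 : ℂ) + z / t ≠ 0 := by
      intro h
      have h5 : z = -(t : ℂ) := by
        field_simp at h
        linear_combination h
      rw [h5, Complex.mem_slitPlane_iff] at hz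
      rcases hz with hz | hz
      · simp at hz
        linarith
      · simp at hz
    have hid : (-z / t) ^ (q + 1 + 1) / (1 + z / t) =
        (-z / t) ^ (q + 1) / (1 + z / t) - (-z) ^ (q + 1) * (((t ^ (q + 1))⁻¹ : ℝ) : ℂ) := by
      push_cast
      rw [← sub_eq_zero]
      have h6 : (-z) ^ (q + 1) * ((t : ℂ) ^ (q + 1))⁻¹ = (-z / t) ^ (q + 1) := by
        rw [div_pow, div_eq_mul_inv]
      rw [h6, pow_succ (-z / t) (q + 1), neg_div]
      generalize (-(z / (t : ℂ))) ^ (q + 1) = u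
      generalize z / (t : ℂ) = w at h1z
      field_simp
      ring
    have hre : ((-z / t) ^ (q + 1 + 1) / (1 + z / t)).re =
        ((-z / t) ^ (q + 1) / (1 + z / t)).re - ((-z) ^ (q + 1)).re * (t ^ (q + 1))⁻¹ := by
      rw [hid, Complex.sub_re, Complex.re_mul_ofReal]
    rw [ha2, ENNReal.toReal_natCast, hre]
    have hF' : (ν (Iic t)).toReal = F t := rfl
    rw [hF']
    simp only [he]
    rw [pow_succ t (q + 1)]
    field_simp
    ring
  rw [setIntegral_congr_fun measurableSet_Ioi hEq]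
  obtain ⟨hi, hee⟩ := disc_integral q hr
  have hq : q + 1 - 1 = q := by omega
  rw [hq, ← hee, ← Real.norm_eq_abs, ← integral_div]
  refine norm_integral_le_of_norm_le (hi.div_const _) ?_
  refine (ae_restrict_iff' measurableSet_Ioi).2 (Eventually.of_forall fun t ht => ?_)
  have ht0 : (0 : ℝ) < t := lt_trans one_pos ht
  rw [norm_mul, Real.norm_eq_abs, Real.norm_eq_abs]
  calc |e t| * |((-z / t) ^ (q + 1) / (1 + z / t)).re / t|
      ≤ 1 * |((-z / t) ^ (q + 1) / (1 + z / t)).re / t| := by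
        gcongr
        exact he0 t
    _ = |((-z / t) ^ (q + 1) / (1 + z / t)).re / t| := one_mul _
    _ ≤ _ := disc_bound q hδ hδ' hza ht0

end Pool.Agent.IND2I
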