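import Pool.Agent.IND2I.RealD
import Pool.Agent.IND2I.Fdat
import Pool.Agent.IND2I.Polya
import Pool.Agent.IND2I.PlanL
import Pool.Agent.Helper25.Ind.Canon
import Pool.Agent.Helper25.Ind.IntN
import Pool.Agent.Helper25.Ind.SuffC

/-!
# IND2I, module RealI: realisation of a density by an entire function, integer order `p ≥ 1`

PROOF.  Let `N` be the density.  (1) `ν` = image under `exp` of `e^{py} N(y) dy`: `ν (Iic t) = ∫_{y ≤ log t} e^{py} N y dy` for `t > 0`, `0` for `t ≤ 1`
(`N = 0` on `y < 0`).  For every `σ > p` there is `A` with `ν (Iic t) ≤ A t^σ` (`∫_{y ≤ x} N ≤ C e^{(σ - p) x}`; `Dens.growth`, `intOn`); so `Growth σ A ν`.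
`ν univ = ⊤` (`Dens.mass`, `e^{py} ≥ 1` for `y ≥ 0`).
(2) `discretize_int` with `ρ = p + 1/2`: `a, E₀`.  `#{k | a k ≤ t} ≤ ν (Iic t) ≤ A_σ t^σ` for every `σ > p`, so `∑ a k^{-σ} < ∞` for all `σ > p` (dyadic sums).
(3) `exists_canonical` gives `g`; `f z = exp (E₀ (-z)^p) g z`, `Q = C (E₀ (-1)^p) * X^p`.  So `log ‖f z‖ = E₀ ((-z)^p).re + ∑' ker p z (a k)`, and
`∑' ker = ∫ ker d(diracs a)`.
(4) For `z = e^x e^{iθ}`, `0 ≤ θ < π`: `∫ ker p z t dν(t) = ∫ ker p z (e^y) e^{py} N y dy = e^{px} ∫ kk p θ (x - y) N y dy` (`ker_scale`).  Hence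
`|e^{-px} log ‖f z‖ - ∫ kk p θ (x - y) N y dy| ≤ e^{-px} Phi (p-1) (e^x)/sin ((π-θ)/2) → 0` (`Phi_le_rpow` with `κ = 1/2`).
So `indicatorOf p f θ = UL p N θ` (`f ≠ 0` on the ray, `r = e^x`).
(5) `OrderLE p f`: for `σ ∈ (p, p+1)`: `ker p z a ≤ C Phi p (‖z‖/a) ≤ C' (‖z‖/a)^σ`, so `log ‖f z‖ ≤ |E₀| ‖z‖^p + C'' ‖z‖^σ`; given `σ' > p` use `σ ∈ (p, min σ' (p+1))`.
(6) `μ = N dy` (`volume.withDensity (ofReal ∘ N)`) is `Tame` with infinite mass; take `θ₁ ∈ [0, π)` with `bb p θ₁ > 0` (`bb_pi`, continuity); `polya`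
(`kk_right`, `kk_left`) gives `UL p N θ₁ = ⊤`.  So `indicatorOf p f θ₁ = ⊤`, which implies that the order is `≥ p` (`IsN.lower`), and that
`∑ a k^{-p}` diverges (otherwise `indicator_of_summable` of `IntN` makes the indicator real valued).
-/

set_option autoImplicit false

namespace Pool.Agent.IND2I

open MeasureTheory Set Filter Topology Helper25.Ind

/-- the measure on the `t` scale -/
private noncomputable def dn (p : ℕ) (N : ℝ → ℝ) : Measure ℝ :=
  (volume.restrict (Ioi (1 : ℝ))).withDensity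
    (fun t => ENNReal.ofReal (N (Real.log t) * t ^ ((p : ℝ) - 1)))

/-- the measure on the logarithmic scale -/
private noncomputable def mu (N : ℝ → ℝ) : Measure ℝ :=
  volume.withDensity (fun y => ENNReal.ofReal (N y))

private lemma dn_img : (Real.exp '' Ioi (0 : ℝ)) = Ioi (1 : ℝ) := by
  ext t
  constructor
  · rintro ⟨y, hy, rfl⟩
    exact Real.one_lt_exp_iff.2 hy
  · intro ht
    exact ⟨Real.log t, Real.log_pos ht, Real.exp_log (lt_trans one_pos ht)⟩

private lemma dn_w (ρ y c : ℝ) :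
    Real.exp y * (c * (Real.exp y) ^ (ρ - 1)) = c * Real.exp (ρ * y) := by
  rw [← Real.exp_mul, mul_left_comm, ← Real.exp_add]
  congr 2
  ring

private lemma dn_meas (p : ℕ) {N : ℝ → ℝ} (hm : Measurable N) :
    Measurable (fun t : ℝ => ENNReal.ofReal (N (Real.log t) * t ^ ((p : ℝ) - 1))) := by
  have h1 : Measurable (fun t : ℝ => N (Real.log t)) := hm.comp Real.measurable_log
  fun_prop

private lemma dn_der : ∀ x ∈ Ioi (0 : ℝ),
    HasDerivWithinAt Real.exp (Real.exp x) (Ioi (0 : ℝ)) x :=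
  fun x _ => (Real.hasDerivAt_exp x).hasDerivWithinAt

private lemma dn_lintegral (p : ℕ) {N : ℝ → ℝ} (hm : Measurable N) {g : ℝ → ENNReal}
    (hg : Measurable g) : ∫⁻ t, g t ∂(dn p N) =
      ∫⁻ y in Ioi (0 : ℝ), g (Real.exp y) * ENNReal.ofReal (N y * Real.exp (p * y)) := by
  unfold dn
  rw [lintegral_withDensity_eq_lintegral_mul _ (dn_meas p hm) hg, ← dn_img,
    lintegral_image_eq_lintegral_abs_deriv_mul measurableSet_Ioi dn_der
      Real.exp_injective.injOn]
  refine setLIntegral_congr_fun measurableSet_Ioi (fun y _ => ?_)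
  simp only [Pi.mul_apply]
  rw [Real.log_exp, abs_of_pos (Real.exp_pos y), ← mul_assoc,
    ← ENNReal.ofReal_mul (Real.exp_pos y).le, dn_w, mul_comm]

private lemma dn_integral (p : ℕ) {N : ℝ → ℝ} (hm : Measurable N) (hn : ∀ y, 0 ≤ N y)
    (g : ℝ → ℝ) : ∫ t, g t ∂(dn p N) =
      ∫ y in Ioi (0 : ℝ), g (Real.exp y) * (N y * Real.exp (p * y)) := by
  have hlt : ∀ᵐ t ∂(volume.restrict (Ioi (1 : ℝ))),
      ENNReal.ofReal (N (Real.log t) * t ^ ((p : ℝ) - 1)) < ⊤ :=
    Eventually.of_forall fun _ => ENNReal.ofReal_lt_top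
  have hpt : ∀ y : ℝ, |Real.exp y| • ((ENNReal.ofReal (N (Real.log (Real.exp y)) *
      Real.exp y ^ ((p : ℝ) - 1))).toReal • g (Real.exp y)) =
      g (Real.exp y) * (N y * Real.exp (p * y)) := by
    intro y
    rw [Real.log_exp, abs_of_pos (Real.exp_pos y), ENNReal.toReal_ofReal
      (mul_nonneg (hn _) (Real.rpow_nonneg (Real.exp_pos y).le _)), smul_eq_mul,
      smul_eq_mul, ← mul_assoc, dn_w, mul_comm]
  unfold dn
  rw [integral_withDensity_eq_integral_toReal_smul (dn_meas p hm) hlt, ← dn_img,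
    integral_image_eq_integral_abs_deriv_smul measurableSet_Ioi dn_der
      Real.exp_injective.injOn]
  exact setIntegral_congr_fun measurableSet_Ioi (fun y _ => hpt y)

private lemma dn_one (p : ℕ) (N : ℝ → ℝ) : dn p N (Iic 1) = 0 := by
  unfold dn
  refine withDensity_absolutelyContinuous _ _ ?_
  rw [Measure.restrict_apply measurableSet_Iic]
  have h : Iic (1 : ℝ) ∩ Ioi 1 = ∅ := by
    ext t
    simp
  rw [h, measure_empty]

private lemma mass_mono {N : ℝ → ℝ} (hN : Dens N) :
    Monotone fun x : ℝ => ∫ y in Iio x, N y := fun _ z hxz =>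
  setIntegral_mono_set (hN.intOn z) (Eventually.of_forall hN.nonneg)
    (LE.le.eventuallyLE (Iio_subset_Iio hxz))

private lemma mass_bd {N : ℝ → ℝ} (hN : Dens N) {δ : ℝ} (hδ : 0 < δ) :
    ∃ C : ℝ, 0 ≤ C ∧ ∀ x, ∫ y in Iio x, N y ≤ C * Real.exp (δ * |x|) := by
  obtain ⟨X, hX⟩ := eventually_atTop.1 (hN.growth δ hδ)
  have hmX : 0 ≤ ∫ y in Iio X, N y := integral_nonneg fun y => hN.nonneg y
  refine ⟨1 + ∫ y in Iio X, N y, by linarith, fun x => ?_⟩
  have h1 : 1 ≤ Real.exp (δ * |x|) := Real.one_le_exp (by positivity)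
  have h2 : (∫ y in Iio X, N y) ≤ (∫ y in Iio X, N y) * Real.exp (δ * |x|) :=
    le_mul_of_one_le_right hmX h1
  rcases le_total X x with h | h
  · have h3 := hX x h
    have h4 : Real.exp (δ * x) ≤ Real.exp (δ * |x|) :=
      Real.exp_le_exp.2 (mul_le_mul_of_nonneg_left (le_abs_self x) hδ.le)
    linarith
  · have h3 := mass_mono hN h
    simp only at h3
    linarith

private lemma mu_Iio {N : ℝ → ℝ} (hN : Dens N) (x : ℝ) :
    mu N (Iio x) = ENNReal.ofReal (∫ y in Iio x, N y) := by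
  unfold mu
  rw [withDensity_apply _ measurableSet_Iio, ofReal_integral_eq_lintegral_ofReal (hN.intOn x)
    (Eventually.of_forall hN.nonneg)]

private lemma mu_top {N : ℝ → ℝ} (hN : Dens N) : mu N univ = ⊤ := by
  by_contra hne
  obtain ⟨x, hx⟩ := (hN.mass.eventually (eventually_gt_atTop (mu N univ).toReal)).exists
  have h1 : mu N (Iio x) ≤ mu N univ := measure_mono (subset_univ _)
  rw [mu_Iio hN] at h1
  have h2 := (ENNReal.ofReal_le_iff_le_toReal hne).1 h1
  linarith

private lemma mu_tame {N : ℝ → ℝ} (hN : Dens N) : Tame (mu N) := by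
  refine ⟨⟨0, ?_⟩, fun δ hδ => ?_⟩
  · rw [mu_Iio hN]
    have h1 : ∫ y in Iio (0 : ℝ), N y = 0 :=
      setIntegral_eq_zero_of_forall_eq_zero fun y hy => hN.neg y hy
    rw [h1, ENNReal.ofReal_zero]
  · obtain ⟨C, hC, hb⟩ := mass_bd hN hδ
    refine ⟨C * Real.exp δ, by positivity, fun x => ?_⟩
    have h1 : mu N (Iic x) ≤ mu N (Iio (x + 1)) :=
      measure_mono fun y (hy : y ≤ x) => lt_of_le_of_lt hy (by linarith)
    refine h1.trans ?_
    rw [mu_Iio hN]
    refine ENNReal.ofReal_le_ofReal ((hb (x + 1)).trans ?_)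
    rw [mul_assoc, ← Real.exp_add]
    refine mul_le_mul_of_nonneg_left (Real.exp_le_exp.2 ?_) hC
    have h2 : |x + 1| ≤ |x| + 1 := (abs_add_le x 1).trans (by rw [abs_one])
    nlinarith

private lemma dn_growth {p : ℕ} {N : ℝ → ℝ} (hN : Dens N) {σ : ℝ} (hσ : (p : ℝ) < σ) :
    ∃ A : ℝ, 0 ≤ A ∧ Growth σ A (dn p N) := by
  obtain ⟨C, hC, hb⟩ := mass_bd hN (sub_pos.2 hσ)
  refine ⟨C * Real.exp (σ - p), by positivity, ?_, ?_⟩
  · exact measure_mono_null (Iic_subset_Iic.2 zero_le_one) (dn_one p N)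
  · intro t ht
    rcases le_or_gt t 1 with ht1 | ht1
    · rw [measure_mono_null (Iic_subset_Iic.2 ht1) (dn_one p N)]
      exact zero_le
    have hlog : 0 < Real.log t := Real.log_pos ht1
    have h1 : dn p N (Iic t) = ∫⁻ s, (Iic t).indicator 1 s ∂(dn p N) := by
      rw [lintegral_indicator_one measurableSet_Iic]
    rw [h1, dn_lintegral p hN.meas (measurable_one.indicator measurableSet_Iic)]
    have h2 : ∫⁻ y in Ioi (0 : ℝ), (Iic t).indicator 1 (Real.exp y) *
        ENNReal.ofReal (N y * Real.exp (p * y)) ≤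
        ENNReal.ofReal (t ^ (p : ℝ)) * mu N (Iio (Real.log t + 1)) := by
      unfold mu
      rw [withDensity_apply _ measurableSet_Iio, ← lintegral_indicator measurableSet_Iio,
        ← lintegral_const_mul' _ _ ENNReal.ofReal_ne_top]
      refine (lintegral_mono' Measure.restrict_le_self fun y => ?_)
      by_cases hy : Real.exp y ∈ Iic t
      · have hy1 : y ≤ Real.log t := (Real.le_log_iff_exp_le ht).2 hy
        rw [indicator_of_mem hy, Pi.one_apply, one_mul,
          indicator_of_mem (show y ∈ Iio (Real.log t + 1) from lt_of_le_of_lt hy1 (by linarith)),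
          ← ENNReal.ofReal_mul (by positivity)]
        refine ENNReal.ofReal_le_ofReal ?_
        rw [mul_comm]
        refine mul_le_mul_of_nonneg_right ?_ (hN.nonneg y)
        rw [mul_comm, Real.exp_mul]
        exact Real.rpow_le_rpow (Real.exp_pos y).le hy (Nat.cast_nonneg p)
      · rw [indicator_of_notMem hy, zero_mul]
        exact zero_le
    refine h2.trans ?_
    rw [mu_Iio hN, ← ENNReal.ofReal_mul (by positivity)]
    refine ENNReal.ofReal_le_ofReal ?_
    have h3 := hb (Real.log t + 1)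
    rw [abs_of_pos (by linarith : 0 < Real.log t + 1)] at h3
    refine (mul_le_mul_of_nonneg_left h3 (by positivity)).trans (le_of_eq ?_)
    have h4 : t ^ (p : ℝ) = Real.exp (p * Real.log t) := by
      rw [Real.rpow_def_of_pos ht, mul_comm]
    have h5 : t ^ σ = Real.exp (σ * Real.log t) := by
      rw [Real.rpow_def_of_pos ht, mul_comm]
    rw [h4, h5, mul_left_comm, ← Real.exp_add, mul_assoc, ← Real.exp_add]
    congr 2
    ring

private lemma dn_top {p : ℕ} {N : ℝ → ℝ} (hN : Dens N) : dn p N univ = ⊤ := by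
  have h1 : dn p N univ = ∫⁻ _, 1 ∂(dn p N) := by
    rw [lintegral_one]
  rw [h1, dn_lintegral p hN.meas measurable_const, eq_top_iff, ← mu_top hN]
  have h2 : mu N univ = ∫⁻ y in Ioi (0 : ℝ), ENNReal.ofReal (N y) := by
    unfold mu
    rw [withDensity_apply _ MeasurableSet.univ, Measure.restrict_univ,
      ← setLIntegral_congr Ioi_ae_eq_Ici.symm, ← lintegral_indicator measurableSet_Ici]
    refine lintegral_congr fun y => ?_
    by_cases hy : y ∈ Ici (0 : ℝ)
    · rw [indicator_of_mem hy]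
    · rw [indicator_of_notMem hy, hN.neg y (not_le.1 hy), ENNReal.ofReal_zero]
  rw [h2]
  refine setLIntegral_mono_ae' measurableSet_Ioi (Eventually.of_forall fun y hy => ?_)
  rw [one_mul]
  refine ENNReal.ofReal_le_ofReal ?_
  have h3 : 1 ≤ Real.exp (p * y) :=
    Real.one_le_exp (mul_nonneg (Nat.cast_nonneg p) (le_of_lt hy))
  have h4 := mul_le_mul_of_nonneg_left h3 (hN.nonneg y)
  rwa [mul_one] at h4

private lemma dn_kerpt (p : ℕ) (θ x y : ℝ) :
    Helper25.Ind.ker p (Real.exp x * Complex.exp (θ * Complex.I)) (Real.exp y) =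
      Real.exp (p * (x - y)) * kk p θ (x - y) := by
  unfold kk
  rw [ker_scale _ _ (Real.exp_pos x) (Real.exp_pos y), Nat.floor_natCast,
    ker_scale _ _ (Real.exp_pos (x - y)) one_pos, ← mul_assoc, ← Real.exp_add,
    add_neg_cancel, Real.exp_zero, one_mul]
  congr 1
  rw [Real.exp_sub, one_div, inv_div]

private lemma dn_ker (p : ℕ) {N : ℝ → ℝ} (hN : Dens N) (θ x : ℝ) :
    ∫ t, Helper25.Ind.ker p (Real.exp x * Complex.exp (θ * Complex.I)) t ∂(dn p N) =
      Real.exp (p * x) * ∫ y, kk p θ (x - y) * N y := by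
  have hpt : ∀ y : ℝ, Helper25.Ind.ker p (Real.exp x * Complex.exp (θ * Complex.I))
      (Real.exp y) * (N y * Real.exp (p * y)) = Real.exp (p * x) * (kk p θ (x - y) * N y) := by
    intro y
    rw [dn_kerpt]
    have h1 : (p : ℝ) * x = p * (x - y) + p * y := by ring
    rw [h1, Real.exp_add]
    ring
  rw [dn_integral p hN.meas hN.nonneg,
    setIntegral_congr_fun measurableSet_Ioi (fun y _ => hpt y), integral_const_mul]
  congr 1
  refine setIntegral_eq_integral_of_ae_compl_eq_zero ?_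
  have h0 : ∀ᵐ y : ℝ, y ≠ 0 := by
    rw [ae_iff]
    simp
  filter_upwards [h0] with y hy0 hy
  rw [hN.neg y (lt_of_le_of_ne (not_lt.1 hy) hy0), mul_zero]

private lemma limsup_close {u v : ℝ → ℝ} (h : Tendsto (fun x => u x - v x) atTop (𝓝 0)) :
    limsup (fun x : ℝ => ((u x : ℝ) : EReal)) atTop ≤
      limsup (fun x : ℝ => ((v x : ℝ) : EReal)) atTop := by
  refine EReal.le_of_forall_lt_iff_le.1 fun z hz => ?_
  obtain ⟨z', hz1, hz2⟩ := EReal.lt_iff_exists_real_btwn.1 hz
  have hz3 : z' < z := by exact_mod_cast hz2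
  refine limsup_le_of_le (h := ?_)
  filter_upwards [eventually_lt_of_limsup_lt hz1, h.eventually (gt_mem_nhds (sub_pos.2 hz3))]
    with x h1 h2
  have h3 : v x < z' := by exact_mod_cast h1
  have h4 : u x ≤ z := by linarith
  exact_mod_cast h4

private lemma limsup_close' {u v : ℝ → ℝ} (h : Tendsto (fun x => u x - v x) atTop (𝓝 0)) :
    limsup (fun x : ℝ => ((u x : ℝ) : EReal)) atTop =
      limsup (fun x : ℝ => ((v x : ℝ) : EReal)) atTop := by
  refine le_antisymm (limsup_close h) (limsup_close ?_)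
  have h1 := h.neg
  rw [neg_zero] at h1
  refine h1.congr fun x => ?_
  ring

private lemma bb_star {p : ℕ} (_hp : 1 ≤ p) : 0 < bb p (Helper25.Ind.star p) := by
  unfold bb Helper25.Ind.star
  rw [Nat.floor_natCast]
  have h1 : Real.cos ((p : ℝ) * (Real.pi - Real.pi / (2 * p + 1))) =
      (-1) ^ p * Real.cos (p * (Real.pi / (2 * p + 1))) := by
    rw [mul_sub, Real.cos_sub, Real.cos_nat_mul_pi, Real.sin_nat_mul_pi, zero_mul, add_zero]
  rw [h1, (kerb_cos p).1, ← mul_assoc, ← pow_add]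
  have h2 : ((-1 : ℝ)) ^ (p + p) = 1 := by
    rw [← two_mul, pow_mul]
    norm_num
  rw [h2, one_mul]
  exact s0_pos p

theorem realize {p : ℕ} (hp : 1 ≤ p) {N : ℝ → ℝ} (hN : Dens N) :
    ∃ (f : ℂ → ℂ) (a : ℕ → ℝ) (Q : Polynomial ℂ), IsN p f ∧ FDat p f a Q ∧
      ∀ θ, 0 ≤ θ → θ < Real.pi → indicatorOf p f θ = UL p N θ := by
  have hp0 : (0 : ℝ) < p := by exact_mod_cast hp
  have hpi := Real.pi_pos
  -- the measure
  obtain ⟨A, hA, hG⟩ := dn_growth (p := p) hN (σ := p + 1 / 2) (by linarith)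
  obtain ⟨a, E₀, ha1, hGa, hle, hdisc⟩ := discretize_int hp (by linarith) (by linarith) hA hG
    (dn_one p N) (dn_top hN)
  have ha0 : ∀ k, 0 < a k := fun k => lt_of_lt_of_le one_pos (ha1 k)
  -- summability
  have hsum : ∀ σ : ℝ, (p : ℝ) < σ → Summable fun i => a i ^ (-σ) := by
    intro σ hσ
    obtain ⟨B, hB, hGB⟩ := dn_growth (p := p) hN (σ := (p + σ) / 2) (by linarith)
    have hcard : ∀ R : ℝ, 1 ≤ R → ∀ F : Finset ℕ, (∀ i ∈ F, a i ≤ R) →
        (F.card : ℝ) ≤ B * R ^ ((p + σ) / 2) := by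
      intro R hR F hF
      have h1 : ((F.card : ℕ) : ENNReal) ≤ diracs a (Iic R) := by
        rw [suff_diracs_Iic]
        refine le_trans (le_of_eq ?_) (ENNReal.sum_le_tsum F)
        rw [Finset.sum_congr rfl fun i hi => indicator_of_mem (show a i ∈ Iic R from hF i hi) _]
        simp
      have h2 := (h1.trans (hle R)).trans (hGB.2 R (by linarith))
      have h3 := (ENNReal.le_ofReal_iff_toReal_le (ENNReal.natCast_ne_top _)
        (by positivity)).1 h2
      simpa using h3
    have hfin : ∃ S : Finset ℕ, ∀ i, a i ≤ 1 → i ∈ S := by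
      refine ⟨∅, fun i hi => ?_⟩
      exfalso
      have h1 : (1 : ENNReal) ≤ diracs a (Iic 1) := by
        rw [suff_diracs_Iic]
        refine le_trans (le_of_eq ?_) (ENNReal.le_tsum i)
        rw [indicator_of_mem (show a i ∈ Iic 1 from hi)]
        rfl
      have h2 := h1.trans (hle 1)
      rw [dn_one p N] at h2
      exact absurd h2 (by simp)
    exact had_summable ha0 hfin (σ := (p + σ) / 2) (by linarith) (by linarith) hcard
  have hs1 : Summable fun i => (a i)⁻¹ ^ (p + 1) :=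
    suff_summable_inv (by linarith) (by linarith) hA ha1 hGa
  obtain ⟨g, hgd, -, hgz, hglog⟩ := exists_canonical a ha0 hs1
  set f : ℂ → ℂ := fun z => Complex.exp ((E₀ : ℂ) * (-z) ^ p) * g z with hf
  have hfz : ∀ z, f z = 0 ↔ ∃ i, z = -(a i : ℂ) := by
    intro z
    rw [← hgz z]
    simp only [hf, mul_eq_zero, Complex.exp_ne_zero, false_or]
  have hfg : ∀ z, f z ≠ 0 → g z ≠ 0 := by
    intro z hz h
    apply hz
    simp only [hf, h, mul_zero]
  have hnorm : ∀ z, ‖f z‖ = Real.exp (E₀ * ((-z) ^ p).re) * ‖g z‖ := by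
    intro z
    simp only [hf]
    rw [norm_mul, Complex.norm_exp, Complex.re_ofReal_mul]
  have hlogf : ∀ z, f z ≠ 0 → (Summable fun i => Helper25.Ind.ker p z (a i)) ∧
      Real.log ‖f z‖ = E₀ * ((-z) ^ p).re + ∑' i, Helper25.Ind.ker p z (a i) := by
    intro z hz
    obtain ⟨h1, h2⟩ := hglog z (hfg z hz)
    refine ⟨h1, ?_⟩
    rw [hnorm, Real.log_mul (Real.exp_pos _).ne' (norm_ne_zero_iff.2 (hfg z hz)), Real.log_exp, h2]
  have hfd : Differentiable ℂ f := by
    have h1 : Differentiable ℂ fun z : ℂ => Complex.exp ((E₀ : ℂ) * (-z) ^ p) := by fun_prop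
    exact h1.mul hgd
  -- order
  have hord : OrderLE p f := by
    refine ⟨hfd, fun σ hσ => ?_⟩
    obtain ⟨C, hC, hCb⟩ := norm_primary_le p
    obtain ⟨τ, hτ1, hτ2, hτ3⟩ : ∃ τ : ℝ, (p : ℝ) < τ ∧ τ ≤ p + 1 ∧ τ ≤ σ := by
      refine ⟨min σ (p + 1), lt_min hσ (by linarith), min_le_right _ _, min_le_left _ _⟩
    have hT := tendsto_sum_Phi hτ1 hτ2 a ha0 (hsum τ hτ1)
    have hT1 : Tendsto (fun r : ℝ => r ^ ((p : ℝ) - τ)) atTop (𝓝 0) := by
      have h := tendsto_rpow_neg_atTop (y := τ - p) (by linarith)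
      refine h.congr fun r => ?_
      rw [neg_sub]
    have hT2 : Tendsto (fun r : ℝ => |E₀| * r ^ ((p : ℝ) - τ) +
        C * ((∑' i, Phi p (r / a i)) / r ^ τ)) atTop (𝓝 (|E₀| * 0 + C * 0)) :=
      (hT1.const_mul _).add (hT.const_mul _)
    rw [mul_zero, mul_zero, add_zero] at hT2
    obtain ⟨R, hR⟩ := eventually_atTop.1 (hT2.eventually (gt_mem_nhds one_pos))
    refine ⟨max R 1, fun z hz => ?_⟩
    have hz1 : 1 ≤ ‖z‖ := (le_max_right _ _).trans hz
    have hz0 : 0 < ‖z‖ := lt_of_lt_of_le one_pos hz1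
    by_cases hfz0 : f z = 0
    · rw [hfz0, norm_zero]
      exact (Real.exp_pos _).le
    obtain ⟨h1, h2⟩ := hlogf z hfz0
    have hPs : Summable fun i => Phi p (‖z‖ / a i) := summable_Phi hτ1 hτ2 a ha0 (hsum τ hτ1) hz0.le
    have hker : ∀ i, Helper25.Ind.ker p z (a i) ≤ C * Phi p (‖z‖ / a i) := by
      intro i
      have h3 := hCb (-z / (a i : ℂ))
      have h4 : ‖-z / (a i : ℂ)‖ = ‖z‖ / a i := by
        rw [norm_div, norm_neg, Complex.norm_real, Real.norm_of_nonneg (ha0 i).le]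
      rw [h4] at h3
      unfold Helper25.Ind.ker
      rcases eq_or_ne (primary p (-z / (a i : ℂ))) 0 with h5 | h5
      · rw [h5, norm_zero, Real.log_zero]
        exact mul_nonneg hC.le (Phi_nonneg p (div_nonneg hz0.le (ha0 i).le))
      · rw [Real.log_le_iff_le_exp (norm_pos_iff.2 h5)]
        exact h3
    have hts : ∑' i, Helper25.Ind.ker p z (a i) ≤ C * ∑' i, Phi p (‖z‖ / a i) := by
      rw [← tsum_mul_left]
      exact h1.tsum_le_tsum hker (hPs.mul_left C)
    have hre : E₀ * ((-z) ^ p).re ≤ |E₀| * ‖z‖ ^ (p : ℝ) := by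
      refine (le_abs_self _).trans ?_
      rw [abs_mul]
      refine mul_le_mul_of_nonneg_left ((Complex.abs_re_le_norm _).trans (le_of_eq ?_))
        (abs_nonneg _)
      rw [norm_pow, norm_neg, Real.rpow_natCast]
    have hR1 := hR ‖z‖ ((le_max_left _ _).trans hz)
    have hzt : 0 < ‖z‖ ^ τ := Real.rpow_pos_of_pos hz0 _
    have hlog : Real.log ‖f z‖ ≤ ‖z‖ ^ τ := by
      rw [h2]
      have h6 : |E₀| * ‖z‖ ^ (p : ℝ) + C * ∑' i, Phi p (‖z‖ / a i) =
          (|E₀| * ‖z‖ ^ ((p : ℝ) - τ) + C * ((∑' i, Phi p (‖z‖ / a i)) / ‖z‖ ^ τ)) *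
            ‖z‖ ^ τ := by
        rw [add_mul, mul_assoc, ← Real.rpow_add hz0, sub_add_cancel, mul_assoc,
          div_mul_cancel₀ _ hzt.ne']
      have h7 := mul_le_mul_of_nonneg_right hR1.le hzt.le
      rw [← h6, one_mul] at h7
      linarith
    rw [← Real.log_le_iff_le_exp (norm_pos_iff.2 hfz0)]
    exact hlog.trans (Real.rpow_le_rpow_of_exponent_le hz1 hτ3)
  -- the indicator
  have hind : ∀ θ, 0 ≤ θ → θ < Real.pi → indicatorOf p f θ = UL p N θ := by
    intro θ h0 h1
    have habs : |θ| < Real.pi := by rwa [abs_of_nonneg h0]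
    have hne : ∀ x : ℝ, f (Real.exp x * Complex.exp (θ * Complex.I)) ≠ 0 := fun x =>
      suff_ne_zero_of_slit ha0 hfz (suff_slit (Real.exp_pos x) habs)
    have hδ : 0 < Real.pi - θ := by linarith
    have hs : 0 < Real.sin ((Real.pi - θ) / 2) :=
      Real.sin_pos_of_pos_of_lt_pi (by linarith) (by linarith)
    have key : ∀ x : ℝ, |Real.log ‖f (Real.exp x * Complex.exp (θ * Complex.I))‖ /
        Real.exp x ^ (p : ℝ) - ∫ y, kk p θ (x - y) * N y| ≤
          Phi (p - 1) (Real.exp x) / Real.exp x ^ (p : ℝ) / Real.sin ((Real.pi - θ) / 2) := by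
      intro x
      have hsl := suff_slit (Real.exp_pos x) habs
      have h2 := hdisc (Real.pi - θ) hδ (by linarith) _ hsl (by
        rw [suff_arg (Real.exp_pos x) habs, abs_of_nonneg h0]
        linarith)
      rw [suff_integral_diracs a (integrable_ker (by linarith) (by linarith) hA hGa hsl),
        suff_norm (Real.exp_pos x).le, dn_ker p hN] at h2
      obtain ⟨-, h3⟩ := hlogf _ (hne x)
      have h4 : Real.log ‖f (Real.exp x * Complex.exp (θ * Complex.I))‖ -
          Real.exp (p * x) * ∫ y, kk p θ (x - y) * N y =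
          (∑' k, Helper25.Ind.ker p (Real.exp x * Complex.exp (θ * Complex.I)) (a k)) -
            Real.exp (p * x) * (∫ y, kk p θ (x - y) * N y) +
            E₀ * ((-(Real.exp x * Complex.exp (θ * Complex.I))) ^ p).re := by
        rw [h3]
        ring
      have h5 : Real.exp x ^ (p : ℝ) = Real.exp (p * x) := by
        rw [← Real.exp_mul, mul_comm]
      rw [← h4] at h2
      rw [h5, div_right_comm]
      have h6 : Real.log ‖f (Real.exp x * Complex.exp (θ * Complex.I))‖ / Real.exp (p * x) -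
          ∫ y, kk p θ (x - y) * N y =
          (Real.log ‖f (Real.exp x * Complex.exp (θ * Complex.I))‖ -
          Real.exp (p * x) * ∫ y, kk p θ (x - y) * N y) / Real.exp (p * x) := by
        rw [sub_div, mul_div_cancel_left₀ _ (Real.exp_pos _).ne']
      rw [h6, abs_div, abs_of_pos (Real.exp_pos _)]
      exact div_le_div_of_nonneg_right h2 (Real.exp_pos _).le
    have hsmall : Tendsto (fun x : ℝ => Phi (p - 1) (Real.exp x) / Real.exp x ^ (p : ℝ) /
        Real.sin ((Real.pi - θ) / 2)) atTop (𝓝 0) := by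
      have h2 : Tendsto (fun r : ℝ => Phi (p - 1) r / r ^ (p : ℝ)) atTop (𝓝 0) := by
        rw [Metric.tendsto_atTop]
        intro ε hε
        have hp1 : ((p - 1 : ℕ) : ℝ) < p := by
          have : p - 1 < p := by omega
          exact_mod_cast this
        obtain ⟨R, hR, hRb⟩ := suff_Phi_small hp1 (half_pos hε)
        refine ⟨R, fun r hr => ?_⟩
        have hr0 : 0 < r := lt_of_lt_of_le hR hr
        have hrp : 0 < r ^ (p : ℝ) := Real.rpow_pos_of_pos hr0 _
        rw [Real.dist_eq, sub_zero, abs_of_nonneg (div_nonneg (Phi_nonneg _ hr0.le) hrp.le)]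
        have h3 : Phi (p - 1) r / r ^ (p : ℝ) ≤ ε / 2 := by
          rw [div_le_iff₀ hrp]
          exact hRb r hr
        linarith
      have h3 := (h2.comp Real.tendsto_exp_atTop).div_const (Real.sin ((Real.pi - θ) / 2))
      rw [zero_div] at h3
      exact h3
    have h2 : Tendsto (fun x : ℝ => Real.log ‖f (Real.exp x * Complex.exp (θ * Complex.I))‖ /
        Real.exp x ^ (p : ℝ) - ∫ y, kk p θ (x - y) * N y) atTop (𝓝 0) :=
      squeeze_zero_norm key hsmall
    unfold UL
    rw [← limsup_close' h2]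
    have h3 : indicatorOf p f θ = limsup (fun x : ℝ => ratio p f θ (Real.exp x)) atTop := by
      unfold indicatorOf limsup
      have h4 : map (ratio p f θ) atTop = map (fun x : ℝ => ratio p f θ (Real.exp x)) atTop := by
        conv_lhs => rw [← Real.map_exp_atTop]
        rw [Filter.map_map]
        rfl
      rw [h4]
    rw [h3]
    congr 1
    funext x
    unfold ratio
    rw [if_neg (hne x)]
  -- the indicator is infinite at `star p`
  have hst0 := star_nonneg p
  have hst1 := star_lt_pi p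
  have htop : indicatorOf p f (Helper25.Ind.star p) = ⊤ := by
    rw [hind _ hst0 hst1]
    obtain ⟨C₁, hC₁, hb₁⟩ := kk_right hp hst0 hst1
    obtain ⟨C₂, hC₂, hb₂⟩ := kk_left hp hst0 hst1
    have hbp : 0 < bb p (Helper25.Ind.star p) / p := div_pos (bb_star hp) hp0
    have hcont : Continuous (kk p (Helper25.Ind.star p)) := (ktar_kk hp hst0 hst1).choose_spec.2.cont
    have hP := polya (γ := 1 / 2) (C := max C₁ C₂) (b := bb p (Helper25.Ind.star p) / p)
      (K := kk p (Helper25.Ind.star p)) (by norm_num) (hC₁.trans (le_max_left _ _)) hbp hcont.measurable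
      (fun s hs => by
        have h2 := hb₁ s hs
        have h3 : kk p (Helper25.Ind.star p) s + bt p (Helper25.Ind.star p) = kk p (Helper25.Ind.star p) s - bb p (Helper25.Ind.star p) / p := by
          unfold bt
          ring
        rw [h3] at h2
        exact h2.trans (mul_le_mul_of_nonneg_right (le_max_left _ _) (Real.exp_pos _).le))
      (fun s hs => (hb₂ s hs).trans
        (mul_le_mul_of_nonneg_right (le_max_right _ _) (Real.exp_pos _).le))
      (mu_tame hN) (mu_top hN)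
    have hint : ∀ x : ℝ, ∫ y, kk p (Helper25.Ind.star p) (x - y) ∂(mu N) =
        ∫ y, kk p (Helper25.Ind.star p) (x - y) * N y := by
      intro x
      unfold mu
      rw [integral_withDensity_eq_integral_toReal_smul hN.meas.ennreal_ofReal
        (Eventually.of_forall fun _ => ENNReal.ofReal_lt_top)]
      refine integral_congr_ae (Eventually.of_forall fun y => ?_)
      simp only [smul_eq_mul]
      rw [ENNReal.toReal_ofReal (hN.nonneg y), mul_comm]
    rw [EReal.eq_top_iff_forall_lt]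
    intro R
    refine lt_of_lt_of_le (b := ((R + 1 : ℝ) : EReal)) (by exact_mod_cast lt_add_one R) ?_
    unfold UL
    refine le_limsup_of_frequently_le ?_
    rw [frequently_atTop]
    intro X
    obtain ⟨x, hx1, hx2⟩ := hP (R + 1) X
    refine ⟨x, hx1, ?_⟩
    rw [hint] at hx2
    exact_mod_cast hx2
  have hnsum : ¬ Summable fun i => a i ^ (-(p : ℝ)) := by
    intro hs
    have hQ : (Polynomial.C ((E₀ : ℂ) * (-1) ^ p) * Polynomial.X ^ p : Polynomial ℂ).natDegree ≤ p :=
      Polynomial.natDegree_C_mul_X_pow_le _ _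
    obtain ⟨A', B', h⟩ := indicator_of_summable hp hord ha0 hQ hs hfz (fun z hz => by
      obtain ⟨h1, h2⟩ := hlogf z hz
      refine ⟨h1, ?_⟩
      rw [h2]
      congr 1
      rw [Polynomial.eval_mul, Polynomial.eval_C, Polynomial.eval_pow, Polynomial.eval_X,
        mul_assoc, ← mul_pow, neg_one_mul, Complex.re_ofReal_mul])
    rw [h] at htop
    exact EReal.coe_ne_top _ htop
  refine ⟨f, a, Polynomial.C ((E₀ : ℂ) * (-1) ^ p) * Polynomial.X ^ p, ?_, ?_, hind⟩
  · refine ⟨hfd, ?_, hord.2, ?_⟩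
    · intro z hz
      obtain ⟨i, hi⟩ := (hfz z).1 hz
      rw [hi]
      constructor
      · simp
      · simp only [Complex.neg_re, Complex.ofReal_re]
        linarith [ha0 i]
    · intro σ hσ R
      have h1 := frequently_le_of_lt_indicatorOf (ρ := p) (θ := Helper25.Ind.star p) (A := 1) (f := f)
        (by rw [htop]; exact EReal.coe_lt_top _)
      obtain ⟨r, hr, hr1⟩ := (h1.and_eventually (eventually_ge_atTop (max R 1))).exists
      have hr2 : 1 ≤ r := (le_max_right _ _).trans hr1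
      refine ⟨r * Complex.exp (Helper25.Ind.star p * Complex.I), ?_, ?_⟩
      · rw [suff_norm (by linarith)]
        exact (le_max_left _ _).trans hr1
      · rw [suff_norm (by linarith)]
        refine le_trans (Real.exp_le_exp.2 ?_) hr
        rw [one_mul]
        exact Real.rpow_le_rpow_of_exponent_le hr2 hσ.le
  · refine ⟨hord, inferInstance, ha0, Polynomial.natDegree_C_mul_X_pow_le _ _, ?_, hsum, hnsum, hfz,
      ?_⟩
    · rw [Polynomial.coeff_C_mul, Polynomial.coeff_X_pow, if_pos rfl, mul_one]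
      have h1 : ((E₀ : ℂ) * (-1) ^ p) = ((E₀ * (-1) ^ p : ℝ) : ℂ) := by
        push_cast
        rfl
      rw [h1, Complex.ofReal_im]
    · intro z hz
      obtain ⟨h1, h2⟩ := hlogf z hz
      refine ⟨h1, ?_⟩
      rw [h2]
      congr 1
      rw [Polynomial.eval_mul, Polynomial.eval_C, Polynomial.eval_pow, Polynomial.eval_X,
        mul_assoc, ← mul_pow, neg_one_mul, Complex.re_ofReal_mul]

end Pool.Agent.IND2I
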