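import Pool.Agent.IND2I.Loc

/-!
# IND2I, module Tot: the total surplus is at least `-C (M+1)/Λ`, the supercritical mass is bounded

PROOF.  Let `N = ∑ n_i(ℝ)`.  `V = ∑ cb i n_i(ℝ) + ∑_j ∫ (cl j - pl j x) dl_j - Λ Dtot - a ∑ ∫ E_i(x + M) dn_i + a E₀(M)`
with the tail integrals `E` (`tail_kb_bdd` with `R = L₁`, `tail_k0_le`).  `cl j - pl j x ≥ -|cl j|` always (`pl ≤ 0`), and
`≥ 0` for `x < -M` by `hal` (`tail_kl_mono`: `pl j x ≤ a ∫_{Ioi 0} kl`).  `l_j (Ici 0) ≤ K` (`Half.mom`).  `l_j ([-M, 0])`: cover by the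
at most `M + 1` intervals `[y-1, y+1]`, `y = -k`, `0 ≤ k ≤ M` natural (and `y = -M`): `loc_mass`, `D ≤ β₀`, `B ≤ N`, so
`l_j ([-M, 0]) ≤ C (M + 1)(1 + N)`.  `l_j ([-M - L₁, -M])`: `loc_upper` at `y = -M`, `|kl j|` has a positive minimum on the compact
interval `[-L₁, 0]` (continuous, nonzero): `≤ C (1 + N)` (only needed for the last claim).  Hence `V ≥ -Λ Dtot - C' (M + 1)(1 + N)`, and `N ≤ (β₀ - Dtot)/β_min`.  With `V ≤ v`:
if `Dtot < 0` then `Λ |Dtot| ≤ C'' (M + 1)(1 + |Dtot|)`, so `|Dtot| ≤ 2 C'' (M + 1)/Λ` for `Λ ≥ 2 C'' (M + 1)`.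
-/

set_option autoImplicit false

namespace Pool.Agent.IND2I

open MeasureTheory Set

namespace Sys

variable {ι lam : Type} [Fintype ι] [Fintype lam] (S : Sys ι lam)

theorem tot_N (n : ι → Measure ℝ) :
    ∑ i, (n i).real univ ≤ (∑ i, 1 / S.β i) * (S.β₀ - S.Dtot n) := by
  have h1 : S.β₀ - S.Dtot n = ∑ i, S.β i * (n i).real univ := by unfold Dtot; ring
  rw [h1]
  have hnn : ∀ i, 0 ≤ S.β i * (n i).real univ :=
    fun i => mul_nonneg (S.hβ i).le measureReal_nonneg
  rw [Finset.sum_mul]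
  apply Finset.sum_le_sum
  intro i _
  have h2 : S.β i * (n i).real univ ≤ ∑ i, S.β i * (n i).real univ :=
    Finset.single_le_sum (f := fun i => S.β i * (n i).real univ) (fun i _ => hnn i)
      (Finset.mem_univ i)
  have hb := S.hβ i
  have h3 : (n i).real univ = 1 / S.β i * (S.β i * (n i).real univ) := by
    field_simp
  calc (n i).real univ = 1 / S.β i * (S.β i * (n i).real univ) := h3
    _ ≤ 1 / S.β i * ∑ i, S.β i * (n i).real univ :=
        mul_le_mul_of_nonneg_left h2 (by positivity)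

theorem tot_loc {n : ι → Measure ℝ} (hn : ∀ i, IsFiniteMeasure (n i)) {y : ℝ} (hy : y ≤ 0) :
    S.D n y + S.C * S.B n y + S.C * Real.exp (S.γ / 2 * y) ≤
      S.β₀ + S.C * (∑ i, (n i).real univ) + S.C := by
  have h1 := S.D_le hn y
  have h2 := S.B_le hn y
  have hγ := S.hγ0
  have h3 : Real.exp (S.γ / 2 * y) ≤ 1 :=
    Real.exp_le_one_iff.2 (mul_nonpos_of_nonneg_of_nonpos (by linarith) hy)
  have hC := S.hC
  have h4 : S.C * S.B n y ≤ S.C * (∑ i, (n i).real univ) :=
    mul_le_mul_of_nonneg_left h2 (by linarith)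
  have h5 : S.C * Real.exp (S.γ / 2 * y) ≤ S.C * 1 :=
    mul_le_mul_of_nonneg_left h3 (by linarith)
  linarith

theorem tot_cover {μ : Measure ℝ} [IsFiniteMeasure μ] {M A : ℝ} (hM : 0 ≤ M) (hA : 0 ≤ A)
    (h : ∀ y, -M ≤ y → y ≤ 0 → μ.real (Icc (y - 1) (y + 1)) ≤ A) :
    μ.real (Icc (-M) 0) ≤ (M + 1) * A := by
  have hsub : Icc (-M) 0 ⊆
      ⋃ k ∈ Finset.range (⌊M⌋₊ + 1), Icc (-(k:ℝ) - 1) (-(k:ℝ) + 1) := by
    intro x hx
    simp only [mem_iUnion, Finset.mem_range, exists_prop]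
    refine ⟨⌊-x⌋₊, ?_, ?_⟩
    · exact Nat.lt_succ_of_le (Nat.floor_le_floor (by linarith [hx.1]))
    · have h1 := Nat.floor_le (show 0 ≤ -x by linarith [hx.2])
      have h2 := Nat.lt_floor_add_one (-x)
      constructor <;> linarith
  calc μ.real (Icc (-M) 0)
      ≤ μ.real (⋃ k ∈ Finset.range (⌊M⌋₊ + 1), Icc (-(k:ℝ) - 1) (-(k:ℝ) + 1)) :=
        measureReal_mono hsub (measure_ne_top _ _)
    _ ≤ ∑ k ∈ Finset.range (⌊M⌋₊ + 1), μ.real (Icc (-(k:ℝ) - 1) (-(k:ℝ) + 1)) :=
        measureReal_biUnion_finset_le _ _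
    _ ≤ ∑ k ∈ Finset.range (⌊M⌋₊ + 1), A := by
        apply Finset.sum_le_sum
        intro k hk
        have hk' : (k : ℝ) ≤ M := by
          have := Nat.lt_succ_iff.1 (Finset.mem_range.1 hk)
          exact (Nat.le_floor_iff hM).1 this
        have hk0 : (0 : ℝ) ≤ k := Nat.cast_nonneg k
        exact h _ (by linarith) (by linarith)
    _ = ((⌊M⌋₊ : ℝ) + 1) * A := by simp
    _ ≤ (M + 1) * A := by
        have := Nat.floor_le hM
        exact mul_le_mul_of_nonneg_right (by linarith) hA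

theorem tot_pos_half {μ : Measure ℝ} [IsFiniteMeasure μ] {κ : ℝ} (hκ : 0 < κ)
    (hi : Integrable (fun x => Real.exp (κ * x)) μ) :
    μ.real (Ici 0) ≤ ∫ x, Real.exp (κ * x) ∂μ := by
  have h1 : μ.real (Ici 0) = ∫ x, (Ici (0:ℝ)).indicator (fun _ => (1:ℝ)) x ∂μ := by
    rw [integral_indicator measurableSet_Ici]
    simp [Measure.real]
  rw [h1]
  apply integral_mono
  · exact (integrable_const (1:ℝ)).indicator measurableSet_Ici
  · exact hi
  · intro x
    by_cases hx : x ∈ Ici (0:ℝ)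
    · simp only [indicator_of_mem hx]
      exact Real.one_le_exp (mul_nonneg hκ.le hx)
    · simp only [indicator_of_notMem hx]
      exact (Real.exp_pos _).le

/-- masses of the left end points on `Ici 0` -/
theorem tot_right {a κ K Λ M L₁ : ℝ} {n : ι → Measure ℝ} {l : lam → Measure ℝ} (hκ : 0 < κ)
    (H : S.Half a κ K Λ M L₁ n l) (j : lam) : (l j).real (Ici 0) ≤ K := by
  have := H.finl j
  have h1 := tot_pos_half hκ (H.intl j)
  have h2 : ∫ x, Real.exp (κ * x) ∂(l j) ≤ ∑ j, ∫ x, Real.exp (κ * x) ∂(l j) :=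
    Finset.single_le_sum (f := fun j => ∫ x, Real.exp (κ * x) ∂(l j))
      (fun j _ => integral_nonneg fun x => (Real.exp_pos _).le) (Finset.mem_univ j)
  have h3 : 0 ≤ ∑ i, ∫ x, Real.exp (κ * x) ∂(n i) :=
    Finset.sum_nonneg fun i _ => integral_nonneg fun x => (Real.exp_pos _).le
  have h4 := H.mom
  linarith

/-- masses of the left end points on `Icc (-M) 0` -/
theorem tot_mid {a κ K Λ M L₁ : ℝ} {n : ι → Measure ℝ} {l : lam → Measure ℝ} (hM : 0 ≤ M)
    (H : S.Half a κ K Λ M L₁ n l) (j : lam) :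
    (l j).real (Icc (-M) 0) ≤
      (M + 1) * ((S.β₀ + S.C * (∑ i, (n i).real univ) + S.C) / S.c) := by
  have := H.finl j
  have hN : 0 ≤ ∑ i, (n i).real univ := Finset.sum_nonneg fun i _ => measureReal_nonneg
  have hc := S.hc
  have hC := S.hC
  have hb := S.hβ₀
  have hCN : 0 ≤ S.C * (∑ i, (n i).real univ) := mul_nonneg (by linarith) hN
  apply tot_cover hM (div_nonneg (by linarith) hc.le)
  intro y h1 h2
  rw [le_div_iff₀ hc]
  have h3 := S.loc_mass H.finn H.finl h2 (H.pos y h1) j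
  have h4 := S.tot_loc H.finn h2
  linarith

/-- masses of the left end points on `Icc (-M - L₁) (-M)` -/
theorem tot_left (j : lam) {L₁ : ℝ} (hL₁ : 0 ≤ L₁) :
    ∃ m > 0, ∀ s ∈ Icc (-L₁) 0, m ≤ |S.kl j s| := by
  have hc : ContinuousOn (fun s => |S.kl j s|) (Icc (-L₁) 0) :=
    (S.hkl j).cont.abs.continuousOn
  obtain ⟨s₀, hs₀, hmin⟩ := isCompact_Icc.exists_isMinOn (⟨0, by simp [hL₁]⟩ :
    (Icc (-L₁) 0).Nonempty) hc
  refine ⟨|S.kl j s₀|, abs_pos.2 ((S.hkl j).neg s₀).ne, fun s hs => hmin hs⟩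

theorem tot_left' {a κ K Λ M L₁ m : ℝ} {n : ι → Measure ℝ} {l : lam → Measure ℝ} (hM : 0 ≤ M)
    (H : S.Half a κ K Λ M L₁ n l) (j : lam) (hm : 0 < m)
    (hmj : ∀ s ∈ Icc (-L₁) 0, m ≤ |S.kl j s|) :
    (l j).real (Icc (-M - L₁) (-M)) ≤
      1 / m * (S.β₀ + S.C * (∑ i, (n i).real univ) + S.C) := by
  have := H.finl j
  have h1 := S.loc_upper H.finn H.finl (y := -M) (by linarith) (H.pos _ le_rfl)
  have h2 := S.tot_loc H.finn (y := -M) (by linarith)
  have h3 : ∫ x, |S.kl j (x - -M)| ∂(l j) ≤ ∑ j, ∫ x, |S.kl j (x - -M)| ∂(l j) :=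
    Finset.single_le_sum (f := fun j => ∫ x, |S.kl j (x - -M)| ∂(l j))
      (fun j _ => integral_nonneg fun x => abs_nonneg _) (Finset.mem_univ j)
  have h4 : m * (l j).real (Icc (-M - L₁) (-M)) ≤ ∫ x, |S.kl j (x - -M)| ∂(l j) := by
    have e : m * (l j).real (Icc (-M - L₁) (-M)) =
        ∫ x, (Icc (-M - L₁) (-M)).indicator (fun _ => m) x ∂(l j) := by
      rw [integral_indicator measurableSet_Icc]
      simp [Measure.real, mul_comm]
    rw [e]
    apply integral_mono
    · exact (integrable_const m).indicator measurableSet_Icc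
    · exact (S.int_kl j (l j) (-M)).abs
    · intro x
      by_cases hx : x ∈ Icc (-M - L₁) (-M)
      · simp only [indicator_of_mem hx]
        exact hmj _ ⟨by linarith [hx.1], by linarith [hx.2]⟩
      · simp only [indicator_of_notMem hx]
        exact abs_nonneg _
  rw [one_div, ← div_eq_inv_mul, le_div_iff₀ hm]
  linarith

/-- lower bound for the cost of the left end points -/
theorem tot_cost {a κ K Λ M L₁ : ℝ} {n : ι → Measure ℝ} {l : lam → Measure ℝ} (ha : 0 ≤ a)
    (H : S.Half a κ K Λ M L₁ n l) (j : lam)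
    (hal : a * ∫ s in Ioi (0 : ℝ), S.kl j s < S.cl j) :
    -(|S.cl j| * (l j).real (Ici (-M))) ≤
      S.cl j * (l j).real univ - ∫ x, S.pl a M j x ∂(l j) := by
  have := H.finl j
  have hcont : Continuous (S.pl a M j) := by
    unfold pl
    exact continuous_const.mul ((S.tail_kl_cont j).comp (continuous_id.add continuous_const))
  have hint : Integrable (S.pl a M j) (l j) := by
    apply Integrable.of_bound (C := a * (2 * S.C / S.γ)) hcont.aestronglyMeasurable
    refine Filter.Eventually.of_forall fun x => ?_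
    have h1 := S.tail_kl_nonpos j (x + M)
    have h2 := S.tail_kl_ge j (x + M)
    rw [Real.norm_eq_abs, pl, abs_mul, abs_of_nonneg ha, abs_of_nonpos h1]
    exact mul_le_mul_of_nonneg_left (by linarith) ha
  have e1 : S.cl j * (l j).real univ - ∫ x, S.pl a M j x ∂(l j) =
      ∫ x, (S.cl j - S.pl a M j x) ∂(l j) := by
    rw [integral_sub (integrable_const _) hint]
    simp [Measure.real, mul_comm]
  have e2 : -(|S.cl j| * (l j).real (Ici (-M))) =
      ∫ x, (Ici (-M)).indicator (fun _ => -|S.cl j|) x ∂(l j) := by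
    rw [integral_indicator measurableSet_Ici]
    simp [Measure.real, mul_comm]
  rw [e1, e2]
  apply integral_mono
  · exact (integrable_const _).indicator measurableSet_Ici
  · exact (integrable_const _).sub hint
  · intro x
    by_cases hx : x ∈ Ici (-M)
    · simp only [indicator_of_mem hx]
      have h1 := S.tail_kl_nonpos j (x + M)
      have h2 : S.pl a M j x ≤ 0 := mul_nonpos_of_nonneg_of_nonpos ha h1
      have h3 := neg_abs_le (S.cl j)
      linarith
    · simp only [indicator_of_notMem hx]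
      have hx' : x + M ≤ 0 := by
        have : x < -M := not_le.1 hx
        linarith
      have h1 := S.tail_kl_mono j hx'
      have h2 : S.pl a M j x ≤ a * ∫ s in Ioi (0 : ℝ), S.kl j s :=
        mul_le_mul_of_nonneg_left h1 ha
      linarith

/-- upper bound for the integral of the action on the supercritical masses -/
theorem tot_pb {a κ K Λ M L₁ : ℝ} {n : ι → Measure ℝ} {l : lam → Measure ℝ} (ha : 0 ≤ a)
    (hL₁ : 0 ≤ L₁) (H : S.Half a κ K Λ M L₁ n l) (i : ι) :
    ∫ x, S.pb a Λ M i x ∂(n i) ≤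
      (-(S.β i * Λ) + a * (S.C / S.γ + (2 * S.β i + S.C) * L₁)) * (n i).real univ := by
  have := H.finn i
  have hcont : Continuous (S.pb a Λ M i) := by
    unfold pb
    exact continuous_const.add (continuous_const.mul
      ((S.tail_kb_cont i).comp (continuous_id.add continuous_const)))
  have hae : ∀ᵐ x ∂(n i), -M - L₁ ≤ x := by
    have := H.supn i
    rw [ae_iff]
    convert this using 2
    ext x
    exact not_le
  have hbd : ∀ᵐ x ∂(n i), |∫ s in Ioi (x + M), (S.kb i s + S.β i)| ≤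
      S.C / S.γ + (2 * S.β i + S.C) * L₁ := by
    filter_upwards [hae] with x hx
    exact S.tail_kb_bdd i hL₁ (by linarith)
  have hint : Integrable (S.pb a Λ M i) (n i) := by
    apply Integrable.of_bound
      (C := |S.β i * Λ| + a * (S.C / S.γ + (2 * S.β i + S.C) * L₁)) hcont.aestronglyMeasurable
    filter_upwards [hbd] with x hx
    rw [Real.norm_eq_abs, pb]
    refine (abs_add_le _ _).trans ?_
    rw [abs_neg, abs_mul a, abs_of_nonneg ha]
    have := mul_le_mul_of_nonneg_left hx ha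
    linarith
  have e : (-(S.β i * Λ) + a * (S.C / S.γ + (2 * S.β i + S.C) * L₁)) * (n i).real univ =
      ∫ x, (-(S.β i * Λ) + a * (S.C / S.γ + (2 * S.β i + S.C) * L₁)) ∂(n i) := by
    rw [integral_const]
    simp [Measure.real, mul_comm]
  rw [e]
  apply integral_mono_ae hint (integrable_const _)
  filter_upwards [hbd] with x hx
  have h1 := (abs_le.1 hx).2
  have h2 := mul_le_mul_of_nonneg_left h1 ha
  simp only [pb]
  linarith

theorem tot_p0 {a Λ M : ℝ} (ha : 0 ≤ a) (hM : 0 ≤ M) :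
    -(S.β₀ * Λ) - a * (S.C / S.γ) ≤ S.p0 a Λ M 0 := by
  have h1 := S.tail_k0_le (t := 0 + M) (by linarith)
  have hγ := S.hγ0
  have hC := S.hC
  have h2 : Real.exp (-(S.γ * (0 + M))) ≤ 1 :=
    Real.exp_le_one_iff.2 (by have := mul_nonneg hγ.le hM; rw [zero_add]; linarith)
  have h3 : S.C / S.γ * Real.exp (-(S.γ * (0 + M))) ≤ S.C / S.γ * 1 :=
    mul_le_mul_of_nonneg_left h2 (by positivity)
  have h4 := (abs_le.1 (h1.trans h3)).1
  have h5 := mul_le_mul_of_nonneg_left h4 ha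
  simp only [p0]
  linarith

omit [Fintype ι] [Fintype lam] in
theorem tot_a1 {M N : ℝ} (hM : 0 ≤ M) (hN : 0 ≤ N) : 1 ≤ (M + 1) * (1 + N) := by
  have := mul_nonneg hM hN
  have e : (M + 1) * (1 + N) = 1 + M + N + M * N := by ring
  rw [e]; linarith

omit [Fintype ι] [Fintype lam] in
theorem tot_a2 {M N : ℝ} (hM : 0 ≤ M) (hN : 0 ≤ N) : N ≤ (M + 1) * (1 + N) := by
  have := mul_nonneg hM hN
  have e : (M + 1) * (1 + N) = 1 + M + N + M * N := by ring
  rw [e]; linarith

omit [Fintype ι] [Fintype lam] in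
theorem tot_a3 {b C N : ℝ} (hb : 0 ≤ b) (hN : 0 ≤ N) : b + C * N + C ≤ (b + C) * (1 + N) := by
  have := mul_nonneg hb hN
  have e : (b + C) * (1 + N) = b + C * N + C + b * N := by ring
  rw [e]; linarith

theorem tot {a : ℝ} (ha : 0 ≤ a) (hal : ∀ j, a * ∫ s in Ioi (0 : ℝ), S.kl j s < S.cl j)
    {L₁ : ℝ} (hL₁ : 0 ≤ L₁) {κ : ℝ} (hκ : 0 < κ) (K : ℝ) :
    ∃ C₁ : ℝ, 1 ≤ C₁ ∧ ∀ Λ M n l, 1 ≤ M → C₁ * (M + 1) ≤ Λ → S.Half a κ K Λ M L₁ n l →
      -(C₁ * (M + 1) / Λ) ≤ S.Dtot n ∧ (∑ i, (n i).real univ ≤ C₁) ∧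
      ∀ j, (l j).real univ ≤ C₁ * (M + 1) := by
  classical
  choose m hm0 hm using fun j => S.tot_left j hL₁
  have hC := S.hC
  have hc := S.hc
  have hγ := S.hγ0
  have hb0 := S.hβ₀
  set R : ℝ := ∑ i, 1 / S.β i with hRdef
  have hR : 0 ≤ R := Finset.sum_nonneg fun i _ => by have := S.hβ i; positivity
  set Ccb : ℝ := ∑ i, (|S.cb i| + a * (S.C / S.γ + (2 * S.β i + S.C) * L₁)) with hCcb
  have hCE : ∀ i, 0 ≤ a * (S.C / S.γ + (2 * S.β i + S.C) * L₁) := by
    intro i
    have := S.hβ i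
    positivity
  have hCcb0 : 0 ≤ Ccb := Finset.sum_nonneg fun i _ => add_nonneg (abs_nonneg _) (hCE i)
  set Ccl : ℝ := ∑ j, |S.cl j| with hCcl
  have hCcl0 : 0 ≤ Ccl := Finset.sum_nonneg fun j _ => abs_nonneg _
  set Q : ℝ := ∑ j, 1 / m j with hQ
  have hQ0 : 0 ≤ Q := Finset.sum_nonneg fun j _ => by have := hm0 j; positivity
  set C' : ℝ := |S.v| + Ccb + Ccl * (|K| + (S.β₀ + S.C) / S.c) + a * (S.C / S.γ) with hC'
  have hC'0 : 0 ≤ C' := by positivity
  set R' : ℝ := 1 + R * S.β₀ + R with hR'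
  have hR'0 : 1 ≤ R' := by
    have := mul_nonneg hR hb0.le
    linarith
  set N₀ : ℝ := R * (S.β₀ + 1) with hN₀
  have hN₀0 : 0 ≤ N₀ := by positivity
  set E : ℝ := S.β₀ + S.C * N₀ + S.C with hE
  have hE0 : 0 ≤ E := by positivity
  refine ⟨1 + 2 * (C' * R') + N₀ + E * (Q + 1 / S.c) + |K|, ?_, ?_⟩
  · have h1 : 0 ≤ 2 * (C' * R') := by positivity
    have h2 : 0 ≤ E * (Q + 1 / S.c) := by positivity
    have h3 := abs_nonneg K
    linarith
  intro Λ M n l hM hΛ H
  have hM0 : 0 ≤ M := by linarith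
  set C₁ : ℝ := 1 + 2 * (C' * R') + N₀ + E * (Q + 1 / S.c) + |K| with hC₁
  have hx1 : 0 ≤ 2 * (C' * R') := by positivity
  have hx2 : 0 ≤ E * (Q + 1 / S.c) := by positivity
  have hx3 := abs_nonneg K
  have hC₁1 : 1 ≤ C₁ := by linarith
  have hC₁2 : 2 * (C' * R') ≤ C₁ := by linarith
  have hΛ0 : 0 < Λ := by
    have : 0 < C₁ * (M + 1) := by positivity
    linarith
  set N : ℝ := ∑ i, (n i).real univ with hN
  have hN0 : 0 ≤ N := Finset.sum_nonneg fun i _ => measureReal_nonneg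
  have hNle : N ≤ R * (S.β₀ - S.Dtot n) := S.tot_N n
  have hTpos : 0 ≤ (M + 1) * (1 + N) := by positivity
  have hT1 : 1 ≤ (M + 1) * (1 + N) := tot_a1 hM0 hN0
  have hTN : N ≤ (M + 1) * (1 + N) := tot_a2 hM0 hN0
  -- the masses of the left end points on `Ici (-M)`
  have hlj : ∀ j, (l j).real (Ici (-M)) ≤
      (|K| + (S.β₀ + S.C) / S.c) * ((M + 1) * (1 + N)) := by
    intro j
    have := H.finl j
    have h1 : (l j).real (Ici (-M)) ≤ (l j).real (Icc (-M) 0) + (l j).real (Ici 0) := by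
      refine (measureReal_mono ?_).trans (measureReal_union_le _ _)
      intro x hx
      rcases le_total x 0 with h | h
      · exact Or.inl ⟨hx, h⟩
      · exact Or.inr h
    have h2 := S.tot_mid hM0 H j
    have h3 := (S.tot_right hκ H j).trans (le_abs_self K)
    have h4 : (M + 1) * ((S.β₀ + S.C * (∑ i, (n i).real univ) + S.C) / S.c) ≤
        (S.β₀ + S.C) / S.c * ((M + 1) * (1 + N)) := by
      rw [← hN]
      have h5 : S.β₀ + S.C * N + S.C ≤ (S.β₀ + S.C) * (1 + N) := tot_a3 hb0.le hN0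
      have h6 : (S.β₀ + S.C * N + S.C) / S.c ≤ (S.β₀ + S.C) * (1 + N) / S.c := by gcongr
      calc (M + 1) * ((S.β₀ + S.C * N + S.C) / S.c)
          ≤ (M + 1) * ((S.β₀ + S.C) * (1 + N) / S.c) :=
            mul_le_mul_of_nonneg_left h6 (by linarith)
        _ = (S.β₀ + S.C) / S.c * ((M + 1) * (1 + N)) := by ring
    have h7 : |K| ≤ |K| * ((M + 1) * (1 + N)) := le_mul_of_one_le_right hx3 hT1
    calc (l j).real (Ici (-M)) ≤ (l j).real (Icc (-M) 0) + (l j).real (Ici 0) := h1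
      _ ≤ (S.β₀ + S.C) / S.c * ((M + 1) * (1 + N)) + |K| * ((M + 1) * (1 + N)) := by linarith
      _ = _ := by ring
  -- the main inequality
  have hmain : -(Λ * S.Dtot n) ≤ C' * ((M + 1) * (1 + N)) := by
    have hV := H.val
    have h1 : ∑ i, ∫ x, S.pb a Λ M i x ∂(n i) ≤
        ∑ i, (-(S.β i * Λ) + a * (S.C / S.γ + (2 * S.β i + S.C) * L₁)) * (n i).real univ :=
      Finset.sum_le_sum fun i _ => S.tot_pb ha hL₁ H i
    have h2 : -(∑ j, |S.cl j| * (l j).real (Ici (-M))) ≤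
        ∑ j, S.cl j * (l j).real univ - ∑ j, ∫ x, S.pl a M j x ∂(l j) := by
      rw [← Finset.sum_neg_distrib, ← Finset.sum_sub_distrib]
      exact Finset.sum_le_sum fun j _ => S.tot_cost ha H j (hal j)
    have h3 := S.tot_p0 (Λ := Λ) ha hM0
    have h4 : ∑ j, |S.cl j| * (l j).real (Ici (-M)) ≤
        Ccl * ((|K| + (S.β₀ + S.C) / S.c) * ((M + 1) * (1 + N))) := by
      rw [hCcl, Finset.sum_mul]
      exact Finset.sum_le_sum fun j _ => mul_le_mul_of_nonneg_left (hlj j) (abs_nonneg _)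
    have h5 : ∑ i, (-(S.β i * Λ) + a * (S.C / S.γ + (2 * S.β i + S.C) * L₁)) * (n i).real univ =
        -(Λ * ∑ i, S.β i * (n i).real univ) +
          ∑ i, a * (S.C / S.γ + (2 * S.β i + S.C) * L₁) * (n i).real univ := by
      rw [Finset.mul_sum, ← Finset.sum_neg_distrib, ← Finset.sum_add_distrib]
      exact Finset.sum_congr rfl fun i _ => by ring
    have h6 : ∑ i, a * (S.C / S.γ + (2 * S.β i + S.C) * L₁) * (n i).real univ -
        ∑ i, S.cb i * (n i).real univ ≤ Ccb * N := by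
      rw [← Finset.sum_sub_distrib, hCcb, Finset.sum_mul]
      apply Finset.sum_le_sum
      intro i _
      have hi : (n i).real univ ≤ N :=
        Finset.single_le_sum (f := fun i => (n i).real univ) (fun i _ => measureReal_nonneg)
          (Finset.mem_univ i)
      have hi0 : 0 ≤ (n i).real univ := measureReal_nonneg
      have h7 := neg_abs_le (S.cb i)
      calc a * (S.C / S.γ + (2 * S.β i + S.C) * L₁) * (n i).real univ - S.cb i * (n i).real univ
          = (a * (S.C / S.γ + (2 * S.β i + S.C) * L₁) - S.cb i) * (n i).real univ := by ring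
        _ ≤ (|S.cb i| + a * (S.C / S.γ + (2 * S.β i + S.C) * L₁)) * (n i).real univ :=
            mul_le_mul_of_nonneg_right (by linarith) hi0
        _ ≤ (|S.cb i| + a * (S.C / S.γ + (2 * S.β i + S.C) * L₁)) * N :=
            mul_le_mul_of_nonneg_left hi (add_nonneg (abs_nonneg _) (hCE i))
    have h8 : Ccb * N ≤ Ccb * ((M + 1) * (1 + N)) := mul_le_mul_of_nonneg_left hTN hCcb0
    have h9 : |S.v| ≤ |S.v| * ((M + 1) * (1 + N)) := le_mul_of_one_le_right (abs_nonneg _) hT1
    have h10 : a * (S.C / S.γ) ≤ a * (S.C / S.γ) * ((M + 1) * (1 + N)) :=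
      le_mul_of_one_le_right (by positivity) hT1
    have h11 := le_abs_self S.v
    have h12 : C' * ((M + 1) * (1 + N)) = |S.v| * ((M + 1) * (1 + N)) +
        Ccb * ((M + 1) * (1 + N)) +
        Ccl * ((|K| + (S.β₀ + S.C) / S.c) * ((M + 1) * (1 + N))) +
        a * (S.C / S.γ) * ((M + 1) * (1 + N)) := by rw [hC']; ring
    have h13 : Λ * S.Dtot n = S.β₀ * Λ - Λ * ∑ i, S.β i * (n i).real univ := by
      unfold Dtot; ring
    rw [h12, h13]
    unfold V at hV
    linarith
  -- bound for the total surplus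
  have hD : -(C₁ * (M + 1) / Λ) ≤ S.Dtot n ∧ -1 ≤ S.Dtot n := by
    rcases le_or_gt 0 (S.Dtot n) with h | h
    · refine ⟨?_, by linarith⟩
      have : 0 ≤ C₁ * (M + 1) / Λ := by positivity
      linarith
    · set d := -S.Dtot n with hd
      have hd0 : 0 < d := by linarith
      have h1 : 1 + N ≤ R' * (1 + d) := by
        have h2 : N ≤ R * (S.β₀ + d) := by
          calc N ≤ R * (S.β₀ - S.Dtot n) := hNle
            _ = R * (S.β₀ + d) := by rw [hd]; ring
        have h3 : 0 ≤ R * S.β₀ * d := by positivity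
        have h4 : (1 + R * S.β₀ + R) * (1 + d) =
            1 + R * (S.β₀ + d) + R * S.β₀ * d + d + R := by ring
        rw [hR', h4]
        linarith
      have h2 : Λ * d ≤ C' * R' * (M + 1) * (1 + d) := by
        calc Λ * d = -(Λ * S.Dtot n) := by rw [hd]; ring
          _ ≤ C' * ((M + 1) * (1 + N)) := hmain
          _ ≤ C' * ((M + 1) * (R' * (1 + d))) := by gcongr
          _ = _ := by ring
      have h3 : 2 * (C' * R') * (M + 1) ≤ Λ := by
        calc 2 * (C' * R') * (M + 1) ≤ C₁ * (M + 1) :=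
              mul_le_mul_of_nonneg_right hC₁2 (by linarith)
          _ ≤ Λ := hΛ
      have h4 : C' * R' * (M + 1) * d ≤ Λ / 2 * d :=
        mul_le_mul_of_nonneg_right (by linarith) hd0.le
      have h5 : Λ * d ≤ 2 * (C' * R') * (M + 1) := by
        have : C' * R' * (M + 1) * (1 + d) = C' * R' * (M + 1) + C' * R' * (M + 1) * d := by ring
        linarith
      have h6 : d ≤ C₁ * (M + 1) / Λ := by
        rw [le_div_iff₀ hΛ0]
        calc d * Λ = Λ * d := by ring
          _ ≤ 2 * (C' * R') * (M + 1) := h5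
          _ ≤ C₁ * (M + 1) := mul_le_mul_of_nonneg_right hC₁2 (by linarith)
      have h7 : d ≤ 1 := by
        by_contra hcon
        have hcon' : 1 < d := not_le.1 hcon
        have : Λ * 1 < Λ * d := mul_lt_mul_of_pos_left hcon' hΛ0
        linarith
      exact ⟨by linarith, by linarith⟩
  have hNN : N ≤ N₀ := by
    calc N ≤ R * (S.β₀ - S.Dtot n) := hNle
      _ ≤ R * (S.β₀ + 1) := mul_le_mul_of_nonneg_left (by linarith [hD.2]) hR
  have hCN : S.C * N ≤ S.C * N₀ := mul_le_mul_of_nonneg_left hNN (by linarith)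
  refine ⟨hD.1, by linarith, fun j => ?_⟩
  have := H.finl j
  have h1 : (l j).real univ ≤ (l j).real (Iio (-M - L₁)) +
      ((l j).real (Icc (-M - L₁) (-M)) + ((l j).real (Icc (-M) 0) + (l j).real (Ici 0))) := by
    refine (measureReal_mono ?_).trans ((measureReal_union_le (Iio (-M - L₁))
      (Icc (-M - L₁) (-M) ∪ (Icc (-M) 0 ∪ Ici 0))).trans ?_)
    · intro x _
      rcases lt_or_ge x (-M - L₁) with h | h
      · exact Or.inl h
      · rcases le_total x (-M) with h' | h'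
        · exact Or.inr (Or.inl ⟨h, h'⟩)
        · rcases le_total x 0 with h'' | h''
          · exact Or.inr (Or.inr (Or.inl ⟨h', h''⟩))
          · exact Or.inr (Or.inr (Or.inr h''))
    · gcongr
      refine (measureReal_union_le _ _).trans ?_
      gcongr
      exact measureReal_union_le _ _
  have h2 : (l j).real (Iio (-M - L₁)) = 0 := by
    simp [Measure.real, H.supl j]
  have h3 := S.tot_left' hM0 H j (hm0 j) (hm j)
  have h4 := S.tot_mid hM0 H j
  have h5 := (S.tot_right hκ H j).trans (le_abs_self K)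
  rw [← hN] at h3 h4
  have h6 : 1 / m j ≤ Q :=
    Finset.single_le_sum (f := fun j => 1 / m j) (fun j _ => by have := hm0 j; positivity)
      (Finset.mem_univ j)
  have hEN : S.β₀ + S.C * N + S.C ≤ E := by rw [hE]; linarith
  have hEN0 : 0 ≤ S.β₀ + S.C * N + S.C := by positivity
  have h7 : 1 / m j * (S.β₀ + S.C * N + S.C) ≤ Q * E :=
    mul_le_mul h6 hEN hEN0 hQ0
  have h8 : (M + 1) * ((S.β₀ + S.C * N + S.C) / S.c) ≤ (M + 1) * (E * (1 / S.c)) := by
    rw [mul_one_div]
    gcongr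
  have h9 : Q * E ≤ (M + 1) * (Q * E) := le_mul_of_one_le_left (by positivity) (by linarith)
  have h10 : |K| ≤ (M + 1) * |K| := le_mul_of_one_le_left hx3 (by linarith)
  have h11 : (M + 1) * (E * (Q + 1 / S.c) + |K|) ≤ (M + 1) * C₁ :=
    mul_le_mul_of_nonneg_left (by linarith) (by linarith)
  have h12 : (M + 1) * (E * (Q + 1 / S.c) + |K|) =
      (M + 1) * (Q * E) + (M + 1) * (E * (1 / S.c)) + (M + 1) * |K| := by ring
  calc (l j).real univ ≤ (M + 1) * C₁ := by linarith
    _ = C₁ * (M + 1) := by ring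

end Sys

end Pool.Agent.IND2I
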